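import Pool.Agent.LibGM16.SymA

open Complex MeasureTheory Filter Topology Matrix
open scoped ContDiff Real ComplexOrder

namespace GM16

variable {γ t : ℝ} {v v' f f' : ℂ → ℝ}

private theorem SymB_log_tendsto : Tendsto (fun w : ℂ => Real.log ‖w‖) (𝓝[≠] 0) atBot := by
  have h1 : Tendsto (fun w : ℂ => ‖w‖) (𝓝[≠] 0) (𝓝[≠] 0) := by
    refine tendsto_nhdsWithin_iff.mpr ⟨?_, ?_⟩
    · have : Tendsto (fun w : ℂ => ‖w‖) (𝓝 0) (𝓝 ‖(0 : ℂ)‖) := continuous_norm.tendsto 0
      rw [norm_zero] at this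
      exact this.mono_left nhdsWithin_le_nhds
    · filter_upwards [self_mem_nhdsWithin] with w hw
      simpa using hw
  exact Real.tendsto_log_nhdsNE_zero.comp h1

private theorem SymB_dense : Dense (ZIᶜ : Set ℂ) := by
  refine Set.Countable.dense_compl ℝ ?_
  have : ZI = Set.range (fun p : ℤ × ℤ => ((p.1 : ℂ) + p.2 * I)) := by
    ext w
    constructor
    · rintro ⟨m, n, rfl⟩; exact ⟨(m, n), rfl⟩
    · rintro ⟨⟨m, n⟩, rfl⟩; exact ⟨m, n, rfl⟩
  rw [this]
  exact Set.countable_range _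

private theorem SymB_le (ht : 1 ≤ t) (h : LinSol t v f) (h' : LinSol t v f') {w : ℂ}
    (hw : w ∉ ZI) : f w ≤ f' w := by
  have ht2 : 1 ≤ t ^ 2 := one_le_pow₀ ht
  have hs : ContDiffOn ℝ 2 f ZIᶜ := h.smooth.of_le ENat.LEInfty.out
  have hs' : ContDiffOn ℝ 2 f' ZIᶜ := h'.smooth.of_le ENat.LEInfty.out
  have key := mp_per (u := fun w => f w - f' w) (hs.sub hs')
    (fun w => by simp only [h.perx, h'.perx]) (fun w => by simp only [h.pery, h'.pery]) ?_ ?_ w hw
  · linarith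
  · intro z hz hpos
    have hn : ZIᶜ ∈ 𝓝 z := isClosed_ZI.isOpen_compl.mem_nhds hz
    rw [lap_sub (hs.contDiffAt hn) (hs'.contDiffAt hn), h.pde z hz, h'.pde z hz]
    have h2 : 1 ≤ Real.cosh (2 * v z) := Real.one_le_cosh _
    have h3 : 1 ≤ t ^ 2 * Real.cosh (2 * v z) := one_le_mul_of_one_le_of_one_le ht2 h2
    nlinarith
  · intro ε hε
    have e3 : ∀ᶠ w in 𝓝[≠] (0 : ℂ), Real.log ‖w‖ ≤ -1 / ε :=
      SymB_log_tendsto.eventually (eventually_le_atBot _)
    filter_upwards [e3] with w h3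
    rw [le_div_iff₀ hε] at h3
    have h4 := (abs_le.mp (h.bdd w)).2
    have h5 := (abs_le.mp (h'.bdd w)).1
    linarith

theorem lin_unique (ht : 1 ≤ t) (h : LinSol t v f) (h' : LinSol t v f') : f = f' :=
  h.cont.ext_on SymB_dense h'.cont
    fun _ hw => le_antisymm (SymB_le ht h h' hw) (SymB_le ht h' h hw)

private theorem SymB_comp (h : LinSol t v f) (φ : ℂ → ℂ) (hφ : ContDiff ℝ ∞ φ)
    (hZ : ∀ w, φ w ∈ ZI ↔ w ∈ ZI) (hv : ∀ w, v (φ w) = v w)
    (hl : ∀ w, ContDiffAt ℝ 2 f (φ w) → lap (fun z => f (φ z)) w = lap f (φ w))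
    (h1 : ∀ w, f (φ (w + 1)) = f (φ w)) (h2 : ∀ w, f (φ (w + I)) = f (φ w)) :
    LinSol t v (fun w => f (φ w)) where
  smooth := h.smooth.comp hφ.contDiffOn fun w hw h0 => hw ((hZ w).mp h0)
  cont := h.cont.comp hφ.continuous
  pde w hw := by
    have hw' : φ w ∉ ZI := fun h0 => hw ((hZ w).mp h0)
    have hn : ZIᶜ ∈ 𝓝 (φ w) := isClosed_ZI.isOpen_compl.mem_nhds hw'
    rw [hl w ((h.smooth.of_le ENat.LEInfty.out).contDiffAt hn), h.pde _ hw', hv]
  perx := h1
  pery := h2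
  bdd w := h.bdd (φ w)

theorem lin_neg (ht : 1 ≤ t) (hv : Sol γ t v) (h : LinSol t v f) (w : ℂ) : f (-w) = f w := by
  have key := SymB_comp h (fun w => -w) contDiff_neg
    (fun w => ⟨fun h0 => by simpa using ZI_neg h0, ZI_neg⟩) (fun w => sol_neg ht hv w)
    (fun w hw => lap_comp_neg hw) (fun w => ?_) (fun w => ?_)
  · exact congrFun (lin_unique ht key h) w
  · have := h.perx (-(w + 1))
    rw [← this]; ring_nf
  · have := h.pery (-(w + I))
    rw [← this]; ring_nf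

theorem lin_conj (ht : 1 ≤ t) (hv : Sol γ t v) (h : LinSol t v f) (w : ℂ) :
    f (starRingEnd ℂ w) = f w := by
  have key := SymB_comp h (fun w => starRingEnd ℂ w) conjCLE.contDiff
    (fun w => ⟨fun h0 => by simpa using ZI_conj h0, ZI_conj⟩) (fun w => sol_conj ht hv w)
    (fun w hw => lap_comp_conj hw) (fun w => ?_) (fun w => ?_)
  · exact congrFun (lin_unique ht key h) w
  · rw [map_add, map_one, h.perx]
  · have := h.pery (starRingEnd ℂ (w + I))
    rw [← this, map_add, conj_I]; ring_nf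

theorem lin_mulI (ht : 1 ≤ t) (hv : Sol γ t v) (h : LinSol t v f) (w : ℂ) : f (I * w) = f w := by
  have key := SymB_comp h (fun w => I * w) (contDiff_const.mul contDiff_id)
    (fun w => ⟨fun h0 => ?_, ZI_mulI⟩) (fun w => sol_mulI ht hv w)
    (fun w hw => lap_comp_mulI hw) (fun w => ?_) (fun w => ?_)
  · exact congrFun (lin_unique ht key h) w
  · have h1 := ZI_neg (ZI_mulI h0)
    have h2 : -(I * (I * w)) = w := by rw [← mul_assoc, I_mul_I]; ring
    rwa [h2] at h1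
  · rw [mul_add, mul_one, h.pery]
  · have := h.perx (I * (w + I))
    rw [← this]
    have h2 : I * (w + I) + 1 = I * w := by rw [mul_add, I_mul_I]; ring
    rw [h2]

end GM16
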