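import Pool.Agent.LibGM16.SymA
import Pool.Agent.LibGM16.SymB

open Complex MeasureTheory Filter Topology Matrix
open scoped ContDiff Real ComplexOrder

namespace GM16

variable {γ t : ℝ} {v v' f f' : ℂ → ℝ}

private theorem Normal_even {g : ℂ → ℝ} {w a : ℂ} (hg : DifferentiableAt ℝ g w)
    (he : ∀ s : ℝ, g (w + s * a) = g (w - s * a)) : fderiv ℝ g w a = 0 := by
  have h1 := hasDerivAt_line (v := a) hg
  have h2 : HasDerivAt (fun s : ℝ => g (w + ((-s : ℝ) : ℂ) * a)) (fderiv ℝ g w a * (-1)) 0 := by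
    have h3 : HasDerivAt (fun s : ℝ => -s) (-1) 0 := hasDerivAt_neg 0
    have h4 : HasDerivAt (fun s : ℝ => g (w + s * a)) (fderiv ℝ g w a) (-(0 : ℝ)) := by
      rw [neg_zero]; exact h1
    exact h4.comp (0 : ℝ) h3
  have h5 : (fun s : ℝ => g (w + ((-s : ℝ) : ℂ) * a)) = fun s : ℝ => g (w + s * a) := by
    funext s
    rw [he s]; push_cast; ring_nf
  rw [h5] at h2
  have := h1.unique h2
  linarith

private theorem Normal_gen {g : ℂ → ℝ} (hd : ContDiffOn ℝ ∞ g ZIᶜ)
    (h1 : ∀ w, g (w + 1) = g w) (h2 : ∀ w, g (w + I) = g w) (h3 : ∀ w, g (-w) = g w)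
    (h4 : ∀ w, g (starRingEnd ℂ w) = g w) {w : ℂ} (hw : w ∈ QQ) :
    (|w.re| = 1 / 2 → dx g w = 0) ∧ (|w.im| = 1 / 2 → dy g w = 0) := by
  have hdiff : w ≠ 0 → DifferentiableAt ℝ g w := by
    intro h0
    have hz : w ∉ ZI := fun hz => h0 (QQ_inter_ZI hw hz)
    have hn : ZIᶜ ∈ 𝓝 w := isClosed_ZI.isOpen_compl.mem_nhds hz
    exact ((hd.of_le (ENat.LEInfty.out : (2 : WithTop ℕ∞) ≤ ∞)).contDiffAt hn).differentiableAt
      (by norm_num)
  refine ⟨fun hr => ?_, fun hi => ?_⟩
  · have h0 : w ≠ 0 := by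
      rintro rfl
      norm_num at hr
    refine Normal_even (hdiff h0) fun s => ?_
    have hc : w + starRingEnd ℂ w = ((2 * w.re : ℝ) : ℂ) := by
      apply Complex.ext <;> simp; ring
    rw [← h3 (w - s * 1), ← h4 (-(w - s * 1))]
    rcases (abs_eq (by norm_num : (0 : ℝ) ≤ 1 / 2)).mp hr with h | h
    · rw [h] at hc
      have e : starRingEnd ℂ (-(w - s * 1)) = w + s * 1 - 1 := by
        simp only [map_neg, map_sub, map_mul, conj_ofReal, map_one, mul_one]
        push_cast at hc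
        linear_combination (-1 : ℂ) * hc
      rw [e, ← h1 (w + s * 1 - 1), sub_add_cancel]
    · rw [h] at hc
      have e : starRingEnd ℂ (-(w - s * 1)) = w + s * 1 + 1 := by
        simp only [map_neg, map_sub, map_mul, conj_ofReal, map_one, mul_one]
        push_cast at hc
        linear_combination (-1 : ℂ) * hc
      rw [e, h1]
  · have h0 : w ≠ 0 := by
      rintro rfl
      norm_num at hi
    refine Normal_even (hdiff h0) fun s => ?_
    have hc : w - starRingEnd ℂ w = ((2 * w.im : ℝ) : ℂ) * I := by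
      apply Complex.ext <;> simp; ring
    rw [← h4 (w - s * I)]
    rcases (abs_eq (by norm_num : (0 : ℝ) ≤ 1 / 2)).mp hi with h | h
    · rw [h] at hc
      have e : starRingEnd ℂ (w - s * I) = w + s * I - I := by
        simp only [map_sub, map_mul, conj_ofReal, conj_I]
        push_cast at hc
        linear_combination (-1 : ℂ) * hc
      rw [e, ← h2 (w + s * I - I), sub_add_cancel]
    · rw [h] at hc
      have e : starRingEnd ℂ (w - s * I) = w + s * I + I := by
        simp only [map_sub, map_mul, conj_ofReal, conj_I]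
        push_cast at hc
        linear_combination (-1 : ℂ) * hc
      rw [e, h2]

/-- the normal derivatives vanish on the edges of the square -/
theorem normal_v (ht : 1 ≤ t) (h : Sol γ t v) {w : ℂ} (hw : w ∈ QQ) :
    (|w.re| = 1 / 2 → dx v w = 0) ∧ (|w.im| = 1 / 2 → dy v w = 0) :=
  Normal_gen h.smooth h.perx h.pery (sol_neg ht h) (sol_conj ht h) hw

theorem normal_f (ht : 1 ≤ t) (hv : Sol γ t v) (h : LinSol t v f) {w : ℂ} (hw : w ∈ QQ) :
    (|w.re| = 1 / 2 → dx f w = 0) ∧ (|w.im| = 1 / 2 → dy f w = 0) :=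
  Normal_gen h.smooth h.perx h.pery (lin_neg ht hv h) (lin_conj ht hv h) hw

end GM16
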