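import Pool.Agent.LibGM16.PohoDefs
import Pool.Agent.LibGM16.Normal

open Complex MeasureTheory Filter Topology Matrix
open scoped ContDiff Real ComplexOrder

namespace GM16

variable {γ t : ℝ} {v v' f f' : ℂ → ℝ}

theorem Bdry_edge (y : ℝ) : edge y = (⟨1 / 2, y⟩ : ℂ) := by
  apply Complex.ext <;> simp [edge]

theorem Bdry_per {g : ℂ → ℝ} {a : ℂ} (h1 : ∀ w, g (w + a) = g w) (w : ℂ) :
    dx g (w + a) = dx g w ∧ dy g (w + a) = dy g w := by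
  have e : (fun z => g (z + a)) = g := funext h1
  exact ⟨by rw [← dx_trans g a w, e], by rw [← dy_trans g a w, e]⟩

/-- the symmetry `(x, y) ↦ (y, x)` exchanges the two derivatives -/
theorem Bdry_swap {g : ℂ → ℝ} (h : ∀ w, g (I * starRingEnd ℂ w) = g w) (w : ℂ) :
    dx g (I * starRingEnd ℂ w) = dy g w := by
  let e0 : ℂ ≃L[ℝ] ℂ :=
    (ContinuousLinearEquiv.unitsEquivAut ℂ (Units.mk0 I Complex.I_ne_zero)).restrictScalars ℝ
  let e : ℂ ≃L[ℝ] ℂ := Complex.conjCLE.trans e0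
  have he : ∀ z, e z = I * starRingEnd ℂ z := fun z => by
    show starRingEnd ℂ z * I = I * starRingEnd ℂ z
    ring
  have e1 : (fun z => g (e z)) = g := by
    funext z
    rw [he, h]
  have h2 := CalcC_fderiv e g w I
  rw [e1, he, he] at h2
  have h3 : I * starRingEnd ℂ I = 1 := by
    rw [Complex.conj_I]
    simp
  rw [h3] at h2
  exact h2.symm

/-- The boundary values: on the right edge `PF = -½ (v_y f_y + Ψ)`. -/
theorem boundary (ht : 1 ≤ t) (hv : Sol γ t v) (h : LinSol t v f) {y : ℝ} (hy : |y| ≤ 1 / 2) :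
    PF t v f (⟨1 / 2, y⟩ : ℂ) - PF t v f (⟨-(1 / 2), y⟩ : ℂ) =
      -(dy v (edge y) * dy f (edge y) + Psi t v f (edge y)) ∧
    PG t v f (⟨y, 1 / 2⟩ : ℂ) - PG t v f (⟨y, -(1 / 2)⟩ : ℂ) =
      -(dy v (edge y) * dy f (edge y) + Psi t v f (edge y)) := by
  have habs : |(1 / 2 : ℝ)| ≤ 1 / 2 := by rw [abs_of_pos (by norm_num)]
  have habs' : |(1 / 2 : ℝ)| = 1 / 2 := by rw [abs_of_pos (by norm_num)]
  constructor
  · have hQ : (⟨1 / 2, y⟩ : ℂ) ∈ QQ := ⟨habs, hy⟩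
    have hvx : dx v (⟨1 / 2, y⟩ : ℂ) = 0 := (normal_v ht hv hQ).1 habs'
    have hfx : dx f (⟨1 / 2, y⟩ : ℂ) = 0 := (normal_f ht hv h hQ).1 habs'
    have e : (⟨-(1 / 2), y⟩ : ℂ) + 1 = (⟨1 / 2, y⟩ : ℂ) := by
      apply Complex.ext
      · simp; norm_num
      · simp
    have pv := Bdry_per hv.perx (⟨-(1 / 2), y⟩ : ℂ)
    have pf := Bdry_per h.perx (⟨-(1 / 2), y⟩ : ℂ)
    have v0 := hv.perx (⟨-(1 / 2), y⟩ : ℂ)
    have f0 := h.perx (⟨-(1 / 2), y⟩ : ℂ)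
    rw [e] at pv pf v0 f0
    have hPsi : Psi t v f (⟨-(1 / 2), y⟩ : ℂ) = Psi t v f (⟨1 / 2, y⟩ : ℂ) := by
      unfold Psi
      rw [v0, f0]
    rw [Bdry_edge]
    unfold PF
    rw [hPsi, ← pv.1, ← pv.2, ← pf.1, ← pf.2, hvx, hfx]
    simp only
    ring
  · have hQ : (⟨y, 1 / 2⟩ : ℂ) ∈ QQ := ⟨hy, habs⟩
    have hvy : dy v (⟨y, 1 / 2⟩ : ℂ) = 0 := (normal_v ht hv hQ).2 habs'
    have hfy : dy f (⟨y, 1 / 2⟩ : ℂ) = 0 := (normal_f ht hv h hQ).2 habs'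
    have e : (⟨y, -(1 / 2)⟩ : ℂ) + I = (⟨y, 1 / 2⟩ : ℂ) := by
      apply Complex.ext
      · simp
      · simp; norm_num
    have pv := Bdry_per hv.pery (⟨y, -(1 / 2)⟩ : ℂ)
    have pf := Bdry_per h.pery (⟨y, -(1 / 2)⟩ : ℂ)
    have v0 := hv.pery (⟨y, -(1 / 2)⟩ : ℂ)
    have f0 := h.pery (⟨y, -(1 / 2)⟩ : ℂ)
    rw [e] at pv pf v0 f0
    have sv : ∀ w, v (I * starRingEnd ℂ w) = v w := fun w => by
      rw [sol_mulI ht hv, sol_conj ht hv]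
    have sf : ∀ w, f (I * starRingEnd ℂ w) = f w := fun w => by
      rw [lin_mulI ht hv h, lin_conj ht hv h]
    have es : I * starRingEnd ℂ (⟨1 / 2, y⟩ : ℂ) = (⟨y, 1 / 2⟩ : ℂ) := by
      apply Complex.ext <;> simp
    have dv := Bdry_swap sv (⟨1 / 2, y⟩ : ℂ)
    have df := Bdry_swap sf (⟨1 / 2, y⟩ : ℂ)
    have v1 := sv (⟨1 / 2, y⟩ : ℂ)
    have f1 := sf (⟨1 / 2, y⟩ : ℂ)
    rw [es] at dv df v1 f1
    have hPsi : Psi t v f (⟨y, -(1 / 2)⟩ : ℂ) = Psi t v f (⟨1 / 2, y⟩ : ℂ) := by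
      unfold Psi
      rw [← v0, ← f0, v1, f1]
    have hPsi' : Psi t v f (⟨y, 1 / 2⟩ : ℂ) = Psi t v f (⟨1 / 2, y⟩ : ℂ) := by
      unfold Psi
      rw [v1, f1]
    rw [Bdry_edge, ← dv, ← df]
    unfold PG
    rw [hPsi, hPsi', ← pv.1, ← pv.2, ← pf.1, ← pf.2, hvy, hfy]
    simp only
    ring

end GM16
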