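import Pool.Agent.LibGM16.WE

open Complex MeasureTheory Filter Topology Matrix
open scoped ContDiff Real ComplexOrder

namespace GM16

variable {γ t : ℝ} {v v' f f' : ℂ → ℝ}

/-- the cubic polynomial factors identically -/
theorem cubic_factor (X : ℂ) :
    4 * X ^ 3 - L0.g₂ * X - L0.g₃ = 4 * (X - e1) * (X - e2) * (X - e3) := by
  obtain ⟨w, hw, hX⟩ := wp_surj X
  have h1 := wpd_sq hw
  have h2 := wpd_sq_factor hw
  rw [hX] at h1 h2
  rw [← h1, h2]

/-- near a half period `ω`: `(℘(w) - ℘(ω))/(w - ω)² → c ≠ 0` -/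
theorem wp_half {w₀ : ℂ} (h : w₀ ∉ LL) (hz : w₀ ∈ ZI) : ∃ c : ℂ, c ≠ 0 ∧
    Tendsto (fun w => (wp w - wp w₀) / (w - w₀) ^ 2) (𝓝[≠] w₀) (𝓝 c) := by
  -- the second derivative at `w₀`
  have hdd : (6 * wp w₀ ^ 2 - L0.g₂ / 2) ≠ 0 := by
    have c0 := cubic_factor 0
    have c1 := cubic_factor 1
    have c2 := cubic_factor (-1)
    have hs : e1 + e2 + e3 = 0 := by linear_combination (c1 + c2 - 2 * c0) / 8
    have hg : L0.g₂ = -4 * (e1 * e2 + e1 * e3 + e2 * e3) := by
      linear_combination (c2 - c1) / 2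
    obtain ⟨h12, h13, h23⟩ := e_ne
    rcases wp_e h hz with ⟨_, hw⟩ | ⟨_, hw⟩ | ⟨_, hw⟩
    · rw [hw]
      have : (6 * e1 ^ 2 - L0.g₂ / 2) = 2 * (e1 - e2) * (e1 - e3) := by
        rw [hg]; linear_combination 4 * e1 * hs
      rw [this]
      exact mul_ne_zero (mul_ne_zero two_ne_zero (sub_ne_zero.2 h12)) (sub_ne_zero.2 h13)
    · rw [hw]
      have : (6 * e2 ^ 2 - L0.g₂ / 2) = 2 * (e2 - e1) * (e2 - e3) := by
        rw [hg]; linear_combination 4 * e2 * hs
      rw [this]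
      exact mul_ne_zero (mul_ne_zero two_ne_zero (sub_ne_zero.2 h12.symm)) (sub_ne_zero.2 h23)
    · rw [hw]
      have : (6 * e3 ^ 2 - L0.g₂ / 2) = 2 * (e3 - e1) * (e3 - e2) := by
        rw [hg]; linear_combination 4 * e3 * hs
      rw [this]
      exact mul_ne_zero (mul_ne_zero two_ne_zero (sub_ne_zero.2 h13.symm)) (sub_ne_zero.2 h23.symm)
  have hA := (wp_analytic h).1
  have hd0 : wpd w₀ = 0 := (wpd_eq_zero h).2 hz
  obtain ⟨p, hp⟩ := hA
  have hB : AnalyticAt ℂ (dslope wp w₀) w₀ := hp.has_fpower_series_dslope_fslope.analyticAt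
  have hval : dslope wp w₀ w₀ = 0 := by
    rw [dslope_same, (wp_hasDeriv h).deriv, hd0]
  have hexp : ∀ w, wp w = wp w₀ + (w - w₀) * dslope wp w₀ w := by
    intro w
    have := sub_smul_dslope wp w₀ w
    rw [smul_eq_mul] at this
    rw [this]; ring
  have hwpd : ∀ᶠ w in 𝓝 w₀, wpd w = dslope wp w₀ w + (w - w₀) * deriv (dslope wp w₀) w := by
    filter_upwards [hB.eventually_analyticAt, isClosed_LL.isOpen_compl.mem_nhds h] with w hw hw2
    have h1 : HasDerivAt (fun w => wp w₀ + (w - w₀) * dslope wp w₀ w)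
        (1 * dslope wp w₀ w + (w - w₀) * deriv (dslope wp w₀) w) w :=
      (((hasDerivAt_id w).sub_const w₀).mul hw.differentiableAt.hasDerivAt).const_add _
    have h2 : HasDerivAt wp (1 * dslope wp w₀ w + (w - w₀) * deriv (dslope wp w₀) w) w := by
      refine h1.congr_of_eventuallyEq (Eventually.of_forall ?_)
      exact hexp
    rw [← one_mul (dslope wp w₀ w)]
    exact (wp_hasDeriv hw2).unique h2
  have hdd2 : 6 * wp w₀ ^ 2 - L0.g₂ / 2 = 2 * deriv (dslope wp w₀) w₀ := by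
    have h1 : HasDerivAt (fun w => dslope wp w₀ w + (w - w₀) * deriv (dslope wp w₀) w)
        (deriv (dslope wp w₀) w₀ + (1 * deriv (dslope wp w₀) w₀ +
          (w₀ - w₀) * deriv (deriv (dslope wp w₀)) w₀)) w₀ :=
      hB.differentiableAt.hasDerivAt.fun_add (((hasDerivAt_id w₀).sub_const w₀).mul
        hB.deriv.differentiableAt.hasDerivAt)
    have h2 := h1.congr_of_eventuallyEq hwpd
    have h3 := (wpd_hasDeriv h).unique h2
    rw [h3]; ring
  refine ⟨deriv (dslope wp w₀) w₀, ?_, ?_⟩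
  · intro h0
    rw [hdd2, h0, mul_zero] at hdd
    exact hdd rfl
  · have h1 := hB.differentiableAt.hasDerivAt.tendsto_slope
    refine h1.congr' ?_
    filter_upwards [self_mem_nhdsWithin] with w hw
    have hw' : w - w₀ ≠ 0 := sub_ne_zero.2 hw
    rw [slope_def_field, hval, hexp w]
    field_simp
    ring

/-- punctured neighbourhoods from full neighbourhoods -/
theorem nhdsNE_le_map {f : ℂ → ℂ} {z : ℂ} (h : 𝓝 (f z) ≤ Filter.map f (𝓝 z)) :
    𝓝[≠] (f z) ≤ Filter.map f (𝓝[≠] z) := by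
  intro s hs
  rw [mem_map, mem_nhdsWithin_iff_eventually] at hs
  have h1 : insert (f z) s ∈ Filter.map f (𝓝 z) := by
    rw [mem_map]
    filter_upwards [hs] with w hw
    by_cases hwz : w = z
    · subst hwz; exact Set.mem_insert _ _
    · exact Set.mem_insert_of_mem _ (hw hwz)
  have h2 := h h1
  rw [mem_nhdsWithin_iff_eventually]
  filter_upwards [h2] with y hy hy2
  exact hy.resolve_left hy2

/-- punctured neighbourhoods are covered -/
theorem nhds_le_map {w₀ : ℂ} (h : w₀ ∉ LL) : 𝓝[≠] (wp w₀) ≤ Filter.map wp (𝓝[≠] w₀) := by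
  apply nhdsNE_le_map
  refine (wp_analytic h).1.eventually_constant_or_nhds_le_map_nhds.resolve_left ?_
  intro hc
  apply wpd_not_eventually_zero h
  filter_upwards [hc.eventually_nhds, isClosed_LL.isOpen_compl.mem_nhds h] with z hz hz2
  have h1 : wp =ᶠ[𝓝 z] fun _ => wp w₀ := hz
  have h2 := h1.deriv_eq
  rw [(wp_hasDeriv hz2).deriv, deriv_const] at h2
  exact h2

theorem cocompact_le_map : cocompact ℂ ≤ Filter.map wp (𝓝[≠] 0) := by
  classical
  have hwp0 : wp 0 = 0 := L0.weierstrassP_zero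
  have htend : Tendsto (fun w => (wp w)⁻¹) (𝓝[≠] 0) (𝓝[≠] 0) := by
    have h1 := wp_tendsto zero_mem_LL
    rw [← Metric.cobounded_eq_cocompact] at h1
    exact tendsto_inv₀_cobounded'.comp h1
  have hcont : ContinuousAt (fun w => (wp w)⁻¹) 0 := by
    rw [continuousAt_iff_punctured_nhds]
    simp only [hwp0, _root_.inv_zero]
    exact htend.mono_right nhdsWithin_le_nhds
  have hne : ∀ᶠ w in 𝓝[≠] (0 : ℂ), (wp w)⁻¹ ≠ 0 := htend.eventually self_mem_nhdsWithin
  have hA : AnalyticAt ℂ (fun w => (wp w)⁻¹) 0 := by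
    refine analyticAt_of_differentiable_on_punctured_nhds_of_continuousAt ?_ hcont
    filter_upwards [eventually_notMem_LL 0, hne] with w hw hw2
    exact (wp_hasDeriv hw).differentiableAt.inv (by simpa using hw2)
  have h1 : 𝓝 ((fun w => (wp w)⁻¹) 0) ≤ Filter.map (fun w => (wp w)⁻¹) (𝓝 0) := by
    refine hA.eventually_constant_or_nhds_le_map_nhds.resolve_left ?_
    intro hc
    have h2 := (hc.filter_mono (nhdsWithin_le_nhds (s := {0}ᶜ))).and hne
    obtain ⟨w, hw1, hw2⟩ := h2.exists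
    exact hw2 (by rw [hw1]; simp [hwp0])
  have h2 := nhdsNE_le_map h1
  simp only [hwp0, _root_.inv_zero] at h2
  have h5 : Filter.map (fun x : ℂ => x⁻¹) (𝓝[≠] 0) = Bornology.cobounded ℂ :=
    Filter.inv_nhdsNE_zero
  rw [← Metric.cobounded_eq_cocompact, ← h5]
  have h3 : Filter.map (fun x : ℂ => x⁻¹) (𝓝[≠] (0 : ℂ)) ≤
      Filter.map (fun x : ℂ => x⁻¹) (Filter.map (fun w => (wp w)⁻¹) (𝓝[≠] 0)) :=
    Filter.map_mono h2
  refine h3.trans ?_
  have h4 : Filter.map (fun x : ℂ => x⁻¹) (Filter.map (fun w => (wp w)⁻¹) (𝓝[≠] 0)) =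
      Filter.map wp (𝓝[≠] 0) := by
    rw [Filter.map_map]
    congr 1
    ext w
    simp
  exact h4.le

end GM16
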