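import Pool.Agent.LibGM16.HA
import Pool.Agent.LibGM16.WF

open Complex MeasureTheory Filter Topology Matrix
open scoped ContDiff Real ComplexOrder unitInterval

namespace GM16

variable {γ t : ℝ} {v v' f f' : ℂ → ℝ}

/-- The complement of the Gaussian integers. -/
abbrev CW : Type := {w : ℂ // w ∉ ZI}

theorem CW_LL {w : ℂ} (h : w ∉ ZI) : w ∉ LL := fun h' => h (LL_sub_ZI h')

theorem CW_add {g w : ℂ} (hg : g ∈ LL) (hw : w ∉ ZI) : g + w ∉ ZI := by
  intro h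
  apply hw
  have h1 := ZI_add h (ZI_neg (LL_sub_ZI hg))
  have e : g + w + -g = w := by ring
  rwa [e] at h1

instance CW_action : AddAction L0.lattice CW where
  vadd g w := ⟨g.1 + w.1, CW_add ((mem_LL_iff _).2 g.2) w.2⟩
  zero_vadd w := Subtype.ext (by show ((0 : L0.lattice) : ℂ) + w.1 = w.1; simp)
  add_vadd g h w := Subtype.ext (by
    show ((g + h : L0.lattice) : ℂ) + w.1 = g.1 + (h.1 + w.1)
    push_cast
    ring)

theorem CW_vadd (g : L0.lattice) (w : CW) : (g +ᵥ w).1 = g.1 + w.1 := rfl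

/-- The covering map `w ↦ (℘ w, 1/℘' w)`. -/
noncomputable def CWmap (γ : ℝ) (w : CW) : (EX γ).Sig :=
  ⟨(wp w.1, (wpd w.1)⁻¹), wp_mem_U w.2, by
    have h1 : (EX γ).A (wp w.1) = AA (wp w.1) := rfl
    rw [h1]
    unfold AA
    rw [Matrix.det_fin_two_of, qq_wp w.2]
    simp⟩

theorem Sig_sq (x : (EX γ).Sig) : x.1.2 ^ 2 = qq x.1.1 := by
  have h := x.2.2
  have h1 : (EX γ).A x.1.1 = AA x.1.1 := rfl
  rw [h1] at h
  unfold AA at h
  rw [Matrix.det_fin_two_of] at h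
  rw [h]
  ring

theorem CW_wpd_ne {w : ℂ} (h : w ∉ ZI) : wpd w ≠ 0 := fun h0 =>
  h ((wpd_eq_zero (CW_LL h)).1 h0)

theorem Sig_sq' (x : (EX γ).Sig) {w : ℂ} (hw : w ∉ ZI) (h : wp w = x.1.1) :
    x.1.2 = (wpd w)⁻¹ ∨ x.1.2 = -(wpd w)⁻¹ := by
  apply sq_eq_sq_iff_eq_or_eq_neg.1
  rw [Sig_sq x, ← h, qq_wp hw]
  simp

theorem CWmap_cont : Continuous (CWmap γ) := by
  apply Continuous.subtype_mk
  apply Continuous.prodMk
  · rw [continuous_iff_continuousAt]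
    intro w
    exact (wp_analytic (CW_LL w.2)).1.continuousAt.comp continuous_subtype_val.continuousAt
  · rw [continuous_iff_continuousAt]
    intro w
    have h1 : ContinuousAt (fun w : CW => wpd w.1) w :=
      (wp_analytic (CW_LL w.2)).2.continuousAt.comp continuous_subtype_val.continuousAt
    exact h1.inv₀ (CW_wpd_ne w.2)

theorem CWmap_surj : Function.Surjective (CWmap γ) := by
  intro x
  obtain ⟨w, hw, hwx⟩ := exists_w x.2.1
  rcases Sig_sq' x hw hwx with h | h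
  · exact ⟨⟨w, hw⟩, Subtype.ext (Prod.ext hwx h.symm)⟩
  · have hw' : -w ∉ ZI := fun h' => hw (by simpa using ZI_neg h')
    refine ⟨⟨-w, hw'⟩, Subtype.ext (Prod.ext ?_ ?_)⟩
    · show wp (-w) = _
      rw [(wp_neg w).1, hwx]
    · show (wpd (-w))⁻¹ = _
      rw [(wp_neg w).2, h, inv_neg]

theorem CWmap_open : IsOpenMap (CWmap γ) := by
  rw [isOpenMap_iff_nhds_le]
  intro w s hs
  rw [mem_map] at hs
  obtain ⟨T, hT, hTs⟩ := mem_nhds_subtype _ _ _ |>.1 hs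
  set y₀ := (wpd w.1)⁻¹ with hy₀
  have hy0 : y₀ ≠ 0 := inv_ne_zero (CW_wpd_ne w.2)
  have hV1 : ∀ᶠ z in 𝓝 w.1, z ∉ ZI := isClosed_ZI.isOpen_compl.mem_nhds w.2
  have hV2 : ∀ᶠ z in 𝓝 w.1, ‖(wpd z)⁻¹ - y₀‖ < ‖y₀‖ / 2 := by
    have h1 : ContinuousAt (fun z => (wpd z)⁻¹) w.1 :=
      (wp_analytic (CW_LL w.2)).2.continuousAt.inv₀ (CW_wpd_ne w.2)
    have h2 : ContinuousAt (fun z => ‖(wpd z)⁻¹ - y₀‖) w.1 := (h1.sub continuousAt_const).norm
    apply h2.eventually_lt continuousAt_const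
    rw [sub_self, norm_zero]
    positivity
  have hV : {z | z ∈ T ∧ z ∉ ZI ∧ ‖(wpd z)⁻¹ - y₀‖ < ‖y₀‖ / 2} ∈ 𝓝 w.1 := by
    filter_upwards [hT, hV1, hV2] with z a b c
    exact ⟨a, b, c⟩
  set V : Set ℂ := {z | z ∈ T ∧ z ∉ ZI ∧ ‖(wpd z)⁻¹ - y₀‖ < ‖y₀‖ / 2} with hVdef
  have hstrict : HasStrictDerivAt wp (wpd w.1) w.1 := by
    have h1 := (wp_analytic (CW_LL w.2)).1.hasStrictDerivAt
    rwa [(wp_hasDeriv (CW_LL w.2)).deriv] at h1
  have hmap : wp '' V ∈ 𝓝 (wp w.1) := by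
    rw [← hstrict.map_nhds_eq (CW_wpd_ne w.2)]
    exact image_mem_map hV
  have hc1 : ContinuousAt (fun x : (EX γ).Sig => x.1.1) (CWmap γ w) :=
    (continuous_fst.comp continuous_subtype_val).continuousAt
  have hc2 : ContinuousAt (fun x : (EX γ).Sig => x.1.2) (CWmap γ w) :=
    (continuous_snd.comp continuous_subtype_val).continuousAt
  have e1 : ∀ᶠ x in 𝓝 (CWmap γ w), x.1.1 ∈ wp '' V := hc1.eventually hmap
  have e2 : ∀ᶠ x in 𝓝 (CWmap γ w), ‖x.1.2 - y₀‖ < ‖y₀‖ / 2 := by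
    have h2 : ContinuousAt (fun x : (EX γ).Sig => ‖x.1.2 - y₀‖) (CWmap γ w) :=
      (hc2.sub continuousAt_const).norm
    apply h2.eventually_lt continuousAt_const
    show ‖(wpd w.1)⁻¹ - y₀‖ < _
    rw [← hy₀, sub_self, norm_zero]
    positivity
  filter_upwards [e1, e2] with x a b
  obtain ⟨z, ⟨hzT, hzZ, hz3⟩, hzx⟩ := a
  have hx : CWmap γ ⟨z, hzZ⟩ = x := by
    apply Subtype.ext
    apply Prod.ext hzx
    rcases Sig_sq' x hzZ hzx with h | h
    · exact h.symm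
    · exfalso
      rw [h] at b
      have h4 : ‖y₀ + y₀‖ < ‖y₀‖ := by
        have e : y₀ + y₀ = -(((wpd z)⁻¹ - y₀) + (-(wpd z)⁻¹ - y₀)) := by ring
        rw [e, norm_neg]
        have := norm_add_le ((wpd z)⁻¹ - y₀) (-(wpd z)⁻¹ - y₀)
        linarith
      have h5 : ‖y₀ + y₀‖ = 2 * ‖y₀‖ := by
        rw [← two_mul, norm_mul]
        simp
      have h6 := norm_pos_iff.2 hy0
      linarith
  rw [← hx]
  exact hTs hzT

theorem CW_lattice_norm {g : ℂ} (hg : g ∈ LL) (h : ‖g‖ < 1) : g = 0 := by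
  by_contra h0
  have := one_le_norm_ZI (LL_sub_ZI hg) h0
  linarith

theorem CWmap_quot : IsAddQuotientCoveringMap (CWmap γ) L0.lattice where
  toIsQuotientMap := CWmap_open.isQuotientMap CWmap_cont CWmap_surj
  continuous_const_vadd g := by
    apply Continuous.subtype_mk
    exact continuous_const.add continuous_subtype_val
  apply_eq_iff_mem_orbit {e₁ e₂} := by
    constructor
    · intro h
      have h1 : wp e₁.1 = wp e₂.1 := congrArg (fun x => x.1.1) h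
      have h2 : (wpd e₁.1)⁻¹ = (wpd e₂.1)⁻¹ := congrArg (fun x => x.1.2) h
      have h3 := wp_core_wc (CW_LL e₂.2) (CW_LL e₁.2) h1.symm (inv_injective h2).symm
      refine ⟨⟨e₁.1 - e₂.1, (mem_LL_iff _).1 h3⟩, Subtype.ext ?_⟩
      show e₁.1 - e₂.1 + e₂.1 = e₁.1
      ring
    · rintro ⟨g, rfl⟩
      have h1 := wp_per ((mem_LL_iff _).2 g.2) e₂.1
      apply Subtype.ext
      apply Prod.ext
      · show wp (g.1 + e₂.1) = _
        rw [add_comm, h1.1]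
        rfl
      · show (wpd (g.1 + e₂.1))⁻¹ = _
        rw [add_comm, h1.2]
        rfl
  disjoint e := by
    refine ⟨{w : CW | ‖w.1 - e.1‖ < 1 / 2}, ?_, ?_⟩
    · have h1 : Continuous fun w : CW => ‖w.1 - e.1‖ := by fun_prop
      apply h1.continuousAt.eventually_lt continuousAt_const
      simp
    · rintro g ⟨w, ⟨u, hu, rfl⟩, hw⟩
      have h1 : ‖u.1 - e.1‖ < 1 / 2 := hu
      have h2 : ‖g.1 + u.1 - e.1‖ < 1 / 2 := hw
      apply Subtype.ext
      apply CW_lattice_norm ((mem_LL_iff _).2 g.2)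
      have e3 : g.1 = (g.1 + u.1 - e.1) - (u.1 - e.1) := by ring
      rw [e3]
      have := norm_sub_le (g.1 + u.1 - e.1) (u.1 - e.1)
      linarith

theorem CWmap_cov : IsCoveringMap (CWmap γ) := CWmap_quot.isCoveringMap

theorem CWmap_eq {x : (EX γ).Sig} {w : ℂ} (h0 : w ∉ ZI) (h1 : wp w = x.1.1)
    (h2 : wpd w * x.1.2 = 1) : CWmap γ ⟨w, h0⟩ = x := by
  apply Subtype.ext
  apply Prod.ext h1
  exact (eq_inv_of_mul_eq_one_right h2).symm

theorem CWmap_spec (w : CW) : wp w.1 = (CWmap γ w).1.1 ∧ wpd w.1 * (CWmap γ w).1.2 = 1 :=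
  ⟨rfl, mul_inv_cancel₀ (CW_wpd_ne w.2)⟩

end GM16
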