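import Pool.Agent.LibGM16.Defs

open Complex MeasureTheory Filter Topology Matrix
open scoped ContDiff Real ComplexOrder

namespace GM16

variable {γ t : ℝ} {v v' f f' : ℂ → ℝ}

/-- `lap` only depends on the germ. -/
theorem lap_congr {f g : ℂ → ℝ} {w : ℂ} (h : f =ᶠ[𝓝 w] g) : lap f w = lap g w := by
  have h1 : dx f =ᶠ[𝓝 w] dx g := h.fderiv.mono fun z hz => by
    show fderiv ℝ f z 1 = fderiv ℝ g z 1
    rw [hz]
  have h2 : dy f =ᶠ[𝓝 w] dy g := h.fderiv.mono fun z hz => by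
    show fderiv ℝ f z I = fderiv ℝ g z I
    rw [hz]
  show fderiv ℝ (dx f) w 1 + fderiv ℝ (dy f) w I = fderiv ℝ (dx g) w 1 + fderiv ℝ (dy g) w I
  rw [h1.fderiv_eq, h2.fderiv_eq]

theorem dx_congr {F : Type*} [NormedAddCommGroup F] [NormedSpace ℝ F] {f g : ℂ → F} {w : ℂ}
    (h : f =ᶠ[𝓝 w] g) : dx f w = dx g w := by
  show fderiv ℝ f w 1 = fderiv ℝ g w 1
  rw [h.fderiv_eq]

theorem dy_congr {F : Type*} [NormedAddCommGroup F] [NormedSpace ℝ F] {f g : ℂ → F} {w : ℂ}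
    (h : f =ᶠ[𝓝 w] g) : dy f w = dy g w := by
  show fderiv ℝ f w I = fderiv ℝ g w I
  rw [h.fderiv_eq]

/-- regularity of the first derivatives -/
theorem CalcA_dx {f : ℂ → ℝ} {w : ℂ} (hf : ContDiffAt ℝ 2 f w) : ContDiffAt ℝ 1 (dx f) w :=
  (hf.fderiv_right (m := 1) (by norm_num)).clm_apply contDiffAt_const

theorem CalcA_dy {f : ℂ → ℝ} {w : ℂ} (hf : ContDiffAt ℝ 2 f w) : ContDiffAt ℝ 1 (dy f) w :=
  (hf.fderiv_right (m := 1) (by norm_num)).clm_apply contDiffAt_const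

theorem CalcA_ddx {f : ℂ → ℝ} {w : ℂ} (hf : ContDiffAt ℝ 2 f w) : DifferentiableAt ℝ (dx f) w :=
  (CalcA_dx hf).differentiableAt (by norm_num)

theorem CalcA_ddy {f : ℂ → ℝ} {w : ℂ} (hf : ContDiffAt ℝ 2 f w) : DifferentiableAt ℝ (dy f) w :=
  (CalcA_dy hf).differentiableAt (by norm_num)

theorem CalcA_ev {f : ℂ → ℝ} {w : ℂ} (hf : ContDiffAt ℝ 2 f w) :
    ∀ᶠ z in 𝓝 w, DifferentiableAt ℝ f z :=
  (hf.eventually (by norm_num)).mono fun _ hz => hz.differentiableAt (by norm_num)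

theorem lap_add {f g : ℂ → ℝ} {w : ℂ} (hf : ContDiffAt ℝ 2 f w) (hg : ContDiffAt ℝ 2 g w) :
    lap (fun z => f z + g z) w = lap f w + lap g w := by
  have h1 : dx (fun z => f z + g z) =ᶠ[𝓝 w] fun z => dx f z + dx g z := by
    filter_upwards [CalcA_ev hf, CalcA_ev hg] with z hz hz'
    simp only [dx]
    rw [fderiv_fun_add hz hz']; rfl
  have h2 : dy (fun z => f z + g z) =ᶠ[𝓝 w] fun z => dy f z + dy g z := by
    filter_upwards [CalcA_ev hf, CalcA_ev hg] with z hz hz'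
    simp only [dy]
    rw [fderiv_fun_add hz hz']; rfl
  rw [lap, dx_congr h1, dy_congr h2]
  simp only [lap]
  rw [dx, dy, fderiv_fun_add (CalcA_ddx hf) (CalcA_ddx hg),
    fderiv_fun_add (CalcA_ddy hf) (CalcA_ddy hg)]
  simp only [_root_.add_apply, dx, dy]
  ring

theorem lap_const_mul {f : ℂ → ℝ} {w : ℂ} (c : ℝ) (hf : ContDiffAt ℝ 2 f w) :
    lap (fun z => c * f z) w = c * lap f w := by
  have h1 : dx (fun z => c * f z) =ᶠ[𝓝 w] fun z => c * dx f z := by
    filter_upwards [CalcA_ev hf] with z hz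
    simp only [dx]
    rw [fderiv_const_mul hz]; rfl
  have h2 : dy (fun z => c * f z) =ᶠ[𝓝 w] fun z => c * dy f z := by
    filter_upwards [CalcA_ev hf] with z hz
    simp only [dy]
    rw [fderiv_const_mul hz]; rfl
  rw [lap, dx_congr h1, dy_congr h2]
  simp only [lap]
  rw [dx, dy, fderiv_const_mul (CalcA_ddx hf), fderiv_const_mul (CalcA_ddy hf)]
  simp only [_root_.smul_apply, smul_eq_mul, dx, dy]
  ring

theorem lap_neg (f : ℂ → ℝ) (w : ℂ) : lap (fun z => -f z) w = -lap f w := by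
  have h1 : dx (fun z => -f z) = fun z => -dx f z := by
    funext z
    simp only [dx, fderiv_fun_neg]; rfl
  have h2 : dy (fun z => -f z) = fun z => -dy f z := by
    funext z
    simp only [dy, fderiv_fun_neg]; rfl
  rw [lap, h1, h2]
  show fderiv ℝ (fun z => -dx f z) w 1 + fderiv ℝ (fun z => -dy f z) w I =
    -(fderiv ℝ (dx f) w 1 + fderiv ℝ (dy f) w I)
  rw [fderiv_fun_neg, fderiv_fun_neg]
  simp only [_root_.neg_apply]
  ring

theorem lap_sub {f g : ℂ → ℝ} {w : ℂ} (hf : ContDiffAt ℝ 2 f w) (hg : ContDiffAt ℝ 2 g w) :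
    lap (fun z => f z - g z) w = lap f w - lap g w := by
  have h := lap_add hf (g := fun z => -g z) hg.neg
  rw [lap_neg] at h
  simpa only [sub_eq_add_neg] using h

theorem lap_const (c : ℝ) (w : ℂ) : lap (fun _ => c) w = 0 := by
  have h1 : dx (fun _ : ℂ => c) = fun _ => 0 := by
    funext z
    simp [dx]
  have h2 : dy (fun _ : ℂ => c) = fun _ => 0 := by
    funext z
    simp [dy]
  rw [lap, h1, h2]
  simp [dx, dy]

theorem dx_trans (f : ℂ → ℝ) (a w : ℂ) : dx (fun z => f (z + a)) w = dx f (w + a) := by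
  simp only [dx]
  rw [fderiv_comp_add_right]

theorem dy_trans (f : ℂ → ℝ) (a w : ℂ) : dy (fun z => f (z + a)) w = dy f (w + a) := by
  simp only [dy]
  rw [fderiv_comp_add_right]

/-- Translation. -/
theorem lap_trans (f : ℂ → ℝ) (a w : ℂ) : lap (fun z => f (z + a)) w = lap f (w + a) := by
  have h1 : dx (fun z => f (z + a)) = fun z => dx f (z + a) := funext fun z => dx_trans f a z
  have h2 : dy (fun z => f (z + a)) = fun z => dy f (z + a) := funext fun z => dy_trans f a z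
  rw [lap, h1, h2, dx_trans, dy_trans, lap]

/-- Directional derivatives along lines. -/
theorem hasDerivAt_line {F : Type*} [NormedAddCommGroup F] [NormedSpace ℝ F] {f : ℂ → F} {w v : ℂ}
    (hf : DifferentiableAt ℝ f w) : HasDerivAt (fun s : ℝ => f (w + s * v)) (fderiv ℝ f w v) 0 := by
  have h1 : HasDerivAt (fun s : ℝ => w + (s : ℂ) * v) v 0 := by
    have h2 := ((Complex.ofRealCLM.hasDerivAt (x := (0 : ℝ))).mul_const v).const_add w
    simpa using h2
  have h3 : HasFDerivAt f (fderiv ℝ f w) (w + ((0 : ℝ) : ℂ) * v) := by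
    simpa using hf.hasFDerivAt
  exact h3.comp_hasDerivAt (0 : ℝ) h1

end GM16
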