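import Pool.Agent.LibGM16.CalcA

open Complex MeasureTheory Filter Topology Matrix
open scoped ContDiff Real ComplexOrder

namespace GM16

variable {γ t : ℝ} {v v' f f' : ℂ → ℝ}

/-- second derivatives of a product in one direction -/
theorem CalcB_mul_dir {f g : ℂ → ℝ} {w : ℂ} (hf : ContDiffAt ℝ 2 f w) (hg : ContDiffAt ℝ 2 g w)
    (a : ℂ) : fderiv ℝ (fun z => fderiv ℝ (fun x => f x * g x) z a) w a =
      f w * fderiv ℝ (fun z => fderiv ℝ g z a) w a + g w * fderiv ℝ (fun z => fderiv ℝ f z a) w a +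
        2 * (fderiv ℝ f w a * fderiv ℝ g w a) := by
  have h1 : (fun z => fderiv ℝ (fun x => f x * g x) z a) =ᶠ[𝓝 w]
      fun z => f z * fderiv ℝ g z a + g z * fderiv ℝ f z a := by
    filter_upwards [CalcA_ev hf, CalcA_ev hg] with z hz hz'
    rw [fderiv_fun_mul hz hz']
    rfl
  have hda : DifferentiableAt ℝ (fun z => fderiv ℝ f z a) w :=
    ((hf.fderiv_right (m := 1) (by norm_num)).clm_apply contDiffAt_const).differentiableAt
      (by norm_num)
  have hdb : DifferentiableAt ℝ (fun z => fderiv ℝ g z a) w :=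
    ((hg.fderiv_right (m := 1) (by norm_num)).clm_apply contDiffAt_const).differentiableAt
      (by norm_num)
  have hf1 := hf.differentiableAt (by norm_num)
  have hg1 := hg.differentiableAt (by norm_num)
  have hA : DifferentiableAt ℝ (fun z => f z * fderiv ℝ g z a) w := hf1.mul hdb
  have hB : DifferentiableAt ℝ (fun z => g z * fderiv ℝ f z a) w := hg1.mul hda
  rw [h1.fderiv_eq, fderiv_fun_add hA hB, fderiv_fun_mul hf1 hdb, fderiv_fun_mul hg1 hda]
  simp only [_root_.add_apply, _root_.smul_apply, smul_eq_mul]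
  ring

/-- Product rule. -/
theorem lap_mul {f g : ℂ → ℝ} {w : ℂ} (hf : ContDiffAt ℝ 2 f w) (hg : ContDiffAt ℝ 2 g w) :
    lap (fun z => f z * g z) w =
      f w * lap g w + g w * lap f w + 2 * (dx f w * dx g w + dy f w * dy g w) := by
  have h1 := CalcB_mul_dir hf hg 1
  have h2 := CalcB_mul_dir hf hg I
  show fderiv ℝ (fun z => fderiv ℝ (fun x => f x * g x) z 1) w 1 +
    fderiv ℝ (fun z => fderiv ℝ (fun x => f x * g x) z I) w I = _
  rw [h1, h2]
  show _ = f w * (fderiv ℝ (fun z => fderiv ℝ g z 1) w 1 + fderiv ℝ (fun z => fderiv ℝ g z I) w I) +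
    g w * (fderiv ℝ (fun z => fderiv ℝ f z 1) w 1 + fderiv ℝ (fun z => fderiv ℝ f z I) w I) +
    2 * (fderiv ℝ f w 1 * fderiv ℝ g w 1 + fderiv ℝ f w I * fderiv ℝ g w I)
  ring

/-- first derivatives of a composition -/
theorem CalcB_comp_fderiv {F : ℝ → ℝ} {f : ℂ → ℝ} {z : ℂ} (hF : DifferentiableAt ℝ F (f z))
    (hf : DifferentiableAt ℝ f z) (a : ℂ) :
    fderiv ℝ (fun x => F (f x)) z a = deriv F (f z) * fderiv ℝ f z a := by
  have h := hF.hasDerivAt.comp_hasFDerivAt z hf.hasFDerivAt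
  have h2 : HasFDerivAt (fun x => F (f x)) (deriv F (f z) • fderiv ℝ f z) z := h
  rw [h2.fderiv]; rfl

/-- second derivatives of a composition in one direction -/
theorem CalcB_comp_dir {F : ℝ → ℝ} {f : ℂ → ℝ} {w : ℂ} (hF : ContDiffAt ℝ 2 F (f w))
    (hf : ContDiffAt ℝ 2 f w) (a : ℂ) :
    fderiv ℝ (fun z => fderiv ℝ (fun x => F (f x)) z a) w a =
      deriv F (f w) * fderiv ℝ (fun z => fderiv ℝ f z a) w a +
        deriv (deriv F) (f w) * (fderiv ℝ f w a) ^ 2 := by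
  have hFev : ∀ᶠ x in 𝓝 (f w), DifferentiableAt ℝ F x :=
    (hF.eventually (by norm_num)).mono fun _ hx => hx.differentiableAt (by norm_num)
  have h1 : (fun z => fderiv ℝ (fun x => F (f x)) z a) =ᶠ[𝓝 w]
      fun z => deriv F (f z) * fderiv ℝ f z a := by
    filter_upwards [CalcA_ev hf, hf.continuousAt.eventually hFev] with z hz hz'
    exact CalcB_comp_fderiv hz' hz a
  have hda : DifferentiableAt ℝ (fun z => fderiv ℝ f z a) w :=
    ((hf.fderiv_right (m := 1) (by norm_num)).clm_apply contDiffAt_const).differentiableAt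
      (by norm_num)
  have hf1 := hf.differentiableAt (by norm_num)
  have hdF : DifferentiableAt ℝ (deriv F) (f w) := by
    have h2 : ContDiffAt ℝ 1 (fun x => fderiv ℝ F x 1) (f w) :=
      (hF.fderiv_right (m := 1) (by norm_num)).clm_apply contDiffAt_const
    have h3 : DifferentiableAt ℝ (fun x => fderiv ℝ F x 1) (f w) :=
      h2.differentiableAt (by norm_num)
    exact h3
  have hcomp : DifferentiableAt ℝ (fun z => deriv F (f z)) w := hdF.comp w hf1
  rw [h1.fderiv_eq, fderiv_fun_mul hcomp hda]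
  simp only [_root_.add_apply, _root_.smul_apply, smul_eq_mul]
  rw [CalcB_comp_fderiv hdF hf1]
  ring

/-- Chain rule `Δ F(f) = F'(f) Δf + F''(f) |∇f|²`. -/
theorem lap_comp {F : ℝ → ℝ} {f : ℂ → ℝ} {w : ℂ} (hF : ContDiffAt ℝ 2 F (f w))
    (hf : ContDiffAt ℝ 2 f w) :
    lap (fun z => F (f z)) w =
      deriv F (f w) * lap f w + deriv (deriv F) (f w) * ((dx f w) ^ 2 + (dy f w) ^ 2) := by
  have h1 := CalcB_comp_dir hF hf 1
  have h2 := CalcB_comp_dir hF hf I
  show fderiv ℝ (fun z => fderiv ℝ (fun x => F (f x)) z 1) w 1 +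
    fderiv ℝ (fun z => fderiv ℝ (fun x => F (f x)) z I) w I = _
  rw [h1, h2]
  show _ = deriv F (f w) *
    (fderiv ℝ (fun z => fderiv ℝ f z 1) w 1 + fderiv ℝ (fun z => fderiv ℝ f z I) w I) +
    deriv (deriv F) (f w) * ((fderiv ℝ f w 1) ^ 2 + (fderiv ℝ f w I) ^ 2)
  ring

/-- smoothness of the distance -/
theorem CalcB_norm_smooth {a w : ℂ} (hw : w ≠ a) : ContDiffAt ℝ 2 (fun z : ℂ => ‖z - a‖) w :=
  (contDiffAt_id.sub contDiffAt_const).norm ℝ (sub_ne_zero.mpr hw)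

theorem CalcB_trans {F : Type*} [NormedAddCommGroup F] [NormedSpace ℝ F] (f : ℂ → F) (a z : ℂ) :
    fderiv ℝ (fun x => f (x + a)) z = fderiv ℝ f (z + a) := by
  rw [fderiv_comp_add_right]

/-- derivative of the square of the distance -/
theorem CalcB_fderiv_sq (a z b : ℂ) :
    fderiv ℝ (fun x : ℂ => ‖x - a‖ ^ 2) z b = 2 * ((z - a).re * b.re + (z - a).im * b.im) := by
  have e : (fun x : ℂ => ‖x - a‖ ^ 2) = fun x => (fun y : ℂ => ‖y‖ ^ 2) (x + (-a)) := by
    funext x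
    rw [← sub_eq_add_neg]
  have h2 : HasFDerivAt (fun x : ℂ => ‖x‖ ^ 2) (2 • (innerSL ℝ (z + (-a)))) (z + (-a)) :=
    (hasStrictFDerivAt_norm_sq (z + (-a))).hasFDerivAt
  have h3 : fderiv ℝ (fun x : ℂ => (fun y : ℂ => ‖y‖ ^ 2) (x + (-a))) z =
      fderiv ℝ (fun y : ℂ => ‖y‖ ^ 2) (z + (-a)) :=
    CalcB_trans (F := ℝ) (fun y : ℂ => ‖y‖ ^ 2) (-a) z
  rw [e, h3, h2.fderiv, ← sub_eq_add_neg]
  simp only [_root_.smul_apply, innerSL_apply_apply, Complex.inner]
  simp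
  ring

theorem CalcB_fderiv_norm {a z : ℂ} (hz : z ≠ a) (b : ℂ) :
    fderiv ℝ (fun x : ℂ => ‖x - a‖) z b = ((z - a).re * b.re + (z - a).im * b.im) / ‖z - a‖ := by
  have h1 := CalcB_fderiv_sq a z b
  have hd := (CalcB_norm_smooth hz).differentiableAt (by norm_num)
  have h2 := CalcB_comp_fderiv (F := fun x : ℝ => x ^ 2) (f := fun x : ℂ => ‖x - a‖) (z := z)
    (by fun_prop) hd b
  rw [h1] at h2
  have h3 : deriv (fun x : ℝ => x ^ 2) ‖z - a‖ = 2 * ‖z - a‖ := by simp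
  rw [h3] at h2
  have h4 : ‖z - a‖ ≠ 0 := norm_ne_zero_iff.mpr (sub_ne_zero.mpr hz)
  field_simp
  linarith

theorem CalcB_lap_norm {a w : ℂ} (hw : w ≠ a) : lap (fun z : ℂ => ‖z - a‖) w = 1 / ‖w - a‖ := by
  have h1 := lap_comp (F := fun x : ℝ => x ^ 2) (f := fun x : ℂ => ‖x - a‖) (w := w)
    (by fun_prop) (CalcB_norm_smooth hw)
  have h4 : ‖w - a‖ ≠ 0 := norm_ne_zero_iff.mpr (sub_ne_zero.mpr hw)
  have h3 : deriv (fun x : ℝ => x ^ 2) = fun x => 2 * x := by
    funext x; simp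
  have h5 : deriv (deriv (fun x : ℝ => x ^ 2)) ‖w - a‖ = 2 := by
    rw [h3, deriv_const_mul _ differentiableAt_id, deriv_id'']
    norm_num
  have h6 : dx (fun x : ℂ => ‖x - a‖) w = (w - a).re / ‖w - a‖ := by
    show fderiv ℝ (fun x : ℂ => ‖x - a‖) w 1 = _
    rw [CalcB_fderiv_norm hw]
    simp
  have h7 : dy (fun x : ℂ => ‖x - a‖) w = (w - a).im / ‖w - a‖ := by
    show fderiv ℝ (fun x : ℂ => ‖x - a‖) w I = _
    rw [CalcB_fderiv_norm hw]
    simp
  have h8 : lap (fun z : ℂ => ‖z - a‖ ^ 2) w = 4 := by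
    have h9 : dx (fun z : ℂ => ‖z - a‖ ^ 2) = fun z => 2 * (z - a).re := by
      funext z
      show fderiv ℝ (fun x : ℂ => ‖x - a‖ ^ 2) z 1 = _
      rw [CalcB_fderiv_sq]
      simp
    have h10 : dy (fun z : ℂ => ‖z - a‖ ^ 2) = fun z => 2 * (z - a).im := by
      funext z
      show fderiv ℝ (fun x : ℂ => ‖x - a‖ ^ 2) z I = _
      rw [CalcB_fderiv_sq]
      simp
    have h11 : HasFDerivAt (fun z : ℂ => 2 * (z - a).re) ((2 : ℝ) • Complex.reCLM) w := by
      have h := (Complex.reCLM.hasFDerivAt (x := w - a)).comp w ((hasFDerivAt_id w).sub_const a)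
      have h' := h.const_mul (2 : ℝ)
      simpa using h'
    have h12 : HasFDerivAt (fun z : ℂ => 2 * (z - a).im) ((2 : ℝ) • Complex.imCLM) w := by
      have h := (Complex.imCLM.hasFDerivAt (x := w - a)).comp w ((hasFDerivAt_id w).sub_const a)
      have h' := h.const_mul (2 : ℝ)
      simpa using h'
    rw [lap, h9, h10]
    show fderiv ℝ (fun z : ℂ => 2 * (z - a).re) w 1 + fderiv ℝ (fun z : ℂ => 2 * (z - a).im) w I = 4
    rw [h11.fderiv, h12.fderiv]
    simp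
    norm_num
  rw [h8, h5, h6, h7] at h1
  have h13 : deriv (fun x : ℝ => x ^ 2) ‖w - a‖ = 2 * ‖w - a‖ := by rw [h3]
  rw [h13] at h1
  have h14 : (w - a).re ^ 2 + (w - a).im ^ 2 = ‖w - a‖ ^ 2 := by
    rw [← Complex.normSq_eq_norm_sq, Complex.normSq_apply]; ring
  have h15 : ((w - a).re / ‖w - a‖) ^ 2 + ((w - a).im / ‖w - a‖) ^ 2 = 1 := by
    rw [div_pow, div_pow, ← add_div, h14, div_self (pow_ne_zero 2 h4)]
  rw [h15] at h1
  rw [eq_div_iff h4]
  linarith

/-- First derivatives of a radial function. -/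
theorem dx_radial {F : ℝ → ℝ} {a w : ℂ} (hw : w ≠ a) (hF : DifferentiableAt ℝ F ‖w - a‖) :
    dx (fun z => F ‖z - a‖) w = deriv F ‖w - a‖ * ((w - a).re / ‖w - a‖) ∧
    dy (fun z => F ‖z - a‖) w = deriv F ‖w - a‖ * ((w - a).im / ‖w - a‖) := by
  have hd := (CalcB_norm_smooth hw).differentiableAt (by norm_num)
  constructor
  · show fderiv ℝ (fun z => F ‖z - a‖) w 1 = _
    rw [CalcB_comp_fderiv (F := F) (f := fun x : ℂ => ‖x - a‖) hF hd, CalcB_fderiv_norm hw]
    simp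
  · show fderiv ℝ (fun z => F ‖z - a‖) w I = _
    rw [CalcB_comp_fderiv (F := F) (f := fun x : ℂ => ‖x - a‖) hF hd, CalcB_fderiv_norm hw]
    simp

/-- The Laplacian of a radial function. -/
theorem lap_radial {F : ℝ → ℝ} {a w : ℂ} (hw : w ≠ a) (hF : ContDiffAt ℝ 2 F ‖w - a‖) :
    lap (fun z => F ‖z - a‖) w = deriv (deriv F) ‖w - a‖ + deriv F ‖w - a‖ / ‖w - a‖ := by
  have h4 : ‖w - a‖ ≠ 0 := norm_ne_zero_iff.mpr (sub_ne_zero.mpr hw)
  rw [lap_comp (F := F) (f := fun x : ℂ => ‖x - a‖) hF (CalcB_norm_smooth hw), CalcB_lap_norm hw]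
  have h := dx_radial (F := fun x => x) hw differentiableAt_id
  simp only [deriv_id'', one_mul] at h
  rw [h.1, h.2]
  have h14 : (w - a).re ^ 2 + (w - a).im ^ 2 = ‖w - a‖ ^ 2 := by
    rw [← Complex.normSq_eq_norm_sq, Complex.normSq_apply]; ring
  have h15 : ((w - a).re / ‖w - a‖) ^ 2 + ((w - a).im / ‖w - a‖) ^ 2 = 1 := by
    rw [div_pow, div_pow, ← add_div, h14, div_self (pow_ne_zero 2 h4)]
  rw [h15]
  ring

/-- Scaling. -/
theorem lap_scale {f : ℂ → ℝ} {w : ℂ} (c : ℝ) (hf : ContDiffAt ℝ 2 f (c * w)) :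
    lap (fun z => f (c * z)) w = c ^ 2 * lap f (c * w) := by
  have key : ∀ (g : ℂ → ℝ) (z a : ℂ), DifferentiableAt ℝ g (c * z) →
      fderiv ℝ (fun x => g (c * x)) z a = c * fderiv ℝ g (c * z) a := by
    intro g z a hg
    have h1 : HasFDerivAt (fun x : ℂ => (c : ℂ) * x) ((c : ℂ) • ContinuousLinearMap.id ℝ ℂ) z :=
      (hasFDerivAt_id (𝕜 := ℝ) z).const_mul (c : ℂ)
    have h2 := hg.hasFDerivAt.comp z h1
    have h3 : HasFDerivAt (fun x => g (c * x)) ((fderiv ℝ g (c * z)).comp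
      ((c : ℂ) • ContinuousLinearMap.id ℝ ℂ)) z := h2
    rw [h3.fderiv]
    show fderiv ℝ g (c * z) ((c : ℂ) • a) = _
    have h4 : ((c : ℂ) • a) = (c : ℝ) • a := by
      rw [smul_eq_mul, Complex.real_smul]
    rw [h4, map_smul, smul_eq_mul]
  have hcont : ContinuousAt (fun z : ℂ => (c : ℂ) * z) w := by fun_prop
  have hev : ∀ᶠ z in 𝓝 w, DifferentiableAt ℝ f (c * z) := hcont.eventually (CalcA_ev hf)
  have dir : ∀ a : ℂ, fderiv ℝ (fun z => fderiv ℝ (fun x => f (c * x)) z a) w a =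
      c ^ 2 * fderiv ℝ (fun z => fderiv ℝ f z a) (c * w) a := by
    intro a
    have h1 : (fun z => fderiv ℝ (fun x => f (c * x)) z a) =ᶠ[𝓝 w]
        fun z => c * fderiv ℝ f (c * z) a := by
      filter_upwards [hev] with z hz
      exact key f z a hz
    have hda : DifferentiableAt ℝ (fun z => fderiv ℝ f z a) (c * w) :=
      ((hf.fderiv_right (m := 1) (by norm_num)).clm_apply contDiffAt_const).differentiableAt
        (by norm_num)
    have hdb : DifferentiableAt ℝ (fun z : ℂ => fderiv ℝ f (c * z) a) w := by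
      have h2 : DifferentiableAt ℝ (fun z : ℂ => (c : ℂ) * z) w := by fun_prop
      exact DifferentiableAt.comp w hda h2
    rw [h1.fderiv_eq, fderiv_const_mul hdb]
    simp only [_root_.smul_apply, smul_eq_mul]
    rw [key (fun z => fderiv ℝ f z a) w a hda]
    ring
  show fderiv ℝ (fun z => fderiv ℝ (fun x => f (c * x)) z 1) w 1 +
    fderiv ℝ (fun z => fderiv ℝ (fun x => f (c * x)) z I) w I =
    c ^ 2 * (fderiv ℝ (fun z => fderiv ℝ f z 1) (c * w) 1 +
      fderiv ℝ (fun z => fderiv ℝ f z I) (c * w) I)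
  rw [dir, dir]
  ring

end GM16
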