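import Pool.Agent.LibGM16.CalcA

open Complex MeasureTheory Filter Topology Matrix
open scoped ContDiff Real ComplexOrder

namespace GM16

variable {γ t : ℝ} {v v' f f' : ℂ → ℝ}

/-- composition with a linear equivalence -/
theorem CalcC_fderiv (e : ℂ ≃L[ℝ] ℂ) (f : ℂ → ℝ) (z a : ℂ) :
    fderiv ℝ (fun x => f (e x)) z a = fderiv ℝ f (e z) (e a) := by
  have h : fderiv ℝ (f ∘ e) z = (fderiv ℝ f (e z)).comp (e : ℂ →L[ℝ] ℂ) := e.comp_right_fderiv
  show fderiv ℝ (f ∘ e) z a = _
  rw [h]; rfl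

/-- The symmetry `w ↦ -w`. -/
theorem lap_comp_neg {f : ℂ → ℝ} {w : ℂ} (hf : ContDiffAt ℝ 2 f (-w)) :
    lap (fun z => f (-z)) w = lap f (-w) := by
  have key : ∀ (g : ℂ → ℝ) (z a : ℂ), fderiv ℝ (fun x => g (-x)) z a = -fderiv ℝ g (-z) a := by
    intro g z a
    have h := CalcC_fderiv (ContinuousLinearEquiv.neg ℝ) g z a
    simp only [ContinuousLinearEquiv.neg_apply, map_neg] at h
    exact h
  have h1 : dx (fun z => f (-z)) = fun z => -dx f (-z) := funext fun z => key f z 1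
  have h2 : dy (fun z => f (-z)) = fun z => -dy f (-z) := funext fun z => key f z I
  show fderiv ℝ (dx fun z => f (-z)) w 1 + fderiv ℝ (dy fun z => f (-z)) w I =
    fderiv ℝ (dx f) (-w) 1 + fderiv ℝ (dy f) (-w) I
  rw [h1, h2, fderiv_fun_neg, fderiv_fun_neg]
  simp only [_root_.neg_apply]
  rw [key, key, neg_neg, neg_neg]

/-- The symmetry `w ↦ w̄`. -/
theorem lap_comp_conj {f : ℂ → ℝ} {w : ℂ} (hf : ContDiffAt ℝ 2 f (starRingEnd ℂ w)) :
    lap (fun z => f (starRingEnd ℂ z)) w = lap f (starRingEnd ℂ w) := by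
  have key : ∀ (g : ℂ → ℝ) (z a : ℂ), fderiv ℝ (fun x => g (starRingEnd ℂ x)) z a =
      fderiv ℝ g (starRingEnd ℂ z) (starRingEnd ℂ a) := by
    intro g z a
    exact CalcC_fderiv Complex.conjCLE g z a
  have h1 : dx (fun z => f (starRingEnd ℂ z)) = fun z => dx f (starRingEnd ℂ z) := by
    funext z
    have h := key f z 1
    rw [show starRingEnd ℂ (1 : ℂ) = 1 from map_one _] at h
    exact h
  have h2 : dy (fun z => f (starRingEnd ℂ z)) = fun z => -dy f (starRingEnd ℂ z) := by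
    funext z
    have h := key f z I
    rw [Complex.conj_I, map_neg] at h
    exact h
  show fderiv ℝ (dx fun z => f (starRingEnd ℂ z)) w 1 +
    fderiv ℝ (dy fun z => f (starRingEnd ℂ z)) w I =
    fderiv ℝ (dx f) (starRingEnd ℂ w) 1 + fderiv ℝ (dy f) (starRingEnd ℂ w) I
  rw [h1, h2, fderiv_fun_neg]
  simp only [_root_.neg_apply]
  rw [key, key, show starRingEnd ℂ (1 : ℂ) = 1 from map_one _, Complex.conj_I, map_neg, neg_neg]

/-- The symmetry `w ↦ i w`. -/
theorem lap_comp_mulI {f : ℂ → ℝ} {w : ℂ} (hf : ContDiffAt ℝ 2 f (I * w)) :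
    lap (fun z => f (I * z)) w = lap f (I * w) := by
  let e : ℂ ≃L[ℝ] ℂ := (ContinuousLinearEquiv.unitsEquivAut ℂ (Units.mk0 I Complex.I_ne_zero)).restrictScalars ℝ
  have he : ∀ z, e z = I * z := fun z => by
    show z * I = I * z
    ring
  have key : ∀ (g : ℂ → ℝ) (z a : ℂ), fderiv ℝ (fun x => g (I * x)) z a =
      fderiv ℝ g (I * z) (I * a) := by
    intro g z a
    have h := CalcC_fderiv e g z a
    simp only [he] at h
    exact h
  have h1 : dx (fun z => f (I * z)) = fun z => dy f (I * z) := by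
    funext z
    have h := key f z 1
    rw [mul_one] at h
    exact h
  have h2 : dy (fun z => f (I * z)) = fun z => -dx f (I * z) := by
    funext z
    have h := key f z I
    rw [Complex.I_mul_I, map_neg] at h
    exact h
  show fderiv ℝ (dx fun z => f (I * z)) w 1 + fderiv ℝ (dy fun z => f (I * z)) w I =
    fderiv ℝ (dx f) (I * w) 1 + fderiv ℝ (dy f) (I * w) I
  rw [h1, h2, fderiv_fun_neg]
  simp only [_root_.neg_apply]
  rw [key, key, mul_one, Complex.I_mul_I, map_neg, neg_neg]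
  ring

end GM16
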