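import Pool.Agent.LibGM16.CalcA

open Complex MeasureTheory Filter Topology Matrix
open scoped ContDiff Real ComplexOrder

namespace GM16

variable {γ t : ℝ} {v v' f f' : ℂ → ℝ}

/-- the one dimensional second derivative test -/
theorem CalcD_one {g : ℝ → ℝ} (hm : IsLocalMax g 0) (hc : ContinuousAt g 0) :
    deriv (deriv g) 0 ≤ 0 := by
  by_contra hcon
  push Not at hcon
  have h0 : deriv g 0 = 0 := hm.deriv_eq_zero
  have hmin : IsLocalMin g 0 := isLocalMin_of_deriv_deriv_pos hcon h0 hc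
  have h1 : g =ᶠ[𝓝 0] fun _ => g 0 := by
    filter_upwards [hm, hmin] with s hs hs'
    exact le_antisymm hs hs'
  have h2 : deriv g =ᶠ[𝓝 0] deriv fun _ => g 0 := h1.deriv
  have h3 : deriv (deriv g) 0 = deriv (deriv fun _ : ℝ => g 0) 0 := h2.deriv_eq
  simp only [deriv_const', deriv_const] at h3
  linarith

/-- the second derivative in the direction `v` at a local maximum -/
theorem CalcD_dir {u : ℂ → ℝ} {w : ℂ} (h2 : ContDiffAt ℝ 2 u w) (hm : IsLocalMax u w) (v : ℂ) :
    fderiv ℝ (fun z => fderiv ℝ u z v) w v ≤ 0 := by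
  have hcont : ContinuousAt (fun s : ℝ => w + (s : ℂ) * v) 0 := by fun_prop
  have hw : (fun s : ℝ => w + (s : ℂ) * v) 0 = w := by simp
  have htend : Tendsto (fun s : ℝ => w + (s : ℂ) * v) (𝓝 0) (𝓝 w) := by
    have h := hcont.tendsto
    simpa using h
  set g : ℝ → ℝ := fun s => u (w + s * v) with hg
  have hgm : IsLocalMax g 0 := by
    have h : ∀ᶠ s : ℝ in 𝓝 (0 : ℝ), u (w + (s : ℂ) * v) ≤ u w := htend.eventually hm
    filter_upwards [h] with s hs
    simpa [hg] using hs
  have hline : ∀ (F : ℂ → ℝ) (s : ℝ), DifferentiableAt ℝ F (w + s * v) →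
      HasDerivAt (fun s : ℝ => F (w + s * v)) (fderiv ℝ F (w + s * v) v) s := by
    intro F s hF
    have h1 : HasDerivAt (fun s : ℝ => w + (s : ℂ) * v) v s := by
      have h2 := ((Complex.ofRealCLM.hasDerivAt (x := s)).mul_const v).const_add w
      simpa using h2
    exact hF.hasFDerivAt.comp_hasDerivAt s h1
  have hd : deriv g =ᶠ[𝓝 0] fun s => fderiv ℝ u (w + s * v) v := by
    filter_upwards [htend.eventually (CalcA_ev h2)] with s hs
    exact (hline u s hs).deriv
  have hdd : DifferentiableAt ℝ (fun z => fderiv ℝ u z v) w :=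
    ((h2.fderiv_right (m := 1) (by norm_num)).clm_apply contDiffAt_const).differentiableAt
      (by norm_num)
  have hd2 : deriv (deriv g) 0 = fderiv ℝ (fun z => fderiv ℝ u z v) w v := by
    rw [hd.deriv_eq]
    have h := hline (fun z => fderiv ℝ u z v) 0 (by simpa using hdd)
    rw [h.deriv]
    simp
  rw [← hd2]
  refine CalcD_one hgm ?_
  have h3 : ContinuousAt u w := h2.continuousAt
  have h4 : ContinuousAt u ((fun s : ℝ => w + (s : ℂ) * v) 0) := by rwa [hw]
  exact ContinuousAt.comp (f := fun s : ℝ => w + (s : ℂ) * v) h4 hcont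

/-- At a local maximum the Laplacian is nonpositive. -/
theorem lap_nonpos_of_isLocalMax {u : ℂ → ℝ} {w : ℂ} (h2 : ContDiffAt ℝ 2 u w)
    (hm : IsLocalMax u w) : lap u w ≤ 0 := by
  have h1 := CalcD_dir h2 hm 1
  have h3 := CalcD_dir h2 hm I
  show fderiv ℝ (fun z => fderiv ℝ u z 1) w 1 + fderiv ℝ (fun z => fderiv ℝ u z I) w I ≤ 0
  linarith

end GM16
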