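import Pool.Agent.LibGM16.KBas

open Complex MeasureTheory Filter Topology Matrix
open scoped ContDiff Real ComplexOrder

namespace GM16

variable {γ t : ℝ} {v v' f f' : ℂ → ℝ}

/-- `∫_0^∞ du / cosh² u = 1` -/
theorem kint_cosh : IntegrableOn (fun u => 1 / Real.cosh u ^ 2) (Set.Ioi 0) ∧
    ∫ u in Set.Ioi (0 : ℝ), 1 / Real.cosh u ^ 2 = 1 := by
  have hd : ∀ u ∈ Set.Ioi (0 : ℝ), HasDerivAt (fun u => Real.sinh u / Real.cosh u)
      (1 / Real.cosh u ^ 2) u := by
    intro u _
    have hc := Real.cosh_pos u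
    refine ((Real.hasDerivAt_sinh u).div (Real.hasDerivAt_cosh u) hc.ne').congr_deriv ?_
    have := Real.cosh_sq u
    rw [show Real.cosh u * Real.cosh u - Real.sinh u * Real.sinh u = 1 by nlinarith]
  have hc : ContinuousWithinAt (fun u => Real.sinh u / Real.cosh u) (Set.Ici 0) 0 := by
    apply Continuous.continuousWithinAt
    exact Real.continuous_sinh.div Real.continuous_cosh fun u => (Real.cosh_pos u).ne'
  have hpos : ∀ u ∈ Set.Ioi (0 : ℝ), 0 ≤ 1 / Real.cosh u ^ 2 := by
    intro u _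
    have := Real.cosh_pos u
    positivity
  have hl : Tendsto (fun u => Real.sinh u / Real.cosh u) atTop (𝓝 1) := by
    have h1 : Tendsto (fun u : ℝ => 1 - Real.exp (-u)) atTop (𝓝 1) := by
      have := (Real.tendsto_exp_neg_atTop_nhds_zero).const_sub 1
      simpa using this
    refine tendsto_of_tendsto_of_tendsto_of_le_of_le' h1 tendsto_const_nhds ?_ ?_
    · refine Eventually.of_forall fun u => ?_
      have hc := Real.one_le_cosh u
      have h2 := Real.cosh_sub_sinh u
      have he := Real.exp_pos (-u)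
      show 1 - Real.exp (-u) ≤ Real.sinh u / Real.cosh u
      rw [le_div_iff₀ (by linarith)]
      nlinarith
    · refine Eventually.of_forall fun u => ?_
      have hc := Real.cosh_pos u
      show Real.sinh u / Real.cosh u ≤ 1
      rw [div_le_one hc]
      exact (Real.sinh_lt_cosh u).le
  refine ⟨integrableOn_Ioi_deriv_of_nonneg hc hd hpos hl, ?_⟩
  rw [integral_Ioi_of_hasDerivAt_of_nonneg hc hd hpos hl]
  simp

/-- `∫_0^∞ r e^{-4 r c} dr = 1/(16 c²)` -/
theorem kint_r {c : ℝ} (hc : 0 < c) :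
    IntegrableOn (fun r => r * Real.exp (-(4 * r * c))) (Set.Ioi 0) ∧
    ∫ r in Set.Ioi (0 : ℝ), r * Real.exp (-(4 * r * c)) = 1 / 16 * (1 / c ^ 2) := by
  have h := Real.integral_rpow_mul_exp_neg_mul_Ioi (a := 2) (r := 4 * c) (by norm_num)
    (by positivity)
  have he : ∀ r ∈ Set.Ioi (0 : ℝ), r ^ ((2 : ℝ) - 1) * Real.exp (-(4 * c * r)) =
      r * Real.exp (-(4 * r * c)) := by
    intro r _
    rw [show (2 : ℝ) - 1 = 1 by norm_num, Real.rpow_one]
    congr 2
    ring
  have hval : ∫ r in Set.Ioi (0 : ℝ), r * Real.exp (-(4 * r * c)) = 1 / 16 * (1 / c ^ 2) := by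
    rw [← setIntegral_congr_fun measurableSet_Ioi he, h]
    rw [show (2 : ℝ) = ((2 : ℕ) : ℝ) by norm_num, Real.rpow_natCast]
    rw [show ((2 : ℕ) : ℝ) = ((1 : ℕ) : ℝ) + 1 by norm_num, Real.Gamma_nat_eq_factorial]
    field_simp
    norm_num
  refine ⟨?_, hval⟩
  by_contra hni
  have h0 := integral_undef hni
  have : (0 : ℝ) < 1 / 16 * (1 / c ^ 2) := by positivity
  linarith

theorem kint_prod : Integrable (fun p : ℝ × ℝ => p.2 * Real.exp (-(4 * p.2 * Real.cosh p.1)))
    ((volume.restrict (Set.Ioi (0 : ℝ))).prod (volume.restrict (Set.Ioi (0 : ℝ)))) := by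
  have hm : AEStronglyMeasurable (fun p : ℝ × ℝ => p.2 * Real.exp (-(4 * p.2 * Real.cosh p.1)))
      ((volume.restrict (Set.Ioi (0 : ℝ))).prod (volume.restrict (Set.Ioi (0 : ℝ)))) := by
    apply Continuous.aestronglyMeasurable
    have := Real.continuous_cosh
    fun_prop
  rw [integrable_prod_iff hm]
  constructor
  · exact Eventually.of_forall fun u => (kint_r (Real.cosh_pos u)).1
  · have he : (fun u : ℝ => ∫ r in Set.Ioi (0 : ℝ), ‖r * Real.exp (-(4 * r * Real.cosh u))‖) =
        fun u => 1 / 16 * (1 / Real.cosh u ^ 2) := by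
      funext u
      rw [← (kint_r (Real.cosh_pos u)).2]
      refine setIntegral_congr_fun measurableSet_Ioi fun r hr => ?_
      have hr' : (0 : ℝ) < r := hr
      exact Real.norm_of_nonneg (by positivity)
    show Integrable (fun u : ℝ => ∫ r in Set.Ioi (0 : ℝ), ‖r * Real.exp (-(4 * r * Real.cosh u))‖)
      (volume.restrict (Set.Ioi (0 : ℝ)))
    rw [he]
    exact (kint_cosh.1).const_mul _

/-- the mass is `1/16` -/
theorem KK_int : Integrable KK ∧ ∫ z, KK z = 1 / 16 := by
  have hpi := Real.pi_pos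
  have hfin : Module.finrank ℝ ℂ = 2 := Complex.finrank_real_complex
  have hvol : (volume : Measure ℂ).real (Metric.ball 0 1) = π := by
    rw [Measure.real, Complex.volume_ball]
    simp
  have hsw : (fun r : ℝ => r ^ (2 - 1) • kK r) = fun r => (1 / (2 * π)) *
      ∫ u in Set.Ioi (0 : ℝ), r * Real.exp (-(4 * r * Real.cosh u)) := by
    funext r
    unfold kK
    rw [integral_const_mul]
    simp only [smul_eq_mul]
    ring
  constructor
  · show Integrable (fun z : ℂ => kK ‖z‖) volume
    rw [integrable_fun_norm_addHaar, hfin, hsw]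
    exact (kint_prod.integral_prod_right).const_mul _
  · show ∫ z : ℂ, kK ‖z‖ = 1 / 16
    rw [integral_fun_norm_addHaar, hfin, hvol, hsw, integral_const_mul]
    have h1 : ∫ r in Set.Ioi (0 : ℝ), ∫ u in Set.Ioi (0 : ℝ), r * Real.exp (-(4 * r * Real.cosh u)) =
        1 / 16 := by
      have h2 := integral_integral_swap
        (f := fun u r : ℝ => r * Real.exp (-(4 * r * Real.cosh u)))
        (μ := volume.restrict (Set.Ioi (0 : ℝ))) (ν := volume.restrict (Set.Ioi (0 : ℝ))) kint_prod
      rw [← h2]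
      have h3 : ∀ u : ℝ, ∫ r in Set.Ioi (0 : ℝ), r * Real.exp (-(4 * r * Real.cosh u)) =
          1 / 16 * (1 / Real.cosh u ^ 2) := fun u => (kint_r (Real.cosh_pos u)).2
      simp_rw [h3]
      rw [integral_const_mul, kint_cosh.2, mul_one]
    rw [h1]
    simp only [smul_eq_mul, nsmul_eq_mul]
    field_simp
    norm_num

end GM16
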