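import Pool.Agent.LibGM16.RhoB
import Pool.Agent.LibGM16.KInt

open Complex MeasureTheory Filter Topology Matrix
open scoped ContDiff Real ComplexOrder

namespace GM16

variable {γ t : ℝ} {v v' f f' : ℂ → ℝ}

theorem convbd_ae (T : ℝ) : ∀ᵐ z : ℂ, z ∉ LT T := by
  have h1 : LT T ⊆ Set.range (fun p : ℤ × ℤ => (T : ℂ) * (p.1 + p.2 * I)) := by
    rintro w ⟨m, n, rfl⟩
    exact ⟨(m, n), rfl⟩
  have h2 : (LT T).Countable := (Set.countable_range _).mono h1
  exact h2.ae_notMem _

/-- Convolutions with data bounded by `A + B ρ`. -/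
theorem conv_bd {c₁ T : ℝ} (hT : 1 ≤ T)
    (hc : ∀ W : ℂ, Integrable (fun z => KK (W - z) * rho T z) ∧ ∫ z, KK (W - z) * rho T z ≤ c₁)
    {g : ℂ → ℝ} (hg : Measurable g) {A B : ℝ} (hA : 0 ≤ A) (hB : 0 ≤ B)
    (hb : ∀ z ∉ LT T, |g z| ≤ A + B * rho T z) (W : ℂ) :
    Integrable (fun z => KK (W - z) * g z) ∧ |∫ z, KK (W - z) * g z| ≤ A / 16 + B * c₁ := by
  obtain ⟨h1, h2⟩ := hc W
  have hK : Integrable (fun z => KK (W - z)) := KK_int.1.comp_sub_left W
  have hKi : ∫ z, KK (W - z) = 1 / 16 := by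
    rw [integral_sub_left_eq_self KK volume W, KK_int.2]
  have hdom : Integrable (fun z => A * KK (W - z) + B * (KK (W - z) * rho T z)) :=
    (hK.const_mul A).add (h1.const_mul B)
  have hle : ∀ᵐ z : ℂ, ‖KK (W - z) * g z‖ ≤ A * KK (W - z) + B * (KK (W - z) * rho T z) := by
    filter_upwards [convbd_ae T] with z hz
    have h3 := hb z hz
    have h4 : 0 ≤ KK (W - z) := kK_nonneg _
    rw [norm_mul, Real.norm_of_nonneg h4, Real.norm_eq_abs]
    calc KK (W - z) * |g z| ≤ KK (W - z) * (A + B * rho T z) := mul_le_mul_of_nonneg_left h3 h4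
      _ = _ := by ring
  have hm : AEStronglyMeasurable (fun z => KK (W - z) * g z) :=
    ((KK_meas.comp (measurable_const.sub measurable_id)).mul hg).aestronglyMeasurable
  have hI : Integrable (fun z => KK (W - z) * g z) := hdom.mono' hm hle
  refine ⟨hI, ?_⟩
  have h5 : |∫ z, KK (W - z) * g z| ≤ ∫ z, A * KK (W - z) + B * (KK (W - z) * rho T z) := by
    rw [← Real.norm_eq_abs]
    exact norm_integral_le_of_norm_le hdom hle
  rw [integral_add (hK.const_mul A) (h1.const_mul B), integral_const_mul, integral_const_mul,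
    hKi] at h5
  have h6 : B * ∫ z, KK (W - z) * rho T z ≤ B * c₁ := mul_le_mul_of_nonneg_left h2 hB
  linarith

end GM16
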