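import Pool.Agent.LibGM16.ConvBd

open Complex MeasureTheory Filter Topology Matrix
open scoped ContDiff Real ComplexOrder

namespace GM16

variable {γ t : ℝ} {v v' f f' : ℂ → ℝ}

theorem convc_kK_le : ∃ C : ℝ, 0 < C ∧ ∀ x : ℂ,
    KK x ≤ C * (Real.exp (-(4 * ‖x‖)) * ‖x‖ ^ (-(1 / 2) : ℝ)) := by
  obtain ⟨C, hC, hCle⟩ := kK_le
  refine ⟨C, hC, fun x => ?_⟩
  rcases (norm_nonneg x).eq_or_lt with h | h
  · have h1 : KK x = 0 := by
      unfold KK kK
      rw [← h]
      have : ∫ u in Set.Ioi (0 : ℝ), Real.exp (-(4 * 0 * Real.cosh u)) = 0 := by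
        simp [Measure.real]
      rw [this, mul_zero]
    rw [h1]
    positivity
  · exact hCle _ h

theorem convc_sq : ∃ B₀ : ℝ, 0 ≤ B₀ ∧ ∀ T : ℝ, 1 ≤ T → ∀ W : ℂ,
    Integrable (fun z => Real.exp (-(4 * ‖W - z‖)) * rho T z ^ 2) ∧
    ∫ z, Real.exp (-(4 * ‖W - z‖)) * rho T z ^ 2 ≤ B₀ := by
  obtain ⟨B, hB, hle⟩ := rhob_sq
  refine ⟨B.toReal, ENNReal.toReal_nonneg, fun T hT W => ?_⟩
  have hm : Measurable (fun z => Real.exp (-(4 * ‖W - z‖)) * rho T z ^ 2) := by
    apply Measurable.mul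
    · apply Continuous.measurable
      fun_prop
    · exact (rho_meas T).pow_const 2
  have hnn : ∀ z, 0 ≤ Real.exp (-(4 * ‖W - z‖)) * rho T z ^ 2 := fun z => by positivity
  constructor
  · refine ⟨hm.aestronglyMeasurable, ?_⟩
    rw [hasFiniteIntegral_iff_ofReal (Eventually.of_forall hnn)]
    exact lt_of_le_of_lt (hle T hT W) hB.lt_top
  · rw [integral_eq_lintegral_of_nonneg_ae (Eventually.of_forall hnn) hm.aestronglyMeasurable]
    exact ENNReal.toReal_mono hB (hle T hT W)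

/-- the truncated kernel -/
noncomputable def convc_K (r : ℝ) (x : ℂ) : ℝ := KK x * min 1 (‖x‖ / r)

theorem convc_K_meas (r : ℝ) : Measurable (convc_K r) := by
  unfold convc_K
  apply KK_meas.mul
  apply Continuous.measurable
  fun_prop

theorem convc_K_cont {r : ℝ} {x : ℂ} (hx : x ≠ 0) : ContinuousAt (convc_K r) x := by
  unfold convc_K
  apply ContinuousAt.mul
  · have h1 : ContinuousAt kK ‖x‖ :=
      kK_cont.continuousAt (Ioi_mem_nhds (norm_pos_iff.mpr hx))
    exact ContinuousAt.comp (f := fun y : ℂ => ‖y‖) (g := kK) h1 continuous_norm.continuousAt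
  · apply Continuous.continuousAt
    fun_prop

theorem convc_K_nonneg {r : ℝ} (hr : 0 < r) (x : ℂ) : 0 ≤ convc_K r x := by
  unfold convc_K
  have := kK_nonneg ‖x‖
  have h2 : 0 ≤ KK x := this
  positivity

theorem convc_K_le {r : ℝ} (hr : 0 < r) (x : ℂ) : convc_K r x ≤ KK x := by
  unfold convc_K
  have h2 : 0 ≤ KK x := kK_nonneg ‖x‖
  calc KK x * min 1 (‖x‖ / r) ≤ KK x * 1 := mul_le_mul_of_nonneg_left (min_le_left _ _) h2
    _ = KK x := mul_one _

theorem convc_K_bd {C : ℝ} (hC : 0 < C) (hle : ∀ x : ℂ,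
    KK x ≤ C * (Real.exp (-(4 * ‖x‖)) * ‖x‖ ^ (-(1 / 2) : ℝ))) {r : ℝ} (hr : 0 < r) (x : ℂ) :
    convc_K r x ≤ C * r ^ (-(1 / 2) : ℝ) * Real.exp (-(4 * ‖x‖)) := by
  rcases eq_or_ne x 0 with h0 | h0
  · have : convc_K r x = 0 := by
      unfold convc_K
      rw [h0]
      simp
    rw [this]
    positivity
  · have hx : 0 < ‖x‖ := norm_pos_iff.mpr h0
    have h1 : ‖x‖ ^ (-(1 / 2) : ℝ) * min 1 (‖x‖ / r) ≤ r ^ (-(1 / 2) : ℝ) := by
      rcases le_total r ‖x‖ with h | h
      · calc ‖x‖ ^ (-(1 / 2) : ℝ) * min 1 (‖x‖ / r) ≤ ‖x‖ ^ (-(1 / 2) : ℝ) * 1 :=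
              mul_le_mul_of_nonneg_left (min_le_left _ _) (by positivity)
          _ = ‖x‖ ^ (-(1 / 2) : ℝ) := mul_one _
          _ ≤ r ^ (-(1 / 2) : ℝ) := Real.rpow_le_rpow_of_nonpos hr h (by norm_num)
      · calc ‖x‖ ^ (-(1 / 2) : ℝ) * min 1 (‖x‖ / r) ≤ ‖x‖ ^ (-(1 / 2) : ℝ) * (‖x‖ / r) :=
              mul_le_mul_of_nonneg_left (min_le_right _ _) (by positivity)
          _ = ‖x‖ ^ (1 / 2 : ℝ) / r := by
              have : ‖x‖ ^ (-(1 / 2) : ℝ) * ‖x‖ = ‖x‖ ^ (1 / 2 : ℝ) := by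
                nth_rewrite 2 [← Real.rpow_one ‖x‖]
                rw [← Real.rpow_add hx]
                norm_num
              rw [← mul_div_assoc, this]
          _ ≤ r ^ (1 / 2 : ℝ) / r := by
              apply div_le_div_of_nonneg_right _ hr.le
              exact Real.rpow_le_rpow hx.le h (by norm_num)
          _ = r ^ (-(1 / 2) : ℝ) := by
              nth_rewrite 2 [← Real.rpow_one r]
              rw [← Real.rpow_sub hr]
              norm_num
    calc convc_K r x = KK x * min 1 (‖x‖ / r) := rfl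
      _ ≤ C * (Real.exp (-(4 * ‖x‖)) * ‖x‖ ^ (-(1 / 2) : ℝ)) * min 1 (‖x‖ / r) :=
          mul_le_mul_of_nonneg_right (hle x) (by positivity)
      _ = C * Real.exp (-(4 * ‖x‖)) * (‖x‖ ^ (-(1 / 2) : ℝ) * min 1 (‖x‖ / r)) := by ring
      _ ≤ C * Real.exp (-(4 * ‖x‖)) * r ^ (-(1 / 2) : ℝ) :=
          mul_le_mul_of_nonneg_left h1 (by positivity)
      _ = _ := by ring

theorem convc_cont_r {T : ℝ} (hT : 1 ≤ T) {g : ℂ → ℝ} (hg : Measurable g) {A B : ℝ} (hA : 0 ≤ A)
    (hB : 0 ≤ B) (hb : ∀ z ∉ LT T, |g z| ≤ A + B * rho T z) {r : ℝ} (hr : 0 < r) :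
    Continuous (fun W => ∫ z, convc_K r (W - z) * g z) := by
  obtain ⟨C, hC, hle⟩ := convc_kK_le
  obtain ⟨B₀, hB₀, hsq⟩ := convc_sq
  rw [continuous_iff_continuousAt]
  intro W₀
  set M := C * r ^ (-(1 / 2) : ℝ) * Real.exp 4 with hM
  have hM0 : 0 ≤ M := by positivity
  apply continuousAt_of_dominated
    (bound := fun z => M * (A + B) * Real.exp (-(4 * ‖W₀ - z‖)) +
      M * B * (Real.exp (-(4 * ‖W₀ - z‖)) * rho T z ^ 2))
  · refine Eventually.of_forall fun W => ?_
    exact (((convc_K_meas r).comp (measurable_const.sub measurable_id)).mul hg).aestronglyMeasurable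
  · filter_upwards [Metric.ball_mem_nhds W₀ one_pos] with W hW
    filter_upwards [convbd_ae T] with z hz
    have h1 := hb z hz
    have h2 := convc_K_nonneg hr (W - z)
    have h3 := convc_K_bd hC hle hr (W - z)
    have h4 : Real.exp (-(4 * ‖W - z‖)) ≤ Real.exp 4 * Real.exp (-(4 * ‖W₀ - z‖)) := by
      rw [← Real.exp_add]
      apply Real.exp_le_exp.mpr
      rw [Metric.mem_ball, dist_eq_norm] at hW
      have h5 : ‖W₀ - z‖ ≤ ‖W - z‖ + ‖W - W₀‖ := by
        have : W₀ - z = (W - z) - (W - W₀) := by ring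
        rw [this]
        exact norm_sub_le _ _
      linarith
    have h5 : convc_K r (W - z) ≤ M * Real.exp (-(4 * ‖W₀ - z‖)) := by
      calc convc_K r (W - z) ≤ C * r ^ (-(1 / 2) : ℝ) * Real.exp (-(4 * ‖W - z‖)) := h3
        _ ≤ C * r ^ (-(1 / 2) : ℝ) * (Real.exp 4 * Real.exp (-(4 * ‖W₀ - z‖))) :=
            mul_le_mul_of_nonneg_left h4 (by positivity)
        _ = _ := by rw [hM]; ring
    have hrho := rho_nonneg T z
    have h6 : |g z| ≤ (A + B) + B * rho T z ^ 2 := by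
      have : rho T z ≤ 1 + rho T z ^ 2 := by nlinarith [sq_nonneg (rho T z - 1)]
      nlinarith
    rw [norm_mul, Real.norm_of_nonneg h2, Real.norm_eq_abs]
    calc convc_K r (W - z) * |g z| ≤ (M * Real.exp (-(4 * ‖W₀ - z‖))) *
          ((A + B) + B * rho T z ^ 2) :=
          mul_le_mul h5 h6 (abs_nonneg _) (by positivity)
      _ = _ := by ring
  · refine Integrable.add ?_ ?_
    · exact (rhob_I2.comp_sub_left W₀).const_mul _
    · exact ((hsq T hT W₀).1).const_mul _
  · have hne : ∀ᵐ z : ℂ, z ≠ W₀ := by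
      simp [ae_iff]
    filter_upwards [hne] with z hz
    apply ContinuousAt.mul _ continuousAt_const
    have h1 : ContinuousAt (convc_K r) (W₀ - z) := convc_K_cont (sub_ne_zero.mpr hz.symm)
    exact ContinuousAt.comp (f := fun W : ℂ => W - z) (g := convc_K r) h1
      (by apply Continuous.continuousAt; fun_prop)

theorem conv_cont {T : ℝ} (hT : 1 ≤ T) {g : ℂ → ℝ} (hg : Measurable g) {A B : ℝ} (hA : 0 ≤ A)
    (hB : 0 ≤ B) (hb : ∀ z ∉ LT T, |g z| ≤ A + B * rho T z) :
    Continuous (fun W => ∫ z, KK (W - z) * g z) := by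
  obtain ⟨C, hC, hle⟩ := convc_kK_le
  obtain ⟨B₀, hB₀, hsq⟩ := convc_sq
  obtain ⟨c₁, hc₁, hrho⟩ := KK_rho
  apply continuous_of_uniform_approx_of_continuous
  intro u hu
  obtain ⟨ε, hε, hεu⟩ := Metric.mem_uniformity_dist.mp hu
  -- the kernel near zero
  set P : ℝ → ℝ := fun r => ∫ x in Metric.ball (0 : ℂ) r, KK x with hP
  set Q : ℝ → ℝ := fun r => ∫ x in Metric.ball (0 : ℂ) r, Real.exp (-(4 * ‖x‖)) * ‖x‖⁻¹ with hQ
  have hball : Tendsto (fun r : ℝ => volume (Metric.ball (0 : ℂ) r)) (𝓝[>] 0) (𝓝 0) := by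
    have h1 : (fun r : ℝ => volume (Metric.ball (0 : ℂ) r)) =
        fun r : ℝ => ENNReal.ofReal r ^ 2 * (NNReal.pi : ENNReal) := by
      funext r
      exact Complex.volume_ball 0 r
    rw [h1]
    have h2 : Tendsto (fun r : ℝ => ENNReal.ofReal r ^ 2) (𝓝[>] 0) (𝓝 0) := by
      have h3 : Tendsto (fun r : ℝ => ENNReal.ofReal r) (𝓝[>] 0) (𝓝 0) := by
        have := (ENNReal.continuous_ofReal.tendsto 0).mono_left
          (nhdsWithin_le_nhds (s := Set.Ioi (0 : ℝ)))
        simpa using this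
      have := ((ENNReal.continuous_pow 2).tendsto 0).comp h3
      simpa [Function.comp_def] using this
    have h4 := ENNReal.Tendsto.mul_const (b := (NNReal.pi : ENNReal)) h2
      (Or.inr ENNReal.coe_ne_top)
    simpa using h4
  have hPt : Tendsto P (𝓝[>] 0) (𝓝 0) := KK_int.1.tendsto_setIntegral_nhds_zero hball
  have hQt : Tendsto Q (𝓝[>] 0) (𝓝 0) := rhob_I1.tendsto_setIntegral_nhds_zero hball
  -- choose λ with C B B₀ / λ < ε/3 ...
  set lam : ℝ := 3 * (C * B * B₀ + 1) / ε with hlam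
  have hCB : 0 < C * B * B₀ + 1 := by positivity
  have hlam0 : 0 < lam := by positivity
  have h1 : C * B * B₀ / lam < ε / 3 := by
    rw [div_lt_iff₀ hlam0, hlam]
    field_simp
    linarith
  have hev : ∀ᶠ r in 𝓝[>] (0 : ℝ), A * P r < ε / 3 ∧ C * B * lam * Q r < ε / 3 := by
    have h2 : Tendsto (fun r => A * P r) (𝓝[>] 0) (𝓝 (A * 0)) := hPt.const_mul A
    have h3 : Tendsto (fun r => C * B * lam * Q r) (𝓝[>] 0) (𝓝 (C * B * lam * 0)) :=
      hQt.const_mul _
    rw [mul_zero] at h2 h3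
    exact (h2.eventually (gt_mem_nhds (by positivity))).and
      (h3.eventually (gt_mem_nhds (by positivity)))
  obtain ⟨r, ⟨h2, h3⟩, hr⟩ := (hev.and self_mem_nhdsWithin).exists
  have hr0 : 0 < r := hr
  refine ⟨fun W => ∫ z, convc_K r (W - z) * g z, convc_cont_r hT hg hA hB hb hr0, fun W => ?_⟩
  apply hεu
  have hint1 := (conv_bd hT (hrho T hT) hg hA hB hb W).1
  have hint2 : Integrable (fun z => convc_K r (W - z) * g z) := by
    refine hint1.mono (((convc_K_meas r).comp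
      (measurable_const.sub measurable_id)).mul hg).aestronglyMeasurable ?_
    refine Eventually.of_forall fun z => ?_
    rw [norm_mul, norm_mul]
    apply mul_le_mul_of_nonneg_right _ (norm_nonneg _)
    rw [Real.norm_of_nonneg (convc_K_nonneg hr0 _),
      Real.norm_of_nonneg (show 0 ≤ KK (W - z) from kK_nonneg _)]
    exact convc_K_le hr0 _
  rw [dist_eq_norm, ← integral_sub hint1 hint2]
  -- the indicator of the ball
  set S := Metric.ball (0 : ℂ) r with hS
  have hSm : MeasurableSet S := measurableSet_ball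
  have hi1 : Integrable (fun z => S.indicator KK (W - z)) := (KK_int.1.indicator hSm).comp_sub_left W
  have hi2 : Integrable (fun z => S.indicator (fun x : ℂ => Real.exp (-(4 * ‖x‖)) * ‖x‖⁻¹) (W - z)) :=
    (rhob_I1.indicator hSm).comp_sub_left W
  have hv1 : ∫ z, S.indicator KK (W - z) = P r := by
    rw [integral_sub_left_eq_self (S.indicator KK) volume W, integral_indicator hSm]
  have hv2 : ∫ z, S.indicator (fun x : ℂ => Real.exp (-(4 * ‖x‖)) * ‖x‖⁻¹) (W - z) = Q r := by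
    rw [integral_sub_left_eq_self (S.indicator (fun x : ℂ => Real.exp (-(4 * ‖x‖)) * ‖x‖⁻¹))
      volume W, integral_indicator hSm]
  obtain ⟨hi3, hv3⟩ := hsq T hT W
  have hdom : Integrable (fun z => A * S.indicator KK (W - z) +
      (C * B * lam * S.indicator (fun x : ℂ => Real.exp (-(4 * ‖x‖)) * ‖x‖⁻¹) (W - z) +
        C * B / lam * (Real.exp (-(4 * ‖W - z‖)) * rho T z ^ 2))) :=
    (hi1.const_mul _).add ((hi2.const_mul _).add (hi3.const_mul _))
  have hpt : ∀ᵐ z : ℂ, ‖KK (W - z) * g z - convc_K r (W - z) * g z‖ ≤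
      A * S.indicator KK (W - z) +
      (C * B * lam * S.indicator (fun x : ℂ => Real.exp (-(4 * ‖x‖)) * ‖x‖⁻¹) (W - z) +
        C * B / lam * (Real.exp (-(4 * ‖W - z‖)) * rho T z ^ 2)) := by
    filter_upwards [convbd_ae T] with z hz
    have h4 := hb z hz
    set x := W - z with hx
    have hKx : 0 ≤ KK x := kK_nonneg _
    have hrz := rho_nonneg T z
    rw [← sub_mul, norm_mul, Real.norm_eq_abs, Real.norm_eq_abs,
      abs_of_nonneg (sub_nonneg.mpr (convc_K_le hr0 x))]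
    by_cases hxS : x ∈ S
    · rw [Set.indicator_of_mem hxS, Set.indicator_of_mem hxS]
      have h5 : KK x - convc_K r x ≤ KK x := by
        have := convc_K_nonneg hr0 x
        linarith
      set s := ‖x‖ ^ (-(1 / 2) : ℝ) with hs
      have hs0 : 0 ≤ s := Real.rpow_nonneg (norm_nonneg _) _
      have hs2 : s ^ 2 = ‖x‖⁻¹ := by
        rw [hs, ← Real.rpow_natCast, ← Real.rpow_mul (norm_nonneg _)]
        rw [show -(1 / 2 : ℝ) * ((2 : ℕ) : ℝ) = -1 by norm_num, Real.rpow_neg_one]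
      have h6 : s * rho T z ≤ lam * s ^ 2 + rho T z ^ 2 / lam := by
        have h7 : 0 ≤ (lam * s - rho T z) ^ 2 / lam + s * rho T z := by positivity
        have h8 : (lam * s - rho T z) ^ 2 / lam + s * rho T z =
            lam * s ^ 2 + rho T z ^ 2 / lam - s * rho T z := by
          field_simp
          ring
        linarith
      have h9 : KK x * rho T z ≤ C * Real.exp (-(4 * ‖x‖)) * (lam * s ^ 2 + rho T z ^ 2 / lam) := by
        calc KK x * rho T z ≤ C * (Real.exp (-(4 * ‖x‖)) * s) * rho T z :=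
              mul_le_mul_of_nonneg_right (hle x) hrz
          _ = C * Real.exp (-(4 * ‖x‖)) * (s * rho T z) := by ring
          _ ≤ _ := mul_le_mul_of_nonneg_left h6 (by positivity)
      calc (KK x - convc_K r x) * |g z| ≤ KK x * (A + B * rho T z) :=
            mul_le_mul h5 h4 (abs_nonneg _) hKx
        _ = A * KK x + B * (KK x * rho T z) := by ring
        _ ≤ A * KK x + B * (C * Real.exp (-(4 * ‖x‖)) * (lam * s ^ 2 + rho T z ^ 2 / lam)) := by
            have := mul_le_mul_of_nonneg_left h9 hB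
            linarith
        _ = _ := by rw [hs2]; ring
    · rw [Set.indicator_of_notMem hxS, Set.indicator_of_notMem hxS]
      have h5 : KK x - convc_K r x = 0 := by
        unfold convc_K
        have : 1 ≤ ‖x‖ / r := by
          rw [one_le_div hr0]
          rw [hS, mem_ball_zero_iff, not_lt] at hxS
          exact hxS
        rw [min_eq_left this]
        ring
      rw [h5, zero_mul]
      positivity
  refine lt_of_le_of_lt (norm_integral_le_of_norm_le hdom hpt) ?_
  have hadd : ∫ z, (A * S.indicator KK (W - z) +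
      (C * B * lam * S.indicator (fun x : ℂ => Real.exp (-(4 * ‖x‖)) * ‖x‖⁻¹) (W - z) +
        C * B / lam * (Real.exp (-(4 * ‖W - z‖)) * rho T z ^ 2))) =
      A * P r + (C * B * lam * Q r + C * B / lam *
        ∫ z, Real.exp (-(4 * ‖W - z‖)) * rho T z ^ 2) := by
    have e1 : ∫ z, (A * S.indicator KK (W - z) +
        (C * B * lam * S.indicator (fun x : ℂ => Real.exp (-(4 * ‖x‖)) * ‖x‖⁻¹) (W - z) +
          C * B / lam * (Real.exp (-(4 * ‖W - z‖)) * rho T z ^ 2))) =
        (∫ z, A * S.indicator KK (W - z)) +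
        ∫ z, (C * B * lam * S.indicator (fun x : ℂ => Real.exp (-(4 * ‖x‖)) * ‖x‖⁻¹) (W - z) +
          C * B / lam * (Real.exp (-(4 * ‖W - z‖)) * rho T z ^ 2)) :=
      integral_add (hi1.const_mul _) ((hi2.const_mul _).add (hi3.const_mul _))
    have e2 : ∫ z, (C * B * lam * S.indicator (fun x : ℂ => Real.exp (-(4 * ‖x‖)) * ‖x‖⁻¹) (W - z) +
          C * B / lam * (Real.exp (-(4 * ‖W - z‖)) * rho T z ^ 2)) =
        (∫ z, C * B * lam * S.indicator (fun x : ℂ => Real.exp (-(4 * ‖x‖)) * ‖x‖⁻¹) (W - z)) +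
        ∫ z, C * B / lam * (Real.exp (-(4 * ‖W - z‖)) * rho T z ^ 2) :=
      integral_add (hi2.const_mul _) (hi3.const_mul _)
    rw [e1, e2, integral_const_mul, integral_const_mul, integral_const_mul, hv1, hv2]
  rw [hadd]
  have h10 : C * B / lam * ∫ z, Real.exp (-(4 * ‖W - z‖)) * rho T z ^ 2 ≤ C * B / lam * B₀ :=
    mul_le_mul_of_nonneg_left hv3 (by positivity)
  have h11 : C * B / lam * B₀ = C * B * B₀ / lam := by ring
  linarith

end GM16
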