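import Pool.Agent.LibGM16.CalcB

open Complex MeasureTheory Filter Topology Matrix
open scoped ContDiff Real ComplexOrder

namespace GM16

variable {γ t : ℝ} {v v' f f' : ℂ → ℝ}

/-- The unit vector `e^{iθ}`. -/
noncomputable def ee (θ : ℝ) : ℂ := (Real.cos θ : ℂ) + (Real.sin θ : ℂ) * I

theorem hasDerivAt_ee (θ : ℝ) : HasDerivAt ee (I * ee θ) θ := by
  have h1 : HasDerivAt (fun θ : ℝ => (Real.cos θ : ℂ)) ((-(Real.sin θ) : ℝ) : ℂ) θ :=
    (Real.hasDerivAt_cos θ).ofReal_comp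
  have h2 : HasDerivAt (fun θ : ℝ => (Real.sin θ : ℂ)) (Real.cos θ : ℂ) θ :=
    (Real.hasDerivAt_sin θ).ofReal_comp
  have h3 := h1.add (h2.mul_const I)
  refine h3.congr_deriv ?_
  rw [ee, mul_add, mul_left_comm, I_mul_I]
  push_cast
  ring

theorem norm_ee (θ : ℝ) : ‖ee θ‖ = 1 := by
  rw [ee]
  simp

theorem continuous_ee : Continuous ee :=
  continuous_iff_continuousAt.2 fun θ => (hasDerivAt_ee θ).continuousAt

theorem ee_pi : ee π = ee (-π) := by simp [ee]

/-- The trace of a bilinear form in the basis `e^{iθ}, i e^{iθ}`. -/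
theorem trace_ee (T : ℂ →L[ℝ] ℂ →L[ℝ] ℝ) (θ : ℝ) :
    T (ee θ) (ee θ) + T (I * ee θ) (I * ee θ) = T 1 1 + T I I := by
  have h1 : ee θ = (Real.cos θ) • (1 : ℂ) + (Real.sin θ) • I := by
    rw [ee, real_smul, real_smul, mul_one]
  have h2 : I * ee θ = (-(Real.sin θ)) • (1 : ℂ) + (Real.cos θ) • I := by
    rw [ee, real_smul, real_smul, mul_one, mul_add, mul_left_comm, I_mul_I]
    push_cast
    ring
  rw [h2, h1]
  simp only [map_add, map_smul, _root_.add_apply, _root_.smul_apply, smul_eq_mul]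
  have h3 := Real.sin_sq_add_cos_sq θ
  linear_combination (T 1 1 + T I I) * h3

/-- Differentiation under the angular integral. -/
theorem ang_deriv {G G' : ℝ → ℝ → ℝ} (hG : ∀ r θ, HasDerivAt (fun r => G r θ) (G' r θ) r)
    (hGc : Continuous fun p : ℝ × ℝ => G p.1 p.2) (hG'c : Continuous fun p : ℝ × ℝ => G' p.1 p.2)
    (r₀ : ℝ) :
    HasDerivAt (fun r => ∫ θ in (-π)..π, G r θ) (∫ θ in (-π)..π, G' r₀ θ) r₀ := by
  obtain ⟨C, hC⟩ := ((isCompact_Icc (a := r₀ - 1) (b := r₀ + 1)).prod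
    (isCompact_uIcc (a := -π) (b := π))).exists_bound_of_continuousOn hG'c.continuousOn
  refine (intervalIntegral.hasDerivAt_integral_of_dominated_loc_of_deriv_le
    (s := Set.Icc (r₀ - 1) (r₀ + 1))
    (bound := fun _ => C) (Icc_mem_nhds (by linarith) (by linarith))
    (Eventually.of_forall fun r => ?_) ?_ ?_ ?_ ?_ ?_).2
  · exact (hGc.comp (continuous_const.prodMk continuous_id)).aestronglyMeasurable
  · exact (hGc.comp (continuous_const.prodMk continuous_id)).intervalIntegrable _ _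
  · exact (hG'c.comp (continuous_const.prodMk continuous_id)).aestronglyMeasurable
  · exact Eventually.of_forall fun θ hθ r hr => hC (r, θ) ⟨hr, Set.uIoc_subset_uIcc hθ⟩
  · exact continuous_const.intervalIntegrable _ _
  · exact Eventually.of_forall fun θ _ r _ => hG r θ

section main

variable {ψ : ℂ → ℝ}

theorem hd_line (hψ : Differentiable ℝ ψ) (a : ℂ) (r : ℝ) :
    HasDerivAt (fun r : ℝ => ψ (r * a)) (fderiv ℝ ψ (r * a) a) r := by
  have h1 : HasDerivAt (fun r : ℝ => (r : ℂ) * a) a r := by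
    simpa using ((hasDerivAt_id r).ofReal_comp).mul_const a
  exact (hψ (r * a)).hasFDerivAt.comp_hasDerivAt r h1

theorem hd_line2 (hψ : Differentiable ℝ (fderiv ℝ ψ)) (a b : ℂ) (r : ℝ) :
    HasDerivAt (fun r : ℝ => fderiv ℝ ψ (r * a) b) (fderiv ℝ (fderiv ℝ ψ) (r * a) a b) r := by
  have h1 : HasDerivAt (fun r : ℝ => (r : ℂ) * a) a r := by
    simpa using ((hasDerivAt_id r).ofReal_comp).mul_const a
  have h2 := (hψ (r * a)).hasFDerivAt.comp_hasDerivAt r h1
  exact h2.clm_apply (hasDerivAt_const r b) |>.congr_deriv (by simp)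

theorem hd_ang (hψ : Differentiable ℝ ψ) (r θ : ℝ) :
    HasDerivAt (fun θ : ℝ => ψ (r * ee θ)) (fderiv ℝ ψ (r * ee θ) (r * (I * ee θ))) θ := by
  have h1 : HasDerivAt (fun θ : ℝ => (r : ℂ) * ee θ) (r * (I * ee θ)) θ :=
    (hasDerivAt_ee θ).const_mul _
  exact (hψ (r * ee θ)).hasFDerivAt.comp_hasDerivAt θ h1

theorem hd_ang2 (hψ : Differentiable ℝ (fderiv ℝ ψ)) (r θ : ℝ) :
    HasDerivAt (fun θ : ℝ => fderiv ℝ ψ (r * ee θ) (r * (I * ee θ)))
      (r ^ 2 * fderiv ℝ (fderiv ℝ ψ) (r * ee θ) (I * ee θ) (I * ee θ) -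
        r * fderiv ℝ ψ (r * ee θ) (ee θ)) θ := by
  have h1 : HasDerivAt (fun θ : ℝ => (r : ℂ) * ee θ) (r * (I * ee θ)) θ :=
    (hasDerivAt_ee θ).const_mul _
  have h2 : HasDerivAt (fun θ : ℝ => (r : ℂ) * (I * ee θ)) (r * (I * (I * ee θ))) θ :=
    ((hasDerivAt_ee θ).const_mul _).const_mul _
  have h3 := (hψ (r * ee θ)).hasFDerivAt.comp_hasDerivAt θ h1
  refine (h3.clm_apply h2).congr_deriv ?_
  have e1 : (r : ℂ) * (I * ee θ) = r • (I * ee θ) := (real_smul).symm
  have e2 : (r : ℂ) * (I * (I * ee θ)) = (-r) • ee θ := by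
    rw [real_smul, ← mul_assoc I I, I_mul_I]
    push_cast
    ring
  simp only [Function.comp_apply]
  rw [e1, e2]
  simp only [map_smul, _root_.smul_apply, smul_eq_mul]
  ring

theorem lap_eq_trace (hψ : Differentiable ℝ (fderiv ℝ ψ)) (z : ℂ) :
    lap ψ z = fderiv ℝ (fderiv ℝ ψ) z 1 1 + fderiv ℝ (fderiv ℝ ψ) z I I := by
  have h : ∀ w : ℂ, fderiv ℝ (fun z => fderiv ℝ ψ z w) z = (fderiv ℝ (fderiv ℝ ψ) z).flip w := by
    intro w
    have h1 := ((hψ z).hasFDerivAt).clm_apply (hasFDerivAt_const w z)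
    rw [h1.fderiv]
    ext a
    simp
  have h1 : dx (dx ψ) z = fderiv ℝ (fderiv ℝ ψ) z 1 1 := by
    have := h 1
    unfold dx
    rw [this]
    simp
  have h2 : dy (dy ψ) z = fderiv ℝ (fderiv ℝ ψ) z I I := by
    have := h I
    unfold dy
    rw [this]
    simp
  rw [lap, h1, h2]

variable (ψ) in
/-- Circular means. -/
noncomputable def M0 (r : ℝ) : ℝ := ∫ θ in (-π)..π, ψ (r * ee θ)

variable (ψ) in
noncomputable def M1 (r : ℝ) : ℝ := ∫ θ in (-π)..π, fderiv ℝ ψ (r * ee θ) (ee θ)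

variable (ψ) in
noncomputable def M2 (r : ℝ) : ℝ :=
  ∫ θ in (-π)..π, fderiv ℝ (fderiv ℝ ψ) (r * ee θ) (ee θ) (ee θ)

theorem cont_pt : Continuous fun p : ℝ × ℝ => (p.1 : ℂ) * ee p.2 :=
  (continuous_ofReal.comp continuous_fst).mul (continuous_ee.comp continuous_snd)

theorem hasDerivAt_M0 (hψ : ContDiff ℝ ∞ ψ) (r : ℝ) :
    HasDerivAt (M0 ψ) (M1 ψ r) r := by
  have hd : Continuous (fderiv ℝ ψ) := hψ.continuous_fderiv (by simp)
  exact ang_deriv (G := fun r θ => ψ (r * ee θ)) (G' := fun r θ => fderiv ℝ ψ (r * ee θ) (ee θ))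
    (fun r θ => hd_line (hψ.differentiable (by simp)) _ r)
    (hψ.continuous.comp cont_pt)
    ((hd.comp cont_pt).clm_apply (continuous_ee.comp continuous_snd)) r

theorem hasDerivAt_M1 (hψ : ContDiff ℝ ∞ ψ) (r : ℝ) :
    HasDerivAt (M1 ψ) (M2 ψ r) r := by
  have hψ1 : ContDiff ℝ ∞ (fderiv ℝ ψ) := hψ.fderiv_right (by simp)
  have hd : Continuous (fderiv ℝ ψ) := hψ1.continuous
  have hd2 : Continuous (fderiv ℝ (fderiv ℝ ψ)) := hψ1.continuous_fderiv (by simp)
  have k1 : Continuous fun p : ℝ × ℝ => fderiv ℝ ψ (p.1 * ee p.2) (ee p.2) :=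
    (hd.comp cont_pt).clm_apply (continuous_ee.comp continuous_snd)
  have k2 : Continuous fun p : ℝ × ℝ => fderiv ℝ (fderiv ℝ ψ) (p.1 * ee p.2) (ee p.2) (ee p.2) :=
    ((hd2.comp cont_pt).clm_apply (continuous_ee.comp continuous_snd)).clm_apply
      (continuous_ee.comp continuous_snd)
  have hdd : Differentiable ℝ (fderiv ℝ ψ) := hψ1.differentiable (by simp)
  exact ang_deriv (G := fun r θ => fderiv ℝ ψ (r * ee θ) (ee θ))
    (G' := fun r θ => fderiv ℝ (fderiv ℝ ψ) (r * ee θ) (ee θ) (ee θ))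
    (fun r θ => hd_line2 hdd _ _ r) k1 k2 r

theorem M0_zero : M0 ψ 0 = 2 * π * ψ 0 := by
  rw [M0]
  simp only [ofReal_zero, zero_mul, intervalIntegral.integral_const, smul_eq_mul]
  ring

/-- The circular mean of the Laplacian. -/
theorem lap_ang (hψ : ContDiff ℝ ∞ ψ) {r : ℝ} (hr : r ≠ 0) :
    ∫ θ in (-π)..π, lap ψ (r * ee θ) = M2 ψ r + M1 ψ r / r := by
  have hψ1 : ContDiff ℝ ∞ (fderiv ℝ ψ) := hψ.fderiv_right (by simp)
  have hd : Continuous (fderiv ℝ ψ) := hψ1.continuous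
  have hdd : Differentiable ℝ (fderiv ℝ ψ) := hψ1.differentiable (by simp)
  have hd2 : Continuous (fderiv ℝ (fderiv ℝ ψ)) := hψ1.continuous_fderiv (by simp)
  have cr : Continuous fun θ : ℝ => (r : ℂ) * ee θ := continuous_const.mul continuous_ee
  have ci : Continuous fun θ : ℝ => I * ee θ := continuous_const.mul continuous_ee
  have c1 : Continuous fun θ : ℝ => fderiv ℝ ψ (r * ee θ) (ee θ) :=
    (hd.comp cr).clm_apply continuous_ee
  have c2 : Continuous fun θ : ℝ => fderiv ℝ (fderiv ℝ ψ) (r * ee θ) (ee θ) (ee θ) :=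
    ((hd2.comp cr).clm_apply continuous_ee).clm_apply continuous_ee
  have c3 : Continuous fun θ : ℝ => fderiv ℝ (fderiv ℝ ψ) (r * ee θ) (I * ee θ) (I * ee θ) :=
    ((hd2.comp cr).clm_apply ci).clm_apply ci
  have h1 : ∫ θ in (-π)..π, lap ψ (r * ee θ) = M2 ψ r +
      ∫ θ in (-π)..π, fderiv ℝ (fderiv ℝ ψ) (r * ee θ) (I * ee θ) (I * ee θ) := by
    rw [M2, ← intervalIntegral.integral_add (c2.intervalIntegrable _ _)
      (c3.intervalIntegrable _ _)]
    refine intervalIntegral.integral_congr fun θ _ => ?_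
    rw [lap_eq_trace hdd, trace_ee]
  have c3' : Continuous fun θ : ℝ =>
      r ^ 2 * fderiv ℝ (fderiv ℝ ψ) (r * ee θ) (I * ee θ) (I * ee θ) := continuous_const.mul c3
  have c1' : Continuous fun θ : ℝ => r * fderiv ℝ ψ (r * ee θ) (ee θ) := continuous_const.mul c1
  have h2 : ∫ θ in (-π)..π, (r ^ 2 * fderiv ℝ (fderiv ℝ ψ) (r * ee θ) (I * ee θ) (I * ee θ) -
      r * fderiv ℝ ψ (r * ee θ) (ee θ)) = 0 := by
    rw [intervalIntegral.integral_eq_sub_of_hasDerivAt (fun θ _ => hd_ang2 hdd r θ)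
      ((c3'.sub c1').intervalIntegrable _ _),
      ee_pi, sub_self]
  rw [intervalIntegral.integral_sub (c3'.intervalIntegrable _ _) (c1'.intervalIntegrable _ _), intervalIntegral.integral_const_mul,
    intervalIntegral.integral_const_mul] at h2
  have h3 : ∫ θ in (-π)..π, fderiv ℝ (fderiv ℝ ψ) (r * ee θ) (I * ee θ) (I * ee θ) =
      M1 ψ r / r := by
    rw [eq_div_iff hr, M1]
    have h4 : r * (r * (∫ θ in (-π)..π,
        fderiv ℝ (fderiv ℝ ψ) (r * ee θ) (I * ee θ) (I * ee θ)) -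
        ∫ θ in (-π)..π, fderiv ℝ ψ (r * ee θ) (ee θ)) = 0 := by
      linear_combination h2
    rcases mul_eq_zero.1 h4 with h5 | h5
    · exact absurd h5 hr
    · linear_combination h5
  rw [h1, h3]

end main

/-- The representation at the origin. -/
theorem radial_rep_zero (c : ℝ) (k k' : ℝ → ℝ) (hk : ∀ r > 0, HasDerivAt k (k' r) r)
    (hk' : ∀ r > 0, HasDerivAt k' (c * k r - k' r / r) r)
    (h0 : Tendsto (fun r => r * k' r) (𝓝[>] 0) (𝓝 (-(1 / (2 * π)))))
    (h1 : Tendsto (fun r => r * k r) (𝓝[>] 0) (𝓝 0))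
    (ψ : ℂ → ℝ) (hψ : ContDiff ℝ ∞ ψ) (hc : HasCompactSupport ψ) :
    ∫ y, k ‖y‖ * (c * ψ y - lap ψ y) = ψ 0 := by
  have hpi := Real.pi_pos
  have hψ1 : ContDiff ℝ ∞ (fderiv ℝ ψ) := hψ.fderiv_right (by simp)
  have hdd : Differentiable ℝ (fderiv ℝ ψ) := hψ1.differentiable (by simp)
  -- h := c ψ - Δψ
  set h : ℂ → ℝ := fun z => c * ψ z - lap ψ z with hh
  have hlapc : Continuous (lap ψ) := by
    have : lap ψ = fun z => fderiv ℝ (fderiv ℝ ψ) z 1 1 + fderiv ℝ (fderiv ℝ ψ) z I I := by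
      funext z; exact lap_eq_trace hdd z
    rw [this]
    have hd2 : Continuous (fderiv ℝ (fderiv ℝ ψ)) := hψ1.continuous_fderiv (by simp)
    exact ((hd2.clm_apply continuous_const).clm_apply continuous_const).add
      ((hd2.clm_apply continuous_const).clm_apply continuous_const)
  have hhc : Continuous h := (continuous_const.mul hψ.continuous).sub hlapc
  obtain ⟨R0, hR0⟩ := hc.isCompact.isBounded.exists_norm_le
  set R := max R0 0 + 1 with hR
  have hRpos : 0 < R := by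
    have := le_max_right R0 0
    linarith
  have hout : ∀ z : ℂ, R ≤ ‖z‖ → z ∉ tsupport ψ := by
    intro z hz hz'
    have := hR0 z hz'
    have := le_max_left R0 0
    linarith
  have hψ0 : ∀ z : ℂ, R ≤ ‖z‖ → ψ z = 0 := fun z hz =>
    image_eq_zero_of_notMem_tsupport (hout z hz)
  have hDψ0 : ∀ z : ℂ, R ≤ ‖z‖ → fderiv ℝ ψ z = 0 := fun z hz =>
    image_eq_zero_of_notMem_tsupport fun h => hout z hz (tsupport_fderiv_subset ℝ h)
  have hD2ψ0 : ∀ z : ℂ, R ≤ ‖z‖ → fderiv ℝ (fderiv ℝ ψ) z = 0 := fun z hz =>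
    image_eq_zero_of_notMem_tsupport fun h => hout z hz
      (tsupport_fderiv_subset ℝ (tsupport_fderiv_subset ℝ h))
  have hh0 : ∀ z : ℂ, R ≤ ‖z‖ → h z = 0 := by
    intro z hz
    simp only [hh]
    rw [hψ0 z hz, lap_eq_trace hdd, hD2ψ0 z hz]
    simp
  obtain ⟨Ch, hCh⟩ : ∃ C, ∀ z, ‖h z‖ ≤ C := by
    refine hhc.bounded_above_of_compact_support ?_
    refine HasCompactSupport.of_support_subset_isCompact (isCompact_closedBall 0 R) fun z hz => ?_
    rw [Metric.mem_closedBall, dist_zero_right]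
    by_contra hcon
    push Not at hcon
    exact hz (hh0 z hcon.le)
  have hCh0 : 0 ≤ Ch := (norm_nonneg _).trans (hCh 0)
  have hkc : ContinuousOn k (Set.Ioi 0) := fun r hr => (hk r hr).continuousAt.continuousWithinAt
  -- bound for r k(r)
  obtain ⟨B, hB⟩ : ∃ B, ∀ r, 0 < r → r ≤ R → |r * k r| ≤ B := by
    have h2 : ∀ᶠ r in 𝓝[>] (0 : ℝ), |r * k r| < 1 := by
      have := h1.abs
      rw [abs_zero] at this
      exact (tendsto_order.1 this).2 1 one_pos
    obtain ⟨δ, hδ, hδ'⟩ := mem_nhdsGT_iff_exists_Ioo_subset.1 h2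
    have hδ0 : (0 : ℝ) < δ := hδ
    have h3 : ContinuousOn (fun r => r * k r) (Set.Icc (δ / 2) R) := by
      refine continuousOn_id.mul (hkc.mono fun r hr => ?_)
      exact lt_of_lt_of_le (by positivity) hr.1
    obtain ⟨B, hB⟩ := isCompact_Icc.exists_bound_of_continuousOn h3
    refine ⟨max B 1, fun r hr hrR => ?_⟩
    by_cases hrd : r < δ
    · exact (le_of_lt (hδ' ⟨hr, hrd⟩)).trans (le_max_right _ _)
    · push Not at hrd
      have := hB r ⟨by linarith, hrR⟩
      rw [Real.norm_eq_abs] at this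
      exact this.trans (le_max_left _ _)
  -- the integrand in polar coordinates
  set F : ℝ × ℝ → ℝ := fun p => p.1 * (k p.1 * h (p.1 * ee p.2)) with hF
  have step1 : ∫ y, k ‖y‖ * h y = ∫ p in Set.Ioi (0 : ℝ) ×ˢ Set.Ioo (-π) π, F p := by
    rw [← Complex.integral_comp_polarCoord_symm (fun y => k ‖y‖ * h y), polarCoord_target]
    refine setIntegral_congr_fun (measurableSet_Ioi.prod measurableSet_Ioo) fun p hp => ?_
    have hp1 : 0 < p.1 := hp.1
    simp only [hF, smul_eq_mul]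
    rw [norm_polarCoord_symm, abs_of_pos hp1, Complex.polarCoord_symm_apply]
    rfl
  have hFcont : ContinuousOn F (Set.Ioi (0 : ℝ) ×ˢ Set.Ioo (-π) π) := by
    refine continuousOn_fst.mul (ContinuousOn.mul ?_ (hhc.comp cont_pt).continuousOn)
    exact hkc.comp continuousOn_fst fun p hp => hp.1
  have hFint1 : IntegrableOn F (Set.Ioc (0 : ℝ) R ×ˢ Set.Ioo (-π) π) volume := by
    refine IntegrableOn.of_bound (C := B * Ch) ?_ ?_ ?_
    · rw [Measure.volume_eq_prod, Measure.prod_prod]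
      simp [ENNReal.mul_lt_top_iff]
    · refine (hFcont.mono ?_).aestronglyMeasurable (measurableSet_Ioc.prod measurableSet_Ioo)
      exact Set.prod_mono (fun r hr => hr.1) (subset_refl _)
    · refine (ae_restrict_iff' (measurableSet_Ioc.prod measurableSet_Ioo)).2
        (Eventually.of_forall fun p hp => ?_)
      have hp1 := hp.1
      simp only [hF]
      rw [← mul_assoc, norm_mul, Real.norm_eq_abs (p.1 * k p.1)]
      exact mul_le_mul (hB p.1 hp1.1 hp1.2) (hCh _) (norm_nonneg _)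
        ((abs_nonneg _).trans (hB p.1 hp1.1 hp1.2))
  have hFint2 : IntegrableOn F (Set.Ioi R ×ˢ Set.Ioo (-π) π) volume := by
    refine integrableOn_zero.congr_fun (fun p hp => ?_) (measurableSet_Ioi.prod measurableSet_Ioo)
    have hp1 : R < p.1 := hp.1
    simp only [hF]
    rw [hh0 (p.1 * ee p.2), mul_zero, mul_zero]
    rw [norm_mul, norm_ee, mul_one, Complex.norm_real, Real.norm_of_nonneg (by linarith)]
    exact hp1.le
  have hFint : IntegrableOn F (Set.Ioi (0 : ℝ) ×ˢ Set.Ioo (-π) π) volume := by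
    have := hFint1.union hFint2
    rwa [← Set.union_prod, Set.Ioc_union_Ioi_eq_Ioi hRpos.le] at this
  -- primitive
  set Q : ℝ → ℝ := fun r => r * k' r * M0 ψ r - r * k r * M1 ψ r with hQ
  set q : ℝ → ℝ := fun r => ∫ θ in Set.Ioo (-π) π, F (r, θ) with hq
  have hqint : IntegrableOn q (Set.Ioi 0) := by
    have h5 : Integrable F ((volume.restrict (Set.Ioi (0 : ℝ))).prod
        (volume.restrict (Set.Ioo (-π) π))) := by
      rw [Measure.prod_restrict, ← Measure.volume_eq_prod]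
      exact hFint
    exact h5.integral_prod_left
  have step2 : ∫ p in Set.Ioi (0 : ℝ) ×ˢ Set.Ioo (-π) π, F p = ∫ r in Set.Ioi (0 : ℝ), q r := by
    rw [Measure.volume_eq_prod] at hFint ⊢
    exact setIntegral_prod F hFint
  have hqQ : ∀ r, 0 < r → HasDerivAt Q (q r) r := by
    intro r hr
    have d1 := ((hasDerivAt_id r).mul (hk' r hr)).mul (hasDerivAt_M0 hψ r)
    have d2 := ((hasDerivAt_id r).mul (hk r hr)).mul (hasDerivAt_M1 hψ r)
    refine (d1.sub d2).congr_deriv ?_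
    have e1 : q r = r * (k r * ∫ θ in (-π)..π, h (r * ee θ)) := by
      simp only [hq, hF]
      rw [integral_const_mul, integral_const_mul, intervalIntegral.integral_of_le (by linarith),
        integral_Ioc_eq_integral_Ioo]
    have cr : Continuous fun θ : ℝ => (r : ℂ) * ee θ := continuous_const.mul continuous_ee
    have g1 : Continuous fun θ : ℝ => c * ψ (r * ee θ) :=
      continuous_const.mul (hψ.continuous.comp cr)
    have g2 : Continuous fun θ : ℝ => lap ψ (r * ee θ) := hlapc.comp cr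
    have e2 : ∫ θ in (-π)..π, h (r * ee θ) = c * M0 ψ r - (M2 ψ r + M1 ψ r / r) := by
      simp only [hh]
      rw [intervalIntegral.integral_sub (g1.intervalIntegrable _ _) (g2.intervalIntegrable _ _), lap_ang hψ hr.ne',
        intervalIntegral.integral_const_mul, M0]
    rw [e1, e2]
    simp only [id, Pi.mul_apply]
    field_simp
    ring
  have hlim : Tendsto Q (𝓝[>] 0) (𝓝 (-ψ 0)) := by
    have l0 : Tendsto (M0 ψ) (𝓝[>] 0) (𝓝 (M0 ψ 0)) :=
      ((hasDerivAt_M0 hψ 0).continuousAt.tendsto).mono_left nhdsWithin_le_nhds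
    have l1 : Tendsto (M1 ψ) (𝓝[>] 0) (𝓝 (M1 ψ 0)) :=
      ((hasDerivAt_M1 hψ 0).continuousAt.tendsto).mono_left nhdsWithin_le_nhds
    have l2 := (h0.mul l0).sub (h1.mul l1)
    have e3 : -(1 / (2 * π)) * M0 ψ 0 - 0 * M1 ψ 0 = -ψ 0 := by
      rw [M0_zero]
      field_simp
      ring
    rw [e3] at l2
    exact l2
  set Q0 : ℝ → ℝ := fun r => if 0 < r then Q r else -ψ 0 with hQ0
  have hev : ∀ r, 0 < r → Q0 =ᶠ[𝓝 r] Q := by
    intro r hr
    filter_upwards [isOpen_Ioi.mem_nhds (show r ∈ Set.Ioi (0 : ℝ) from hr)] with s hs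
    exact if_pos hs
  have hcont : ContinuousWithinAt Q0 (Set.Ici 0) 0 := by
    rw [← continuousWithinAt_Ioi_iff_Ici, ContinuousWithinAt]
    have e4 : Q0 0 = -ψ 0 := if_neg (lt_irrefl _)
    rw [e4]
    refine hlim.congr' ?_
    filter_upwards [self_mem_nhdsWithin] with s hs
    exact (if_pos hs).symm
  have htop : Tendsto Q0 atTop (𝓝 0) := by
    refine tendsto_const_nhds.congr' ?_
    filter_upwards [eventually_ge_atTop R] with r hr
    have hr0 : 0 < r := by linarith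
    have hnr : ∀ θ, R ≤ ‖(r : ℂ) * ee θ‖ := by
      intro θ
      rw [norm_mul, norm_ee, mul_one, Complex.norm_real, Real.norm_of_nonneg hr0.le]
      exact hr
    have e5 : M0 ψ r = 0 := by
      rw [M0]
      simp only [fun θ => hψ0 _ (hnr θ)]
      simp
    have e6 : M1 ψ r = 0 := by
      rw [M1]
      simp only [fun θ => hDψ0 _ (hnr θ)]
      simp
    simp only [hQ0, if_pos hr0, hQ, e5, e6]
    ring
  have hfin := integral_Ioi_of_hasDerivAt_of_tendsto hcont
    (fun r hr => (hqQ r hr).congr_of_eventuallyEq (hev r hr)) hqint htop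
  have e7 : Q0 0 = -ψ 0 := if_neg (lt_irrefl _)
  rw [step1, step2, hfin, e7]
  ring

/-- Representation by a radial kernel `k(|x|)` with `k'' + k'/r = c k`, `r k' → -1/2π`, `r k → 0`:
`∫ k(|x-y|) (c φ - Δφ)(y) dy = φ(x)` for test functions. (Polar coordinates around `x`; with the
circular mean `m`, the integral is `2π ∫ k (c m - m'' - m'/r) r dr = 2π [r k' m - k r m']`. Or cut off
near `x` and integrate by parts.) -/
theorem radial_rep (c : ℝ) (k k' : ℝ → ℝ) (hk : ∀ r > 0, HasDerivAt k (k' r) r)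
    (hk' : ∀ r > 0, HasDerivAt k' (c * k r - k' r / r) r)
    (h0 : Tendsto (fun r => r * k' r) (𝓝[>] 0) (𝓝 (-(1 / (2 * π)))))
    (h1 : Tendsto (fun r => r * k r) (𝓝[>] 0) (𝓝 0))
    (φ : ℂ → ℝ) (hφ : ContDiff ℝ ∞ φ) (hc : HasCompactSupport φ) (x : ℂ) :
    ∫ y, k ‖x - y‖ * (c * φ y - lap φ y) = φ x := by
  have hψ : ContDiff ℝ ∞ (fun z => φ (z + x)) := hφ.comp (contDiff_id.add contDiff_const)
  have hψc : HasCompactSupport (fun z => φ (z + x)) :=
    hc.comp_homeomorph (Homeomorph.addRight x)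
  have h := radial_rep_zero c k k' hk hk' h0 h1 _ hψ hψc
  simp only [zero_add] at h
  rw [← h, ← integral_add_right_eq_self (fun y => k ‖x - y‖ * (c * φ y - lap φ y)) x]
  refine integral_congr_ae (Eventually.of_forall fun y => ?_)
  simp only
  rw [lap_trans]
  congr 2
  rw [show x - (y + x) = -y by ring, norm_neg]

end GM16
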