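import Pool.Agent.LibGM16.KDer
import Pool.Agent.LibGM16.RadRep

open Complex MeasureTheory Filter Topology Matrix
open scoped ContDiff Real ComplexOrder

namespace GM16

variable {γ t : ℝ} {v v' f f' : ℂ → ℝ}

theorem KK_resolvent (φ : ℂ → ℝ) (hφ : ContDiff ℝ ∞ φ) (hc : HasCompactSupport φ) (x : ℂ) :
    ∫ y, KK (x - y) * (16 * φ y - lap φ y) = φ x := by
  obtain ⟨k', h1, h2, h3, h4⟩ := kK_deriv
  exact radial_rep 16 kK k' h1 h2 h3 h4 φ hφ hc x

end GM16
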