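import Pool.Agent.LibGM16.ConvBd
import Pool.Agent.LibGM16.ConvC
import Pool.Agent.LibGM16.KRes

open Complex MeasureTheory Filter Topology Matrix
open scoped ContDiff Real ComplexOrder

namespace GM16

variable {γ t : ℝ} {v v' f f' : ℂ → ℝ}

theorem convw_dd {φ : ℂ → ℝ} (hφ : ContDiff ℝ ∞ φ) (hc : HasCompactSupport φ) (u : ℂ) :
    ContDiff ℝ ∞ (fun z => fderiv ℝ φ z u) ∧ HasCompactSupport (fun z => fderiv ℝ φ z u) := by
  constructor
  · have h1 : ContDiff ℝ ∞ (fderiv ℝ φ) := hφ.fderiv_right (m := ∞) (by norm_num)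
    exact h1.clm_apply contDiff_const
  · exact hc.fderiv_apply ℝ u

theorem convw_lap {φ : ℂ → ℝ} (hφ : ContDiff ℝ ∞ φ) (hc : HasCompactSupport φ) :
    Continuous (lap φ) ∧ HasCompactSupport (lap φ) := by
  obtain ⟨h1, h2⟩ := convw_dd hφ hc 1
  obtain ⟨h3, h4⟩ := convw_dd hφ hc I
  obtain ⟨h5, h6⟩ := convw_dd h1 h2 1
  obtain ⟨h7, h8⟩ := convw_dd h3 h4 I
  exact ⟨h5.continuous.add h7.continuous, h6.add h8⟩

/-- `(16 - Δ)(K * g) = g` weakly. -/
theorem conv_weak {T : ℝ} (hT : 1 ≤ T) {g : ℂ → ℝ} (hg : Measurable g) {A B : ℝ} (hA : 0 ≤ A)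
    (hB : 0 ≤ B) (hb : ∀ z ∉ LT T, |g z| ≤ A + B * rho T z)
    (φ : ℂ → ℝ) (hφ : ContDiff ℝ ∞ φ) (hc : HasCompactSupport φ) :
    ∫ W, (∫ z, KK (W - z) * g z) * (16 * φ W - lap φ W) = ∫ z, g z * φ z := by
  obtain ⟨c₁, hc₁, hrho⟩ := KK_rho
  obtain ⟨hl1, hl2⟩ := convw_lap hφ hc
  set ψ : ℂ → ℝ := fun W => 16 * φ W - lap φ W with hψ
  have hψc : Continuous ψ := (hφ.continuous.const_smul (16 : ℝ)).sub hl1
  have hψs : HasCompactSupport ψ := by
    have h1 : HasCompactSupport (fun W => (16 : ℝ) * φ W) := hc.mul_left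
    exact h1.sub hl2
  have hψi : Integrable ψ := hψc.integrable_of_hasCompactSupport hψs
  have hm : Measurable (fun p : ℂ × ℂ => KK (p.1 - p.2) * g p.2 * ψ p.1) :=
    ((KK_meas.comp (measurable_fst.sub measurable_snd)).mul (hg.comp measurable_snd)).mul
      (hψc.measurable.comp measurable_fst)
  have hI : Integrable (fun p : ℂ × ℂ => KK (p.1 - p.2) * g p.2 * ψ p.1)
      ((volume : Measure ℂ).prod (volume : Measure ℂ)) := by
    rw [integrable_prod_iff hm.aestronglyMeasurable]
    constructor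
    · refine Eventually.of_forall fun W => ?_
      exact ((conv_bd hT (hrho T hT) hg hA hB hb W).1).mul_const (ψ W)
    · have hmi : AEStronglyMeasurable (fun W : ℂ => ∫ z, ‖KK (W - z) * g z * ψ W‖) volume :=
        (hm.norm.stronglyMeasurable.integral_prod_right').aestronglyMeasurable
      refine Integrable.mono' (hψi.norm.const_mul (A / 16 + B * c₁)) hmi ?_
      refine Eventually.of_forall fun W => ?_
      have hg' : Measurable (fun z => |g z|) := by
        have := hg.norm
        exact this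
      have hb' : ∀ z ∉ LT T, |(fun z => |g z|) z| ≤ A + B * rho T z := by
        intro z hz
        simpa using hb z hz
      have h1 := (conv_bd hT (hrho T hT) hg' hA hB hb' W).2
      have h2 : ∫ z, ‖KK (W - z) * g z * ψ W‖ = (∫ z, KK (W - z) * |g z|) * ‖ψ W‖ := by
        rw [← integral_mul_const]
        apply integral_congr_ae
        refine Eventually.of_forall fun z => ?_
        show ‖KK (W - z) * g z * ψ W‖ = KK (W - z) * |g z| * ‖ψ W‖
        rw [norm_mul, norm_mul, Real.norm_of_nonneg (show 0 ≤ KK (W - z) from kK_nonneg _),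
          Real.norm_eq_abs (g z)]
      have h3 : 0 ≤ ∫ z, KK (W - z) * |g z| :=
        integral_nonneg fun z => mul_nonneg (kK_nonneg _) (abs_nonneg _)
      rw [h2, norm_mul, norm_norm, Real.norm_of_nonneg h3]
      apply mul_le_mul_of_nonneg_right _ (norm_nonneg _)
      exact (le_abs_self _).trans h1
  have hswap := integral_integral_swap (f := fun W z : ℂ => KK (W - z) * g z * ψ W) hI
  calc ∫ W, (∫ z, KK (W - z) * g z) * ψ W = ∫ W, ∫ z, KK (W - z) * g z * ψ W := by
        congr 1
        funext W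
        rw [integral_mul_const]
    _ = ∫ z, ∫ W, KK (W - z) * g z * ψ W := hswap
    _ = ∫ z, g z * φ z := by
        congr 1
        funext z
        have h1 : ∫ W, KK (W - z) * g z * ψ W = g z * ∫ W, KK (z - W) * ψ W := by
          rw [← integral_const_mul]
          congr 1
          funext W
          have h2 : KK (W - z) = KK (z - W) := by
            unfold KK
            rw [← norm_neg, neg_sub]
          rw [h2]
          ring
        rw [h1, KK_resolvent φ hφ hc z]

end GM16
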