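import Pool.Agent.LibGM16.HA
import Pool.Agent.LibGM16.WF

open Complex MeasureTheory Filter Topology Matrix
open scoped ContDiff Real ComplexOrder

/-!
The map `w ↦ (℘(w), 1/℘'(w))` from `ℂ \ ℤ[i]` to the spectral curve is a covering, with group
`2ℤ[i]`.
-/

namespace GM16

theorem cov_det (γ : ℝ) (z : ℂ) : -((EX γ).A z).det = qq z := by
  change -(AA z).det = qq z
  simp [AA, Matrix.det_fin_two_of]

theorem not_LL_of_not_ZI {w : ℂ} (h : w ∉ ZI) : w ∉ LL := fun hw => h (LL_sub_ZI hw)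

theorem cov_wpd_ne {w : ℂ} (h : w ∉ ZI) : wpd w ≠ 0 :=
  fun h0 => h ((wpd_eq_zero (not_LL_of_not_ZI h)).1 h0)

/-- The plane minus the Gaussian integers. -/
abbrev CovE : Type := {w : ℂ // w ∉ ZI}

/-- The lattice `2ℤ[i]` as a subgroup. -/
def CovG : AddSubgroup ℂ where
  carrier := LL
  zero_mem' := ⟨0, 0, by simp⟩
  add_mem' := by
    rintro a b ⟨m, n, rfl⟩ ⟨k, l, rfl⟩
    exact ⟨m + k, n + l, by push_cast; ring⟩
  neg_mem' := by
    rintro a ⟨m, n, rfl⟩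
    exact ⟨-m, -n, by push_cast; ring⟩

theorem mem_CovG {w : ℂ} : w ∈ CovG ↔ w ∈ LL := Iff.rfl

theorem cov_add_not_mem {g w : ℂ} (hg : g ∈ LL) (hw : w ∉ ZI) : g + w ∉ ZI := by
  intro h
  apply hw
  have := ZI_add (ZI_neg (LL_sub_ZI hg)) h
  rwa [neg_add_cancel_left] at this

instance : AddAction CovG CovE where
  vadd g w := ⟨(g : ℂ) + (w : ℂ), cov_add_not_mem g.2 w.2⟩
  zero_vadd _ := Subtype.ext (zero_add _)
  add_vadd _ _ _ := Subtype.ext (add_assoc _ _ _)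

theorem cov_vadd_val (g : CovG) (w : CovE) : ((g +ᵥ w : CovE) : ℂ) = (g : ℂ) + (w : ℂ) := rfl

/-- The covering. -/
noncomputable def covq (γ : ℝ) (w : CovE) : (EX γ).Sig :=
  ⟨(wp w, 1 / wpd w), wp_mem_U w.2, by
    rw [cov_det, qq_wp w.2, div_pow, one_pow]⟩

theorem covq_eq_iff {γ : ℝ} {w : CovE} {x : (EX γ).Sig} :
    covq γ w = x ↔ wp w = x.1.1 ∧ wpd w * x.1.2 = 1 := by
  have h0 := cov_wpd_ne w.2
  constructor
  · rintro rfl
    exact ⟨rfl, by change wpd w * (1 / wpd w) = 1; field_simp⟩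
  · rintro ⟨h1, h2⟩
    apply Subtype.ext
    apply Prod.ext
    · exact h1
    · change 1 / wpd w = x.1.2
      rw [div_eq_iff h0, mul_comm, h2]

theorem covq_continuous (γ : ℝ) : Continuous (covq γ) := by
  apply Continuous.subtype_mk
  rw [continuous_iff_continuousAt]
  intro w
  have h := wp_analytic (not_LL_of_not_ZI w.2)
  refine ContinuousAt.prodMk ?_ ?_
  · exact ContinuousAt.comp (g := wp) h.1.continuousAt continuous_subtype_val.continuousAt
  · refine ContinuousAt.div continuousAt_const ?_ (cov_wpd_ne w.2)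
    exact ContinuousAt.comp (g := wpd) h.2.continuousAt continuous_subtype_val.continuousAt

theorem covq_surjective (γ : ℝ) : Function.Surjective (covq γ) := by
  rintro ⟨⟨z, y⟩, hz, hy⟩
  obtain ⟨w, hw, rfl⟩ := exists_w hz
  have h0 := cov_wpd_ne hw
  rw [cov_det] at hy
  simp only at hy
  rw [qq_wp hw] at hy
  have h2 : (y * wpd w - 1) * (y * wpd w + 1) = 0 := by
    have : y ^ 2 * wpd w ^ 2 = 1 := by rw [hy]; field_simp
    linear_combination this
  rcases mul_eq_zero.1 h2 with h | h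
  · refine ⟨⟨w, hw⟩, covq_eq_iff.2 ⟨rfl, ?_⟩⟩
    change wpd w * y = 1
    linear_combination h
  · have hw' : -w ∉ ZI := fun hh => hw (by simpa using ZI_neg hh)
    refine ⟨⟨-w, hw'⟩, covq_eq_iff.2 ⟨(wp_neg w).1, ?_⟩⟩
    change wpd (-w) * y = 1
    rw [(wp_neg w).2]
    linear_combination -h

theorem covq_eq_covq {γ : ℝ} {a b : CovE} : covq γ a = covq γ b ↔ a ∈ AddAction.orbit CovG b := by
  have ha0 := cov_wpd_ne a.2
  have hb0 := cov_wpd_ne b.2
  constructor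
  · intro h
    obtain ⟨h1, h2⟩ := covq_eq_iff.1 h
    change wp a = wp b at h1
    change wpd a * (1 / wpd b) = 1 at h2
    have h3 : wpd a = wpd b := by
      rw [mul_one_div, div_eq_one_iff_eq hb0] at h2
      exact h2
    rcases wp_inj (not_LL_of_not_ZI a.2) (not_LL_of_not_ZI b.2) h1 with hl | hl
    · exact ⟨⟨_, hl⟩, Subtype.ext (by change ((a : ℂ) - b) + b = a; ring)⟩
    · exfalso
      have := (wp_per hl (-(b : ℂ))).2
      rw [show -(b : ℂ) + (a + b) = a by ring, (wp_neg _).2, h3] at this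
      apply hb0
      have h5 : 2 * wpd b = 0 := by linear_combination this
      simpa using h5
  · rintro ⟨g, rfl⟩
    apply Subtype.ext
    have h := wp_per g.2 (b : ℂ)
    change (wp ((g : ℂ) + b), 1 / wpd ((g : ℂ) + b)) = (wp b, 1 / wpd b)
    rw [add_comm, h.1, h.2]

theorem LL_norm {l : ℂ} (hl : l ∈ LL) (h0 : l ≠ 0) : 2 ≤ ‖l‖ := by
  obtain ⟨m, n, rfl⟩ := hl
  have h1 : (m : ℂ) + n * I ∈ ZI := ⟨m, n, rfl⟩
  have h2 : (2 * m + 2 * n * I : ℂ) = 2 * (m + n * I) := by ring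
  rw [h2] at h0 ⊢
  have h3 : (m : ℂ) + n * I ≠ 0 := fun h => h0 (by rw [h, mul_zero])
  have h4 := one_le_norm_ZI h1 h3
  rw [norm_mul]
  simp only [Complex.norm_ofNat]
  linarith

theorem covq_isOpenMap (γ : ℝ) : IsOpenMap (covq γ) := by
  rw [IsOpenMap.eq_1]
  intro s hs
  rw [isOpen_iff_mem_nhds]
  rintro _ ⟨w, hw, rfl⟩
  obtain ⟨N, hN, hNs⟩ := isOpen_induced_iff.1 hs
  have hwN : (w : ℂ) ∈ N := by
    have : w ∈ Subtype.val ⁻¹' N := by rw [hNs]; exact hw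
    exact this
  have hwL := not_LL_of_not_ZI w.2
  have hw0 := cov_wpd_ne w.2
  have hinv := (wp_analytic hwL).2.continuousAt.inv₀ hw0
  -- a neighbourhood on which 1/wpd is close to its value
  have hr : 0 < ‖(wpd w)⁻¹‖ := norm_pos_iff.2 (inv_ne_zero hw0)
  have h1 : ∀ᶠ u in 𝓝 (w : ℂ), u ∈ N ∧ u ∉ ZI ∧ ‖(wpd u)⁻¹ - (wpd w)⁻¹‖ < ‖(wpd w)⁻¹‖ := by
    have h4 : ∀ᶠ u in 𝓝 (w : ℂ), ‖(wpd u)⁻¹ - (wpd w)⁻¹‖ < ‖(wpd w)⁻¹‖ := by
      have := hinv.eventually (Metric.ball_mem_nhds _ hr)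
      filter_upwards [this] with u hu
      rw [← dist_eq_norm]
      exact hu
    filter_upwards [hN.mem_nhds hwN, isClosed_ZI.isOpen_compl.mem_nhds w.2, h4] with u a b c
    exact ⟨a, b, c⟩
  have hd : HasStrictDerivAt wp (wpd w) w := by
    have h2 := (wp_analytic hwL).1.hasStrictDerivAt
    rwa [(wp_hasDeriv hwL).deriv] at h2
  have hmap := hd.map_nhds_eq hw0
  have h2 : wp '' {u | u ∈ N ∧ u ∉ ZI ∧ ‖(wpd u)⁻¹ - (wpd w)⁻¹‖ < ‖(wpd w)⁻¹‖} ∈ 𝓝 (wp w) := by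
    rw [← hmap]
    exact image_mem_map h1
  have h3 : ∀ᶠ x : (EX γ).Sig in 𝓝 (covq γ w),
      x.1.1 ∈ wp '' {u | u ∈ N ∧ u ∉ ZI ∧ ‖(wpd u)⁻¹ - (wpd w)⁻¹‖ < ‖(wpd w)⁻¹‖} ∧
      ‖x.1.2 - (wpd w)⁻¹‖ < ‖(wpd w)⁻¹‖ := by
    have hc1 : ContinuousAt (fun x : (EX γ).Sig => x.1.1) (covq γ w) := by fun_prop
    have hc2 : ContinuousAt (fun x : (EX γ).Sig => x.1.2) (covq γ w) := by fun_prop
    have e2 : ((covq γ w).1.2 : ℂ) = (wpd w)⁻¹ := one_div _
    have := hc2.eventually (Metric.ball_mem_nhds _ hr)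
    filter_upwards [hc1.eventually h2, this] with x hx0 hx
    refine ⟨hx0, ?_⟩
    change dist x.1.2 (covq γ w).1.2 < _ at hx
    rw [dist_eq_norm, e2] at hx
    exact hx
  filter_upwards [h3] with x hx
  obtain ⟨⟨u, ⟨huN, huZ, hu1⟩, hux⟩, hx2⟩ := hx
  refine ⟨⟨u, huZ⟩, ?_, ?_⟩
  · rw [← hNs]; exact huN
  · rw [covq_eq_iff]
    refine ⟨hux, ?_⟩
    have hu0 := cov_wpd_ne huZ
    have hy := x.2.2
    rw [cov_det, ← hux, qq_wp huZ] at hy
    have h2 : (x.1.2 * wpd u - 1) * (x.1.2 * wpd u + 1) = 0 := by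
      have : x.1.2 ^ 2 * wpd u ^ 2 = 1 := by rw [hy]; field_simp
      linear_combination this
    rcases mul_eq_zero.1 h2 with h | h
    · change wpd u * x.1.2 = 1
      linear_combination h
    · exfalso
      have h5 : x.1.2 = -(wpd u)⁻¹ := by
        field_simp
        linear_combination h
      rw [h5] at hx2
      have h6 : ‖(2 : ℂ) * (wpd w)⁻¹‖ < 2 * ‖(wpd w)⁻¹‖ := by
        calc ‖(2 : ℂ) * (wpd w)⁻¹‖
            = ‖((wpd u)⁻¹ - (wpd w)⁻¹) + (-(wpd u)⁻¹ - (wpd w)⁻¹)‖ := by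
              rw [← norm_neg]; congr 1; ring
          _ ≤ ‖(wpd u)⁻¹ - (wpd w)⁻¹‖ + ‖-(wpd u)⁻¹ - (wpd w)⁻¹‖ := norm_add_le _ _
          _ < 2 * ‖(wpd w)⁻¹‖ := by linarith
      rw [norm_mul, Complex.norm_ofNat] at h6
      exact lt_irrefl _ h6

/-- The covering. -/
theorem covq_isQuotientCovering (γ : ℝ) : IsAddQuotientCoveringMap (covq γ) CovG where
  __ := (covq_isOpenMap γ).isQuotientMap (covq_continuous γ) (covq_surjective γ)
  continuous_const_vadd g := by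
    apply Continuous.subtype_mk
    exact continuous_const.add continuous_subtype_val
  apply_eq_iff_mem_orbit := covq_eq_covq
  disjoint e := by
    refine ⟨Metric.ball e 1, Metric.ball_mem_nhds _ one_pos, ?_⟩
    rintro g ⟨_, ⟨x, hx, rfl⟩, hy⟩
    have h1 : ‖(x : ℂ) - e‖ < 1 := by
      have := hx; rw [Metric.mem_ball, Subtype.dist_eq, dist_eq_norm] at this; exact this
    have h2 : ‖((g : ℂ) + x) - e‖ < 1 := by
      have := hy; rw [Metric.mem_ball, Subtype.dist_eq, dist_eq_norm] at this; exact this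
    by_contra hg
    have h3 : (g : ℂ) ≠ 0 := fun h => hg (Subtype.ext h)
    have h4 := LL_norm g.2 h3
    have h5 : ‖(g : ℂ)‖ < 2 := by
      calc ‖(g : ℂ)‖ = ‖(((g : ℂ) + x) - e) - ((x : ℂ) - e)‖ := by congr 1; ring
        _ ≤ ‖((g : ℂ) + x) - e‖ + ‖(x : ℂ) - e‖ := norm_sub_le _ _
        _ < 2 := by linarith
    linarith

theorem covq_isCoveringMap (γ : ℝ) : IsCoveringMap (covq γ) :=
  (covq_isQuotientCovering γ).isCoveringMap

end GM16
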