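import Pool.Agent.LibGM16.Refl
import Pool.Agent.LibGM16.Normal

open Complex MeasureTheory Filter Topology Matrix
open scoped ContDiff Real ComplexOrder

namespace GM16

variable {γ t : ℝ} {v v' f f' : ℂ → ℝ}

theorem Esign_deriv {φ : ℝ → ℝ} {d : ℝ} (h : HasDerivAt φ d 0)
    (hφ : ∀ᶠ s in 𝓝[>] (0 : ℝ), φ s ≤ φ 0) : d ≤ 0 := by
  have h1 := h.tendsto_slope_zero_right
  refine le_of_tendsto h1 ?_
  filter_upwards [hφ, self_mem_nhdsWithin] with s hs hs0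
  have hs1 : (0 : ℝ) < s := hs0
  rw [zero_add, smul_eq_mul]
  exact mul_nonpos_of_nonneg_of_nonpos (inv_nonneg.2 hs1.le) (by linarith)

theorem Esign_conj {g : ℂ → ℝ} (h : ∀ w, g (starRingEnd ℂ w) = g w) (w : ℂ) :
    dy g (starRingEnd ℂ w) = -dy g w := by
  have e1 : (fun z => g (Complex.conjCLE z)) = g := funext h
  have h2 := CalcC_fderiv Complex.conjCLE g w I
  rw [e1] at h2
  have h3 : Complex.conjCLE I = -I := Complex.conj_I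
  have h4 : Complex.conjCLE w = starRingEnd ℂ w := rfl
  rw [h3, h4, map_neg] at h2
  show fderiv ℝ g (starRingEnd ℂ w) I = -fderiv ℝ g w I
  linarith

theorem Esign_notin (y : ℝ) : (⟨1 / 2, y⟩ : ℂ) ∉ ZI := by
  rintro ⟨m, n, h⟩
  have h1 := congrArg Complex.re h
  simp at h1
  have h2 : (2 * m : ℤ) = 1 := by
    have h3 : (2 : ℝ) * m = 1 := by rw [← h1]; norm_num
    exact_mod_cast h3
  omega

theorem Esign_edge (y : ℝ) : edge y = (⟨1 / 2, y⟩ : ℂ) := by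
  apply Complex.ext <;> simp [edge]

/-- for `0 < y < 1/2` -/
theorem Esign_pos (hγ : 0 < γ) (hγ' : γ ≤ 1 / 8) (ht : 1 ≤ t) (hv : Sol γ t v) (h : LinSol t v f)
    {y : ℝ} (hy0 : 0 < y) (hy : y < 1 / 2) :
    dy v (⟨1 / 2, y⟩ : ℂ) ≤ 0 ∧ 0 ≤ dy f (⟨1 / 2, y⟩ : ℂ) := by
  have hw : (⟨1 / 2, y⟩ : ℂ) ∉ ZI := Esign_notin y
  have hmem := isClosed_ZI.isOpen_compl.mem_nhds hw
  have hvd : DifferentiableAt ℝ v (⟨1 / 2, y⟩ : ℂ) :=
    (hv.smooth.contDiffAt hmem).differentiableAt (by simp)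
  have hfd : DifferentiableAt ℝ f (⟨1 / 2, y⟩ : ℂ) :=
    (h.smooth.contDiffAt hmem).differentiableAt (by simp)
  have hv1 := hasDerivAt_line (v := I) hvd
  have hf1 := hasDerivAt_line (v := I) hfd
  have key : ∀ᶠ s : ℝ in 𝓝[>] (0 : ℝ),
      v ((⟨1 / 2, y⟩ : ℂ) + s * I) ≤ v (⟨1 / 2, y⟩ : ℂ) ∧
      f (⟨1 / 2, y⟩ : ℂ) ≤ f ((⟨1 / 2, y⟩ : ℂ) + s * I) := by
    have h1 : ∀ᶠ s in 𝓝[>] (0 : ℝ), s < 1 / 2 - y :=
      (eventually_lt_nhds (show (0 : ℝ) < 1 / 2 - y by linarith)).filter_mono nhdsWithin_le_nhds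
    filter_upwards [h1, self_mem_nhdsWithin] with s hs hs0
    have hs1 : (0 : ℝ) < s := hs0
    have hr := reflect hγ hγ' ht hv h (s := y + s / 2) (w := (⟨1 / 2, y⟩ : ℂ)) (by linarith)
      (by linarith) (by show y + s / 2 - 1 / 2 < y; linarith) (by show y < y + s / 2; linarith) hw
    have e : (⟨(⟨1 / 2, y⟩ : ℂ).re, 2 * (y + s / 2) - (⟨1 / 2, y⟩ : ℂ).im⟩ : ℂ) =
        (⟨1 / 2, y⟩ : ℂ) + s * I := by
      apply Complex.ext
      · simp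
      · simp; ring
    rw [e] at hr
    exact hr
  constructor
  · refine Esign_deriv hv1 ?_
    filter_upwards [key] with s hs
    simpa using hs.1
  · have h2 : -(fderiv ℝ f (⟨1 / 2, y⟩ : ℂ) I) ≤ 0 := by
      refine Esign_deriv hf1.neg ?_
      filter_upwards [key] with s hs
      have := hs.2
      simpa using this
    show 0 ≤ fderiv ℝ f (⟨1 / 2, y⟩ : ℂ) I
    linarith

theorem Esign_nonneg (hγ : 0 < γ) (hγ' : γ ≤ 1 / 8) (ht : 1 ≤ t) (hv : Sol γ t v)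
    (h : LinSol t v f) {y : ℝ} (hy0 : 0 ≤ y) (hy : y ≤ 1 / 2) :
    dy v (⟨1 / 2, y⟩ : ℂ) * dy f (⟨1 / 2, y⟩ : ℂ) ≤ 0 := by
  rcases hy0.eq_or_lt with rfl | hy0
  · have h1 := Esign_conj (sol_conj ht hv) (⟨1 / 2, 0⟩ : ℂ)
    have e : starRingEnd ℂ (⟨1 / 2, 0⟩ : ℂ) = (⟨1 / 2, 0⟩ : ℂ) := by
      apply Complex.ext <;> simp
    rw [e] at h1
    have h2 : dy v (⟨1 / 2, 0⟩ : ℂ) = 0 := by linarith
    rw [h2, zero_mul]
  rcases hy.eq_or_lt with rfl | hy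
  · have hQ : (⟨1 / 2, 1 / 2⟩ : ℂ) ∈ QQ := by
      constructor <;> simp only [] <;> rw [abs_of_pos (by norm_num)]
    have h2 : dy v (⟨1 / 2, 1 / 2⟩ : ℂ) = 0 :=
      (normal_v ht hv hQ).2 (abs_of_pos (by norm_num))
    rw [h2, zero_mul]
  have h1 := Esign_pos hγ hγ' ht hv h hy0 hy
  exact mul_nonpos_of_nonpos_of_nonneg h1.1 h1.2

/-- hence on the right edge `v_y f_y ≤ 0` -/
theorem edge_sign (hγ : 0 < γ) (hγ' : γ ≤ 1 / 8) (ht : 1 ≤ t) (hv : Sol γ t v) (h : LinSol t v f)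
    {y : ℝ} (hy : |y| ≤ 1 / 2) : dy v (edge y) * dy f (edge y) ≤ 0 := by
  rw [Esign_edge]
  rcases le_total 0 y with hy0 | hy0
  · exact Esign_nonneg hγ hγ' ht hv h hy0 ((le_abs_self y).trans hy)
  · have h1 := Esign_nonneg hγ hγ' ht hv h (y := -y) (by linarith) ((neg_le_abs y).trans hy)
    have e : starRingEnd ℂ (⟨1 / 2, -y⟩ : ℂ) = (⟨1 / 2, y⟩ : ℂ) := by
      apply Complex.ext <;> simp
    have h2 := Esign_conj (sol_conj ht hv) (⟨1 / 2, -y⟩ : ℂ)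
    have h3 := Esign_conj (lin_conj ht hv h) (⟨1 / 2, -y⟩ : ℂ)
    rw [e] at h2 h3
    rw [h2, h3]
    linarith

end GM16
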