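import Pool.Agent.LibGM16.CalcB

open Complex MeasureTheory Filter Topology Matrix
open scoped ContDiff Real ComplexOrder

namespace GM16

variable {γ t : ℝ} {v v' f f' : ℂ → ℝ}

theorem Rad_hasDerivAt_EE {R : ℝ} (hR : 0 < R) :
    HasDerivAt EE (EE R * (-4 - 1 / (2 * R))) R := by
  have hs : 0 < Real.sqrt R := Real.sqrt_pos.mpr hR
  have hs2 : Real.sqrt R * Real.sqrt R = R := Real.mul_self_sqrt hR.le
  have h1 : HasDerivAt (fun x : ℝ => Real.exp (-(4 * x))) (Real.exp (-(4 * R)) * (-(4 * 1))) R :=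
    (((hasDerivAt_id R).const_mul 4).neg).exp
  have h2 : HasDerivAt (fun x : ℝ => Real.sqrt x) (1 / (2 * Real.sqrt R)) R :=
    Real.hasDerivAt_sqrt hR.ne'
  have h3 := h1.div h2 hs.ne'
  have h4 : (Real.exp (-(4 * R)) * (-(4 * 1)) * Real.sqrt R -
      Real.exp (-(4 * R)) * (1 / (2 * Real.sqrt R))) / Real.sqrt R ^ 2
      = EE R * (-4 - 1 / (2 * R)) := by
    unfold EE
    rw [show R = Real.sqrt R * Real.sqrt R from hs2.symm]
    rw [Real.sqrt_mul_self hs.le]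
    field_simp
  rw [h4] at h3
  exact h3

theorem Rad_hasDerivAt_EE_mul {R : ℝ} (hR : 0 < R) {g : ℝ → ℝ} {g' : ℝ} (hg : HasDerivAt g g' R) :
    HasDerivAt (fun x => EE x * g x) (EE R * ((-4 - 1 / (2 * R)) * g R + g')) R := by
  have h := (Rad_hasDerivAt_EE hR).mul hg
  have h4 : EE R * (-4 - 1 / (2 * R)) * g R + EE R * g'
      = EE R * ((-4 - 1 / (2 * R)) * g R + g') := by ring
  rw [h4] at h
  exact h

theorem Rad_betaF_eq {R : ℝ} (hR : 0 < R) : betaF R = EE R * R := by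
  unfold betaF EE
  have hs : 0 < Real.sqrt R := Real.sqrt_pos.mpr hR
  rw [div_mul_eq_mul_div, eq_div_iff hs.ne', mul_assoc, Real.mul_self_sqrt hR.le]

theorem Rad_inv {R : ℝ} (hR : 0 < R) (c : ℝ) :
    HasDerivAt (fun x : ℝ => 1 / (c * x)) (-(1 / (c * R ^ 2))) R := by
  have h := ((hasDerivAt_inv hR.ne').const_mul (1 / c))
  have e : (fun x : ℝ => 1 / (c * x)) = fun x : ℝ => 1 / c * x⁻¹ := by
    funext x
    rw [one_div, one_div, mul_inv]
  rw [e]
  have e2 : -(1 / (c * R ^ 2)) = 1 / c * -(R ^ 2)⁻¹ := by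
    rw [one_div, one_div, mul_inv]
    ring
  rw [e2]
  exact h

theorem Rad_inv2 {R : ℝ} (hR : 0 < R) (c : ℝ) :
    HasDerivAt (fun x : ℝ => c / x) (-(c / R ^ 2)) R := by
  have h := ((hasDerivAt_inv hR.ne').const_mul c)
  have e : (fun x : ℝ => c / x) = fun x : ℝ => c * x⁻¹ := by
    funext x
    rw [div_eq_mul_inv]
  rw [e]
  have e2 : -(c / R ^ 2) = c * -(R ^ 2)⁻¹ := by
    rw [div_eq_mul_inv]
    ring
  rw [e2]
  exact h

theorem Rad_inv3 {R : ℝ} (hR : 0 < R) (c : ℝ) :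
    HasDerivAt (fun x : ℝ => c / x ^ 2) (-(2 * c / R ^ 3)) R := by
  have h := (((hasDerivAt_pow 2 R).inv (pow_ne_zero 2 hR.ne')).const_mul c)
  have e : (fun x : ℝ => c / x ^ 2) = fun x : ℝ => c * (x ^ 2)⁻¹ := by
    funext x
    rw [div_eq_mul_inv]
  rw [e]
  have e2 : -(2 * c / R ^ 3) = c * (-((2 : ℕ) * R ^ (2 - 1)) / (R ^ 2) ^ 2) := by
    field_simp
    push_cast
    ring
  rw [e2]
  exact h

theorem Rad_EE_pos {R : ℝ} (hR : 0 < R) : 0 < EE R := by
  unfold EE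
  exact div_pos (Real.exp_pos _) (Real.sqrt_pos.mpr hR)

theorem Rad_deriv_EE {R : ℝ} (hR : 0 < R) :
    deriv EE R = EE R * (-4 - 1 / (2 * R)) := (Rad_hasDerivAt_EE hR).deriv

theorem Rad_deriv2_EE {R : ℝ} (hR : 0 < R) :
    deriv (deriv EE) R = EE R * (16 + 4 / R + 3 / (4 * R ^ 2)) := by
  have hev : deriv EE =ᶠ[𝓝 R] fun x => EE x * (-4 - 1 / (2 * x)) := by
    filter_upwards [lt_mem_nhds hR] with x hx
    exact Rad_deriv_EE hx
  rw [hev.deriv_eq]
  have h := Rad_hasDerivAt_EE_mul hR ((Rad_inv hR 2).const_sub (-4))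
  rw [h.deriv]
  congr 1
  field_simp
  ring

theorem Rad_deriv_betaF {R : ℝ} (hR : 0 < R) :
    deriv betaF R = EE R * (1 / 2 - 4 * R) := by
  have hev : betaF =ᶠ[𝓝 R] fun x => EE x * x := by
    filter_upwards [lt_mem_nhds hR] with x hx
    exact Rad_betaF_eq hx
  rw [hev.deriv_eq]
  have h := Rad_hasDerivAt_EE_mul hR (hasDerivAt_id R)
  have h' : HasDerivAt (fun x => EE x * x) (EE R * ((-4 - 1 / (2 * R)) * R + 1)) R := h
  rw [h'.deriv]
  congr 1
  field_simp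
  ring

theorem Rad_deriv2_betaF {R : ℝ} (hR : 0 < R) :
    deriv (deriv betaF) R = EE R * (16 * R - 4 - 1 / (4 * R)) := by
  have hev : deriv betaF =ᶠ[𝓝 R] fun x => EE x * (1 / 2 - 4 * x) := by
    filter_upwards [lt_mem_nhds hR] with x hx
    exact Rad_deriv_betaF hx
  rw [hev.deriv_eq]
  have h := Rad_hasDerivAt_EE_mul hR (((hasDerivAt_id R).const_mul 4).const_sub (1 / 2))
  have h' : HasDerivAt (fun x => EE x * (1 / 2 - 4 * x))
    (EE R * ((-4 - 1 / (2 * R)) * (1 / 2 - 4 * R) + -(4 * 1))) R := h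
  rw [h'.deriv]
  congr 1
  field_simp
  ring

theorem Rad_deriv_phiP {R : ℝ} (hR : 0 < R) :
    deriv phiP R = EE R * (-4 - (3 / 8) / R + (3 / 64) / R ^ 2) := by
  have h := Rad_hasDerivAt_EE_mul hR ((Rad_inv hR 32).const_sub 1)
  have e : phiP = fun x => EE x * (1 - 1 / (32 * x)) := by
    funext x
    rfl
  rw [e, h.deriv]
  congr 1
  field_simp
  ring

theorem Rad_deriv2_phiP {R : ℝ} (hR : 0 < R) :
    deriv (deriv phiP) R =
      EE R * (16 + (7 / 2) / R + (3 / 8) / R ^ 2 - (15 / 128) / R ^ 3) := by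
  have hev : deriv phiP =ᶠ[𝓝 R] fun x => EE x * (-4 - (3 / 8) / x + (3 / 64) / x ^ 2) := by
    filter_upwards [lt_mem_nhds hR] with x hx
    exact Rad_deriv_phiP hx
  rw [hev.deriv_eq]
  have h := Rad_hasDerivAt_EE_mul hR
    (((Rad_inv2 hR (3 / 8)).const_sub (-4)).add (Rad_inv3 hR (3 / 64)))
  have h' : HasDerivAt (fun x => EE x * (-4 - (3 / 8) / x + (3 / 64) / x ^ 2))
    (EE R * ((-4 - 1 / (2 * R)) * (-4 - (3 / 8) / R + (3 / 64) / R ^ 2) +
      (- -((3 / 8) / R ^ 2) + -(2 * (3 / 64) / R ^ 3)))) R := h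
  rw [h'.deriv]
  congr 1
  field_simp
  ring

/-- Facts about the radial functions. -/
theorem phiP_facts {R : ℝ} (hR : 1 / 4 ≤ R) : 0 < phiP R ∧ phiP R ≤ EE R ∧
    deriv phiP R < 0 ∧ deriv (deriv phiP) R + deriv phiP R / R ≤ 16 * phiP R := by
  have hR0 : 0 < R := by linarith
  have hE := Rad_EE_pos hR0
  have h32 : 0 < 1 / (32 * R) := by positivity
  have h32' : 1 / (32 * R) < 1 := by
    rw [div_lt_one (by positivity)]
    linarith
  refine ⟨?_, ?_, ?_, ?_⟩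
  · unfold phiP
    exact mul_pos hE (by linarith)
  · unfold phiP
    have := mul_pos hE h32
    nlinarith
  · rw [Rad_deriv_phiP hR0]
    apply mul_neg_of_pos_of_neg hE
    have e : -4 - (3 / 8) / R + (3 / 64) / R ^ 2 = (-4 * R ^ 2 - 3 / 8 * R + 3 / 64) / R ^ 2 := by
      field_simp
    rw [e]
    apply div_neg_of_neg_of_pos
    · nlinarith
    · positivity
  · rw [Rad_deriv_phiP hR0, Rad_deriv2_phiP hR0]
    have e : EE R * (16 + (7 / 2) / R + (3 / 8) / R ^ 2 - (15 / 128) / R ^ 3) +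
        EE R * (-4 - (3 / 8) / R + (3 / 64) / R ^ 2) / R =
        16 * phiP R - EE R * ((9 / 128) / R ^ 3) := by
      unfold phiP
      field_simp
      ring
    rw [e]
    have : 0 < EE R * ((9 / 128) / R ^ 3) := by positivity
    linarith

/-- `ΔE = (16 + 1/(4R²)) E`, `ΔβR = 16 β - (8 - 1/(4R)) E`, as radial Laplacians. -/
theorem Rad_radial_laps {R : ℝ} (hR : 0 < R) :
    deriv (deriv EE) R + deriv EE R / R = (16 + 1 / (4 * R ^ 2)) * EE R ∧
    deriv (deriv betaF) R + deriv betaF R / R = 16 * betaF R - (8 - 1 / (4 * R)) * EE R := by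
  constructor
  · rw [Rad_deriv2_EE hR, Rad_deriv_EE hR]
    field_simp
    ring
  · rw [Rad_deriv2_betaF hR, Rad_deriv_betaF hR, Rad_betaF_eq hR]
    field_simp
    ring

theorem betaF_facts {R : ℝ} (hR : 1 / 4 ≤ R) : 0 < betaF R ∧
    deriv betaF R < 0 ∧ deriv (deriv betaF) R + deriv betaF R / R ≤ 16 * betaF R - 7 * EE R := by
  have hR0 : 0 < R := by linarith
  have hE := Rad_EE_pos hR0
  refine ⟨?_, ?_, ?_⟩
  · rw [Rad_betaF_eq hR0]
    positivity
  · rw [Rad_deriv_betaF hR0]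
    apply mul_neg_of_pos_of_neg hE
    linarith
  · rw [(Rad_radial_laps hR0).2]
    have h1 : 1 / (4 * R) ≤ 1 := by
      rw [div_le_one (by positivity)]
      linarith
    nlinarith

theorem EE_anti {R S : ℝ} (hR : 0 < R) (h : R ≤ S) : EE S ≤ EE R := by
  unfold EE
  apply div_le_div₀ (Real.exp_pos _).le _ (Real.sqrt_pos.mpr hR) (Real.sqrt_le_sqrt h)
  apply Real.exp_le_exp.mpr
  linarith

theorem betaF_anti {R S : ℝ} (hR : 1 / 8 ≤ R) (h : R ≤ S) : betaF S ≤ betaF R := by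
  have hR0 : 0 < R := by linarith
  have hS0 : 0 < S := by linarith
  have h1 : 1 + 8 * (S - R) ≤ Real.exp (8 * (S - R)) := by
    have := Real.add_one_le_exp (8 * (S - R))
    linarith
  have h2 : S ≤ R * Real.exp (8 * (S - R)) := by
    have : R * (1 + 8 * (S - R)) ≤ R * Real.exp (8 * (S - R)) :=
      mul_le_mul_of_nonneg_left h1 hR0.le
    nlinarith
  have h3 : Real.sqrt S ≤ Real.sqrt R * Real.exp (4 * (S - R)) := by
    apply Real.sqrt_le_iff.mpr
    constructor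
    · positivity
    · rw [mul_pow, Real.sq_sqrt hR0.le, ← Real.exp_nat_mul]
      convert h2 using 3
      push_cast
      ring
  unfold betaF
  calc Real.exp (-(4 * S)) * Real.sqrt S
      ≤ Real.exp (-(4 * S)) * (Real.sqrt R * Real.exp (4 * (S - R))) :=
        mul_le_mul_of_nonneg_left h3 (Real.exp_pos _).le
    _ = Real.exp (-(4 * R)) * Real.sqrt R := by
        rw [mul_left_comm, ← Real.exp_add, mul_comm]
        congr 2
        ring

/-- `ΔE = (16 + 1/(4R²)) E`, `ΔβR = 16 β - (8 - 1/(4R)) E`, as radial Laplacians. -/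
theorem radial_laps {R : ℝ} (hR : 0 < R) :
    deriv (deriv EE) R + deriv EE R / R = (16 + 1 / (4 * R ^ 2)) * EE R ∧
    deriv (deriv betaF) R + deriv betaF R / R = 16 * betaF R - (8 - 1 / (4 * R)) * EE R :=
  Rad_radial_laps hR

end GM16
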