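import Pool.Agent.LibGM16.FLowD
import Pool.Agent.LibGM16.Rad

open Complex MeasureTheory Filter Topology Matrix
open scoped ContDiff Real ComplexOrder

namespace GM16

variable {γ t : ℝ} {v v' f f' : ℂ → ℝ}

theorem FLow_lap_radial {F : ℝ → ℝ} (ht : 0 < t) {w : ℂ} (hw : w ≠ 0)
    (hF : ContDiffAt ℝ 2 F (t * ‖w‖)) :
    ContDiffAt ℝ 2 (fun z : ℂ => F (t * ‖z‖)) w ∧
    lap (fun z => F (t * ‖z‖)) w =
      t ^ 2 * (deriv (deriv F) (t * ‖w‖) + deriv F (t * ‖w‖) / (t * ‖w‖)) := by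
  have hn : ∀ z : ℂ, ‖(t : ℂ) * z - 0‖ = t * ‖z‖ := by
    intro z
    rw [sub_zero, norm_mul, Complex.norm_real, Real.norm_of_nonneg ht.le]
  have e : (fun z : ℂ => F (t * ‖z‖)) = fun z : ℂ => (fun y : ℂ => F ‖y - 0‖) ((t : ℂ) * z) := by
    funext z
    show F (t * ‖z‖) = F ‖(t : ℂ) * z - 0‖
    rw [hn]
  have htw : (t : ℂ) * w ≠ 0 := mul_ne_zero (by exact_mod_cast ht.ne') hw
  have hF' : ContDiffAt ℝ 2 F ‖(t : ℂ) * w - 0‖ := by rw [hn]; exact hF
  have hsub : ContDiffAt ℝ 2 (fun y : ℂ => ‖y - 0‖) ((t : ℂ) * w) :=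
    (contDiffAt_id.sub contDiffAt_const).norm ℝ (by simpa using htw)
  have h1 : ContDiffAt ℝ 2 (fun y : ℂ => F ‖y - 0‖) ((t : ℂ) * w) :=
    ContDiffAt.comp ((t : ℂ) * w) hF' hsub
  constructor
  · exact ContDiffAt.comp w hF (contDiffAt_const.mul (contDiffAt_norm ℝ hw))
  · rw [e, lap_scale t h1, lap_radial htw hF', hn]

theorem FLow_EE_pos {R : ℝ} (hR : 0 < R) : 0 < EE R := by
  unfold EE
  exact div_pos (Real.exp_pos _) (Real.sqrt_pos.mpr hR)

theorem FLow_contDiffAt_betaF {R : ℝ} (hR : 0 < R) : ContDiffAt ℝ 2 betaF R := by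
  unfold betaF
  apply ContDiffAt.mul
  · exact (Real.contDiff_exp.contDiffAt).comp R (contDiffAt_const.mul contDiffAt_id).neg
  · exact Real.contDiffAt_sqrt hR.ne'

theorem FLow_betaF_quarter : betaF (1 / 4) ≤ 1 / 4 := by
  have hs : Real.sqrt (1 / 4) = 1 / 2 := by
    rw [show (1 / 4 : ℝ) = (1 / 2) ^ 2 by norm_num]
    exact Real.sqrt_sq (by norm_num)
  unfold betaF
  rw [hs, show (-(4 * (1 / 4)) : ℝ) = -1 by norm_num, Real.exp_neg]
  have h1 : 2 ≤ Real.exp 1 := by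
    have := Real.add_one_le_exp 1
    linarith
  have h2 : (Real.exp 1)⁻¹ ≤ 2⁻¹ := inv_anti₀ (by norm_num) h1
  norm_num at h2 ⊢
  linarith

theorem FLow_betaF_le {R : ℝ} (hR : 0 < R) : betaF R ≤ 1 ∧ betaF R * (3 * R) ≤ 1 := by
  have h0 : Real.sqrt R ≤ Real.exp R := by
    have h1 := Real.add_one_le_exp R
    have h2 : Real.sqrt R ≤ 1 + R := by
      apply Real.sqrt_le_iff.mpr
      constructor
      · linarith
      · nlinarith
    linarith
  have h1 : betaF R ≤ Real.exp (-(3 * R)) := by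
    unfold betaF
    calc Real.exp (-(4 * R)) * Real.sqrt R ≤ Real.exp (-(4 * R)) * Real.exp R :=
          mul_le_mul_of_nonneg_left h0 (Real.exp_pos _).le
      _ = Real.exp (-(3 * R)) := by
          rw [← Real.exp_add]
          congr 1
          ring
  have h2 : Real.exp (-(3 * R)) * (1 + 3 * R) ≤ 1 := by
    have h3 := Real.add_one_le_exp (3 * R)
    calc Real.exp (-(3 * R)) * (1 + 3 * R) ≤ Real.exp (-(3 * R)) * Real.exp (3 * R) :=
          mul_le_mul_of_nonneg_left (by linarith) (Real.exp_pos _).le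
      _ = 1 := by rw [← Real.exp_add]; simp
  have h3 := Real.exp_pos (-(3 * R))
  constructor
  · nlinarith
  · nlinarith

/-- the bracket -/
theorem FLow_ineq {κ a E β b x t : ℝ} (hκ : 0 < κ) (hκa : κ ≤ a) (hE : 0 < E) (hκβ : 4 * (κ * β) ≤ 1)
    (hb : 0 ≤ b) (hbu : b < κ * β) (hx : a * E ≤ x) (ht : 0 < t) :
    16 * t ^ 2 * (κ * β - b) ≤
      κ * (t ^ 2 * (16 * β - 8 * E)) + 16 * t ^ 2 * Real.cosh (2 * x) * (-b)
        + 8 * t ^ 2 * Real.sinh (2 * x) := by
  have hx0 : 0 < x := lt_of_lt_of_le (mul_pos (lt_of_lt_of_le hκ hκa) hE) hx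
  have h1 : 2 * x ≤ Real.sinh (2 * x) := Real.self_le_sinh_iff.mpr (by linarith)
  have h2 : κ * E ≤ x := (mul_le_mul_of_nonneg_right hκa hE.le).trans hx
  have hc : Real.cosh (2 * x) = 1 + 2 * Real.sinh x ^ 2 := by
    rw [Real.cosh_two_mul, Real.cosh_sq x]
    ring
  have hs : Real.sinh (2 * x) = 2 * Real.sinh x * Real.cosh x := Real.sinh_two_mul x
  have hsc : Real.sinh x < Real.cosh x := Real.sinh_lt_cosh x
  have hs0 : 0 < Real.sinh x := Real.sinh_pos_iff.mpr hx0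
  have hκβ0 : 0 < κ * β := lt_of_le_of_lt hb hbu
  -- 4 sinh 2x ≥ 16 (cosh 2x - 1) b
  have h3 : 16 * (Real.cosh (2 * x) - 1) * b ≤ 4 * Real.sinh (2 * x) := by
    rw [hc, hs]
    have h4 : 4 * b ≤ 1 := by linarith
    have h5 : Real.sinh x ^ 2 * (4 * b) ≤ Real.sinh x ^ 2 * 1 :=
      mul_le_mul_of_nonneg_left h4 (by positivity)
    nlinarith
  have ht2 : 0 < t ^ 2 := by positivity
  have h6 : 0 ≤ t ^ 2 * (8 * Real.sinh (2 * x) - 8 * (κ * E) - 16 * (Real.cosh (2 * x) - 1) * b) := by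
    apply mul_nonneg ht2.le
    linarith
  nlinarith

theorem FLow_isOpen : IsOpen {w : ℂ | 1 / 4 < t * ‖w‖} :=
  isOpen_lt continuous_const (continuous_const.mul continuous_norm)

theorem FLow_zero_mem : (0 : ℂ) ∈ ZI := ⟨0, 0, by simp⟩

theorem FLow_eventually_notMem {l : ℂ} : ∀ᶠ z in 𝓝[≠] l, z ∉ ZI ∨ l ∉ ZI := by
  have h1 : ∀ᶠ z in 𝓝[≠] l, ‖z - l‖ < 1 := by
    apply eventually_nhdsWithin_of_eventually_nhds
    have : Tendsto (fun z : ℂ => ‖z - l‖) (𝓝 l) (𝓝 ‖l - l‖) :=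
      ((continuous_id.sub continuous_const).norm).tendsto l
    rw [sub_self, norm_zero] at this
    exact this.eventually (gt_mem_nhds (by norm_num))
  filter_upwards [h1, self_mem_nhdsWithin] with z hz hne
  by_contra hcon
  push Not at hcon
  have h2 : z - l ∈ ZI := by
    rw [sub_eq_add_neg]
    exact ZI_add hcon.1 (ZI_neg hcon.2)
  have h3 := one_le_norm_ZI h2 (sub_ne_zero.mpr hne)
  linarith

/-- `-f ≥ κ β(R)` for `R ≥ 1/4`, on the whole plane. (`mp_gen` on `R > 1/4` for `κβ - b`, with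
`κ ≤ a, κ ≤ k/2`: `Δβ = 16β - (8 - 1/(4R))E`, `8 sinh 2v ≥ 8κE + 16κβ(cosh 2v - 1)`; at the other
lattice points `κβ ≤ κ/4 < k/4 ≤ b`.) -/
theorem f_lower (hγ : 0 < γ) (hγ' : γ ≤ 1 / 8) : ∃ κ : ℝ, 0 < κ ∧
    ∀ (t : ℝ) (v f : ℂ → ℝ), 1 ≤ t → Sol γ t v → LinSol t v f →
    ∀ w, 1 / 4 ≤ t * ‖w‖ → κ * betaF (t * ‖w‖) ≤ -f w := by
  obtain ⟨k, hk0, hk1, hk⟩ := f_lower_disc hγ hγ'
  set a : ℝ := Real.sqrt (Real.exp (-(4 / γ)) / 2) / 2 with ha
  have ha0 : 0 < a := by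
    rw [ha]
    have : 0 < Real.exp (-(4 / γ)) := Real.exp_pos _
    positivity
  have hrho : Real.exp (-(4 / γ)) / 2 ≤ 1 / 4 := by
    have h1 : (1 : ℝ) ≤ 4 / γ := by
      rw [le_div_iff₀ hγ]
      linarith
    have h2 : Real.exp (-(4 / γ)) ≤ Real.exp (-1) := Real.exp_le_exp.mpr (by linarith)
    have h3 : 2 ≤ Real.exp 1 := by
      have := Real.add_one_le_exp 1
      linarith
    have h4 : Real.exp (-1) ≤ 2⁻¹ := by
      rw [Real.exp_neg]
      exact inv_anti₀ (by norm_num) h3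
    norm_num at h4
    linarith
  refine ⟨min a (k / 2), lt_min ha0 (by linarith), ?_⟩
  set κ := min a (k / 2) with hκ
  have hκ0 : 0 < κ := lt_min ha0 (by linarith)
  have hκa : κ ≤ a := min_le_left _ _
  have hκk : κ ≤ k / 2 := min_le_right _ _
  intro t v f ht hv hf
  have ht0 : 0 < t := by linarith
  -- the function
  set u : ℂ → ℝ := fun z => κ * betaF (t * ‖z‖) + f z with hu
  have hβ4 : ∀ R : ℝ, 1 / 4 ≤ R → betaF R ≤ 1 / 4 := fun R hR =>
    (betaF_anti (by norm_num) hR).trans FLow_betaF_quarter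
  have hne : ∀ w : ℂ, 0 < t * ‖w‖ → w ≠ 0 := by
    intro w hw h0
    rw [h0] at hw
    simp at hw
  have hucont : ∀ w : ℂ, 0 < t * ‖w‖ → ContinuousAt u w := by
    intro w hw
    have h1 := (FLow_lap_radial ht0 (hne w hw) (FLow_contDiffAt_betaF hw)).1
    exact (continuousAt_const.mul h1.continuousAt).add hf.cont.continuousAt
  -- boundary
  have hbdry : ∀ w : ℂ, t * ‖w‖ = 1 / 4 → u w ≤ 0 := by
    intro w hw
    have h1 := hk t v f ht hv hf w (by rw [hw]; norm_num)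
    rw [hw] at h1
    have h2 := FLow_betaF_quarter
    have h3 : κ * betaF (1 / 4) ≤ κ * (1 / 4) := mul_le_mul_of_nonneg_left h2 hκ0.le
    show κ * betaF (t * ‖w‖) + f w ≤ 0
    rw [hw]
    nlinarith
  have hfneg : ∀ w, f w ≤ 0 := f_nonpos hγ ht hv hf
  have key := mp_gen (Ω := {w : ℂ | 1 / 4 < t * ‖w‖}) FLow_isOpen (u := u)
    (by
      intro w hw
      have hw0 : 0 < t * ‖w‖ := by
        have : 1 / 4 < t * ‖w‖ := hw.1
        linarith
      have h1 := (FLow_lap_radial ht0 (hne w hw0) (FLow_contDiffAt_betaF hw0)).1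
      have h2 : ContDiffAt ℝ ∞ f w :=
        hf.smooth.contDiffAt (isClosed_ZI.isOpen_compl.mem_nhds hw.2)
      exact ((contDiffAt_const.mul h1).add (h2.of_le ENat.LEInfty.out)).contDiffWithinAt)
    (by
      intro w hw hpos
      have hw1 : 1 / 4 < t * ‖w‖ := hw.1
      have hw0 : 0 < t * ‖w‖ := by linarith
      obtain ⟨h1, h1'⟩ := FLow_lap_radial ht0 (hne w hw0) (FLow_contDiffAt_betaF hw0)
      have h2 : ContDiffAt ℝ 2 f w :=
        (hf.smooth.contDiffAt (isClosed_ZI.isOpen_compl.mem_nhds hw.2)).of_le ENat.LEInfty.out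
      have h3 : lap u w = κ * (t ^ 2 * (16 * betaF (t * ‖w‖) - (8 - 1 / (4 * (t * ‖w‖))) *
          EE (t * ‖w‖))) + (16 * t ^ 2 * Real.cosh (2 * v w) * f w +
          8 * t ^ 2 * Real.sinh (2 * v w)) := by
        rw [hu, lap_add (contDiffAt_const.mul h1) h2, lap_const_mul κ h1, h1',
          (radial_laps hw0).2, hf.pde w hw.2]
      have hpos' : 0 < κ * betaF (t * ‖w‖) + f w := hpos
      have hE := FLow_EE_pos hw0
      have hlow := v_lower hγ hγ' ht hv hw.2 (hrho.trans hw1.le)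
      have hb4 := hβ4 _ hw1.le
      have hκβ : 4 * (κ * betaF (t * ‖w‖)) ≤ 1 := by
        have : κ * betaF (t * ‖w‖) ≤ κ * (1 / 4) := mul_le_mul_of_nonneg_left hb4 hκ0.le
        linarith
      have h4 := FLow_ineq (b := -f w) hκ0 hκa hE hκβ (by linarith [hfneg w]) (by linarith)
        hlow ht0
      have h5 : 0 < 1 / (4 * (t * ‖w‖)) := by positivity
      have h6 : 0 < κ * (t ^ 2 * (1 / (4 * (t * ‖w‖)) * EE (t * ‖w‖))) := by positivity
      have h7 : 16 * (κ * betaF (t * ‖w‖) + f w) ≤ 16 * t ^ 2 * (κ * betaF (t * ‖w‖) + f w) := by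
        have : 1 ≤ t ^ 2 := by nlinarith
        nlinarith
      have h8 : 16 * t ^ 2 * (κ * betaF (t * ‖w‖) + f w) =
        16 * t ^ 2 * (κ * betaF (t * ‖w‖) - -f w) := by ring
      rw [h3]
      show 16 * (κ * betaF (t * ‖w‖) + f w) ≤ _
      rw [neg_neg] at h4
      linarith)
    (by
      intro ζ hζ ε hε
      have h1 : t * ‖ζ‖ = 1 / 4 :=
        (frontier_lt_subset_eq continuous_const (continuous_const.mul continuous_norm) hζ).symm
      have h2 := hbdry ζ h1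
      have h3 := hucont ζ (by rw [h1]; norm_num)
      exact eventually_nhdsWithin_of_eventually_nhds
        (h3.eventually (gt_mem_nhds (lt_of_le_of_lt h2 hε))))
    (by
      intro l hl ε hε
      have h1 : ∀ᶠ z in 𝓝[≠] l, ‖z - l‖ < Real.exp (-(1 / ε)) := by
        apply eventually_nhdsWithin_of_eventually_nhds
        have : Tendsto (fun z : ℂ => ‖z - l‖) (𝓝 l) (𝓝 ‖l - l‖) :=
          ((continuous_id.sub continuous_const).norm).tendsto l
        rw [sub_self, norm_zero] at this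
        exact this.eventually (gt_mem_nhds (Real.exp_pos _))
      have h2 : ∀ᶠ z in 𝓝[≠] l, 1 / 4 < t * ‖z‖ :=
        eventually_nhdsWithin_of_eventually_nhds (FLow_isOpen.mem_nhds hl.1)
      filter_upwards [h1, h2, self_mem_nhdsWithin] with z hz hz2 hne'
      have hz0 : 0 < ‖z - l‖ := norm_pos_iff.mpr (sub_ne_zero.mpr hne')
      have h3 : Real.log ‖z - l‖ ≤ -(1 / ε) := by
        rw [← Real.log_exp (-(1 / ε))]
        exact Real.log_le_log hz0 hz.le
      have h4 : ε * Real.log ‖z - l‖ ≤ ε * -(1 / ε) := mul_le_mul_of_nonneg_left h3 hε.le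
      have h5 : ε * -(1 / ε) = -1 := by field_simp
      have h6 := hβ4 _ hz2.le
      have h7 : κ * betaF (t * ‖z‖) ≤ κ * (1 / 4) := mul_le_mul_of_nonneg_left h6 hκ0.le
      have h8 := hfneg z
      show κ * betaF (t * ‖z‖) + f z ≤ _
      linarith)
    (by
      intro ε hε
      refine ⟨Metric.closedBall 0 (κ / (3 * ε)), isCompact_closedBall _ _, ?_⟩
      intro w hw hεu
      refine ⟨0, FLow_zero_mem, ⟨?_, ?_⟩, ?_⟩
      · rw [add_zero, mem_closedBall_zero_iff]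
        have hw1 : 1 / 4 < t * ‖w‖ := hw.1
        have hw0 : 0 < t * ‖w‖ := by linarith
        have hεu' : ε ≤ κ * betaF (t * ‖w‖) + f w := hεu
        have h8 := hfneg w
        have h9 := (FLow_betaF_le hw0).2
        have h10 : ε * (3 * (t * ‖w‖)) ≤ κ := by
          calc ε * (3 * (t * ‖w‖)) ≤ (κ * betaF (t * ‖w‖)) * (3 * (t * ‖w‖)) :=
                mul_le_mul_of_nonneg_right (by linarith) (by linarith)
            _ = κ * (betaF (t * ‖w‖) * (3 * (t * ‖w‖))) := by ring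
            _ ≤ κ * 1 := mul_le_mul_of_nonneg_left h9 hκ0.le
            _ = κ := mul_one κ
        rw [le_div_iff₀ (by positivity)]
        have h11 : ‖w‖ ≤ t * ‖w‖ := le_mul_of_one_le_left (norm_nonneg w) ht
        nlinarith
      · rw [add_zero]
        exact hw.1
      · rw [add_zero])
  intro w hw
  suffices hs : u w ≤ 0 by
    have : κ * betaF (t * ‖w‖) + f w ≤ 0 := hs
    linarith
  rcases hw.eq_or_lt with h1 | h1
  · exact hbdry w h1.symm
  · have h0 : 0 < t * ‖w‖ := by linarith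
    by_cases hz : w ∈ ZI
    · have h2 : ∀ᶠ z in 𝓝[≠] w, 1 / 4 < t * ‖z‖ :=
        eventually_nhdsWithin_of_eventually_nhds (FLow_isOpen.mem_nhds h1)
      have h3 : ∀ᶠ z in 𝓝[≠] w, u z ≤ 0 := by
        filter_upwards [h2, FLow_eventually_notMem (l := w)] with z hz1 hz2
        rcases hz2 with hz2 | hz2
        · exact key z ⟨hz1, hz2⟩
        · exact absurd hz hz2
      have h4 : Tendsto u (𝓝[≠] w) (𝓝 (u w)) :=
        (hucont w h0).tendsto.mono_left nhdsWithin_le_nhds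
      exact le_of_tendsto h4 h3
    · exact key w ⟨h1, hz⟩

end GM16
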