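import Pool.Agent.LibGM16.LowDisc
import Pool.Agent.LibGM16.Rad

open Complex MeasureTheory Filter Topology Matrix
open scoped ContDiff Real ComplexOrder

namespace GM16

variable {γ t : ℝ} {v v' f f' : ℂ → ℝ}

theorem Low_contDiffAt_EE {R : ℝ} (hR : 0 < R) : ContDiffAt ℝ 2 EE R := by
  unfold EE
  refine ContDiffAt.div ?_ ?_ (Real.sqrt_pos.2 hR).ne'
  · fun_prop
  · exact Real.contDiffAt_sqrt hR.ne'

theorem Low_contDiffAt_norm {w : ℂ} (hw : w ≠ 0) (t : ℝ) : ContDiffAt ℝ 2 (fun z : ℂ => t * ‖z‖) w :=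
  contDiffAt_const.mul (contDiffAt_norm ℝ hw)

theorem Low_lap_rad {F : ℝ → ℝ} {t : ℝ} (ht : 0 < t) {w : ℂ} (hw : w ≠ 0)
    (hF : ContDiffAt ℝ 2 F (t * ‖w‖)) :
    lap (fun z => F (t * ‖z‖)) w =
      t ^ 2 * (deriv (deriv F) (t * ‖w‖) + deriv F (t * ‖w‖) / (t * ‖w‖)) := by
  have hn : 0 < ‖w‖ := norm_pos_iff.2 hw
  have h0 : ContDiffAt ℝ 2 (fun r : ℝ => F (t * r)) ‖w - 0‖ := by
    rw [sub_zero]
    exact ContDiffAt.comp ‖w‖ (g := F) (f := fun r => t * r) hF (by fun_prop)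
  have h1 := lap_radial (F := fun r : ℝ => F (t * r)) (a := 0) (w := w) hw h0
  simp only [sub_zero] at h1
  rw [h1]
  have e1 : deriv (fun r : ℝ => F (t * r)) = fun r => t * deriv F (t * r) := by
    funext r
    rw [deriv_comp_mul_left]
    simp
  rw [e1]
  have e2 : deriv (fun r : ℝ => t * deriv F (t * r)) ‖w‖ = t * (t * deriv (deriv F) (t * ‖w‖)) := by
    rw [deriv_const_mul_field, deriv_comp_mul_left]
    simp
  rw [e2]
  field_simp

theorem Low_EE_le {R : ℝ} (hR : 0 < R) : EE R ≤ 1 / Real.sqrt R := by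
  unfold EE
  have := Real.sqrt_pos.2 hR
  gcongr
  exact Real.exp_le_one_iff.2 (by linarith)

theorem Low_EE_pos {R : ℝ} (hR : 0 < R) : 0 < EE R := by
  unfold EE
  have := Real.sqrt_pos.2 hR
  positivity

theorem Low_half {ρ R : ℝ} (hρ : 0 < ρ) (hR : ρ ≤ R) : Real.sqrt ρ / 2 * EE R ≤ 1 / 2 := by
  have h1 := Low_EE_le (lt_of_lt_of_le hρ hR)
  have h2 : Real.sqrt ρ ≤ Real.sqrt R := Real.sqrt_le_sqrt hR
  have h3 := Real.sqrt_pos.2 (lt_of_lt_of_le hρ hR)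
  have h4 := Real.sqrt_pos.2 hρ
  calc Real.sqrt ρ / 2 * EE R ≤ Real.sqrt ρ / 2 * (1 / Real.sqrt R) := by gcongr
    _ ≤ Real.sqrt R / 2 * (1 / Real.sqrt R) := by gcongr
    _ = 1 / 2 := by field_simp

theorem Low_sinh {x : ℝ} (h0 : 0 ≤ x) (h1 : x ≤ 1 / 2) :
    8 * (Real.sinh (2 * x) - 2 * x) ≤ 12 * x ^ 3 := by
  have hb1 := Real.exp_bound (x := 2 * x) (by rw [abs_of_nonneg (by linarith)]; linarith)
    (n := 5) (by norm_num)
  have hb2 := Real.exp_bound (x := -(2 * x)) (by rw [abs_neg, abs_of_nonneg (by linarith)]; linarith)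
    (n := 5) (by norm_num)
  rw [abs_neg] at hb2
  rw [abs_of_nonneg (show (0:ℝ) ≤ 2 * x by linarith)] at hb1 hb2
  have hb1' := (abs_le.1 hb1).2
  have hb2' := (abs_le.1 hb2).1
  simp only [Finset.sum_range_succ, Finset.sum_range_zero, Nat.factorial, Nat.succ_eq_add_one] at hb1' hb2'
  rw [Real.sinh_eq]
  have h5 : x ^ 5 ≤ x ^ 3 * (1 / 4) := by
    have h6 : x ^ 2 ≤ 1 / 4 := by nlinarith
    calc x ^ 5 = x ^ 3 * x ^ 2 := by ring
      _ ≤ x ^ 3 * (1 / 4) := by gcongr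
  have h6 : 0 ≤ x ^ 3 := by positivity
  norm_num at hb1' hb2'
  ring_nf at hb1' hb2' ⊢
  nlinarith

theorem Low_key {ρ R v : ℝ} (hρ : 0 < ρ) (hρ1 : ρ ≤ 1 / 66) (hR : ρ ≤ R)
    (hv : v < Real.sqrt ρ / 2 * EE R) :
    16 * (Real.sqrt ρ / 2 * EE R - v) ≤
      Real.sqrt ρ / 2 * ((16 + 1 / (4 * R ^ 2)) * EE R) - 8 * Real.sinh (2 * v) := by
  have hR0 : 0 < R := lt_of_lt_of_le hρ hR
  have hx0 : 0 < Real.sqrt ρ / 2 * EE R := mul_pos (by have := Real.sqrt_pos.2 hρ; positivity)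
    (Low_EE_pos hR0)
  have hx1 := Low_half hρ hR
  have hs := Low_sinh hx0.le hx1
  have hmono : Real.sinh (2 * v) - 2 * v ≤
      Real.sinh (2 * (Real.sqrt ρ / 2 * EE R)) - 2 * (Real.sqrt ρ / 2 * EE R) := by
    have := Real.sinh_sub_id_strictMono.monotone
      (show 2 * v ≤ 2 * (Real.sqrt ρ / 2 * EE R) by linarith)
    simpa using this
  have hsq : (Real.sqrt ρ / 2 * EE R) ^ 2 * (48 * R ^ 2) ≤ 1 := by
    have e1 : (Real.sqrt ρ / 2 * EE R) ^ 2 * (48 * R ^ 2) = 12 * ρ * (R * Real.exp (-(4 * R)) ^ 2) := by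
      unfold EE
      rw [mul_pow, div_pow, div_pow, Real.sq_sqrt hρ.le, Real.sq_sqrt hR0.le]
      field_simp
      ring
    rw [e1]
    have e2 : R * Real.exp (-(4 * R)) ^ 2 ≤ 1 := by
      have e3 : Real.exp (-(4 * R)) ^ 2 * Real.exp (8 * R) = 1 := by
        rw [← Real.exp_nat_mul, ← Real.exp_add]
        norm_num
        ring_nf
      have e4 : R ≤ Real.exp (8 * R) := by
        have := Real.add_one_le_exp (8 * R)
        linarith
      calc R * Real.exp (-(4 * R)) ^ 2 ≤ Real.exp (8 * R) * Real.exp (-(4 * R)) ^ 2 := by gcongr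
        _ = 1 := by rw [mul_comm]; exact e3
    have e5 : 0 ≤ R * Real.exp (-(4 * R)) ^ 2 := by positivity
    nlinarith
  have e0 : Real.sqrt ρ / 2 * ((16 + 1 / (4 * R ^ 2)) * EE R) =
      (16 + 1 / (4 * R ^ 2)) * (Real.sqrt ρ / 2 * EE R) := by ring
  rw [e0]
  generalize Real.sqrt ρ / 2 * EE R = x at *
  have hcube : 12 * x ^ 3 ≤ x * (1 / (4 * R ^ 2)) := by
    rw [mul_one_div, le_div_iff₀ (by positivity)]
    calc 12 * x ^ 3 * (4 * R ^ 2) = x * (x ^ 2 * (48 * R ^ 2)) := by ring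
      _ ≤ x * 1 := by gcongr
      _ = x := mul_one x
  have : (16 + 1 / (4 * R ^ 2)) * x = 16 * x + x * (1 / (4 * R ^ 2)) := by ring
  linarith

/-- The global lower bound `v ≥ a E(R)`, `a = ρ₀^{1/2}/2`, on `R ≥ ρ₀` (`mp_gen` on `R > ρ₀` for
`a E - v`; with `x = aE(R) ≤ 1/2`: `8 (sinh 2x - 2x) ≤ 12 x³ ≤ x/(4R²)`, `ΔE = (16 + 1/(4R²)) E`; at
infinity `E → 0`; at the other lattice points `v → ∞`). -/
theorem v_lower (hγ : 0 < γ) (hγ' : γ ≤ 1 / 8) (ht : 1 ≤ t) (h : Sol γ t v) {w : ℂ}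
    (hw : w ∉ ZI) (hw' : Real.exp (-(4 / γ)) / 2 ≤ t * ‖w‖) :
    Real.sqrt (Real.exp (-(4 / γ)) / 2) / 2 * EE (t * ‖w‖) ≤ v w := by
  obtain ⟨ρ, hρdef⟩ : ∃ ρ, ρ = Real.exp (-(4 / γ)) / 2 := ⟨_, rfl⟩
  have hρ : 0 < ρ := by rw [hρdef]; positivity
  have hρ1 : ρ ≤ 1 / 66 := by
    have h1 : (32 : ℝ) ≤ 4 / γ := by
      rw [le_div_iff₀ hγ]; linarith
    have h2 : Real.exp (-(4 / γ)) * Real.exp (4 / γ) = 1 := by
      rw [← Real.exp_add]; simp
    have h3 := Real.add_one_le_exp (4 / γ)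
    have h4 : Real.exp (-(4 / γ)) * 33 ≤ 1 := by
      calc Real.exp (-(4 / γ)) * 33 ≤ Real.exp (-(4 / γ)) * Real.exp (4 / γ) := by
            gcongr
            linarith
        _ = 1 := h2
    rw [hρdef]
    linarith
  rw [← hρdef] at hw' ⊢
  have ht0 : 0 < t := by linarith
  have hv0 := v_nonneg hγ ht h
  have hc0 : 0 < Real.sqrt ρ / 2 := by have := Real.sqrt_pos.2 hρ; positivity
  have hone : ∀ z : ℂ, z ≠ 0 → t * ‖z‖ ≤ ρ → 1 ≤ v z := fun z hz hz' =>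
    one_le_v hγ hγ' ht h hz (by rw [← hρdef]; exact hz')
  have hne : ∀ z : ℂ, 0 < t * ‖z‖ → z ≠ 0 := by
    rintro z hz rfl
    simp at hz
  rcases hw'.eq_or_lt with heq | hlt
  · have h1 := hone w (hne w (heq ▸ hρ)) heq.ge
    have h2 := Low_half hρ hw'
    linarith
  -- the maximum principle
  obtain ⟨Ω, hΩdef⟩ : ∃ Ω : Set ℂ, Ω = {z | ρ < t * ‖z‖} := ⟨_, rfl⟩
  obtain ⟨u, hudef⟩ : ∃ u : ℂ → ℝ, u = fun z => Real.sqrt ρ / 2 * EE (t * ‖z‖) - v z := ⟨_, rfl⟩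
  have hmem : ∀ z, z ∈ Ω ↔ ρ < t * ‖z‖ := fun z => by rw [hΩdef]; exact Iff.rfl
  have hΩo : IsOpen Ω := by
    rw [hΩdef]
    exact isOpen_lt continuous_const (continuous_const.mul continuous_norm)
  have hZo : IsOpen ZIᶜ := isClosed_ZI.isOpen_compl
  have hvsm : ∀ z ∉ ZI, ContDiffAt ℝ 2 v z := fun z hz =>
    ((h.smooth z hz).contDiffAt (hZo.mem_nhds hz)).of_le
      (WithTop.coe_le_coe.2 (le_top : (2 : ℕ∞) ≤ ⊤))
  have hEsm : ∀ z, 0 < t * ‖z‖ → ContDiffAt ℝ 2 (fun z : ℂ => EE (t * ‖z‖)) z := fun z hz =>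
    ContDiffAt.comp z (g := EE) (f := fun z : ℂ => t * ‖z‖) (Low_contDiffAt_EE hz)
      (Low_contDiffAt_norm (hne z hz) t)
  have hle : ∀ z, ρ ≤ t * ‖z‖ → u z ≤ 1 / 2 := by
    intro z hz
    have h1 := Low_half hρ hz
    have h2 := hv0 z
    rw [hudef]
    show _ - _ ≤ _
    linarith
  have key := mp_gen hΩo (u := u) ?_ ?_ ?_ ?_ ?_ w ⟨(hmem w).2 hlt, hw⟩
  · rw [hudef] at key
    have key' : Real.sqrt ρ / 2 * EE (t * ‖w‖) - v w ≤ 0 := key
    linarith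
  · rintro z ⟨hz, hz'⟩
    have hz1 : 0 < t * ‖z‖ := lt_trans hρ ((hmem z).1 hz)
    rw [hudef]
    exact ((contDiffAt_const.mul (hEsm z hz1)).sub (hvsm z hz')).contDiffWithinAt
  · rintro z ⟨hz, hz'⟩ hpos
    have hz1 : 0 < t * ‖z‖ := lt_trans hρ ((hmem z).1 hz)
    have hpos' : v z < Real.sqrt ρ / 2 * EE (t * ‖z‖) := by
      rw [hudef] at hpos
      have : 0 < Real.sqrt ρ / 2 * EE (t * ‖z‖) - v z := hpos
      linarith
    have hl : lap u z = t ^ 2 * (Real.sqrt ρ / 2 * ((16 + 1 / (4 * (t * ‖z‖) ^ 2)) * EE (t * ‖z‖))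
        - 8 * Real.sinh (2 * v z)) := by
      rw [hudef, lap_sub (contDiffAt_const.mul (hEsm z hz1)) (hvsm z hz'),
        lap_const_mul _ (hEsm z hz1), Low_lap_rad ht0 (hne z hz1) (Low_contDiffAt_EE hz1),
        (radial_laps hz1).1, h.pde z hz']
      ring
    have hk := Low_key hρ hρ1 ((hmem z).1 hz).le hpos'
    have hu : u z = Real.sqrt ρ / 2 * EE (t * ‖z‖) - v z := by rw [hudef]
    rw [hl]
    have hu0 : 0 < 16 * u z := by linarith
    rw [← hu] at hk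
    have ht2 : 1 ≤ t ^ 2 := by nlinarith
    calc 16 * u z = 1 * (16 * u z) := by ring
      _ ≤ t ^ 2 * (16 * u z) := by gcongr
      _ ≤ _ := by gcongr
  · intro ζ hζ ε hε
    have hfr : t * ‖ζ‖ = ρ := by
      have h1 := frontier_lt_subset_eq (f := fun _ : ℂ => ρ) (g := fun z : ℂ => t * ‖z‖)
        continuous_const (continuous_const.mul continuous_norm) (by rw [← hΩdef]; exact hζ)
      exact h1.symm
    have hζ0 : ζ ≠ 0 := hne ζ (hfr ▸ hρ)
    have hζZ : ζ ∉ ZI := by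
      intro hZ
      have h1 := one_le_norm_ZI hZ hζ0
      nlinarith
    have h1 := hone ζ hζ0 hfr.le
    have h2 := Low_half hρ hfr.ge
    have hcont : ContinuousAt u ζ := by
      rw [hudef]
      exact ((contDiffAt_const.mul (hEsm ζ (hfr ▸ hρ))).sub (hvsm ζ hζZ)).continuousAt
    have hlt' : u ζ < ε := by
      rw [hudef]
      show _ - _ < _
      linarith
    exact (hcont.eventually (gt_mem_nhds hlt')).filter_mono nhdsWithin_le_nhds
  · rintro l ⟨hl, hlZ⟩ ε hε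
    have h1 : ∀ᶠ z in 𝓝[≠] l, z ∈ Ω := nhdsWithin_le_nhds (hΩo.mem_nhds hl)
    have h2 : Tendsto (fun z : ℂ => ‖z - l‖) (𝓝[≠] l) (𝓝[>] 0) := tendsto_norm_sub_self_nhdsNE l
    have h3 : Tendsto (fun z : ℂ => Real.log ‖z - l‖) (𝓝[≠] l) atBot :=
      Real.tendsto_log_nhdsGT_zero.comp h2
    have h4 := h3.eventually (eventually_le_atBot (-(1 / (2 * ε))))
    filter_upwards [h1, h4] with z hz1 hz2
    have h5 := hle z ((hmem z).1 hz1).le
    have h6 : ε * Real.log ‖z - l‖ ≤ ε * (-(1 / (2 * ε))) := by gcongr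
    have h7 : ε * (-(1 / (2 * ε))) = -(1 / 2) := by field_simp
    linarith
  · intro ε hε
    refine ⟨Metric.closedBall 0 (1 + 1 / ε), isCompact_closedBall _ _, ?_⟩
    rintro z ⟨hz, hz'⟩ hzε
    refine ⟨0, ⟨0, 0, by simp⟩, ?_, by simp⟩
    rw [add_zero]
    refine ⟨?_, hz⟩
    rw [mem_closedBall_zero_iff]
    by_contra hcon
    push Not at hcon
    have hz1 : 0 < t * ‖z‖ := lt_trans hρ ((hmem z).1 hz)
    have hn1 : 1 + 1 / ε < t * ‖z‖ := by
      have := norm_nonneg z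
      nlinarith
    have hR1 : 1 ≤ t * ‖z‖ := by
      have : 0 < 1 / ε := by positivity
      linarith
    have hE : EE (t * ‖z‖) ≤ 1 / (t * ‖z‖) := by
      unfold EE
      have hs : 1 ≤ Real.sqrt (t * ‖z‖) := Real.one_le_sqrt.2 hR1
      have he : Real.exp (-(4 * (t * ‖z‖))) ≤ 1 / (t * ‖z‖) := by
        rw [le_div_iff₀ hz1]
        have h2 : Real.exp (-(4 * (t * ‖z‖))) * Real.exp (4 * (t * ‖z‖)) = 1 := by
          rw [← Real.exp_add]; simp
        have h3 := Real.add_one_le_exp (4 * (t * ‖z‖))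
        calc Real.exp (-(4 * (t * ‖z‖))) * (t * ‖z‖) ≤
              Real.exp (-(4 * (t * ‖z‖))) * Real.exp (4 * (t * ‖z‖)) := by gcongr; linarith
          _ = 1 := h2
      calc Real.exp (-(4 * (t * ‖z‖))) / Real.sqrt (t * ‖z‖)
          ≤ Real.exp (-(4 * (t * ‖z‖))) / 1 := by gcongr
        _ ≤ _ := by rw [div_one]; exact he
    have hE2 : 1 / (t * ‖z‖) < ε := by
      rw [div_lt_iff₀ hz1]
      have : ε * (1 + 1 / ε) = ε + 1 := by field_simp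
      nlinarith
    have hρs : Real.sqrt ρ ≤ 1 := Real.sqrt_le_one.2 (by linarith)
    have hEp := Low_EE_pos hz1
    have hvz := hv0 z
    have hu : u z = Real.sqrt ρ / 2 * EE (t * ‖z‖) - v z := by rw [hudef]
    nlinarith

end GM16
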