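import Pool.Agent.LibGM16.UpDisc

open Complex MeasureTheory Filter Topology Matrix
open scoped ContDiff Real ComplexOrder

namespace GM16

variable {γ t : ℝ} {v v' f f' : ℂ → ℝ}

private theorem two_le_inf_le3 : (2 : WithTop ℕ∞) ≤ ∞ :=
  WithTop.coe_le_coe.mpr le_top

private theorem isCompact_QQ_le3 : IsCompact QQ := by
  apply Metric.isCompact_of_isClosed_isBounded
  · have h1 : IsClosed {w : ℂ | |w.re| ≤ 1 / 2} :=
      isClosed_le (continuous_abs.comp Complex.continuous_re) continuous_const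
    have h2 : IsClosed {w : ℂ | |w.im| ≤ 1 / 2} :=
      isClosed_le (continuous_abs.comp Complex.continuous_im) continuous_const
    exact h1.inter h2
  · refine (Metric.isBounded_closedBall (x := (0 : ℂ)) (r := 1)).subset ?_
    intro w hw
    rw [Metric.mem_closedBall, dist_zero_right]
    have := Complex.norm_le_abs_re_add_abs_im w
    have h1 := hw.1
    have h2 := hw.2
    linarith

private theorem norm_le_one_QQ {w : ℂ} (hw : w ∈ QQ) : ‖w‖ ≤ 1 := by
  have := Complex.norm_le_abs_re_add_abs_im w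
  have h1 := hw.1
  have h2 := hw.2
  linarith

private theorem disc_quarter (hγ : 0 < γ) (hγ' : γ ≤ 1 / 8) (ht : 1 ≤ t) (h : Sol γ t v) {w : ℂ}
    (hw : w ≠ 0) (hw' : t * ‖w‖ = 1 / 4) : v w < 3 := by
  have h1 := v_upper_disc hγ hγ' ht h hw (by rw [hw']; norm_num)
  rw [hw'] at h1
  have e1 : Real.log (1 / 4 : ℝ) = -(2 * Real.log 2) := by
    rw [show (1 / 4 : ℝ) = (2 ^ 2)⁻¹ by norm_num, Real.log_inv, Real.log_pow]
    push_cast; ring
  have e2 : -(3 * Real.log 2) ≤ Real.log (1 / 4 - (1 / 4) ^ 2 : ℝ) := by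
    have : Real.log ((2 ^ 3)⁻¹ : ℝ) ≤ Real.log (1 / 4 - (1 / 4) ^ 2 : ℝ) :=
      Real.log_le_log (by norm_num) (by norm_num)
    rw [Real.log_inv, Real.log_pow] at this
    push_cast at this
    linarith
  have e3 := Real.log_two_lt_d9
  have e4 : 0 < Real.log 2 := Real.log_pos (by norm_num)
  rw [e1] at h1
  nlinarith [mul_le_mul_of_nonneg_right hγ' e4.le]

/-- `v ≤ 3` outside the discs `R < 1/4` around the lattice points -/
theorem v_le_three (hγ : 0 < γ) (hγ' : γ ≤ 1 / 8) (ht : 1 ≤ t) (h : Sol γ t v) {w : ℂ}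
    (hw : ∀ l ∈ ZI, 1 / 4 ≤ t * ‖w - l‖) : v w ≤ 3 := by
  have ht0 : 0 < t := by linarith
  have hper : ∀ n ∈ ZI, ∀ z, v (z + n) = v z := fun n hn z => per_ZI h.perx h.pery hn z
  have hZne : (ZI).Nonempty := ⟨0, 0, 0, by simp⟩
  have hcont : Continuous fun w : ℂ => t * Metric.infDist w ZI :=
    continuous_const.mul (Metric.continuous_infDist_pt _)
  have hnot : ∀ z : ℂ, 1 / 4 ≤ t * Metric.infDist z ZI → z ∉ ZI := by
    intro z h1 h2
    rw [Metric.infDist_zero_of_mem h2] at h1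
    norm_num at h1
  have hcirc : ∀ z : ℂ, t * Metric.infDist z ZI = 1 / 4 → v z < 3 := by
    intro z hz
    obtain ⟨l, hl, hdl⟩ := isClosed_ZI.exists_infDist_eq_dist hZne z
    rw [hdl, Complex.dist_eq] at hz
    have e : v z = v (z - l) := by
      have := hper l hl (z - l)
      rwa [sub_add_cancel] at this
    rw [e]
    refine disc_quarter hγ hγ' ht h ?_ hz
    intro h0
    rw [h0] at hz
    norm_num at hz
  have hinv : ∀ n ∈ ZI, ∀ z : ℂ, Metric.infDist z ZI ≤ Metric.infDist (z + n) ZI := by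
    intro n hn z
    rw [Metric.le_infDist hZne]
    intro l hl
    have h1 : Metric.infDist z ZI ≤ dist z (l + -n) := Metric.infDist_le_dist_of_mem (ZI_add hl (ZI_neg hn))
    have h2 : dist z (l + -n) = dist (z + n) l := by
      rw [Complex.dist_eq, Complex.dist_eq]
      congr 1
      ring
    rwa [h2] at h1
  have hgen := mp_gen (Ω := {w : ℂ | 1 / 4 < t * Metric.infDist w ZI}) (u := fun z => v z - 3)
    (isOpen_lt continuous_const hcont)
    (by
      have h1 : ContDiffOn ℝ 2 v ZIᶜ := h.smooth.of_le two_le_inf_le3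
      exact (h1.mono (fun z hz => hz.2)).sub contDiffOn_const)
    (by
      rintro z ⟨hz1, hz2⟩ hpos
      have hc : ContDiffAt ℝ 2 v z :=
        (h.smooth.contDiffAt (isClosed_ZI.isOpen_compl.mem_nhds hz2)).of_le two_le_inf_le3
      rw [lap_sub hc contDiffAt_const, lap_const, sub_zero, h.pde z hz2]
      have hpos' : 0 < v z - 3 := hpos
      have hv : 0 ≤ 2 * v z := by linarith
      have hs := Real.self_le_sinh_iff.mpr hv
      have ht2 : 1 ≤ t ^ 2 := by nlinarith
      have : (1 : ℝ) * (2 * v z) ≤ t ^ 2 * Real.sinh (2 * v z) :=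
        mul_le_mul ht2 hs hv (by positivity)
      show 16 * (v z - 3) ≤ _
      linarith)
    (by
      intro ζ hζ ε hε
      have hfr := frontier_lt_subset_eq continuous_const hcont hζ
      have hfr' : t * Metric.infDist ζ ZI = 1 / 4 := hfr.symm
      have hζn : ζ ∉ ZI := hnot ζ hfr'.ge
      have hcv : ContinuousAt v ζ :=
        (h.smooth.contDiffAt (isClosed_ZI.isOpen_compl.mem_nhds hζn)).continuousAt
      have h3 := hcirc ζ hfr'
      have hev : ∀ᶠ z in 𝓝 ζ, v z < 3 := hcv.eventually (gt_mem_nhds h3)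
      refine (hev.filter_mono nhdsWithin_le_nhds).mono ?_
      intro z hz
      show v z - 3 < ε
      linarith)
    (by
      rintro l ⟨hl1, hl2⟩
      exact absurd hl2 (hnot l (le_of_lt hl1)))
    (by
      intro ε hε
      refine ⟨QQ, isCompact_QQ_le3, ?_⟩
      rintro z ⟨hz1, hz2⟩ _
      obtain ⟨n, hn, hq⟩ := exists_ZI_add_mem_QQ z
      refine ⟨n, hn, ⟨hq, ?_⟩, ?_⟩
      · show 1 / 4 < t * Metric.infDist (z + n) ZI
        exact lt_of_lt_of_le hz1 (mul_le_mul_of_nonneg_left (hinv n hn z) ht0.le)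
      · show v (z + n) - 3 = v z - 3
        rw [hper n hn z])
  have hwi : 1 / 4 ≤ t * Metric.infDist w ZI := by
    have : 1 / 4 / t ≤ Metric.infDist w ZI := by
      rw [Metric.le_infDist hZne]
      intro l hl
      rw [Complex.dist_eq, div_le_iff₀ ht0, mul_comm]
      exact hw l hl
    rw [div_le_iff₀ ht0, mul_comm] at this
    exact this
  rcases hwi.lt_or_eq with hlt | heq
  · have := hgen w ⟨hlt, hnot w hwi⟩
    linarith
  · exact (hcirc w heq.symm).le

/-- Integrable majorant: `|sinh 2v| + cosh 2v ≤ C |w|^{-1/2}` on the punctured square. -/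
theorem exp_v_le (hγ : 0 < γ) (hγ' : γ ≤ 1 / 8) (ht : 1 ≤ t) (h : Sol γ t v) :
    ∃ C : ℝ, 0 < C ∧ ∀ w ∈ QQ, w ≠ 0 → Real.exp (2 * v w) ≤ C * ‖w‖ ^ (-(1 / 2) : ℝ) := by
  have ht0 : 0 < t := by linarith
  refine ⟨Real.exp 6 + (16 / 3) ^ 2, by positivity, ?_⟩
  intro w hw hw0
  have hn : 0 < ‖w‖ := norm_pos_iff.mpr hw0
  have hn1 : ‖w‖ ≤ 1 := norm_le_one_QQ hw
  have hpow : 0 < ‖w‖ ^ (-(1 / 2) : ℝ) := Real.rpow_pos_of_pos hn _
  rcases lt_or_ge (t * ‖w‖) (1 / 4) with hlt | hge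
  · have hR : 0 < t * ‖w‖ := by positivity
    have h1 := v_upper_disc hγ hγ' ht h hw0 (by linarith)
    have h2 : -Real.log (1 / 4 - (t * ‖w‖) ^ 2) ≤ Real.log (16 / 3) := by
      rw [← Real.log_inv]
      apply Real.log_le_log
      · have : 0 < 1 / 4 - (t * ‖w‖) ^ 2 := by nlinarith
        positivity
      · rw [inv_le_comm₀ (by nlinarith) (by norm_num)]
        norm_num
        nlinarith
    have h3 : 2 * v w ≤ -(4 * γ) * Real.log (t * ‖w‖) + 2 * Real.log (16 / 3) := by
      nlinarith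
    have hlog : Real.log (t * ‖w‖) ≤ 0 := Real.log_nonpos hR.le (by linarith)
    have h4 : -(4 * γ) * Real.log (t * ‖w‖) ≤ -(1 / 2) * Real.log (t * ‖w‖) := by
      nlinarith
    have h5 : -(1 / 2) * Real.log (t * ‖w‖) ≤ -(1 / 2) * Real.log ‖w‖ := by
      have : Real.log ‖w‖ ≤ Real.log (t * ‖w‖) := by
        apply Real.log_le_log hn
        nlinarith
      linarith
    have h6 : 2 * v w ≤ Real.log ‖w‖ * (-(1 / 2)) + 2 * Real.log (16 / 3) := by linarith
    calc Real.exp (2 * v w) ≤ Real.exp (Real.log ‖w‖ * (-(1 / 2)) + 2 * Real.log (16 / 3)) :=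
          Real.exp_le_exp.mpr h6
      _ = (16 / 3) ^ 2 * ‖w‖ ^ (-(1 / 2) : ℝ) := by
          rw [Real.exp_add, Real.rpow_def_of_pos hn, mul_comm]
          congr 1
          rw [two_mul, Real.exp_add, Real.exp_log (by norm_num)]
          ring
      _ ≤ (Real.exp 6 + (16 / 3) ^ 2) * ‖w‖ ^ (-(1 / 2) : ℝ) := by
          apply mul_le_mul_of_nonneg_right _ hpow.le
          have := Real.exp_pos 6
          linarith
  · have hall : ∀ l ∈ ZI, 1 / 4 ≤ t * ‖w - l‖ := by
      intro l hl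
      have := norm_le_of_mem_QQ hw hl
      nlinarith
    have h3 := v_le_three hγ hγ' ht h hall
    have hone : 1 ≤ ‖w‖ ^ (-(1 / 2) : ℝ) :=
      Real.one_le_rpow_of_pos_of_le_one_of_nonpos hn hn1 (by norm_num)
    calc Real.exp (2 * v w) ≤ Real.exp 6 := Real.exp_le_exp.mpr (by linarith)
      _ ≤ (Real.exp 6 + (16 / 3) ^ 2) * 1 := by nlinarith [Real.exp_pos 6]
      _ ≤ (Real.exp 6 + (16 / 3) ^ 2) * ‖w‖ ^ (-(1 / 2) : ℝ) := by
          apply mul_le_mul_of_nonneg_left hone
          positivity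

end GM16
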