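import Pool.Agent.LibGM16.Defs

open Complex MeasureTheory Filter Topology Matrix
open scoped ContDiff Real ComplexOrder

namespace GM16

variable {γ t : ℝ} {v v' f f' : ℂ → ℝ}

/-- `ZI` is closed. -/
theorem isClosed_ZI : IsClosed ZI := by
  have h : ZI = (fun w : ℂ => w.re) ⁻¹' (Set.range ((↑) : ℤ → ℝ)) ∩
      (fun w : ℂ => w.im) ⁻¹' (Set.range ((↑) : ℤ → ℝ)) := by
    ext w
    constructor
    · rintro ⟨m, n, rfl⟩
      exact ⟨⟨m, by simp⟩, ⟨n, by simp⟩⟩
    · rintro ⟨⟨m, hm⟩, ⟨n, hn⟩⟩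
      refine ⟨m, n, ?_⟩
      apply Complex.ext
      · simpa using hm.symm
      · simpa using hn.symm
  rw [h]
  have hc : IsClosed (Set.range ((↑) : ℤ → ℝ)) := Int.isClosedEmbedding_coe_real.isClosed_range
  exact (hc.preimage Complex.continuous_re).inter (hc.preimage Complex.continuous_im)

theorem isClosed_LT {T : ℝ} (hT : 0 < T) : IsClosed (LT T) := by
  have h : LT T = (fun w : ℂ => ((T⁻¹ : ℝ) : ℂ) * w) ⁻¹' ZI := by
    have hT' : (T : ℂ) ≠ 0 := by exact_mod_cast hT.ne'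
    ext w
    constructor
    · rintro ⟨m, n, rfl⟩
      refine ⟨m, n, ?_⟩
      simp only [ofReal_inv]
      field_simp
    · rintro ⟨m, n, hmn⟩
      refine ⟨m, n, ?_⟩
      rw [← hmn]
      simp only [ofReal_inv]
      field_simp
  rw [h]
  exact isClosed_ZI.preimage (by fun_prop)

/-- every point is a translate by `ZI` of a point of the unit square -/
theorem exists_ZI_add_mem_QQ (w : ℂ) : ∃ n ∈ ZI, w + n ∈ QQ := by
  refine ⟨((-round w.re : ℤ) : ℂ) + ((-round w.im : ℤ) : ℂ) * I, ⟨_, _, rfl⟩, ?_, ?_⟩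
  · have := abs_sub_round w.re
    have h : (w + (((-round w.re : ℤ) : ℂ) + ((-round w.im : ℤ) : ℂ) * I)).re = w.re - round w.re := by
      simp [sub_eq_add_neg]
    rw [h]; exact this
  · have := abs_sub_round w.im
    have h : (w + (((-round w.re : ℤ) : ℂ) + ((-round w.im : ℤ) : ℂ) * I)).im = w.im - round w.im := by
      simp [sub_eq_add_neg]
    rw [h]; exact this

theorem ZI_add {a b : ℂ} (ha : a ∈ ZI) (hb : b ∈ ZI) : a + b ∈ ZI := by
  obtain ⟨m, n, rfl⟩ := ha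
  obtain ⟨p, q, rfl⟩ := hb
  exact ⟨m + p, n + q, by push_cast; ring⟩

theorem ZI_neg {a : ℂ} (ha : a ∈ ZI) : -a ∈ ZI := by
  obtain ⟨m, n, rfl⟩ := ha
  exact ⟨-m, -n, by push_cast; ring⟩

theorem ZI_conj {a : ℂ} (ha : a ∈ ZI) : starRingEnd ℂ a ∈ ZI := by
  obtain ⟨m, n, rfl⟩ := ha
  exact ⟨m, -n, by simp⟩

theorem ZI_mulI {a : ℂ} (ha : a ∈ ZI) : I * a ∈ ZI := by
  obtain ⟨m, n, rfl⟩ := ha
  refine ⟨-n, m, ?_⟩
  push_cast
  linear_combination (n : ℂ) * Complex.I_mul_I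

/-- Periodicity under all of `ZI`. -/
theorem per_ZI {F : Type*} {v : ℂ → F} (h1 : ∀ w, v (w + 1) = v w) (h2 : ∀ w, v (w + I) = v w)
    {n : ℂ} (hn : n ∈ ZI) (w : ℂ) : v (w + n) = v w := by
  obtain ⟨m, k, rfl⟩ := hn
  have e1 : ∀ (m : ℤ) (w : ℂ), v (w + m) = v w := by
    intro m w
    have hp : Function.Periodic v (1 : ℂ) := h1
    have := hp.int_mul m w
    simpa using this
  have e2 : ∀ (m : ℤ) (w : ℂ), v (w + m * I) = v w := by
    intro m w
    have hp : Function.Periodic v I := h2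
    exact hp.int_mul m w
  rw [← add_assoc, e2, e1]

/-- `0` is the only lattice point in the unit square. -/
theorem QQ_inter_ZI {w : ℂ} (h : w ∈ QQ) (hz : w ∈ ZI) : w = 0 := by
  obtain ⟨m, n, rfl⟩ := hz
  obtain ⟨h1, h2⟩ := h
  have hm : m = 0 := by
    have h1' : |(m : ℝ)| ≤ 1 / 2 := by simpa using h1
    have : |(m : ℝ)| < 1 := lt_of_le_of_lt h1' (by norm_num)
    have : |m| < 1 := by exact_mod_cast this
    exact Int.abs_lt_one_iff.mp this
  have hn : n = 0 := by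
    have h2' : |(n : ℝ)| ≤ 1 / 2 := by simpa using h2
    have : |(n : ℝ)| < 1 := lt_of_le_of_lt h2' (by norm_num)
    have : |n| < 1 := by exact_mod_cast this
    exact Int.abs_lt_one_iff.mp this
  simp [hm, hn]

private theorem sq_le_aux {x : ℝ} (hx : |x| ≤ 1 / 2) (m : ℤ) : x ^ 2 ≤ (x - m) ^ 2 := by
  rcases eq_or_ne m 0 with rfl | hm
  · simp
  · have h1 : 1 ≤ |(m : ℝ)| := by
      have := Int.one_le_abs hm
      exact_mod_cast this
    have h2 : |x| ≤ |x - m| := by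
      have := abs_sub_abs_le_abs_sub (m : ℝ) x
      rw [abs_sub_comm]
      linarith
    exact sq_le_sq.mpr h2

/-- in the unit square `0` is a nearest lattice point -/
theorem norm_le_of_mem_QQ {w l : ℂ} (h : w ∈ QQ) (hl : l ∈ ZI) : ‖w‖ ≤ ‖w - l‖ := by
  obtain ⟨m, n, rfl⟩ := hl
  have h1 := sq_le_aux h.1 m
  have h2 := sq_le_aux h.2 n
  have hsq : ‖w‖ ^ 2 ≤ ‖w - (m + n * I)‖ ^ 2 := by
    rw [← Complex.normSq_eq_norm_sq, ← Complex.normSq_eq_norm_sq, Complex.normSq_apply,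
      Complex.normSq_apply]
    simp only [sub_re, add_re, intCast_re, mul_re, I_re, mul_zero, intCast_im, I_im, mul_one,
      sub_self, add_zero, sub_im, add_im, mul_im, zero_add]
    nlinarith
  exact le_of_sq_le_sq hsq (norm_nonneg _) |>.trans le_rfl

/-- distinct lattice points have distance at least one -/
theorem one_le_norm_ZI {l : ℂ} (hl : l ∈ ZI) (h0 : l ≠ 0) : 1 ≤ ‖l‖ := by
  obtain ⟨m, n, rfl⟩ := hl
  by_cases hm : m = 0
  · have hn : n ≠ 0 := by
      rintro rfl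
      exact h0 (by simp [hm])
    have h1 : 1 ≤ |(n : ℝ)| := by
      have := Int.one_le_abs hn
      exact_mod_cast this
    calc (1 : ℝ) ≤ |(n : ℝ)| := h1
      _ = |((m : ℂ) + n * I).im| := by simp
      _ ≤ _ := Complex.abs_im_le_norm _
  · have h1 : 1 ≤ |(m : ℝ)| := by
      have := Int.one_le_abs hm
      exact_mod_cast this
    calc (1 : ℝ) ≤ |(m : ℝ)| := h1
      _ = |((m : ℂ) + n * I).re| := by simp
      _ ≤ _ := Complex.abs_re_le_norm _

end GM16
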