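import Pool.Agent.LibGM16.CalcD
import Pool.Agent.LibGM16.Latt

open Complex MeasureTheory Filter Topology Matrix
open scoped ContDiff Real ComplexOrder

namespace GM16

variable {γ t : ℝ} {v v' f f' : ℂ → ℝ}

/-- the derivative in a direction in which `u` does not increase -/
theorem MPneu_dir {u : ℂ → ℝ} {w a : ℂ} (hu : DifferentiableAt ℝ u w)
    (h : ∀ᶠ s : ℝ in 𝓝[>] (0 : ℝ), u (w + (s : ℂ) * a) ≤ u w) : fderiv ℝ u w a ≤ 0 := by
  have h1 := (hasDerivAt_line (v := a) hu).hasDerivWithinAt (s := Set.Ioi 0)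
  rw [hasDerivWithinAt_iff_tendsto_slope' (by simp)] at h1
  refine le_of_tendsto h1 ?_
  filter_upwards [h, self_mem_nhdsWithin] with s hs hs'
  rw [slope_def_field]
  have h2 : u (w + ((0 : ℝ) : ℂ) * a) = u w := by simp
  rw [h2, sub_zero]
  exact div_nonpos_of_nonpos_of_nonneg (by linarith) (le_of_lt hs')

theorem MPneu_isClosed_QQ : IsClosed QQ := by
  have h1 : IsClosed {w : ℂ | |w.re| ≤ 1 / 2} :=
    isClosed_le (by fun_prop) continuous_const
  have h2 : IsClosed {w : ℂ | |w.im| ≤ 1 / 2} :=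
    isClosed_le (by fun_prop) continuous_const
  exact h1.inter h2

theorem MPneu_isCompact_QQ : IsCompact QQ := by
  refine Metric.isCompact_of_isClosed_isBounded MPneu_isClosed_QQ ?_
  refine (Metric.isBounded_closedBall (x := (0 : ℂ)) (r := 1)).subset ?_
  intro w hw
  rw [mem_closedBall_zero_iff]
  refine (Complex.norm_le_abs_re_add_abs_im w).trans ?_
  linarith [hw.1, hw.2]

/-- The Neumann maximum principle on the unit square minus a disc. -/
theorem mp_neu {r : ℝ} (hr : 0 < r) (hr2 : r < 1 / 2) {u : ℂ → ℝ}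
    (hu : ∀ w ∈ QQ, r ≤ ‖w‖ → ContDiffAt ℝ 2 u w)
    (hpos : ∀ w ∈ QQ, r ≤ ‖w‖ → 0 < u w → 0 < lap u w)
    (hr0 : ∀ w, ‖w‖ = r → u w ≤ 0)
    (hx : ∀ w ∈ QQ, |w.re| = 1 / 2 → w.re * dx u w < 0)
    (hy : ∀ w ∈ QQ, |w.im| = 1 / 2 → w.im * dy u w < 0) :
    ∀ w ∈ QQ, r ≤ ‖w‖ → u w ≤ 0 := by
  intro w0 hw0 hw0r
  by_contra hcon
  push Not at hcon
  have hK : IsCompact (QQ ∩ {w : ℂ | r ≤ ‖w‖}) :=
    MPneu_isCompact_QQ.inter_right (isClosed_le continuous_const continuous_norm)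
  have hcont : ContinuousOn u (QQ ∩ {w : ℂ | r ≤ ‖w‖}) := fun w hw =>
    (hu w hw.1 hw.2).continuousAt.continuousWithinAt
  obtain ⟨w1, hw1, hmax⟩ := hK.exists_isMaxOn ⟨w0, hw0, hw0r⟩ hcont
  have hpos1 : 0 < u w1 := hcon.trans_le (hmax ⟨hw0, hw0r⟩)
  have hgt : r < ‖w1‖ := by
    rcases (show r ≤ ‖w1‖ from hw1.2).lt_or_eq with h | h
    · exact h
    · exact absurd (hr0 w1 h.symm) (not_le.mpr hpos1)
  have hC := hu w1 hw1.1 hw1.2
  have hD := hC.differentiableAt (by norm_num)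
  -- points on a line stay outside the disc
  have hnear : ∀ a : ℂ, ∀ᶠ s : ℝ in 𝓝[>] (0 : ℝ), r ≤ ‖w1 + (s : ℂ) * a‖ := by
    intro a
    have hc : ContinuousAt (fun s : ℝ => ‖w1 + (s : ℂ) * a‖) 0 := by fun_prop
    have h1 : ∀ᶠ s : ℝ in 𝓝 (0 : ℝ), r < ‖w1 + (s : ℂ) * a‖ := by
      refine hc.eventually (lt_mem_nhds ?_)
      simpa using hgt
    exact (h1.filter_mono nhdsWithin_le_nhds).mono fun s hs => hs.le
  have hsmall : ∀ᶠ s : ℝ in 𝓝[>] (0 : ℝ), 0 < s ∧ s < 1 / 2 := by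
    have h1 : ∀ᶠ s : ℝ in 𝓝 (0 : ℝ), s < 1 / 2 := gt_mem_nhds (by norm_num)
    filter_upwards [self_mem_nhdsWithin, h1.filter_mono nhdsWithin_le_nhds] with s hs hs'
    exact ⟨hs, hs'⟩
  have hre := hw1.1.1
  have him := hw1.1.2
  by_cases h1 : |w1.re| = 1 / 2
  · -- the vertical sides
    have h2 := hx w1 hw1.1 h1
    rcases abs_choice w1.re with h3 | h3
    · have hre1 : w1.re = 1 / 2 := by rw [← h3]; exact h1
      have h4 : fderiv ℝ u w1 (-1) ≤ 0 := by
        refine MPneu_dir hD ?_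
        filter_upwards [hnear (-1), hsmall] with s hs hs'
        refine hmax ⟨⟨?_, ?_⟩, hs⟩
        · simp only [mul_neg, mul_one, add_re, neg_re, ofReal_re, hre1]
          rw [abs_le]
          constructor <;> linarith [hs'.1, hs'.2]
        · simpa using him
      rw [map_neg] at h4
      rw [hre1] at h2
      have h5 : dx u w1 = fderiv ℝ u w1 1 := rfl
      rw [h5] at h2
      linarith
    · have hre1 : w1.re = -(1 / 2) := by rw [← h1, h3, neg_neg]
      have h4 : fderiv ℝ u w1 1 ≤ 0 := by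
        refine MPneu_dir hD ?_
        filter_upwards [hnear 1, hsmall] with s hs hs'
        refine hmax ⟨⟨?_, ?_⟩, hs⟩
        · simp only [mul_one, add_re, ofReal_re, hre1]
          rw [abs_le]
          constructor <;> linarith [hs'.1, hs'.2]
        · simpa using him
      rw [hre1] at h2
      have h5 : dx u w1 = fderiv ℝ u w1 1 := rfl
      rw [h5] at h2
      linarith
  by_cases h1' : |w1.im| = 1 / 2
  · -- the horizontal sides
    have h2 := hy w1 hw1.1 h1'
    rcases abs_choice w1.im with h3 | h3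
    · have hre1 : w1.im = 1 / 2 := by rw [← h3]; exact h1'
      have h4 : fderiv ℝ u w1 (-I) ≤ 0 := by
        refine MPneu_dir hD ?_
        filter_upwards [hnear (-I), hsmall] with s hs hs'
        refine hmax ⟨⟨?_, ?_⟩, hs⟩
        · simpa using hre
        · have e : (w1 + (s : ℂ) * (-I)).im = w1.im - s := by simp; ring
          rw [e, hre1, abs_le]
          constructor <;> linarith [hs'.1, hs'.2]
      rw [map_neg] at h4
      rw [hre1] at h2
      have h5 : dy u w1 = fderiv ℝ u w1 I := rfl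
      rw [h5] at h2
      linarith
    · have hre1 : w1.im = -(1 / 2) := by rw [← h1', h3, neg_neg]
      have h4 : fderiv ℝ u w1 I ≤ 0 := by
        refine MPneu_dir hD ?_
        filter_upwards [hnear I, hsmall] with s hs hs'
        refine hmax ⟨⟨?_, ?_⟩, hs⟩
        · simpa using hre
        · have e : (w1 + (s : ℂ) * I).im = w1.im + s := by simp
          rw [e, hre1, abs_le]
          constructor <;> linarith [hs'.1, hs'.2]
      rw [hre1] at h2
      have h5 : dy u w1 = fderiv ℝ u w1 I := rfl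
      rw [h5] at h2
      linarith
  -- interior points
  have hlt1 : |w1.re| < 1 / 2 := lt_of_le_of_ne hre h1
  have hlt2 : |w1.im| < 1 / 2 := lt_of_le_of_ne him h1'
  have hopen : ∀ᶠ w in 𝓝 w1, w ∈ QQ ∩ {w : ℂ | r ≤ ‖w‖} := by
    have c1 : ∀ᶠ w in 𝓝 w1, |w.re| < 1 / 2 :=
      (show ContinuousAt (fun w : ℂ => |w.re|) w1 by fun_prop).eventually (gt_mem_nhds hlt1)
    have c2 : ∀ᶠ w in 𝓝 w1, |w.im| < 1 / 2 :=
      (show ContinuousAt (fun w : ℂ => |w.im|) w1 by fun_prop).eventually (gt_mem_nhds hlt2)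
    have c3 : ∀ᶠ w in 𝓝 w1, r < ‖w‖ :=
      (continuous_norm.continuousAt).eventually (lt_mem_nhds hgt)
    filter_upwards [c1, c2, c3] with w a1 a2 a3
    exact ⟨⟨a1.le, a2.le⟩, a3.le⟩
  have hloc : IsLocalMax u w1 := hopen.mono fun w hw => hmax hw
  exact absurd (lap_nonpos_of_isLocalMax hC hloc) (not_le.mpr (hpos w1 hw1.1 hw1.2 hpos1))

end GM16
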