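import Pool.Agent.LibGM16.Rad
import Pool.Agent.LibGM16.Latt

open Complex MeasureTheory Filter Topology Matrix
open scoped ContDiff Real ComplexOrder

namespace GM16

variable {γ t : ℝ} {v v' f f' : ℂ → ℝ}

private theorem NineF_term {F : ℝ → ℝ} {a w : ℂ} (hw : w ≠ a)
    (ht : 0 < t) (hF : ContDiffAt ℝ 2 F (t * ‖w - a‖)) :
    ContDiffAt ℝ 2 (fun z => F (t * ‖z - a‖)) w ∧
    lap (fun z => F (t * ‖z - a‖)) w =
      t ^ 2 * (deriv (deriv F) (t * ‖w - a‖) + deriv F (t * ‖w - a‖) / (t * ‖w - a‖)) := by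
  have hne : w - a ≠ 0 := sub_ne_zero.mpr hw
  have hn : ContDiffAt ℝ 2 (fun z : ℂ => t * ‖z - a‖) w :=
    contDiffAt_const.mul ((contDiffAt_id.sub contDiffAt_const).norm ℝ hne)
  refine ⟨ContDiffAt.comp w hF hn, ?_⟩
  have hG : ContDiffAt ℝ 2 (fun r => F (t * r)) ‖w - a‖ :=
    ContDiffAt.comp ‖w - a‖ hF (contDiffAt_const.mul contDiffAt_id)
  have h1 : lap (fun z => F (t * ‖z - a‖)) w = _ := lap_radial hw hG
  have hd : deriv (fun r => F (t * r)) = fun r => t * deriv F (t * r) := by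
    funext r
    rw [deriv_comp_mul_left, smul_eq_mul]
  have hdd : deriv (deriv (fun r => F (t * r))) ‖w - a‖ =
      t ^ 2 * deriv (deriv F) (t * ‖w - a‖) := by
    rw [hd, deriv_const_mul_field, deriv_comp_mul_left t (deriv F), smul_eq_mul]
    ring
  rw [h1, hdd, hd]
  have : ‖w - a‖ ≠ 0 := norm_ne_zero_iff.mpr hne
  field_simp

private theorem NineF_mem : (0 : ℂ) ∈ ZI ∧ (1 : ℂ) ∈ ZI ∧ (-1 : ℂ) ∈ ZI ∧ I ∈ ZI ∧ -I ∈ ZI ∧
    (1 + I) ∈ ZI ∧ (1 - I) ∈ ZI ∧ -(1 + I) ∈ ZI ∧ -(1 - I) ∈ ZI := by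
  refine ⟨⟨0, 0, by simp⟩, ⟨1, 0, by simp⟩, ⟨-1, 0, by simp⟩, ⟨0, 1, by simp⟩, ⟨0, -1, by simp⟩,
    ⟨1, 1, by simp⟩, ⟨1, -1, by push_cast; ring⟩, ⟨-1, -1, by push_cast; ring⟩,
    ⟨-1, 1, by push_cast; ring⟩⟩

private theorem NineF_eq (F : ℝ → ℝ) (t : ℝ) (z : ℂ) : nine F t z =
    F (t * ‖z - 0‖) + 2 * (F (t * ‖z - 1‖) + F (t * ‖z - (-1)‖) + F (t * ‖z - I‖)
      + F (t * ‖z - (-I)‖) + F (t * ‖z - (1 + I)‖) + F (t * ‖z - (1 - I)‖)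
      + F (t * ‖z - (-(1 + I))‖) + F (t * ‖z - (-(1 - I))‖)) := by
  simp only [nine, sub_zero, sub_neg_eq_add]

private theorem NineF_gen {F : ℝ → ℝ} {w : ℂ} (ht : 0 < t)
    (hw : ∀ l ∈ ZI, w ≠ l ∧ ContDiffAt ℝ 2 F (t * ‖w - l‖)) :
    ContDiffAt ℝ 2 (nine F t) w ∧
    lap (nine F t) w = t ^ 2 * nine (fun R => deriv (deriv F) R + deriv F R / R) t w := by
  have k : ∀ a ∈ ZI, ContDiffAt ℝ 2 (fun z => F (t * ‖z - a‖)) w ∧
      lap (fun z => F (t * ‖z - a‖)) w =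
      t ^ 2 * (deriv (deriv F) (t * ‖w - a‖) + deriv F (t * ‖w - a‖) / (t * ‖w - a‖)) :=
    fun a ha => NineF_term (hw a ha).1 ht (hw a ha).2
  obtain ⟨m0, m1, m2, m3, m4, m5, m6, m7, m8⟩ := NineF_mem
  obtain ⟨c0, l0⟩ := k _ m0
  obtain ⟨c1, l1⟩ := k _ m1
  obtain ⟨c2, l2⟩ := k _ m2
  obtain ⟨c3, l3⟩ := k _ m3
  obtain ⟨c4, l4⟩ := k _ m4
  obtain ⟨c5, l5⟩ := k _ m5
  obtain ⟨c6, l6⟩ := k _ m6
  obtain ⟨c7, l7⟩ := k _ m7
  obtain ⟨c8, l8⟩ := k _ m8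
  have h0 : nine F t = fun z => F (t * ‖z - 0‖) + 2 * (F (t * ‖z - 1‖) + F (t * ‖z - (-1)‖)
      + F (t * ‖z - I‖) + F (t * ‖z - (-I)‖) + F (t * ‖z - (1 + I)‖) + F (t * ‖z - (1 - I)‖)
      + F (t * ‖z - (-(1 + I))‖) + F (t * ‖z - (-(1 - I))‖)) := funext (NineF_eq F t)
  have s2 : ContDiffAt ℝ 2 (fun z => F (t * ‖z - 1‖) + F (t * ‖z - (-1)‖)) w := c1.add c2
  have s3 : ContDiffAt ℝ 2 (fun z => F (t * ‖z - 1‖) + F (t * ‖z - (-1)‖)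
      + F (t * ‖z - I‖)) w := s2.add c3
  have s4 : ContDiffAt ℝ 2 (fun z => F (t * ‖z - 1‖) + F (t * ‖z - (-1)‖)
      + F (t * ‖z - I‖) + F (t * ‖z - (-I)‖)) w := s3.add c4
  have s5 : ContDiffAt ℝ 2 (fun z => F (t * ‖z - 1‖) + F (t * ‖z - (-1)‖)
      + F (t * ‖z - I‖) + F (t * ‖z - (-I)‖) + F (t * ‖z - (1 + I)‖)) w := s4.add c5
  have s6 : ContDiffAt ℝ 2 (fun z => F (t * ‖z - 1‖) + F (t * ‖z - (-1)‖)
      + F (t * ‖z - I‖) + F (t * ‖z - (-I)‖) + F (t * ‖z - (1 + I)‖)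
      + F (t * ‖z - (1 - I)‖)) w := s5.add c6
  have s7 : ContDiffAt ℝ 2 (fun z => F (t * ‖z - 1‖) + F (t * ‖z - (-1)‖)
      + F (t * ‖z - I‖) + F (t * ‖z - (-I)‖) + F (t * ‖z - (1 + I)‖)
      + F (t * ‖z - (1 - I)‖) + F (t * ‖z - (-(1 + I))‖)) w := s6.add c7
  have s8 : ContDiffAt ℝ 2 (fun z => F (t * ‖z - 1‖) + F (t * ‖z - (-1)‖)
      + F (t * ‖z - I‖) + F (t * ‖z - (-I)‖) + F (t * ‖z - (1 + I)‖)
      + F (t * ‖z - (1 - I)‖) + F (t * ‖z - (-(1 + I))‖) + F (t * ‖z - (-(1 - I))‖)) w :=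
    s7.add c8
  have s9 : ContDiffAt ℝ 2 (fun z => 2 * (F (t * ‖z - 1‖) + F (t * ‖z - (-1)‖)
      + F (t * ‖z - I‖) + F (t * ‖z - (-I)‖) + F (t * ‖z - (1 + I)‖)
      + F (t * ‖z - (1 - I)‖) + F (t * ‖z - (-(1 + I))‖) + F (t * ‖z - (-(1 - I))‖))) w :=
    contDiffAt_const.mul s8
  constructor
  · rw [h0]
    exact c0.add s9
  · rw [NineF_eq, h0, lap_add c0 s9, lap_const_mul 2 s8, lap_add s7 c8, lap_add s6 c7,
      lap_add s5 c6, lap_add s4 c5, lap_add s3 c4, lap_add s2 c3, lap_add c1 c2,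
      l0, l1, l2, l3, l4, l5, l6, l7, l8]
    ring

private theorem NineF_up {F : ℝ → ℝ} {w : ℂ} {c : ℝ} (h : ∀ l ∈ ZI, F (t * ‖w - l‖) ≤ c) :
    nine F t w ≤ 17 * c := by
  obtain ⟨m0, m1, m2, m3, m4, m5, m6, m7, m8⟩ := NineF_mem
  have := h _ m0
  have := h _ m1
  have := h _ m2
  have := h _ m3
  have := h _ m4
  have := h _ m5
  have := h _ m6
  have := h _ m7
  have := h _ m8
  rw [NineF_eq]
  linarith

private theorem NineF_low {F : ℝ → ℝ} {w : ℂ} (h : ∀ l ∈ ZI, 0 ≤ F (t * ‖w - l‖)) :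
    F (t * ‖w‖) ≤ nine F t w := by
  obtain ⟨m0, m1, m2, m3, m4, m5, m6, m7, m8⟩ := NineF_mem
  have := h _ m1
  have := h _ m2
  have := h _ m3
  have := h _ m4
  have := h _ m5
  have := h _ m6
  have := h _ m7
  have := h _ m8
  rw [NineF_eq, sub_zero]
  linarith

private theorem NineF_lap {F G : ℝ → ℝ} {w : ℂ} {c : ℝ}
    (h : ∀ l ∈ ZI, G (t * ‖w - l‖) ≤ 16 * F (t * ‖w - l‖))
    (h0 : G (t * ‖w‖) ≤ 16 * F (t * ‖w‖) - c) :
    nine G t w ≤ 16 * nine F t w - c := by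
  obtain ⟨m0, m1, m2, m3, m4, m5, m6, m7, m8⟩ := NineF_mem
  have := h _ m1
  have := h _ m2
  have := h _ m3
  have := h _ m4
  have := h _ m5
  have := h _ m6
  have := h _ m7
  have := h _ m8
  rw [NineF_eq, NineF_eq, sub_zero]
  linarith

private theorem NineF_EE {R : ℝ} (hR : 0 < R) : ContDiffAt ℝ 2 EE R := by
  have h1 : ContDiffAt ℝ 2 (fun R : ℝ => Real.exp (-(4 * R))) R :=
    (contDiffAt_const.mul contDiffAt_id).neg.exp
  have h2 : ContDiffAt ℝ 2 (fun R : ℝ => Real.sqrt R) R := Real.contDiffAt_sqrt hR.ne'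
  exact h1.div h2 (Real.sqrt_pos.mpr hR).ne'

private theorem NineF_beta {R : ℝ} (hR : 0 < R) : ContDiffAt ℝ 2 betaF R := by
  have h1 : ContDiffAt ℝ 2 (fun R : ℝ => Real.exp (-(4 * R))) R :=
    (contDiffAt_const.mul contDiffAt_id).neg.exp
  have h2 : ContDiffAt ℝ 2 (fun R : ℝ => Real.sqrt R) R := Real.contDiffAt_sqrt hR.ne'
  exact h1.mul h2

private theorem NineF_phi {R : ℝ} (hR : 0 < R) : ContDiffAt ℝ 2 phiP R := by
  have h1 : ContDiffAt ℝ 2 (fun R : ℝ => 1 - 1 / (32 * R)) R := by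
    refine contDiffAt_const.sub (contDiffAt_const.div (contDiffAt_const.mul contDiffAt_id) ?_)
    have : (32 : ℝ) * R ≠ 0 := by positivity
    exact this
  exact (NineF_EE hR).mul h1

private theorem NineF_rad (ht : 4 ≤ t) {w : ℂ} (hw : w ∈ QQ) {l : ℂ} (hl : l ∈ ZI) :
    t * ‖w‖ ≤ t * ‖w - l‖ :=
  mul_le_mul_of_nonneg_left (norm_le_of_mem_QQ hw hl) (by linarith)

private theorem NineF_ne (ht : 4 ≤ t) {w : ℂ} (hw : w ∈ QQ) (hr : 1 / 4 ≤ t * ‖w‖) {l : ℂ}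
    (hl : l ∈ ZI) : w ≠ l := by
  rintro rfl
  have := hr.trans (NineF_rad ht hw hl)
  rw [sub_self, norm_zero, mul_zero] at this
  norm_num at this

/-- The nine point sums on the square minus the disc `R < 1/4`. -/
theorem nine_phiP_facts (ht : 4 ≤ t) {w : ℂ} (hw : w ∈ QQ) (hr : 1 / 4 ≤ t * ‖w‖) :
    ContDiffAt ℝ 2 (nine phiP t) w ∧ phiP (t * ‖w‖) ≤ nine phiP t w ∧
    nine phiP t w ≤ 17 * EE (t * ‖w‖) ∧ lap (nine phiP t) w ≤ 16 * t ^ 2 * nine phiP t w := by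
  have hrad : ∀ l ∈ ZI, 1 / 4 ≤ t * ‖w - l‖ := fun l hl => hr.trans (NineF_rad ht hw hl)
  have hg := NineF_gen (t := t) (w := w) (F := phiP) (by linarith) fun l hl =>
    ⟨NineF_ne ht hw hr hl, NineF_phi (by linarith [hrad l hl])⟩
  refine ⟨hg.1, NineF_low fun l hl => (phiP_facts (hrad l hl)).1.le, NineF_up fun l hl => ?_, ?_⟩
  · exact (phiP_facts (hrad l hl)).2.1.trans (EE_anti (by linarith) (NineF_rad ht hw hl))
  · rw [hg.2]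
    have h1 : nine (fun R => deriv (deriv phiP) R + deriv phiP R / R) t w ≤
        16 * nine phiP t w - 0 :=
      NineF_lap (fun l hl => (phiP_facts (hrad l hl)).2.2.2)
        (by rw [sub_zero]; exact (phiP_facts hr).2.2.2)
    nlinarith [mul_le_mul_of_nonneg_left h1 (sq_nonneg t)]

theorem nine_betaF_facts (ht : 4 ≤ t) {w : ℂ} (hw : w ∈ QQ) (hr : 1 / 4 ≤ t * ‖w‖) :
    ContDiffAt ℝ 2 (nine betaF t) w ∧ betaF (t * ‖w‖) ≤ nine betaF t w ∧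
    nine betaF t w ≤ 17 * betaF (t * ‖w‖) ∧
    lap (nine betaF t) w ≤ 16 * t ^ 2 * nine betaF t w - 7 * t ^ 2 * EE (t * ‖w‖) := by
  have hrad : ∀ l ∈ ZI, 1 / 4 ≤ t * ‖w - l‖ := fun l hl => hr.trans (NineF_rad ht hw hl)
  have hg := NineF_gen (t := t) (w := w) (F := betaF) (by linarith) fun l hl =>
    ⟨NineF_ne ht hw hr hl, NineF_beta (by linarith [hrad l hl])⟩
  refine ⟨hg.1, NineF_low fun l hl => (betaF_facts (hrad l hl)).1.le, NineF_up fun l hl => ?_, ?_⟩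
  · exact betaF_anti (by linarith) (NineF_rad ht hw hl)
  · rw [hg.2]
    have h1 : nine (fun R => deriv (deriv betaF) R + deriv betaF R / R) t w ≤
        16 * nine betaF t w - 7 * EE (t * ‖w‖) := by
      refine NineF_lap (fun l hl => ?_) (betaF_facts hr).2.2
      have h2 := (betaF_facts (hrad l hl)).2.2
      have h3 := (phiP_facts (hrad l hl)).1.trans_le (phiP_facts (hrad l hl)).2.1
      linarith
    nlinarith [mul_le_mul_of_nonneg_left h1 (sq_nonneg t)]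

end GM16
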