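import Pool.Agent.LibGM16.NineP
import Pool.Agent.LibGM16.NineF
import Pool.Agent.LibGM16.MPneu
import Pool.Agent.LibGM16.Le3
import Pool.Agent.LibGM16.Normal

open Complex MeasureTheory Filter Topology Matrix
open scoped ContDiff Real ComplexOrder

namespace GM16

variable {γ t : ℝ} {v v' f f' : ℂ → ℝ}

theorem VUp_notMem {w : ℂ} (hw : w ∈ QQ) (h0 : 0 < ‖w‖) : w ∉ ZI := by
  intro hz
  have := QQ_inter_ZI hw hz
  rw [this] at h0
  simp at h0

theorem VUp_contDiffAt (h : Sol γ t v) {w : ℂ} (hw : w ∈ QQ) (h0 : 0 < ‖w‖) :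
    ContDiffAt ℝ 2 v w := by
  have h1 : ContDiffAt ℝ ∞ v w :=
    h.smooth.contDiffAt (isClosed_ZI.isOpen_compl.mem_nhds (VUp_notMem hw h0))
  exact h1.of_le ENat.LEInfty.out

theorem VUp_half_le_norm_re {w : ℂ} (h : |w.re| = 1 / 2) : 1 / 2 ≤ ‖w‖ := by
  rw [← h]
  exact Complex.abs_re_le_norm w

theorem VUp_half_le_norm_im {w : ℂ} (h : |w.im| = 1 / 2) : 1 / 2 ≤ ‖w‖ := by
  rw [← h]
  exact Complex.abs_im_le_norm w

theorem VUp_phiP_quarter : 3 ≤ 5 * phiP (1 / 4) := by
  have hs : Real.sqrt (1 / 4) = 1 / 2 := by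
    rw [show (1 / 4 : ℝ) = (1 / 2) ^ 2 by norm_num]
    exact Real.sqrt_sq (by norm_num)
  unfold phiP EE
  rw [hs, show (-(4 * (1 / 4)) : ℝ) = -1 by norm_num, Real.exp_neg]
  have h1 := Real.exp_one_lt_d9
  have h2 : (1 / 2.7182818286 : ℝ) ≤ (Real.exp 1)⁻¹ := by
    rw [← one_div]
    exact one_div_le_one_div_of_le (Real.exp_pos 1) h1.le
  norm_num at h2 ⊢
  linarith

/-- `v ≤ 5 nine φ₊ ≤ 85 E` (`mp_neu` with `r = 1/(4t)` for `v - 5 nine φ₊`; on the circle
`v ≤ 3 ≤ 5 φ₊(1/4)`). -/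
theorem v_upper (hγ : 0 < γ) (hγ' : γ ≤ 1 / 8) (ht : 4 ≤ t) (h : Sol γ t v) {w : ℂ}
    (hw : w ∈ QQ) (hr : 1 / 4 ≤ t * ‖w‖) : v w ≤ 85 * EE (t * ‖w‖) := by
  have ht0 : 0 < t := by linarith
  have ht1 : 1 ≤ t := by linarith
  have hr0 : 0 < 1 / (4 * t) := by positivity
  have hr2 : 1 / (4 * t) < 1 / 2 := by
    rw [div_lt_div_iff₀ (by positivity) (by norm_num)]
    linarith
  have hconv : ∀ w : ℂ, 1 / (4 * t) ≤ ‖w‖ → 1 / 4 ≤ t * ‖w‖ := by
    intro w hw
    have := mul_le_mul_of_nonneg_left hw ht0.le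
    have e : t * (1 / (4 * t)) = 1 / 4 := by
      field_simp
    linarith
  have hconv' : 1 / (4 * t) ≤ ‖w‖ := by
    rw [div_le_iff₀ (by positivity)]
    linarith
  have key := mp_neu hr0 hr2 (u := fun z => v z - 5 * nine phiP t z)
    (fun w hw h1 => (VUp_contDiffAt h hw (hr0.trans_le h1)).sub
      (contDiffAt_const.mul (nine_phiP_facts ht hw (hconv w h1)).1))
    (by
      intro w hw h1 hu
      obtain ⟨n1, n2, n3, n4⟩ := nine_phiP_facts ht hw (hconv w h1)
      have hv := VUp_contDiffAt h hw (hr0.trans_le h1)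
      have hphi := (phiP_facts (hconv w h1)).1
      rw [lap_sub hv (contDiffAt_const.mul n1), lap_const_mul 5 n1,
        h.pde w (VUp_notMem hw (hr0.trans_le h1))]
      have hu' : 0 < v w - 5 * nine phiP t w := hu
      have hvp : 0 < v w := by linarith
      have hs : 2 * v w ≤ Real.sinh (2 * v w) := Real.self_le_sinh_iff.mpr (by linarith)
      have ht2 : 0 < t ^ 2 := by positivity
      have h3 : 8 * t ^ 2 * (2 * v w) ≤ 8 * t ^ 2 * Real.sinh (2 * v w) :=
        mul_le_mul_of_nonneg_left hs (by positivity)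
      have h4 : 0 < t ^ 2 * (v w - 5 * nine phiP t w) := mul_pos ht2 hu'
      nlinarith)
    (by
      intro w h1
      have hwQ : w ∈ QQ := by
        have h2 : ‖w‖ ≤ 1 / 2 := by rw [h1]; exact hr2.le
        exact ⟨(Complex.abs_re_le_norm w).trans h2, (Complex.abs_im_le_norm w).trans h2⟩
      have h2 := hconv w h1.ge
      have h3 : v w ≤ 3 := v_le_three hγ hγ' ht1 h (fun l hl =>
        h2.trans (mul_le_mul_of_nonneg_left (norm_le_of_mem_QQ hwQ hl) ht0.le))
      obtain ⟨n1, n2, n3, n4⟩ := nine_phiP_facts ht hwQ h2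
      have e : t * ‖w‖ = 1 / 4 := by
        rw [h1]
        field_simp
      rw [e] at n2
      have := VUp_phiP_quarter
      show v w - 5 * nine phiP t w ≤ 0
      linarith)
    (by
      intro w hw h1
      have h2 := VUp_half_le_norm_re h1
      have h3 : 1 / (4 * t) ≤ ‖w‖ := hr2.le.trans h2
      have n1 := (nine_phiP_facts ht hw (hconv w h3)).1
      have hv := VUp_contDiffAt h hw (hr0.trans_le h3)
      have d1 : DifferentiableAt ℝ v w := hv.differentiableAt (by norm_num)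
      have d2 : DifferentiableAt ℝ (nine phiP t) w := n1.differentiableAt (by norm_num)
      have e : dx (fun z => v z - 5 * nine phiP t z) w = dx v w - 5 * dx (nine phiP t) w := by
        unfold dx
        rw [fderiv_fun_sub d1 (d2.const_mul 5), fderiv_const_mul d2]
        simp
      rw [e, (normal_v ht1 h hw).1 h1]
      have := (nine_phiP_normal ht hw).1 h1
      linarith)
    (by
      intro w hw h1
      have h2 := VUp_half_le_norm_im h1
      have h3 : 1 / (4 * t) ≤ ‖w‖ := hr2.le.trans h2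
      have n1 := (nine_phiP_facts ht hw (hconv w h3)).1
      have hv := VUp_contDiffAt h hw (hr0.trans_le h3)
      have d1 : DifferentiableAt ℝ v w := hv.differentiableAt (by norm_num)
      have d2 : DifferentiableAt ℝ (nine phiP t) w := n1.differentiableAt (by norm_num)
      have e : dy (fun z => v z - 5 * nine phiP t z) w = dy v w - 5 * dy (nine phiP t) w := by
        unfold dy
        rw [fderiv_fun_sub d1 (d2.const_mul 5), fderiv_const_mul d2]
        simp
      rw [e, (normal_v ht1 h hw).2 h1]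
      have := (nine_phiP_normal ht hw).2 h1
      linarith)
  have h1 : v w - 5 * nine phiP t w ≤ 0 := key w hw hconv'
  have h2 := (nine_phiP_facts ht hw hr).2.2.1
  linarith

/-- the same around any lattice point, in terms of any lower bound of the distance -/
theorem v_upper' (hγ : 0 < γ) (hγ' : γ ≤ 1 / 8) (ht : 4 ≤ t) (h : Sol γ t v) {w : ℂ} {R : ℝ}
    (hR : 1 / 4 ≤ R) (hw : ∀ l ∈ ZI, R ≤ t * ‖w - l‖) : v w ≤ 85 * EE R := by
  obtain ⟨n, hn, hq⟩ := exists_ZI_add_mem_QQ w
  have h1 := hw (-n) (ZI_neg hn)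
  rw [sub_neg_eq_add] at h1
  have h2 := v_upper hγ hγ' ht h hq (hR.trans h1)
  rw [per_ZI h.perx h.pery hn w] at h2
  have h3 := EE_anti (by linarith : 0 < R) h1
  linarith

end GM16
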