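import Pool.Agent.LibGM16.Pohoz
import Pool.Agent.LibGM16.Esign
import Pool.Agent.LibGM16.Low
import Pool.Agent.LibGM16.FLow
import Pool.Agent.LibGM16.VUp

open Complex MeasureTheory Filter Topology Matrix
open scoped ContDiff Real ComplexOrder

namespace GM16

variable {γ t : ℝ} {v v' f f' : ℂ → ℝ}

namespace DDlowAux

theorem norm_edge_sq (y : ℝ) : ‖edge y‖ ^ 2 = 1 / 4 + y ^ 2 := by
  rw [← Complex.normSq_eq_norm_sq, Complex.normSq_apply]
  simp [edge]
  ring

theorem half_le_norm_edge (y : ℝ) : 1 / 2 ≤ ‖edge y‖ := by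
  have h := norm_edge_sq y
  nlinarith [norm_nonneg (edge y), sq_nonneg y]

theorem norm_edge_le (y : ℝ) : ‖edge y‖ ≤ 1 / 2 + y ^ 2 := by
  have h := norm_edge_sq y
  refine abs_le_of_sq_le_sq' (b := 1 / 2 + y ^ 2) ?_ (by positivity) |>.2
  rw [h]
  nlinarith [sq_nonneg y, sq_nonneg (y ^ 2)]

theorem edge_mem_QQ {y : ℝ} (hy : |y| ≤ 1 / 2) : edge y ∈ QQ := by
  constructor
  · simp [edge]
  · simpa [edge] using hy

theorem edge_notMem (y : ℝ) : edge y ∉ ZI := by
  rintro ⟨m, n, h⟩
  have h1 := congrArg Complex.re h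
  simp [edge] at h1
  have h2 : (1 : ℝ) = ((2 * m : ℤ) : ℝ) := by
    push_cast
    linarith
  have h3 : (1 : ℤ) = 2 * m := by exact_mod_cast h2
  omega

theorem continuous_edge : Continuous edge := by
  unfold edge
  fun_prop

theorem cosh_sub_one_le {x : ℝ} (h0 : 0 ≤ x) (h1 : x ≤ 1) : Real.cosh x - 1 ≤ x ^ 2 := by
  have h2 := Real.abs_exp_sub_one_sub_id_le (x := x) (by rw [abs_of_nonneg h0]; exact h1)
  have h3 := Real.abs_exp_sub_one_sub_id_le (x := -x) (by rw [abs_neg, abs_of_nonneg h0]; exact h1)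
  rw [Real.cosh_eq]
  have h4 := (abs_le.1 h2).2
  have h5 := (abs_le.1 h3).2
  nlinarith

theorem EE_mul_betaF {R : ℝ} (hR : 0 < R) : EE R * betaF R = Real.exp (-(8 * R)) := by
  have hs : 0 < Real.sqrt R := Real.sqrt_pos.2 hR
  unfold EE betaF
  rw [show -(8 * R) = -(4 * R) + -(4 * R) by ring, Real.exp_add]
  field_simp

theorem EE_sq {R : ℝ} (hR : 0 < R) : EE R ^ 2 = Real.exp (-(8 * R)) / R := by
  unfold EE
  rw [div_pow, Real.sq_sqrt hR.le, ← Real.exp_nat_mul]
  congr 2
  push_cast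
  ring

theorem exp_neg8_le : Real.exp (-8) ≤ 1 / 256 := by
  have h1 : (2 : ℝ) ≤ Real.exp 1 := by
    have := Real.add_one_le_exp (1 : ℝ)
    linarith
  have h2 : (256 : ℝ) ≤ Real.exp 8 := by
    have h3 : Real.exp 8 = Real.exp 1 ^ 8 := by
      rw [← Real.exp_nat_mul]
      norm_num
    rw [h3]
    calc (256 : ℝ) = 2 ^ 8 := by norm_num
      _ ≤ Real.exp 1 ^ 8 := pow_le_pow_left₀ (by norm_num) h1 8
  rw [Real.exp_neg, ← one_div]
  exact one_div_le_one_div_of_le (by norm_num) h2

theorem EE_le {R : ℝ} (hR : 2 ≤ R) : EE R ≤ 1 / 256 := by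
  have hs : 1 ≤ Real.sqrt R := by
    rw [show (1 : ℝ) = Real.sqrt 1 by simp]
    exact Real.sqrt_le_sqrt (by linarith)
  unfold EE
  calc Real.exp (-(4 * R)) / Real.sqrt R ≤ Real.exp (-(4 * R)) / 1 := by
        apply div_le_div_of_nonneg_left (Real.exp_pos _).le (by norm_num) hs
    _ = Real.exp (-(4 * R)) := by ring
    _ ≤ Real.exp (-8) := Real.exp_le_exp.2 (by linarith)
    _ ≤ 1 / 256 := exp_neg8_le

theorem EE_pos {R : ℝ} (hR : 0 < R) : 0 < EE R := by
  unfold EE
  have := Real.sqrt_pos.2 hR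
  positivity

theorem betaF_pos {R : ℝ} (hR : 0 < R) : 0 < betaF R := by
  unfold betaF
  have := Real.sqrt_pos.2 hR
  positivity

theorem isOpen_compl (h : IsClosed ZI) : IsOpen (ZIᶜ : Set ℂ) := h.isOpen_compl

theorem continuous_edge_comp {g : ℂ → ℝ} (hZ : IsClosed ZI) (hg : ContDiffOn ℝ ∞ g ZIᶜ) :
    Continuous (fun y : ℝ => g (edge y)) := by
  rw [continuous_iff_continuousAt]
  intro y
  have h1 : ContinuousAt g (edge y) :=
    (hg.contDiffAt (hZ.isOpen_compl.mem_nhds (edge_notMem y))).continuousAt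
  exact ContinuousAt.comp (f := edge) h1 continuous_edge.continuousAt

theorem continuous_dy_edge {g : ℂ → ℝ} (hZ : IsClosed ZI) (hg : ContDiffOn ℝ ∞ g ZIᶜ) :
    Continuous (fun y : ℝ => dy g (edge y)) := by
  rw [continuous_iff_continuousAt]
  intro y
  have h0 : ContDiffAt ℝ ∞ g (edge y) :=
    hg.contDiffAt (hZ.isOpen_compl.mem_nhds (edge_notMem y))
  have h1 : ContinuousAt (fderiv ℝ g) (edge y) :=
    (h0.fderiv_right (m := 0) (by norm_num)).continuousAt
  have h2 : ContinuousAt (fun w => dy g w) (edge y) := by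
    unfold dy
    exact h1.clm_apply continuousAt_const
  exact ContinuousAt.comp (f := edge) h2 continuous_edge.continuousAt

end DDlowAux

open DDlowAux in
/-- Lower bound of `-D`: the integrand is at least `16 t² b v - 4t²(cosh 2v - 1)`. -/
theorem DD_lower (hγ : 0 < γ) (hγ' : γ ≤ 1 / 8) : ∃ c t₁ : ℝ, 0 < c ∧ 4 ≤ t₁ ∧
    ∀ (t : ℝ) (v f : ℂ → ℝ), t₁ ≤ t → Sol γ t v → LinSol t v f →
      c * (t ^ (3 / 2 : ℝ) * Real.exp (-(4 * t))) ≤ -DD t v f := by
  obtain ⟨κ, hκ, hfl⟩ := f_lower (γ := γ) hγ hγ'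
  set a : ℝ := Real.sqrt (Real.exp (-(4 / γ)) / 2) / 2 with ha
  have ha0 : 0 < a := by
    rw [ha]
    have : 0 < Real.sqrt (Real.exp (-(4 / γ)) / 2) := Real.sqrt_pos.2 (by positivity)
    positivity
  have hρ : Real.exp (-(4 / γ)) / 2 ≤ 1 / 2 := by
    have : Real.exp (-(4 / γ)) ≤ 1 := Real.exp_le_one_iff.2 (by
      have : 0 < 4 / γ := by positivity
      linarith)
    linarith
  refine ⟨32 * (κ * a) * Real.exp (-8), max 4 (231200 / (8 * (κ * a))), by positivity,
    le_max_left _ _, ?_⟩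
  intro t v f ht1 hv hf
  have ht : 4 ≤ t := le_trans (le_max_left _ _) ht1
  have ht2 : 231200 / (8 * (κ * a)) ≤ t := le_trans (le_max_right _ _) ht1
  have ht3 : 231200 ≤ 8 * (κ * a) * t := by
    rw [div_le_iff₀ (by positivity)] at ht2
    linarith
  have ht0 : 0 < t := by linarith
  rw [pohozaev hγ hγ' (by linarith) hv hf]
  set F : ℝ → ℝ := fun y => dy v (edge y) * dy f (edge y) + Psi t v f (edge y) with hF
  have key : ∀ y ∈ Set.Icc (-(1 / 2) : ℝ) (1 / 2),
      8 * (κ * a) * t ^ 2 * Real.exp (-(8 * (t * ‖edge y‖))) ≤ -F y := by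
    intro y hy
    have hy' : |y| ≤ 1 / 2 := abs_le.2 ⟨by linarith [hy.1], hy.2⟩
    have hQ := edge_mem_QQ hy'
    have hn := half_le_norm_edge y
    have hRt : t / 2 ≤ t * ‖edge y‖ := by nlinarith
    set R : ℝ := t * ‖edge y‖ with hR
    have hR2 : 2 ≤ R := by linarith
    have hR0 : 0 < R := by linarith
    have hes := edge_sign hγ hγ' (by linarith : (1 : ℝ) ≤ t) hv hf hy'
    have hb := hfl t v f (by linarith) hv hf (edge y) (by rw [← hR]; linarith)
    have hvl := v_lower hγ hγ' (by linarith : (1 : ℝ) ≤ t) hv (edge_notMem y)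
      (by rw [← hR]; linarith)
    have hvu := v_upper hγ hγ' ht hv hQ (by rw [← hR]; linarith)
    rw [← hR] at hb hvl hvu
    rw [← ha] at hvl
    have hE := EE_le hR2
    have hEp := EE_pos hR0
    have hBp := betaF_pos hR0
    have hEB := EE_mul_betaF hR0
    have hv0 : 0 < v (edge y) := lt_of_lt_of_le (by positivity) hvl
    have hsinh : 2 * v (edge y) ≤ Real.sinh (2 * v (edge y)) :=
      Real.self_le_sinh_iff.2 (by linarith)
    have hcosh : Real.cosh (2 * v (edge y)) - 1 ≤ (2 * v (edge y)) ^ 2 :=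
      cosh_sub_one_le (by linarith) (by linarith)
    have hv2 : (2 * v (edge y)) ^ 2 ≤ 28900 * (Real.exp (-(8 * R)) / R) := by
      rw [← EE_sq hR0]
      nlinarith
    have hexpR : Real.exp (-(8 * R)) / R ≤ 2 / t * Real.exp (-(8 * R)) := by
      rw [div_eq_mul_inv, mul_comm]
      apply mul_le_mul_of_nonneg_right _ (Real.exp_pos _).le
      rw [inv_eq_one_div, div_le_div_iff₀ hR0 ht0]
      linarith
    have hA : κ * a * Real.exp (-(8 * R)) ≤ -f (edge y) * v (edge y) := by
      calc κ * a * Real.exp (-(8 * R)) = (κ * betaF R) * (a * EE R) := by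
            rw [← hEB]; ring
        _ ≤ -f (edge y) * v (edge y) :=
            mul_le_mul hb hvl (by positivity) (le_trans (by positivity) hb)
    have hfp : 0 ≤ -f (edge y) := le_trans (by positivity) hb
    have hB : 2 * (-f (edge y) * v (edge y)) ≤ -f (edge y) * Real.sinh (2 * v (edge y)) := by
      nlinarith
    have hPsi : 16 * t ^ 2 * (κ * a * Real.exp (-(8 * R))) -
        231200 * t * Real.exp (-(8 * R)) ≤ -Psi t v f (edge y) := by
      unfold Psi
      have e1 : -(8 * t ^ 2 * f (edge y) * Real.sinh (2 * v (edge y)) +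
          4 * t ^ 2 * (Real.cosh (2 * v (edge y)) - 1)) =
          8 * t ^ 2 * (-f (edge y) * Real.sinh (2 * v (edge y))) -
          4 * t ^ 2 * (Real.cosh (2 * v (edge y)) - 1) := by ring
      rw [e1]
      have e2 : 4 * t ^ 2 * (Real.cosh (2 * v (edge y)) - 1) ≤
          231200 * t * Real.exp (-(8 * R)) := by
        calc 4 * t ^ 2 * (Real.cosh (2 * v (edge y)) - 1)
            ≤ 4 * t ^ 2 * (28900 * (2 / t * Real.exp (-(8 * R)))) := by
              apply mul_le_mul_of_nonneg_left _ (by positivity)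
              linarith
          _ = 231200 * t * Real.exp (-(8 * R)) := by
              field_simp
              ring
      have e3 : 16 * t ^ 2 * (κ * a * Real.exp (-(8 * R))) ≤
          8 * t ^ 2 * (-f (edge y) * Real.sinh (2 * v (edge y))) := by
        calc 16 * t ^ 2 * (κ * a * Real.exp (-(8 * R)))
            = 8 * t ^ 2 * (2 * (κ * a * Real.exp (-(8 * R)))) := by ring
          _ ≤ 8 * t ^ 2 * (-f (edge y) * Real.sinh (2 * v (edge y))) := by
              apply mul_le_mul_of_nonneg_left _ (by positivity)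
              linarith
      linarith
    have hfin : 8 * (κ * a) * t ^ 2 * Real.exp (-(8 * R)) ≤
        16 * t ^ 2 * (κ * a * Real.exp (-(8 * R))) - 231200 * t * Real.exp (-(8 * R)) := by
      have e4 : 0 ≤ (8 * (κ * a) * t - 231200) * (t * Real.exp (-(8 * R))) :=
        mul_nonneg (by linarith) (by positivity)
      nlinarith [e4]
    have : -F y = -(dy v (edge y) * dy f (edge y)) + -Psi t v f (edge y) := by
      simp only [hF]
      ring
    rw [this]
    linarith
  have hcont : Continuous F := by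
    have c1 := continuous_dy_edge isClosed_ZI hv.smooth
    have c2 := continuous_dy_edge isClosed_ZI hf.smooth
    have c3 := continuous_edge_comp isClosed_ZI hv.smooth
    have c4 := continuous_edge_comp isClosed_ZI hf.smooth
    simp only [hF]
    unfold Psi
    have c5 : Continuous fun y => Real.sinh (2 * v (edge y)) :=
      Real.continuous_sinh.comp (continuous_const.mul c3)
    have c6 : Continuous fun y => Real.cosh (2 * v (edge y)) :=
      Real.continuous_cosh.comp (continuous_const.mul c3)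
    exact (c1.mul c2).add (((continuous_const.mul c4).mul c5).add
      (continuous_const.mul (c6.sub continuous_const)))
  -- restrict to `|y| ≤ δ`
  set δ : ℝ := 1 / Real.sqrt t with hδ
  have hst : 2 ≤ Real.sqrt t := by
    rw [show (2 : ℝ) = Real.sqrt 4 by
      rw [show (4 : ℝ) = 2 ^ 2 by norm_num, Real.sqrt_sq (by norm_num)]]
    exact Real.sqrt_le_sqrt ht
  have hδ0 : 0 < δ := by positivity
  have hδ1 : δ ≤ 1 / 2 := by
    rw [hδ]
    exact one_div_le_one_div_of_le (by norm_num) hst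
  have hδt : t * δ ^ 2 = 1 := by
    rw [hδ, div_pow, Real.sq_sqrt ht0.le]
    field_simp
  have hsub : Set.Icc (-δ) δ ⊆ Set.Icc (-(1 / 2) : ℝ) (1 / 2) :=
    Set.Icc_subset_Icc (by linarith) hδ1
  have hnn : ∀ y ∈ Set.Icc (-(1 / 2) : ℝ) (1 / 2), 0 ≤ -F y := fun y hy =>
    le_trans (by positivity) (key y hy)
  have hlow : ∀ y ∈ Set.Icc (-δ) δ,
      8 * (κ * a) * t ^ 2 * (Real.exp (-(4 * t)) * Real.exp (-8)) ≤ -F y := by
    intro y hy
    refine le_trans ?_ (key y (hsub hy))
    apply mul_le_mul_of_nonneg_left _ (by positivity)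
    rw [← Real.exp_add]
    apply Real.exp_le_exp.2
    have h1 := norm_edge_le y
    have h2 : y ^ 2 ≤ δ ^ 2 := by
      rw [← sq_abs y]
      exact pow_le_pow_left₀ (abs_nonneg y) (abs_le.2 ⟨hy.1, hy.2⟩) 2
    nlinarith
  have hi1 : IntervalIntegrable (fun y => -F y) volume (-(1 / 2)) (1 / 2) :=
    hcont.neg.intervalIntegrable _ _
  have hmain : 2 * δ * (8 * (κ * a) * t ^ 2 * (Real.exp (-(4 * t)) * Real.exp (-8))) ≤
      ∫ y in (-(1 / 2) : ℝ)..(1 / 2), -F y := by
    calc 2 * δ * (8 * (κ * a) * t ^ 2 * (Real.exp (-(4 * t)) * Real.exp (-8)))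
        = ∫ _y in (-δ)..δ, 8 * (κ * a) * t ^ 2 * (Real.exp (-(4 * t)) * Real.exp (-8)) := by
          rw [intervalIntegral.integral_const, smul_eq_mul]
          ring
      _ ≤ ∫ y in (-δ)..δ, -F y := by
          apply intervalIntegral.integral_mono_on (by linarith)
            (intervalIntegrable_const) (hcont.neg.intervalIntegrable _ _)
          exact hlow
      _ ≤ ∫ y in (-(1 / 2) : ℝ)..(1 / 2), -F y := by
          rw [intervalIntegral.integral_of_le (by linarith),
            intervalIntegral.integral_of_le (by norm_num)]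
          apply setIntegral_mono_set
          · exact (intervalIntegrable_iff_integrableOn_Ioc_of_le (by norm_num)).1 hi1
          · refine (ae_restrict_iff' measurableSet_Ioc).2 (ae_of_all _ fun y hy => ?_)
            exact hnn y ⟨hy.1.le, hy.2⟩
          · exact (Set.Ioc_subset_Ioc (by linarith) hδ1).eventuallyLE
  rw [intervalIntegral.integral_neg] at hmain
  have hpow : t ^ 2 * δ = t ^ (3 / 2 : ℝ) := by
    rw [hδ, Real.sqrt_eq_rpow, ← Real.rpow_natCast t 2, one_div, ← Real.rpow_neg ht0.le,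
      ← Real.rpow_add ht0]
    norm_num
  calc 32 * (κ * a) * Real.exp (-8) * (t ^ (3 / 2 : ℝ) * Real.exp (-(4 * t)))
      = 2 * (2 * δ * (8 * (κ * a) * t ^ 2 * (Real.exp (-(4 * t)) * Real.exp (-8)))) := by
        rw [← hpow]
        ring
    _ ≤ 2 * -∫ y in (-(1 / 2) : ℝ)..(1 / 2), F y := by linarith
    _ = -(2 * ∫ y in (-(1 / 2) : ℝ)..(1 / 2), F y) := by ring

end GM16
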