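import Pool.Agent.LibGM16.NineB
import Pool.Agent.LibGM16.NineF
import Pool.Agent.LibGM16.MPneu
import Pool.Agent.LibGM16.VUp
import Pool.Agent.LibGM16.Normal

open Complex MeasureTheory Filter Topology Matrix
open scoped ContDiff Real ComplexOrder

namespace GM16

variable {γ t : ℝ} {v v' f f' : ℂ → ℝ}

theorem FUp_notMem {w : ℂ} (hw : w ∈ QQ) (h0 : 0 < ‖w‖) : w ∉ ZI := by
  intro hz
  have := QQ_inter_ZI hw hz
  rw [this] at h0
  simp at h0

theorem FUp_contDiffAt (h : LinSol t v f) {w : ℂ} (hw : w ∈ QQ) (h0 : 0 < ‖w‖) :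
    ContDiffAt ℝ 2 f w := by
  have h1 : ContDiffAt ℝ ∞ f w :=
    h.smooth.contDiffAt (isClosed_ZI.isOpen_compl.mem_nhds (FUp_notMem hw h0))
  exact h1.of_le ENat.LEInfty.out

theorem FUp_half_le_norm_re {w : ℂ} (h : |w.re| = 1 / 2) : 1 / 2 ≤ ‖w‖ := by
  rw [← h]
  exact Complex.abs_re_le_norm w

theorem FUp_half_le_norm_im {w : ℂ} (h : |w.im| = 1 / 2) : 1 / 2 ≤ ‖w‖ := by
  rw [← h]
  exact Complex.abs_im_le_norm w

theorem FUp_betaF_quarter : 1 / 8 ≤ betaF (1 / 4) := by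
  have hs : Real.sqrt (1 / 4) = 1 / 2 := by
    rw [show (1 / 4 : ℝ) = (1 / 2) ^ 2 by norm_num]
    exact Real.sqrt_sq (by norm_num)
  unfold betaF
  rw [hs, show (-(4 * (1 / 4)) : ℝ) = -1 by norm_num, Real.exp_neg]
  have h1 := Real.exp_one_lt_d9
  have h2 : (1 / 2.7182818286 : ℝ) ≤ (Real.exp 1)⁻¹ := by
    rw [← one_div]
    exact one_div_le_one_div_of_le (Real.exp_pos 1) h1.le
  norm_num at h2 ⊢
  linarith

theorem FUp_sinh {x : ℝ} (h0 : 0 ≤ x) (h1 : x ≤ 3) :
    Real.sinh (2 * x) ≤ 2 * x * Real.exp 6 := by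
  rw [Real.sinh_eq]
  have h2 : Real.exp (-(2 * x)) = Real.exp (2 * x) * Real.exp (-(4 * x)) := by
    rw [← Real.exp_add]
    congr 1
    ring
  have h3 := Real.add_one_le_exp (-(4 * x))
  have h4 : Real.exp (2 * x) ≤ Real.exp 6 := Real.exp_le_exp.2 (by linarith)
  have h5 := Real.exp_pos (2 * x)
  rw [h2]
  have h6 : Real.exp (2 * x) * (1 - 4 * x) ≤ Real.exp (2 * x) * Real.exp (-(4 * x)) :=
    mul_le_mul_of_nonneg_left (by linarith) h5.le
  have h7 : Real.exp (2 * x) * (2 * x) ≤ Real.exp 6 * (2 * x) :=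
    mul_le_mul_of_nonneg_right h4 (by linarith)
  linarith

/-- `-f ≤ C β(R)` (`mp_neu` for `-f - C' nine β`: `Δ(-f) ≥ 16t²(-f) - 8t² sinh 2v`, and
`sinh 2v ≤ 70 v ≤ 5950 E(R)`) -/
theorem f_upper : ∃ C : ℝ, 0 < C ∧ ∀ (γ t : ℝ) (v f : ℂ → ℝ), 0 < γ → γ ≤ 1 / 8 → 4 ≤ t →
    Sol γ t v → LinSol t v f → ∀ w ∈ QQ, 1 / 4 ≤ t * ‖w‖ → -f w ≤ C * betaF (t * ‖w‖) := by
  obtain ⟨c, hc⟩ : ∃ c, c = 200 * Real.exp 6 := ⟨_, rfl⟩
  have hc200 : 200 ≤ c := by
    have := Real.add_one_le_exp (6 : ℝ)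
    rw [hc]
    linarith
  refine ⟨17 * c, by linarith, ?_⟩
  intro γ t v f hγ hγ' ht h hf w hw hr
  have ht0 : 0 < t := by linarith
  have ht1 : 1 ≤ t := by linarith
  have hr0 : 0 < 1 / (4 * t) := by positivity
  have hr2 : 1 / (4 * t) < 1 / 2 := by
    rw [div_lt_div_iff₀ (by positivity) (by norm_num)]
    linarith
  have hconv : ∀ w : ℂ, 1 / (4 * t) ≤ ‖w‖ → 1 / 4 ≤ t * ‖w‖ := by
    intro w hw
    have := mul_le_mul_of_nonneg_left hw ht0.le
    have e : t * (1 / (4 * t)) = 1 / 4 := by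
      field_simp
    linarith
  have hconv' : 1 / (4 * t) ≤ ‖w‖ := by
    rw [div_le_iff₀ (by positivity)]
    linarith
  have hthree : ∀ w ∈ QQ, 1 / 4 ≤ t * ‖w‖ → v w ≤ 3 := fun w hwQ h2 =>
    v_le_three hγ hγ' ht1 h (fun l hl =>
      h2.trans (mul_le_mul_of_nonneg_left (norm_le_of_mem_QQ hwQ hl) ht0.le))
  have key := mp_neu hr0 hr2 (u := fun z => -f z - c * nine betaF t z)
    (fun w hw h1 => (FUp_contDiffAt hf hw (hr0.trans_le h1)).neg.sub
      (contDiffAt_const.mul (nine_betaF_facts ht hw (hconv w h1)).1))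
    (by
      intro w hw h1 hu
      obtain ⟨n1, n2, n3, n4⟩ := nine_betaF_facts ht hw (hconv w h1)
      have hv := FUp_contDiffAt hf hw (hr0.trans_le h1)
      have hR0 : 0 < t * ‖w‖ := by linarith [hconv w h1]
      have hE : 0 < EE (t * ‖w‖) := by
        unfold EE
        exact div_pos (Real.exp_pos _) (Real.sqrt_pos.2 hR0)
      rw [lap_sub hv.neg (contDiffAt_const.mul n1), lap_const_mul c n1, lap_neg,
        hf.pde w (FUp_notMem hw (hr0.trans_le h1))]
      have hu' : 0 < -f w - c * nine betaF t w := hu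
      have hfn := f_nonpos hγ ht1 h hf w
      have hvn := v_nonneg hγ ht1 h w
      have hv3 := hthree w hw (hconv w h1)
      have hvu := v_upper hγ hγ' ht h hw (hconv w h1)
      have hs := FUp_sinh hvn hv3
      have he6 := Real.exp_pos 6
      have hs2 : 8 * Real.sinh (2 * v w) < 7 * c * EE (t * ‖w‖) := by
        have h5 : 2 * v w * Real.exp 6 ≤ 2 * (85 * EE (t * ‖w‖)) * Real.exp 6 := by gcongr
        have h6 : 0 < Real.exp 6 * EE (t * ‖w‖) := mul_pos he6 hE
        rw [hc]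
        nlinarith
      have hch : 1 ≤ Real.cosh (2 * v w) := Real.one_le_cosh _
      have ht2 : 0 < t ^ 2 := by positivity
      have h3 : 16 * t ^ 2 * (-f w) ≤ 16 * t ^ 2 * (Real.cosh (2 * v w) * (-f w)) := by
        apply mul_le_mul_of_nonneg_left _ (by positivity)
        nlinarith
      have h4 : 0 < t ^ 2 * (-f w - c * nine betaF t w) := mul_pos ht2 hu'
      have h5 : t ^ 2 * (8 * Real.sinh (2 * v w)) < t ^ 2 * (7 * c * EE (t * ‖w‖)) :=
        mul_lt_mul_of_pos_left hs2 ht2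
      have h6 : c * lap (nine betaF t) w ≤
          c * (16 * t ^ 2 * nine betaF t w - 7 * t ^ 2 * EE (t * ‖w‖)) :=
        mul_le_mul_of_nonneg_left n4 (by linarith)
      nlinarith)
    (by
      intro w h1
      have hwQ : w ∈ QQ := by
        have h2 : ‖w‖ ≤ 1 / 2 := by rw [h1]; exact hr2.le
        exact ⟨(Complex.abs_re_le_norm w).trans h2, (Complex.abs_im_le_norm w).trans h2⟩
      have h2 := hconv w h1.ge
      obtain ⟨n1, n2, n3, n4⟩ := nine_betaF_facts ht hwQ h2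
      have e : t * ‖w‖ = 1 / 4 := by
        rw [h1]
        field_simp
      rw [e] at n2
      have h3 := FUp_betaF_quarter
      have h4 := (abs_le.1 (hf.bdd w)).1
      show -f w - c * nine betaF t w ≤ 0
      nlinarith)
    (by
      intro w hw h1
      have h2 := FUp_half_le_norm_re h1
      have h3 : 1 / (4 * t) ≤ ‖w‖ := hr2.le.trans h2
      have n1 := (nine_betaF_facts ht hw (hconv w h3)).1
      have hv := FUp_contDiffAt hf hw (hr0.trans_le h3)
      have d1 : DifferentiableAt ℝ f w := hv.differentiableAt (by norm_num)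
      have d2 : DifferentiableAt ℝ (nine betaF t) w := n1.differentiableAt (by norm_num)
      have e : dx (fun z => -f z - c * nine betaF t z) w =
          -dx f w - c * dx (nine betaF t) w := by
        unfold dx
        have d1n : DifferentiableAt ℝ (fun z => -f z) w := d1.neg
        rw [fderiv_fun_sub d1n (d2.const_mul c), fderiv_const_mul d2, fderiv_fun_neg]
        simp
      rw [e, (normal_f ht1 h hf hw).1 h1]
      have := (nine_betaF_normal ht hw).1 h1
      nlinarith)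
    (by
      intro w hw h1
      have h2 := FUp_half_le_norm_im h1
      have h3 : 1 / (4 * t) ≤ ‖w‖ := hr2.le.trans h2
      have n1 := (nine_betaF_facts ht hw (hconv w h3)).1
      have hv := FUp_contDiffAt hf hw (hr0.trans_le h3)
      have d1 : DifferentiableAt ℝ f w := hv.differentiableAt (by norm_num)
      have d2 : DifferentiableAt ℝ (nine betaF t) w := n1.differentiableAt (by norm_num)
      have e : dy (fun z => -f z - c * nine betaF t z) w =
          -dy f w - c * dy (nine betaF t) w := by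
        unfold dy
        have d1n : DifferentiableAt ℝ (fun z => -f z) w := d1.neg
        rw [fderiv_fun_sub d1n (d2.const_mul c), fderiv_const_mul d2, fderiv_fun_neg]
        simp
      rw [e, (normal_f ht1 h hf hw).2 h1]
      have := (nine_betaF_normal ht hw).2 h1
      nlinarith)
  have h1 : -f w - c * nine betaF t w ≤ 0 := key w hw hconv'
  have h2 := (nine_betaF_facts ht hw hr).2.2.1
  nlinarith

theorem f_upper' : ∃ C : ℝ, 0 < C ∧ ∀ (γ t : ℝ) (v f : ℂ → ℝ), 0 < γ → γ ≤ 1 / 8 → 4 ≤ t →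
    Sol γ t v → LinSol t v f → ∀ (w : ℂ) (R : ℝ), 1 / 4 ≤ R → (∀ l ∈ ZI, R ≤ t * ‖w - l‖) →
    -f w ≤ C * betaF R := by
  obtain ⟨C, hC, hh⟩ := f_upper
  refine ⟨C, hC, ?_⟩
  intro γ t v f hγ hγ' ht h hf w R hR hw
  obtain ⟨n, hn, hq⟩ := exists_ZI_add_mem_QQ w
  have h1 := hw (-n) (ZI_neg hn)
  rw [sub_neg_eq_add] at h1
  have h2 := hh γ t v f hγ hγ' ht h hf (w + n) hq (hR.trans h1)
  rw [per_ZI hf.perx hf.pery hn w] at h2
  have h3 := betaF_anti (by linarith : 1 / 8 ≤ R) h1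
  exact h2.trans (mul_le_mul_of_nonneg_left h3 hC.le)

end GM16
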