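import Pool.Agent.LibGM16.MPper

open Complex MeasureTheory Filter Topology Matrix
open scoped ContDiff Real ComplexOrder

namespace GM16

variable {γ t : ℝ} {v v' f f' : ℂ → ℝ}

private theorem Sign_log_tendsto : Tendsto (fun w : ℂ => Real.log ‖w‖) (𝓝[≠] 0) atBot := by
  have h1 : Tendsto (fun w : ℂ => ‖w‖) (𝓝[≠] 0) (𝓝[≠] 0) := by
    refine tendsto_nhdsWithin_iff.mpr ⟨?_, ?_⟩
    · have : Tendsto (fun w : ℂ => ‖w‖) (𝓝 0) (𝓝 ‖(0 : ℂ)‖) := continuous_norm.tendsto 0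
      rw [norm_zero] at this
      exact this.mono_left nhdsWithin_le_nhds
    · filter_upwards [self_mem_nhdsWithin] with w hw
      simpa using hw
  exact Real.tendsto_log_nhdsNE_zero.comp h1

private theorem Sign_dense : Dense (ZIᶜ : Set ℂ) := by
  refine Set.Countable.dense_compl ℝ ?_
  have : ZI = Set.range (fun p : ℤ × ℤ => ((p.1 : ℂ) + p.2 * I)) := by
    ext w
    constructor
    · rintro ⟨m, n, rfl⟩; exact ⟨(m, n), rfl⟩
    · rintro ⟨⟨m, n⟩, rfl⟩; exact ⟨m, n, rfl⟩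
  rw [this]
  exact Set.countable_range _

/-- `v ≥ 0` (`mp_per` for `-v`) -/
theorem v_nonneg (hγ : 0 < γ) (ht : 1 ≤ t) (h : Sol γ t v) (w : ℂ) : 0 ≤ v w := by
  by_cases hw : w ∈ ZI
  · rw [h.zero w hw]
  have ht2 : 1 ≤ t ^ 2 := one_le_pow₀ ht
  have key := mp_per (u := fun w => -v w) ((h.smooth.of_le ENat.LEInfty.out).neg)
    (fun w => by simp only [h.perx]) (fun w => by simp only [h.pery]) ?_ ?_ w hw
  · linarith
  · intro z hz hpos
    rw [lap_neg, h.pde z hz]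
    have h1 : 2 * (-v z) ≤ Real.sinh (2 * (-v z)) := Real.self_le_sinh_iff.mpr (by linarith)
    have h2 : Real.sinh (2 * (-v z)) = -Real.sinh (2 * v z) := by
      rw [← Real.sinh_neg]; ring_nf
    rw [h2] at h1
    have h3 : 0 ≤ -Real.sinh (2 * v z) := by linarith
    nlinarith
  · intro ε hε
    obtain ⟨L, hL⟩ := h.sing
    have e1 : ∀ᶠ w in 𝓝[≠] (0 : ℂ), L - 1 < v w + γ * Real.log ‖w‖ :=
      hL.eventually (lt_mem_nhds (by linarith))
    have e2 : ∀ᶠ w in 𝓝[≠] (0 : ℂ), Real.log ‖w‖ ≤ (L - 1) / (γ + ε) :=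
      Sign_log_tendsto.eventually (eventually_le_atBot _)
    filter_upwards [e1, e2] with w h1 h2
    have h3 : (γ + ε) * Real.log ‖w‖ ≤ L - 1 := by
      rw [le_div_iff₀ (by linarith)] at h2
      linarith
    linarith

/-- `f ≤ 0` (`mp_per` for `f`, and continuity) -/
theorem f_nonpos (hγ : 0 < γ) (ht : 1 ≤ t) (hv : Sol γ t v) (h : LinSol t v f) (w : ℂ) :
    f w ≤ 0 := by
  have ht2 : 1 ≤ t ^ 2 := one_le_pow₀ ht
  have key := mp_per (u := f) (h.smooth.of_le ENat.LEInfty.out) h.perx h.pery ?_ ?_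
  · have hcl : IsClosed {w | f w ≤ 0} := isClosed_le h.cont continuous_const
    have hsub : (ZIᶜ : Set ℂ) ⊆ {w | f w ≤ 0} := fun w hw => key w hw
    have h3 := hcl.closure_subset_iff.mpr hsub
    rw [Sign_dense.closure_eq] at h3
    exact h3 (Set.mem_univ w)
  · intro z hz hpos
    rw [h.pde z hz]
    have h1 : 0 ≤ Real.sinh (2 * v z) := Real.sinh_nonneg_iff.mpr (by linarith [v_nonneg hγ ht hv z])
    have h2 : 1 ≤ Real.cosh (2 * v z) := Real.one_le_cosh _
    have h3 : 1 ≤ t ^ 2 * Real.cosh (2 * v z) := one_le_mul_of_one_le_of_one_le ht2 h2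
    have h4 : 0 ≤ 8 * t ^ 2 * Real.sinh (2 * v z) := by positivity
    nlinarith
  · intro ε hε
    have e2 : ∀ᶠ w in 𝓝[≠] (0 : ℂ), Real.log ‖w‖ ≤ -(1 / 4) / ε :=
      Sign_log_tendsto.eventually (eventually_le_atBot _)
    filter_upwards [e2] with w h2
    rw [le_div_iff₀ hε] at h2
    have := (abs_le.mp (h.bdd w)).2
    linarith

end GM16
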