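import Pool.Agent.LibGM16.Grad
import Pool.Agent.LibGM16.VUp
import Pool.Agent.LibGM16.FUp
import Pool.Agent.LibGM16.Sign

open Complex MeasureTheory Filter Topology Matrix
open scoped ContDiff Real ComplexOrder

namespace GM16

variable {γ t : ℝ} {v v' f f' : ℂ → ℝ}

private theorem GradE_sinh {x : ℝ} (h0 : 0 ≤ x) (h1 : x ≤ 1) :
    0 ≤ Real.sinh x ∧ Real.sinh x ≤ 3 / 2 * x := by
  refine ⟨Real.sinh_nonneg_iff.mpr h0, ?_⟩
  have h2 := abs_le.mp (Real.abs_exp_sub_one_sub_id_le (x := x) (by rw [abs_of_nonneg h0]; exact h1))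
  have h3 := Real.add_one_le_exp (-x)
  rw [Real.sinh_eq]
  nlinarith [h2.2]

private theorem GradE_cosh {x : ℝ} (h0 : 0 ≤ x) (h1 : x ≤ 1) :
    0 ≤ Real.cosh x ∧ Real.cosh x ≤ 2 := by
  refine ⟨(Real.cosh_pos x).le, ?_⟩
  have h2 := abs_le.mp (Real.abs_exp_sub_one_sub_id_le (x := x) (by rw [abs_of_nonneg h0]; exact h1))
  have h3 := abs_le.mp (Real.abs_exp_sub_one_sub_id_le (x := -x)
    (by rw [abs_neg, abs_of_nonneg h0]; exact h1))
  rw [Real.cosh_eq]
  nlinarith [h2.2, h3.2]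

private theorem GradE_exp_half : Real.exp (1 / 2) ≤ 17 / 10 := by
  have h := Real.exp_one_lt_d9
  have h2 : Real.exp (1 / 2) ^ 2 = Real.exp 1 := by
    rw [← Real.exp_nat_mul]; norm_num
  have h3 := Real.exp_pos (1 / 2)
  nlinarith

private theorem GradE_beta {R : ℝ} (hR : 2 ≤ R) : betaF (R - 1 / 8) ≤ 2 * betaF R := by
  have h1 : Real.exp (-(4 * (R - 1 / 8))) = Real.exp (1 / 2) * Real.exp (-(4 * R)) := by
    rw [← Real.exp_add]; congr 1; ring
  have h2 : Real.sqrt (R - 1 / 8) ≤ Real.sqrt R := Real.sqrt_le_sqrt (by linarith)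
  rw [betaF, betaF, h1]
  have h3 := GradE_exp_half
  have h4 := Real.exp_pos (-(4 * R))
  have h5 := Real.sqrt_nonneg R
  have h6 := Real.exp_pos (1 / 2 : ℝ)
  calc Real.exp (1 / 2) * Real.exp (-(4 * R)) * Real.sqrt (R - 1 / 8)
      ≤ 2 * Real.exp (-(4 * R)) * Real.sqrt R := by
        apply mul_le_mul _ h2 (Real.sqrt_nonneg _) (by positivity)
        apply mul_le_mul_of_nonneg_right _ h4.le
        linarith
    _ = _ := by ring

private theorem GradE_EE {R : ℝ} (hR : 2 ≤ R) : EE (R - 1 / 8) ≤ 2 * EE R := by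
  have h1 : Real.exp (-(4 * (R - 1 / 8))) = Real.exp (1 / 2) * Real.exp (-(4 * R)) := by
    rw [← Real.exp_add]; congr 1; ring
  have hR' : 0 < R - 1 / 8 := by linarith
  have h2 : Real.sqrt R ≤ 11 / 10 * Real.sqrt (R - 1 / 8) := by
    have e : (11 / 10 : ℝ) * Real.sqrt (R - 1 / 8) = Real.sqrt ((11 / 10) ^ 2 * (R - 1 / 8)) := by
      rw [Real.sqrt_mul (by norm_num), Real.sqrt_sq (by norm_num)]
    rw [e]
    apply Real.sqrt_le_sqrt
    nlinarith
  have h3 := GradE_exp_half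
  have h4 := Real.exp_pos (-(4 * R))
  have h5 : 0 < Real.sqrt R := Real.sqrt_pos.mpr (by linarith)
  have h6 : 0 < Real.sqrt (R - 1 / 8) := Real.sqrt_pos.mpr hR'
  rw [EE, EE, h1, mul_div_assoc', div_le_div_iff₀ h6 h5]
  calc Real.exp (1 / 2) * Real.exp (-(4 * R)) * Real.sqrt R
      ≤ (17 / 10) * Real.exp (-(4 * R)) * (11 / 10 * Real.sqrt (R - 1 / 8)) := by
        apply mul_le_mul _ h2 h5.le (by positivity)
        exact mul_le_mul_of_nonneg_right h3 h4.le
    _ = (187 / 100) * (Real.exp (-(4 * R)) * Real.sqrt (R - 1 / 8)) := by ring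
    _ ≤ 2 * (Real.exp (-(4 * R)) * Real.sqrt (R - 1 / 8)) := by
        apply mul_le_mul_of_nonneg_right (by norm_num) (by positivity)
    _ = _ := by ring

private theorem GradE_EE_le {R : ℝ} (hR : 2 ≤ R) : 0 < EE R ∧ EE R ≤ betaF R ∧ EE R ≤ 1 / 400 := by
  have h4 := Real.exp_pos (-(4 * R))
  have h5 : 1 ≤ Real.sqrt R := by
    rw [Real.one_le_sqrt]; linarith
  have h6 : Real.exp (-(4 * R)) ≤ Real.exp (-(8 : ℝ)) := Real.exp_le_exp.mpr (by linarith)
  have h7 : Real.exp (-(8 : ℝ)) ≤ 1 / 400 := by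
    rw [Real.exp_neg, inv_le_comm₀ (Real.exp_pos _) (by norm_num)]
    have e : Real.exp 8 = Real.exp 1 ^ 8 := by rw [← Real.exp_nat_mul]; norm_num
    have h8 := Real.exp_one_gt_d9
    rw [e]
    calc ((1 : ℝ) / 400)⁻¹ ≤ (5 / 2) ^ 8 := by norm_num
      _ ≤ Real.exp 1 ^ 8 := by gcongr; linarith
  have hs : 0 < Real.sqrt R := by linarith
  refine ⟨by rw [EE]; positivity, ?_, ?_⟩
  · rw [EE, betaF]
    calc Real.exp (-(4 * R)) / Real.sqrt R ≤ Real.exp (-(4 * R)) := div_le_self h4.le h5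
      _ ≤ _ := le_mul_of_one_le_right h4.le h5
  · rw [EE]
    calc Real.exp (-(4 * R)) / Real.sqrt R ≤ Real.exp (-(4 * R)) := div_le_self h4.le h5
      _ ≤ _ := h6.trans h7

private theorem GradE_edge {y : ℝ} (hy : |y| ≤ 1 / 2) : edge y ∈ QQ ∧ 1 / 2 ≤ ‖edge y‖ := by
  have hre : (edge y).re = 1 / 2 := by simp [edge]
  have him : (edge y).im = y := by simp [edge]
  refine ⟨⟨by rw [hre, abs_of_nonneg] <;> norm_num, by rw [him]; exact hy⟩, ?_⟩
  have := abs_re_le_norm (edge y)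
  rw [hre, abs_of_nonneg (by norm_num)] at this
  exact this

/-- gradient bounds on the right edge (`grad_est` with `d = 1/(16t)`, `v_upper'`, `f_upper'`) -/
theorem grad_edge : ∃ C : ℝ, 0 < C ∧ ∀ (γ t : ℝ) (v f : ℂ → ℝ), 0 < γ → γ ≤ 1 / 8 → 4 ≤ t →
    Sol γ t v → LinSol t v f → ∀ y : ℝ, |y| ≤ 1 / 2 →
    |dy v (edge y)| ≤ C * (t * EE (t * ‖edge y‖)) ∧
    |dy f (edge y)| ≤ C * (t * betaF (t * ‖edge y‖)) := by
  obtain ⟨C, hC, hfu⟩ := f_upper'
  refine ⟨66 * C + 128 + 5610, by positivity, ?_⟩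
  intro γ t v f hγ hγ' ht hv hf y hy
  obtain ⟨hQ, hn⟩ := GradE_edge hy
  set w := edge y with hw
  set R := t * ‖w‖ with hR
  have ht0 : 0 < t := by linarith
  have hR2 : 2 ≤ R := by
    rw [hR]; nlinarith
  have hd : 0 < 1 / (16 * t) := by positivity
  have hdist : ∀ z ∈ Metric.ball w (2 * (1 / (16 * t))), ∀ l ∈ ZI, R - 1 / 8 ≤ t * ‖z - l‖ := by
    intro z hz l hl
    rw [mem_ball_iff_norm] at hz
    have h1 : ‖w - l‖ ≤ ‖z - l‖ + ‖z - w‖ := by
      have := norm_sub_le (z - l) (z - w)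
      have e : z - l - (z - w) = w - l := by ring
      rwa [e] at this
    have h2 : ‖w‖ ≤ ‖w - l‖ := norm_le_of_mem_QQ hQ hl
    have h3 : t * ‖z - w‖ ≤ 1 / 8 := by
      calc t * ‖z - w‖ ≤ t * (2 * (1 / (16 * t))) := mul_le_mul_of_nonneg_left hz.le ht0.le
        _ = 1 / 8 := by field_simp; norm_num
    have h4 : t * ‖w‖ ≤ t * (‖z - l‖ + ‖z - w‖) :=
      mul_le_mul_of_nonneg_left (h2.trans h1) ht0.le
    rw [hR]
    linarith
  have hZ : ∀ z ∈ Metric.ball w (2 * (1 / (16 * t))), z ∈ ZIᶜ := by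
    intro z hz hzZ
    have := hdist z hz z hzZ
    rw [sub_self, norm_zero, mul_zero] at this
    linarith
  have hEE := GradE_EE hR2
  obtain ⟨hE0, hE1, hE2⟩ := GradE_EE_le hR2
  have hbeta := GradE_beta hR2
  have hvz : ∀ z ∈ Metric.ball w (2 * (1 / (16 * t))), 0 ≤ v z ∧ v z ≤ 170 * EE R := by
    intro z hz
    refine ⟨v_nonneg hγ (by linarith) hv z, ?_⟩
    have := v_upper' hγ hγ' ht hv (R := R - 1 / 8) (by linarith) (hdist z hz)
    linarith
  have hfz : ∀ z ∈ Metric.ball w (2 * (1 / (16 * t))), |f z| ≤ 2 * C * betaF R := by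
    intro z hz
    have h1 := hfu γ t v f hγ hγ' ht hv hf z (R - 1 / 8) (by linarith) (hdist z hz)
    have h2 := f_nonpos hγ (by linarith : (1 : ℝ) ≤ t) hv hf z
    rw [abs_of_nonpos h2]
    calc -f z ≤ C * betaF (R - 1 / 8) := h1
      _ ≤ C * (2 * betaF R) := mul_le_mul_of_nonneg_left hbeta hC.le
      _ = _ := by ring
  have hsin : ∀ z ∈ Metric.ball w (2 * (1 / (16 * t))),
      0 ≤ Real.sinh (2 * v z) ∧ Real.sinh (2 * v z) ≤ 510 * EE R := by
    intro z hz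
    obtain ⟨h1, h2⟩ := hvz z hz
    obtain ⟨h3, h4⟩ := GradE_sinh (x := 2 * v z) (by linarith) (by linarith)
    exact ⟨h3, by linarith⟩
  have hcos : ∀ z ∈ Metric.ball w (2 * (1 / (16 * t))),
      0 ≤ Real.cosh (2 * v z) ∧ Real.cosh (2 * v z) ≤ 2 := by
    intro z hz
    obtain ⟨h1, h2⟩ := hvz z hz
    exact GradE_cosh (by linarith) (by linarith)
  have hsv : ContDiffOn ℝ 2 v ZIᶜ := hv.smooth.of_le ENat.LEInfty.out
  have hsf : ContDiffOn ℝ 2 f ZIᶜ := hf.smooth.of_le ENat.LEInfty.out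
  have ht2 : 0 < t ^ 2 := by positivity
  have hb0 : 0 < betaF R := lt_of_lt_of_le hE0 hE1
  have kv := (grad_est (u := v) (M := 170 * EE R) (F := 8 * t ^ 2 * (510 * EE R)) hd
    (hsv.mono hZ) (fun z hz => by rw [abs_of_nonneg (hvz z hz).1]; exact (hvz z hz).2)
    (fun z hz => by
      rw [hv.pde z (hZ z hz), abs_of_nonneg (mul_nonneg (by positivity) (hsin z hz).1)]
      exact mul_le_mul_of_nonneg_left (hsin z hz).2 (by positivity))).2
  have kf := (grad_est (u := f) (M := 2 * C * betaF R)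
    (F := 16 * t ^ 2 * 2 * (2 * C * betaF R) + 8 * t ^ 2 * (510 * EE R)) hd
    (hsf.mono hZ) hfz (fun z hz => by
      rw [hf.pde z (hZ z hz)]
      refine (abs_add_le _ _).trans (add_le_add ?_ ?_)
      · rw [abs_mul, abs_of_nonneg (mul_nonneg (by positivity) (hcos z hz).1)]
        exact mul_le_mul (mul_le_mul_of_nonneg_left (hcos z hz).2 (by positivity)) (hfz z hz)
          (abs_nonneg _) (by positivity)
      · rw [abs_of_nonneg (mul_nonneg (by positivity) (hsin z hz).1)]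
        exact mul_le_mul_of_nonneg_left (hsin z hz).2 (by positivity))).2
  refine ⟨kv.trans ?_, kf.trans ?_⟩
  · have e : 2 * (170 * EE R) / (1 / (16 * t)) + 1 / (16 * t) * (8 * t ^ 2 * (510 * EE R)) / 2 =
        (5440 + 510 / 4) * (t * EE R) := by
      field_simp
      ring
    rw [e]
    apply mul_le_mul_of_nonneg_right _ (by positivity)
    linarith
  · have e : 2 * (2 * C * betaF R) / (1 / (16 * t)) + 1 / (16 * t) *
        (16 * t ^ 2 * 2 * (2 * C * betaF R) + 8 * t ^ 2 * (510 * EE R)) / 2 =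
        (66 * C) * (t * betaF R) + 510 / 4 * (t * EE R) := by
      field_simp
      ring
    rw [e]
    have h1 : t * EE R ≤ t * betaF R := mul_le_mul_of_nonneg_left hE1 ht0.le
    have h2 : 0 < t * betaF R := by positivity
    nlinarith

end GM16
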