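import Pool.Agent.LibGM16.Pohoz
import Pool.Agent.LibGM16.GradE
import Pool.Agent.LibGM16.VUp
import Pool.Agent.LibGM16.FUp
import Pool.Agent.LibGM16.Sign

open Complex MeasureTheory Filter Topology Matrix
open scoped ContDiff Real ComplexOrder

namespace GM16

variable {γ t : ℝ} {v v' f f' : ℂ → ℝ}

namespace DDupAux

theorem norm_edge_sq (y : ℝ) : ‖edge y‖ ^ 2 = 1 / 4 + y ^ 2 := by
  rw [← Complex.normSq_eq_norm_sq, Complex.normSq_apply]
  simp [edge]
  ring

theorem half_le_norm_edge (y : ℝ) : 1 / 2 ≤ ‖edge y‖ := by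
  have h := norm_edge_sq y
  nlinarith [norm_nonneg (edge y), sq_nonneg y]

theorem le_norm_edge {y : ℝ} (hy : |y| ≤ 1 / 2) : 1 / 2 + y ^ 2 / 2 ≤ ‖edge y‖ := by
  have h := norm_edge_sq y
  have h2 : y ^ 2 ≤ 1 / 4 := by
    rw [← sq_abs]
    nlinarith [abs_nonneg y]
  refine abs_le_of_sq_le_sq' ?_ (norm_nonneg _) |>.2
  rw [h]
  nlinarith [sq_nonneg y]

theorem edge_mem_QQ {y : ℝ} (hy : |y| ≤ 1 / 2) : edge y ∈ QQ := by
  constructor
  · simp [edge]
  · simpa [edge] using hy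

theorem sinh_le_two_mul {x : ℝ} (h0 : 0 ≤ x) (h1 : x ≤ 1) : Real.sinh x ≤ 2 * x := by
  have h2 := Real.abs_exp_sub_one_sub_id_le (x := x) (by rw [abs_of_nonneg h0]; exact h1)
  have h3 := Real.add_one_le_exp (-x)
  rw [Real.sinh_eq]
  have h4 := (abs_le.1 h2).2
  nlinarith

theorem EE_mul_betaF {R : ℝ} (hR : 0 < R) : EE R * betaF R = Real.exp (-(8 * R)) := by
  have hs : 0 < Real.sqrt R := Real.sqrt_pos.2 hR
  unfold EE betaF
  rw [show -(8 * R) = -(4 * R) + -(4 * R) by ring, Real.exp_add]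
  field_simp

theorem exp_neg8_le : Real.exp (-8) ≤ 1 / 256 := by
  have h1 : (2 : ℝ) ≤ Real.exp 1 := by
    have := Real.add_one_le_exp (1 : ℝ)
    linarith
  have h2 : (256 : ℝ) ≤ Real.exp 8 := by
    have h3 : Real.exp 8 = Real.exp 1 ^ 8 := by
      rw [← Real.exp_nat_mul]
      norm_num
    rw [h3]
    calc (256 : ℝ) = 2 ^ 8 := by norm_num
      _ ≤ Real.exp 1 ^ 8 := pow_le_pow_left₀ (by norm_num) h1 8
  rw [Real.exp_neg, ← one_div]
  exact one_div_le_one_div_of_le (by norm_num) h2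

theorem EE_le {R : ℝ} (hR : 2 ≤ R) : EE R ≤ 1 / 256 := by
  have hs : 1 ≤ Real.sqrt R := by
    rw [show (1 : ℝ) = Real.sqrt 1 by simp]
    exact Real.sqrt_le_sqrt (by linarith)
  unfold EE
  calc Real.exp (-(4 * R)) / Real.sqrt R ≤ Real.exp (-(4 * R)) / 1 := by
        apply div_le_div_of_nonneg_left (Real.exp_pos _).le (by norm_num) hs
    _ = Real.exp (-(4 * R)) := by ring
    _ ≤ Real.exp (-8) := Real.exp_le_exp.2 (by linarith)
    _ ≤ 1 / 256 := exp_neg8_le

theorem EE_nonneg {R : ℝ} : 0 ≤ EE R := by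
  unfold EE
  positivity

theorem betaF_nonneg {R : ℝ} : 0 ≤ betaF R := by
  unfold betaF
  positivity

end DDupAux

open DDupAux in
theorem DD_upper (hγ : 0 < γ) (hγ' : γ ≤ 1 / 8) : ∃ C : ℝ, 0 < C ∧
    ∀ (t : ℝ) (v f : ℂ → ℝ), 4 ≤ t → Sol γ t v → LinSol t v f →
      -DD t v f ≤ C * (t ^ (3 / 2 : ℝ) * Real.exp (-(4 * t))) := by
  obtain ⟨C1, hC1, h1⟩ := grad_edge
  obtain ⟨C2, hC2, h2⟩ := f_upper
  refine ⟨2 * (C1 ^ 2 + 2720 * C2), by positivity, ?_⟩
  intro t v f ht hv hf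
  have ht0 : 0 < t := by linarith
  rw [pohozaev hγ hγ' (by linarith) hv hf]
  set C0 : ℝ := C1 ^ 2 + 2720 * C2 with hC0
  have hC0pos : 0 < C0 := by positivity
  set F : ℝ → ℝ := fun y => dy v (edge y) * dy f (edge y) + Psi t v f (edge y) with hF
  have key : ∀ y ∈ Set.Icc (-(1 / 2) : ℝ) (1 / 2),
      -F y ≤ C0 * t ^ 2 * Real.exp (-(4 * t)) * Real.exp (-(4 * t) * y ^ 2) := by
    intro y hy
    have hy' : |y| ≤ 1 / 2 := abs_le.2 ⟨by linarith [hy.1], hy.2⟩
    have hQ := edge_mem_QQ hy'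
    have hn := half_le_norm_edge y
    set R : ℝ := t * ‖edge y‖ with hR
    have hR2 : 2 ≤ R := by
      rw [hR]
      nlinarith
    have hR0 : 0 < R := by linarith
    have hg := h1 γ t v f hγ hγ' ht hv hf y hy'
    have hb := h2 γ t v f hγ hγ' ht hv hf (edge y) hQ (by rw [← hR]; linarith)
    have hvu := v_upper hγ hγ' ht hv hQ (by rw [← hR]; linarith)
    rw [← hR] at hg hb hvu
    have hv0 := v_nonneg hγ (by linarith : (1 : ℝ) ≤ t) hv (edge y)
    have hf0 := f_nonpos hγ (by linarith : (1 : ℝ) ≤ t) hv hf (edge y)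
    have hE := EE_le hR2
    have hEn : 0 ≤ EE R := EE_nonneg
    have hBn : 0 ≤ betaF R := betaF_nonneg
    have hEB := EE_mul_betaF hR0
    have hsinh : Real.sinh (2 * v (edge y)) ≤ 340 * EE R := by
      have := sinh_le_two_mul (x := 2 * v (edge y)) (by linarith) (by linarith)
      linarith
    have hsinh0 : 0 ≤ Real.sinh (2 * v (edge y)) := Real.sinh_nonneg_iff.2 (by linarith)
    have hcosh : 0 ≤ Real.cosh (2 * v (edge y)) - 1 := by
      linarith [Real.one_le_cosh (2 * v (edge y))]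
    have hprod : |dy v (edge y)| * |dy f (edge y)| ≤ C1 ^ 2 * t ^ 2 * Real.exp (-(8 * R)) := by
      calc |dy v (edge y)| * |dy f (edge y)|
          ≤ (C1 * (t * EE R)) * (C1 * (t * betaF R)) :=
            mul_le_mul hg.1 hg.2 (abs_nonneg _) (by positivity)
        _ = C1 ^ 2 * t ^ 2 * (EE R * betaF R) := by ring
        _ = _ := by rw [hEB]
    have hprod2 : -(dy v (edge y) * dy f (edge y)) ≤ C1 ^ 2 * t ^ 2 * Real.exp (-(8 * R)) := by
      refine le_trans ?_ hprod
      rw [← abs_mul]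
      exact neg_le_abs _
    have hfs : -f (edge y) * Real.sinh (2 * v (edge y)) ≤ (C2 * betaF R) * (340 * EE R) :=
      mul_le_mul hb hsinh hsinh0 (by positivity)
    have hPsi : -Psi t v f (edge y) ≤ 2720 * C2 * t ^ 2 * Real.exp (-(8 * R)) := by
      unfold Psi
      have e1 : -(8 * t ^ 2 * f (edge y) * Real.sinh (2 * v (edge y)) +
          4 * t ^ 2 * (Real.cosh (2 * v (edge y)) - 1)) =
          8 * t ^ 2 * (-f (edge y) * Real.sinh (2 * v (edge y))) -
          4 * t ^ 2 * (Real.cosh (2 * v (edge y)) - 1) := by ring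
      rw [e1]
      have e2 : 0 ≤ 4 * t ^ 2 * (Real.cosh (2 * v (edge y)) - 1) := by positivity
      have e3 : 8 * t ^ 2 * (-f (edge y) * Real.sinh (2 * v (edge y))) ≤
          8 * t ^ 2 * ((C2 * betaF R) * (340 * EE R)) :=
        mul_le_mul_of_nonneg_left hfs (by positivity)
      have e4 : 8 * t ^ 2 * ((C2 * betaF R) * (340 * EE R)) =
          2720 * C2 * t ^ 2 * (EE R * betaF R) := by ring
      rw [e4, hEB] at e3
      linarith
    have hexp : Real.exp (-(8 * R)) ≤ Real.exp (-(4 * t)) * Real.exp (-(4 * t) * y ^ 2) := by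
      rw [← Real.exp_add]
      apply Real.exp_le_exp.2
      have := le_norm_edge hy'
      rw [hR]
      nlinarith
    have hs : -F y ≤ C0 * t ^ 2 * Real.exp (-(8 * R)) := by
      have : -F y = -(dy v (edge y) * dy f (edge y)) + -Psi t v f (edge y) := by
        simp only [hF]
        ring
      rw [this, hC0]
      linarith
    calc -F y ≤ C0 * t ^ 2 * Real.exp (-(8 * R)) := hs
      _ ≤ C0 * t ^ 2 * (Real.exp (-(4 * t)) * Real.exp (-(4 * t) * y ^ 2)) :=
          mul_le_mul_of_nonneg_left hexp (by positivity)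
      _ = _ := by ring
  have hint : Integrable (fun y : ℝ => Real.exp (-(4 * t) * y ^ 2)) :=
    integrable_exp_neg_mul_sq (by linarith)
  have hgauss : ∫ y in (-(1 / 2) : ℝ)..(1 / 2), Real.exp (-(4 * t) * y ^ 2) ≤ 1 / Real.sqrt t := by
    rw [intervalIntegral.integral_of_le (by norm_num)]
    calc ∫ y in Set.Ioc (-(1 / 2) : ℝ) (1 / 2), Real.exp (-(4 * t) * y ^ 2)
        ≤ ∫ y : ℝ, Real.exp (-(4 * t) * y ^ 2) :=
          setIntegral_le_integral hint (ae_of_all _ fun y => (Real.exp_pos _).le)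
      _ = Real.sqrt (π / (4 * t)) := integral_gaussian (4 * t)
      _ ≤ Real.sqrt (1 / t) := by
          apply Real.sqrt_le_sqrt
          rw [div_le_div_iff₀ (by positivity) ht0]
          nlinarith [Real.pi_le_four]
      _ = 1 / Real.sqrt t := by
          rw [Real.sqrt_div (by norm_num), Real.sqrt_one]
  have hpow : t ^ 2 * (1 / Real.sqrt t) = t ^ (3 / 2 : ℝ) := by
    rw [Real.sqrt_eq_rpow, ← Real.rpow_natCast t 2, one_div, ← Real.rpow_neg ht0.le,
      ← Real.rpow_add ht0]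
    norm_num
  have hmain : -∫ y in (-(1 / 2) : ℝ)..(1 / 2), F y ≤
      C0 * (t ^ (3 / 2 : ℝ) * Real.exp (-(4 * t))) := by
    by_cases hFi : IntervalIntegrable F volume (-(1 / 2)) (1 / 2)
    · rw [← intervalIntegral.integral_neg]
      calc ∫ y in (-(1 / 2) : ℝ)..(1 / 2), -F y
          ≤ ∫ y in (-(1 / 2) : ℝ)..(1 / 2),
              C0 * t ^ 2 * Real.exp (-(4 * t)) * Real.exp (-(4 * t) * y ^ 2) := by
            apply intervalIntegral.integral_mono_on (by norm_num) hFi.neg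
              ((hint.intervalIntegrable).const_mul _)
            exact key
        _ = C0 * t ^ 2 * Real.exp (-(4 * t)) *
              ∫ y in (-(1 / 2) : ℝ)..(1 / 2), Real.exp (-(4 * t) * y ^ 2) := by
            rw [intervalIntegral.integral_const_mul]
        _ ≤ C0 * t ^ 2 * Real.exp (-(4 * t)) * (1 / Real.sqrt t) :=
            mul_le_mul_of_nonneg_left hgauss (by positivity)
        _ = C0 * ((t ^ 2 * (1 / Real.sqrt t)) * Real.exp (-(4 * t))) := by ring
        _ = _ := by rw [hpow]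
    · rw [intervalIntegral.integral_undef hFi, neg_zero]
      positivity
  calc -(2 * ∫ y in (-(1 / 2) : ℝ)..(1 / 2), F y)
      = 2 * -∫ y in (-(1 / 2) : ℝ)..(1 / 2), F y := by ring
    _ ≤ 2 * (C0 * (t ^ (3 / 2 : ℝ) * Real.exp (-(4 * t)))) := by linarith
    _ = _ := by ring

end GM16
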