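import Mathlib

/-!
# MP_6f982c_gt : definitions

Parabolic Higgs bundles on `ℙ¹`, harmonic metrics, the gauge equation for `ν`, the (semi)flat norm,
closed geodesics of `|λ|` on the spectral curve.
-/

open Complex MeasureTheory Filter Topology Matrix
open scoped ContDiff Real ComplexOrder

namespace GM16

noncomputable section

/-- Complex `2 × 2` matrices. -/
abbrev Mat := Matrix (Fin 2) (Fin 2) ℂ

/-! ## Calculus on the plane -/

/-- `∂f/∂x`. -/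
def dx {F : Type*} [NormedAddCommGroup F] [NormedSpace ℝ F] (f : ℂ → F) (z : ℂ) : F :=
  fderiv ℝ f z 1

/-- `∂f/∂y`. -/
def dy {F : Type*} [NormedAddCommGroup F] [NormedSpace ℝ F] (f : ℂ → F) (z : ℂ) : F :=
  fderiv ℝ f z I

/-- The Laplacian `f_xx + f_yy` of a real valued function on the plane. -/
def lap (f : ℂ → ℝ) (z : ℂ) : ℝ := dx (dx f) z + dy (dy f) z

/-- The Wirtinger derivative `∂f/∂z = (f_x - i f_y)/2` of a complex valued function. -/
def dz (f : ℂ → ℂ) (z : ℂ) : ℂ := (dx f z - I * dy f z) / 2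

/-- The Wirtinger derivative `∂f/∂z̄ = (f_x + i f_y)/2` of a complex valued function. -/
def dzb (f : ℂ → ℂ) (z : ℂ) : ℂ := (dx f z + I * dy f z) / 2

/-- `∂/∂z` of a matrix valued function, entry by entry. -/
def mdz (f : ℂ → Mat) (z : ℂ) : Mat := Matrix.of fun i j => dz (fun w => f w i j) z

/-- `∂/∂z̄` of a matrix valued function, entry by entry. -/
def mdzb (f : ℂ → Mat) (z : ℂ) : Mat := Matrix.of fun i j => dzb (fun w => f w i j) z

/-! ## Parabolic Higgs bundles on `ℙ¹ = ℂ ∪ {∞}`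

Points of `ℙ¹` are elements of `Option ℂ`; `none` is `∞`. -/

/-- The local coordinate centred at `p`: `z - a` at `a ∈ ℂ`, and `ζ = 1/z` at `∞`. -/
def coord (p : Option ℂ) (z : ℂ) : ℂ :=
  match p with
  | none => z⁻¹
  | some a => z - a

/-- `ζ · dz/dζ`, where `ζ = coord p`: it is `z - a` at `a`, and `- z` at `∞`. If `φ = A dz` then
`φ = (A · dz/dζ) dζ`, so `resFactor p • A` tends to the residue of `φ` at `p`. -/
def resFactor (p : Option ℂ) (z : ℂ) : ℂ :=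
  match p with
  | none => -z
  | some a => z - a

/-- Punctured neighbourhoods of a point of `ℙ¹`. -/
def nhdP (p : Option ℂ) : Filter ℂ :=
  match p with
  | none => cocompact ℂ
  | some a => 𝓝[≠] a

/-- A rank two bundle `E` on `ℙ¹` with Higgs field and parabolic structure at the points of
`D ∪ {∞}`, `D ⊂ ℂ` finite. `E` is given over `U = ℂ \ D` by a holomorphic frame `(e₁, e₂)`, in which
`φ = A dz`. Near a marked point `p` the bundle `E` is given by another frame `(f₁, f₂)`: the columns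
of `G p z` are the coordinates of `f₁, f₂` with respect to `(e₁, e₂)`. The flag of `E_p` is the line
spanned by `f₁(p)`. Vectors in the flag have weight `α₂ p`, the others have weight `α₁ p`. -/
structure ParHiggs where
  /-- the finite marked points; `∞` is also a marked point -/
  D : Set ℂ
  /-- `φ = A dz` -/
  A : ℂ → Mat
  /-- frames at the marked points -/
  G : Option ℂ → ℂ → Mat
  /-- the smaller weight -/
  α₁ : Option ℂ → ℝ
  /-- the larger weight, the weight of the flag -/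
  α₂ : Option ℂ → ℝ

namespace ParHiggs

variable (E : ParHiggs)

/-- The complement of the marked points. -/
def U : Set ℂ := {z | z ∉ E.D}

/-- The set of all marked points. -/
def pts : Set (Option ℂ) := {p | p = none ∨ ∃ a ∈ E.D, p = some a}

/-- `E` is a strongly parabolic `SL(2,ℂ)` Higgs bundle on `ℙ¹` (with `det E = O(-marked points)` and
`α₁ + α₂ = 1` at each marked point, so that the parabolic degree is `0`). -/
structure Valid : Prop where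
  finite : E.D.Finite
  /-- `A` is holomorphic on `U` -/
  hol : ∀ i j, DifferentiableOn ℂ (fun z => E.A z i j) E.U
  /-- `A` is trace free -/
  tracefree : ∀ z ∈ E.U, (E.A z).trace = 0
  /-- the frames at the marked points are holomorphic frames on punctured neighbourhoods -/
  frame : ∀ p ∈ E.pts, ∀ᶠ z in nhdP p,
    (∀ i j, DifferentiableAt ℂ (fun w => E.G p w i j) z) ∧ (E.G p z).det ≠ 0
  /-- `f₁ ∧ f₂ = (unit) ζ e₁ ∧ e₂`, i.e. `e₁ ∧ e₂` is a frame of `(det E)(marked points)` -/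
  det : ∀ p ∈ E.pts, ∃ c : ℂ, c ≠ 0 ∧ Tendsto (fun z => (E.G p z).det / coord p z) (nhdP p) (𝓝 c)
  weights : ∀ p ∈ E.pts, 0 < E.α₁ p ∧ E.α₁ p < E.α₂ p ∧ E.α₂ p < 1 ∧ E.α₁ p + E.α₂ p = 1
  /-- `φ` has at most a simple pole at `p`; its residue maps `f₁` to `0` and `f₂` to a multiple
  of `f₁`, i.e. it is nilpotent with respect to the flag -/
  nilpotent : ∀ p ∈ E.pts, ∃ c : ℂ,
    Tendsto (fun z => resFactor p z • ((E.G p z)⁻¹ * E.A z * E.G p z)) (nhdP p)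
      (𝓝 !![0, c; 0, 0])

/-- `det φ` has only simple zeros, as a section of `K²(marked points)`: its zeros in `U` are simple,
and it has simple poles at the marked points (in the coordinate `ζ`, `det φ = det A (dz/dζ)² dζ²`). -/
structure Regular : Prop where
  zeros : ∀ z ∈ E.U, (E.A z).det = 0 → deriv (fun w => (E.A w).det) z ≠ 0
  poles : ∀ p ∈ E.pts, ∃ c : ℂ, c ≠ 0 ∧
    Tendsto (fun z => (resFactor p z) ^ 2 * (E.A z).det / coord p z) (nhdP p) (𝓝 c)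

/-- `ℓ` is a (continuous) line subbundle of `E` over `U` which is invariant under `φ`. -/
def InvariantLine (ℓ : ℂ → Submodule ℂ (Fin 2 → ℂ)) : Prop :=
  ∀ z ∈ E.U, Module.finrank ℂ (ℓ z) = 1 ∧ (∀ x ∈ ℓ z, E.A z *ᵥ x ∈ ℓ z) ∧
    ∃ s : ℂ → Fin 2 → ℂ, ∀ᶠ w in 𝓝 z, ContinuousAt s w ∧ s w ≠ 0 ∧ s w ∈ ℓ w

/-- `(η dz̄, ψ dz)` is a tangent vector at `E`: `∂̄ψ + [η, A] = 0`, both are trace free, `η` vanishes
near the marked points, and `ψ` is strongly parabolic. -/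
structure Tangent (η ψ : ℂ → Mat) : Prop where
  smoothη : ∀ i j, ContDiffOn ℝ ∞ (fun z => η z i j) E.U
  smoothψ : ∀ i j, ContDiffOn ℝ ∞ (fun z => ψ z i j) E.U
  eq : ∀ z ∈ E.U, mdzb ψ z + (η z * E.A z - E.A z * η z) = 0
  tracefree : ∀ z ∈ E.U, (η z).trace = 0 ∧ (ψ z).trace = 0
  near : ∀ p ∈ E.pts, ∀ᶠ z in nhdP p, η z = 0
  parabolic : ∀ p ∈ E.pts, ∃ c : ℂ,
    Tendsto (fun z => resFactor p z • ((E.G p z)⁻¹ * ψ z * E.G p z)) (nhdP p) (𝓝 !![0, c; 0, 0])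

end ParHiggs

/-- The adjoint of `B` with respect to the hermitian metric `⟨x, y⟩ = y* h x`. -/
def hadj (h B : Mat) : Mat := h⁻¹ * Bᴴ * h

/-- `|x|²_h = x* h x`. -/
def hnorm2 (h : Mat) (x : Fin 2 → ℂ) : ℝ := (star x ⬝ᵥ (h *ᵥ x)).re

namespace ParHiggs

variable (E : ParHiggs)

/-- The metric `h` is adapted to the weights at `p`: in the frame `(f₁, f₂)` it is mutually bounded
with `diag(|ζ|^{2 α₂}, |ζ|^{2 α₁})`. -/
def Adapted (p : Option ℂ) (h : ℂ → Mat) : Prop :=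
  ∃ c C : ℝ, 0 < c ∧ 0 < C ∧ ∀ᶠ z in nhdP p, ∀ x : Fin 2 → ℂ,
    c * (‖x 0‖ ^ 2 * ‖coord p z‖ ^ (2 * E.α₂ p) + ‖x 1‖ ^ 2 * ‖coord p z‖ ^ (2 * E.α₁ p))
      ≤ hnorm2 (h z) (E.G p z *ᵥ x) ∧
    hnorm2 (h z) (E.G p z *ᵥ x) ≤
    C * (‖x 0‖ ^ 2 * ‖coord p z‖ ^ (2 * E.α₂ p) + ‖x 1‖ ^ 2 * ‖coord p z‖ ^ (2 * E.α₁ p))

/-- `h` is a harmonic metric of `(E, t φ)`, of determinant one in the frame `e₁ ∧ e₂`, adapted to
the weights. With `∂ʰ = ∂ + h⁻¹ ∂h`, curvature `F = -∂_z̄(h⁻¹ ∂_z h) dz ∧ dz̄` and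
`[φ, φ*] = (A A* - A* A) dz ∧ dz̄`, the equation is `F + t² [φ, φ*] = 0`. -/
structure Harmonic (t : ℝ) (h : ℂ → Mat) : Prop where
  smooth : ∀ i j, ContDiffOn ℝ ∞ (fun z => h z i j) E.U
  posDef : ∀ z ∈ E.U, (h z).PosDef
  det : ∀ z ∈ E.U, (h z).det = 1
  eq : ∀ z ∈ E.U, mdzb (fun w => (h w)⁻¹ * mdz h w) z =
    ((t ^ 2 : ℝ) : ℂ) • (E.A z * hadj (h z) (E.A z) - hadj (h z) (E.A z) * E.A z)
  adapted : ∀ p ∈ E.pts, E.Adapted p h

/-- `L_h(ν) = ∂ʰ(∂̄ν - η)`, as a multiple of `dz ∧ dz̄`. -/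
def Lop (h η ν : ℂ → Mat) (z : ℂ) : Mat :=
  mdz (fun w => mdzb ν w - η w) z +
    (((h z)⁻¹ * mdz h z) * (mdzb ν z - η z) - (mdzb ν z - η z) * ((h z)⁻¹ * mdz h z))

/-- `R_h(ν) = [φ*, ψ + [ν, φ]]`, as a multiple of `dz ∧ dz̄`. -/
def Rop (h ψ ν : ℂ → Mat) (z : ℂ) : Mat :=
  (ψ z + (ν z * E.A z - E.A z * ν z)) * hadj (h z) (E.A z) -
    hadj (h z) (E.A z) * (ψ z + (ν z * E.A z - E.A z * ν z))

/-- `ν` is a smooth, trace free section of `End E`, bounded with respect to `h`. -/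
structure Admissible (h ν : ℂ → Mat) : Prop where
  smooth : ∀ i j, ContDiffOn ℝ ∞ (fun z => ν z i j) E.U
  tracefree : ∀ z ∈ E.U, (ν z).trace = 0
  bounded : ∃ C : ℝ, ∀ z ∈ E.U, ((ν z * hadj (h z) (ν z)).trace).re ≤ C

/-- `ν` solves `L_h(ν) = t² R_h(ν)`. -/
structure Gauge (t : ℝ) (h η ψ ν : ℂ → Mat) : Prop where
  adm : E.Admissible h ν
  eq : ∀ z ∈ E.U, Lop h η ν z = ((t ^ 2 : ℝ) : ℂ) • E.Rop h ψ ν z

/-- `ν` solves `L_h(ν) = 0 = R_h(ν)`. -/
structure GaugeInf (h η ψ ν : ℂ → Mat) : Prop where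
  adm : E.Admissible h ν
  eqL : ∀ z ∈ E.U, Lop h η ν z = 0
  eqR : ∀ z ∈ E.U, E.Rop h ψ ν z = 0

/-- `N_{h,t}(ν) = 2 ∫ (⟨η - ∂̄ν, η⟩_h + t² ⟨ψ + [ν, φ], ψ⟩_h)` (its real part); here
`|dz|² = |dz̄|² = 2`, and `⟨X dz, Y dz⟩_h = 2 tr(X Y*)`. -/
def NN (t : ℝ) (h η ψ ν : ℂ → Mat) : ℝ :=
  2 * ∫ z : ℂ, 2 * (((η z - mdzb ν z) * hadj (h z) (η z)).trace +
    (t : ℂ) ^ 2 * ((ψ z + (ν z * E.A z - E.A z * ν z)) * hadj (h z) (ψ z)).trace).re

/-! ### The spectral curve and its closed geodesics -/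

/-- `Σ_b - π⁻¹(marked points)`: pairs `(z, y)` with `y² = - det A(z)`; the tautological form is
`λ = y dz`. -/
abbrev Sig : Type := {p : ℂ × ℂ // p.1 ∈ E.U ∧ p.2 ^ 2 = - (E.A p.1).det}

/-- A closed geodesic of the flat metric `|λ|`, parametrised by `[0, 1]` with constant speed `|c|`
(for Higgs bundles such that `det φ` has no zero in `U`, so that `π` is unramified over `U`):
the local flat coordinate `∫ y dz` is an affine function with slope `c ≠ 0` of the parameter. -/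
structure ClosedGeodesic (c : ℂ) (γ : ℝ → E.Sig) : Prop where
  cont : Continuous γ
  per : ∀ s, γ (s + 1) = γ s
  ne : c ≠ 0
  geod : ∀ s, HasDerivAt (fun s => (γ s).1.1) (c / (γ s).1.2) s

/-- The length `∮ |λ|` of a closed curve (with period `1`). -/
def length (γ : ℝ → E.Sig) : ℝ :=
  ∫ s in (0 : ℝ)..1, ‖(γ s).1.2‖ * ‖deriv (fun s => (γ s).1.1) s‖

/-- The loop in the spectral curve given by a continuous map of period `1`. -/
def toPath {γ : ℝ → E.Sig} (hγ : Continuous γ) (hp : ∀ s, γ (s + 1) = γ s) : Path (γ 0) (γ 0) where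
  toFun s := γ s
  continuous_toFun := hγ.comp continuous_subtype_val
  source' := by simp
  target' := by simpa using hp 0

/-- `H₁(Σ_b - π⁻¹(D), ℤ)`, as the abelianization of the fundamental group. -/
abbrev H1 (x : E.Sig) : Type := Abelianization (FundamentalGroup E.Sig x)

/-- The homology class of a loop. -/
def cls {x : E.Sig} (l : Path x x) : E.H1 x :=
  Abelianization.of (FundamentalGroup.fromPath (Path.Homotopic.Quotient.mk l))

/-- The subgroup of `H₁(Σ_b - π⁻¹(D), ℤ)` generated by the loops which lie over the punctured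
`ε`-discs around the marked points (joined to the base point by a path `δ`). (At `∞` the condition is
`‖z⁻¹‖ < ε`; as `0⁻¹ = 0` in Lean it also admits loops over the single point `z = 0`, which are
constant, hence trivial.) -/
def peripheral (x : E.Sig) (ε : ℝ) : Subgroup (E.H1 x) :=
  Subgroup.closure {g | ∃ p ∈ E.pts, ∃ (y : E.Sig) (δ : Path x y) (l : Path y y),
    (∀ s, ‖coord p (l s).1.1‖ < ε) ∧ g = E.cls ((δ.trans l).trans δ.symm)}

/-- The class of the closed curve `γ` is not peripheral. -/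
def NonPeripheral (γ : ℝ → E.Sig) : Prop :=
  ∃ (hγ : Continuous γ) (hp : ∀ s, γ (s + 1) = γ s), ∃ ε > 0,
    E.cls (E.toPath hγ hp) ∉ E.peripheral (γ 0) ε

end ParHiggs

/-! ## The lattice `ℤ[i]` and the PDE -/

/-- The Gaussian integers. -/
def ZI : Set ℂ := {w | ∃ m n : ℤ, w = m + n * I}

/-- The lattice `T ℤ[i]`. -/
def LT (T : ℝ) : Set ℂ := {w | ∃ m n : ℤ, w = T * (m + n * I)}

/-- The lattice `2 ℤ[i]`. -/
def LL : Set ℂ := {w | ∃ m n : ℤ, w = 2 * m + 2 * n * I}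

/-- The closed unit square centred at the origin. -/
def QQ : Set ℂ := {w | |w.re| ≤ 1 / 2 ∧ |w.im| ≤ 1 / 2}

/-- `v` is the periodic solution of `Δv = 8 t² sinh 2v` with `v ~ -γ log|w|` at the lattice `ℤ[i]`. -/
structure Sol (γ t : ℝ) (v : ℂ → ℝ) : Prop where
  smooth : ContDiffOn ℝ ∞ v ZIᶜ
  pde : ∀ w ∉ ZI, lap v w = 8 * t ^ 2 * Real.sinh (2 * v w)
  perx : ∀ w, v (w + 1) = v w
  pery : ∀ w, v (w + I) = v w
  zero : ∀ w ∈ ZI, v w = 0
  sing : ∃ L : ℝ, Tendsto (fun w => v w + γ * Real.log ‖w‖) (𝓝[≠] 0) (𝓝 L)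

/-- `f` is the bounded periodic solution of the linear equation
`Δf = 16 t² cosh(2v) f + 8 t² sinh 2v`. -/
structure LinSol (t : ℝ) (v f : ℂ → ℝ) : Prop where
  smooth : ContDiffOn ℝ ∞ f ZIᶜ
  cont : Continuous f
  pde : ∀ w ∉ ZI, lap f w = 16 * t ^ 2 * Real.cosh (2 * v w) * f w + 8 * t ^ 2 * Real.sinh (2 * v w)
  perx : ∀ w, f (w + 1) = f w
  pery : ∀ w, f (w + I) = f w
  bdd : ∀ w, |f w| ≤ 1 / 4

/-- `Ψ = 8 t² f sinh 2v + 4 t² (cosh 2v - 1)`. -/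
def Psi (t : ℝ) (v f : ℂ → ℝ) (w : ℂ) : ℝ :=
  8 * t ^ 2 * f w * Real.sinh (2 * v w) + 4 * t ^ 2 * (Real.cosh (2 * v w) - 1)

/-- `D = 2 ∫_Q Ψ`. -/
def DD (t : ℝ) (v f : ℂ → ℝ) : ℝ := 2 * ∫ w in QQ, Psi t v f w

/-! ## Comparison functions -/

/-- `E(R) = e^{-4R} R^{-1/2}`. -/
def EE (R : ℝ) : ℝ := Real.exp (-(4 * R)) / Real.sqrt R

/-- `β(R) = R E(R) = e^{-4R} R^{1/2}`. -/
def betaF (R : ℝ) : ℝ := Real.exp (-(4 * R)) * Real.sqrt R

/-- `φ₊(R) = E(R) (1 - 1/(32R))`. -/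
def phiP (R : ℝ) : ℝ := EE R * (1 - 1 / (32 * R))

/-- The sum of `F(t|w - l|)` over `l = 0` (weight one) and its eight neighbours (weight two). -/
def nine (F : ℝ → ℝ) (t : ℝ) (w : ℂ) : ℝ :=
  F (t * ‖w‖) + 2 * (F (t * ‖w - 1‖) + F (t * ‖w + 1‖) + F (t * ‖w - I‖) + F (t * ‖w + I‖)
    + F (t * ‖w - (1 + I)‖) + F (t * ‖w - (1 - I)‖) + F (t * ‖w + (1 + I)‖)
    + F (t * ‖w + (1 - I)‖))

/-- The universal barrier `2 - ½ log(sin² πx + sin² πy)` at the lattice points. -/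
def om0 (w : ℂ) : ℝ := 2 - Real.log (Real.sin (π * w.re) ^ 2 + Real.sin (π * w.im) ^ 2) / 2

/-- The right edge of the square. -/
def edge (y : ℝ) : ℂ := ((1 / 2 : ℝ) : ℂ) + y * I

/-! ## Weierstrass functions of the lattice `2 ℤ[i]` and the explicit example -/

/-- The period pair `(2, 2i)`. -/
def L0 : PeriodPair where
  ω₁ := 2
  ω₂ := 2 * I
  indep := by
    rw [LinearIndependent.pair_iff]
    intro s t h
    have h1 := congrArg Complex.re h
    have h2 := congrArg Complex.im h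
    simp at h1 h2
    exact ⟨h1, h2⟩

/-- `℘`. -/
def wp (w : ℂ) : ℂ := L0.weierstrassP w

/-- `℘'`. -/
def wpd (w : ℂ) : ℂ := L0.derivWeierstrassP w

/-- `e₁ = ℘(1)`. -/
def e1 : ℂ := wp 1
/-- `e₂ = ℘(i)`. -/
def e2 : ℂ := wp I
/-- `e₃ = ℘(1+i)`. -/
def e3 : ℂ := wp (1 + I)

/-- `q(z) = 1/(4 (z-e₁)(z-e₂)(z-e₃))`, so that `q(℘(w)) = 1/℘'(w)²`. -/
def qq (z : ℂ) : ℂ := 1 / (4 * (z - e1) * (z - e2) * (z - e3))

/-- The Higgs field. -/
def AA (z : ℂ) : Mat := !![0, 1; qq z, 0]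

/-- The frames at the marked points. -/
def GG (p : Option ℂ) (z : ℂ) : Mat :=
  match p with
  | none => !![1, 0; 0, z⁻¹]
  | some a => !![z - a, 0; 0, 1]

/-- The example: four strongly parabolic points `e₁, e₂, e₃, ∞`. -/
def EX (γ : ℝ) : ParHiggs where
  D := {e1, e2, e3}
  A := AA
  G := GG
  α₁ := fun _ => 1 / 4 + γ / 4
  α₂ := fun _ => 3 / 4 - γ / 4

/-- A preimage of `z` under `℘`. -/
def winv (z : ℂ) : ℂ := Classical.epsilon (fun w => w ∉ LL ∧ wp w = z)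

/-- The function on the sphere which pulls back to `v`. -/
def pull (v : ℂ → ℝ) (z : ℂ) : ℝ := v (winv z)

/-- `diag(|q|^{1/2} e^V, |q|^{-1/2} e^{-V})`. -/
def hmet (v : ℂ → ℝ) (z : ℂ) : Mat :=
  !![((Real.sqrt ‖qq z‖ * Real.exp (pull v z) : ℝ) : ℂ), 0;
    0, (((Real.sqrt ‖qq z‖)⁻¹ * Real.exp (-pull v z) : ℝ) : ℂ)]

/-- `diag(|q|^{1/2}, |q|^{-1/2})`. -/
def hinf (z : ℂ) : Mat :=
  !![((Real.sqrt ‖qq z‖ : ℝ) : ℂ), 0; 0, (((Real.sqrt ‖qq z‖)⁻¹ : ℝ) : ℂ)]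

/-- `diag(f, -f)`. -/
def nuM (f : ℂ → ℝ) (z : ℂ) : Mat :=
  !![((pull f z : ℝ) : ℂ), 0; 0, ((-pull f z : ℝ) : ℂ)]

/-! ## Kernels -/

/-- Radial profile of the kernel of `(16 - Δ)⁻¹`. -/
def kK (r : ℝ) : ℝ := (1 / (2 * π)) * ∫ u in Set.Ioi (0 : ℝ), Real.exp (-(4 * r * Real.cosh u))

/-- The kernel of `(16 - Δ)⁻¹` on the plane. -/
def KK (z : ℂ) : ℝ := kK ‖z‖

/-- The kernel of `(-Δ)⁻¹` on the plane. -/
def NK (z : ℂ) : ℝ := -(Real.log ‖z‖) / (2 * π)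

/-- Distance to the lattice `T ℤ[i]`. -/
def latD (T : ℝ) (w : ℂ) : ℝ := Metric.infDist w (LT T)

/-- The singular weight `dist^{-1/2}` on the discs of radius `1/4` around the lattice points. -/
def rho (T : ℝ) (w : ℂ) : ℝ := if latD T w < 1 / 4 then (latD T w) ^ (-(1 / 2) : ℝ) else 0

/-- The singular profile `-χ(dist) log dist`; `χ = 1` on `[0, 1/8]`, `χ = 0` on `[1/4, ∞)`. -/
def sing (T : ℝ) (w : ℂ) : ℝ :=
  -(Real.smoothTransition (2 - 8 * latD T w) * Real.log (latD T w))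

end

end GM16
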