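import Pool.Agent.LibGM16.PohoDefs
import Pool.Agent.LibGM16.CalcB
import Pool.Agent.LibGM16.Latt

open Complex MeasureTheory Filter Topology Matrix
open scoped ContDiff Real ComplexOrder

namespace GM16

variable {γ t : ℝ} {v v' f f' : ℂ → ℝ}

theorem DivPF_smooth {g : ℂ → ℝ} (hg : ContDiffOn ℝ ∞ g ZIᶜ) {w : ℂ} (hw : w ∉ ZI) :
    ContDiffAt ℝ 2 g w :=
  (hg.contDiffAt (isClosed_ZI.isOpen_compl.mem_nhds hw)).of_le (WithTop.coe_le_coe.2 le_top)

theorem DivPF_re (w : ℂ) : ContDiffAt ℝ 1 (fun z : ℂ => z.re) w :=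
  Complex.reCLM.contDiff.contDiffAt

theorem DivPF_im (w : ℂ) : ContDiffAt ℝ 1 (fun z : ℂ => z.im) w :=
  Complex.imCLM.contDiff.contDiffAt

theorem DivPF_Psi (t : ℝ) {g k : ℂ → ℝ} {w : ℂ} (hg : ContDiffAt ℝ 1 g w)
    (hk : ContDiffAt ℝ 1 k w) : ContDiffAt ℝ 1 (Psi t g k) w := by
  have h1 : ContDiffAt ℝ 1 (fun z => Real.sinh (2 * g z)) w :=
    (Real.contDiff_sinh.contDiffAt).comp w (contDiffAt_const.mul hg)
  have h2 : ContDiffAt ℝ 1 (fun z => Real.cosh (2 * g z)) w :=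
    (Real.contDiff_cosh.contDiffAt).comp w (contDiffAt_const.mul hg)
  exact ((contDiffAt_const.mul hk).mul h1).add (contDiffAt_const.mul (h2.sub contDiffAt_const))

/-- mixed second derivatives commute -/
theorem DivPF_symm {g : ℂ → ℝ} {w : ℂ} (hg : ContDiffAt ℝ 2 g w) : dx (dy g) w = dy (dx g) w := by
  have hsymm : IsSymmSndFDerivAt ℝ g w := hg.isSymmSndFDerivAt (by simp)
  have hd : DifferentiableAt ℝ (fderiv ℝ g) w :=
    (hg.fderiv_right (m := 1) (by norm_num)).differentiableAt (by norm_num)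
  have key : ∀ a b : ℂ, fderiv ℝ (fun z => fderiv ℝ g z a) w b = fderiv ℝ (fderiv ℝ g) w b a := by
    intro a b
    rw [fderiv_clm_apply hd (differentiableAt_const a)]
    simp
  show fderiv ℝ (fun z => fderiv ℝ g z I) w 1 = fderiv ℝ (fun z => fderiv ℝ g z 1) w I
  rw [key, key]
  exact hsymm.eq 1 I

/-- `PF` and `PG` are regular -/
theorem PF_smooth (hv : Sol γ t v) (h : LinSol t v f) {w : ℂ} (hw : w ∉ ZI) :
    ContDiffAt ℝ 1 (PF t v f) w ∧ ContDiffAt ℝ 1 (PG t v f) w := by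
  have hv2 := DivPF_smooth hv.smooth hw
  have hf2 := DivPF_smooth h.smooth hw
  have hx := DivPF_re w
  have hy := DivPF_im w
  have vx := CalcA_dx hv2
  have vy := CalcA_dy hv2
  have fx := CalcA_dx hf2
  have fy := CalcA_dy hf2
  have hP := DivPF_Psi t (hv2.of_le (by norm_num)) (hf2.of_le (by norm_num))
  constructor
  · exact ((((hx.mul vx).add (hy.mul vy)).mul fx).add (((hx.mul fx).add (hy.mul fy)).mul vx)).sub
      ((((vx.mul fx).add (vy.mul fy)).add hP).mul hx)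
  · exact ((((hx.mul vx).add (hy.mul vy)).mul fy).add (((hx.mul fx).add (hy.mul fy)).mul vy)).sub
      ((((vx.mul fx).add (vy.mul fy)).add hP).mul hy)

/-- derivative of `Psi` -/
theorem DivPF_dPsi (t : ℝ) {g k : ℂ → ℝ} {w : ℂ} (hg : DifferentiableAt ℝ g w)
    (hk : DifferentiableAt ℝ k w) (a : ℂ) : fderiv ℝ (Psi t g k) w a =
      (16 * t ^ 2 * Real.cosh (2 * g w) * k w + 8 * t ^ 2 * Real.sinh (2 * g w)) *
        fderiv ℝ g w a + 8 * t ^ 2 * Real.sinh (2 * g w) * fderiv ℝ k w a := by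
  have h2g : HasFDerivAt (fun z => 2 * g z) ((2 : ℝ) • fderiv ℝ g w) w :=
    hg.hasFDerivAt.const_mul 2
  have hs := h2g.sinh
  have hc := h2g.cosh
  have h : HasFDerivAt (Psi t g k) _ w :=
    ((hk.hasFDerivAt.const_mul (8 * t ^ 2)).mul hs).add ((hc.sub_const 1).const_mul (4 * t ^ 2))
  rw [h.fderiv]
  simp only [_root_.add_apply, _root_.smul_apply, smul_eq_mul]
  ring

/-- `div (PF, PG) = -2 Ψ` off the lattice. -/
theorem div_PF (hv : Sol γ t v) (h : LinSol t v f) {w : ℂ} (hw : w ∉ ZI) :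
    dx (PF t v f) w + dy (PG t v f) w = -2 * Psi t v f w := by
  have hv2 := DivPF_smooth hv.smooth hw
  have hf2 := DivPF_smooth h.smooth hw
  have hx : HasFDerivAt (fun z : ℂ => z.re) Complex.reCLM w := Complex.reCLM.hasFDerivAt
  have hy : HasFDerivAt (fun z : ℂ => z.im) Complex.imCLM w := Complex.imCLM.hasFDerivAt
  have vx := (CalcA_ddx hv2).hasFDerivAt
  have vy := (CalcA_ddy hv2).hasFDerivAt
  have fx := (CalcA_ddx hf2).hasFDerivAt
  have fy := (CalcA_ddy hf2).hasFDerivAt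
  have hvd : DifferentiableAt ℝ v w := hv2.differentiableAt (by norm_num)
  have hfd : DifferentiableAt ℝ f w := hf2.differentiableAt (by norm_num)
  have hP := ((DivPF_Psi t (hv2.of_le (by norm_num)) (hf2.of_le (by norm_num))).differentiableAt
    (by norm_num)).hasFDerivAt
  have hF : HasFDerivAt (PF t v f) _ w :=
    ((((hx.mul vx).add (hy.mul vy)).mul fx).add (((hx.mul fx).add (hy.mul fy)).mul vx)).sub
      ((((vx.mul fx).add (vy.mul fy)).add hP).mul hx)
  have hG : HasFDerivAt (PG t v f) _ w :=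
    ((((hx.mul vx).add (hy.mul vy)).mul fy).add (((hx.mul fx).add (hy.mul fy)).mul vy)).sub
      ((((vx.mul fx).add (vy.mul fy)).add hP).mul hy)
  have e1 : dx (PF t v f) w = fderiv ℝ (PF t v f) w 1 := rfl
  have e2 : dy (PG t v f) w = fderiv ℝ (PG t v f) w I := rfl
  rw [e1, e2, hF.fderiv, hG.fderiv]
  simp only [_root_.add_apply, _root_.sub_apply, _root_.smul_apply, smul_eq_mul,
    Complex.reCLM_apply, Complex.imCLM_apply, Complex.one_re, Complex.one_im, Complex.I_re,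
    Complex.I_im, Pi.add_apply, Pi.mul_apply]
  rw [DivPF_dPsi t hvd hfd, DivPF_dPsi t hvd hfd]
  have sv : fderiv ℝ (dy v) w 1 = fderiv ℝ (dx v) w I := DivPF_symm hv2
  have sf : fderiv ℝ (dy f) w 1 = fderiv ℝ (dx f) w I := DivPF_symm hf2
  have pv : fderiv ℝ (dx v) w 1 + fderiv ℝ (dy v) w I = 8 * t ^ 2 * Real.sinh (2 * v w) :=
    hv.pde w hw
  have pf : fderiv ℝ (dx f) w 1 + fderiv ℝ (dy f) w I =
      16 * t ^ 2 * Real.cosh (2 * v w) * f w + 8 * t ^ 2 * Real.sinh (2 * v w) := h.pde w hw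
  rw [← pf, ← pv, sv, sf]
  have ex : fderiv ℝ v w 1 = dx v w := rfl
  have ey : fderiv ℝ v w I = dy v w := rfl
  have gx : fderiv ℝ f w 1 = dx f w := rfl
  have gy : fderiv ℝ f w I = dy f w := rfl
  rw [ex, ey, gx, gy]
  ring

end GM16
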