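import Pool.Agent.LibGM16.CalcB
import Pool.Agent.LibGM16.Latt

open Complex MeasureTheory Filter Topology Matrix
open scoped ContDiff Real ComplexOrder

namespace GM16

variable {γ t : ℝ} {v v' f f' : ℂ → ℝ}

namespace DivTAux

/-- `(x, y) ↦ x + i y` -/
noncomputable def toC (p : ℝ × ℝ) : ℂ := ⟨p.1, p.2⟩

theorem toC_eq (p : ℝ × ℝ) : toC p = Complex.equivRealProdCLM.symm p := by
  apply Complex.ext <;> simp [toC]

theorem continuous_toC : Continuous toC := by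
  have : toC = Complex.equivRealProdCLM.symm := funext toC_eq
  rw [this]
  exact Complex.equivRealProdCLM.symm.continuous

/-- the derivative of `F ∘ toC` -/
noncomputable def der (F : ℂ → ℝ) (p : ℝ × ℝ) : ℝ × ℝ →L[ℝ] ℝ :=
  (fderiv ℝ F (toC p)).comp (Complex.equivRealProdCLM.symm : ℝ × ℝ →L[ℝ] ℂ)

theorem hasFDerivAt_toC {F : ℂ → ℝ} {p : ℝ × ℝ} (hF : ContDiffAt ℝ 1 F (toC p)) :
    HasFDerivAt (fun q => F (toC q)) (der F p) p := by
  have h1 : HasFDerivAt F (fderiv ℝ F (toC p)) (toC p) :=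
    (hF.differentiableAt (by norm_num)).hasFDerivAt
  have h2 : HasFDerivAt toC (Complex.equivRealProdCLM.symm : ℝ × ℝ →L[ℝ] ℂ) p := by
    have : toC = fun q => (Complex.equivRealProdCLM.symm : ℝ × ℝ →L[ℝ] ℂ) q := by
      funext q
      rw [toC_eq]
      rfl
    rw [this]
    exact (Complex.equivRealProdCLM.symm : ℝ × ℝ →L[ℝ] ℂ).hasFDerivAt
  exact HasFDerivAt.comp p h1 h2

theorem der_one (F : ℂ → ℝ) (p : ℝ × ℝ) : der F p (1, 0) = dx F (toC p) := by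
  unfold der dx
  simp only [ContinuousLinearMap.comp_apply]
  congr 1

theorem der_I (F : ℂ → ℝ) (p : ℝ × ℝ) : der F p (0, 1) = dy F (toC p) := by
  unfold der dy
  simp only [ContinuousLinearMap.comp_apply]
  congr 1

/-- the divergence -/
noncomputable def dvg (F G : ℂ → ℝ) (p : ℝ × ℝ) : ℝ := dx F (toC p) + dy G (toC p)

theorem ae_rect (x1 x2 y1 y2 : ℝ) :
    (Set.Ioc x1 x2 ×ˢ Set.Ioc y1 y2 : Set (ℝ × ℝ)) =ᵐ[volume] Set.Icc (x1, y1) (x2, y2) := by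
  rw [← Set.Icc_prod_Icc, Measure.volume_eq_prod]
  exact Measure.set_prod_ae_eq Ioc_ae_eq_Icc Ioc_ae_eq_Icc

theorem rect {F G : ℂ → ℝ} {x1 x2 y1 y2 : ℝ} (hx : x1 ≤ x2) (hy : y1 ≤ y2)
    (hF : ∀ x ∈ Set.Icc x1 x2, ∀ y ∈ Set.Icc y1 y2, ContDiffAt ℝ 1 F (⟨x, y⟩ : ℂ))
    (hG : ∀ x ∈ Set.Icc x1 x2, ∀ y ∈ Set.Icc y1 y2, ContDiffAt ℝ 1 G (⟨x, y⟩ : ℂ))
    (hi : IntegrableOn (dvg F G) (Set.Ioc x1 x2 ×ˢ Set.Ioc y1 y2)) :
    ∫ p in Set.Ioc x1 x2 ×ˢ Set.Ioc y1 y2, dvg F G p =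
      (((∫ x in x1..x2, G (⟨x, y2⟩ : ℂ)) - ∫ x in x1..x2, G (⟨x, y1⟩ : ℂ)) +
        ∫ y in y1..y2, F (⟨x2, y⟩ : ℂ)) - ∫ y in y1..y2, F (⟨x1, y⟩ : ℂ) := by
  have hae := ae_rect x1 x2 y1 y2
  have hi' : IntegrableOn (dvg F G) (Set.Icc (x1, y1) (x2, y2)) :=
    (integrableOn_congr_set_ae hae).1 hi
  rw [setIntegral_congr_set hae]
  have hmem : ∀ p ∈ Set.Icc (x1, y1) (x2, y2), p.1 ∈ Set.Icc x1 x2 ∧ p.2 ∈ Set.Icc y1 y2 := by
    intro p hp
    exact ⟨⟨hp.1.1, hp.2.1⟩, ⟨hp.1.2, hp.2.2⟩⟩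
  have hmem2 : ∀ p ∈ Set.Ioo (x1, y1).1 (x2, y2).1 ×ˢ Set.Ioo (x1, y1).2 (x2, y2).2 \
      (∅ : Set (ℝ × ℝ)), p.1 ∈ Set.Icc x1 x2 ∧ p.2 ∈ Set.Icc y1 y2 := by
    intro p hp
    exact ⟨⟨hp.1.1.1.le, hp.1.1.2.le⟩, ⟨hp.1.2.1.le, hp.1.2.2.le⟩⟩
  have key := integral_divergence_prod_Icc_of_hasFDerivAt_off_countable_of_le
    (fun q => F (toC q)) (fun q => G (toC q)) (der F) (der G) (x1, y1) (x2, y2)
    (Prod.mk_le_mk.2 ⟨hx, hy⟩) ∅ Set.countable_empty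
    (fun p hp => ((hasFDerivAt_toC (hF p.1 (hmem p hp).1 p.2 (hmem p hp).2)).continuousAt).continuousWithinAt)
    (fun p hp => ((hasFDerivAt_toC (hG p.1 (hmem p hp).1 p.2 (hmem p hp).2)).continuousAt).continuousWithinAt)
    (fun p hp => hasFDerivAt_toC (hF p.1 (hmem2 p hp).1 p.2 (hmem2 p hp).2))
    (fun p hp => hasFDerivAt_toC (hG p.1 (hmem2 p hp).1 p.2 (hmem2 p hp).2))
    (by
      simp only [der_one, der_I]
      exact hi')
  simp only [der_one, der_I] at key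
  exact key

theorem add_x {D : ℝ × ℝ → ℝ} {x1 x2 x3 : ℝ} {Y : Set ℝ} (h12 : x1 ≤ x2) (h23 : x2 ≤ x3)
    (hY : MeasurableSet Y) (hi : IntegrableOn D (Set.Ioc x1 x3 ×ˢ Y)) :
    ∫ p in Set.Ioc x1 x3 ×ˢ Y, D p =
      (∫ p in Set.Ioc x1 x2 ×ˢ Y, D p) + ∫ p in Set.Ioc x2 x3 ×ˢ Y, D p := by
  rw [← Set.Ioc_union_Ioc_eq_Ioc h12 h23, Set.union_prod] at hi ⊢
  rw [setIntegral_union]
  · rw [Set.disjoint_left]
    rintro p ⟨⟨_, h1⟩, _⟩ ⟨⟨h2, _⟩, _⟩
    exact absurd h1 (not_le.2 h2)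
  · exact measurableSet_Ioc.prod hY
  · exact hi.left_of_union
  · exact hi.right_of_union

theorem add_y {D : ℝ × ℝ → ℝ} {y1 y2 y3 : ℝ} {X : Set ℝ} (h12 : y1 ≤ y2) (h23 : y2 ≤ y3)
    (hX : MeasurableSet X) (hi : IntegrableOn D (X ×ˢ Set.Ioc y1 y3)) :
    ∫ p in X ×ˢ Set.Ioc y1 y3, D p =
      (∫ p in X ×ˢ Set.Ioc y1 y2, D p) + ∫ p in X ×ˢ Set.Ioc y2 y3, D p := by
  rw [← Set.Ioc_union_Ioc_eq_Ioc h12 h23, Set.prod_union] at hi ⊢
  rw [setIntegral_union]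
  · rw [Set.disjoint_left]
    rintro p ⟨_, ⟨_, h1⟩⟩ ⟨_, ⟨h2, _⟩⟩
    exact absurd h1 (not_le.2 h2)
  · exact hX.prod measurableSet_Ioc
  · exact hi.left_of_union
  · exact hi.right_of_union

end DivTAux

open DivTAux in
/-- The divergence theorem on the unit square for a vector field `(F, G)` which is `C¹` away from `0`
and `o(1/|w|)` at `0`, with integrable divergence. (Cut off with `θ(|w|/ε)`: the error is at most
`∫ |∇θ_ε| |(F,G)| ≤ C ε² · ε⁻¹ · o(1/ε)`. Mathlib: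
`integral2_divergence_prod_of_hasFDerivAt_off_countable` and `Complex.volume_preserving_equiv_real_prod`.) -/
theorem div_thm {F G : ℂ → ℝ}
    (hF : ∀ w ∈ QQ, w ≠ 0 → ContDiffAt ℝ 1 F w) (hG : ∀ w ∈ QQ, w ≠ 0 → ContDiffAt ℝ 1 G w)
    (h0 : Tendsto (fun w => ‖w‖ * (|F w| + |G w|)) (𝓝[≠] (0 : ℂ)) (𝓝 0))
    (hi : IntegrableOn (fun w => dx F w + dy G w) QQ) :
    ∫ w in QQ, (dx F w + dy G w) =
      (∫ y in (-(1 / 2) : ℝ)..(1 / 2), (F (⟨1 / 2, y⟩ : ℂ) - F (⟨-(1 / 2), y⟩ : ℂ))) +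
      ∫ x in (-(1 / 2) : ℝ)..(1 / 2), (G (⟨x, 1 / 2⟩ : ℂ) - G (⟨x, -(1 / 2)⟩ : ℂ)) := by
  -- transfer to `ℝ × ℝ`
  have hpre : QQ = Complex.measurableEquivRealProd ⁻¹'
      (Set.Icc ((-(1 / 2) : ℝ), (-(1 / 2) : ℝ)) (1 / 2, 1 / 2)) := by
    ext w
    simp only [QQ, Set.mem_ofPred_eq, Set.mem_preimage, Complex.measurableEquivRealProd_apply,
      Set.mem_Icc, Prod.mk_le_mk, abs_le]
    tauto
  have hD : ∀ w : ℂ, dx F w + dy G w = dvg F G (Complex.measurableEquivRealProd w) := by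
    intro w
    simp only [dvg, toC, Complex.measurableEquivRealProd_apply]
  have hmp := Complex.volume_preserving_equiv_real_prod
  have hemb := Complex.measurableEquivRealProd.measurableEmbedding
  have hint : ∫ w in QQ, (dx F w + dy G w) =
      ∫ p in Set.Icc ((-(1 / 2) : ℝ), (-(1 / 2) : ℝ)) (1 / 2, 1 / 2), dvg F G p := by
    simp_rw [hD]
    rw [hpre]
    exact hmp.setIntegral_preimage_emb hemb (dvg F G) _
  have hiR : IntegrableOn (dvg F G) (Set.Icc ((-(1 / 2) : ℝ), (-(1 / 2) : ℝ)) (1 / 2, 1 / 2)) := by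
    have h1 : IntegrableOn (dvg F G ∘ Complex.measurableEquivRealProd)
        (Complex.measurableEquivRealProd ⁻¹'
          (Set.Icc ((-(1 / 2) : ℝ), (-(1 / 2) : ℝ)) (1 / 2, 1 / 2))) := by
      rw [← hpre]
      exact hi.congr_fun (fun w _ => hD w) (by
        rw [hpre]
        exact Complex.measurableEquivRealProd.measurable measurableSet_Icc)
    exact (hmp.integrableOn_comp_preimage hemb).1 h1
  rw [hint, ← setIntegral_congr_set (ae_rect _ _ _ _)]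
  have hiT : IntegrableOn (dvg F G) (Set.Ioc (-(1 / 2) : ℝ) (1 / 2) ×ˢ
      Set.Ioc (-(1 / 2) : ℝ) (1 / 2)) := (integrableOn_congr_set_ae (ae_rect _ _ _ _)).2 hiR
  -- smoothness in coordinates
  have hC : ∀ (H : ℂ → ℝ), (∀ w ∈ QQ, w ≠ 0 → ContDiffAt ℝ 1 H w) → ∀ x y : ℝ, |x| ≤ 1 / 2 →
      |y| ≤ 1 / 2 → (x ≠ 0 ∨ y ≠ 0) → ContDiffAt ℝ 1 H (⟨x, y⟩ : ℂ) := by
    intro H hH x y hx hy hxy
    refine hH _ ⟨hx, hy⟩ ?_
    intro h
    have h1 := congrArg Complex.re h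
    have h2 := congrArg Complex.im h
    simp at h1 h2
    rcases hxy with h3 | h3
    · exact h3 h1
    · exact h3 h2
  -- integrability on horizontal and vertical segments
  have hvert : ∀ (H : ℂ → ℝ), (∀ w ∈ QQ, w ≠ 0 → ContDiffAt ℝ 1 H w) → ∀ x y1 y2 : ℝ,
      |x| ≤ 1 / 2 → x ≠ 0 → |y1| ≤ 1 / 2 → |y2| ≤ 1 / 2 →
      IntervalIntegrable (fun y => H (⟨x, y⟩ : ℂ)) volume y1 y2 := by
    intro H hH x y1 y2 hx hx0 hy1 hy2
    apply ContinuousOn.intervalIntegrable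
    intro y hy
    have hy' : |y| ≤ 1 / 2 := by
      have h1 := abs_le.1 hy1
      have h2 := abs_le.1 hy2
      rw [Set.mem_uIcc] at hy
      rw [abs_le]
      rcases hy with hy | hy
      · exact ⟨by linarith [hy.1], by linarith [hy.2]⟩
      · exact ⟨by linarith [hy.1], by linarith [hy.2]⟩
    have h1 : ContinuousAt H (⟨x, y⟩ : ℂ) := (hC H hH x y hx hy' (Or.inl hx0)).continuousAt
    have h2 : ContinuousAt (fun y : ℝ => toC (x, y)) y :=
      (continuous_toC.comp (by fun_prop)).continuousAt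
    exact (ContinuousAt.comp (f := fun y : ℝ => toC (x, y)) h1 h2).continuousWithinAt
  have hhor : ∀ (H : ℂ → ℝ), (∀ w ∈ QQ, w ≠ 0 → ContDiffAt ℝ 1 H w) → ∀ y x1 x2 : ℝ,
      |y| ≤ 1 / 2 → y ≠ 0 → |x1| ≤ 1 / 2 → |x2| ≤ 1 / 2 →
      IntervalIntegrable (fun x => H (⟨x, y⟩ : ℂ)) volume x1 x2 := by
    intro H hH y x1 x2 hy hy0 hx1 hx2
    apply ContinuousOn.intervalIntegrable
    intro x hx
    have hx' : |x| ≤ 1 / 2 := by
      have h1 := abs_le.1 hx1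
      have h2 := abs_le.1 hx2
      rw [Set.mem_uIcc] at hx
      rw [abs_le]
      rcases hx with hx | hx
      · exact ⟨by linarith [hx.1], by linarith [hx.2]⟩
      · exact ⟨by linarith [hx.1], by linarith [hx.2]⟩
    have h1 : ContinuousAt H (⟨x, y⟩ : ℂ) := (hC H hH x y hx' hy (Or.inr hy0)).continuousAt
    have h2 : ContinuousAt (fun x : ℝ => toC (x, y)) x :=
      (continuous_toC.comp (by fun_prop)).continuousAt
    exact (ContinuousAt.comp (f := fun x : ℝ => toC (x, y)) h1 h2).continuousWithinAt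
  have hhalf : |(1 / 2 : ℝ)| ≤ 1 / 2 := by rw [abs_of_pos (by norm_num)]
  have hhalf' : |(-(1 / 2) : ℝ)| ≤ 1 / 2 := by rw [abs_neg]; exact hhalf
  rw [intervalIntegral.integral_sub (hvert F hF _ _ _ hhalf (by norm_num) hhalf' hhalf)
      (hvert F hF _ _ _ hhalf' (by norm_num) hhalf' hhalf),
    intervalIntegral.integral_sub (hhor G hG _ _ _ hhalf (by norm_num) hhalf' hhalf)
      (hhor G hG _ _ _ hhalf' (by norm_num) hhalf' hhalf)]
  set T : ℝ := ∫ p in Set.Ioc (-(1 / 2) : ℝ) (1 / 2) ×ˢ Set.Ioc (-(1 / 2) : ℝ) (1 / 2), dvg F G p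
    with hT
  set B : ℝ := ((∫ y in (-(1 / 2) : ℝ)..(1 / 2), F (⟨1 / 2, y⟩ : ℂ)) -
      ∫ y in (-(1 / 2) : ℝ)..(1 / 2), F (⟨-(1 / 2), y⟩ : ℂ)) +
    ((∫ x in (-(1 / 2) : ℝ)..(1 / 2), G (⟨x, 1 / 2⟩ : ℂ)) -
      ∫ x in (-(1 / 2) : ℝ)..(1 / 2), G (⟨x, -(1 / 2)⟩ : ℂ)) with hB
  -- the small square
  set S : ℝ → Set (ℝ × ℝ) := fun δ => Set.Ioc (-δ) δ ×ˢ Set.Ioc (-δ) δ with hS
  -- the main identity
  have hid : ∀ δ : ℝ, 0 < δ → δ < 1 / 2 → T = B + (∫ p in S δ, dvg F G p) +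
      (((∫ x in (-δ)..δ, G (⟨x, -δ⟩ : ℂ)) - ∫ x in (-δ)..δ, G (⟨x, δ⟩ : ℂ)) +
        ((∫ y in (-δ)..δ, F (⟨-δ, y⟩ : ℂ)) - ∫ y in (-δ)..δ, F (⟨δ, y⟩ : ℂ))) := by
    intro δ hδ hδ'
    have hd : |δ| ≤ 1 / 2 := by rw [abs_of_pos hδ]; exact hδ'.le
    have hd' : |(-δ)| ≤ 1 / 2 := by rw [abs_neg]; exact hd
    have hdn : δ ≠ 0 := hδ.ne'
    have hdn' : -δ ≠ 0 := neg_ne_zero.2 hdn
    have hsub1 : IntegrableOn (dvg F G) (Set.Ioc (-(1 / 2) : ℝ) (-δ) ×ˢ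
        Set.Ioc (-(1 / 2) : ℝ) (1 / 2)) :=
      hiT.mono_set (Set.prod_mono (Set.Ioc_subset_Ioc le_rfl (by linarith)) subset_rfl)
    have hsub2 : IntegrableOn (dvg F G) (Set.Ioc (-δ) (1 / 2) ×ˢ
        Set.Ioc (-(1 / 2) : ℝ) (1 / 2)) :=
      hiT.mono_set (Set.prod_mono (Set.Ioc_subset_Ioc (by linarith) le_rfl) subset_rfl)
    have hsub3 : IntegrableOn (dvg F G) (Set.Ioc (-δ) δ ×ˢ
        Set.Ioc (-(1 / 2) : ℝ) (1 / 2)) :=
      hiT.mono_set (Set.prod_mono (Set.Ioc_subset_Ioc (by linarith) (by linarith)) subset_rfl)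
    have hsub4 : IntegrableOn (dvg F G) (Set.Ioc δ (1 / 2) ×ˢ
        Set.Ioc (-(1 / 2) : ℝ) (1 / 2)) :=
      hiT.mono_set (Set.prod_mono (Set.Ioc_subset_Ioc (by linarith) le_rfl) subset_rfl)
    have hsub5 : IntegrableOn (dvg F G) (Set.Ioc (-δ) δ ×ˢ Set.Ioc (-δ) (1 / 2)) :=
      hiT.mono_set (Set.prod_mono (Set.Ioc_subset_Ioc (by linarith) (by linarith))
        (Set.Ioc_subset_Ioc (by linarith) le_rfl))
    have hsub6 : IntegrableOn (dvg F G) (Set.Ioc (-δ) δ ×ˢ Set.Ioc (-(1 / 2) : ℝ) (-δ)) :=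
      hiT.mono_set (Set.prod_mono (Set.Ioc_subset_Ioc (by linarith) (by linarith))
        (Set.Ioc_subset_Ioc le_rfl (by linarith)))
    have hsub7 : IntegrableOn (dvg F G) (Set.Ioc (-δ) δ ×ˢ Set.Ioc δ (1 / 2)) :=
      hiT.mono_set (Set.prod_mono (Set.Ioc_subset_Ioc (by linarith) (by linarith))
        (Set.Ioc_subset_Ioc (by linarith) le_rfl))
    have a1 := add_x (D := dvg F G) (x1 := -(1 / 2)) (x2 := -δ) (x3 := 1 / 2) (by linarith)
      (by linarith) (measurableSet_Ioc (a := (-(1 / 2) : ℝ)) (b := 1 / 2)) hiT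
    have a2 := add_x (D := dvg F G) (x1 := -δ) (x2 := δ) (x3 := 1 / 2) (by linarith)
      (by linarith) (measurableSet_Ioc (a := (-(1 / 2) : ℝ)) (b := 1 / 2)) hsub2
    have a3 := add_y (D := dvg F G) (y1 := -(1 / 2)) (y2 := -δ) (y3 := 1 / 2) (by linarith)
      (by linarith) (measurableSet_Ioc (a := (-δ : ℝ)) (b := δ)) hsub3
    have a4 := add_y (D := dvg F G) (y1 := -δ) (y2 := δ) (y3 := 1 / 2) (by linarith)
      (by linarith) (measurableSet_Ioc (a := (-δ : ℝ)) (b := δ)) hsub5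
    -- four rectangles
    have hab : ∀ {x : ℝ} {a b : ℝ}, x ∈ Set.Icc a b → -(1 / 2) ≤ a → b ≤ 1 / 2 → |x| ≤ 1 / 2 := by
      intro x a b hx ha hb
      rw [abs_le]
      exact ⟨by linarith [hx.1], by linarith [hx.2]⟩
    have r1 := rect (F := F) (G := G) (x1 := -(1 / 2)) (x2 := -δ) (y1 := -(1 / 2)) (y2 := 1 / 2)
      (by linarith) (by norm_num)
      (fun x hx y hy => hC F hF x y (hab hx le_rfl (by linarith)) (hab hy le_rfl le_rfl)
        (Or.inl (by linarith [hx.2] : x < 0).ne))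
      (fun x hx y hy => hC G hG x y (hab hx le_rfl (by linarith)) (hab hy le_rfl le_rfl)
        (Or.inl (by linarith [hx.2] : x < 0).ne)) hsub1
    have r2 := rect (F := F) (G := G) (x1 := δ) (x2 := 1 / 2) (y1 := -(1 / 2)) (y2 := 1 / 2)
      (by linarith) (by norm_num)
      (fun x hx y hy => hC F hF x y (hab hx (by linarith) le_rfl) (hab hy le_rfl le_rfl)
        (Or.inl (by linarith [hx.1] : 0 < x).ne'))
      (fun x hx y hy => hC G hG x y (hab hx (by linarith) le_rfl) (hab hy le_rfl le_rfl)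
        (Or.inl (by linarith [hx.1] : 0 < x).ne')) hsub4
    have r3 := rect (F := F) (G := G) (x1 := -δ) (x2 := δ) (y1 := -(1 / 2)) (y2 := -δ)
      (by linarith) (by linarith)
      (fun x hx y hy => hC F hF x y (hab hx (by linarith) (by linarith))
        (hab hy le_rfl (by linarith)) (Or.inr (by linarith [hy.2] : y < 0).ne))
      (fun x hx y hy => hC G hG x y (hab hx (by linarith) (by linarith))
        (hab hy le_rfl (by linarith)) (Or.inr (by linarith [hy.2] : y < 0).ne)) hsub6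
    have r4 := rect (F := F) (G := G) (x1 := -δ) (x2 := δ) (y1 := δ) (y2 := 1 / 2)
      (by linarith) (by linarith)
      (fun x hx y hy => hC F hF x y (hab hx (by linarith) (by linarith))
        (hab hy (by linarith) le_rfl) (Or.inr (by linarith [hy.1] : 0 < y).ne'))
      (fun x hx y hy => hC G hG x y (hab hx (by linarith) (by linarith))
        (hab hy (by linarith) le_rfl) (Or.inr (by linarith [hy.1] : 0 < y).ne')) hsub7
    -- splitting of the one dimensional integrals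
    have s1 : (∫ x in (-(1 / 2) : ℝ)..(1 / 2), G (⟨x, 1 / 2⟩ : ℂ)) =
        (∫ x in (-(1 / 2) : ℝ)..(-δ), G (⟨x, 1 / 2⟩ : ℂ)) + (∫ x in (-δ)..δ, G (⟨x, 1 / 2⟩ : ℂ)) +
        ∫ x in δ..(1 / 2), G (⟨x, 1 / 2⟩ : ℂ) := by
      rw [intervalIntegral.integral_add_adjacent_intervals
        (hhor G hG _ _ _ hhalf (by norm_num) hhalf' hd')
        (hhor G hG _ _ _ hhalf (by norm_num) hd' hd),
        intervalIntegral.integral_add_adjacent_intervals
        (hhor G hG _ _ _ hhalf (by norm_num) hhalf' hd)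
        (hhor G hG _ _ _ hhalf (by norm_num) hd hhalf)]
    have s2 : (∫ x in (-(1 / 2) : ℝ)..(1 / 2), G (⟨x, -(1 / 2)⟩ : ℂ)) =
        (∫ x in (-(1 / 2) : ℝ)..(-δ), G (⟨x, -(1 / 2)⟩ : ℂ)) +
        (∫ x in (-δ)..δ, G (⟨x, -(1 / 2)⟩ : ℂ)) +
        ∫ x in δ..(1 / 2), G (⟨x, -(1 / 2)⟩ : ℂ) := by
      rw [intervalIntegral.integral_add_adjacent_intervals
        (hhor G hG _ _ _ hhalf' (by norm_num) hhalf' hd')
        (hhor G hG _ _ _ hhalf' (by norm_num) hd' hd),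
        intervalIntegral.integral_add_adjacent_intervals
        (hhor G hG _ _ _ hhalf' (by norm_num) hhalf' hd)
        (hhor G hG _ _ _ hhalf' (by norm_num) hd hhalf)]
    have s3 : (∫ y in (-(1 / 2) : ℝ)..(1 / 2), F (⟨-δ, y⟩ : ℂ)) =
        (∫ y in (-(1 / 2) : ℝ)..(-δ), F (⟨-δ, y⟩ : ℂ)) + (∫ y in (-δ)..δ, F (⟨-δ, y⟩ : ℂ)) +
        ∫ y in δ..(1 / 2), F (⟨-δ, y⟩ : ℂ) := by
      rw [intervalIntegral.integral_add_adjacent_intervals
        (hvert F hF _ _ _ hd' hdn' hhalf' hd')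
        (hvert F hF _ _ _ hd' hdn' hd' hd),
        intervalIntegral.integral_add_adjacent_intervals
        (hvert F hF _ _ _ hd' hdn' hhalf' hd)
        (hvert F hF _ _ _ hd' hdn' hd hhalf)]
    have s4 : (∫ y in (-(1 / 2) : ℝ)..(1 / 2), F (⟨δ, y⟩ : ℂ)) =
        (∫ y in (-(1 / 2) : ℝ)..(-δ), F (⟨δ, y⟩ : ℂ)) + (∫ y in (-δ)..δ, F (⟨δ, y⟩ : ℂ)) +
        ∫ y in δ..(1 / 2), F (⟨δ, y⟩ : ℂ) := by
      rw [intervalIntegral.integral_add_adjacent_intervals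
        (hvert F hF _ _ _ hd hdn hhalf' hd')
        (hvert F hF _ _ _ hd hdn hd' hd),
        intervalIntegral.integral_add_adjacent_intervals
        (hvert F hF _ _ _ hd hdn hhalf' hd)
        (hvert F hF _ _ _ hd hdn hd hhalf)]
    rw [s3] at r1
    rw [s4] at r2
    simp only [hS]
    rw [hT, a1, a2, a3, a4, r1, r2, r3, r4, hB, s1, s2]
    ring
  -- the limit
  have hSm : Tendsto (fun δ : ℝ => ∫ p in S δ, dvg F G p) (𝓝[>] 0) (𝓝 0) := by
    have hI : Integrable ((Set.Ioc (-(1 / 2) : ℝ) (1 / 2) ×ˢ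
        Set.Ioc (-(1 / 2) : ℝ) (1 / 2)).indicator (dvg F G)) :=
      (integrable_indicator_iff (measurableSet_Ioc.prod measurableSet_Ioc)).2 hiT
    have hvol : Tendsto (volume ∘ S) (𝓝[>] (0 : ℝ)) (𝓝 0) := by
      have e1 : ∀ δ : ℝ, (volume ∘ S) δ = ENNReal.ofReal (2 * δ) * ENNReal.ofReal (2 * δ) := by
        intro δ
        simp only [Function.comp_apply, hS]
        rw [Measure.volume_eq_prod, Measure.prod_prod, Real.volume_Ioc]
        congr 2 <;> ring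
      have e2 : Tendsto (fun δ : ℝ => ENNReal.ofReal (2 * δ)) (𝓝[>] 0) (𝓝 0) := by
        have : Tendsto (fun δ : ℝ => ENNReal.ofReal (2 * δ)) (𝓝 0) (𝓝 (ENNReal.ofReal (2 * 0))) := by
          apply ENNReal.tendsto_ofReal
          exact (continuous_const.mul continuous_id).tendsto 0
        rw [mul_zero, ENNReal.ofReal_zero] at this
        exact this.mono_left nhdsWithin_le_nhds
      rw [show (volume ∘ S) = fun δ => ENNReal.ofReal (2 * δ) * ENNReal.ofReal (2 * δ) from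
        funext e1]
      have := ENNReal.Tendsto.mul e2 (Or.inr ENNReal.zero_ne_top) e2 (Or.inr ENNReal.zero_ne_top)
      rwa [mul_zero] at this
    have h1 := hI.tendsto_setIntegral_nhds_zero hvol
    refine h1.congr' ?_
    have h2 : ∀ᶠ δ : ℝ in 𝓝[>] 0, δ < 1 / 2 :=
      (eventually_lt_nhds (by norm_num : (0 : ℝ) < 1 / 2)).filter_mono nhdsWithin_le_nhds
    filter_upwards [h2] with δ hδ
    apply setIntegral_congr_fun (measurableSet_Ioc.prod measurableSet_Ioc)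
    intro p hp
    apply Set.indicator_of_mem
    exact ⟨⟨by linarith [hp.1.1], by linarith [hp.1.2]⟩,
      ⟨by linarith [hp.2.1], by linarith [hp.2.2]⟩⟩
  -- conclusion
  have hfin : ∀ η > 0, |T - B| ≤ 9 * η := by
    intro η hη
    have e1 : ∀ᶠ w in 𝓝[≠] (0 : ℂ), ‖w‖ * (|F w| + |G w|) < η :=
      h0.eventually_lt tendsto_const_nhds hη
    rw [eventually_nhdsWithin_iff, Metric.eventually_nhds_iff] at e1
    obtain ⟨r, hr, hr'⟩ := e1
    have e2 : ∀ᶠ δ in 𝓝[>] (0 : ℝ), |∫ p in S δ, dvg F G p| < η := by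
      have := hSm.abs
      rw [abs_zero] at this
      exact this.eventually_lt tendsto_const_nhds hη
    have e3 : ∀ᶠ δ : ℝ in 𝓝[>] 0, δ < min (1 / 2) (r / 2) :=
      (eventually_lt_nhds (by positivity)).filter_mono nhdsWithin_le_nhds
    obtain ⟨δ, hδ1, hδ2, hδ3⟩ := (e2.and (e3.and self_mem_nhdsWithin)).exists
    have hδ0 : 0 < δ := hδ3
    have hδh : δ < 1 / 2 := lt_of_lt_of_le hδ2 (min_le_left _ _)
    have hδr : δ < r / 2 := lt_of_lt_of_le hδ2 (min_le_right _ _)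
    -- bound on the boundary of the small square
    have hbd : ∀ x y : ℝ, |x| ≤ δ → |y| ≤ δ → (|x| = δ ∨ |y| = δ) →
        |F (⟨x, y⟩ : ℂ)| ≤ η / δ ∧ |G (⟨x, y⟩ : ℂ)| ≤ η / δ := by
      intro x y hx hy hxy
      have hn1 : δ ≤ ‖(⟨x, y⟩ : ℂ)‖ := by
        rcases hxy with h | h
        · have := Complex.abs_re_le_norm (⟨x, y⟩ : ℂ)
          simp only at this
          linarith
        · have := Complex.abs_im_le_norm (⟨x, y⟩ : ℂ)
          simp only at this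
          linarith
      have hn2 : ‖(⟨x, y⟩ : ℂ)‖ < r := by
        have := Complex.norm_le_abs_re_add_abs_im (⟨x, y⟩ : ℂ)
        simp only at this
        linarith
      have hne : (⟨x, y⟩ : ℂ) ≠ 0 := by
        intro h
        rw [h, norm_zero] at hn1
        linarith
      have h1 := hr' (y := (⟨x, y⟩ : ℂ)) (by rw [dist_zero_right]; exact hn2) hne
      have h2 : δ * (|F (⟨x, y⟩ : ℂ)| + |G (⟨x, y⟩ : ℂ)|) ≤ η := by
        refine le_trans ?_ h1.le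
        exact mul_le_mul_of_nonneg_right hn1 (by positivity)
      rw [le_div_iff₀ hδ0, le_div_iff₀ hδ0]
      constructor <;> nlinarith [abs_nonneg (F (⟨x, y⟩ : ℂ)), abs_nonneg (G (⟨x, y⟩ : ℂ))]
    have hmem : ∀ x ∈ Set.uIoc (-δ) δ, |x| ≤ δ := by
      intro x hx
      rw [Set.uIoc_of_le (by linarith)] at hx
      exact abs_le.2 ⟨hx.1.le, hx.2⟩
    have hdd : |δ| = δ := abs_of_pos hδ0
    have hdd' : |(-δ)| = δ := by rw [abs_neg, hdd]
    have hlen : η / δ * |δ - -δ| = 2 * η := by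
      rw [abs_of_pos (by linarith)]
      field_simp
      ring
    have i1 : |∫ x in (-δ)..δ, G (⟨x, -δ⟩ : ℂ)| ≤ 2 * η := by
      have := intervalIntegral.norm_integral_le_of_norm_le_const (a := -δ) (b := δ)
        (f := fun x => G (⟨x, -δ⟩ : ℂ)) (C := η / δ)
        (fun x hx => (hbd x (-δ) (hmem x hx) hdd'.le (Or.inr hdd')).2)
      rwa [hlen] at this
    have i2 : |∫ x in (-δ)..δ, G (⟨x, δ⟩ : ℂ)| ≤ 2 * η := by
      have := intervalIntegral.norm_integral_le_of_norm_le_const (a := -δ) (b := δ)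
        (f := fun x => G (⟨x, δ⟩ : ℂ)) (C := η / δ)
        (fun x hx => (hbd x δ (hmem x hx) hdd.le (Or.inr hdd)).2)
      rwa [hlen] at this
    have i3 : |∫ y in (-δ)..δ, F (⟨-δ, y⟩ : ℂ)| ≤ 2 * η := by
      have := intervalIntegral.norm_integral_le_of_norm_le_const (a := -δ) (b := δ)
        (f := fun y => F (⟨-δ, y⟩ : ℂ)) (C := η / δ)
        (fun y hy => (hbd (-δ) y hdd'.le (hmem y hy) (Or.inl hdd')).1)
      rwa [hlen] at this
    have i4 : |∫ y in (-δ)..δ, F (⟨δ, y⟩ : ℂ)| ≤ 2 * η := by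
      have := intervalIntegral.norm_integral_le_of_norm_le_const (a := -δ) (b := δ)
        (f := fun y => F (⟨δ, y⟩ : ℂ)) (C := η / δ)
        (fun y hy => (hbd δ y hdd.le (hmem y hy) (Or.inl hdd)).1)
      rwa [hlen] at this
    have hk := hid δ hδ0 hδh
    rw [hk]
    rw [abs_le] at i1 i2 i3 i4 ⊢
    rw [abs_lt] at hδ1
    constructor <;> linarith [i1.1, i1.2, i2.1, i2.2, i3.1, i3.2, i4.1, i4.2, hδ1.1, hδ1.2]
  have hTB : T = B := by
    by_contra hne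
    have hpos : 0 < |T - B| := abs_pos.2 (sub_ne_zero.2 hne)
    have := hfin (|T - B| / 18) (by positivity)
    linarith
  exact hTB

end GM16
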