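import Pool.Agent.LibGM16.Defs

open Complex MeasureTheory Filter Topology Matrix
open scoped ContDiff Real ComplexOrder

namespace GM16

variable {γ t : ℝ} {v v' f f' : ℂ → ℝ}

/-- The nonlinearity for `u`. -/
noncomputable def GU (γ T : ℝ) (z : ℂ) (x : ℝ) : ℝ :=
  -(8 * (Real.sinh (2 * (γ * sing T z + x)) - 2 * (γ * sing T z + x)) +
    γ * (16 * sing T z - lap (sing T) z))

/-- The affine function for `f`. -/
noncomputable def GF (γ T : ℝ) (u : ℂ → ℝ) (z : ℂ) (y : ℝ) : ℝ :=
  -(16 * (Real.cosh (2 * (γ * sing T z + u z)) - 1) * y +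
    8 * Real.sinh (2 * (γ * sing T z + u z)))

end GM16
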