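import Pool.Agent.LibGM16.PotAux

open Complex MeasureTheory Filter Topology Matrix
open scoped ContDiff Real ComplexOrder

namespace GM16

variable {γ t : ℝ} {v v' f f' : ℂ → ℝ}

/-- Integration by parts against a test function supported in `Ω`. -/
theorem ibp_line {Ω : Set ℂ} (hΩ : IsOpen Ω) {f g : ℂ → ℝ} (hf : ContDiffOn ℝ 1 f Ω)
    (hg : ContDiff ℝ ∞ g) (hc : HasCompactSupport g) (hs : tsupport g ⊆ Ω) (w : ℂ) :
    ∫ x, f x * fderiv ℝ g x w = -∫ x, fderiv ℝ f x w * g x := by
  have hf' : ContinuousOn (fun x => fderiv ℝ f x w) Ω :=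
    (hf.continuousOn_fderiv_of_isOpen hΩ (by norm_num)).clm_apply continuousOn_const
  have hg' : Continuous (fun x => fderiv ℝ g x w) :=
    (hg.continuous_fderiv (by simp)).clm_apply continuous_const
  have hgs : tsupport (fun x => fderiv ℝ g x w) ⊆ Ω := (tsupport_fderiv_apply_subset ℝ w).trans hs
  have hgc : HasCompactSupport (fun x => fderiv ℝ g x w) := hc.fderiv_apply (𝕜 := ℝ) w
  refine integral_mul_fderiv_eq_neg_fderiv_mul_of_integrable ?_ ?_ ?_ ?_ ?_
  · exact (cont_mul hΩ hf' hg.continuous hs).integrable_of_hasCompactSupport (hcs_mul hc)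
  · exact (cont_mul hΩ hf.continuousOn hg' hgs).integrable_of_hasCompactSupport (hcs_mul hgc)
  · exact (cont_mul hΩ hf.continuousOn hg.continuous hs).integrable_of_hasCompactSupport
      (hcs_mul hc)
  · intro x hx
    exact (hf.contDiffAt (hΩ.mem_nhds (hs hx))).differentiableAt (by norm_num)
  · intro x _
    exact (hg.differentiable (by simp)) x

/-- Green's identity for `u ∈ C²(Ω)` and a test function supported in `Ω`. -/
theorem green_test {Ω : Set ℂ} (hΩ : IsOpen Ω) {u φ : ℂ → ℝ} (hu : ContDiffOn ℝ 2 u Ω)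
    (hφ : ContDiff ℝ ∞ φ) (hc : HasCompactSupport φ) (hs : tsupport φ ⊆ Ω) :
    ∫ z, u z * lap φ z = ∫ z, lap u z * φ z := by
  have hu1 : ContDiffOn ℝ 1 u Ω := hu.of_le (by norm_num)
  have hdx : ContDiffOn ℝ 1 (dx u) Ω :=
    (hu.fderiv_of_isOpen hΩ (m := 1) (by norm_num)).clm_apply contDiffOn_const
  have hdy : ContDiffOn ℝ 1 (dy u) Ω :=
    (hu.fderiv_of_isOpen hΩ (m := 1) (by norm_num)).clm_apply contDiffOn_const
  have hdxx : ContinuousOn (dx (dx u)) Ω :=
    (hdx.continuousOn_fderiv_of_isOpen hΩ (by norm_num)).clm_apply continuousOn_const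
  have hdyy : ContinuousOn (dy (dy u)) Ω :=
    (hdy.continuousOn_fderiv_of_isOpen hΩ (by norm_num)).clm_apply continuousOn_const
  have x1 := ibp_line hΩ hu1 (contDiff_dx hφ) (hcs_dx hc) ((tsupport_dx φ).trans hs) 1
  have x2 := ibp_line hΩ hdx hφ hc hs 1
  have y1 := ibp_line hΩ hu1 (contDiff_dy hφ) (hcs_dy hc) ((tsupport_dy φ).trans hs) I
  have y2 := ibp_line hΩ hdy hφ hc hs I
  have i1 : Integrable (fun z => u z * dx (dx φ) z) volume :=
    (cont_mul hΩ hu.continuousOn (contDiff_dx (contDiff_dx hφ)).continuous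
      (((tsupport_dx _).trans (tsupport_dx φ)).trans hs)).integrable_of_hasCompactSupport
      (hcs_mul (hcs_dx (hcs_dx hc)))
  have i2 : Integrable (fun z => u z * dy (dy φ) z) volume :=
    (cont_mul hΩ hu.continuousOn (contDiff_dy (contDiff_dy hφ)).continuous
      (((tsupport_dy _).trans (tsupport_dy φ)).trans hs)).integrable_of_hasCompactSupport
      (hcs_mul (hcs_dy (hcs_dy hc)))
  have i3 : Integrable (fun z => dx (dx u) z * φ z) volume :=
    (cont_mul hΩ hdxx hφ.continuous hs).integrable_of_hasCompactSupport (hcs_mul hc)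
  have i4 : Integrable (fun z => dy (dy u) z * φ z) volume :=
    (cont_mul hΩ hdyy hφ.continuous hs).integrable_of_hasCompactSupport (hcs_mul hc)
  have h1 : ∫ z, u z * lap φ z = (∫ z, u z * dx (dx φ) z) + ∫ z, u z * dy (dy φ) z := by
    rw [← integral_add i1 i2]
    refine integral_congr_ae (Eventually.of_forall fun z => ?_)
    simp only [lap]
    ring
  have h2 : ∫ z, lap u z * φ z = (∫ z, dx (dx u) z * φ z) + ∫ z, dy (dy u) z * φ z := by
    rw [← integral_add i3 i4]
    refine integral_congr_ae (Eventually.of_forall fun z => ?_)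
    simp only [lap]
    ring
  have x1' : ∫ z, u z * dx (dx φ) z = -∫ z, dx u z * dx φ z := x1
  have x2' : ∫ z, dx u z * dx φ z = -∫ z, dx (dx u) z * φ z := x2
  have y1' : ∫ z, u z * dy (dy φ) z = -∫ z, dy u z * dy φ z := y1
  have y2' : ∫ z, dy u z * dy φ z = -∫ z, dy (dy u) z * φ z := y2
  rw [h1, h2, x1', x2', y1', y2', neg_neg, neg_neg]

theorem continuousOn_lap {Ω : Set ℂ} (hΩ : IsOpen Ω) {u : ℂ → ℝ} (hu : ContDiffOn ℝ 2 u Ω) :
    ContinuousOn (lap u) Ω := by
  have hdx : ContDiffOn ℝ 1 (dx u) Ω :=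
    (hu.fderiv_of_isOpen hΩ (m := 1) (by norm_num)).clm_apply contDiffOn_const
  have hdy : ContDiffOn ℝ 1 (dy u) Ω :=
    (hu.fderiv_of_isOpen hΩ (m := 1) (by norm_num)).clm_apply contDiffOn_const
  have hdxx : ContinuousOn (dx (dx u)) Ω :=
    (hdx.continuousOn_fderiv_of_isOpen hΩ (by norm_num)).clm_apply continuousOn_const
  have hdyy : ContinuousOn (dy (dy u)) Ω :=
    (hdy.continuousOn_fderiv_of_isOpen hΩ (by norm_num)).clm_apply continuousOn_const
  exact hdxx.add hdyy

/-- A `C²` weak solution is a solution. -/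
theorem weak_strong {Ω : Set ℂ} (hΩ : IsOpen Ω) {u F : ℂ → ℝ} (hu : ContDiffOn ℝ 2 u Ω)
    (hF : ContinuousOn F Ω)
    (hw : ∀ φ : ℂ → ℝ, ContDiff ℝ ∞ φ → HasCompactSupport φ → tsupport φ ⊆ Ω →
      ∫ z, u z * lap φ z = ∫ z, F z * φ z) :
    ∀ z ∈ Ω, lap u z = F z := by
  have hlap := continuousOn_lap hΩ hu
  have hG : ContinuousOn (fun z => lap u z - F z) Ω := hlap.sub hF
  have hae : ∀ᵐ z : ℂ, z ∈ Ω → lap u z - F z = 0 := by
    refine hΩ.ae_eq_zero_of_integral_contDiff_smul_eq_zero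
      (hG.locallyIntegrableOn hΩ.measurableSet) fun φ hφ hc hs => ?_
    have h1 := green_test hΩ hu hφ hc hs
    have h2 := hw φ hφ hc hs
    have i1 : Integrable (fun z => lap u z * φ z) volume :=
      (cont_mul hΩ hlap hφ.continuous hs).integrable_of_hasCompactSupport (hcs_mul hc)
    have i2 : Integrable (fun z => F z * φ z) volume :=
      (cont_mul hΩ hF hφ.continuous hs).integrable_of_hasCompactSupport (hcs_mul hc)
    have h3 : ∫ z, φ z • (lap u z - F z) = (∫ z, lap u z * φ z) - ∫ z, F z * φ z := by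
      rw [← integral_sub i1 i2]
      refine integral_congr_ae (Eventually.of_forall fun z => ?_)
      simp only [smul_eq_mul]
      ring
    rw [h3, ← h1, h2, sub_self]
  have h4 : (fun z => lap u z) =ᵐ[volume.restrict Ω] F := by
    rw [Filter.EventuallyEq, ae_restrict_iff' hΩ.measurableSet]
    filter_upwards [hae] with z hz hzΩ
    linarith [hz hzΩ]
  exact Measure.eqOn_open_of_ae_eq h4 hΩ hlap hF

end GM16
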