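import Pool.Agent.LibGM16.WeakReg
import Pool.Agent.LibGM16.WeakStr

open Complex MeasureTheory Filter Topology Matrix
open scoped ContDiff Real ComplexOrder

namespace GM16

variable {γ t : ℝ} {v v' f f' : ℂ → ℝ}

/-- Continuous weak solutions of `Δu = H(z, u)` with smooth `H` are smooth. -/
theorem semilinear_reg {Ω : Set ℂ} (hΩ : IsOpen Ω) {u : ℂ → ℝ} (hu : ContinuousOn u Ω)
    {H : ℂ → ℝ → ℝ} (hH : ContDiffOn ℝ ∞ (fun p : ℂ × ℝ => H p.1 p.2) (Ω ×ˢ Set.univ))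
    (hw : ∀ φ : ℂ → ℝ, ContDiff ℝ ∞ φ → HasCompactSupport φ → tsupport φ ⊆ Ω →
      ∫ z, u z * lap φ z = ∫ z, H z (u z) * φ z) :
    ContDiffOn ℝ ∞ u Ω ∧ ∀ z ∈ Ω, lap u z = H z (u z) := by
  have hmaps : Set.MapsTo (fun z => (z, u z)) Ω (Ω ×ˢ Set.univ) := fun z hz => ⟨hz, trivial⟩
  have hF : ContinuousOn (fun z => H z (u z)) Ω :=
    hH.continuousOn.comp (continuousOn_id.prodMk hu) hmaps
  have hk : ∀ k : ℕ, ContDiffOn ℝ k u Ω := by
    intro k
    induction k with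
    | zero => exact_mod_cast contDiffOn_zero.2 hu
    | succ k ih =>
      have h1 : ContDiffOn ℝ k (fun z => H z (u z)) Ω :=
        (hH.of_le (by norm_cast; exact le_top)).comp (contDiffOn_id.prodMk ih) hmaps
      exact_mod_cast weak_reg hΩ hu hF hw k h1
  refine ⟨contDiffOn_infty.2 hk, weak_strong hΩ (by exact_mod_cast hk 2) hF hw⟩

end GM16
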