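import Pool.Agent.LibGM16.GUbd
import Pool.Agent.LibGM16.ConvW
import Pool.Agent.LibGM16.SemiReg
import Pool.Agent.LibGM16.CalcA

open Complex MeasureTheory Filter Topology Matrix
open scoped ContDiff Real ComplexOrder

namespace GM16

variable {γ t : ℝ} {v v' f f' : ℂ → ℝ}

private theorem ScPde_lap_smooth {g : ℂ → ℝ} {Ω : Set ℂ} (hΩ : IsOpen Ω)
    (hg : ContDiffOn ℝ ∞ g Ω) : ContDiffOn ℝ ∞ (lap g) Ω := by
  have h1 : ∀ (k : ℂ → ℝ) (a : ℂ), ContDiffOn ℝ ∞ k Ω →
      ContDiffOn ℝ ∞ (fun z => fderiv ℝ k z a) Ω := fun k a hk =>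
    (hk.fderiv_of_isOpen hΩ (by norm_num : (∞ : WithTop ℕ∞) + 1 ≤ ∞)).clm_apply contDiffOn_const
  exact (h1 _ 1 (h1 g 1 hg)).add (h1 _ I (h1 g I hg))

private theorem ScPde_weak {T : ℝ} (hT : 1 ≤ T) {u g : ℂ → ℝ} (hu : Continuous u)
    (hg : Measurable g) {A B : ℝ} (hA : 0 ≤ A) (hB : 0 ≤ B)
    (hb : ∀ z ∉ LT T, |g z| ≤ A + B * rho T z) (hgc : ContinuousOn g (LT T)ᶜ)
    (hU : ∀ W, u W = ∫ z, KK (W - z) * g z) (φ : ℂ → ℝ) (hφ : ContDiff ℝ ∞ φ)
    (hc : HasCompactSupport φ) (hs : tsupport φ ⊆ (LT T)ᶜ) :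
    ∫ z, u z * lap φ z = ∫ z, (16 * u z - g z) * φ z := by
  have hlc : Continuous (lap φ) := by
    have := ScPde_lap_smooth isOpen_univ (contDiffOn_univ.mpr hφ)
    exact continuousOn_univ.mp this.continuousOn
  have hlcs : HasCompactSupport (lap φ) := by
    have h1 : HasCompactSupport (dx φ) := hc.fderiv_apply (𝕜 := ℝ) 1
    have h2 : HasCompactSupport (dy φ) := hc.fderiv_apply (𝕜 := ℝ) I
    have h3 : HasCompactSupport (dx (dx φ)) := h1.fderiv_apply (𝕜 := ℝ) 1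
    have h4 : HasCompactSupport (dy (dy φ)) := h2.fderiv_apply (𝕜 := ℝ) I
    exact h3.add h4
  have key := conv_weak hT hg hA hB hb φ hφ hc
  simp only [← hU] at key
  have i1 : Integrable (fun z => u z * lap φ z) :=
    (hu.mul hlc).integrable_of_hasCompactSupport hlcs.mul_left
  have i2 : Integrable (fun z => 16 * (u z * φ z)) :=
    ((hu.mul hφ.continuous).integrable_of_hasCompactSupport hc.mul_left).const_mul 16
  have i3 : Integrable (fun z => g z * φ z) := by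
    have h1 : IntegrableOn (fun z => g z * φ z) (tsupport φ) :=
      ((hgc.mono hs).mul hφ.continuous.continuousOn).integrableOn_compact hc
    refine (integrableOn_iff_integrable_of_support_subset ?_).mp h1
    intro z hz
    refine subset_tsupport φ ?_
    intro h0
    apply hz
    simp [h0]
  have e1 : (fun W => u W * (16 * φ W - lap φ W)) = fun W => 16 * (u W * φ W) - u W * lap φ W := by
    funext W; ring
  have e2 : (fun z => (16 * u z - g z) * φ z) = fun z => 16 * (u z * φ z) - g z * φ z := by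
    funext z; ring
  rw [e1, integral_sub i2 i1] at key
  rw [e2, integral_sub i2 i3]
  linarith

/-- Regularity: `V = γ s + u` and `f` are smooth off the lattice and solve the equations
(`conv_weak` and `semilinear_reg`). -/
theorem scaled_pde {γ T : ℝ} (hγ : 0 < γ) (hγ' : γ ≤ 1 / 8) (hT : 1 ≤ T) {u f : ℂ → ℝ}
    (hu : Continuous u) (hf : Continuous f) (hub : ∀ z, |u z| ≤ 1 / 16) (hfb : ∀ z, |f z| ≤ 1 / 4)
    (hU : ∀ W, u W = ∫ z, KK (W - z) * GU γ T z (u z))
    (hF : ∀ W, f W = ∫ z, KK (W - z) * GF γ T u z (f z)) :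
    ContDiffOn ℝ ∞ (fun z => γ * sing T z + u z) (LT T)ᶜ ∧ ContDiffOn ℝ ∞ f (LT T)ᶜ ∧
    (∀ z ∉ LT T, lap (fun z => γ * sing T z + u z) z =
      8 * Real.sinh (2 * (γ * sing T z + u z))) ∧
    (∀ z ∉ LT T, lap f z = 16 * Real.cosh (2 * (γ * sing T z + u z)) * f z +
      8 * Real.sinh (2 * (γ * sing T z + u z))) := by
  obtain ⟨m1, m2, A, B, hA, hB, b1, b2⟩ := GU_bd hγ hγ' hT hu hf hub hfb
  have hΩ : IsOpen (LT T)ᶜ := (isClosed_LT (by linarith)).isOpen_compl
  have hs : ContDiffOn ℝ ∞ (sing T) (LT T)ᶜ := sing_smooth hT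
  have hls : ContDiffOn ℝ ∞ (lap (sing T)) (LT T)ᶜ := ScPde_lap_smooth hΩ hs
  have hfst : Set.MapsTo Prod.fst ((LT T)ᶜ ×ˢ (Set.univ : Set ℝ)) (LT T)ᶜ := fun p hp => hp.1
  have hs1 : ContDiffOn ℝ ∞ (fun p : ℂ × ℝ => sing T p.1) ((LT T)ᶜ ×ˢ Set.univ) :=
    hs.comp contDiffOn_fst hfst
  have hls1 : ContDiffOn ℝ ∞ (fun p : ℂ × ℝ => lap (sing T) p.1) ((LT T)ᶜ ×ˢ Set.univ) :=
    hls.comp contDiffOn_fst hfst
  -- the equation for `u`
  have hH1 : ContDiffOn ℝ ∞ (fun p : ℂ × ℝ => (fun z x => 8 * Real.sinh (2 * (γ * sing T z + x)) -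
      γ * lap (sing T) z) p.1 p.2) ((LT T)ᶜ ×ˢ Set.univ) := by
    have h1 : ContDiffOn ℝ ∞ (fun p : ℂ × ℝ => 2 * (γ * sing T p.1 + p.2))
        ((LT T)ᶜ ×ˢ Set.univ) :=
      contDiffOn_const.mul ((contDiffOn_const.mul hs1).add contDiffOn_snd)
    exact (contDiffOn_const.mul (Real.contDiff_sinh.comp_contDiffOn h1)).sub
      (contDiffOn_const.mul hls1)
  have hgc1 : ContinuousOn (fun z => GU γ T z (u z)) (LT T)ᶜ := by
    have h1 : ContinuousOn (fun z => 2 * (γ * sing T z + u z)) (LT T)ᶜ :=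
      continuousOn_const.mul ((continuousOn_const.mul hs.continuousOn).add hu.continuousOn)
    have h2 : ContinuousOn (fun z => Real.sinh (2 * (γ * sing T z + u z))) (LT T)ᶜ :=
      Real.continuous_sinh.comp_continuousOn h1
    exact ((continuousOn_const.mul (h2.sub h1)).add (continuousOn_const.mul
      ((continuousOn_const.mul hs.continuousOn).sub hls.continuousOn))).neg
  obtain ⟨u1, u2⟩ := semilinear_reg (H := fun z x => 8 * Real.sinh (2 * (γ * sing T z + x)) -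
      γ * lap (sing T) z) hΩ hu.continuousOn hH1 (fun φ hφ hc hφs => by
    rw [ScPde_weak hT hu m1 hA hB b1 hgc1 hU φ hφ hc hφs]
    congr 1
    funext z
    rw [GU]
    ring)
  have hV : ContDiffOn ℝ ∞ (fun z => γ * sing T z + u z) (LT T)ᶜ :=
    (contDiffOn_const.mul hs).add u1
  have hlV : ∀ z ∉ LT T, lap (fun z => γ * sing T z + u z) z =
      8 * Real.sinh (2 * (γ * sing T z + u z)) := by
    intro z hz
    have hn : (LT T)ᶜ ∈ 𝓝 z := hΩ.mem_nhds hz
    have c1 : ContDiffAt ℝ 2 (sing T) z := (hs.of_le ENat.LEInfty.out).contDiffAt hn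
    have c2 : ContDiffAt ℝ 2 u z := (u1.of_le ENat.LEInfty.out).contDiffAt hn
    rw [lap_add (contDiffAt_const.mul c1) c2, lap_const_mul γ c1, u2 z hz]
    ring
  -- the equation for `f`
  have hV1 : ContDiffOn ℝ ∞ (fun p : ℂ × ℝ => 2 * (γ * sing T p.1 + u p.1))
      ((LT T)ᶜ ×ˢ Set.univ) :=
    contDiffOn_const.mul (hV.comp contDiffOn_fst hfst)
  have hH2 : ContDiffOn ℝ ∞ (fun p : ℂ × ℝ => (fun z y => 16 * Real.cosh (2 * (γ * sing T z + u z)) *
      y + 8 * Real.sinh (2 * (γ * sing T z + u z))) p.1 p.2) ((LT T)ᶜ ×ˢ Set.univ) :=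
    ((contDiffOn_const.mul (Real.contDiff_cosh.comp_contDiffOn hV1)).mul contDiffOn_snd).add
      (contDiffOn_const.mul (Real.contDiff_sinh.comp_contDiffOn hV1))
  have hgc2 : ContinuousOn (fun z => GF γ T u z (f z)) (LT T)ᶜ := by
    have h1 : ContinuousOn (fun z => 2 * (γ * sing T z + u z)) (LT T)ᶜ :=
      continuousOn_const.mul hV.continuousOn
    exact (((continuousOn_const.mul ((Real.continuous_cosh.comp_continuousOn h1).sub
      continuousOn_const)).mul hf.continuousOn).add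
      (continuousOn_const.mul (Real.continuous_sinh.comp_continuousOn h1))).neg
  obtain ⟨f1, f2⟩ := semilinear_reg (H := fun z y => 16 * Real.cosh (2 * (γ * sing T z + u z)) *
      y + 8 * Real.sinh (2 * (γ * sing T z + u z))) hΩ hf.continuousOn hH2 (fun φ hφ hc hφs => by
    rw [ScPde_weak hT hf m2 hA hB b2 hgc2 hF φ hφ hc hφs]
    congr 1
    funext z
    rw [GF]
    ring)
  exact ⟨hV, f1, hlV, f2⟩

end GM16
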