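import Pool.Agent.LibGM16.ExUF
import Pool.Agent.LibGM16.ScPde
import Pool.Agent.LibGM16.CalcB
import Pool.Agent.LibGM16.Latt

open Complex MeasureTheory Filter Topology Matrix
open scoped ContDiff Real ComplexOrder

namespace GM16

variable {γ t : ℝ} {v v' f f' : ℂ → ℝ}

theorem exsol_mem_iff {t : ℝ} (ht : 1 ≤ t) (w : ℂ) : (t : ℂ) * w ∈ LT t ↔ w ∈ ZI := by
  have ht0 : (t : ℂ) ≠ 0 := by
    exact_mod_cast (by linarith : t ≠ 0)
  constructor
  · rintro ⟨m, n, h⟩
    exact ⟨m, n, mul_left_cancel₀ ht0 h⟩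
  · rintro ⟨m, n, rfl⟩
    exact ⟨m, n, rfl⟩

theorem exsol_add_one (w : ℂ) : w + 1 ∈ ZI ↔ w ∈ ZI := by
  constructor
  · rintro ⟨m, n, h⟩
    exact ⟨m - 1, n, by push_cast; linear_combination h⟩
  · rintro ⟨m, n, rfl⟩
    exact ⟨m + 1, n, by push_cast; ring⟩

theorem exsol_add_I (w : ℂ) : w + I ∈ ZI ↔ w ∈ ZI := by
  constructor
  · rintro ⟨m, n, h⟩
    exact ⟨m, n - 1, by push_cast; linear_combination h⟩
  · rintro ⟨m, n, rfl⟩
    exact ⟨m, n + 1, by push_cast; ring⟩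

theorem exsol_contDiffOn {t : ℝ} (ht : 1 ≤ t) {g : ℂ → ℝ} (hg : ContDiffOn ℝ ∞ g (LT t)ᶜ) :
    ContDiffOn ℝ ∞ (fun w : ℂ => g (t * w)) ZIᶜ := by
  have h1 : ContDiff ℝ ∞ (fun w : ℂ => (t : ℂ) * w) := contDiff_const.mul contDiff_id
  refine hg.comp h1.contDiffOn ?_
  intro w hw hc
  exact hw ((exsol_mem_iff ht w).1 hc)

theorem exsol_contDiffAt {t : ℝ} (ht : 1 ≤ t) {g : ℂ → ℝ} (hg : ContDiffOn ℝ ∞ g (LT t)ᶜ)
    {w : ℂ} (hw : w ∉ ZI) : ContDiffAt ℝ 2 g ((t : ℂ) * w) := by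
  have h1 : (LT t)ᶜ ∈ 𝓝 ((t : ℂ) * w) :=
    (isClosed_LT (by linarith)).isOpen_compl.mem_nhds fun hc => hw ((exsol_mem_iff ht w).1 hc)
  refine (hg.contDiffAt h1).of_le ?_
  exact WithTop.coe_le_coe.2 le_top

/-- Existence of `v_t`, `f_t` (unscale: `v w = V (t w)` off the lattice and `0` on it). -/
theorem exists_sol : ∃ γ₀ : ℝ, 0 < γ₀ ∧ γ₀ ≤ 1 / 8 ∧ ∀ γ, 0 < γ → γ ≤ γ₀ → ∀ t : ℝ, 1 ≤ t →
    ∃ v f : ℂ → ℝ, Sol γ t v ∧ LinSol t v f := by
  classical
  obtain ⟨γ₀, hγ₀, hγ₀', H⟩ := exists_uf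
  refine ⟨γ₀, hγ₀, hγ₀', fun γ hγ hγle t ht => ?_⟩
  obtain ⟨u, f, hu, hf, hub, hfb, hU, hF, hper⟩ := H γ hγ hγle t ht
  obtain ⟨hs1, hs2, hp1, hp2⟩ := scaled_pde hγ (hγle.trans hγ₀') ht hu hf hub hfb hU hF
  set V : ℂ → ℝ := fun z => γ * sing t z + u z with hV
  let v : ℂ → ℝ := fun w => if w ∈ ZI then 0 else V (t * w)
  have hv : ∀ w, w ∉ ZI → v w = V (t * w) := fun w hw => if_neg hw
  have hev : ∀ w, w ∉ ZI → v =ᶠ[𝓝 w] fun w => V (t * w) := by
    intro w hw
    filter_upwards [isClosed_ZI.isOpen_compl.mem_nhds hw] with z hz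
    exact hv z hz
  have hVx : ∀ w : ℂ, V (t * (w + 1)) = V (t * w) := by
    intro w
    have h1 : (t : ℂ) * (w + 1) = t * w + t := by ring
    simp only [hV]
    rw [h1, (sing_per ht _).1, (hper _).1]
  have hVy : ∀ w : ℂ, V (t * (w + I)) = V (t * w) := by
    intro w
    have h1 : (t : ℂ) * (w + I) = t * w + t * I := by ring
    simp only [hV]
    rw [h1, (sing_per ht _).2.1, (hper _).2.1]
  refine ⟨v, fun w => f (t * w), ?_, ?_⟩
  · refine ⟨?_, ?_, ?_, ?_, ?_, ?_⟩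
    · exact (exsol_contDiffOn ht hs1).congr fun w hw => hv w hw
    · intro w hw
      rw [lap_congr (hev w hw), lap_scale t (exsol_contDiffAt ht hs1 hw),
        hp1 _ (fun hc => hw ((exsol_mem_iff ht w).1 hc)), hv w hw]
      ring
    · intro w
      by_cases hw : w ∈ ZI
      · have h1 : w + 1 ∈ ZI := (exsol_add_one w).2 hw
        simp only [v, if_pos hw, if_pos h1]
      · have h1 : w + 1 ∉ ZI := fun hc => hw ((exsol_add_one w).1 hc)
        rw [hv _ hw, hv _ h1, hVx]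
    · intro w
      by_cases hw : w ∈ ZI
      · have h1 : w + I ∈ ZI := (exsol_add_I w).2 hw
        simp only [v, if_pos hw, if_pos h1]
      · have h1 : w + I ∉ ZI := fun hc => hw ((exsol_add_I w).1 hc)
        rw [hv _ hw, hv _ h1, hVy]
    · intro w hw
      exact if_pos hw
    · refine ⟨-(γ * Real.log t) + u 0, ?_⟩
      have h1 : Tendsto (fun w : ℂ => -(γ * Real.log t) + u (t * w)) (𝓝[≠] 0)
          (𝓝 (-(γ * Real.log t) + u 0)) := by
        have h2 : Continuous (fun w : ℂ => -(γ * Real.log t) + u (t * w)) :=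
          continuous_const.add (hu.comp (continuous_const.mul continuous_id))
        have h3 := h2.tendsto 0
        rw [mul_zero] at h3
        exact h3.mono_left nhdsWithin_le_nhds
      refine h1.congr' ?_
      have h4 : ∀ᶠ w : ℂ in 𝓝[≠] 0, ‖(t : ℂ) * w‖ ≤ 1 / 8 := by
        have h5 : Tendsto (fun w : ℂ => ‖(t : ℂ) * w‖) (𝓝[≠] 0) (𝓝 0) := by
          have h6 : Continuous (fun w : ℂ => ‖(t : ℂ) * w‖) :=
            (continuous_const.mul continuous_id).norm
          have h7 := h6.tendsto 0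
          rw [mul_zero, norm_zero] at h7
          exact h7.mono_left nhdsWithin_le_nhds
        exact (h5.eventually_lt_const (by norm_num : (0 : ℝ) < 1 / 8)).mono fun w hw => hw.le
      filter_upwards [h4, self_mem_nhdsWithin] with w hw hw0
      have hw0' : w ≠ 0 := hw0
      have ht0 : (0 : ℝ) < t := by linarith
      have hnorm : ‖(t : ℂ) * w‖ = t * ‖w‖ := by
        rw [norm_mul, Complex.norm_real, Real.norm_eq_abs, abs_of_pos ht0]
      have hwZ : w ∉ ZI := by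
        intro hc
        have h8 := one_le_norm_ZI hc hw0'
        rw [hnorm] at hw
        nlinarith
      have h0 : (0 : ℂ) ∈ LT t := ⟨0, 0, by simp⟩
      have h9 : sing t (t * w) = -Real.log (t * ‖w‖) := by
        have := sing_near ht h0 (w := (t : ℂ) * w) (by rwa [sub_zero])
        rw [this, sub_zero, hnorm]
      rw [hv w hwZ]
      simp only [hV]
      rw [h9, Real.log_mul (by linarith) (by simpa using hw0')]
      ring
  · refine ⟨?_, ?_, ?_, ?_, ?_, ?_⟩
    · exact exsol_contDiffOn ht hs2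
    · exact hf.comp (continuous_const.mul continuous_id)
    · intro w hw
      rw [lap_scale t (exsol_contDiffAt ht hs2 hw),
        hp2 _ (fun hc => hw ((exsol_mem_iff ht w).1 hc)), hv w hw]
      ring
    · intro w
      have h1 : (t : ℂ) * (w + 1) = t * w + t := by ring
      change f (t * (w + 1)) = f (t * w)
      rw [h1, (hper _).2.2.1]
    · intro w
      have h1 : (t : ℂ) * (w + I) = t * w + t * I := by ring
      change f (t * (w + I)) = f (t * w)
      rw [h1, (hper _).2.2.2]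
    · intro w
      exact hfb _

end GM16
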