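import Pool.Agent.LibGM16.ConvBd
import Pool.Agent.LibGM16.ConvC

open Complex MeasureTheory Filter Topology Matrix
open scoped ContDiff Real ComplexOrder

namespace GM16

variable {γ t : ℝ} {v v' f f' : ℂ → ℝ}

open scoped BoundedContinuousFunction in
/-- The abstract fixed point argument in the ball of radius `r` of bounded continuous functions. -/
theorem fixed_point {c₁ T : ℝ} (hT : 1 ≤ T)
    (hc : ∀ W : ℂ, Integrable (fun z => KK (W - z) * rho T z) ∧ ∫ z, KK (W - z) * rho T z ≤ c₁)
    (G : ℂ → ℝ → ℝ) (hGm : Measurable (fun p : ℂ × ℝ => G p.1 p.2)) {r A B a b : ℝ} (hr : 0 < r)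
    (hA : 0 ≤ A) (hB : 0 ≤ B) (ha : 0 ≤ a) (hb : 0 ≤ b)
    (hG : ∀ z ∉ LT T, ∀ x, |x| ≤ r → |G z x| ≤ A + B * rho T z)
    (hL : ∀ z ∉ LT T, ∀ x y, |x| ≤ r → |y| ≤ r → |G z x - G z y| ≤ (a + b * rho T z) * |x - y|)
    (h1 : A / 16 + B * c₁ ≤ r) (h2 : a / 16 + b * c₁ ≤ 1 / 2) :
    ∃ u : ℂ → ℝ, Continuous u ∧ (∀ z, |u z| ≤ r) ∧ (∀ W, u W = ∫ z, KK (W - z) * G z (u z)) ∧
      ∀ u' : ℂ → ℝ, Continuous u' → (∀ z, |u' z| ≤ r) →
        (∀ W, u' W = ∫ z, KK (W - z) * G z (u' z)) → u' = u := by
  have hmeas : ∀ u : ℂ → ℝ, Continuous u → Measurable (fun z => G z (u z)) := fun u hu =>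
    hGm.comp (measurable_id.prodMk hu.measurable)
  have hbd : ∀ u : ℂ → ℝ, Continuous u → (∀ z, |u z| ≤ r) → ∀ W,
      Integrable (fun z => KK (W - z) * G z (u z)) ∧ |∫ z, KK (W - z) * G z (u z)| ≤ r := by
    intro u hu hur W
    obtain ⟨i1, i2⟩ := conv_bd hT hc (hmeas u hu) hA hB (fun z hz => hG z hz (u z) (hur z)) W
    exact ⟨i1, i2.trans h1⟩
  have hcont : ∀ u : ℂ → ℝ, Continuous u → (∀ z, |u z| ≤ r) →
      Continuous (fun W => ∫ z, KK (W - z) * G z (u z)) := by
    intro u hu hur
    exact conv_cont hT (hmeas u hu) hA hB (fun z hz => hG z hz (u z) (hur z))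
  have hlip : ∀ u v : ℂ → ℝ, Continuous u → Continuous v → (∀ z, |u z| ≤ r) → (∀ z, |v z| ≤ r) →
      ∀ d : ℝ, 0 ≤ d → (∀ z, |u z - v z| ≤ d) → ∀ W,
      |(∫ z, KK (W - z) * G z (u z)) - ∫ z, KK (W - z) * G z (v z)| ≤ 1 / 2 * d := by
    intro u v hu hv hur hvr d hd huv W
    rw [← integral_sub (hbd u hu hur W).1 (hbd v hv hvr W).1]
    have e : (fun z => KK (W - z) * G z (u z) - KK (W - z) * G z (v z))
        = fun z => KK (W - z) * (G z (u z) - G z (v z)) := by
      funext z
      ring
    rw [e]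
    have key := (conv_bd hT hc ((hmeas u hu).sub (hmeas v hv)) (A := a * d) (B := b * d)
      (by positivity) (by positivity) (fun z hz => by
        have q := hL z hz (u z) (v z) (hur z) (hvr z)
        have hrho : 0 ≤ a + b * rho T z := by
          have : 0 ≤ rho T z := by
            unfold rho
            split_ifs
            · exact Real.rpow_nonneg Metric.infDist_nonneg _
            · exact le_rfl
          positivity
        calc |(fun z => G z (u z) - G z (v z)) z| ≤ (a + b * rho T z) * |u z - v z| := q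
          _ ≤ (a + b * rho T z) * d := mul_le_mul_of_nonneg_left (huv z) hrho
          _ = a * d + b * d * rho T z := by ring) W).2
    refine key.trans ?_
    have : a * d / 16 + b * d * c₁ = (a / 16 + b * c₁) * d := by ring
    rw [this]
    exact mul_le_mul_of_nonneg_right h2 hd
  -- the complete metric space
  let K : Set (ℂ →ᵇ ℝ) := {u | ∀ z, |u z| ≤ r}
  have hKc : IsClosed K := by
    have : K = ⋂ z : ℂ, {u : ℂ →ᵇ ℝ | |u z| ≤ r} := by
      ext u
      simp [K]
    rw [this]
    refine isClosed_iInter fun z => ?_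
    exact isClosed_le (continuous_abs.comp (BoundedContinuousFunction.lipschitz_eval_const z).continuous)
      continuous_const
  have : CompleteSpace K := hKc.completeSpace_coe
  have : Nonempty K := ⟨⟨0, fun z => by simpa using hr.le⟩⟩
  let Φ : K → K := fun u =>
    ⟨BoundedContinuousFunction.ofNormedAddCommGroup (fun W => ∫ z, KK (W - z) * G z (u.1 z))
      (hcont _ u.1.continuous u.2) r (fun W => (hbd _ u.1.continuous u.2 W).2),
      fun W => (hbd _ u.1.continuous u.2 W).2⟩
  have hΦ : ContractingWith (1 / 2 : NNReal) Φ := by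
    refine ⟨by
      rw [← NNReal.coe_lt_coe]
      norm_num, LipschitzWith.of_dist_le_mul fun u v => ?_⟩
    have hd : dist (Φ u) (Φ v) = dist (Φ u).1 (Φ v).1 := rfl
    have hd' : dist u v = dist u.1 v.1 := rfl
    rw [hd, hd', BoundedContinuousFunction.dist_le (by positivity)]
    intro W
    have := hlip _ _ u.1.continuous v.1.continuous u.2 v.2 (dist u.1 v.1) dist_nonneg
      (fun z => by
        have := BoundedContinuousFunction.dist_coe_le_dist (f := u.1) (g := v.1) z
        rwa [Real.dist_eq] at this) W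
    rw [Real.dist_eq]
    refine le_trans ?_ (le_trans this (le_of_eq ?_))
    · exact le_of_eq rfl
    · norm_num
  have hfix := hΦ.fixedPoint_isFixedPt
  set u₀ : K := ContractingWith.fixedPoint Φ hΦ with hu₀
  refine ⟨u₀.1, u₀.1.continuous, u₀.2, fun W => ?_, ?_⟩
  · have : (Φ u₀).1 W = u₀.1 W := by rw [hfix]
    exact this.symm
  · intro u' hu' hur' heq
    let w : K := ⟨BoundedContinuousFunction.ofNormedAddCommGroup u' hu' r (fun z => hur' z),
      fun z => hur' z⟩
    have hw : Function.IsFixedPt Φ w := by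
      apply Subtype.ext
      ext W
      exact (heq W).symm
    have := hΦ.fixedPoint_unique hw
    funext z
    have h3 : w.1 z = u₀.1 z := by rw [this]
    exact h3

end GM16
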