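import Pool.Agent.LibGM16.GUbd
import Pool.Agent.LibGM16.FixP

open Complex MeasureTheory Filter Topology Matrix
open scoped ContDiff Real ComplexOrder

namespace GM16

variable {γ t : ℝ} {v v' f f' : ℂ → ℝ}

theorem ExUF_shift {G : ℂ → ℝ → ℝ} {a : ℂ} (hG : ∀ z x, G (z + a) x = G z x) {u : ℂ → ℝ}
    (hu : ∀ W, u W = ∫ z, KK (W - z) * G z (u z)) (W : ℂ) :
    u (W + a) = ∫ z, KK (W - z) * G z (u (z + a)) := by
  rw [hu (W + a)]
  rw [← integral_add_right_eq_self (fun z => KK (W + a - z) * G z (u z)) a]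
  congr 1
  funext z
  rw [hG, add_sub_add_right_eq_sub]

theorem ExUF_lap_per {T : ℝ} (hT : 1 ≤ T) (w : ℂ) :
    lap (sing T) (w + T) = lap (sing T) w ∧ lap (sing T) (w + T * I) = lap (sing T) w := by
  constructor
  · rw [← lap_trans]
    congr 1
    funext z
    exact (sing_per hT z).1
  · rw [← lap_trans]
    congr 1
    funext z
    exact (sing_per hT z).2.1

theorem ExUF_GU_per {T : ℝ} (hT : 1 ≤ T) (γ : ℝ) (z : ℂ) (x : ℝ) :
    GU γ T (z + T) x = GU γ T z x ∧ GU γ T (z + T * I) x = GU γ T z x := by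
  unfold GU
  rw [(ExUF_lap_per hT z).1, (ExUF_lap_per hT z).2, (sing_per hT z).1, (sing_per hT z).2.1]
  exact ⟨rfl, rfl⟩

theorem ExUF_GU_meas (γ T : ℝ) : Measurable (fun p : ℂ × ℝ => GU γ T p.1 p.2) := by
  unfold GU
  have h1 : Measurable (fun p : ℂ × ℝ => sing T p.1) := (sing_meas T).1.comp measurable_fst
  have h2 : Measurable (fun p : ℂ × ℝ => lap (sing T) p.1) := (sing_meas T).2.comp measurable_fst
  have h3 : Measurable (fun p : ℂ × ℝ => γ * sing T p.1 + p.2) :=
    (h1.const_mul γ).add measurable_snd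
  have h4 : Measurable (fun p : ℂ × ℝ => Real.sinh (2 * (γ * sing T p.1 + p.2))) :=
    Real.continuous_sinh.measurable.comp (h3.const_mul 2)
  exact (((h4.sub (h3.const_mul 2)).const_mul 8).add
    (((h1.const_mul 16).sub h2).const_mul γ)).neg

theorem ExUF_GF_meas (γ T : ℝ) {u : ℂ → ℝ} (hu : Continuous u) :
    Measurable (fun p : ℂ × ℝ => GF γ T u p.1 p.2) := by
  unfold GF
  have h1 : Measurable (fun p : ℂ × ℝ => sing T p.1) := (sing_meas T).1.comp measurable_fst
  have h2 : Measurable (fun p : ℂ × ℝ => u p.1) := hu.measurable.comp measurable_fst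
  have h3 : Measurable (fun p : ℂ × ℝ => γ * sing T p.1 + u p.1) := (h1.const_mul γ).add h2
  have h4 : Measurable (fun p : ℂ × ℝ => Real.sinh (2 * (γ * sing T p.1 + u p.1))) :=
    Real.continuous_sinh.measurable.comp (h3.const_mul 2)
  have h5 : Measurable (fun p : ℂ × ℝ => Real.cosh (2 * (γ * sing T p.1 + u p.1))) :=
    Real.continuous_cosh.measurable.comp (h3.const_mul 2)
  exact ((((h5.sub measurable_const).const_mul 16).mul measurable_snd).add
    (h4.const_mul 8)).neg

/-- Existence of the fixed points, with periodicity (by uniqueness). -/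
theorem exists_uf : ∃ γ₀ : ℝ, 0 < γ₀ ∧ γ₀ ≤ 1 / 8 ∧ ∀ γ, 0 < γ → γ ≤ γ₀ → ∀ T : ℝ, 1 ≤ T →
    ∃ u f : ℂ → ℝ, Continuous u ∧ Continuous f ∧ (∀ z, |u z| ≤ 1 / 16) ∧ (∀ z, |f z| ≤ 1 / 4) ∧
      (∀ W, u W = ∫ z, KK (W - z) * GU γ T z (u z)) ∧
      (∀ W, f W = ∫ z, KK (W - z) * GF γ T u z (f z)) ∧
      (∀ z, u (z + T) = u z ∧ u (z + T * I) = u z ∧ f (z + T) = f z ∧ f (z + T * I) = f z) := by
  obtain ⟨C, hC0, hC⟩ := num_S
  obtain ⟨c₁, hc0, hc⟩ := KK_rho
  obtain ⟨C', hC'0, hC'⟩ := sing_lap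
  have hD : 0 < 32 * (c₁ * (32 * C + C')) := by positivity
  refine ⟨min (1 / 8) (1 / (32 * (c₁ * (32 * C + C')))), lt_min (by norm_num) (by positivity),
    min_le_left _ _, ?_⟩
  intro γ hγ hγ0 T hT
  have hγ8 : γ ≤ 1 / 8 := hγ0.trans (min_le_left _ _)
  have hγD : γ * (32 * (c₁ * (32 * C + C'))) ≤ 1 := by
    have := hγ0.trans (min_le_right _ _)
    rwa [le_div_iff₀ hD] at this
  have e1 : 0 < γ * (c₁ * C) := by positivity
  have e2 : 0 < γ * (c₁ * C') := by positivity
  have hγD' : 32 * (γ * (c₁ * C)) + γ * (c₁ * C') ≤ 1 / 32 := by nlinarith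
  -- bounds for the singular part
  have hsr : ∀ z ∉ LT T, C * γ * (sing T z * Real.exp (sing T z / 4)) ≤
      2 * C * γ * rho T z := by
    intro z hz
    have h1 := sing_rho hT hz
    have : C * γ * (sing T z * Real.exp (sing T z / 4)) ≤ C * γ * (2 * rho T z) :=
      mul_le_mul_of_nonneg_left h1 (by positivity)
    linarith
  obtain ⟨u, hu1, hu2, hu3, hu4⟩ := fixed_point (c₁ := c₁) hT (hc T hT) (GU γ T)
    (ExUF_GU_meas γ T) (r := 1 / 16) (A := 8 / 1000) (B := γ * (16 * C + C'))
    (a := 8 / 50) (b := 16 * C * γ) (by norm_num) (by norm_num) (by positivity) (by norm_num)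
    (by positivity)
    (by
      intro z hz x hx
      have h1 := (hC γ (sing T z) x x hγ.le hγ8 (sing_nonneg hT z) hx hx).1
      have h2 := hsr z hz
      have h3 := hC' T hT z hz
      unfold GU
      rw [abs_neg]
      refine (abs_add_le _ _).trans ?_
      rw [abs_mul, abs_mul, abs_of_pos hγ, abs_of_pos (by norm_num : (0 : ℝ) < 8)]
      have h4 : γ * |16 * sing T z - lap (sing T) z| ≤ γ * (C' * rho T z) :=
        mul_le_mul_of_nonneg_left h3 hγ.le
      linarith)
    (by
      intro z hz x y hx hy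
      have h1 := (hC γ (sing T z) x y hγ.le hγ8 (sing_nonneg hT z) hx hy).2.1
      have h2 := hsr z hz
      have e : GU γ T z x - GU γ T z y = -(8 * (
        (Real.sinh (2 * (γ * sing T z + x)) - 2 * (γ * sing T z + x)) -
        (Real.sinh (2 * (γ * sing T z + y)) - 2 * (γ * sing T z + y)))) := by
        unfold GU
        ring
      rw [e, abs_neg, abs_mul, abs_of_pos (by norm_num : (0 : ℝ) < 8)]
      have h3 : (1 / 50 + C * γ * (sing T z * Real.exp (sing T z / 4))) * |x - y| ≤
          (1 / 50 + 2 * C * γ * rho T z) * |x - y| :=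
        mul_le_mul_of_nonneg_right (by linarith) (abs_nonneg _)
      linarith)
    (by linarith)
    (by linarith)
  obtain ⟨f, hf1, hf2, hf3, hf4⟩ := fixed_point (c₁ := c₁) hT (hc T hT) (GF γ T u)
    (ExUF_GF_meas γ T hu1) (r := 1 / 4) (A := 108 / 100) (B := 24 * C * γ)
    (a := 16 / 100) (b := 32 * C * γ) (by norm_num) (by norm_num) (by positivity) (by norm_num)
    (by positivity)
    (by
      intro z hz x hx
      obtain ⟨-, -, h1, h1'⟩ := hC γ (sing T z) (u z) (u z) hγ.le hγ8 (sing_nonneg hT z)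
        (hu2 z) (hu2 z)
      have h2 := hsr z hz
      unfold GF
      rw [abs_neg]
      refine (abs_add_le _ _).trans ?_
      rw [abs_mul, abs_mul, abs_mul, abs_of_pos (by norm_num : (0 : ℝ) < 8),
        abs_of_pos (by norm_num : (0 : ℝ) < 16)]
      have hr := rho_nonneg T z
      have h3 : |Real.cosh (2 * (γ * sing T z + u z)) - 1| * |x| ≤
          (1 / 100 + 2 * C * γ * rho T z) * (1 / 4) :=
        mul_le_mul (by linarith) hx (abs_nonneg _) (by positivity)
      nlinarith)
    (by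
      intro z hz x y hx hy
      obtain ⟨-, -, h1, -⟩ := hC γ (sing T z) (u z) (u z) hγ.le hγ8 (sing_nonneg hT z)
        (hu2 z) (hu2 z)
      have h2 := hsr z hz
      have e : GF γ T u z x - GF γ T u z y =
        -(16 * (Real.cosh (2 * (γ * sing T z + u z)) - 1) * (x - y)) := by
        unfold GF
        ring
      rw [e, abs_neg, abs_mul, abs_mul, abs_of_pos (by norm_num : (0 : ℝ) < 16)]
      apply mul_le_mul_of_nonneg_right _ (abs_nonneg _)
      linarith)
    (by linarith)
    (by linarith)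
  have hper1 : (fun z => u (z + T)) = u := hu4 _ (hu1.comp (continuous_id.add continuous_const))
    (fun z => hu2 _) (fun W => ExUF_shift (fun z x => (ExUF_GU_per hT γ z x).1) hu3 W)
  have hper2 : (fun z => u (z + T * I)) = u :=
    hu4 _ (hu1.comp (continuous_id.add continuous_const))
    (fun z => hu2 _) (fun W => ExUF_shift (fun z x => (ExUF_GU_per hT γ z x).2) hu3 W)
  have hGF1 : ∀ z x, GF γ T u (z + T) x = GF γ T u z x := by
    intro z x
    unfold GF
    rw [(sing_per hT z).1, show u (z + T) = u z from congrFun hper1 z]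
  have hGF2 : ∀ z x, GF γ T u (z + T * I) x = GF γ T u z x := by
    intro z x
    unfold GF
    rw [(sing_per hT z).2.1, show u (z + T * I) = u z from congrFun hper2 z]
  have hper3 : (fun z => f (z + T)) = f := hf4 _ (hf1.comp (continuous_id.add continuous_const))
    (fun z => hf2 _) (fun W => ExUF_shift hGF1 hf3 W)
  have hper4 : (fun z => f (z + T * I)) = f :=
    hf4 _ (hf1.comp (continuous_id.add continuous_const))
    (fun z => hf2 _) (fun W => ExUF_shift hGF2 hf3 W)
  exact ⟨u, f, hu1, hf1, hu2, hf2, hu3, hf3, fun z => ⟨congrFun hper1 z, congrFun hper2 z,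
    congrFun hper3 z, congrFun hper4 z⟩⟩

end GM16
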