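import Pool.Agent.LibGM16.Low
import Pool.Agent.LibGM16.Sign

open Complex MeasureTheory Filter Topology Matrix
open scoped ContDiff Real ComplexOrder

namespace GM16

variable {γ t : ℝ} {v v' f f' : ℂ → ℝ}

theorem FLowD_EE_pos {R : ℝ} (hR : 0 < R) : 0 < EE R := by
  unfold EE
  exact div_pos (Real.exp_pos _) (Real.sqrt_pos.mpr hR)

theorem FLowD_contDiffAt (k t : ℝ) (w : ℂ) :
    ContDiffAt ℝ 2 (fun z : ℂ => k * (1 / 4 - (t * ‖z‖) ^ 2)) w := by
  have e : (fun z : ℂ => k * (1 / 4 - (t * ‖z‖) ^ 2)) =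
      fun z : ℂ => k * (1 / 4 - t ^ 2 * ‖z‖ ^ 2) := by
    funext z
    ring
  rw [e]
  exact contDiffAt_const.mul (contDiffAt_const.sub (contDiffAt_const.mul
    (contDiff_norm_sq ℝ).contDiffAt))

theorem FLowD_lap (k t : ℝ) {w : ℂ} (hw : w ≠ 0) :
    lap (fun z : ℂ => k * (1 / 4 - (t * ‖z‖) ^ 2)) w = -(4 * k * t ^ 2) := by
  have hn : 0 < ‖w‖ := norm_pos_iff.2 hw
  have h1 := lap_radial (F := fun r : ℝ => k * (1 / 4 - (t * r) ^ 2)) (a := 0) (w := w) hw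
    (by fun_prop)
  simp only [sub_zero] at h1
  rw [h1]
  have hd : ∀ r : ℝ, HasDerivAt (fun r : ℝ => k * (1 / 4 - (t * r) ^ 2)) (-(2 * k * t ^ 2) * r) r := by
    intro r
    have h2 : HasDerivAt (fun r : ℝ => (t * r) ^ 2) ((2 : ℕ) * (t * r) ^ (2 - 1) * (t * 1)) r :=
      ((hasDerivAt_id r).const_mul t).pow 2
    have h3 := (h2.const_sub (1 / 4)).const_mul k
    have e : -(2 * k * t ^ 2) * r = k * -((2 : ℕ) * (t * r) ^ (2 - 1) * (t * 1)) := by
      push_cast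
      ring
    rw [e]
    exact h3
  have e1 : deriv (fun r : ℝ => k * (1 / 4 - (t * r) ^ 2)) = fun r => -(2 * k * t ^ 2) * r :=
    funext fun r => (hd r).deriv
  rw [e1]
  have e2 : deriv (fun r : ℝ => -(2 * k * t ^ 2) * r) ‖w‖ = -(2 * k * t ^ 2) := by
    rw [deriv_const_mul_field]
    simp
  rw [e2]
  field_simp
  ring

theorem FLowD_ineq {k m x b ψ t : ℝ} (hm : 0 < m) (hk : k = Real.sinh m / Real.cosh m)
    (hx : m ≤ x) (hb : 0 ≤ b) (hbψ : b < ψ) (hψ : ψ ≤ k / 4) (ht : 1 ≤ t) :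
    16 * (ψ - b) ≤ -(4 * k * t ^ 2) + (16 * t ^ 2 * Real.cosh (2 * x) * (-b)
      + 8 * t ^ 2 * Real.sinh (2 * x)) := by
  have hc : Real.cosh (2 * x) = 2 * Real.cosh x ^ 2 - 1 := by
    rw [Real.cosh_two_mul, Real.sinh_sq x]
    ring
  have hs : Real.sinh (2 * x) = 2 * Real.sinh x * Real.cosh x := Real.sinh_two_mul x
  have hcm := Real.cosh_pos m
  have hcx := Real.one_le_cosh x
  have hkx : k * Real.cosh x ≤ Real.sinh x := by
    rw [hk, div_mul_eq_mul_div, div_le_iff₀ hcm]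
    have h1 : 0 ≤ Real.sinh (x - m) := Real.sinh_nonneg_iff.2 (by linarith)
    rw [Real.sinh_sub] at h1
    linarith
  have hk0 : 0 < k := by
    rw [hk]
    exact div_pos (Real.sinh_pos_iff.2 hm) hcm
  have ht2 : 1 ≤ t ^ 2 := by nlinarith
  have h2 : k * Real.cosh x * Real.cosh x ≤ Real.sinh x * Real.cosh x :=
    mul_le_mul_of_nonneg_right hkx (by linarith)
  have h3 : (2 * Real.cosh x ^ 2 - 2) * b ≤ (2 * Real.cosh x ^ 2 - 2) * (k / 4) := by
    apply mul_le_mul_of_nonneg_left (by linarith)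
    nlinarith
  have h4 : 16 * (ψ - b) ≤ -(4 * k) + (16 * Real.cosh (2 * x) * (-b) + 8 * Real.sinh (2 * x)) := by
    rw [hc, hs]
    nlinarith
  have h5 : 0 ≤ 16 * (ψ - b) := by linarith
  calc 16 * (ψ - b) = 1 * (16 * (ψ - b)) := by ring
    _ ≤ t ^ 2 * (16 * (ψ - b)) := mul_le_mul_of_nonneg_right ht2 h5
    _ ≤ t ^ 2 * (-(4 * k) + (16 * Real.cosh (2 * x) * (-b) + 8 * Real.sinh (2 * x))) :=
        mul_le_mul_of_nonneg_left h4 (by linarith)
    _ = _ := by ring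

/-- `-f ≥ k (1/4 - R²)` for `R < 1/2`. (Let `m = min(1, a E(1/2))`, so that `v ≥ m` for `R ≤ 1/2` by
`one_le_v`, `v_lower`; let `k = tanh m ≤ 1`. With `b = -f`: where `b < k(1/4-R²)`,
`Δ(k(1/4-R²) - b) ≥ -4kt² - 16t² cosh(2v) b + 8 t² sinh 2v`, and
`8 sinh 2v ≥ 4k (1 + cosh 2v) + (...)`.) -/
theorem f_lower_disc (hγ : 0 < γ) (hγ' : γ ≤ 1 / 8) : ∃ k : ℝ, 0 < k ∧ k ≤ 1 ∧
    ∀ (t : ℝ) (v f : ℂ → ℝ), 1 ≤ t → Sol γ t v → LinSol t v f →
    ∀ w, t * ‖w‖ < 1 / 2 → k * (1 / 4 - (t * ‖w‖) ^ 2) ≤ -f w := by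
  obtain ⟨ρ, hρdef⟩ : ∃ ρ, ρ = Real.exp (-(4 / γ)) / 2 := ⟨_, rfl⟩
  have hρ : 0 < ρ := by rw [hρdef]; positivity
  obtain ⟨a, hadef⟩ : ∃ a, a = Real.sqrt ρ / 2 := ⟨_, rfl⟩
  have ha : 0 < a := by
    rw [hadef]
    have := Real.sqrt_pos.2 hρ
    positivity
  obtain ⟨m, hmdef⟩ : ∃ m, m = min 1 (a * EE (1 / 2)) := ⟨_, rfl⟩
  have hE2 : 0 < EE (1 / 2) := FLowD_EE_pos (by norm_num)
  have hm : 0 < m := by
    rw [hmdef]
    exact lt_min one_pos (mul_pos ha hE2)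
  obtain ⟨k, hkdef⟩ : ∃ k, k = Real.sinh m / Real.cosh m := ⟨_, rfl⟩
  have hk0 : 0 < k := by
    rw [hkdef]
    exact div_pos (Real.sinh_pos_iff.2 hm) (Real.cosh_pos m)
  have hk1 : k ≤ 1 := by
    rw [hkdef, div_le_one (Real.cosh_pos m)]
    exact (Real.sinh_lt_cosh m).le
  refine ⟨k, hk0, hk1, ?_⟩
  intro t v f ht hv hf
  have ht0 : 0 < t := by linarith
  have hfneg : ∀ w, f w ≤ 0 := f_nonpos hγ ht hv hf
  have hnZ : ∀ w : ℂ, t * ‖w‖ < 1 / 2 → w ≠ 0 → w ∉ ZI := by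
    intro w hw h0 hZ
    have h1 := one_le_norm_ZI hZ h0
    nlinarith
  have h0Z : (0 : ℂ) ∈ ZI := ⟨0, 0, by simp⟩
  have hvm : ∀ w ∉ ZI, t * ‖w‖ < 1 / 2 → m ≤ v w := by
    intro w hw hw2
    have hw0 : w ≠ 0 := fun h => hw (h ▸ h0Z)
    have hn : 0 < ‖w‖ := norm_pos_iff.2 hw0
    rcases le_total (t * ‖w‖) ρ with h | h
    · have h1 := one_le_v hγ hγ' ht hv hw0 (by rw [← hρdef]; exact h)
      rw [hmdef]
      exact (min_le_left _ _).trans h1
    · have h1 := v_lower hγ hγ' ht hv hw (by rw [← hρdef]; exact h)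
      rw [← hρdef, ← hadef] at h1
      have h2 := EE_anti (by positivity : 0 < t * ‖w‖) hw2.le
      rw [hmdef]
      exact (min_le_right _ _).trans ((mul_le_mul_of_nonneg_left h2 ha.le).trans h1)
  obtain ⟨Ω, hΩdef⟩ : ∃ Ω : Set ℂ, Ω = {z | t * ‖z‖ < 1 / 2} := ⟨_, rfl⟩
  obtain ⟨u, hudef⟩ : ∃ u : ℂ → ℝ, u = fun z => k * (1 / 4 - (t * ‖z‖) ^ 2) + f z := ⟨_, rfl⟩
  have hmem : ∀ z, z ∈ Ω ↔ t * ‖z‖ < 1 / 2 := fun z => by rw [hΩdef]; exact Iff.rfl
  have hval : ∀ z, u z = k * (1 / 4 - (t * ‖z‖) ^ 2) + f z := fun z => by rw [hudef]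
  have hΩo : IsOpen Ω := by
    rw [hΩdef]
    exact isOpen_lt (continuous_const.mul continuous_norm) continuous_const
  have hucont : Continuous u := by
    rw [hudef]
    exact (continuous_const.mul (continuous_const.sub
      ((continuous_const.mul continuous_norm).pow 2))).add hf.cont
  have hule : ∀ z, u z ≤ 1 / 4 := by
    intro z
    have h1 := hfneg z
    have h2 : 0 ≤ (t * ‖z‖) ^ 2 := sq_nonneg _
    rw [hval]
    nlinarith
  have key : ∀ w ∈ Ω \ ZI, u w ≤ 0 := by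
    apply mp_gen hΩo
    · rintro z ⟨hz, hz'⟩
      have h2 : ContDiffAt ℝ 2 f z :=
        (hf.smooth.contDiffAt (isClosed_ZI.isOpen_compl.mem_nhds hz')).of_le ENat.LEInfty.out
      rw [hudef]
      exact ((FLowD_contDiffAt k t z).add h2).contDiffWithinAt
    · rintro z ⟨hz, hz'⟩ hpos
      have h2 : ContDiffAt ℝ 2 f z :=
        (hf.smooth.contDiffAt (isClosed_ZI.isOpen_compl.mem_nhds hz')).of_le ENat.LEInfty.out
      have hz0 : z ≠ 0 := fun h => hz' (h ▸ h0Z)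
      have h3 : lap u z = -(4 * k * t ^ 2) + (16 * t ^ 2 * Real.cosh (2 * v z) * f z +
          8 * t ^ 2 * Real.sinh (2 * v z)) := by
        rw [hudef, lap_add (FLowD_contDiffAt k t z) h2, FLowD_lap k t hz0, hf.pde z hz']
      have h4 : 0 ≤ (t * ‖z‖) ^ 2 := sq_nonneg _
      rw [hval] at hpos
      have h5 := FLowD_ineq (b := -f z) (ψ := k * (1 / 4 - (t * ‖z‖) ^ 2)) hm hkdef
        (hvm z hz' ((hmem z).1 hz)) (by linarith [hfneg z]) (by linarith) (by nlinarith) ht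
      rw [neg_neg] at h5
      rw [h3, hval]
      linarith
    · intro ζ hζ ε hε
      have h1 : t * ‖ζ‖ = 1 / 2 := by
        rw [hΩdef] at hζ
        exact frontier_lt_subset_eq (continuous_const.mul continuous_norm) continuous_const hζ
      have h2 : u ζ < ε := by
        rw [hval, h1]
        have := hfneg ζ
        linarith
      exact eventually_nhdsWithin_of_eventually_nhds
        (hucont.continuousAt.eventually (gt_mem_nhds h2))
    · rintro l ⟨hl, hlZ⟩ ε hε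
      have h2 : Tendsto (fun z : ℂ => ‖z - l‖) (𝓝[≠] l) (𝓝[>] 0) := tendsto_norm_sub_self_nhdsNE l
      have h3 : Tendsto (fun z : ℂ => Real.log ‖z - l‖) (𝓝[≠] l) atBot :=
        Real.tendsto_log_nhdsGT_zero.comp h2
      have h4 := h3.eventually (eventually_le_atBot (-(1 / (4 * ε))))
      filter_upwards [h4] with z hz2
      have h5 := hule z
      have h6 : ε * Real.log ‖z - l‖ ≤ ε * (-(1 / (4 * ε))) :=
        mul_le_mul_of_nonneg_left hz2 hε.le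
      have h7 : ε * (-(1 / (4 * ε))) = -(1 / 4) := by field_simp
      linarith
    · intro ε hε
      refine ⟨Metric.closedBall 0 1, isCompact_closedBall _ _, ?_⟩
      rintro z ⟨hz, hz'⟩ hzε
      refine ⟨0, h0Z, ?_, by rw [add_zero]⟩
      rw [add_zero]
      refine ⟨?_, hz⟩
      rw [mem_closedBall_zero_iff]
      have h1 := (hmem z).1 hz
      have h2 := norm_nonneg z
      nlinarith
  intro w hw
  suffices hs : u w ≤ 0 by
    rw [hval] at hs
    linarith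
  by_cases h0 : w = 0
  · have h1 : ∀ᶠ z in 𝓝[≠] w, u z ≤ 0 := by
      have h2 : ∀ᶠ z in 𝓝[≠] w, z ∈ Ω :=
        eventually_nhdsWithin_of_eventually_nhds (hΩo.mem_nhds ((hmem w).2 hw))
      filter_upwards [h2, self_mem_nhdsWithin] with z hz hz2
      refine key z ⟨hz, hnZ z ((hmem z).1 hz) ?_⟩
      rw [← h0]
      exact hz2
    have h4 : Tendsto u (𝓝[≠] w) (𝓝 (u w)) :=
      hucont.continuousAt.tendsto.mono_left nhdsWithin_le_nhds
    exact le_of_tendsto h4 h1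
  · exact key w ⟨(hmem w).2 hw, hnZ w hw h0⟩

end GM16
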