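import Pool.Agent.LibGM16.HA
import Pool.Agent.LibGM16.WF
import Pool.Agent.LibGM16.Cov

open Complex MeasureTheory Filter Topology Matrix
open scoped ContDiff Real ComplexOrder

namespace GM16

variable {γ t : ℝ} {v v' f f' : ℂ → ℝ}

/-- Developing a geodesic: it is `z(s) = ℘(w₀ + c s)`, `y(s) = 1/℘'(w₀ + c s)`. -/
theorem develop {c : ℂ} {g : ℝ → (EX γ).Sig} (h : (EX γ).ClosedGeodesic c g) :
    ∃ w₀ : ℂ, ∀ s : ℝ, w₀ + s * c ∉ ZI ∧ wp (w₀ + s * c) = (g s).1.1 ∧
      wpd (w₀ + s * c) * (g s).1.2 = 1 := by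
  obtain ⟨e₀, he₀⟩ := covq_surjective γ (g 0)
  obtain ⟨F, ⟨hF0, hF⟩, -⟩ := (covq_isCoveringMap γ).existsUnique_continuousMap_lifts
    (⟨g, h.cont⟩ : C(ℝ, (EX γ).Sig)) 0 e₀ he₀
  have hFs : ∀ s, wp (F s) = (g s).1.1 ∧ wpd (F s) * (g s).1.2 = 1 := fun s =>
    covq_eq_iff.1 (congrFun hF s)
  have hder : ∀ s, HasDerivAt (fun s => (F s : ℂ)) c s := by
    intro s
    have hL := not_LL_of_not_ZI (F s).2
    have h0 := cov_wpd_ne (F s).2
    have hd : HasStrictDerivAt wp (wpd (F s)) (F s) := by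
      have h2 := (wp_analytic hL).1.hasStrictDerivAt
      rwa [(wp_hasDeriv hL).deriv] at h2
    have h1 := (hd.to_localInverse h0).hasDerivAt
    have h2 : HasDerivAt (hd.localInverse _ _ _ h0 ∘ fun s => (g s).1.1)
        ((c / (g s).1.2) • (wpd (F s))⁻¹) s := by
      apply HasDerivAt.scomp_of_eq s h1 (h.geod s)
      exact (hFs s).1
    have h3 : (c / (g s).1.2) • (wpd (F s))⁻¹ = c := by
      have h4 := (hFs s).2
      have h5 : (g s).1.2 ≠ 0 := by
        intro h6
        rw [h6, mul_zero] at h4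
        exact zero_ne_one h4
      rw [smul_eq_mul]
      field_simp
      linear_combination (-c) * h4
    rw [h3] at h2
    refine h2.congr_of_eventuallyEq ?_
    have h4 := (hd.hasStrictFDerivAt_equiv h0).eventually_left_inverse
    have h5 : ContinuousAt (fun s => (F s : ℂ)) s := by fun_prop
    filter_upwards [h5.eventually h4] with s' hs'
    change (F s' : ℂ) = hd.localInverse _ _ _ h0 ((g s').1.1)
    rw [← (hFs s').1]
    exact hs'.symm
  have hconst : ∀ s, (F s : ℂ) = F 0 + s * c := by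
    intro s
    have h1 : ∀ s : ℝ, HasDerivAt (fun s : ℝ => (F s : ℂ) - s * c) 0 s := by
      intro s
      have h2 : HasDerivAt (fun s : ℝ => (s : ℂ) * c) c s := by
        simpa using (Complex.ofRealCLM.hasDerivAt (x := s)).mul_const c
      have h3 := (hder s).sub h2
      rw [sub_self] at h3
      exact h3
    have h3 := is_const_of_deriv_eq_zero (fun s => (h1 s).differentiableAt)
      (fun s => (h1 s).deriv) s 0
    simp only [Complex.ofReal_zero, zero_mul, sub_zero] at h3
    linear_combination h3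
  refine ⟨F 0, fun s => ?_⟩
  rw [← hconst s]
  exact ⟨(F s).2, hFs s⟩

end GM16
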