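import Pool.Agent.LibGM16.GA

open Complex MeasureTheory Filter Topology Matrix
open scoped ContDiff Real ComplexOrder

namespace GM16

variable {γ t : ℝ} {v v' f f' : ℂ → ℝ}

/-- so `c` is a nonzero element of the lattice `2ℤ[i]` -/
theorem closed_period {c : ℂ} {g : ℝ → (EX γ).Sig} (h : (EX γ).ClosedGeodesic c g) : c ∈ LL := by
  obtain ⟨w₀, hw⟩ := develop h
  obtain ⟨hz0, hp0, hd0⟩ := hw 0
  obtain ⟨hz1, hp1, hd1⟩ := hw 1
  have hg : g 1 = g 0 := by
    have := h.per 0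
    rwa [zero_add] at this
  rw [hg] at hp1 hd1
  have e0 : w₀ + ((0 : ℝ) : ℂ) * c = w₀ := by simp
  have e1 : w₀ + ((1 : ℝ) : ℂ) * c = w₀ + c := by simp
  rw [e0] at hz0 hp0 hd0
  rw [e1] at hz1 hp1 hd1
  have hL0 : w₀ ∉ LL := fun h' => hz0 (LL_sub_ZI h')
  have hL1 : w₀ + c ∉ LL := fun h' => hz1 (LL_sub_ZI h')
  have hy : (g 0).1.2 ≠ 0 := by
    intro h0
    rw [h0, mul_zero] at hd0
    exact zero_ne_one hd0
  have hdd : wpd (w₀ + c) = wpd w₀ := mul_right_cancel₀ hy (hd1.trans hd0.symm)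
  rcases wp_inj hL1 hL0 (hp1.trans hp0.symm) with h1 | h1
  · simpa using h1
  · exfalso
    have h2 := (wp_per h1 (-w₀)).2
    have e : -w₀ + (w₀ + c + w₀) = w₀ + c := by ring
    rw [e, (wp_neg w₀).2, hdd] at h2
    have h3 : (2 : ℂ) * wpd w₀ = 0 := by linear_combination h2
    have h4 : wpd w₀ = 0 := by simpa using h3
    exact hz0 ((wpd_eq_zero hL0).mp h4)

theorem length_eq {c : ℂ} {g : ℝ → (EX γ).Sig} (h : (EX γ).ClosedGeodesic c g) :
    (EX γ).length g = ‖c‖ := by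
  obtain ⟨w₀, hw⟩ := develop h
  unfold ParHiggs.length
  have key : ∀ s : ℝ, ‖(g s).1.2‖ * ‖deriv (fun s => (g s).1.1) s‖ = ‖c‖ := by
    intro s
    rw [(h.geod s).deriv, norm_div]
    have hy : (g s).1.2 ≠ 0 := by
      intro h0
      have hd0 := (hw s).2.2
      rw [h0, mul_zero] at hd0
      exact zero_ne_one hd0
    have hn : ‖(g s).1.2‖ ≠ 0 := norm_ne_zero_iff.mpr hy
    field_simp
  simp_rw [key]
  simp

end GM16
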