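import Pool.Agent.LibGM16.HA

open Complex MeasureTheory Filter Topology Matrix
open scoped ContDiff Real ComplexOrder

namespace GM16

variable {γ t : ℝ} {v v' f f' : ℂ → ℝ}

private lemma gc_det (z : ℂ) : -((EX γ).A z).det = qq z := by
  show -(AA z).det = qq z
  simp [AA, Matrix.det_fin_two]

private lemma gc_wpd_ne {w : ℂ} (hw : w ∉ ZI) : wpd w ≠ 0 := by
  have hL : w ∉ LL := fun h => hw (LL_sub_ZI h)
  intro h
  exact hw ((wpd_eq_zero hL).mp h)

/-- The parametrisation `w ↦ (℘(w), 1/℘'(w))` of the spectral curve. -/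
private noncomputable def gcMap (γ : ℝ) (w : {w : ℂ // w ∉ ZI}) : (EX γ).Sig :=
  ⟨(wp w.1, 1 / wpd w.1), wp_mem_U w.2, by
    rw [gc_det, qq_wp w.2]
    simp [div_pow]⟩

private lemma gcMap_continuous : Continuous (gcMap γ) := by
  unfold gcMap
  apply Continuous.subtype_mk
  rw [continuous_iff_continuousAt]
  intro w
  have hL : w.1 ∉ LL := fun h => w.2 (LL_sub_ZI h)
  obtain ⟨h1, h2⟩ := wp_analytic hL
  have c1 : ContinuousAt (fun x : {w : ℂ // w ∉ ZI} => wp x.1) w :=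
    ContinuousAt.comp (g := wp) (f := Subtype.val) h1.continuousAt continuous_subtype_val.continuousAt
  have c2 : ContinuousAt (fun x : {w : ℂ // w ∉ ZI} => wpd x.1) w :=
    ContinuousAt.comp (g := wpd) (f := Subtype.val) h2.continuousAt continuous_subtype_val.continuousAt
  exact c1.prodMk (continuousAt_const.div c2 (gc_wpd_ne w.2))

private lemma gcMap_surjective : Function.Surjective (gcMap γ) := by
  rintro ⟨⟨z, y⟩, hz, hy⟩
  obtain ⟨w, hw, hwz⟩ := exists_w hz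
  have hy' : y ^ 2 = qq z := by
    have := hy
    rw [gc_det] at this
    exact this
  have h0 := gc_wpd_ne hw
  have hwz : wp w = z := hwz
  rw [← hwz, qq_wp hw] at hy'
  have h1 : y ^ 2 = (1 / wpd w) ^ 2 := by rw [hy']; simp [div_pow]
  rcases sq_eq_sq_iff_eq_or_eq_neg.mp h1 with h | h
  · refine ⟨⟨w, hw⟩, ?_⟩
    apply Subtype.ext
    show ((wp w, 1 / wpd w) : ℂ × ℂ) = (z, y)
    rw [hwz, h]
  · have hw' : -w ∉ ZI := fun h => hw (by simpa using ZI_neg h)
    refine ⟨⟨-w, hw'⟩, ?_⟩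
    apply Subtype.ext
    show ((wp (-w), 1 / wpd (-w)) : ℂ × ℂ) = (z, y)
    rw [(wp_neg w).1, (wp_neg w).2, hwz, h]
    simp [div_neg]

private lemma gc_line (s : ℝ) : (I / 2 + 2 * (s : ℂ)) ∉ ZI := by
  rintro ⟨m, n, h⟩
  have h2 := congrArg Complex.im h
  simp at h2
  have h3 : (1 : ℝ) = 2 * n := by
    have e : (I / 2 : ℂ).im = 1 / 2 := by
      rw [show (I / 2 : ℂ) = I * ((1 / 2 : ℝ) : ℂ) by push_cast; ring]
      simp
    linarith
  have h4 : (1 : ℤ) = 2 * n := by exact_mod_cast h3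
  omega

/-- the shortest ones: `w = i/2 + 2s` -/
theorem exists_geodesic : ∃ g : ℝ → (EX γ).Sig, (EX γ).ClosedGeodesic 2 g := by
  refine ⟨fun s => gcMap γ ⟨I / 2 + 2 * (s : ℂ), gc_line s⟩, ?_, ?_, ?_, ?_⟩
  · apply gcMap_continuous.comp
    apply Continuous.subtype_mk
    fun_prop
  · intro s
    have hl : (2 : ℂ) ∈ LL := ⟨1, 0, by simp⟩
    apply Subtype.ext
    show ((wp (I / 2 + 2 * ((s + 1 : ℝ) : ℂ)), 1 / wpd (I / 2 + 2 * ((s + 1 : ℝ) : ℂ))) : ℂ × ℂ) =
      (wp (I / 2 + 2 * (s : ℂ)), 1 / wpd (I / 2 + 2 * (s : ℂ)))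
    have e : I / 2 + 2 * ((s + 1 : ℝ) : ℂ) = (I / 2 + 2 * (s : ℂ)) + 2 := by push_cast; ring
    rw [e, (wp_per hl _).1, (wp_per hl _).2]
  · norm_num
  · intro s
    have hL : (I / 2 + 2 * (s : ℂ)) ∉ LL := fun h => gc_line s (LL_sub_ZI h)
    have h1 := wp_hasDeriv hL
    have h2 : HasDerivAt (fun x : ℝ => (I / 2 + 2 * (x : ℂ))) 2 s := by
      have h3 : HasDerivAt (fun x : ℝ => (x : ℂ)) 1 s := Complex.ofRealCLM.hasDerivAt
      have h4 := (h3.const_mul (2 : ℂ)).const_add (I / 2)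
      simpa using h4
    have h5 := HasDerivAt.comp (h₂ := wp) (h := fun x : ℝ => (I / 2 + 2 * (x : ℂ))) s h1 h2
    show HasDerivAt (fun x : ℝ => wp (I / 2 + 2 * (x : ℂ))) (2 / (1 / wpd (I / 2 + 2 * (s : ℂ)))) s
    have e : (2 : ℂ) / (1 / wpd (I / 2 + 2 * (s : ℂ))) = wpd (I / 2 + 2 * (s : ℂ)) * 2 := by
      rw [div_div_eq_mul_div, div_one]
      ring
    rw [e]
    exact h5

private lemma gc_ZI_countable : ZI.Countable := by
  have h : ZI ⊆ Set.range (fun p : ℤ × ℤ => ((p.1 : ℂ) + p.2 * I)) := by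
    rintro w ⟨m, n, rfl⟩
    exact ⟨(m, n), rfl⟩
  exact (Set.countable_range _).mono h

/-- the spectral curve minus the punctures is connected -/
theorem sig_connected : PathConnectedSpace (EX γ).Sig := by
  have h1 : IsPathConnected (ZIᶜ : Set ℂ) := by
    apply Set.Countable.isPathConnected_compl_of_one_lt_rank _ gc_ZI_countable
    rw [Complex.rank_real_complex]
    exact Nat.one_lt_ofNat
  have h2 : PathConnectedSpace {w : ℂ // w ∉ ZI} := isPathConnected_iff_pathConnectedSpace.mp h1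
  exact gcMap_surjective.pathConnectedSpace gcMap_continuous

end GM16
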