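import Pool.Agent.LibGM16.Defs

open Complex MeasureTheory Filter Topology Matrix
open scoped ContDiff Real ComplexOrder unitInterval

namespace GM16

variable {γ t : ℝ} {v v' f f' : ℂ → ℝ}

private lemma gd_key {X : Type*} [TopologicalSpace X] (F : C(X, Circle)) {x : X} {l l' : Path x x}
    (h : l.Homotopic l') {θ θ' : C(I, ℝ)} (hθ : ∀ s, F (l s) = Circle.exp (θ s))
    (hθ' : ∀ s, F (l' s) = Circle.exp (θ' s)) : θ 1 - θ 0 = θ' 1 - θ' 0 := by
  have h0 : Circle.exp (θ 0) = Circle.exp (θ' 0) := by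
    rw [← hθ, ← hθ', l.source, l'.source]
  obtain ⟨m, hm⟩ := Circle.exp_eq_exp.mp h0
  let θ'' : C(I, ℝ) := ⟨fun s => θ' s + m * (2 * π), by fun_prop⟩
  have hθ'' : ∀ s, F (l' s) = Circle.exp (θ'' s) := by
    intro s
    rw [hθ' s]
    exact (Circle.exp_eq_exp.mpr ⟨m, rfl⟩).symm
  have cov : IsCoveringMap Circle.exp := Circle.isCoveringMap_exp
  obtain ⟨H⟩ := h
  let γ₀ : C(I, Circle) := F.comp l.toContinuousMap
  let γ₁ : C(I, Circle) := F.comp l'.toContinuousMap
  have hh : γ₀.HomotopicRel γ₁ {0, 1} := ⟨H.compContinuousMap F⟩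
  have s0 : γ₀ 0 = Circle.exp (θ 0) := hθ 0
  have s1 : γ₁ 0 = Circle.exp (θ 0) := by
    show F (l' 0) = Circle.exp (θ 0)
    rw [hθ' 0, ← h0]
  have e1 : θ = cov.liftPath γ₀ (θ 0) s0 :=
    (cov.eq_liftPath_iff' s0).mpr ⟨funext fun s => (hθ s).symm, rfl⟩
  have e2 : θ'' = cov.liftPath γ₁ (θ 0) s1 :=
    (cov.eq_liftPath_iff' s1).mpr ⟨funext fun s => (hθ'' s).symm, hm.symm⟩
  have h1 := cov.liftPath_apply_one_eq_of_homotopicRel hh (θ 0) s0 s1
  rw [← e1, ← e2] at h1
  have h2 : θ 1 = θ' 1 + m * (2 * π) := h1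
  rw [h2, hm]
  ring

private lemma gd_lift {X : Type*} [TopologicalSpace X] (F : C(X, Circle)) {x y : X} (l : Path x y) :
    ∃ θ : C(I, ℝ), ∀ s, F (l s) = Circle.exp (θ s) := by
  have cov : IsCoveringMap Circle.exp := Circle.isCoveringMap_exp
  obtain ⟨e, he⟩ : ∃ e : ℝ, Circle.exp e = F (l 0) := ⟨_, Circle.exp_arg _⟩
  obtain ⟨θ, h1, -⟩ := cov.exists_path_lifts (F.comp l.toContinuousMap) e he.symm
  exact ⟨θ, fun s => (congr_fun h1 s).symm⟩

/-- The degree homomorphism of a continuous map to the circle. (Mathlib: `FundamentalGroup.map`,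
`Circle.isAddQuotientCoveringMap_exp`, `fundamentalGroupToMulOpposite`, or path lifting and
`IsCoveringMap.liftPath_apply_one_eq_of_homotopicRel`.) -/
theorem degree {X : Type*} [TopologicalSpace X] (F : C(X, Circle)) (x : X) :
    ∃ Φ : Abelianization (FundamentalGroup X x) →* Multiplicative ℝ,
      ∀ (l : Path x x) (θ : C(I, ℝ)), (∀ s, F (l s) = Circle.exp (θ s)) →
        Φ (Abelianization.of (FundamentalGroup.fromPath (Path.Homotopic.Quotient.mk l))) =
          Multiplicative.ofAdd (θ 1 - θ 0) := by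
  classical
  choose θc hθc using fun l : Path x x => gd_lift F l
  let rep : FundamentalGroup X x → Path x x := fun g =>
    Classical.choose (Path.Homotopic.Quotient.mk_surjective (FundamentalGroup.toPath g))
  have hrep : ∀ g : FundamentalGroup X x,
      Path.Homotopic.Quotient.mk (rep g) = FundamentalGroup.toPath g := fun g =>
    Classical.choose_spec (Path.Homotopic.Quotient.mk_surjective (FundamentalGroup.toPath g))
  let D : FundamentalGroup X x → Multiplicative ℝ := fun g =>
    Multiplicative.ofAdd (θc (rep g) 1 - θc (rep g) 0)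
  have hD : ∀ (g : FundamentalGroup X x) (l : Path x x) (θ : C(I, ℝ)),
      Path.Homotopic.Quotient.mk l = FundamentalGroup.toPath g →
      (∀ s, F (l s) = Circle.exp (θ s)) → D g = Multiplicative.ofAdd (θ 1 - θ 0) := by
    intro g l θ hl hθ
    have hh : (rep g).Homotopic l := Path.Homotopic.Quotient.exact ((hrep g).trans hl.symm)
    have := gd_key F hh (hθc (rep g)) hθ
    show Multiplicative.ofAdd (θc (rep g) 1 - θc (rep g) 0) = _
    rw [this]
  have hmul : ∀ a b : FundamentalGroup X x, D (a * b) = D a * D b := by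
    intro a b
    obtain ⟨θ, hθ⟩ := gd_lift F ((rep b).trans (rep a))
    have h1 : D (a * b) = Multiplicative.ofAdd (θ 1 - θ 0) := by
      apply hD _ ((rep b).trans (rep a)) θ _ hθ
      rw [Path.Homotopic.Quotient.mk_trans, hrep, hrep]
      rfl
    let ha : C(I, I) := ⟨fun s => ⟨(s : ℝ) / 2, by
      have := s.2.1; have := s.2.2; constructor <;> linarith⟩, by fun_prop⟩
    let hb : C(I, I) := ⟨fun s => ⟨(1 + (s : ℝ)) / 2, by
      have := s.2.1; have := s.2.2; constructor <;> linarith⟩, by fun_prop⟩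
    have h2 : D b = Multiplicative.ofAdd ((θ.comp ha) 1 - (θ.comp ha) 0) := by
      apply hD _ (rep b) _ (hrep b)
      intro s
      have h3 := hθ (ha s)
      have h4 : ((rep b).trans (rep a)) (ha s) = rep b s := by
        rw [Path.trans_apply]
        have hs : ((ha s : I) : ℝ) ≤ 1 / 2 := by
          show (s : ℝ) / 2 ≤ 1 / 2
          have := s.2.2
          linarith
        rw [dif_pos hs]
        congr 1
        apply Subtype.ext
        show 2 * ((s : ℝ) / 2) = s
        ring
      rw [h4] at h3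
      exact h3
    have h2' : D a = Multiplicative.ofAdd ((θ.comp hb) 1 - (θ.comp hb) 0) := by
      apply hD _ (rep a) _ (hrep a)
      intro s
      have h3 := hθ (hb s)
      have h4 : ((rep b).trans (rep a)) (hb s) = rep a s := by
        rw [Path.trans_apply]
        by_cases hs : ((hb s : I) : ℝ) ≤ 1 / 2
        · rw [dif_pos hs]
          have hs' : (1 + (s : ℝ)) / 2 ≤ 1 / 2 := hs
          have h5 : (s : ℝ) = 0 := by
            have := s.2.1
            linarith
          have h6 : s = 0 := Subtype.ext h5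
          have h7 : (⟨2 * ((hb s : I) : ℝ), (unitInterval.mul_pos_mem_iff zero_lt_two).2
              ⟨(hb s).2.1, hs⟩⟩ : I) = 1 := by
            apply Subtype.ext
            show 2 * ((1 + (s : ℝ)) / 2) = 1
            rw [h5]; norm_num
          rw [h7, Path.target, h6, Path.source]
        · rw [dif_neg hs]
          congr 1
          apply Subtype.ext
          show 2 * ((1 + (s : ℝ)) / 2) - 1 = s
          ring
      rw [h4] at h3
      exact h3
    rw [h1, h2, h2', ← ofAdd_add]
    congr 1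
    have p0 : (ha 0 : I) = 0 := Subtype.ext (by show ((0 : I) : ℝ) / 2 = 0; simp)
    have p1 : (ha 1 : I) = hb 0 := Subtype.ext (by
      show ((1 : I) : ℝ) / 2 = (1 + ((0 : I) : ℝ)) / 2; simp)
    have p2 : (hb 1 : I) = 1 := Subtype.ext (by show (1 + ((1 : I) : ℝ)) / 2 = 1; norm_num)
    show θ 1 - θ 0 = (θ (hb 1) - θ (hb 0)) + (θ (ha 1) - θ (ha 0))
    rw [p0, p1, p2]
    ring
  refine ⟨Abelianization.lift (MonoidHom.mk' D hmul), ?_⟩
  intro l θ hθ
  rw [Abelianization.lift_apply_of]
  exact hD _ l θ rfl hθ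

end GM16
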