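import Pool.Agent.LibGM16.CWc

open Complex MeasureTheory Filter Topology Matrix
open scoped ContDiff Real ComplexOrder unitInterval

namespace GM16

variable {γ t : ℝ} {v v' f f' : ℂ → ℝ}

/-- descending a continuous function from `ℂ \ ZI` to the spectral curve -/
theorem GE_descend (φ : C(CW, Circle)) (hφ : ∀ (l : ℂ) (w w' : CW), l ∈ LL → w'.1 = l + w.1 →
    φ w' = φ w) : ∃ F : C((EX γ).Sig, Circle), ∀ w : CW, F (CWmap γ w) = φ w := by
  let cm : C(CW, (EX γ).Sig) := ⟨CWmap γ, CWmap_cont⟩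
  have hq : IsQuotientMap cm := CWmap_quot.toIsQuotientMap
  have hfac : Function.FactorsThrough φ cm := by
    intro a b hab
    replace hab : CWmap γ a = CWmap γ b := hab
    obtain ⟨g, hg⟩ := CWmap_quot.apply_eq_iff_mem_orbit.1 hab
    refine hφ g.1 b a ((mem_LL_iff _).2 g.2) ?_
    rw [← hg]
    rfl
  refine ⟨hq.lift φ hfac, fun w => ?_⟩
  exact congrFun (congrArg DFunLike.coe (hq.lift_comp φ hfac)) w

/-- The two circle valued functions `exp(iπ Re w)`, `exp(iπ Im w)` on the spectral curve. -/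
theorem circle_maps : ∃ F₁ F₂ : C((EX γ).Sig, Circle), ∀ (x : (EX γ).Sig) (w : ℂ), w ∉ ZI →
    wp w = x.1.1 → wpd w * x.1.2 = 1 →
      F₁ x = Circle.exp (π * w.re) ∧ F₂ x = Circle.exp (π * w.im) := by
  obtain ⟨F₁, h₁⟩ := GE_descend (γ := γ) ⟨fun w => Circle.exp (π * w.1.re), by
    exact Circle.exp.continuous.comp (continuous_const.mul
      (Complex.continuous_re.comp continuous_subtype_val))⟩ (by
    rintro l w w' ⟨m, n, rfl⟩ h
    show Circle.exp (π * w'.1.re) = Circle.exp (π * w.1.re)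
    rw [h]
    have e : π * ((2 * (m : ℂ) + 2 * n * Complex.I + w.1).re) = π * w.1.re + m * (2 * π) := by
      simp
      ring
    rw [e, Circle.exp_add, Circle.exp_int_mul_two_pi, mul_one])
  obtain ⟨F₂, h₂⟩ := GE_descend (γ := γ) ⟨fun w => Circle.exp (π * w.1.im), by
    exact Circle.exp.continuous.comp (continuous_const.mul
      (Complex.continuous_im.comp continuous_subtype_val))⟩ (by
    rintro l w w' ⟨m, n, rfl⟩ h
    show Circle.exp (π * w'.1.im) = Circle.exp (π * w.1.im)
    rw [h]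
    have e : π * ((2 * (m : ℂ) + 2 * n * Complex.I + w.1).im) = π * w.1.im + n * (2 * π) := by
      simp
      ring
    rw [e, Circle.exp_add, Circle.exp_int_mul_two_pi, mul_one])
  refine ⟨F₁, F₂, fun x w hw hx hy => ?_⟩
  have hx' := CWmap_eq hw hx hy
  rw [← hx', h₁, h₂]
  exact ⟨rfl, rfl⟩

end GM16
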