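import Pool.Agent.LibGM16.HA
import Pool.Agent.LibGM16.WF
import Pool.Agent.LibGM16.Cov

open Complex MeasureTheory Filter Topology Matrix
open scoped ContDiff Real ComplexOrder unitInterval

namespace GM16

variable {γ t : ℝ} {v v' f f' : ℂ → ℝ}

/-- paths in the spectral curve lift to `w` -/
theorem path_lift {x y : (EX γ).Sig} (δ : Path x y) {w₀ : ℂ} (h0 : w₀ ∉ ZI) (h1 : wp w₀ = x.1.1)
    (h2 : wpd w₀ * x.1.2 = 1) : ∃ W : C(I, ℂ), W 0 = w₀ ∧ ∀ s, W s ∉ ZI ∧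
      wp (W s) = (δ s).1.1 ∧ wpd (W s) * (δ s).1.2 = 1 := by
  have hx : covq γ ⟨w₀, h0⟩ = x := covq_eq_iff.2 ⟨h1, h2⟩
  obtain ⟨Γ, hΓ, hΓ0⟩ := (covq_isCoveringMap γ).exists_path_lifts (δ : C(I, (EX γ).Sig))
    ⟨w₀, h0⟩ (by rw [hx]; exact δ.source)
  refine ⟨⟨fun s => (Γ s : ℂ), by fun_prop⟩, ?_, ?_⟩
  · change ((Γ 0 : CovE) : ℂ) = w₀
    rw [hΓ0]
  · intro s
    have h : covq γ (Γ s) = δ s := congrFun hΓ s
    exact ⟨(Γ s).2, covq_eq_iff.1 h⟩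

end GM16
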