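import Pool.Agent.LibGM16.CWc
import Pool.Agent.LibGM16.GH

open Complex MeasureTheory Filter Topology Matrix
open scoped ContDiff Real ComplexOrder unitInterval

namespace GM16

variable {γ t : ℝ} {v v' f f' : ℂ → ℝ}

theorem GF_mulI {l : ℂ} (h : l ∈ L0.lattice) : Complex.I * l ∈ L0.lattice := by
  rw [← mem_LL_iff] at h ⊢
  obtain ⟨m, n, rfl⟩ := h
  refine ⟨-n, m, ?_⟩
  push_cast
  linear_combination (2 * n : ℂ) * Complex.I_mul_I

theorem GF_mulNegI {l : ℂ} (h : l ∈ L0.lattice) : -Complex.I * l ∈ L0.lattice := by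
  have := L0.lattice.neg_mem (GF_mulI h)
  rwa [← neg_mul] at this

/-- rotation of the lattice -/
noncomputable def GF_rot : L0.lattice ≃ L0.lattice where
  toFun l := ⟨Complex.I * l.1, GF_mulI l.2⟩
  invFun l := ⟨-Complex.I * l.1, GF_mulNegI l.2⟩
  left_inv l := Subtype.ext (by
    show -Complex.I * (Complex.I * l.1) = l.1
    linear_combination (-l.1) * Complex.I_mul_I)
  right_inv l := Subtype.ext (by
    show Complex.I * (-Complex.I * l.1) = l.1
    linear_combination (-l.1) * Complex.I_mul_I)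

theorem GF_wp_mulI (w : ℂ) : wp (Complex.I * w) = -wp w := by
  show L0.weierstrassP (Complex.I * w) = -L0.weierstrassP w
  unfold PeriodPair.weierstrassP
  rw [← GF_rot.tsum_eq, ← tsum_neg]
  apply tsum_congr
  intro l
  show 1 / (Complex.I * w - Complex.I * l.1) ^ 2 - 1 / (Complex.I * l.1) ^ 2 = _
  have h1 : (Complex.I * w - Complex.I * l.1) ^ 2 = -(w - l.1) ^ 2 := by
    linear_combination ((w - l.1) ^ 2) * Complex.I_mul_I
  have h2 : (Complex.I * l.1) ^ 2 = -l.1 ^ 2 := by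
    linear_combination (l.1 ^ 2) * Complex.I_mul_I
  rw [h1, h2, div_neg, div_neg]
  ring

theorem GF_e3 : e3 = 0 := by
  have h1 := GF_wp_mulI (1 + Complex.I)
  have h2 : Complex.I * (1 + Complex.I) = (1 + Complex.I) + (-2 : ℂ) := by
    linear_combination Complex.I_mul_I
  have h3 : (-2 : ℂ) ∈ LL := ⟨-1, 0, by push_cast; ring⟩
  rw [h2, (wp_per h3 _).1] at h1
  show wp (1 + Complex.I) = 0
  have h4 : (2 : ℂ) * wp (1 + Complex.I) = 0 := by linear_combination h1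
  simpa using h4

theorem GF_wp_ne {w : ℂ} (h : w ∉ ZI) : wp w ≠ 0 := by
  have h1 := (mem_U (γ := 0)).1 (wp_mem_U (γ := 0) h)
  rw [GF_e3] at h1
  exact h1.2.2

theorem GF_pts {p : Option ℂ} (hp : p ∈ (EX γ).pts) :
    p = none ∨ p = some e1 ∨ p = some e2 ∨ p = some e3 := by
  rcases hp with h | ⟨a, ha, h⟩
  · exact Or.inl h
  · right
    have ha' : a = e1 ∨ a = e2 ∨ a = e3 := by
      have : a ∈ ({e1, e2, e3} : Set ℂ) := ha
      simpa using this
    rcases ha' with rfl | rfl | rfl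
    · exact Or.inl h
    · exact Or.inr (Or.inl h)
    · exact Or.inr (Or.inr h)

/-- the compact part of the fundamental square -/
def GF_K : Set ℂ := {w | (|w.re| ≤ 1 ∧ |w.im| ≤ 1) ∧ 1 / 4 ≤ Metric.infDist w ZI}

theorem GF_K_compact : IsCompact GF_K := by
  have h1 : IsClosed {w : ℂ | 1 / 4 ≤ Metric.infDist w ZI} :=
    isClosed_le continuous_const (Metric.continuous_infDist_pt ZI)
  exact isCompact_sq_wd.inter_right h1

theorem GF_ZI_zero : (0 : ℂ) ∈ ZI := ⟨0, 0, by simp⟩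

theorem GF_K_notMem {w : ℂ} (h : w ∈ GF_K) : w ∉ ZI := by
  intro hw
  have h1 : Metric.infDist w ZI = 0 := Metric.infDist_zero_of_mem hw
  have h2 : (1 : ℝ) / 4 ≤ Metric.infDist w ZI := h.2
  rw [h1] at h2
  norm_num at h2

theorem GF_bound (g : ℂ → ℂ) (hg : ∀ w ∉ ZI, ContinuousAt g w) (hne : ∀ w ∉ ZI, g w ≠ 0) :
    ∃ ε > 0, ∀ w ∈ GF_K, ε ≤ ‖g w‖ := by
  rcases GF_K.eq_empty_or_nonempty with h | h
  · exact ⟨1, one_pos, fun w hw => by rw [h] at hw; exact hw.elim⟩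
  · obtain ⟨w₀, hw₀, hmin⟩ := GF_K_compact.exists_isMinOn h
      (fun w hw => (hg w (GF_K_notMem hw)).norm.continuousWithinAt)
    exact ⟨‖g w₀‖, norm_pos_iff.2 (hne w₀ (GF_K_notMem hw₀)), fun w hw => hmin hw⟩

theorem GF_infDist {l : ℂ} (hl : l ∈ ZI) (w : ℂ) : Metric.infDist (w + l) ZI = Metric.infDist w ZI := by
  have h1 : (fun z : ℂ => z + l) '' ZI = ZI := by
    ext z
    constructor
    · rintro ⟨y, hy, rfl⟩
      exact ZI_add hy hl
    · intro hz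
      exact ⟨z + -l, ZI_add hz (ZI_neg hl), by simp⟩
  have h2 : Isometry (fun z : ℂ => z + l) := isometry_add_right l
  conv_lhs => rw [← h1]
  exact Metric.infDist_image h2

theorem GF_reduce (w : ℂ) : ∃ l ∈ LL, |(w + l).re| ≤ 1 ∧ |(w + l).im| ≤ 1 := by
  obtain ⟨n, hn, hQ⟩ := exists_ZI_add_mem_QQ (w / 2)
  refine ⟨2 * n, two_mul_mem_LL.2 hn, ?_, ?_⟩
  · have h := hQ.1
    have e : (w + 2 * n).re = 2 * (w / 2 + n).re := by
      simp
      ring
    rw [e, abs_mul, abs_of_pos (by norm_num : (0 : ℝ) < 2)]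
    linarith
  · have h := hQ.2
    have e : (w + 2 * n).im = 2 * (w / 2 + n).im := by
      simp
      ring
    rw [e, abs_mul, abs_of_pos (by norm_num : (0 : ℝ) < 2)]
    linarith

theorem GF_eps : ∃ ε > 0, ∀ p ∈ (EX γ).pts, ∀ w : ℂ, w ∉ ZI → ‖coord p (wp w)‖ < ε →
    Metric.infDist w ZI < 1 / 4 := by
  have hc : ∀ w ∉ ZI, ContinuousAt wp w := fun w hw => (wp_analytic (CW_LL hw)).1.continuousAt
  obtain ⟨ε₀, h0, H0⟩ := GF_bound (fun w => (wp w)⁻¹) (fun w hw => (hc w hw).inv₀ (GF_wp_ne hw))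
    (fun w hw => inv_ne_zero (GF_wp_ne hw))
  have hU : ∀ w : ℂ, w ∉ ZI → wp w ≠ e1 ∧ wp w ≠ e2 ∧ wp w ≠ e3 := fun w hw =>
    (mem_U (γ := γ)).1 (wp_mem_U hw)
  obtain ⟨ε₁, h1, H1⟩ := GF_bound (fun w => wp w - e1) (fun w hw => (hc w hw).sub continuousAt_const)
    (fun w hw => sub_ne_zero.2 (hU w hw).1)
  obtain ⟨ε₂, h2, H2⟩ := GF_bound (fun w => wp w - e2) (fun w hw => (hc w hw).sub continuousAt_const)
    (fun w hw => sub_ne_zero.2 (hU w hw).2.1)
  obtain ⟨ε₃, h3, H3⟩ := GF_bound (fun w => wp w - e3) (fun w hw => (hc w hw).sub continuousAt_const)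
    (fun w hw => sub_ne_zero.2 (hU w hw).2.2)
  refine ⟨min (min ε₀ ε₁) (min ε₂ ε₃), lt_min (lt_min h0 h1) (lt_min h2 h3), ?_⟩
  intro p hp w hw hlt
  by_contra hcon
  push Not at hcon
  obtain ⟨l, hl, hsq⟩ := GF_reduce w
  have hK : w + l ∈ GF_K := ⟨hsq, by rwa [GF_infDist (LL_sub_ZI hl)]⟩
  have hwp : wp (w + l) = wp w := (wp_per hl w).1
  have a0 := H0 _ hK
  have a1 := H1 _ hK
  have a2 := H2 _ hK
  have a3 := H3 _ hK
  simp only [hwp] at a0 a1 a2 a3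
  have m0 : min (min ε₀ ε₁) (min ε₂ ε₃) ≤ ε₀ := (min_le_left _ _).trans (min_le_left _ _)
  have m1 : min (min ε₀ ε₁) (min ε₂ ε₃) ≤ ε₁ := (min_le_left _ _).trans (min_le_right _ _)
  have m2 : min (min ε₀ ε₁) (min ε₂ ε₃) ≤ ε₂ := (min_le_right _ _).trans (min_le_left _ _)
  have m3 : min (min ε₀ ε₁) (min ε₂ ε₃) ≤ ε₃ := (min_le_right _ _).trans (min_le_right _ _)
  rcases GF_pts hp with rfl | rfl | rfl | rfl
  · have : ‖(wp w)⁻¹‖ < min (min ε₀ ε₁) (min ε₂ ε₃) := hlt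
    linarith
  · have : ‖wp w - e1‖ < min (min ε₀ ε₁) (min ε₂ ε₃) := hlt
    linarith
  · have : ‖wp w - e2‖ < min (min ε₀ ε₁) (min ε₂ ε₃) := hlt
    linarith
  · have : ‖wp w - e3‖ < min (min ε₀ ε₁) (min ε₂ ε₃) := hlt
    linarith

/-- Over small punctured discs around the marked points, `w` is a continuous function modulo
lattice translations: there are continuous logarithms. -/
theorem small_lift : ∃ ε > 0, ∀ p ∈ (EX γ).pts, ∀ (y : (EX γ).Sig) (l : Path y y),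
    (∀ s, ‖coord p (l s).1.1‖ < ε) →
    ∃ W : C(I, ℂ), W 0 = W 1 ∧ ∀ s, W s ∉ ZI ∧ wp (W s) = (l s).1.1 ∧
      wpd (W s) * (l s).1.2 = 1 := by
  obtain ⟨ε, hε, H⟩ := GF_eps (γ := γ)
  refine ⟨ε, hε, fun p hp y l hl => ?_⟩
  obtain ⟨⟨w₀, hw₀⟩, hw₀y⟩ := CWmap_surj (γ := γ) y
  have hs0 := CWmap_spec (γ := γ) ⟨w₀, hw₀⟩
  rw [hw₀y] at hs0
  obtain ⟨W, hW0, hW⟩ := path_lift l hw₀ hs0.1 hs0.2
  refine ⟨W, ?_, hW⟩
  have hd : ∀ s, Metric.infDist (W s) ZI < 1 / 4 := by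
    intro s
    apply H p hp _ (hW s).1
    rw [(hW s).2.1]
    exact hl s
  have hn : ∀ s, ∃ n ∈ ZI, ‖W s - n‖ < 1 / 4 := by
    intro s
    obtain ⟨n, hn, h⟩ := (Metric.infDist_lt_iff ⟨0, GF_ZI_zero⟩).1 (hd s)
    exact ⟨n, hn, by rwa [dist_eq_norm] at h⟩
  obtain ⟨n₀, hn₀, h0⟩ := hn 0
  have hgap : ∀ s, ‖W s - n₀‖ ≤ 1 / 2 → ‖W s - n₀‖ < 1 / 4 := by
    intro s hs
    obtain ⟨n, hnZ, h⟩ := hn s
    by_cases hnn : n = n₀
    · rwa [hnn] at h
    · exfalso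
      have h1 : n - n₀ ∈ ZI := by
        have := ZI_add hnZ (ZI_neg hn₀)
        rwa [← sub_eq_add_neg] at this
      have h2 := one_le_norm_ZI h1 (sub_ne_zero.2 hnn)
      have h3 : ‖n - n₀‖ ≤ ‖W s - n₀‖ + ‖W s - n‖ := by
        have e : n - n₀ = (W s - n₀) - (W s - n) := by ring
        rw [e]
        exact norm_sub_le _ _
      linarith
  have hcont : Continuous fun s => ‖W s - n₀‖ := by fun_prop
  have hclopen : IsClopen {s | ‖W s - n₀‖ ≤ 1 / 2} := by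
    constructor
    · exact isClosed_le hcont continuous_const
    · have e : {s | ‖W s - n₀‖ ≤ 1 / 2} = {s | ‖W s - n₀‖ < 1 / 2} := by
        ext s
        constructor
        · intro h
          have := hgap s h
          show ‖W s - n₀‖ < 1 / 2
          linarith
        · intro h
          have h' : ‖W s - n₀‖ < 1 / 2 := h
          exact le_of_lt h'
      rw [e]
      exact isOpen_lt hcont continuous_const
  have huniv := hclopen.eq_univ ⟨0, by show ‖W 0 - n₀‖ ≤ 1 / 2; linarith⟩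
  have h1 : ‖W 1 - n₀‖ < 1 / 4 := hgap 1 (by
    have : (1 : I) ∈ {s | ‖W s - n₀‖ ≤ 1 / 2} := by rw [huniv]; trivial
    exact this)
  have hLL : W 0 - W 1 ∈ LL := by
    have a0 := hW 0
    have a1 := hW 1
    rw [l.source] at a0
    rw [l.target] at a1
    have hne : y.1.2 ≠ 0 := by
      intro h
      rw [h, mul_zero] at a0
      exact zero_ne_one a0.2.2
    apply wp_core_wc (CW_LL a1.1) (CW_LL a0.1)
    · rw [a0.2.1, a1.2.1]
    · exact mul_right_cancel₀ hne (a1.2.2.trans a0.2.2.symm)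
  have hsmall : ‖W 0 - W 1‖ < 1 := by
    have e : W 0 - W 1 = (W 0 - n₀) - (W 1 - n₀) := by ring
    rw [e]
    have := norm_sub_le (W 0 - n₀) (W 1 - n₀)
    linarith
  exact sub_eq_zero.1 (CW_lattice_norm hLL hsmall)

end GM16
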