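import Pool.Agent.LibGM16.GA
import Pool.Agent.LibGM16.GB
import Pool.Agent.LibGM16.GD
import Pool.Agent.LibGM16.GE
import Pool.Agent.LibGM16.GF
import Pool.Agent.LibGM16.GH

open Complex MeasureTheory Filter Topology Matrix
open scoped ContDiff Real ComplexOrder unitInterval

namespace GM16

variable {γ t : ℝ} {v v' f f' : ℂ → ℝ}

private lemma gi_trans {X Y : Type*} [TopologicalSpace X] [TopologicalSpace Y] (R : X → Y → Prop)
    {a b c : X} {a' b' c' : Y} (p : Path a b) (q : Path b c) (p' : Path a' b') (q' : Path b' c')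
    (hp : ∀ s, R (p s) (p' s)) (hq : ∀ s, R (q s) (q' s)) :
    ∀ s, R ((p.trans q) s) ((p'.trans q') s) := by
  intro s
  rw [Path.trans_apply, Path.trans_apply]
  split_ifs with h
  · exact hp _
  · exact hq _

/-- a homomorphism that is computed by lifts kills the peripheral classes -/
private lemma gi_kill {x : (EX γ).Sig} {ε : ℝ}
    (hlift : ∀ p ∈ (EX γ).pts, ∀ (y : (EX γ).Sig) (l : Path y y),
      (∀ s, ‖coord p (l s).1.1‖ < ε) →
      ∃ W : C(I, ℂ), W 0 = W 1 ∧ ∀ s, W s ∉ ZI ∧ wp (W s) = (l s).1.1 ∧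
        wpd (W s) * (l s).1.2 = 1)
    (F : C((EX γ).Sig, Circle)) (r : ℂ → ℝ) (hr : Continuous r)
    (hF : ∀ (x : (EX γ).Sig) (w : ℂ), w ∉ ZI → wp w = x.1.1 → wpd w * x.1.2 = 1 →
      F x = Circle.exp (r w))
    (Φ : Abelianization (FundamentalGroup (EX γ).Sig x) →* Multiplicative ℝ)
    (hΦ : ∀ (l : Path x x) (θ : C(I, ℝ)), (∀ s, F (l s) = Circle.exp (θ s)) →
        Φ (Abelianization.of (FundamentalGroup.fromPath (Path.Homotopic.Quotient.mk l))) =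
          Multiplicative.ofAdd (θ 1 - θ 0)) :
    (EX γ).peripheral x ε ≤ Φ.ker := by
  unfold ParHiggs.peripheral
  rw [Subgroup.closure_le]
  rintro a ⟨p, hp, y, δ, l, hl, rfl⟩
  show Φ _ = 1
  obtain ⟨W, hW01, hW⟩ := hlift p hp y l hl
  obtain ⟨hW0, hW0p, hW0d⟩ := hW 0
  rw [l.source] at hW0p hW0d
  obtain ⟨V, hV0, hV⟩ := path_lift δ.symm hW0 hW0p hW0d
  let PV : Path (W 0) (V 1) := ⟨V, hV0, rfl⟩
  let PW : Path (W 0) (W 0) := ⟨W, rfl, hW01.symm⟩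
  let R : ℂ → (EX γ).Sig → Prop := fun w x => w ∉ ZI ∧ wp w = x.1.1 ∧ wpd w * x.1.2 = 1
  have h1 : ∀ s, R (PV.symm s) (δ s) := by
    intro s
    have h := hV (unitInterval.symm s)
    have e : (δ.symm : Path y x) (unitInterval.symm s) = δ s := by
      show δ (unitInterval.symm (unitInterval.symm s)) = δ s
      rw [unitInterval.symm_symm]
    rw [e] at h
    exact h
  have h2 : ∀ s, R (PW s) (l s) := hW
  have h3 : ∀ s, R (PV s) (δ.symm s) := hV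
  have h4 := gi_trans R (PV.symm.trans PW) PV (δ.trans l) δ.symm
    (gi_trans R PV.symm PW δ l h1 h2) h3
  let P := (PV.symm.trans PW).trans PV
  let θ : C(I, ℝ) := ⟨fun s => r (P s), hr.comp P.continuous⟩
  have h5 : ∀ s, F (((δ.trans l).trans δ.symm) s) = Circle.exp (θ s) := by
    intro s
    exact hF _ _ (h4 s).1 (h4 s).2.1 (h4 s).2.2
  have h6 := hΦ _ θ h5
  have h7 : θ 1 - θ 0 = 0 := by
    show r (P 1) - r (P 0) = 0
    rw [P.source, P.target, sub_self]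
  rw [h7] at h6
  exact h6

theorem nonperipheral {c : ℂ} {g : ℝ → (EX γ).Sig} (h : (EX γ).ClosedGeodesic c g) :
    (EX γ).NonPeripheral g := by
  obtain ⟨w₀, hw⟩ := develop h
  obtain ⟨ε, hε, hlift⟩ := small_lift (γ := γ)
  obtain ⟨F₁, F₂, hF⟩ := circle_maps (γ := γ)
  refine ⟨h.cont, h.per, ε, hε, fun hmem => ?_⟩
  obtain ⟨Φ₁, hΦ₁⟩ := degree F₁ (g 0)
  obtain ⟨Φ₂, hΦ₂⟩ := degree F₂ (g 0)
  have k1 := gi_kill hlift F₁ (fun w => π * w.re) (by fun_prop)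
    (fun x w a b c => (hF x w a b c).1) Φ₁ hΦ₁ hmem
  have k2 := gi_kill hlift F₂ (fun w => π * w.im) (by fun_prop)
    (fun x w a b c => (hF x w a b c).2) Φ₂ hΦ₂ hmem
  rw [MonoidHom.mem_ker] at k1 k2
  let θ₁ : C(I, ℝ) := ⟨fun s => π * (w₀ + ((s : ℝ) : ℂ) * c).re, by fun_prop⟩
  let θ₂ : C(I, ℝ) := ⟨fun s => π * (w₀ + ((s : ℝ) : ℂ) * c).im, by fun_prop⟩
  have l1 := hΦ₁ ((EX γ).toPath h.cont h.per) θ₁ (fun s => by
    obtain ⟨a, b, d⟩ := hw s
    exact (hF (g s) _ a b d).1)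
  have l2 := hΦ₂ ((EX γ).toPath h.cont h.per) θ₂ (fun s => by
    obtain ⟨a, b, d⟩ := hw s
    exact (hF (g s) _ a b d).2)
  have m1 : Multiplicative.ofAdd (θ₁ 1 - θ₁ 0) = 1 := l1.symm.trans k1
  have m2 : Multiplicative.ofAdd (θ₂ 1 - θ₂ 0) = 1 := l2.symm.trans k2
  have n1 : θ₁ 1 - θ₁ 0 = 0 := ofAdd_eq_one.mp m1
  have n2 : θ₂ 1 - θ₂ 0 = 0 := ofAdd_eq_one.mp m2
  have q1 : π * (w₀ + (((1 : I) : ℝ) : ℂ) * c).re - π * (w₀ + (((0 : I) : ℝ) : ℂ) * c).re = 0 := n1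
  have q2 : π * (w₀ + (((1 : I) : ℝ) : ℂ) * c).im - π * (w₀ + (((0 : I) : ℝ) : ℂ) * c).im = 0 := n2
  have c1 : c.re = 0 := by
    have : π * c.re = 0 := by
      rw [← q1]; simp; ring
    exact (mul_eq_zero.mp this).resolve_left Real.pi_ne_zero
  have c2 : c.im = 0 := by
    have : π * c.im = 0 := by
      rw [← q2]; simp; ring
    exact (mul_eq_zero.mp this).resolve_left Real.pi_ne_zero
  exact h.ne (Complex.ext c1 c2)

end GM16
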