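import Pool.Agent.LibGM16.GI
import Pool.Agent.LibGM16.GC

open Complex MeasureTheory Filter Topology Matrix
open scoped ContDiff Real ComplexOrder

namespace GM16

variable {γ t : ℝ} {v v' f f' : ℂ → ℝ}

/-- `M = 2`. -/
theorem least_length : IsLeast {l : ℝ | ∃ (c : ℂ) (g : ℝ → (EX γ).Sig),
    (EX γ).ClosedGeodesic c g ∧ (EX γ).NonPeripheral g ∧ (EX γ).length g = l} 2 := by
  constructor
  · obtain ⟨g, hg⟩ := exists_geodesic (γ := γ)
    refine ⟨2, g, hg, nonperipheral hg, ?_⟩
    rw [length_eq hg]
    simp
  · rintro l ⟨c, g, hg, -, rfl⟩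
    rw [length_eq hg]
    obtain ⟨m, n, hc⟩ := closed_period hg
    have hre : c.re = 2 * m := by rw [hc]; simp
    have him : c.im = 2 * n := by rw [hc]; simp
    by_cases hm : m = 0
    · have hn : n ≠ 0 := by
        intro hn
        apply hg.ne
        rw [hc, hm, hn]
        simp
      have h1 : (1 : ℝ) ≤ |(n : ℝ)| := by
        have := Int.one_le_abs hn
        exact_mod_cast this
      have h2 := Complex.abs_im_le_norm c
      rw [him, abs_mul] at h2
      have h3 : |(2 : ℝ)| = 2 := by norm_num
      rw [h3] at h2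
      linarith
    · have h1 : (1 : ℝ) ≤ |(m : ℝ)| := by
        have := Int.one_le_abs hm
        exact_mod_cast this
      have h2 := Complex.abs_re_le_norm c
      rw [hre, abs_mul] at h2
      have h3 : |(2 : ℝ)| = 2 := by norm_num
      rw [h3] at h2
      linarith

end GM16
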