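import Pool.Agent.LibGM16.Defs

open Complex MeasureTheory Filter Topology Matrix
open scoped ContDiff Real ComplexOrder

namespace GM16

variable {γ t : ℝ} {v v' f f' : ℂ → ℝ}

private theorem cosh_eighth : Real.cosh (1 / 8) ≤ 128 / 127 := by
  have h1 := Real.cosh_le_exp_half_sq (1 / 8)
  have h2 : Real.exp ((1 / 8 : ℝ) ^ 2 / 2) ≤ 1 / (1 - (1 / 8 : ℝ) ^ 2 / 2) :=
    Real.exp_bound_div_one_sub_of_interval (by norm_num) (by norm_num)
  have h3 : 1 / (1 - (1 / 8 : ℝ) ^ 2 / 2) = 128 / 127 := by norm_num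
  linarith

private theorem sinh_eighth : Real.sinh (1 / 8) ≤ 126 / 1000 := by
  have h1 := cosh_eighth
  have h2 := Real.cosh_sq (1 / 8)
  have h3 := Real.cosh_pos (1 / 8)
  by_contra h
  push Not at h
  have h4 : Real.cosh (1 / 8) ^ 2 ≤ (128 / 127) ^ 2 := by
    apply pow_le_pow_left₀ h3.le h1
  nlinarith

private theorem exp_aux {u : ℝ} (hu : 0 ≤ u) :
    Real.cosh u ≤ 1 + u * Real.exp u ∧ Real.sinh u ≤ u * Real.exp u := by
  have h1 : 1 - u ≤ Real.exp (-u) := by
    have := Real.add_one_le_exp (-u)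
    linarith
  have hp := Real.exp_pos u
  have h2 : Real.exp u - 1 ≤ u * Real.exp u := by
    have h3 : Real.exp u * Real.exp (-u) = 1 := by
      rw [← Real.exp_add]; simp
    nlinarith [mul_le_mul_of_nonneg_left h1 hp.le]
  have h4 : Real.exp (-u) ≤ 1 := by
    rw [Real.exp_le_one_iff]; linarith
  have h5 : 1 ≤ Real.exp u := Real.one_le_exp hu
  have h6 : Real.exp u * Real.exp (-u) = 1 := by
    rw [← Real.exp_add]; simp
  constructor
  · rw [Real.cosh_eq]
    linarith
  · rw [Real.sinh_eq]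
    have : 2 ≤ Real.exp u + Real.exp (-u) := by
      nlinarith [sq_nonneg (Real.exp u - Real.exp (-u)), sq_nonneg (Real.exp u - 1)]
    linarith

/-- Elementary inequalities for `S(y) = sinh 2y - 2y`. -/
theorem num_S : ∃ C : ℝ, 0 < C ∧ ∀ γ s x y : ℝ, 0 ≤ γ → γ ≤ 1 / 8 → 0 ≤ s → |x| ≤ 1 / 16 →
    |y| ≤ 1 / 16 →
    |Real.sinh (2 * (γ * s + x)) - 2 * (γ * s + x)| ≤ 1 / 1000 + C * γ * (s * Real.exp (s / 4)) ∧
    |(Real.sinh (2 * (γ * s + x)) - 2 * (γ * s + x)) -
      (Real.sinh (2 * (γ * s + y)) - 2 * (γ * s + y))| ≤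
        (1 / 50 + C * γ * (s * Real.exp (s / 4))) * |x - y| ∧
    |Real.cosh (2 * (γ * s + x)) - 1| ≤ 1 / 100 + C * γ * (s * Real.exp (s / 4)) ∧
    |Real.sinh (2 * (γ * s + x))| ≤ 13 / 100 + C * γ * (s * Real.exp (s / 4)) := by
  refine ⟨8, by norm_num, ?_⟩
  intro γ s x y hγ hγ' hs hx hy
  set u : ℝ := 2 * (γ * s) with hu_def
  have hu : 0 ≤ u := by positivity
  have hus : u ≤ s / 4 := by nlinarith
  obtain ⟨hc, hsh⟩ := exp_aux hu
  have hexp : Real.exp u ≤ Real.exp (s / 4) := Real.exp_le_exp.mpr hus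
  set P : ℝ := u * Real.exp u with hP
  have hP0 : 0 ≤ P := by positivity
  have hPle : P ≤ 2 * γ * (s * Real.exp (s / 4)) := by
    have : P ≤ u * Real.exp (s / 4) := mul_le_mul_of_nonneg_left hexp hu
    calc P ≤ u * Real.exp (s / 4) := this
      _ = _ := by rw [hu_def]; ring
  set A : ℝ := u + 1 / 8 with hA
  have hA0 : 0 ≤ A := by positivity
  have c1 := cosh_eighth
  have s1 := sinh_eighth
  have s1' : 0 ≤ Real.sinh (1 / 8) := Real.sinh_nonneg_iff.mpr (by norm_num)
  have c1' := Real.one_le_cosh (1 / 8)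
  have su0 : 0 ≤ Real.sinh u := Real.sinh_nonneg_iff.mpr hu
  have cu0 := Real.one_le_cosh u
  have hcA : Real.cosh A ≤ 101 / 100 + 2 * P := by
    rw [hA, Real.cosh_add]
    have e1 : Real.cosh u * Real.cosh (1 / 8) ≤ (1 + P) * (128 / 127) :=
      mul_le_mul hc c1 (by linarith) (by linarith)
    have e2 : Real.sinh u * Real.sinh (1 / 8) ≤ P * (126 / 1000) :=
      mul_le_mul hsh s1 s1' hP0
    nlinarith
  have hsA : Real.sinh A ≤ 126 / 1000 + 2 * P := by
    rw [hA, Real.sinh_add]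
    have e1 : Real.sinh u * Real.cosh (1 / 8) ≤ P * (128 / 127) :=
      mul_le_mul hsh c1 (by linarith) hP0
    have e2 : Real.cosh u * Real.sinh (1 / 8) ≤ (1 + P) * (126 / 1000) :=
      mul_le_mul hc s1 s1' (by linarith)
    nlinarith
  have hmem : ∀ z : ℝ, |z| ≤ 1 / 16 → |2 * (γ * s + z)| ≤ A := by
    intro z hz
    rw [abs_le] at hz ⊢
    constructor <;> nlinarith [hz.1, hz.2]
  have wx := hmem x hx
  have wy := hmem y hy
  have hcw : ∀ w : ℝ, |w| ≤ A → Real.cosh w ≤ Real.cosh A := by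
    intro w hw
    rw [Real.cosh_le_cosh, abs_of_nonneg hA0]
    exact hw
  have hE : 0 ≤ γ * (s * Real.exp (s / 4)) := by positivity
  refine ⟨?_, ?_, ?_, ?_⟩
  · have hm := Real.sinh_sub_id_strictMono.monotone
    have h1 := hm (abs_le.mp wx).2
    have h2 := hm (abs_le.mp wx).1
    simp only [Real.sinh_neg] at h1 h2
    rw [abs_le]
    constructor <;> linarith
  · have key := Convex.norm_image_sub_le_of_norm_hasDerivWithin_le
      (f := fun w : ℝ => Real.sinh w - w) (f' := fun w => Real.cosh w - 1)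
      (s := Set.Icc (-A) A) (C := Real.cosh A - 1)
      (x := 2 * (γ * s + y)) (y := 2 * (γ * s + x))
      (fun w _ => ((Real.hasDerivAt_sinh w).sub (hasDerivAt_id' w)).hasDerivWithinAt)
      (fun w hw => by
        rw [Real.norm_eq_abs, abs_of_nonneg (by linarith [Real.one_le_cosh w])]
        have := hcw w (abs_le.mpr hw)
        linarith)
      (convex_Icc _ _) (abs_le.mp wy) (abs_le.mp wx)
    simp only [Real.norm_eq_abs] at key
    have e : |2 * (γ * s + x) - 2 * (γ * s + y)| = 2 * |x - y| := by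
      rw [show 2 * (γ * s + x) - 2 * (γ * s + y) = 2 * (x - y) by ring, abs_mul]
      norm_num
    rw [e] at key
    refine key.trans ?_
    have hxy := abs_nonneg (x - y)
    have : (Real.cosh A - 1) * 2 ≤ 1 / 50 + 8 * γ * (s * Real.exp (s / 4)) := by linarith
    calc (Real.cosh A - 1) * (2 * |x - y|) = ((Real.cosh A - 1) * 2) * |x - y| := by ring
      _ ≤ _ := mul_le_mul_of_nonneg_right this hxy
  · rw [abs_of_nonneg (by linarith [Real.one_le_cosh (2 * (γ * s + x))])]
    have := hcw _ wx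
    linarith
  · have h1 := Real.sinh_le_sinh.mpr (abs_le.mp wx).2
    have h2 := Real.sinh_le_sinh.mpr (abs_le.mp wx).1
    rw [Real.sinh_neg] at h2
    rw [abs_le]
    constructor <;> linarith

end GM16
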