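import Pool.Agent.LibGM16.KBas
import Pool.Agent.LibGM16.Latt

open Complex MeasureTheory Filter Topology Matrix
open scoped ContDiff Real ComplexOrder ENNReal

namespace GM16

variable {γ t : ℝ} {v v' f f' : ℂ → ℝ}

theorem rho_meas (T : ℝ) : Measurable (rho T) := by
  have hl : Measurable (latD T) := (Metric.continuous_infDist_pt (LT T)).measurable
  unfold rho
  exact Measurable.ite (measurableSet_lt hl measurable_const) (hl.pow_const _) measurable_const

theorem rho_nonneg (T : ℝ) (w : ℂ) : 0 ≤ rho T w := by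
  unfold rho
  split_ifs
  · exact Real.rpow_nonneg Metric.infDist_nonneg _
  · exact le_rfl

theorem rhob_I1 : Integrable (fun x : ℂ => Real.exp (-(4 * ‖x‖)) * ‖x‖⁻¹) := by
  have h := (integrable_fun_norm_addHaar (volume : Measure ℂ)
    (f := fun r : ℝ => Real.exp (-(4 * r)) * r⁻¹)).mpr
  apply h
  rw [Complex.finrank_real_complex]
  have h2 : IntegrableOn (fun r : ℝ => Real.exp (-4 * r)) (Set.Ioi 0) :=
    exp_neg_integrableOn_Ioi 0 (by norm_num)
  refine h2.congr_fun (fun r hr => ?_) measurableSet_Ioi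
  have hr' : (0 : ℝ) < r := hr
  simp only [smul_eq_mul]
  rw [show (2 - 1 : ℕ) = 1 from rfl, pow_one]
  field_simp

theorem rhob_I2 : Integrable (fun x : ℂ => Real.exp (-(4 * ‖x‖))) := by
  have h := (integrable_fun_norm_addHaar (volume : Measure ℂ)
    (f := fun r : ℝ => Real.exp (-(4 * r)))).mpr
  apply h
  rw [Complex.finrank_real_complex]
  have h2 : IntegrableOn (fun r : ℝ => Real.exp (-3 * r)) (Set.Ioi 0) :=
    exp_neg_integrableOn_Ioi 0 (by norm_num)
  refine Integrable.mono' h2 ?_ ?_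
  · apply Continuous.aestronglyMeasurable
    fun_prop
  · refine (ae_restrict_iff' measurableSet_Ioi).mpr (Eventually.of_forall fun r hr => ?_)
    have hr' : (0 : ℝ) < r := hr
    rw [show (2 - 1 : ℕ) = 1 from rfl, pow_one, smul_eq_mul, Real.norm_of_nonneg (by positivity)]
    have h3 : r ≤ Real.exp r := by
      have := Real.add_one_le_exp r
      linarith
    calc r * Real.exp (-(4 * r)) ≤ Real.exp r * Real.exp (-(4 * r)) :=
          mul_le_mul_of_nonneg_right h3 (Real.exp_pos _).le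
      _ = Real.exp (-3 * r) := by rw [← Real.exp_add]; ring_nf

theorem rhob_sep {T : ℝ} (hT : 1 ≤ T) {l l' : ℂ} (hl : l ∈ LT T) (hl' : l' ∈ LT T) (hne : l ≠ l') :
    1 ≤ ‖l - l'‖ := by
  obtain ⟨m, n, rfl⟩ := hl
  obtain ⟨m', n', rfl⟩ := hl'
  have h1 : (T : ℂ) * (m + n * I) - T * (m' + n' * I) =
      T * (((m - m' : ℤ) : ℂ) + ((n - n' : ℤ) : ℂ) * I) := by push_cast; ring
  rw [h1, norm_mul]
  have h2 : 1 ≤ ‖((m - m' : ℤ) : ℂ) + ((n - n' : ℤ) : ℂ) * I‖ := by
    apply one_le_norm_ZI ⟨m - m', n - n', rfl⟩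
    intro h0
    apply hne
    have : (T : ℂ) * (m + n * I) - T * (m' + n' * I) = 0 := by rw [h1, h0, mul_zero]
    exact sub_eq_zero.mp this
  have h3 : ‖(T : ℂ)‖ = T := by
    rw [Complex.norm_real, Real.norm_of_nonneg (by linarith)]
  rw [h3]
  nlinarith

theorem rhob_dist {T : ℝ} (hT : 1 ≤ T) {l z : ℂ} (hl : l ∈ LT T) (hz : ‖z - l‖ < 1 / 4) :
    latD T z = ‖z - l‖ := by
  unfold latD
  apply le_antisymm
  · rw [← dist_eq_norm]
    exact Metric.infDist_le_dist_of_mem hl
  · rw [Metric.le_infDist ⟨l, hl⟩]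
    intro y hy
    by_cases hly : l = y
    · subst hly
      rw [dist_eq_norm]
    · have h1 := rhob_sep hT hl hy hly
      have h2 : ‖l - y‖ ≤ ‖z - y‖ + ‖z - l‖ := by
        have : l - y = (z - y) - (z - l) := by ring
        rw [this]
        exact norm_sub_le _ _
      rw [dist_eq_norm]
      linarith

/-- index of the lattice -/
noncomputable def rhob_pt (T : ℝ) (p : ℤ × ℤ) : ℂ := T * (p.1 + p.2 * I)

theorem rhob_pt_mem (T : ℝ) (p : ℤ × ℤ) : rhob_pt T p ∈ LT T := ⟨p.1, p.2, rfl⟩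

theorem rhob_pt_inj {T : ℝ} (hT : 1 ≤ T) {p q : ℤ × ℤ} (h : rhob_pt T p = rhob_pt T q) : p = q := by
  unfold rhob_pt at h
  have hT0 : (T : ℂ) ≠ 0 := by
    exact_mod_cast (show T ≠ 0 by linarith)
  have h1 := mul_left_cancel₀ hT0 h
  have h2 := congrArg Complex.re h1
  have h3 := congrArg Complex.im h1
  simp at h2 h3
  exact Prod.ext h2 h3

theorem rhob_disj {T : ℝ} (hT : 1 ≤ T) :
    Pairwise (Function.onFun Disjoint fun p : ℤ × ℤ => Metric.ball (rhob_pt T p) (1 / 4)) := by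
  intro p q hpq
  show Disjoint (Metric.ball (rhob_pt T p) (1 / 4)) (Metric.ball (rhob_pt T q) (1 / 4))
  apply Metric.ball_disjoint_ball
  rw [dist_eq_norm]
  have := rhob_sep hT (rhob_pt_mem T p) (rhob_pt_mem T q) (fun h => hpq (rhob_pt_inj hT h))
  linarith

/-- lower integral of the squared weight -/
theorem rhob_sq : ∃ B : ℝ≥0∞, B ≠ ⊤ ∧ ∀ T : ℝ, 1 ≤ T → ∀ W : ℂ,
    ∫⁻ z, ENNReal.ofReal (Real.exp (-(4 * ‖W - z‖)) * rho T z ^ 2) ≤ B := by
  set G : ℂ → ℝ≥0∞ := (Metric.ball (0 : ℂ) (1 / 4)).indicator (fun z => ENNReal.ofReal ‖z‖⁻¹) with hG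
  set M : ℝ≥0∞ := ∫⁻ z, G z with hM
  set V : ℝ≥0∞ := volume (Metric.ball (0 : ℂ) (1 / 4)) with hV
  set A : ℝ≥0∞ := ∫⁻ z : ℂ, ENNReal.ofReal (Real.exp (-(4 * ‖z‖))) with hA
  have hA' : A ≠ ⊤ := by
    have := rhob_I2.lintegral_lt_top
    exact this.ne
  have hV0 : V ≠ 0 := (Metric.measure_ball_pos _ _ (by norm_num)).ne'
  have hVt : V ≠ ⊤ := measure_ball_lt_top.ne
  have hMt : M ≠ ⊤ := by
    have h1 : M ≤ ENNReal.ofReal (Real.exp 1) *
        ∫⁻ z : ℂ, ENNReal.ofReal (Real.exp (-(4 * ‖z‖)) * ‖z‖⁻¹) := by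
      rw [hM, ← lintegral_const_mul' _ _ ENNReal.ofReal_ne_top]
      apply lintegral_mono
      intro z
      rw [hG]
      by_cases hz : z ∈ Metric.ball (0 : ℂ) (1 / 4)
      · rw [Set.indicator_of_mem hz]
        beta_reduce
        rw [← ENNReal.ofReal_mul (Real.exp_pos _).le]
        apply ENNReal.ofReal_le_ofReal
        rw [← mul_assoc, ← Real.exp_add]
        rw [mem_ball_zero_iff] at hz
        have h2 : 1 ≤ Real.exp (1 + -(4 * ‖z‖)) := Real.one_le_exp (by linarith)
        have h3 : 0 ≤ ‖z‖⁻¹ := by positivity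
        nlinarith
      · rw [Set.indicator_of_notMem hz]
        exact zero_le
    refine ne_top_of_le_ne_top ?_ h1
    exact ENNReal.mul_ne_top ENNReal.ofReal_ne_top rhob_I1.lintegral_lt_top.ne
  refine ⟨ENNReal.ofReal (Real.exp 2) * (M / V) * A, ?_, ?_⟩
  · exact ENNReal.mul_ne_top (ENNReal.mul_ne_top ENNReal.ofReal_ne_top
      (ENNReal.div_ne_top hMt hV0)) hA'
  intro T hT W
  set D : ℤ × ℤ → Set ℂ := fun p => Metric.ball (rhob_pt T p) (1 / 4) with hD
  have hDm : ∀ p, MeasurableSet (D p) := fun p => measurableSet_ball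
  -- reduce to the union of the discs
  have hsupp : ∫⁻ z, ENNReal.ofReal (Real.exp (-(4 * ‖W - z‖)) * rho T z ^ 2) =
      ∫⁻ z in ⋃ p, D p, ENNReal.ofReal (Real.exp (-(4 * ‖W - z‖)) * rho T z ^ 2) := by
    rw [← lintegral_indicator (MeasurableSet.iUnion hDm)]
    apply lintegral_congr
    intro z
    by_cases hz : z ∈ ⋃ p, D p
    · rw [Set.indicator_of_mem hz]
    · rw [Set.indicator_of_notMem hz]
      have : rho T z = 0 := by
        unfold rho
        rw [if_neg]
        intro hlt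
        unfold latD at hlt
        rw [Metric.infDist_lt_iff ⟨_, rhob_pt_mem T (0, 0)⟩] at hlt
        obtain ⟨l, ⟨m, n, rfl⟩, hl⟩ := hlt
        apply hz
        rw [Set.mem_iUnion]
        exact ⟨(m, n), hl⟩
      rw [this]
      simp
  rw [hsupp, lintegral_iUnion hDm (rhob_disj hT)]
  have hone : ∀ p, ∫⁻ z in D p, ENNReal.ofReal (Real.exp (-(4 * ‖W - z‖)) * rho T z ^ 2) ≤
      ENNReal.ofReal (Real.exp 2) * (M / V) *
        ∫⁻ z in D p, ENNReal.ofReal (Real.exp (-(4 * ‖W - z‖))) := by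
    intro p
    set l := rhob_pt T p with hl
    set α := Real.exp (-(4 * ‖W - l‖)) with hα
    have hα0 : 0 < α := Real.exp_pos _
    have hup : ∫⁻ z in D p, ENNReal.ofReal (Real.exp (-(4 * ‖W - z‖)) * rho T z ^ 2) ≤
        ENNReal.ofReal (Real.exp 1 * α) * M := by
      have h1 : M = ∫⁻ z, G (z - l) := (lintegral_sub_right_eq_self G l).symm
      rw [h1, ← lintegral_const_mul' _ _ ENNReal.ofReal_ne_top, ← lintegral_indicator (hDm p)]
      apply lintegral_mono
      intro z
      by_cases hz : z ∈ D p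
      · rw [Set.indicator_of_mem hz]
        have hz' : ‖z - l‖ < 1 / 4 := by
          have := hz
          rw [hD] at this
          rwa [← dist_eq_norm]
        have hz2 : z - l ∈ Metric.ball (0 : ℂ) (1 / 4) := by rwa [mem_ball_zero_iff]
        beta_reduce
        rw [hG, Set.indicator_of_mem hz2, ← ENNReal.ofReal_mul (by positivity)]
        apply ENNReal.ofReal_le_ofReal
        have h2 : rho T z ^ 2 ≤ ‖z - l‖⁻¹ := by
          unfold rho
          rw [rhob_dist hT (rhob_pt_mem T p) hz', if_pos hz']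
          rw [← Real.rpow_natCast, ← Real.rpow_mul (norm_nonneg _)]
          rw [show -(1 / 2 : ℝ) * ((2 : ℕ) : ℝ) = -1 by norm_num, Real.rpow_neg_one]
        have h3 : Real.exp (-(4 * ‖W - z‖)) ≤ Real.exp 1 * α := by
          rw [hα, ← Real.exp_add]
          apply Real.exp_le_exp.mpr
          have : ‖W - l‖ ≤ ‖W - z‖ + ‖z - l‖ := by
            have : W - l = (W - z) + (z - l) := by ring
            rw [this]
            exact norm_add_le _ _
          linarith
        exact mul_le_mul h3 h2 (sq_nonneg _) (by positivity)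
      · rw [Set.indicator_of_notMem hz]
        exact zero_le
    have hlo : ENNReal.ofReal (Real.exp (-1) * α) * V ≤
        ∫⁻ z in D p, ENNReal.ofReal (Real.exp (-(4 * ‖W - z‖))) := by
      have h1 : V = volume (D p) := by
        rw [hV, hD]
        simp only
        rw [Complex.volume_ball, Complex.volume_ball]
      rw [h1, ← setLIntegral_const]
      apply setLIntegral_mono' (hDm p)
      intro z hz
      apply ENNReal.ofReal_le_ofReal
      have hz' : ‖z - l‖ < 1 / 4 := by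
        have := hz
        rw [hD] at this
        rwa [← dist_eq_norm]
      rw [hα, ← Real.exp_add]
      apply Real.exp_le_exp.mpr
      have : ‖W - z‖ ≤ ‖W - l‖ + ‖z - l‖ := by
        have : W - z = (W - l) - (z - l) := by ring
        rw [this]
        exact norm_sub_le _ _
      linarith
    calc ∫⁻ z in D p, ENNReal.ofReal (Real.exp (-(4 * ‖W - z‖)) * rho T z ^ 2)
        ≤ ENNReal.ofReal (Real.exp 1 * α) * M := hup
      _ = ENNReal.ofReal (Real.exp 2) * ENNReal.ofReal (Real.exp (-1) * α) * ((M / V) * V) := by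
          have h6 : Real.exp 1 = Real.exp 2 * Real.exp (-1) := by
            rw [← Real.exp_add]
            norm_num
          have h5 : Real.exp 1 * α = Real.exp 2 * (Real.exp (-1) * α) := by
            rw [h6, mul_assoc]
          rw [ENNReal.div_mul_cancel hV0 hVt, ← ENNReal.ofReal_mul (Real.exp_pos _).le, ← h5]
      _ = ENNReal.ofReal (Real.exp 2) * (M / V) * (ENNReal.ofReal (Real.exp (-1) * α) * V) := by
          ring
      _ ≤ _ := by gcongr
  calc ∑' p, ∫⁻ z in D p, ENNReal.ofReal (Real.exp (-(4 * ‖W - z‖)) * rho T z ^ 2)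
      ≤ ∑' p, ENNReal.ofReal (Real.exp 2) * (M / V) *
        ∫⁻ z in D p, ENNReal.ofReal (Real.exp (-(4 * ‖W - z‖))) := ENNReal.tsum_le_tsum hone
    _ = ENNReal.ofReal (Real.exp 2) * (M / V) *
        ∫⁻ z in ⋃ p, D p, ENNReal.ofReal (Real.exp (-(4 * ‖W - z‖))) := by
        rw [ENNReal.tsum_mul_left, lintegral_iUnion hDm (rhob_disj hT)]
    _ ≤ ENNReal.ofReal (Real.exp 2) * (M / V) *
        ∫⁻ z, ENNReal.ofReal (Real.exp (-(4 * ‖W - z‖))) := by
        gcongr
        exact Measure.restrict_le_self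
    _ = ENNReal.ofReal (Real.exp 2) * (M / V) * A := by
        congr 1
        exact lintegral_sub_left_eq_self (fun z : ℂ => ENNReal.ofReal (Real.exp (-(4 * ‖z‖)))) W

/-- The uniform bound for the singular weight (`K(x) ρ(z) ≤ C e^{-4|x|} (|x|⁻¹ + ρ(z)²)/2`, and `ρ²`
has bounded integral over unit squares). -/
theorem KK_rho : ∃ c₁ : ℝ, 0 < c₁ ∧ ∀ T : ℝ, 1 ≤ T → ∀ W : ℂ,
    Integrable (fun z => KK (W - z) * rho T z) ∧ ∫ z, KK (W - z) * rho T z ≤ c₁ := by
  obtain ⟨B, hB, hBle⟩ := rhob_sq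
  obtain ⟨C, hC, hCle⟩ := kK_le
  set A₁ : ℝ≥0∞ := ∫⁻ z : ℂ, ENNReal.ofReal (Real.exp (-(4 * ‖z‖)) * ‖z‖⁻¹) with hA₁
  have hA₁t : A₁ ≠ ⊤ := rhob_I1.lintegral_lt_top.ne
  have hKKle : ∀ x : ℂ, KK x ≤ C * (Real.exp (-(4 * ‖x‖)) * ‖x‖ ^ (-(1 / 2) : ℝ)) := by
    intro x
    rcases (norm_nonneg x).eq_or_lt with h | h
    · have h1 : KK x = 0 := by
        unfold KK kK
        rw [← h]
        have : ∫ u in Set.Ioi (0 : ℝ), Real.exp (-(4 * 0 * Real.cosh u)) = 0 := by
          simp [Measure.real]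
        rw [this, mul_zero]
      rw [h1]
      positivity
    · exact hCle _ h
  have hpt : ∀ T : ℝ, ∀ W z : ℂ, KK (W - z) * rho T z ≤
      C * (Real.exp (-(4 * ‖W - z‖)) * ‖W - z‖⁻¹ + Real.exp (-(4 * ‖W - z‖)) * rho T z ^ 2) := by
    intro T W z
    set x := W - z
    set s := ‖x‖ ^ (-(1 / 2) : ℝ) with hs
    have hs0 : 0 ≤ s := Real.rpow_nonneg (norm_nonneg _) _
    have hs2 : s ^ 2 = ‖x‖⁻¹ := by
      rw [hs, ← Real.rpow_natCast, ← Real.rpow_mul (norm_nonneg _)]
      rw [show -(1 / 2 : ℝ) * ((2 : ℕ) : ℝ) = -1 by norm_num, Real.rpow_neg_one]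
    have hr := rho_nonneg T z
    have he := Real.exp_pos (-(4 * ‖x‖))
    calc KK x * rho T z ≤ C * (Real.exp (-(4 * ‖x‖)) * s) * rho T z :=
          mul_le_mul_of_nonneg_right (hKKle x) hr
      _ = C * Real.exp (-(4 * ‖x‖)) * (s * rho T z) := by ring
      _ ≤ C * Real.exp (-(4 * ‖x‖)) * (s ^ 2 + rho T z ^ 2) := by
          apply mul_le_mul_of_nonneg_left _ (by positivity)
          nlinarith [sq_nonneg (s - rho T z)]
      _ = _ := by rw [hs2]; ring
  have hle : ∀ T : ℝ, 1 ≤ T → ∀ W : ℂ, ∫⁻ z, ENNReal.ofReal (KK (W - z) * rho T z) ≤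
      ENNReal.ofReal C * (A₁ + B) := by
    intro T hT W
    calc ∫⁻ z, ENNReal.ofReal (KK (W - z) * rho T z)
        ≤ ∫⁻ z, ENNReal.ofReal C * (ENNReal.ofReal (Real.exp (-(4 * ‖W - z‖)) * ‖W - z‖⁻¹) +
            ENNReal.ofReal (Real.exp (-(4 * ‖W - z‖)) * rho T z ^ 2)) := by
          apply lintegral_mono
          intro z
          simp only
          rw [← ENNReal.ofReal_add (by positivity) (by positivity), ← ENNReal.ofReal_mul hC.le]
          exact ENNReal.ofReal_le_ofReal (hpt T W z)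
      _ = ENNReal.ofReal C * ((∫⁻ z, ENNReal.ofReal (Real.exp (-(4 * ‖W - z‖)) * ‖W - z‖⁻¹)) +
            ∫⁻ z, ENNReal.ofReal (Real.exp (-(4 * ‖W - z‖)) * rho T z ^ 2)) := by
          rw [lintegral_const_mul' _ _ ENNReal.ofReal_ne_top, lintegral_add_left]
          apply ENNReal.measurable_ofReal.comp
          apply Measurable.mul
          · apply Continuous.measurable
            fun_prop
          · apply Measurable.inv
            apply Continuous.measurable
            fun_prop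
      _ ≤ ENNReal.ofReal C * (A₁ + B) := by
          gcongr
          · rw [hA₁]
            exact (lintegral_sub_left_eq_self
              (fun z : ℂ => ENNReal.ofReal (Real.exp (-(4 * ‖z‖)) * ‖z‖⁻¹)) W).le
          · exact hBle T hT W
  have htop : ENNReal.ofReal C * (A₁ + B) ≠ ⊤ :=
    ENNReal.mul_ne_top ENNReal.ofReal_ne_top (ENNReal.add_ne_top.mpr ⟨hA₁t, hB⟩)
  refine ⟨(ENNReal.ofReal C * (A₁ + B)).toReal + 1, by positivity, fun T hT W => ?_⟩
  have hm : Measurable (fun z => KK (W - z) * rho T z) :=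
    (KK_meas.comp (measurable_const.sub measurable_id)).mul (rho_meas T)
  have hnn : ∀ z, 0 ≤ KK (W - z) * rho T z := fun z => mul_nonneg (kK_nonneg _) (rho_nonneg T z)
  constructor
  · refine ⟨hm.aestronglyMeasurable, ?_⟩
    rw [hasFiniteIntegral_iff_ofReal (Eventually.of_forall hnn)]
    exact lt_of_le_of_lt (hle T hT W) htop.lt_top
  · rw [integral_eq_lintegral_of_nonneg_ae (Eventually.of_forall hnn) hm.aestronglyMeasurable]
    have := ENNReal.toReal_mono htop (hle T hT W)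
    linarith

end GM16
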