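import Pool.Agent.LibGM16.Latt
import Pool.Agent.LibGM16.RhoB

open Complex MeasureTheory Filter Topology Matrix
open scoped ContDiff Real ComplexOrder

namespace GM16

variable {γ t : ℝ} {v v' f f' : ℂ → ℝ}

/-- the distance to the lattice is the distance to `l` on the disc of radius `1/2` around `l` -/
theorem SingA_latD {T : ℝ} (hT : 1 ≤ T) {l z : ℂ} (hl : l ∈ LT T) (hz : ‖z - l‖ < 1 / 2) :
    latD T z = ‖z - l‖ := by
  unfold latD
  apply le_antisymm
  · rw [← dist_eq_norm]
    exact Metric.infDist_le_dist_of_mem hl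
  · rw [Metric.le_infDist ⟨l, hl⟩]
    intro y hy
    by_cases hly : l = y
    · subst hly
      rw [dist_eq_norm]
    · have h1 := rhob_sep hT hl hy hly
      have h2 : ‖l - y‖ ≤ ‖z - y‖ + ‖z - l‖ := by
        have : l - y = (z - y) - (z - l) := by ring
        rw [this]
        exact norm_sub_le _ _
      rw [dist_eq_norm]
      linarith

theorem SingA_zero {T : ℝ} {w : ℂ} (h : 1 / 4 ≤ latD T w) : sing T w = 0 := by
  unfold sing
  rw [Real.smoothTransition.zero_of_nonpos (by linarith)]
  simp

theorem SingA_latD_nonneg (T : ℝ) (w : ℂ) : 0 ≤ latD T w := Metric.infDist_nonneg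

theorem SingA_le {T : ℝ} {w : ℂ} (h : latD T w ≤ 1) : 0 ≤ sing T w ∧
    sing T w ≤ -Real.log (latD T w) := by
  unfold sing
  have h0 := SingA_latD_nonneg T w
  have h1 : Real.log (latD T w) ≤ 0 := Real.log_nonpos h0 h
  have h2 := Real.smoothTransition.nonneg (2 - 8 * latD T w)
  have h3 := Real.smoothTransition.le_one (2 - 8 * latD T w)
  constructor <;> nlinarith

theorem sing_nonneg {T : ℝ} (hT : 1 ≤ T) (w : ℂ) : 0 ≤ sing T w := by
  rcases le_or_gt (1 / 4) (latD T w) with h | h
  · rw [SingA_zero h]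
  · exact (SingA_le (by linarith)).1

theorem sing_near {T : ℝ} (hT : 1 ≤ T) {l w : ℂ} (hl : l ∈ LT T) (hw : ‖w - l‖ ≤ 1 / 8) :
    sing T w = -Real.log ‖w - l‖ := by
  unfold sing
  rw [SingA_latD hT hl (by linarith), Real.smoothTransition.one_of_one_le (by linarith)]
  simp

theorem SingA_latD_add {T : ℝ} {l : ℂ} (hl : ∀ z, z + l ∈ LT T ↔ z ∈ LT T) (w : ℂ) :
    latD T (w + l) = latD T w := by
  have h1 : (fun z : ℂ => z + l) '' LT T = LT T := by
    ext z
    constructor
    · rintro ⟨y, hy, rfl⟩
      exact (hl y).2 hy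
    · intro hz
      refine ⟨z - l, ?_, by simp⟩
      have := hl (z - l)
      rw [sub_add_cancel] at this
      exact this.1 hz
  have h2 : Isometry (fun z : ℂ => z + l) := isometry_add_right l
  unfold latD
  conv_lhs => rw [← h1]
  exact Metric.infDist_image h2

theorem SingA_mem1 (T : ℝ) (z : ℂ) : z + T ∈ LT T ↔ z ∈ LT T := by
  constructor
  · rintro ⟨m, n, h⟩
    refine ⟨m - 1, n, ?_⟩
    push_cast
    linear_combination h
  · rintro ⟨m, n, h⟩
    refine ⟨m + 1, n, ?_⟩
    push_cast
    linear_combination h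

theorem SingA_mem2 (T : ℝ) (z : ℂ) : z + T * I ∈ LT T ↔ z ∈ LT T := by
  constructor
  · rintro ⟨m, n, h⟩
    refine ⟨m, n - 1, ?_⟩
    push_cast
    linear_combination h
  · rintro ⟨m, n, h⟩
    refine ⟨m, n + 1, ?_⟩
    push_cast
    linear_combination h

theorem sing_per {T : ℝ} (hT : 1 ≤ T) (w : ℂ) :
    sing T (w + T) = sing T w ∧ sing T (w + T * I) = sing T w ∧
    rho T (w + T) = rho T w ∧ rho T (w + T * I) = rho T w := by
  have h1 := SingA_latD_add (SingA_mem1 T) w
  have h2 := SingA_latD_add (SingA_mem2 T) w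
  unfold sing rho
  rw [h1, h2]
  exact ⟨rfl, rfl, rfl, rfl⟩

theorem SingA_pos {T : ℝ} (hT : 1 ≤ T) {w : ℂ} (hw : w ∉ LT T) : 0 < latD T w := by
  unfold latD
  exact (isClosed_LT (by linarith)).notMem_iff_infDist_pos ⟨_, rhob_pt_mem T (0, 0)⟩ |>.1 hw

/-- `s e^{s/4} ≤ 2 ρ` -/
theorem sing_rho {T : ℝ} (hT : 1 ≤ T) {w : ℂ} (hw : w ∉ LT T) :
    sing T w * Real.exp (sing T w / 4) ≤ 2 * rho T w := by
  rcases le_or_gt (1 / 4) (latD T w) with h | h
  · rw [SingA_zero h]
    have := rho_nonneg T w
    linarith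
  · obtain ⟨h1, h2⟩ := SingA_le (T := T) (w := w) (by linarith)
    have hd := SingA_pos hT hw
    set d := latD T w with hdd
    set x := -Real.log d with hx
    have hρ : rho T w = Real.exp (x / 2) := by
      unfold rho
      rw [if_pos h, ← hdd, Real.rpow_def_of_pos hd]
      congr 1
      rw [hx]
      ring
    rw [hρ]
    have hx0 : 0 ≤ x := h1.trans h2
    have h3 : sing T w * Real.exp (sing T w / 4) ≤ x * Real.exp (x / 4) := by
      apply mul_le_mul h2 _ (Real.exp_pos _).le hx0
      apply Real.exp_le_exp.mpr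
      linarith
    have h4 : x ≤ 2 * Real.exp (x / 4) := by
      have h5 : Real.exp (x / 4) = Real.exp (x / 8) ^ 2 := by
        rw [← Real.exp_nat_mul]
        congr 1
        push_cast
        ring
      have h6 := Real.add_one_le_exp (x / 8)
      have h7 : (x / 8 + 1) ^ 2 ≤ Real.exp (x / 8) ^ 2 := by
        apply pow_le_pow_left₀ (by linarith) h6
      rw [h5]
      nlinarith [sq_nonneg (x - 8)]
    have h8 : Real.exp (x / 2) = Real.exp (x / 4) * Real.exp (x / 4) := by
      rw [← Real.exp_add]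
      ring_nf
    rw [h8]
    have h9 := Real.exp_pos (x / 4)
    nlinarith

theorem sing_meas (T : ℝ) : Measurable (sing T) ∧ Measurable (lap (sing T)) := by
  have hl : Measurable (latD T) := (Metric.continuous_infDist_pt (LT T)).measurable
  constructor
  · unfold sing
    have h1 : Measurable Real.smoothTransition := Real.smoothTransition.continuous.measurable
    exact ((h1.comp (measurable_const.sub (hl.const_mul 8))).mul
      (Real.measurable_log.comp hl)).neg
  · unfold lap
    apply Measurable.add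
    · exact measurable_fderiv_apply_const ℝ _ _
    · exact measurable_fderiv_apply_const ℝ _ _

end GM16
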