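import Pool.Agent.LibGM16.SingA
import Pool.Agent.LibGM16.CalcB

open Complex MeasureTheory Filter Topology Matrix
open scoped ContDiff Real ComplexOrder

namespace GM16

variable {γ t : ℝ} {v v' f f' : ℂ → ℝ}

/-- the radial profile -/
noncomputable def SingB_F (r : ℝ) : ℝ := -(Real.smoothTransition (2 - 8 * r) * Real.log r)

theorem SingB_F_smooth {r : ℝ} (hr : r ≠ 0) : ContDiffAt ℝ ∞ SingB_F r := by
  unfold SingB_F
  apply ContDiffAt.neg
  apply ContDiffAt.mul
  · have h : ContDiff ℝ ∞ fun r : ℝ => Real.smoothTransition (2 - 8 * r) :=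
      Real.smoothTransition.contDiff.comp (by fun_prop)
    exact h.contDiffAt
  · exact Real.contDiffAt_log.mpr hr

theorem SingB_exists {T : ℝ} {w : ℂ} {d : ℝ} (h : latD T w < d) :
    ∃ l ∈ LT T, ‖w - l‖ < d := by
  unfold latD at h
  rw [Metric.infDist_lt_iff ⟨_, rhob_pt_mem T (0, 0)⟩] at h
  obtain ⟨l, hl, h⟩ := h
  exact ⟨l, hl, by rwa [dist_eq_norm] at h⟩

theorem SingB_near {T : ℝ} (hT : 1 ≤ T) {l w : ℂ} (hl : l ∈ LT T) (hw : ‖w - l‖ < 1 / 2) :
    sing T =ᶠ[𝓝 w] fun z => SingB_F ‖z - l‖ := by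
  have h1 : ∀ᶠ z in 𝓝 w, ‖z - l‖ < 1 / 2 := by
    have : Continuous fun z : ℂ => ‖z - l‖ := by fun_prop
    exact this.continuousAt.eventually_lt continuousAt_const hw
  filter_upwards [h1] with z hz
  unfold sing SingB_F
  rw [SingA_latD hT hl hz]

theorem SingB_far {T : ℝ} {w : ℂ} (hw : 1 / 4 < latD T w) :
    sing T =ᶠ[𝓝 w] fun _ => (0 : ℝ) := by
  have h1 : ∀ᶠ z in 𝓝 w, 1 / 4 < latD T z := by
    have : Continuous (latD T) := Metric.continuous_infDist_pt (LT T)
    exact continuousAt_const.eventually_lt this.continuousAt hw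
  filter_upwards [h1] with z hz
  exact SingA_zero hz.le

theorem SingB_ne {T : ℝ} {l w : ℂ} (hl : l ∈ LT T) (hw : w ∉ LT T) : w ≠ l := by
  rintro rfl
  exact hw hl

theorem sing_smooth {T : ℝ} (hT : 1 ≤ T) : ContDiffOn ℝ ∞ (sing T) (LT T)ᶜ := by
  intro w hw
  apply ContDiffAt.contDiffWithinAt
  rcases lt_or_ge (latD T w) (1 / 2) with h | h
  · obtain ⟨l, hl, hwl⟩ := SingB_exists h
    have hne : w ≠ l := SingB_ne hl hw
    have hn : ‖w - l‖ ≠ 0 := norm_ne_zero_iff.mpr (sub_ne_zero.mpr hne)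
    have h1 : ContDiffAt ℝ ∞ (fun z => SingB_F ‖z - l‖) w := by
      apply ContDiffAt.comp w (SingB_F_smooth hn)
      exact (contDiffAt_id.sub contDiffAt_const).norm ℝ (sub_ne_zero.mpr hne)
    exact h1.congr_of_eventuallyEq (SingB_near hT hl hwl)
  · have h1 : ContDiffAt ℝ ∞ (fun _ : ℂ => (0 : ℝ)) w := contDiffAt_const
    exact h1.congr_of_eventuallyEq (SingB_far (by linarith))

/-- the radial Laplacian of the profile -/
noncomputable def SingB_L (r : ℝ) : ℝ := deriv (deriv SingB_F) r + deriv SingB_F r / r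

theorem SingB_F_log {r : ℝ} (hr : r < 1 / 8) : SingB_F =ᶠ[𝓝 r] fun x => -Real.log x := by
  filter_upwards [gt_mem_nhds hr] with x hx
  unfold SingB_F
  rw [Real.smoothTransition.one_of_one_le (by linarith)]
  simp

theorem SingB_F_zero {r : ℝ} (hr : 1 / 4 < r) : SingB_F =ᶠ[𝓝 r] fun _ => (0 : ℝ) := by
  filter_upwards [lt_mem_nhds hr] with x hx
  unfold SingB_F
  rw [Real.smoothTransition.zero_of_nonpos (by linarith)]
  simp

theorem SingB_L_log {r : ℝ} (hr0 : 0 < r) (hr : r < 1 / 8) : SingB_L r = 0 := by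
  have h1 : deriv SingB_F =ᶠ[𝓝 r] fun x => -x⁻¹ := by
    have h2 : ∀ᶠ x in 𝓝 r, x < 1 / 8 := gt_mem_nhds hr
    filter_upwards [h2] with x hx
    rw [(SingB_F_log hx).deriv_eq, deriv.fun_neg, Real.deriv_log]
  unfold SingB_L
  rw [h1.deriv_eq, h1.eq_of_nhds, deriv.fun_neg, deriv_inv]
  field_simp
  ring

theorem SingB_L_zero {r : ℝ} (hr : 1 / 4 < r) : SingB_L r = 0 := by
  have h1 : deriv SingB_F =ᶠ[𝓝 r] fun _ => (0 : ℝ) := by
    have h2 : ∀ᶠ x in 𝓝 r, 1 / 4 < x := lt_mem_nhds hr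
    filter_upwards [h2] with x hx
    rw [(SingB_F_zero hx).deriv_eq, deriv_const]
  unfold SingB_L
  rw [h1.deriv_eq, h1.eq_of_nhds, deriv_const]
  simp

theorem SingB_L_cont : ContinuousOn SingB_L (Set.Ioi 0) := by
  have h0 : ContDiffOn ℝ ∞ SingB_F (Set.Ioi 0) := fun r hr =>
    (SingB_F_smooth (ne_of_gt hr)).contDiffWithinAt
  have h1 : ContDiffOn ℝ ∞ (deriv SingB_F) (Set.Ioi 0) :=
    h0.deriv_of_isOpen isOpen_Ioi (by simp)
  have h2 : ContDiffOn ℝ ∞ (deriv (deriv SingB_F)) (Set.Ioi 0) :=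
    h1.deriv_of_isOpen isOpen_Ioi (by simp)
  unfold SingB_L
  apply ContinuousOn.add h2.continuousOn
  exact h1.continuousOn.div continuousOn_id fun x hx => ne_of_gt hx

theorem SingB_L_quarter {r : ℝ} (hr : 1 / 4 ≤ r) : SingB_L r = 0 := by
  rcases hr.lt_or_eq with h | h
  · exact SingB_L_zero h
  · subst h
    have hc : ContinuousAt SingB_L (1 / 4) :=
      SingB_L_cont.continuousAt (Ioi_mem_nhds (by norm_num))
    have h1 : Tendsto SingB_L (𝓝[>] (1 / 4)) (𝓝 (SingB_L (1 / 4))) :=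
      hc.tendsto.mono_left nhdsWithin_le_nhds
    have h2 : Tendsto SingB_L (𝓝[>] (1 / 4)) (𝓝 0) := by
      apply Tendsto.congr' _ tendsto_const_nhds
      filter_upwards [self_mem_nhdsWithin] with x hx
      exact (SingB_L_zero hx).symm
    exact tendsto_nhds_unique h1 h2

theorem SingB_lap {T : ℝ} (hT : 1 ≤ T) {l w : ℂ} (hl : l ∈ LT T) (hw : ‖w - l‖ < 1 / 2)
    (hne : w ≠ l) : lap (sing T) w = SingB_L ‖w - l‖ := by
  have hn : ‖w - l‖ ≠ 0 := norm_ne_zero_iff.mpr (sub_ne_zero.mpr hne)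
  rw [lap_congr (SingB_near hT hl hw)]
  exact lap_radial hne ((SingB_F_smooth hn).of_le (by norm_cast))

/-- `|16 s - Δs| ≤ C (1 + ρ)`, indeed `≤ C ρ`. -/
theorem sing_lap : ∃ C : ℝ, 0 < C ∧ ∀ T : ℝ, 1 ≤ T → ∀ w ∉ LT T,
    |16 * sing T w - lap (sing T) w| ≤ C * rho T w := by
  obtain ⟨B, hB⟩ : ∃ B : ℝ, ∀ r ∈ Set.Icc (1 / 8 : ℝ) (1 / 4), ‖SingB_L r‖ ≤ B := by
    apply isCompact_Icc.exists_bound_of_continuousOn
    apply SingB_L_cont.mono
    intro r hr
    have := hr.1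
    exact lt_of_lt_of_le (by norm_num) this
  have hB0 : 0 ≤ B := (norm_nonneg _).trans (hB (1 / 8) ⟨le_refl _, by norm_num⟩)
  refine ⟨32 + B, by linarith, fun T hT w hw => ?_⟩
  rcases lt_or_ge (latD T w) (1 / 4) with h | h
  · obtain ⟨l, hl, hwl⟩ := SingB_exists h
    have hne : w ≠ l := SingB_ne hl hw
    have hd := SingA_pos hT hw
    have hdl : latD T w = ‖w - l‖ := SingA_latD hT hl (by linarith)
    rw [SingB_lap hT hl (by linarith) hne, ← hdl]
    have hρ : rho T w = latD T w ^ (-(1 / 2) : ℝ) := by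
      unfold rho
      rw [if_pos h]
    have hρ1 : 1 ≤ rho T w := by
      rw [hρ]
      apply Real.one_le_rpow_of_pos_of_le_one_of_nonpos hd (by linarith) (by norm_num)
    have hs := sing_nonneg hT w
    have hsρ : sing T w ≤ 2 * rho T w := by
      refine le_trans ?_ (sing_rho hT hw)
      have : 1 ≤ Real.exp (sing T w / 4) := Real.one_le_exp (by linarith)
      nlinarith
    have hL : |SingB_L (latD T w)| ≤ B := by
      rcases lt_or_ge (latD T w) (1 / 8) with h8 | h8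
      · rw [SingB_L_log hd h8]
        simpa using hB0
      · exact hB _ ⟨h8, h.le⟩
    calc |16 * sing T w - SingB_L (latD T w)| ≤ |16 * sing T w| + |SingB_L (latD T w)| :=
          abs_sub _ _
      _ ≤ 16 * (2 * rho T w) + B := by
          rw [abs_of_nonneg (by linarith)]
          linarith
      _ ≤ (32 + B) * rho T w := by nlinarith
  · have hlap : lap (sing T) w = 0 := by
      rcases lt_or_ge (latD T w) (1 / 2) with h2 | h2
      · obtain ⟨l, hl, hwl⟩ := SingB_exists h2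
        have hne : w ≠ l := SingB_ne hl hw
        have hdl : latD T w = ‖w - l‖ := SingA_latD hT hl hwl
        rw [SingB_lap hT hl hwl hne, ← hdl]
        exact SingB_L_quarter h
      · rw [lap_congr (SingB_far (by linarith)), lap_const]
    rw [SingA_zero h, hlap]
    have := rho_nonneg T w
    simp only [mul_zero, sub_zero, abs_zero]
    positivity

end GM16
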