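import Pool.Agent.LibGM16.ExDefs
import Pool.Agent.LibGM16.SingA
import Pool.Agent.LibGM16.SingB
import Pool.Agent.LibGM16.NumS

open Complex MeasureTheory Filter Topology Matrix
open scoped ContDiff Real ComplexOrder

namespace GM16

variable {γ t : ℝ} {v v' f f' : ℂ → ℝ}

/-- bounds of the right hand sides, needed for `conv_weak` -/
theorem GU_bd {γ T : ℝ} (hγ : 0 < γ) (hγ' : γ ≤ 1 / 8) (hT : 1 ≤ T) {u f : ℂ → ℝ}
    (hu : Continuous u) (hf : Continuous f) (hub : ∀ z, |u z| ≤ 1 / 16) (hfb : ∀ z, |f z| ≤ 1 / 4) :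
    Measurable (fun z => GU γ T z (u z)) ∧ Measurable (fun z => GF γ T u z (f z)) ∧
    ∃ A B : ℝ, 0 ≤ A ∧ 0 ≤ B ∧ (∀ z ∉ LT T, |GU γ T z (u z)| ≤ A + B * rho T z) ∧
      (∀ z ∉ LT T, |GF γ T u z (f z)| ≤ A + B * rho T z) := by
  have hs := (sing_meas T).1
  have hl := (sing_meas T).2
  have hum := hu.measurable
  have hfm := hf.measurable
  have hrho : ∀ z, 0 ≤ rho T z := by
    intro z
    unfold rho
    split_ifs
    · exact Real.rpow_nonneg (by unfold latD; exact Metric.infDist_nonneg) _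
    · exact le_rfl
  have ha : Measurable fun z => 2 * (γ * sing T z + u z) := by fun_prop
  refine ⟨?_, ?_, ?_⟩
  · unfold GU
    exact (((((Real.measurable_sinh.comp ha).sub ha).const_mul 8).add
      (((hs.const_mul 16).sub hl).const_mul γ))).neg
  · unfold GF
    exact (((((Real.measurable_cosh.comp ha).sub measurable_const).const_mul 16).mul hfm).add
      ((Real.measurable_sinh.comp ha).const_mul 8)).neg
  · obtain ⟨C, hC, hS⟩ := num_S
    obtain ⟨C', hC', hL⟩ := sing_lap
    have hCγ : 0 < C * γ := mul_pos hC hγ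
    have hC'γ : 0 < C' * γ := mul_pos hC' hγ
    refine ⟨2, 24 * (C * γ) + C' * γ, by norm_num, by positivity, ?_, ?_⟩
    · intro z hz
      obtain ⟨h1, -, -, -⟩ := hS γ (sing T z) (u z) (u z) hγ.le hγ' (sing_nonneg hT z) (hub z)
        (hub z)
      have h2 := sing_rho hT hz
      have h3 := hL T hT z hz
      have hr := hrho z
      have h4 : C * γ * (sing T z * Real.exp (sing T z / 4)) ≤ C * γ * (2 * rho T z) :=
        mul_le_mul_of_nonneg_left h2 hCγ.le
      have h5 : 0 ≤ C * γ * rho T z := mul_nonneg hCγ.le hr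
      have h6 : γ * |16 * sing T z - lap (sing T) z| ≤ γ * (C' * rho T z) :=
        mul_le_mul_of_nonneg_left h3 hγ.le
      unfold GU
      rw [abs_neg]
      refine (abs_add_le _ _).trans ?_
      rw [abs_mul, abs_mul, abs_of_pos hγ, abs_of_pos (by norm_num : (0 : ℝ) < 8)]
      nlinarith
    · intro z hz
      obtain ⟨-, -, h1, h1'⟩ := hS γ (sing T z) (u z) (u z) hγ.le hγ' (sing_nonneg hT z) (hub z)
        (hub z)
      have h2 := sing_rho hT hz
      have hr := hrho z
      have h4 : C * γ * (sing T z * Real.exp (sing T z / 4)) ≤ C * γ * (2 * rho T z) :=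
        mul_le_mul_of_nonneg_left h2 hCγ.le
      have h5 : 0 ≤ C * γ * rho T z := mul_nonneg hCγ.le hr
      have h6 : 0 ≤ C' * γ * rho T z := mul_nonneg hC'γ.le hr
      have h7 : |Real.cosh (2 * (γ * sing T z + u z)) - 1| * |f z| ≤
          (1 / 100 + C * γ * (2 * rho T z)) * (1 / 4) :=
        mul_le_mul (h1.trans (by linarith)) (hfb z) (abs_nonneg _) (by linarith)
      unfold GF
      rw [abs_neg]
      refine (abs_add_le _ _).trans ?_
      rw [abs_mul, abs_mul, abs_mul, abs_of_pos (by norm_num : (0 : ℝ) < 8),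
        abs_of_pos (by norm_num : (0 : ℝ) < 16)]
      nlinarith

end GM16
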