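import Pool.Agent.LibGM16.CalcB
import Pool.Agent.LibGM16.CalcC
import Pool.Agent.LibGM16.CalcD

open Complex MeasureTheory Filter Topology Matrix
open scoped ContDiff Real ComplexOrder

namespace GM16

variable {γ t : ℝ} {v v' f f' : ℂ → ℝ}

/-- a quadratic polynomial -/
private noncomputable def Grad_q (A B C : ℝ) (z : ℂ) : ℝ := A * z.im ^ 2 + B * z.re ^ 2 + C * z.re

private theorem Grad_q_fd (A B C : ℝ) (z : ℂ) : HasFDerivAt (Grad_q A B C)
    ((2 * A * z.im) • Complex.imCLM + (2 * B * z.re + C) • Complex.reCLM) z := by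
  have h1 : HasFDerivAt (fun z : ℂ => z.im) Complex.imCLM z := Complex.imCLM.hasFDerivAt
  have h2 : HasFDerivAt (fun z : ℂ => z.re) Complex.reCLM z := Complex.reCLM.hasFDerivAt
  have h3 := (((h1.pow 2).const_mul A).add ((h2.pow 2).const_mul B)).add (h2.const_mul C)
  refine h3.congr_fderiv ?_
  ext x
  simp
  ring

private theorem Grad_q_lap (A B C : ℝ) (z : ℂ) : lap (Grad_q A B C) z = 2 * A + 2 * B := by
  have h1 : dx (Grad_q A B C) = fun z => 2 * B * z.re + C := by
    funext z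
    show fderiv ℝ (Grad_q A B C) z 1 = _
    rw [(Grad_q_fd A B C z).fderiv]
    simp
  have h2 : dy (Grad_q A B C) = fun z => 2 * A * z.im := by
    funext z
    show fderiv ℝ (Grad_q A B C) z I = _
    rw [(Grad_q_fd A B C z).fderiv]
    simp
  have h3 : HasFDerivAt (fun z : ℂ => z.im) Complex.imCLM z := Complex.imCLM.hasFDerivAt
  have h4 : HasFDerivAt (fun z : ℂ => z.re) Complex.reCLM z := Complex.reCLM.hasFDerivAt
  show fderiv ℝ (dx (Grad_q A B C)) z 1 + fderiv ℝ (dy (Grad_q A B C)) z I = _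
  rw [h1, h2, ((h4.const_mul (2 * B)).add_const C).fderiv, (h3.const_mul (2 * A)).fderiv]
  simp
  ring

private theorem Grad_q_smooth (A B C : ℝ) : ContDiff ℝ 2 (Grad_q A B C) := by
  have h1 : ContDiff ℝ 2 (fun z : ℂ => z.im) := Complex.imCLM.contDiff
  have h2 : ContDiff ℝ 2 (fun z : ℂ => z.re) := Complex.reCLM.contDiff
  unfold Grad_q
  exact ((contDiff_const.mul (h1.pow 2)).add (contDiff_const.mul (h2.pow 2))).add
    (contDiff_const.mul h2)

/-- one direction at the origin -/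
private theorem Grad_core {u : ℂ → ℝ} {d M F : ℝ} (hd : 0 < d)
    (hu : ContDiffOn ℝ 2 u (Metric.ball 0 (2 * d)))
    (hM : ∀ z ∈ Metric.ball (0 : ℂ) (2 * d), |u z| ≤ M)
    (hF : ∀ z ∈ Metric.ball (0 : ℂ) (2 * d), |lap u z| ≤ F) :
    dx u 0 ≤ 2 * M / d + d * F / 2 := by
  have hB : IsOpen (Metric.ball (0 : ℂ) (2 * d)) := Metric.isOpen_ball
  have h0 : (0 : ℂ) ∈ Metric.ball (0 : ℂ) (2 * d) := Metric.mem_ball_self (by linarith)
  have hM0 : 0 ≤ M := (abs_nonneg _).trans (hM 0 h0)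
  have hucd : ∀ z ∈ Metric.ball (0 : ℂ) (2 * d), ContDiffAt ℝ 2 u z := fun z hz =>
    hu.contDiffAt (hB.mem_nhds hz)
  -- the reflection
  set σ : ℂ → ℂ := fun z => -(starRingEnd ℂ z) with hσ
  have hσB : ∀ z ∈ Metric.ball (0 : ℂ) (2 * d), σ z ∈ Metric.ball (0 : ℂ) (2 * d) := by
    intro z hz
    rw [mem_ball_zero_iff] at hz ⊢
    simpa [hσ] using hz
  have hrcd : ∀ z ∈ Metric.ball (0 : ℂ) (2 * d), ContDiffAt ℝ 2 (fun z => u (σ z)) z := by
    intro z hz
    have h1 : ContDiffAt ℝ 2 σ z := (Complex.conjCLE.contDiff (n := 2)).neg.contDiffAt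
    exact ContDiffAt.comp z (hucd _ (hσB z hz)) h1
  have hrlap : ∀ z ∈ Metric.ball (0 : ℂ) (2 * d), lap (fun z => u (σ z)) z = lap u (σ z) := by
    intro z hz
    have hz' : ContDiffAt ℝ 2 u (-(starRingEnd ℂ z)) := hucd _ (hσB z hz)
    have h1 : ContDiffAt ℝ 2 (fun y => u (-y)) (starRingEnd ℂ z) :=
      ContDiffAt.comp (starRingEnd ℂ z) hz' contDiffAt_id.neg
    have h2 := lap_comp_conj (f := fun y => u (-y)) h1
    show lap (fun z => u (-(starRingEnd ℂ z))) z = _
    rw [h2, lap_comp_neg hz']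
  set φ : ℂ → ℝ := fun z => (1 / 2) * (u z - u (σ z)) with hφ
  have hφcd : ∀ z ∈ Metric.ball (0 : ℂ) (2 * d), ContDiffAt ℝ 2 φ z := fun z hz =>
    contDiffAt_const.mul ((hucd z hz).sub (hrcd z hz))
  have hφlap : ∀ z ∈ Metric.ball (0 : ℂ) (2 * d), -F ≤ lap φ z := by
    intro z hz
    have h1 : lap φ z = (1 / 2) * (lap u z - lap u (σ z)) := by
      rw [hφ, lap_const_mul (1 / 2) ((hucd z hz).sub (hrcd z hz)), lap_sub (hucd z hz) (hrcd z hz),
        hrlap z hz]
    have h2 := abs_le.mp (hF z hz)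
    have h3 := abs_le.mp (hF _ (hσB z hz))
    rw [h1]
    linarith [h2.1, h3.2]
  have hφM : ∀ z ∈ Metric.ball (0 : ℂ) (2 * d), φ z ≤ M := by
    intro z hz
    have h2 := abs_le.mp (hM z hz)
    have h3 := abs_le.mp (hM _ (hσB z hz))
    simp only [hφ]
    linarith [h2.2, h3.1]
  -- the rectangle
  set R : Set ℂ := {z | z.re ∈ Set.Icc 0 d ∧ z.im ∈ Set.Icc (-d) d} with hR
  have hRB : R ⊆ Metric.ball (0 : ℂ) (2 * d) := by
    intro z hz
    rw [mem_ball_zero_iff]
    obtain ⟨⟨h1, h2⟩, h3, h4⟩ := hz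
    have h5 : ‖z‖ ^ 2 = z.re ^ 2 + z.im ^ 2 := by
      rw [← Complex.normSq_eq_norm_sq, Complex.normSq_apply]; ring
    have h6 : ‖z‖ ^ 2 < (2 * d) ^ 2 := by
      rw [h5]
      nlinarith
    exact lt_of_pow_lt_pow_left₀ 2 (by linarith) h6
  have hRc : IsCompact R := by
    have h1 : IsClosed R := by
      have e : R = (fun z : ℂ => z.re) ⁻¹' Set.Icc 0 d ∩ (fun z : ℂ => z.im) ⁻¹' Set.Icc (-d) d := rfl
      rw [e]
      exact (isClosed_Icc.preimage Complex.continuous_re).inter
        (isClosed_Icc.preimage Complex.continuous_im)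
    exact Metric.isCompact_of_isClosed_isBounded h1 (Metric.isBounded_ball.subset hRB)
  -- the comparison
  have key : ∀ ε > 0, ∀ z ∈ R, φ z ≤
      Grad_q (M / d ^ 2) (-(M / d ^ 2) - (F + ε) / 2) (2 * M / d + d * (F + ε) / 2) z := by
    intro ε hε z hz
    set A := M / d ^ 2 with hA
    set B := -(M / d ^ 2) - (F + ε) / 2 with hBB
    set C := 2 * M / d + d * (F + ε) / 2 with hC
    set g : ℂ → ℝ := fun z => φ z - Grad_q A B C z with hg
    have hgcd : ∀ z ∈ Metric.ball (0 : ℂ) (2 * d), ContDiffAt ℝ 2 g z := fun z hz =>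
      (hφcd z hz).sub (Grad_q_smooth A B C).contDiffAt
    obtain ⟨z₁, hz₁, hmax⟩ := hRc.exists_isMaxOn ⟨z, hz⟩
      (fun z hz => (hgcd z (hRB hz)).continuousAt.continuousWithinAt)
    have hle : g z₁ ≤ 0 := by
      have hF0 : 0 ≤ F := (abs_nonneg _).trans (hF 0 h0)
      have hA0 : 0 ≤ A := by positivity
      have hdA : d ^ 2 * A = M := by
        rw [hA]; field_simp
      have hqf : ∀ z : ℂ, Grad_q A B C z = A * (z.im ^ 2 + z.re * (2 * d - z.re)) +
          (F + ε) / 2 * (z.re * (d - z.re)) := by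
        intro z
        have h2 : 2 * M / d = 2 * d * A := by
          rw [hA]; field_simp
        unfold Grad_q
        rw [hBB, hC, h2, ← hA]
        ring
      obtain ⟨⟨h1, h2⟩, h3, h4⟩ := hz₁
      have hq0 : 0 ≤ (F + ε) / 2 * (z₁.re * (d - z₁.re)) := by
        apply mul_nonneg (by linarith)
        exact mul_nonneg h1 (by linarith)
      rcases h1.eq_or_lt with h1' | h1'
      · -- left side
        have e1 : σ z₁ = z₁ := by
          apply Complex.ext
          · simp [hσ, ← h1']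
          · simp [hσ]
        have e2 : φ z₁ = 0 := by
          simp only [hφ]
          rw [e1]
          ring
        simp only [hg]
        rw [e2, hqf, ← h1']
        have : 0 ≤ A * z₁.im ^ 2 := by positivity
        simp only [zero_mul, add_zero, mul_zero]
        linarith
      rcases h2.eq_or_lt with h2' | h2'
      · -- right side
        have e2 := hφM z₁ (hRB ⟨⟨h1, h2⟩, h3, h4⟩)
        simp only [hg]
        rw [hqf]
        have : M ≤ A * (z₁.im ^ 2 + z₁.re * (2 * d - z₁.re)) := by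
          rw [h2']
          have : 0 ≤ A * z₁.im ^ 2 := by positivity
          nlinarith
        linarith
      have hside : z₁.im ^ 2 = d ^ 2 → g z₁ ≤ 0 := by
        intro h
        have e2 := hφM z₁ (hRB ⟨⟨h1, h2⟩, h3, h4⟩)
        simp only [hg]
        rw [hqf]
        have : M ≤ A * (z₁.im ^ 2 + z₁.re * (2 * d - z₁.re)) := by
          rw [h]
          have : 0 ≤ A * (z₁.re * (2 * d - z₁.re)) := by
            apply mul_nonneg hA0
            exact mul_nonneg h1 (by linarith)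
          nlinarith
        linarith
      rcases h3.eq_or_lt with h3' | h3'
      · apply hside
        rw [← h3']
        ring
      rcases h4.eq_or_lt with h4' | h4'
      · apply hside
        rw [h4']
      -- interior
      exfalso
      have hint : R ∈ 𝓝 z₁ := by
        have hO : IsOpen ((fun z : ℂ => z.re) ⁻¹' Set.Ioo 0 d ∩
            (fun z : ℂ => z.im) ⁻¹' Set.Ioo (-d) d) :=
          (isOpen_Ioo.preimage Complex.continuous_re).inter
            (isOpen_Ioo.preimage Complex.continuous_im)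
        refine mem_of_superset (hO.mem_nhds ⟨⟨h1', h2'⟩, h3', h4'⟩) ?_
        rintro z ⟨⟨a1, a2⟩, a3, a4⟩
        exact ⟨⟨a1.le, a2.le⟩, a3.le, a4.le⟩
      have hloc : IsLocalMax g z₁ := by
        filter_upwards [hint] with y hy
        exact hmax hy
      have hz₁B := hRB (mem_of_mem_nhds hint)
      have hn := lap_nonpos_of_isLocalMax (hgcd z₁ hz₁B) hloc
      have hl : lap g z₁ = lap φ z₁ - lap (Grad_q A B C) z₁ := by
        rw [hg, lap_sub (hφcd z₁ hz₁B) (Grad_q_smooth A B C).contDiffAt]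
      rw [hl, Grad_q_lap, hBB, hA] at hn
      have := hφlap z₁ hz₁B
      linarith
    have := hmax hz
    have h5 : g z ≤ g z₁ := this
    have h6 : g z ≤ 0 := h5.trans hle
    simp only [hg] at h6
    linarith
  -- the derivative at the origin
  have key2 : ∀ ε > 0, dx u 0 ≤ 2 * M / d + d * (F + ε) / 2 := by
    intro ε hε
    have hdiff : DifferentiableAt ℝ u 0 := (hucd 0 h0).differentiableAt (by norm_num)
    have hline : ∀ c : ℝ, HasDerivAt (fun s : ℝ => u ((c * s : ℝ) : ℂ)) (c * dx u 0) 0 := by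
      intro c
      have h1 : HasDerivAt (fun s : ℝ => ((c * s : ℝ) : ℂ)) ((c : ℝ) : ℂ) 0 := by
        have h2 : HasDerivAt (fun s : ℝ => c * s) c 0 := by
          simpa using (hasDerivAt_id (0 : ℝ)).const_mul c
        exact h2.ofReal_comp
      have h3 : HasFDerivAt u (fderiv ℝ u 0) ((fun s : ℝ => ((c * s : ℝ) : ℂ)) 0) := by
        simpa using hdiff.hasFDerivAt
      have h4 : HasDerivAt (u ∘ fun s : ℝ => ((c * s : ℝ) : ℂ)) (fderiv ℝ u 0 ((c : ℝ) : ℂ)) 0 :=
        HasFDerivAt.comp_hasDerivAt (f := fun s : ℝ => ((c * s : ℝ) : ℂ)) (0 : ℝ) h3 h1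
      have h5 : fderiv ℝ u 0 ((c : ℝ) : ℂ) = c * dx u 0 := by
        show _ = c * fderiv ℝ u 0 1
        have : ((c : ℝ) : ℂ) = c • (1 : ℂ) := by simp
        rw [this, map_smul, smul_eq_mul]
      rw [h5] at h4
      exact h4
    set A := M / d ^ 2 with hA
    set B := -(M / d ^ 2) - (F + ε) / 2 with hBB
    set C := 2 * M / d + d * (F + ε) / 2 with hC
    have hD : HasDerivAt (fun s : ℝ => (B * s ^ 2 + C * s) -
        (1 / 2) * (u ((1 * s : ℝ) : ℂ) - u (((-1) * s : ℝ) : ℂ))) (C - dx u 0) 0 := by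
      have h1 : HasDerivAt (fun s : ℝ => B * s ^ 2 + C * s) C 0 := by
        have h2 := (((hasDerivAt_id (0 : ℝ)).pow 2).const_mul B).add
          ((hasDerivAt_id (0 : ℝ)).const_mul C)
        refine h2.congr_deriv ?_
        simp
      have h3 := h1.sub (((hline 1).sub (hline (-1))).const_mul (1 / 2))
      refine h3.congr_deriv ?_
      ring
    have hD' := hD.tendsto_slope_zero_right
    have hge : 0 ≤ C - dx u 0 := by
      apply ge_of_tendsto hD'
      have h1 : Set.Ioo (0 : ℝ) d ∈ 𝓝[>] (0 : ℝ) := Ioo_mem_nhdsGT hd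
      filter_upwards [h1] with s hs
      have hk := key ε hε (s : ℂ) ⟨⟨by simpa using hs.1.le, by simpa using hs.2.le⟩,
        by simpa using hd.le, by simpa using hd.le⟩
      have e1 : φ (s : ℂ) = (1 / 2) * (u ((1 * s : ℝ) : ℂ) - u (((-1) * s : ℝ) : ℂ)) := by
        simp only [hφ, hσ]
        congr 2
        · simp
        · congr 1
          simp
      have e2 : Grad_q A B C (s : ℂ) = B * s ^ 2 + C * s := by
        unfold Grad_q
        simp
      rw [e1, e2] at hk
      simp only [zero_add, smul_eq_mul]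
      apply mul_nonneg (inv_nonneg.mpr hs.1.le)
      simp
      simp at hk
      linarith
    linarith
  have : ∀ ε > 0, dx u 0 ≤ (2 * M / d + d * F / 2) + ε := by
    intro ε hε
    have := key2 (2 * ε / d) (by positivity)
    have e : d * (F + 2 * ε / d) / 2 = d * F / 2 + ε := by
      field_simp
    linarith
  exact le_of_forall_pos_le_add this

/-- all four directions -/
private theorem Grad_dir {u : ℂ → ℝ} {w : ℂ} {d M F : ℝ} (hd : 0 < d)
    (hu : ContDiffOn ℝ 2 u (Metric.ball w (2 * d)))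
    (hM : ∀ z ∈ Metric.ball w (2 * d), |u z| ≤ M)
    (hF : ∀ z ∈ Metric.ball w (2 * d), |lap u z| ≤ F) (a : ℂ) (ha : ‖a‖ = 1)
    (hlap : ∀ (f : ℂ → ℝ) (z : ℂ), ContDiffAt ℝ 2 f (a * z) →
      lap (fun z => f (a * z)) z = lap f (a * z)) :
    fderiv ℝ u w a ≤ 2 * M / d + d * F / 2 := by
  have hmem : ∀ z ∈ Metric.ball (0 : ℂ) (2 * d), a * z + w ∈ Metric.ball w (2 * d) := by
    intro z hz
    rw [mem_ball_zero_iff] at hz
    rw [Metric.mem_ball, dist_eq_norm, add_sub_cancel_right, norm_mul, ha, one_mul]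
    exact hz
  have hcd : ∀ z ∈ Metric.ball (0 : ℂ) (2 * d), ContDiffAt ℝ 2 (fun y => u (y + w)) (a * z) := by
    intro z hz
    have h1 : ContDiffAt ℝ 2 u (a * z + w) := hu.contDiffAt (Metric.isOpen_ball.mem_nhds (hmem z hz))
    exact ContDiffAt.comp (a * z) h1 (contDiffAt_id.add contDiffAt_const)
  have hl : ∀ z ∈ Metric.ball (0 : ℂ) (2 * d), lap (fun z => u (a * z + w)) z = lap u (a * z + w) := by
    intro z hz
    have h1 := hlap (fun y => u (y + w)) z (hcd z hz)
    rw [lap_trans] at h1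
    exact h1
  have hmul : ContDiff ℝ 2 fun z : ℂ => a * z + w := by fun_prop
  have h := Grad_core (u := fun z => u (a * z + w)) (M := M) (F := F) hd ?_ ?_ ?_
  · have e : dx (fun z => u (a * z + w)) 0 = fderiv ℝ u w a := by
      show fderiv ℝ (fun z => u (a * z + w)) 0 1 = _
      have h0 : w ∈ Metric.ball w (2 * d) := Metric.mem_ball_self (by linarith)
      have h1 : HasFDerivAt u (fderiv ℝ u w) (a * 0 + w) := by
        rw [mul_zero, zero_add]
        exact ((hu.contDiffAt (Metric.isOpen_ball.mem_nhds h0)).differentiableAt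
          (by norm_num)).hasFDerivAt
      have h2 : HasFDerivAt (fun z : ℂ => a * z + w) (a • ContinuousLinearMap.id ℝ ℂ) 0 :=
        ((hasFDerivAt_id (𝕜 := ℝ) (0 : ℂ)).const_mul a).add_const w
      have h3 : HasFDerivAt (fun z => u (a * z + w)) _ 0 := h1.comp 0 h2
      rw [h3.fderiv]
      simp
    rw [e] at h
    exact h
  · intro z hz
    apply ContDiffAt.contDiffWithinAt
    have h1 : ContDiffAt ℝ 2 u (a * z + w) := hu.contDiffAt (Metric.isOpen_ball.mem_nhds (hmem z hz))
    exact ContDiffAt.comp z h1 hmul.contDiffAt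
  · intro z hz
    exact hM _ (hmem z hz)
  · intro z hz
    rw [hl z hz]
    exact hF _ (hmem z hz)

/-- The interior gradient estimate (Gilbarg-Trudinger (3.16)). Proof for `w = 0`, direction `x`: on
`{0 < x < d, |y| < d}` compare `φ = (u(x,y) - u(-x,y))/2` with
`ψ = M/d² (y² + x (2d - x)) + F/2 x (d - x)`, `Δψ = -F`, `ψ ≥ |φ|` on the boundary. -/
theorem grad_est {u : ℂ → ℝ} {w : ℂ} {d M F : ℝ} (hd : 0 < d)
    (hu : ContDiffOn ℝ 2 u (Metric.ball w (2 * d)))
    (hM : ∀ z ∈ Metric.ball w (2 * d), |u z| ≤ M)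
    (hF : ∀ z ∈ Metric.ball w (2 * d), |lap u z| ≤ F) :
    |dx u w| ≤ 2 * M / d + d * F / 2 ∧ |dy u w| ≤ 2 * M / d + d * F / 2 := by
  have l1 : ∀ (f : ℂ → ℝ) (z : ℂ), ContDiffAt ℝ 2 f (1 * z) →
      lap (fun z => f (1 * z)) z = lap f (1 * z) := by
    intro f z _
    simp
  have l2 : ∀ (f : ℂ → ℝ) (z : ℂ), ContDiffAt ℝ 2 f (-1 * z) →
      lap (fun z => f (-1 * z)) z = lap f (-1 * z) := by
    intro f z hf
    simp only [neg_mul, one_mul] at hf ⊢
    exact lap_comp_neg hf
  have l3 : ∀ (f : ℂ → ℝ) (z : ℂ), ContDiffAt ℝ 2 f (I * z) →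
      lap (fun z => f (I * z)) z = lap f (I * z) := fun f z hf => lap_comp_mulI hf
  have l4 : ∀ (f : ℂ → ℝ) (z : ℂ), ContDiffAt ℝ 2 f (-I * z) →
      lap (fun z => f (-I * z)) z = lap f (-I * z) := by
    intro f z hf
    have h1 : ContDiffAt ℝ 2 (fun y => f (-y)) (I * z) := by
      have : ContDiffAt ℝ 2 f (-(I * z)) := by simpa using hf
      exact ContDiffAt.comp (I * z) this contDiffAt_id.neg
    have h2 := lap_comp_mulI (f := fun y => f (-y)) h1
    have h3 := lap_comp_neg (f := f) (w := I * z) (by simpa using hf)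
    rw [h3] at h2
    simpa using h2
  have d1 := Grad_dir hd hu hM hF 1 (by simp) l1
  have d2 := Grad_dir hd hu hM hF (-1) (by simp) l2
  have d3 := Grad_dir hd hu hM hF I (by simp) l3
  have d4 := Grad_dir hd hu hM hF (-I) (by simp) l4
  rw [map_neg] at d2 d4
  constructor
  · show |fderiv ℝ u w 1| ≤ _
    rw [abs_le]
    constructor <;> linarith
  · show |fderiv ℝ u w I| ≤ _
    rw [abs_le]
    constructor <;> linarith

end GM16
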