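import Pool.Agent.LibGM16.Grad
import Pool.Agent.LibGM16.Le3
import Pool.Agent.LibGM16.Sign

open Complex MeasureTheory Filter Topology Matrix
open scoped ContDiff Real ComplexOrder

namespace GM16

variable {γ t : ℝ} {v v' f f' : ℂ → ℝ}

private theorem GradF_ball {w z : ℂ} (hw : ‖w‖ ≤ 1 / 4)
    (hz : z ∈ Metric.ball w (2 * (‖w‖ / 4))) :
    ‖w‖ / 2 < ‖z‖ ∧ ‖z‖ < 3 / 2 * ‖w‖ ∧ z ∈ QQ := by
  rw [mem_ball_iff_norm] at hz
  have h1 : ‖w‖ ≤ ‖z‖ + ‖z - w‖ := by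
    have := norm_sub_le z (z - w)
    simpa using this
  have h2 : ‖z‖ ≤ ‖w‖ + ‖z - w‖ := by
    have := norm_add_le w (z - w)
    simpa using this
  refine ⟨by linarith, by linarith, ?_, ?_⟩
  · have := abs_re_le_norm z; linarith
  · have := abs_im_le_norm z; linarith

private theorem GradF_exp {C : ℝ} (hC : 0 < C)
    (hexp : ∀ w ∈ QQ, w ≠ 0 → Real.exp (2 * v w) ≤ C * ‖w‖ ^ (-(1 / 2) : ℝ)) {w z : ℂ}
    (hw0 : w ≠ 0) (hw : ‖w‖ ≤ 1 / 4) (hz : z ∈ Metric.ball w (2 * (‖w‖ / 4))) :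
    Real.exp (2 * v z) ≤ C * (2 / ‖w‖) := by
  obtain ⟨h1, h2, h3⟩ := GradF_ball hw hz
  have hwp : 0 < ‖w‖ := norm_pos_iff.mpr hw0
  have hzp : 0 < ‖z‖ := by linarith
  refine (hexp z h3 (norm_pos_iff.mp hzp)).trans ?_
  refine mul_le_mul_of_nonneg_left ?_ hC.le
  calc ‖z‖ ^ (-(1 / 2) : ℝ) ≤ ‖z‖ ^ (-1 : ℝ) :=
        Real.rpow_le_rpow_of_exponent_ge hzp (by linarith) (by norm_num)
    _ = ‖z‖⁻¹ := Real.rpow_neg_one _
    _ ≤ (‖w‖ / 2)⁻¹ := inv_anti₀ (by positivity) h1.le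
    _ = 2 / ‖w‖ := by rw [inv_div]

private theorem GradF_est {u : ℂ → ℝ} {w : ℂ} {M F : ℝ} (hw0 : w ≠ 0)
    (hu : ContDiffOn ℝ 2 u (Metric.ball w (2 * (‖w‖ / 4))))
    (hM : ∀ z ∈ Metric.ball w (2 * (‖w‖ / 4)), |u z| ≤ M)
    (hF : ∀ z ∈ Metric.ball w (2 * (‖w‖ / 4)), |lap u z| ≤ F) :
    ‖w‖ * (|dx u w| + |dy u w|) ≤ 16 * M + ‖w‖ ^ 2 * F / 4 := by
  have hwp : 0 < ‖w‖ := norm_pos_iff.mpr hw0
  obtain ⟨h1, h2⟩ := grad_est (by positivity : 0 < ‖w‖ / 4) hu hM hF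
  have e : 2 * M / (‖w‖ / 4) + ‖w‖ / 4 * F / 2 = (8 * M + ‖w‖ ^ 2 * F / 8) / ‖w‖ := by
    field_simp
    ring
  rw [e, le_div_iff₀ hwp] at h1 h2
  linarith

/-- `|w| |∇f| → 0` (`grad_est` with `d = |w|/4` for `f - f 0`) -/
theorem grad_f_near (hγ : 0 < γ) (hγ' : γ ≤ 1 / 8) (ht : 1 ≤ t) (hv : Sol γ t v)
    (h : LinSol t v f) :
    Tendsto (fun w => ‖w‖ * (|dx f w| + |dy f w|)) (𝓝[≠] (0 : ℂ)) (𝓝 0) := by
  obtain ⟨C, hC, hexp⟩ := exp_v_le hγ hγ' ht hv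
  have hs : ContDiffOn ℝ 2 f ZIᶜ := h.smooth.of_le ENat.LEInfty.out
  rw [Metric.tendsto_nhdsWithin_nhds]
  intro ε hε
  obtain ⟨δ, hδ, hcont⟩ := Metric.continuous_iff.mp h.cont 0 (ε / 64) (by positivity)
  refine ⟨min (1 / 4) (min (δ / 2) (ε / (24 * t ^ 2 * C + 1))), by positivity, ?_⟩
  intro w hw hd
  have hw0 : w ≠ 0 := hw
  have hwp : 0 < ‖w‖ := norm_pos_iff.mpr hw0
  rw [dist_zero_right, lt_min_iff, lt_min_iff] at hd
  obtain ⟨d1, d2, d3⟩ := hd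
  have ht2 : 0 < t ^ 2 := by positivity
  set u : ℂ → ℝ := fun z => f z - f 0 with hu
  have hball : ∀ z ∈ Metric.ball w (2 * (‖w‖ / 4)), z ∉ ZI := by
    intro z hz hZ
    obtain ⟨h1, h2, h3⟩ := GradF_ball d1.le hz
    have := QQ_inter_ZI h3 hZ
    rw [this, norm_zero] at h1
    linarith
  have key := GradF_est (u := u) (M := ε / 64) (F := 12 * t ^ 2 * (C * (2 / ‖w‖))) hw0
    ((hs.sub contDiffOn_const).mono fun z hz => hball z hz) ?_ ?_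
  · have e1 : dx u w = dx f w := by rw [dx, dx, hu, fderiv_sub_const]
    have e2 : dy u w = dy f w := by rw [dy, dy, hu, fderiv_sub_const]
    rw [e1, e2] at key
    have e3 : ‖w‖ ^ 2 * (12 * t ^ 2 * (C * (2 / ‖w‖))) / 4 = 6 * t ^ 2 * C * ‖w‖ := by
      field_simp
      ring
    rw [e3] at key
    rw [dist_zero_right, Real.norm_of_nonneg (by positivity)]
    have h5 : (24 * t ^ 2 * C + 1) * ‖w‖ < ε := by
      rw [lt_div_iff₀ (by positivity)] at d3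
      linarith
    nlinarith
  · intro z hz
    obtain ⟨h1, h2, h3⟩ := GradF_ball d1.le hz
    have := hcont z (by rw [dist_zero_right]; linarith)
    rw [Real.dist_eq] at this
    exact this.le
  · intro z hz
    have hZ := hball z hz
    have hn : ZIᶜ ∈ 𝓝 z := isClosed_ZI.isOpen_compl.mem_nhds hZ
    have e : lap u z = lap f z := by
      rw [hu, lap_sub (hs.contDiffAt hn) contDiffAt_const, lap_const, sub_zero]
    rw [e, h.pde z hZ]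
    have hE := GradF_exp hC hexp hw0 d1.le hz
    have hv0 := v_nonneg hγ ht hv z
    have hfb := h.bdd z
    have hsinh0 : 0 ≤ Real.sinh (2 * v z) := Real.sinh_nonneg_iff.mpr (by linarith)
    have hcosh0 : 0 < Real.cosh (2 * v z) := Real.cosh_pos _
    have hsum : Real.cosh (2 * v z) + Real.sinh (2 * v z) = Real.exp (2 * v z) :=
      Real.cosh_add_sinh _
    calc |16 * t ^ 2 * Real.cosh (2 * v z) * f z + 8 * t ^ 2 * Real.sinh (2 * v z)|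
        ≤ |16 * t ^ 2 * Real.cosh (2 * v z) * f z| + |8 * t ^ 2 * Real.sinh (2 * v z)| :=
          abs_add_le _ _
      _ = 16 * t ^ 2 * Real.cosh (2 * v z) * |f z| + 8 * t ^ 2 * Real.sinh (2 * v z) := by
          rw [abs_mul, abs_of_nonneg (by positivity : 0 ≤ 16 * t ^ 2 * Real.cosh (2 * v z)),
            abs_of_nonneg (by positivity : 0 ≤ 8 * t ^ 2 * Real.sinh (2 * v z))]
      _ ≤ 16 * t ^ 2 * Real.cosh (2 * v z) * (1 / 4) + 8 * t ^ 2 * Real.sinh (2 * v z) := by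
          gcongr
      _ ≤ 12 * t ^ 2 * Real.exp (2 * v z) := by rw [← hsum]; nlinarith
      _ ≤ 12 * t ^ 2 * (C * (2 / ‖w‖)) := by gcongr

end GM16
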