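import Pool.Agent.LibGM16.Grad
import Pool.Agent.LibGM16.Le3
import Pool.Agent.LibGM16.Sign
import Pool.Agent.LibGM16.CalcB

open Complex MeasureTheory Filter Topology Matrix
open scoped ContDiff Real ComplexOrder

namespace GM16

variable {γ t : ℝ} {v v' f f' : ℂ → ℝ}

private theorem GradV_ball {w z : ℂ} (hw : ‖w‖ ≤ 1 / 4)
    (hz : z ∈ Metric.ball w (2 * (‖w‖ / 4))) :
    ‖w‖ / 2 < ‖z‖ ∧ ‖z‖ < 3 / 2 * ‖w‖ ∧ z ∈ QQ := by
  rw [mem_ball_iff_norm] at hz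
  have h1 : ‖w‖ ≤ ‖z‖ + ‖z - w‖ := by
    have := norm_sub_le z (z - w)
    simpa using this
  have h2 : ‖z‖ ≤ ‖w‖ + ‖z - w‖ := by
    have := norm_add_le w (z - w)
    simpa using this
  refine ⟨by linarith, by linarith, ?_, ?_⟩
  · have := abs_re_le_norm z; linarith
  · have := abs_im_le_norm z; linarith

private theorem GradV_exp {C : ℝ} (hC : 0 < C)
    (hexp : ∀ w ∈ QQ, w ≠ 0 → Real.exp (2 * v w) ≤ C * ‖w‖ ^ (-(1 / 2) : ℝ)) {w z : ℂ}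
    (hw0 : w ≠ 0) (hw : ‖w‖ ≤ 1 / 4) (hz : z ∈ Metric.ball w (2 * (‖w‖ / 4))) :
    Real.exp (2 * v z) ≤ C * (2 / ‖w‖) := by
  obtain ⟨h1, h2, h3⟩ := GradV_ball hw hz
  have hwp : 0 < ‖w‖ := norm_pos_iff.mpr hw0
  have hzp : 0 < ‖z‖ := by linarith
  refine (hexp z h3 (norm_pos_iff.mp hzp)).trans ?_
  refine mul_le_mul_of_nonneg_left ?_ hC.le
  calc ‖z‖ ^ (-(1 / 2) : ℝ) ≤ ‖z‖ ^ (-1 : ℝ) :=
        Real.rpow_le_rpow_of_exponent_ge hzp (by linarith) (by norm_num)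
    _ = ‖z‖⁻¹ := Real.rpow_neg_one _
    _ ≤ (‖w‖ / 2)⁻¹ := inv_anti₀ (by positivity) h1.le
    _ = 2 / ‖w‖ := by rw [inv_div]

private theorem GradV_est {u : ℂ → ℝ} {w : ℂ} {M F : ℝ} (hw0 : w ≠ 0)
    (hu : ContDiffOn ℝ 2 u (Metric.ball w (2 * (‖w‖ / 4))))
    (hM : ∀ z ∈ Metric.ball w (2 * (‖w‖ / 4)), |u z| ≤ M)
    (hF : ∀ z ∈ Metric.ball w (2 * (‖w‖ / 4)), |lap u z| ≤ F) :
    ‖w‖ * (|dx u w| + |dy u w|) ≤ 16 * M + ‖w‖ ^ 2 * F / 4 := by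
  have hwp : 0 < ‖w‖ := norm_pos_iff.mpr hw0
  obtain ⟨h1, h2⟩ := grad_est (by positivity : 0 < ‖w‖ / 4) hu hM hF
  have e : 2 * M / (‖w‖ / 4) + ‖w‖ / 4 * F / 2 = (8 * M + ‖w‖ ^ 2 * F / 8) / ‖w‖ := by
    field_simp
    ring
  rw [e, le_div_iff₀ hwp] at h1 h2
  linarith

private theorem GradV_log {w : ℂ} (hw : w ≠ 0) :
    ContDiffAt ℝ 2 (fun z : ℂ => γ * Real.log ‖z‖) w ∧
    lap (fun z : ℂ => γ * Real.log ‖z‖) w = 0 ∧
    ‖w‖ * |dx (fun z : ℂ => γ * Real.log ‖z‖) w| ≤ |γ| ∧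
    ‖w‖ * |dy (fun z : ℂ => γ * Real.log ‖z‖) w| ≤ |γ| := by
  have hwp : 0 < ‖w‖ := norm_pos_iff.mpr hw
  have hFc : ContDiffAt ℝ 2 (fun x : ℝ => γ * Real.log x) ‖w‖ :=
    contDiffAt_const.mul (Real.contDiffAt_log.mpr hwp.ne')
  have hd1 : ∀ x : ℝ, deriv (fun x : ℝ => γ * Real.log x) x = γ * x⁻¹ := by
    intro x
    rw [deriv_const_mul_field, Real.deriv_log]
  have hd1' : deriv (fun x : ℝ => γ * Real.log x) = fun x => γ * x⁻¹ := funext hd1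
  have hd2 : deriv (deriv (fun x : ℝ => γ * Real.log x)) ‖w‖ = γ * (-(‖w‖ ^ 2)⁻¹) := by
    rw [hd1', deriv_const_mul_field, deriv_inv]
  have e0 : (fun z : ℂ => γ * Real.log ‖z‖) = fun z : ℂ => γ * Real.log ‖z - 0‖ := by
    funext z; rw [sub_zero]
  have hFc' : ContDiffAt ℝ 2 (fun x : ℝ => γ * Real.log x) ‖w - 0‖ := by rwa [sub_zero]
  have hrad := dx_radial (F := fun x : ℝ => γ * Real.log x) hw
    (hFc'.differentiableAt (by norm_num))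
  refine ⟨?_, ?_, ?_, ?_⟩
  · exact contDiffAt_const.mul ((contDiffAt_norm ℝ hw).log hwp.ne')
  · have := lap_radial (F := fun x : ℝ => γ * Real.log x) hw hFc'
    rw [e0, this, sub_zero, hd2, hd1]
    field_simp
    ring
  · rw [e0, hrad.1, hd1, sub_zero]
    have h1 := abs_re_le_norm w
    rw [abs_mul, abs_mul, abs_inv, abs_norm, abs_div, abs_norm]
    calc ‖w‖ * (|γ| * ‖w‖⁻¹ * (|w.re| / ‖w‖)) = |γ| * (|w.re| / ‖w‖) := by field_simp
      _ ≤ |γ| * 1 := by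
          refine mul_le_mul_of_nonneg_left ?_ (abs_nonneg _)
          rw [div_le_one hwp]; exact h1
      _ = |γ| := mul_one _
  · rw [e0, hrad.2, hd1, sub_zero]
    have h1 := abs_im_le_norm w
    rw [abs_mul, abs_mul, abs_inv, abs_norm, abs_div, abs_norm]
    calc ‖w‖ * (|γ| * ‖w‖⁻¹ * (|w.im| / ‖w‖)) = |γ| * (|w.im| / ‖w‖) := by field_simp
      _ ≤ |γ| * 1 := by
          refine mul_le_mul_of_nonneg_left ?_ (abs_nonneg _)
          rw [div_le_one hwp]; exact h1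
      _ = |γ| := mul_one _

/-- gradient bound of `v` near the origin: `|w| |∇v| ≤ C` (`grad_est` with `d = |w|/4` for
`v + γ log|w|`, which is bounded near `0`, `|Δv| ≤ C |w|^{-1/2}`) -/
theorem grad_v_near (hγ : 0 < γ) (hγ' : γ ≤ 1 / 8) (ht : 1 ≤ t) (h : Sol γ t v) :
    ∃ C : ℝ, ∀ᶠ w in 𝓝[≠] (0 : ℂ), ‖w‖ * (|dx v w| + |dy v w|) ≤ C := by
  obtain ⟨C, hC, hexp⟩ := exp_v_le hγ hγ' ht h
  have hs : ContDiffOn ℝ 2 v ZIᶜ := h.smooth.of_le ENat.LEInfty.out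
  obtain ⟨L, hL⟩ := h.sing
  obtain ⟨δ, hδ, hb⟩ := Metric.tendsto_nhdsWithin_nhds.mp hL 1 one_pos
  refine ⟨16 * (|L| + 1) + 4 * t ^ 2 * C + 2 * |γ|, ?_⟩
  have hnear : ∀ᶠ w in 𝓝[≠] (0 : ℂ), ‖w‖ < min (1 / 4) (δ / 2) := by
    have h1 : ∀ᶠ w in 𝓝 (0 : ℂ), ‖w‖ < min (1 / 4) (δ / 2) := by
      have : Tendsto (fun w : ℂ => ‖w‖) (𝓝 0) (𝓝 0) := by simpa using continuous_norm.tendsto (0 : ℂ)
      exact this.eventually (gt_mem_nhds (by positivity))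
    exact h1.filter_mono nhdsWithin_le_nhds
  filter_upwards [hnear, self_mem_nhdsWithin] with w hd hw
  have hw0 : w ≠ 0 := hw
  have hwp : 0 < ‖w‖ := norm_pos_iff.mpr hw0
  rw [lt_min_iff] at hd
  obtain ⟨d1, d2⟩ := hd
  have ht2 : 0 < t ^ 2 := by positivity
  set u : ℂ → ℝ := fun z => v z + γ * Real.log ‖z‖ with hu
  have hball : ∀ z ∈ Metric.ball w (2 * (‖w‖ / 4)), z ≠ 0 ∧ z ∉ ZI := by
    intro z hz
    obtain ⟨h1, h2, h3⟩ := GradV_ball d1.le hz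
    have h0 : z ≠ 0 := by
      rintro rfl
      rw [norm_zero] at h1
      linarith
    exact ⟨h0, fun hZ => h0 (QQ_inter_ZI h3 hZ)⟩
  have hvat : ∀ z ∈ Metric.ball w (2 * (‖w‖ / 4)), ContDiffAt ℝ 2 v z := fun z hz =>
    hs.contDiffAt (isClosed_ZI.isOpen_compl.mem_nhds (hball z hz).2)
  have hwball : w ∈ Metric.ball w (2 * (‖w‖ / 4)) := Metric.mem_ball_self (by positivity)
  have key := GradV_est (u := u) (M := |L| + 1) (F := 8 * t ^ 2 * (C * (2 / ‖w‖))) hw0 ?_ ?_ ?_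
  · obtain ⟨g1, g2, g3, g4⟩ := GradV_log (γ := γ) hw0
    have hdv : DifferentiableAt ℝ v w := (hvat w hwball).differentiableAt (by norm_num)
    have hdg : DifferentiableAt ℝ (fun z : ℂ => γ * Real.log ‖z‖) w :=
      g1.differentiableAt (by norm_num)
    have e1 : dx u w = dx v w + dx (fun z : ℂ => γ * Real.log ‖z‖) w := by
      rw [dx, dx, dx, hu, fderiv_fun_add hdv hdg]; rfl
    have e2 : dy u w = dy v w + dy (fun z : ℂ => γ * Real.log ‖z‖) w := by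
      rw [dy, dy, dy, hu, fderiv_fun_add hdv hdg]; rfl
    have a1 : |dx v w| ≤ |dx u w| + |dx (fun z : ℂ => γ * Real.log ‖z‖) w| := by
      have := abs_sub (dx u w) (dx (fun z : ℂ => γ * Real.log ‖z‖) w)
      rwa [e1, add_sub_cancel_right, ← e1] at this
    have a2 : |dy v w| ≤ |dy u w| + |dy (fun z : ℂ => γ * Real.log ‖z‖) w| := by
      have := abs_sub (dy u w) (dy (fun z : ℂ => γ * Real.log ‖z‖) w)
      rwa [e2, add_sub_cancel_right, ← e2] at this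
    have e3 : ‖w‖ ^ 2 * (8 * t ^ 2 * (C * (2 / ‖w‖))) / 4 = 4 * t ^ 2 * C * ‖w‖ := by
      field_simp
      ring
    rw [e3] at key
    have h6 : 4 * t ^ 2 * C * ‖w‖ ≤ 4 * t ^ 2 * C := by
      have : 0 ≤ 4 * t ^ 2 * C := by positivity
      nlinarith
    nlinarith
  · intro z hz
    exact ((hvat z hz).add (GradV_log (hball z hz).1).1).contDiffWithinAt
  · intro z hz
    obtain ⟨h1, h2, h3⟩ := GradV_ball d1.le hz
    have := hb (hball z hz).1 (by rw [dist_zero_right]; linarith)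
    rw [Real.dist_eq] at this
    have h4 := abs_sub_abs_le_abs_sub (v z + γ * Real.log ‖z‖) L
    show |v z + γ * Real.log ‖z‖| ≤ |L| + 1
    linarith
  · intro z hz
    have hZ := (hball z hz).2
    have e : lap u z = lap v z := by
      rw [hu, lap_add (hvat z hz) (GradV_log (hball z hz).1).1,
        (GradV_log (hball z hz).1).2.1, add_zero]
    rw [e, h.pde z hZ]
    have hE := GradV_exp hC hexp hw0 d1.le hz
    have hv0 := v_nonneg hγ ht h z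
    have hsinh0 : 0 ≤ Real.sinh (2 * v z) := Real.sinh_nonneg_iff.mpr (by linarith)
    have hcosh0 : 0 < Real.cosh (2 * v z) := Real.cosh_pos _
    have hsum : Real.cosh (2 * v z) + Real.sinh (2 * v z) = Real.exp (2 * v z) :=
      Real.cosh_add_sinh _
    calc |8 * t ^ 2 * Real.sinh (2 * v z)| = 8 * t ^ 2 * Real.sinh (2 * v z) :=
          abs_of_nonneg (by positivity)
      _ ≤ 8 * t ^ 2 * Real.exp (2 * v z) := by rw [← hsum]; nlinarith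
      _ ≤ 8 * t ^ 2 * (C * (2 / ‖w‖)) := by gcongr

end GM16
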