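import Pool.Agent.LibGM16.WE

open Complex MeasureTheory Filter Topology Matrix
open scoped ContDiff Real ComplexOrder

namespace GM16

variable {γ t : ℝ} {v v' f f' : ℂ → ℝ}

theorem mem_U {z : ℂ} : z ∈ (EX γ).U ↔ z ≠ e1 ∧ z ≠ e2 ∧ z ≠ e3 := by
  show ¬ (z ∈ ({e1, e2, e3} : Set ℂ)) ↔ _
  simp only [Set.mem_insert_iff, Set.mem_singleton_iff, not_or, ne_eq]

theorem isOpen_U : IsOpen (EX γ).U := by
  have : (EX γ).U = ({e1, e2, e3} : Set ℂ)ᶜ := rfl
  rw [this]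
  exact (Set.toFinite _).isClosed.isOpen_compl

theorem exists_w {z : ℂ} (hz : z ∈ (EX γ).U) : ∃ w, w ∉ ZI ∧ wp w = z := by
  obtain ⟨w, hw, hwz⟩ := wp_surj z
  refine ⟨w, fun h => ?_, hwz⟩
  have h1 := (wp_mem_iff hw).2 h
  rw [mem_U] at hz
  rw [hwz] at h1
  rcases h1 with h1 | h1 | h1
  · exact hz.1 h1
  · exact hz.2.1 h1
  · exact hz.2.2 h1

theorem wp_mem_U {w : ℂ} (hw : w ∉ ZI) : wp w ∈ (EX γ).U := by
  have hL : w ∉ LL := fun h => hw (LL_sub_ZI h)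
  rw [mem_U]
  refine ⟨fun h => hw ((wp_mem_iff hL).1 (Or.inl h)),
    fun h => hw ((wp_mem_iff hL).1 (Or.inr (Or.inl h))),
    fun h => hw ((wp_mem_iff hL).1 (Or.inr (Or.inr h)))⟩

theorem qq_ne {z : ℂ} (hz : z ∈ (EX γ).U) : qq z ≠ 0 := by
  rw [mem_U] at hz
  have h1 := sub_ne_zero.2 hz.1
  have h2 := sub_ne_zero.2 hz.2.1
  have h3 := sub_ne_zero.2 hz.2.2
  unfold qq
  positivity

theorem qq_hol {z : ℂ} (hz : z ∈ (EX γ).U) : AnalyticAt ℂ qq z := by
  rw [mem_U] at hz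
  have h1 := sub_ne_zero.2 hz.1
  have h2 := sub_ne_zero.2 hz.2.1
  have h3 := sub_ne_zero.2 hz.2.2
  have e : qq = fun z => 1 / (4 * (z - e1) * (z - e2) * (z - e3)) := by
    funext z; rfl
  rw [e]
  refine AnalyticAt.div analyticAt_const ?_ ?_
  · exact (((analyticAt_const.mul (analyticAt_id.sub analyticAt_const)).mul
      (analyticAt_id.sub analyticAt_const))).mul (analyticAt_id.sub analyticAt_const)
  · exact mul_ne_zero (mul_ne_zero (mul_ne_zero (by norm_num) h1) h2) h3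

/-- the residue of `1/(4 (z-a)(z-b)(z-c))` at `a` -/
theorem HA_asymp {a b c : ℂ} (hab : a ≠ b) (hac : a ≠ c) :
    Tendsto (fun z => (z - a) * (1 / (4 * (z - a) * (z - b) * (z - c)))) (𝓝[≠] a)
      (𝓝 (1 / (4 * (a - b) * (a - c)))) := by
  have h1 : Tendsto (fun z : ℂ => 1 / (4 * (z - b) * (z - c))) (𝓝[≠] a)
      (𝓝 (1 / (4 * (a - b) * (a - c)))) := by
    have hc : ContinuousAt (fun z : ℂ => 1 / (4 * (z - b) * (z - c))) a := by
      refine ContinuousAt.div continuousAt_const ?_ ?_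
      · fun_prop
      · exact mul_ne_zero (mul_ne_zero (by norm_num) (sub_ne_zero.2 hab)) (sub_ne_zero.2 hac)
    exact hc.tendsto.mono_left nhdsWithin_le_nhds
  refine h1.congr' ?_
  filter_upwards [self_mem_nhdsWithin] with z hz
  have hza : z - a ≠ 0 := sub_ne_zero.2 hz
  by_cases hb : z - b = 0
  · simp [hb]
  by_cases hcc : z - c = 0
  · simp [hcc]
  field_simp

/-- the asymptotics of `q` at the marked points: `(z - e_j) q → c ≠ 0`, `z³ q → 1/4` -/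
theorem qq_asymp : (∃ c : ℂ, c ≠ 0 ∧ Tendsto (fun z => (z - e1) * qq z) (𝓝[≠] e1) (𝓝 c)) ∧
    (∃ c : ℂ, c ≠ 0 ∧ Tendsto (fun z => (z - e2) * qq z) (𝓝[≠] e2) (𝓝 c)) ∧
    (∃ c : ℂ, c ≠ 0 ∧ Tendsto (fun z => (z - e3) * qq z) (𝓝[≠] e3) (𝓝 c)) ∧
    Tendsto (fun z => z ^ 3 * qq z) (cocompact ℂ) (𝓝 (1 / 4)) := by
  obtain ⟨h12, h13, h23⟩ := e_ne
  refine ⟨⟨_, ?_, HA_asymp h12 h13⟩, ?_, ?_, ?_⟩
  · exact one_div_ne_zero (mul_ne_zero (mul_ne_zero (by norm_num) (sub_ne_zero.2 h12))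
      (sub_ne_zero.2 h13))
  · refine ⟨1 / (4 * (e2 - e1) * (e2 - e3)), ?_, ?_⟩
    · exact one_div_ne_zero (mul_ne_zero (mul_ne_zero (by norm_num) (sub_ne_zero.2 h12.symm))
        (sub_ne_zero.2 h23))
    · refine (HA_asymp h12.symm h23).congr fun z => ?_
      unfold qq
      congr 2
      ring
  · refine ⟨1 / (4 * (e3 - e1) * (e3 - e2)), ?_, ?_⟩
    · exact one_div_ne_zero (mul_ne_zero (mul_ne_zero (by norm_num) (sub_ne_zero.2 h13.symm))
        (sub_ne_zero.2 h23.symm))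
    · refine (HA_asymp h13.symm h23.symm).congr fun z => ?_
      unfold qq
      congr 2
      ring
  · have hinv : Tendsto (fun z : ℂ => z⁻¹) (cocompact ℂ) (𝓝 0) :=
      tendsto_inv₀_cobounded.comp (by rw [Metric.cobounded_eq_cocompact]; exact tendsto_id)
    have hf : ∀ e : ℂ, Tendsto (fun z : ℂ => 1 - e * z⁻¹) (cocompact ℂ) (𝓝 1) := fun e => by
      simpa using (tendsto_const_nhds (x := (1 : ℂ))).sub (hinv.const_mul e)
    have hprod : Tendsto (fun z : ℂ => 1 / (4 * (1 - e1 * z⁻¹) * (1 - e2 * z⁻¹) *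
        (1 - e3 * z⁻¹))) (cocompact ℂ) (𝓝 (1 / 4)) := by
      have h := (((hf e1).const_mul 4).mul (hf e2)).mul (hf e3)
      have h' : Tendsto (fun z : ℂ => (1 : ℂ) / (4 * (1 - e1 * z⁻¹) * (1 - e2 * z⁻¹) *
          (1 - e3 * z⁻¹))) (cocompact ℂ) (𝓝 (1 / (4 * 1 * 1 * 1))) :=
        tendsto_const_nhds.div h (by norm_num)
      simpa only [mul_one] using h'
    refine hprod.congr' ?_
    have h0 : ∀ᶠ z : ℂ in cocompact ℂ, z ≠ 0 := by
      have := (isCompact_singleton (x := (0 : ℂ))).compl_mem_cocompact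
      filter_upwards [this] with z hz
      exact hz
    filter_upwards [h0] with z hz
    unfold qq
    have h1 : ∀ e : ℂ, 1 - e * z⁻¹ = (z - e) / z := fun e => by field_simp
    rw [h1, h1, h1]
    by_cases k1 : z - e1 = 0
    · simp [k1]
    by_cases k2 : z - e2 = 0
    · simp [k2]
    by_cases k3 : z - e3 = 0
    · simp [k3]
    field_simp

end GM16
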