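import Pool.Agent.LibGM16.HA

open Complex MeasureTheory Filter Topology Matrix
open scoped ContDiff Real ComplexOrder

namespace GM16

variable {γ t : ℝ} {v v' f f' : ℂ → ℝ}

/-- convergence of matrices is entrywise -/
theorem HB_tendsto {l : Filter ℂ} {M : ℂ → Mat} {N : Mat}
    (h : ∀ i j, Tendsto (fun z => M z i j) l (𝓝 (N i j))) : Tendsto M l (𝓝 N) :=
  tendsto_pi_nhds.2 fun i => tendsto_pi_nhds.2 fun j => h i j

theorem HB_pts {p : Option ℂ} (hp : p ∈ (EX γ).pts) :
    p = none ∨ p = some e1 ∨ p = some e2 ∨ p = some e3 := by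
  rcases hp with h | ⟨a, ha, h⟩
  · exact Or.inl h
  · have ha' : a ∈ ({e1, e2, e3} : Set ℂ) := ha
    simp only [Set.mem_insert_iff, Set.mem_singleton_iff] at ha'
    rcases ha' with rfl | rfl | rfl
    · exact Or.inr (Or.inl h)
    · exact Or.inr (Or.inr (Or.inl h))
    · exact Or.inr (Or.inr (Or.inr h))

theorem HB_inv_cocompact : Tendsto (fun z : ℂ => z⁻¹) (cocompact ℂ) (𝓝 0) :=
  tendsto_inv₀_cobounded.comp (by rw [Metric.cobounded_eq_cocompact]; exact tendsto_id)

theorem HB_ne_cocompact : ∀ᶠ z : ℂ in cocompact ℂ, z ≠ 0 := by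
  have := (isCompact_singleton (x := (0 : ℂ))).compl_mem_cocompact
  filter_upwards [this] with z hz
  exact hz

/-- the residue of `A` at `∞` -/
theorem HB_res_inf : Tendsto (fun z => resFactor none z • ((GG none z)⁻¹ * AA z * GG none z))
    (nhdP none) (𝓝 !![0, -1; 0, 0]) := by
  have hz2 : Tendsto (fun z => -(z ^ 2 * qq z)) (cocompact ℂ) (𝓝 0) := by
    have h := (HB_inv_cocompact.mul qq_asymp.2.2.2).neg
    simp only [zero_mul, neg_zero] at h
    refine h.congr' ?_
    filter_upwards [HB_ne_cocompact] with z hz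
    field_simp
  have key : ∀ᶠ z in cocompact ℂ, (!![0, -1; -(z ^ 2 * qq z), 0] : Mat) =
      resFactor none z • ((GG none z)⁻¹ * AA z * GG none z) := by
    filter_upwards [HB_ne_cocompact] with z hz
    have hinv : (GG none z)⁻¹ = !![1, 0; 0, z] := by
      refine Matrix.inv_eq_left_inv ?_
      ext i j
      fin_cases i <;> fin_cases j <;> simp [GG, Matrix.mul_apply, Fin.sum_univ_two, hz]
    rw [hinv]
    ext i j
    fin_cases i <;> fin_cases j <;>
      simp [GG, AA, resFactor, Matrix.mul_apply, Fin.sum_univ_two, hz] <;> ring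
  show Tendsto _ (cocompact ℂ) _
  refine Tendsto.congr' key ?_
  refine HB_tendsto fun i j => ?_
  fin_cases i <;> fin_cases j <;> simp [hz2]

/-- the residue of `A` at a finite marked point -/
theorem HB_res_fin {a c : ℂ} (h : Tendsto (fun z => (z - a) * qq z) (𝓝[≠] a) (𝓝 c)) :
    Tendsto (fun z => resFactor (some a) z • ((GG (some a) z)⁻¹ * AA z * GG (some a) z))
    (nhdP (some a)) (𝓝 !![0, 1; 0, 0]) := by
  have hz1 : Tendsto (fun z : ℂ => z - a) (𝓝[≠] a) (𝓝 0) := by
    have : ContinuousAt (fun z : ℂ => z - a) a := by fun_prop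
    have h2 := this.tendsto
    simp only [sub_self] at h2
    exact h2.mono_left nhdsWithin_le_nhds
  have hz2 : Tendsto (fun z => (z - a) ^ 2 * qq z) (𝓝[≠] a) (𝓝 0) := by
    have h' := hz1.mul h
    simp only [zero_mul] at h'
    refine h'.congr fun z => ?_
    ring
  have key : ∀ᶠ z in 𝓝[≠] a, (!![0, 1; (z - a) ^ 2 * qq z, 0] : Mat) =
      resFactor (some a) z • ((GG (some a) z)⁻¹ * AA z * GG (some a) z) := by
    filter_upwards [self_mem_nhdsWithin] with z hz
    have hza : z - a ≠ 0 := sub_ne_zero.2 hz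
    have hinv : (GG (some a) z)⁻¹ = !![(z - a)⁻¹, 0; 0, 1] := by
      refine Matrix.inv_eq_left_inv ?_
      ext i j
      fin_cases i <;> fin_cases j <;> simp [GG, Matrix.mul_apply, Fin.sum_univ_two, hza]
    rw [hinv]
    ext i j
    fin_cases i <;> fin_cases j <;>
      simp [GG, AA, resFactor, Matrix.mul_apply, Fin.sum_univ_two, hza] <;> ring
  show Tendsto _ (𝓝[≠] a) _
  refine Tendsto.congr' key ?_
  refine HB_tendsto fun i j => ?_
  fin_cases i <;> fin_cases j <;> simp <;> simpa using hz2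

theorem HB_nilpotent {p : Option ℂ} (hp : p ∈ (EX γ).pts) : ∃ c : ℂ,
    Tendsto (fun z => resFactor p z • (((EX γ).G p z)⁻¹ * AA z * (EX γ).G p z)) (nhdP p)
      (𝓝 !![0, c; 0, 0]) := by
  obtain ⟨⟨c1, -, h1⟩, ⟨c2, -, h2⟩, ⟨c3, -, h3⟩, -⟩ := qq_asymp
  rcases HB_pts hp with rfl | rfl | rfl | rfl
  · exact ⟨-1, HB_res_inf⟩
  · exact ⟨1, HB_res_fin h1⟩
  · exact ⟨1, HB_res_fin h2⟩
  · exact ⟨1, HB_res_fin h3⟩

theorem EX_valid (hγ : 0 < γ) (hγ' : γ < 1) : (EX γ).Valid where
  finite := by
    show ({e1, e2, e3} : Set ℂ).Finite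
    exact Set.toFinite _
  hol := by
    intro i j z hz
    have hq : DifferentiableAt ℂ qq z := (qq_hol hz).differentiableAt
    show DifferentiableWithinAt ℂ (fun z => AA z i j) _ z
    refine DifferentiableAt.differentiableWithinAt ?_
    fin_cases i <;> fin_cases j
    · show DifferentiableAt ℂ (fun z => (0 : ℂ)) z
      fun_prop
    · show DifferentiableAt ℂ (fun z => (1 : ℂ)) z
      fun_prop
    · exact hq
    · show DifferentiableAt ℂ (fun z => (0 : ℂ)) z
      fun_prop
  tracefree := by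
    intro z _
    show (AA z).trace = 0
    simp [AA, Matrix.trace_fin_two]
  frame := by
    intro p hp
    have hfin : ∀ a : ℂ, ∀ᶠ z in nhdP (some a),
        (∀ i j, DifferentiableAt ℂ (fun w => (EX γ).G (some a) w i j) z) ∧
          ((EX γ).G (some a) z).det ≠ 0 := by
      intro a
      show ∀ᶠ z in 𝓝[≠] a, _
      filter_upwards [self_mem_nhdsWithin] with z hz
      have hza : z - a ≠ 0 := sub_ne_zero.2 hz
      refine ⟨fun i j => ?_, ?_⟩
      · fin_cases i <;> fin_cases j
        · show DifferentiableAt ℂ (fun z => z - a) z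
          fun_prop
        · show DifferentiableAt ℂ (fun z => (0 : ℂ)) z
          fun_prop
        · show DifferentiableAt ℂ (fun z => (0 : ℂ)) z
          fun_prop
        · show DifferentiableAt ℂ (fun z => (1 : ℂ)) z
          fun_prop
      · show (GG (some a) z).det ≠ 0
        simp [GG, Matrix.det_fin_two, hza]
    rcases HB_pts hp with rfl | rfl | rfl | rfl
    · show ∀ᶠ z in cocompact ℂ, _
      filter_upwards [HB_ne_cocompact] with z hz
      refine ⟨fun i j => ?_, ?_⟩
      · fin_cases i <;> fin_cases j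
        · show DifferentiableAt ℂ (fun z => (1 : ℂ)) z
          fun_prop
        · show DifferentiableAt ℂ (fun z => (0 : ℂ)) z
          fun_prop
        · show DifferentiableAt ℂ (fun z => (0 : ℂ)) z
          fun_prop
        · show DifferentiableAt ℂ (fun z => z⁻¹) z
          exact differentiableAt_inv hz
      · show (GG none z).det ≠ 0
        simp [GG, Matrix.det_fin_two, hz]
    · exact hfin _
    · exact hfin _
    · exact hfin _
  det := by
    intro p hp
    have hfin : ∀ a : ℂ, ∃ c : ℂ, c ≠ 0 ∧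
        Tendsto (fun z => ((EX γ).G (some a) z).det / coord (some a) z) (nhdP (some a)) (𝓝 c) := by
      intro a
      refine ⟨1, one_ne_zero, ?_⟩
      show Tendsto _ (𝓝[≠] a) _
      refine Tendsto.congr' ?_ tendsto_const_nhds
      filter_upwards [self_mem_nhdsWithin] with z hz
      have hza : z - a ≠ 0 := sub_ne_zero.2 hz
      show 1 = (GG (some a) z).det / (z - a)
      simp [GG, Matrix.det_fin_two, hza]
    rcases HB_pts hp with rfl | rfl | rfl | rfl
    · refine ⟨1, one_ne_zero, ?_⟩
      show Tendsto _ (cocompact ℂ) _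
      refine Tendsto.congr' ?_ tendsto_const_nhds
      filter_upwards [HB_ne_cocompact] with z hz
      show 1 = (GG none z).det / z⁻¹
      simp [GG, Matrix.det_fin_two, hz]
    · exact hfin _
    · exact hfin _
    · exact hfin _
  weights := by
    intro p _
    show 0 < 1 / 4 + γ / 4 ∧ 1 / 4 + γ / 4 < 3 / 4 - γ / 4 ∧ 3 / 4 - γ / 4 < 1 ∧
      1 / 4 + γ / 4 + (3 / 4 - γ / 4) = 1
    refine ⟨by linarith, by linarith, by linarith, by ring⟩
  nilpotent := fun p hp => HB_nilpotent hp

end GM16
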