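import Pool.Agent.LibGM16.HB

open Complex MeasureTheory Filter Topology Matrix
open scoped ContDiff Real ComplexOrder

namespace GM16

variable {γ t : ℝ} {v v' f f' : ℂ → ℝ}

theorem HC_det (z : ℂ) : (AA z).det = -qq z := by
  simp [AA, Matrix.det_fin_two]

theorem EX_regular : (EX γ).Regular ∧ ∀ z ∈ (EX γ).U, ((EX γ).A z).det = -qq z ∧
    ((EX γ).A z).det ≠ 0 := by
  have hdet : ∀ z ∈ (EX γ).U, ((EX γ).A z).det = -qq z ∧ ((EX γ).A z).det ≠ 0 := by
    intro z hz
    have h : ((EX γ).A z).det = -qq z := HC_det z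
    refine ⟨h, ?_⟩
    rw [h]
    exact neg_ne_zero.2 (qq_ne hz)
  refine ⟨⟨fun z hz h0 => absurd h0 (hdet z hz).2, ?_⟩, hdet⟩
  intro p hp
  have hfin : ∀ {a c : ℂ}, c ≠ 0 → Tendsto (fun z => (z - a) * qq z) (𝓝[≠] a) (𝓝 c) →
      ∃ c : ℂ, c ≠ 0 ∧ Tendsto (fun z => (resFactor (some a) z) ^ 2 * ((EX γ).A z).det /
        coord (some a) z) (nhdP (some a)) (𝓝 c) := by
    intro a c hc h
    refine ⟨-c, neg_ne_zero.2 hc, ?_⟩
    show Tendsto _ (𝓝[≠] a) _
    refine Tendsto.congr' ?_ h.neg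
    filter_upwards [self_mem_nhdsWithin] with z hz
    have hza : z - a ≠ 0 := sub_ne_zero.2 hz
    show -((z - a) * qq z) = (z - a) ^ 2 * (AA z).det / (z - a)
    rw [HC_det]
    field_simp
  obtain ⟨⟨c1, hc1, h1⟩, ⟨c2, hc2, h2⟩, ⟨c3, hc3, h3⟩, h4⟩ := qq_asymp
  rcases HB_pts hp with rfl | rfl | rfl | rfl
  · refine ⟨-(1 / 4), by norm_num, ?_⟩
    show Tendsto _ (cocompact ℂ) _
    refine Tendsto.congr' ?_ h4.neg
    filter_upwards [HB_ne_cocompact] with z hz
    show -(z ^ 3 * qq z) = (-z) ^ 2 * (AA z).det / z⁻¹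
    rw [HC_det]
    field_simp
  · exact hfin hc1 h1
  · exact hfin hc2 h2
  · exact hfin hc3 h3

/-- `∂/∂z̄` of a holomorphic function vanishes -/
theorem HC_dzb_hol {g : ℂ → ℂ} {z : ℂ} (hg : DifferentiableAt ℂ g z) : dzb g z = 0 := by
  have h : HasFDerivAt g ((fderiv ℂ g z).restrictScalars ℝ) z :=
    hg.hasFDerivAt.restrictScalars ℝ
  have h1 : dx g z = fderiv ℂ g z 1 := by
    show fderiv ℝ g z 1 = _
    rw [h.fderiv]; rfl
  have h2 : dy g z = I * fderiv ℂ g z 1 := by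
    show fderiv ℝ g z I = _
    rw [h.fderiv]
    show fderiv ℂ g z I = _
    have : (I : ℂ) = I • (1 : ℂ) := by simp
    rw [this, map_smul]
    simp
  rw [dzb, h1, h2]
  have hI : I * (I * fderiv ℂ g z 1) = -fderiv ℂ g z 1 := by
    rw [← mul_assoc, I_mul_I]; ring
  rw [hI]
  simp

theorem HC_AA_diff {z : ℂ} (hz : z ∈ (EX γ).U) (i j : Fin 2) :
    DifferentiableAt ℂ (fun w => AA w i j) z := by
  have hq : DifferentiableAt ℂ qq z := (qq_hol hz).differentiableAt
  fin_cases i <;> fin_cases j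
  · show DifferentiableAt ℂ (fun z => (0 : ℂ)) z
    fun_prop
  · show DifferentiableAt ℂ (fun z => (1 : ℂ)) z
    fun_prop
  · exact hq
  · show DifferentiableAt ℂ (fun z => (0 : ℂ)) z
    fun_prop

theorem HC_qq_smooth {z : ℂ} (hz : z ∈ (EX γ).U) : ContDiffAt ℝ ∞ qq z :=
  ((qq_hol hz).contDiffAt (n := ∞)).restrict_scalars ℝ

theorem EX_tangent : (EX γ).Tangent (fun _ => 0) AA where
  smoothη := by
    intro i j
    show ContDiffOn ℝ ∞ (fun _ => (0 : ℂ)) _
    exact contDiffOn_const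
  smoothψ := by
    intro i j z hz
    refine ContDiffAt.contDiffWithinAt ?_
    fin_cases i <;> fin_cases j
    · show ContDiffAt ℝ ∞ (fun z => (0 : ℂ)) z
      exact contDiffAt_const
    · show ContDiffAt ℝ ∞ (fun z => (1 : ℂ)) z
      exact contDiffAt_const
    · exact HC_qq_smooth hz
    · show ContDiffAt ℝ ∞ (fun z => (0 : ℂ)) z
      exact contDiffAt_const
  eq := by
    intro z hz
    have h0 : mdzb AA z = 0 := by
      ext i j
      exact HC_dzb_hol (HC_AA_diff hz i j)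
    rw [h0]
    simp
  tracefree := by
    intro z _
    refine ⟨by simp, ?_⟩
    simp [AA, Matrix.trace_fin_two]
  near := fun p _ => Eventually.of_forall fun _ => rfl
  parabolic := fun p hp => HB_nilpotent hp

end GM16
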