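import Pool.Agent.LibGM16.HA

open Complex MeasureTheory Filter Topology Matrix
open scoped ContDiff Real ComplexOrder

namespace GM16

variable {γ t : ℝ} {v v' f f' : ℂ → ℝ}

private lemma HD_conn : IsPreconnected (ZIᶜ : Set ℂ) := by
  have hc : ZI.Countable := by
    have h1 : ZI ⊆ Set.range (fun p : ℤ × ℤ => (p.1 : ℂ) + p.2 * I) := by
      rintro w ⟨m, n, rfl⟩
      exact ⟨(m, n), rfl⟩
    exact (Set.countable_range _).mono h1
  exact (hc.isConnected_compl_of_one_lt_rank (by rw [Complex.rank_real_complex]; norm_num)).isPreconnected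

private lemma HD_half : (1 / 2 : ℂ) ∉ ZI := by
  rintro ⟨m, n, h⟩
  have h1 := congrArg Complex.re h
  simp at h1
  have h2 : (2 : ℝ) * m = 1 := by rw [← h1]; norm_num
  have h3 : (2 : ℤ) * m = 1 := by exact_mod_cast h2
  omega

/-- `q` has no continuous square root on `U`: `y(℘(w)) ℘'(w) = ±1` would be constant on the connected
set `ℂ ∖ ℤ[i]`, but it is odd. -/
theorem no_sqrt : ¬ ∃ y : ℂ → ℂ, ContinuousOn y (EX γ).U ∧ ∀ z ∈ (EX γ).U, y z ^ 2 = qq z := by
  rintro ⟨y, hy, hq⟩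
  have hLL : ∀ w : ℂ, w ∉ ZI → w ∉ LL := fun w hw h => hw (LL_sub_ZI h)
  have hF : ContinuousOn (fun w => y (wp w) * wpd w) ZIᶜ := by
    intro w hw
    have h1 := wp_analytic (hLL w hw)
    have h2 : ContinuousAt y (wp w) := hy.continuousAt (isOpen_U.mem_nhds (wp_mem_U hw))
    exact ((h2.comp h1.1.continuousAt).mul h1.2.continuousAt).continuousWithinAt
  have hsq : Set.EqOn ((fun w => y (wp w) * wpd w) ^ 2) ((fun _ => (1 : ℂ)) ^ 2) ZIᶜ := by
    intro w hw
    have h1 : wpd w ≠ 0 := fun h => hw ((wpd_eq_zero (hLL w hw)).mp h)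
    simp only [Pi.pow_apply, mul_pow, one_pow]
    rw [hq _ (wp_mem_U (γ := γ) hw), qq_wp hw]
    field_simp
  have hodd : ∀ w, y (wp (-w)) * wpd (-w) = -(y (wp w) * wpd w) := by
    intro w
    rw [(wp_neg w).1, (wp_neg w).2]
    ring
  have h1 : (1 / 2 : ℂ) ∈ (ZIᶜ : Set ℂ) := HD_half
  have h2 : -(1 / 2 : ℂ) ∈ (ZIᶜ : Set ℂ) := fun h => HD_half (by simpa using ZI_neg h)
  have h3 := hodd (1 / 2)
  rcases HD_conn.eq_or_eq_neg_of_sq_eq hF continuousOn_const hsq (fun _ => one_ne_zero) with h | h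
  · have e1 := h h1
    have e2 := h h2
    simp only at e1 e2
    rw [e1, e2] at h3
    norm_num at h3
  · have e1 := h h1
    have e2 := h h2
    simp only [Pi.neg_apply] at e1 e2
    rw [e1, e2] at h3
    norm_num at h3

end GM16
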