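import Pool.Agent.LibGM16.HD

open Complex MeasureTheory Filter Topology Matrix
open scoped ContDiff Real ComplexOrder

namespace GM16

variable {γ t : ℝ} {v v' f f' : ℂ → ℝ}

/-- An invariant line is spanned by `(1, y)` with `y² = q`. -/
theorem no_line : ¬ ∃ ℓ, (EX γ).InvariantLine ℓ := by
  rintro ⟨ℓ, hℓ⟩
  have hv : ∀ z, ∃ v : Fin 2 → ℂ, z ∈ (EX γ).U → v ≠ 0 ∧ ∀ x ∈ ℓ z, ∃ c : ℂ, x = c • v := by
    intro z
    by_cases hz : z ∈ (EX γ).U
    · obtain ⟨v, hv0, hv⟩ := finrank_eq_one_iff'.mp (hℓ z hz).1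
      refine ⟨v, fun _ => ⟨by simpa using hv0, fun x hx => ?_⟩⟩
      obtain ⟨c, hc⟩ := hv ⟨x, hx⟩
      exact ⟨c, by rw [← Submodule.coe_smul, hc]⟩
    · exact ⟨0, fun h => absurd h hz⟩
  choose v hv using hv
  have hmem : ∀ z ∈ (EX γ).U, v z ∈ ℓ z := by
    intro z hz
    obtain ⟨u, hu0, hu⟩ := finrank_eq_one_iff'.mp (hℓ z hz).1
    obtain ⟨c, hc⟩ := (hv z hz).2 u u.2
    have hc0 : c ≠ 0 := by
      rintro rfl
      rw [zero_smul] at hc
      exact hu0 (by simpa using hc)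
    have h1 : v z = c⁻¹ • (u : Fin 2 → ℂ) := by rw [hc, inv_smul_smul₀ hc0]
    rw [h1]
    exact (ℓ z).smul_mem _ u.2
  have hinv : ∀ z ∈ (EX γ).U, ∀ x ∈ ℓ z, x ≠ 0 → x 0 ≠ 0 ∧ (x 1 / x 0) ^ 2 = qq z ∧
      x 1 / x 0 = v z 1 / v z 0 := by
    intro z hz x hx hx0
    obtain ⟨c, hc⟩ := (hv z hz).2 x hx
    have hc0 : c ≠ 0 := by
      rintro rfl
      rw [zero_smul] at hc
      exact hx0 hc
    have h1 := (hℓ z hz).2.1 x hx
    obtain ⟨d, hd⟩ := (hv z hz).2 _ h1
    have h2 : (EX γ).A z *ᵥ x = !![0, 1; qq z, 0] *ᵥ x := rfl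
    rw [h2] at hd
    have h3 : x 1 = d * v z 0 := by
      have := congrFun hd 0
      simpa [Matrix.mulVec, dotProduct, Fin.sum_univ_two] using this
    have h4 : qq z * x 0 = d * v z 1 := by
      have := congrFun hd 1
      simpa [Matrix.mulVec, dotProduct, Fin.sum_univ_two] using this
    have h5 : x 0 = c * v z 0 := by rw [hc]; simp
    have h6 : x 1 = c * v z 1 := by rw [hc]; simp
    have h7 : x 0 ≠ 0 := by
      intro h0
      have h8 : v z 0 = 0 := by
        rw [h0] at h5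
        rcases mul_eq_zero.mp h5.symm with h | h
        · exact absurd h hc0
        · exact h
      rw [h8, mul_zero] at h3
      apply hx0
      funext i
      fin_cases i
      · exact h0
      · exact h3
    have h8 : v z 0 ≠ 0 := by
      intro h
      rw [h, mul_zero] at h5
      exact h7 h5
    refine ⟨h7, ?_, ?_⟩
    · rw [div_pow, div_eq_iff (pow_ne_zero 2 h7)]
      have h9 : x 1 * c = d * x 0 := by rw [h5, h3]; ring
      have h10 : qq z * x 0 * c = d * x 1 := by rw [h4, h6]; ring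
      have h11 : c * (x 1 ^ 2 - qq z * x 0 ^ 2) = 0 := by linear_combination x 1 * h9 - x 0 * h10
      rcases mul_eq_zero.mp h11 with h | h
      · exact absurd h hc0
      · exact sub_eq_zero.mp h
    · rw [h5, h6]
      field_simp
  refine no_sqrt (γ := γ) ⟨fun z => v z 1 / v z 0, ?_, fun z hz => ?_⟩
  · intro z hz
    obtain ⟨s, hs⟩ := (hℓ z hz).2.2
    have hsz := hs.self_of_nhds
    have h1 : ContinuousAt (fun w => s w 1 / s w 0) z := by
      have h2 : ContinuousAt (fun w => s w 1) z := continuousAt_pi.mp hsz.1 1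
      have h3 : ContinuousAt (fun w => s w 0) z := continuousAt_pi.mp hsz.1 0
      exact h2.div h3 (hinv z hz _ hsz.2.2 hsz.2.1).1
    refine ContinuousAt.continuousWithinAt (h1.congr ?_)
    filter_upwards [hs, isOpen_U.mem_nhds hz] with w hw hwU
    exact (hinv w hwU _ hw.2.2 hw.2.1).2.2
  · exact (hinv z hz _ (hmem z hz) (hv z hz).1).2.1

end GM16
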