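import Pool.Agent.LibGM16.HA

open Complex MeasureTheory Filter Topology Matrix
open scoped ContDiff Real ComplexOrder

namespace GM16

variable {γ t : ℝ} {v v' f f' : ℂ → ℝ}

theorem pull_wp (he : ∀ w, v (-w) = v w) (h1 : ∀ w, v (w + 1) = v w) (h2 : ∀ w, v (w + I) = v w)
    {w : ℂ} (hw : w ∉ LL) : pull v (wp w) = v w := by
  have hs : winv (wp w) ∉ LL ∧ wp (winv (wp w)) = wp w :=
    Classical.epsilon_spec (p := fun w' => w' ∉ LL ∧ wp w' = wp w) ⟨w, hw, rfl⟩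
  show v (winv (wp w)) = v w
  rcases wp_inj hs.1 hw hs.2 with h | h
  · have h3 := per_ZI h1 h2 (LL_sub_ZI h) w
    rw [← h3]
    congr 1
    ring
  · have h3 := per_ZI h1 h2 (LL_sub_ZI h) (-w)
    rw [← he w, ← h3]
    congr 1
    ring

theorem pull_smooth (he : ∀ w, v (-w) = v w) (h1 : ∀ w, v (w + 1) = v w)
    (h2 : ∀ w, v (w + I) = v w) (hs : ContDiffOn ℝ ∞ v ZIᶜ) :
    ContDiffOn ℝ ∞ (pull v) (EX γ).U := by
  intro z hz
  obtain ⟨w, hw, rfl⟩ := exists_w hz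
  have hL : w ∉ LL := fun h => hw (LL_sub_ZI h)
  have hd0 : wpd w ≠ 0 := fun h => hw ((wpd_eq_zero hL).1 h)
  have hana : AnalyticAt ℂ wp w := (wp_analytic hL).1
  have hcd : ContDiffAt ℂ ∞ wp w := hana.contDiffAt
  let f' : ℂ ≃L[ℂ] ℂ := ContinuousLinearEquiv.unitsEquivAut ℂ (Units.mk0 (wpd w) hd0)
  have hf' : HasFDerivAt wp (f' : ℂ →L[ℂ] ℂ) w := by
    have h : HasFDerivAt wp (ContinuousLinearMap.toSpanSingleton ℂ (wpd w)) w :=
      (wp_hasDeriv hL).hasFDerivAt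
    have e : (f' : ℂ →L[ℂ] ℂ) = ContinuousLinearMap.toSpanSingleton ℂ (wpd w) := by
      refine ContinuousLinearMap.ext fun x => ?_
      show x * wpd w = x • wpd w
      rfl
    rw [e]
    exact h
  have hn : (∞ : WithTop ℕ∞) ≠ 0 := by simp
  have hg : ContDiffAt ℂ ∞ (hcd.localInverse hf' hn) (wp w) := hcd.to_localInverse hf' hn
  set g := hcd.localInverse hf' hn with hgdef
  have hgw : g (wp w) = w := ContDiffAt.localInverse_apply_image hcd hf' hn
  have hright : ∀ᶠ y in 𝓝 (wp w), wp (g y) = y :=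
    (hcd.hasStrictFDerivAt' hf' hn).eventually_right_inverse
  have hgR : ContDiffAt ℝ ∞ g (wp w) := hg.restrict_scalars ℝ
  have hgc : ContinuousAt g (wp w) := hgR.continuousAt
  have hopen : IsOpen (ZIᶜ : Set ℂ) := isClosed_ZI.isOpen_compl
  have hgZ : ∀ᶠ y in 𝓝 (wp w), g y ∈ (ZIᶜ : Set ℂ) := by
    refine hgc.eventually_mem ?_
    rw [hgw]
    exact hopen.mem_nhds hw
  have hev : pull v =ᶠ[𝓝 (wp w)] fun y => v (g y) := by
    filter_upwards [hright, hgZ] with y hy hy'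
    have hgL : g y ∉ LL := fun h => hy' (LL_sub_ZI h)
    have h3 := pull_wp he h1 h2 hgL
    rw [hy] at h3
    exact h3
  have hvg : ContDiffAt ℝ ∞ (fun y => v (g y)) (wp w) := by
    have hvw : ContDiffAt ℝ ∞ v (g (wp w)) := by
      rw [hgw]
      exact hs.contDiffAt (hopen.mem_nhds hw)
    exact hvw.comp (wp w) hgR
  exact (hvg.congr_of_eventuallyEq hev).contDiffWithinAt

end GM16
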