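import Pool.Agent.LibGM16.HF
import Pool.Agent.LibGM16.CalcB

open Complex MeasureTheory Filter Topology Matrix
open scoped ContDiff Real ComplexOrder

namespace GM16

variable {γ t : ℝ} {v v' f f' : ℂ → ℝ}

private lemma HG_fderiv {u : ℂ → ℝ} {z : ℂ} (hu : ContDiffAt ℝ 2 u z) :
    DifferentiableAt ℝ (fderiv ℝ u) z :=
  (hu.fderiv_right (m := 1) (by norm_num)).differentiableAt (by norm_num)

private lemma HG_lap {u : ℂ → ℝ} {z : ℂ} (hu : ContDiffAt ℝ 2 u z) :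
    lap u z = fderiv ℝ (fderiv ℝ u) z 1 1 + fderiv ℝ (fderiv ℝ u) z I I := by
  have h1 := (HG_fderiv hu).hasFDerivAt
  have h2 : ∀ e : ℂ, fderiv ℝ (fun w => fderiv ℝ u w e) z e = fderiv ℝ (fderiv ℝ u) z e e := by
    intro e
    have h3 := h1.clm_apply (hasFDerivAt_const e z)
    rw [h3.fderiv]
    simp
  unfold lap dx dy
  rw [← h2 1, ← h2 I]

private lemma HG_bilin0 (B : ℂ →L[ℝ] ℂ →L[ℝ] ℝ) (x y : ℝ) :
    B (x • (1 : ℂ) + y • I) (x • (1 : ℂ) + y • I) +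
      B ((-y) • (1 : ℂ) + x • I) ((-y) • (1 : ℂ) + x • I) = (x ^ 2 + y ^ 2) * (B 1 1 + B I I) := by
  simp only [map_add, map_smul, _root_.add_apply, _root_.smul_apply, smul_eq_mul]
  ring

private lemma HG_bilin (B : ℂ →L[ℝ] ℂ →L[ℝ] ℝ) (a : ℂ) :
    B a a + B (a * I) (a * I) = ‖a‖ ^ 2 * (B 1 1 + B I I) := by
  have h1 : a = a.re • (1 : ℂ) + a.im • I := by
    apply Complex.ext <;> simp
  have h2 : a * I = (-a.im) • (1 : ℂ) + a.re • I := by
    apply Complex.ext <;> simp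
  have h3 : ‖a‖ ^ 2 = a.re ^ 2 + a.im ^ 2 := by
    rw [← Complex.normSq_eq_norm_sq, Complex.normSq_apply]; ring
  rw [h3, ← HG_bilin0, ← h1, ← h2]

/-- Laplacian and composition with a holomorphic function. -/
theorem lap_comp_hol {u : ℂ → ℝ} {φ : ℂ → ℂ} {w : ℂ} (hu : ContDiffAt ℝ 2 u (φ w))
    (hφ : AnalyticAt ℂ φ w) :
    lap (fun w => u (φ w)) w = ‖deriv φ w‖ ^ 2 * lap u (φ w) := by
  have hφd : ∀ z, AnalyticAt ℂ φ z → HasFDerivAt φ (deriv φ z • (1 : ℂ →L[ℝ] ℂ)) z := fun z hz =>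
    hz.differentiableAt.hasDerivAt.complexToReal_fderiv
  have hφ'd : HasFDerivAt (deriv φ) (deriv (deriv φ) w • (1 : ℂ →L[ℝ] ℂ)) w :=
    hφ.deriv.differentiableAt.hasDerivAt.complexToReal_fderiv
  have hev : ∀ᶠ z in 𝓝 w, AnalyticAt ℂ φ z ∧ DifferentiableAt ℝ u (φ z) := by
    have h1 : ∀ᶠ y in 𝓝 (φ w), ContDiffAt ℝ 2 u y := hu.eventually (by norm_num)
    filter_upwards [hφ.eventually_analyticAt, hφ.continuousAt.eventually h1] with z h2 h3
    exact ⟨h2, h3.differentiableAt (by norm_num)⟩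
  have hcomp : ∀ e : ℂ, ∀ᶠ z in 𝓝 w, fderiv ℝ (fun w => u (φ w)) z e =
      fderiv ℝ u (φ z) (deriv φ z * e) := by
    intro e
    filter_upwards [hev] with z hz
    have h1 : HasFDerivAt (fun w => u (φ w))
        ((fderiv ℝ u (φ z)).comp (deriv φ z • (1 : ℂ →L[ℝ] ℂ))) z :=
      hz.2.hasFDerivAt.comp z (hφd z hz.1)
    rw [h1.fderiv]
    simp
  have hF := (HG_fderiv hu).hasFDerivAt
  have hsecond : ∀ e : ℂ, fderiv ℝ (fun z => fderiv ℝ (fun w => u (φ w)) z e) w e =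
      fderiv ℝ (fderiv ℝ u) (φ w) (deriv φ w * e) (deriv φ w * e) +
        fderiv ℝ u (φ w) (deriv (deriv φ) w * e * e) := by
    intro e
    rw [Filter.EventuallyEq.fderiv_eq (hcomp e)]
    have h1 : HasFDerivAt (fun z => fderiv ℝ u (φ z))
        ((fderiv ℝ (fderiv ℝ u) (φ w)).comp (deriv φ w • (1 : ℂ →L[ℝ] ℂ))) w :=
      hF.comp w (hφd w hφ)
    have h2 : HasFDerivAt (fun z => deriv φ z * e) ((deriv (deriv φ) w • (1 : ℂ →L[ℝ] ℂ)).smulRight e) w :=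
      hφ'd.mul_const' e
    have h3 := h1.clm_apply h2
    rw [h3.fderiv]
    simp [mul_assoc]
    ring
  have h1 : lap (fun w => u (φ w)) w =
      fderiv ℝ (fun z => fderiv ℝ (fun w => u (φ w)) z 1) w 1 +
      fderiv ℝ (fun z => fderiv ℝ (fun w => u (φ w)) z I) w I := rfl
  rw [h1, hsecond 1, hsecond I, HG_lap hu, ← HG_bilin]
  have h2 : deriv (deriv φ) w * I * I = -(deriv (deriv φ) w) := by
    rw [mul_assoc, Complex.I_mul_I]; ring
  rw [h2, mul_one, mul_one, mul_one, map_neg]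
  ring

/-- so `Δ(pull v)(℘ w) = |q| Δv(w)` -/
theorem lap_pull (he : ∀ w, v (-w) = v w) (h1 : ∀ w, v (w + 1) = v w)
    (h2 : ∀ w, v (w + I) = v w) (hs : ContDiffOn ℝ ∞ v ZIᶜ) {w : ℂ} (hw : w ∉ ZI) :
    lap (pull v) (wp w) = ‖qq (wp w)‖ * lap v w := by
  have hLL : w ∉ LL := fun h => hw (LL_sub_ZI h)
  have hU : wp w ∈ (EX 0).U := wp_mem_U hw
  have h3 : ContDiffAt ℝ 2 (pull v) (wp w) :=
    ((pull_smooth (γ := (0 : ℝ)) he h1 h2 hs).contDiffAt (isOpen_U.mem_nhds hU)).of_le (WithTop.coe_le_coe.2 le_top)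
  have h4 := lap_comp_hol h3 (wp_analytic hLL).1
  have h5 : (fun w => pull v (wp w)) =ᶠ[𝓝 w] v := by
    filter_upwards [isClosed_LL.isOpen_compl.mem_nhds hLL] with z hz
    exact pull_wp he h1 h2 hz
  rw [lap_congr h5, (wp_hasDeriv hLL).deriv] at h4
  have h6 : wpd w ≠ 0 := fun h => hw ((wpd_eq_zero hLL).mp h)
  rw [qq_wp hw, h4, norm_div, norm_one, norm_pow]
  have h7 : ‖wpd w‖ ≠ 0 := norm_ne_zero_iff.mpr h6
  field_simp

end GM16
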