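import Pool.Agent.LibGM16.CalcB

open Complex MeasureTheory Filter Topology Matrix
open scoped ContDiff Real ComplexOrder

namespace GM16

variable {γ t : ℝ} {v v' f f' : ℂ → ℝ}

private lemma HH_fderiv {u : ℂ → ℝ} {z : ℂ} (hu : ContDiffAt ℝ 2 u z) :
    DifferentiableAt ℝ (fderiv ℝ u) z :=
  (hu.fderiv_right (m := 1) (by norm_num)).differentiableAt (by norm_num)

private lemma HH_second {u : ℂ → ℝ} {z : ℂ} (hu : ContDiffAt ℝ 2 u z) (e : ℂ) :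
    HasFDerivAt (fun w => fderiv ℝ u w e) ((fderiv ℝ (fderiv ℝ u) z).flip e) z := by
  have h3 := (HH_fderiv hu).hasFDerivAt.clm_apply (hasFDerivAt_const e z)
  have h4 : (fderiv ℝ u z).comp (0 : ℂ →L[ℝ] ℂ) + ((fderiv ℝ (fderiv ℝ u) z).flip e) =
      (fderiv ℝ (fderiv ℝ u) z).flip e := by simp
  rwa [h4] at h3

private lemma HH_lap {u : ℂ → ℝ} {z : ℂ} (hu : ContDiffAt ℝ 2 u z) :
    lap u z = fderiv ℝ (fderiv ℝ u) z 1 1 + fderiv ℝ (fderiv ℝ u) z I I := by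
  unfold lap dx dy
  rw [(HH_second hu 1).fderiv, (HH_second hu I).fderiv]
  simp

private lemma HH_ofReal {F : ℂ → ℝ} {z : ℂ} (hF : DifferentiableAt ℝ F z) (e : ℂ) :
    fderiv ℝ (fun z => (F z : ℂ)) z e = ((fderiv ℝ F z e : ℝ) : ℂ) := by
  have h1 : HasFDerivAt (fun z => (F z : ℂ)) (Complex.ofRealCLM.comp (fderiv ℝ F z)) z :=
    Complex.ofRealCLM.hasFDerivAt.comp z hF.hasFDerivAt
  rw [h1.fderiv]
  simp

/-- `4 ∂_z̄ ∂_z = Δ` -/
theorem dzb_dz {F : ℂ → ℝ} {z : ℂ} (hF : ContDiffAt ℝ 2 F z) :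
    dzb (dz (fun z => (F z : ℂ))) z = (lap F z : ℂ) / 4 ∧
    dz (dzb (fun z => (F z : ℂ))) z = (lap F z : ℂ) / 4 := by
  have hev : ∀ᶠ w in 𝓝 z, DifferentiableAt ℝ F w := by
    have h1 : ∀ᶠ y in 𝓝 z, ContDiffAt ℝ 2 F y := hF.eventually (by norm_num)
    filter_upwards [h1] with w hw
    exact hw.differentiableAt (by norm_num)
  have hsym : fderiv ℝ (fderiv ℝ F) z 1 I = fderiv ℝ (fderiv ℝ F) z I 1 :=
    (hF.isSymmSndFDerivAt (by simp)) 1 I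
  have hC : ∀ e : ℂ, HasFDerivAt (fun w => ((fderiv ℝ F w e : ℝ) : ℂ))
      (Complex.ofRealCLM.comp ((fderiv ℝ (fderiv ℝ F) z).flip e)) z := fun e =>
    Complex.ofRealCLM.hasFDerivAt.comp z (HH_second hF e)
  have key : ∀ s : ℂ, ∀ e : ℂ,
      fderiv ℝ (fun w => (((fderiv ℝ F w 1 : ℝ) : ℂ) + s * ((fderiv ℝ F w I : ℝ) : ℂ)) / 2) z e =
        (((fderiv ℝ (fderiv ℝ F) z e 1 : ℝ) : ℂ) +
          s * ((fderiv ℝ (fderiv ℝ F) z e I : ℝ) : ℂ)) / 2 := by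
    intro s e
    have h1 := (((hC 1).add ((hC I).const_mul s)).mul_const ((2 : ℂ)⁻¹))
    have h2 : (fun w => (((fderiv ℝ F w 1 : ℝ) : ℂ) + s * ((fderiv ℝ F w I : ℝ) : ℂ)) / 2) =
        fun w => (((fderiv ℝ F w 1 : ℝ) : ℂ) + s * ((fderiv ℝ F w I : ℝ) : ℂ)) * (2 : ℂ)⁻¹ := by
      funext w; rw [div_eq_mul_inv]
    have h3 : HasFDerivAt
        (fun w => (((fderiv ℝ F w 1 : ℝ) : ℂ) + s * ((fderiv ℝ F w I : ℝ) : ℂ)) * (2 : ℂ)⁻¹) _ z := h1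
    rw [h2, h3.fderiv]
    simp
    ring
  have e1 : dz (fun z => (F z : ℂ)) =ᶠ[𝓝 z]
      fun w => (((fderiv ℝ F w 1 : ℝ) : ℂ) + (-I) * ((fderiv ℝ F w I : ℝ) : ℂ)) / 2 := by
    filter_upwards [hev] with w hw
    unfold dz dx dy
    rw [HH_ofReal hw, HH_ofReal hw]
    ring
  have e2 : dzb (fun z => (F z : ℂ)) =ᶠ[𝓝 z]
      fun w => (((fderiv ℝ F w 1 : ℝ) : ℂ) + I * ((fderiv ℝ F w I : ℝ) : ℂ)) / 2 := by
    filter_upwards [hev] with w hw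
    unfold dzb dx dy
    rw [HH_ofReal hw, HH_ofReal hw]
  rw [HH_lap hF]
  constructor
  · have h1 : dzb (dz (fun z => (F z : ℂ))) z = (fderiv ℝ (dz (fun z => (F z : ℂ))) z 1 +
        I * fderiv ℝ (dz (fun z => (F z : ℂ))) z I) / 2 := rfl
    rw [h1, e1.fderiv_eq, key, key, hsym]
    push_cast
    linear_combination (-(fderiv ℝ (fderiv ℝ F) z I I : ℂ) / 4) * Complex.I_mul_I
  · have h1 : dz (dzb (fun z => (F z : ℂ))) z = (fderiv ℝ (dzb (fun z => (F z : ℂ))) z 1 -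
        I * fderiv ℝ (dzb (fun z => (F z : ℂ))) z I) / 2 := rfl
    rw [h1, e2.fderiv_eq, key, key, hsym]
    push_cast
    linear_combination (-(fderiv ℝ (fderiv ℝ F) z I I : ℂ) / 4) * Complex.I_mul_I

/-- `log |g|` is harmonic for holomorphic `g ≠ 0` -/
theorem lap_log_norm {g : ℂ → ℂ} {z : ℂ} (hg : AnalyticAt ℂ g z) (h0 : g z ≠ 0) :
    ContDiffAt ℝ ∞ (fun z => Real.log ‖g z‖) z ∧ lap (fun z => Real.log ‖g z‖) z = 0 := by
  have h1 : ContDiffAt ℝ ∞ (fun z => Real.log ‖g z‖) z :=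
    ((hg.contDiffAt (n := ∞)).restrict_scalars ℝ |>.norm ℝ h0).log (norm_ne_zero_iff.mpr h0)
  refine ⟨h1, ?_⟩
  have h2 : ContDiffAt ℝ 2 (fun z => Real.log ‖g z‖) z := h1.of_le (WithTop.coe_le_coe.2 le_top)
  have h3 := (hg.harmonicAt_log_norm h0).2.self_of_nhds
  rw [HH_lap h2]
  have h4 := congrFun (InnerProductSpace.laplacian_eq_iteratedFDeriv_complexPlane (fun z => Real.log ‖g z‖)) z
  have h5 : Laplacian.laplacian (fun z => Real.log ‖g z‖) z = 0 := h3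
  rw [h5] at h4
  simp only [iteratedFDeriv_two_apply] at h4
  simpa using h4.symm

end GM16
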