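import Pool.Agent.LibGM16.Defs

open Complex MeasureTheory Filter Topology Matrix
open scoped ContDiff Real ComplexOrder

namespace GM16

variable {γ t : ℝ} {v v' f f' : ℂ → ℝ}

theorem HI_inv {a : ℝ} (ha : 0 < a) :
    (!![(a : ℂ), 0; 0, ((a⁻¹ : ℝ) : ℂ)] : Mat)⁻¹ = !![((a⁻¹ : ℝ) : ℂ), 0; 0, (a : ℂ)] := by
  have h0 : (a : ℂ) ≠ 0 := by exact_mod_cast ha.ne'
  refine Matrix.inv_eq_left_inv ?_
  rw [Matrix.mul_fin_two, Matrix.one_fin_two]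
  push_cast
  simp [h0]

theorem HI_ct (z : ℂ) : (AA z)ᴴ = !![0, starRingEnd ℂ (qq z); 1, 0] := by
  rw [AA]
  ext i j
  fin_cases i <;> fin_cases j <;> simp [Matrix.conjTranspose_apply]

/-- the adjoint of `φ` -/
theorem hadj_AA {z : ℂ} {a : ℝ} (ha : 0 < a) :
    hadj !![(a : ℂ), 0; 0, ((a⁻¹ : ℝ) : ℂ)] (AA z) =
      !![0, starRingEnd ℂ (qq z) * (((a ^ 2)⁻¹ : ℝ) : ℂ); ((a ^ 2 : ℝ) : ℂ), 0] := by
  have h0 : (a : ℂ) ≠ 0 := by exact_mod_cast ha.ne'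
  rw [hadj, HI_inv ha, HI_ct, Matrix.mul_fin_two, Matrix.mul_fin_two]
  push_cast
  congr 1
  ext i j
  fin_cases i <;> fin_cases j <;> simp <;> field_simp

/-- The integrand of `N`: `tr((φ + [ν,φ]) φ*) = |q| (2 cosh 2V + 4 F sinh 2V)`. -/
theorem integrand {z : ℂ} {a V F : ℝ} (hz : qq z ≠ 0)
    (ha : a = Real.sqrt ‖qq z‖ * Real.exp V) :
    ((AA z + (!![(F : ℂ), 0; 0, ((-F : ℝ) : ℂ)] * AA z - AA z * !![(F : ℂ), 0; 0, ((-F : ℝ) : ℂ)])) *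
      hadj !![(a : ℂ), 0; 0, ((a⁻¹ : ℝ) : ℂ)] (AA z)).trace =
      ((‖qq z‖ * (2 * Real.cosh (2 * V) + 4 * F * Real.sinh (2 * V)) : ℝ) : ℂ) := by
  have hq : 0 < ‖qq z‖ := norm_pos_iff.mpr hz
  have hapos : 0 < a := by
    rw [ha]
    exact mul_pos (Real.sqrt_pos.mpr hq) (Real.exp_pos V)
  have ha2 : a ^ 2 = ‖qq z‖ * Real.exp (2 * V) := by
    rw [ha, mul_pow, Real.sq_sqrt hq.le, ← Real.exp_nat_mul]
    norm_num
  have hM : AA z + (!![(F : ℂ), 0; 0, ((-F : ℝ) : ℂ)] * AA z -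
      AA z * !![(F : ℂ), 0; 0, ((-F : ℝ) : ℂ)]) =
      !![0, 1 + 2 * (F : ℂ); qq z * (1 - 2 * (F : ℂ)), 0] := by
    rw [AA, Matrix.mul_fin_two, Matrix.mul_fin_two]
    ext i j
    fin_cases i <;> fin_cases j <;> simp <;> ring
  rw [hM, hadj_AA hapos, Matrix.mul_fin_two, Matrix.trace_fin_two]
  simp only [Matrix.of_apply, Matrix.cons_val_zero, Matrix.cons_val_one,
    Matrix.cons_val', Matrix.cons_val_fin_one]
  have hqq : qq z * starRingEnd ℂ (qq z) = ((‖qq z‖ ^ 2 : ℝ) : ℂ) := by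
    rw [Complex.mul_conj, Complex.normSq_eq_norm_sq]
  have e : (0 * 0 + (1 + 2 * (F : ℂ)) * ((a ^ 2 : ℝ) : ℂ)) +
      (qq z * (1 - 2 * (F : ℂ)) * (starRingEnd ℂ (qq z) * (((a ^ 2)⁻¹ : ℝ) : ℂ)) + 0 * 0) =
      (((1 + 2 * F) * a ^ 2 + (1 - 2 * F) * ‖qq z‖ ^ 2 * (a ^ 2)⁻¹ : ℝ) : ℂ) := by
    push_cast
    push_cast at hqq
    linear_combination (1 - 2 * (F : ℂ)) * ((a : ℂ) ^ 2)⁻¹ * hqq
  rw [e, ha2]
  congr 1
  rw [Real.cosh_eq, Real.sinh_eq, mul_inv, Real.exp_neg]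
  have h1 := Real.exp_pos (2 * V)
  field_simp
  ring

end GM16
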