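import Pool.Agent.LibGM16.HH
import Pool.Agent.LibGM16.HI
import Pool.Agent.LibGM16.HA

open Complex MeasureTheory Filter Topology Matrix
open scoped ContDiff Real ComplexOrder

namespace GM16

variable {γ t : ℝ} {v v' f f' : ℂ → ℝ}

theorem hj_fderiv_ofReal {g : ℂ → ℝ} {w : ℂ} (hg : DifferentiableAt ℝ g w) (u : ℂ) :
    fderiv ℝ (fun z => (g z : ℂ)) w u = ((fderiv ℝ g w u : ℝ) : ℂ) := by
  have h := (Complex.ofRealCLM.hasFDerivAt (x := g w)).comp w hg.hasFDerivAt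
  have h2 : HasFDerivAt (fun z => (g z : ℂ)) (Complex.ofRealCLM.comp (fderiv ℝ g w)) w := h
  rw [h2.fderiv]
  rfl

theorem hj_dz_ofReal {g : ℂ → ℝ} {w : ℂ} (hg : DifferentiableAt ℝ g w) :
    dz (fun z => (g z : ℂ)) w = ((dx g w : ℝ) - I * (dy g w : ℝ)) / 2 := by
  unfold dz dx dy
  rw [hj_fderiv_ofReal hg, hj_fderiv_ofReal hg]

theorem hj_dz_exp {l : ℂ → ℝ} {w : ℂ} (hl : DifferentiableAt ℝ l w) (c : ℝ) :
    dz (fun z => ((Real.exp (c * l z) : ℝ) : ℂ)) w =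
      ((Real.exp (c * l w) * c : ℝ) : ℂ) * dz (fun z => (l z : ℂ)) w := by
  have h1 : HasFDerivAt (fun z => Real.exp (c * l z))
      (Real.exp (c * l w) • (c • fderiv ℝ l w)) w :=
    (hl.hasFDerivAt.const_mul c).exp
  rw [hj_dz_ofReal h1.differentiableAt, hj_dz_ofReal hl]
  unfold dx dy
  rw [h1.fderiv]
  simp only [_root_.smul_apply, smul_eq_mul]
  push_cast
  ring

theorem hj_dz_congr {f g : ℂ → ℂ} {w : ℂ} (h : f =ᶠ[𝓝 w] g) : dz f w = dz g w := by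
  unfold dz
  rw [dx_congr h, dy_congr h]

theorem hj_dzb_congr {f g : ℂ → ℂ} {w : ℂ} (h : f =ᶠ[𝓝 w] g) : dzb f w = dzb g w := by
  unfold dzb
  rw [dx_congr h, dy_congr h]

theorem hj_dzb_neg (f : ℂ → ℂ) (w : ℂ) : dzb (fun z => -f z) w = -dzb f w := by
  unfold dzb dx dy
  rw [fderiv_fun_neg]
  simp only [_root_.neg_apply]
  ring

theorem hj_dz_zero (w : ℂ) : dz (fun _ => 0) w = 0 := by
  unfold dz dx dy
  simp

theorem hj_dzb_zero (w : ℂ) : dzb (fun _ => 0) w = 0 := by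
  unfold dzb dx dy
  simp

theorem hj_inv {a : ℝ} (ha : 0 < a) : (!![(a : ℂ), 0; 0, ((a⁻¹ : ℝ) : ℂ)] : Mat)⁻¹ =
    !![((a⁻¹ : ℝ) : ℂ), 0; 0, (a : ℂ)] := by
  have ha' : (a : ℂ) ≠ 0 := by exact_mod_cast ha.ne'
  apply Matrix.inv_eq_right_inv
  ext i j
  fin_cases i <;> fin_cases j <;> simp [Matrix.mul_apply, Fin.sum_univ_two, ha']

/-- Hitchin's equation for `diag(a, 1/a)` with `a = |q|^{1/2} e^V`: `Δ V = 8 t² |q| sinh 2V`. -/
theorem harmonic_eq {V : ℂ → ℝ} (hV : ContDiffOn ℝ ∞ V (EX γ).U) {z : ℂ} (hz : z ∈ (EX γ).U)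
    (hp : lap V z = 8 * t ^ 2 * ‖qq z‖ * Real.sinh (2 * V z)) {h : ℂ → Mat}
    (hh : ∀ z, h z = !![((Real.sqrt ‖qq z‖ * Real.exp (V z) : ℝ) : ℂ), 0;
      0, (((Real.sqrt ‖qq z‖)⁻¹ * Real.exp (-V z) : ℝ) : ℂ)]) :
    mdzb (fun w => (h w)⁻¹ * mdz h w) z =
      ((t ^ 2 : ℝ) : ℂ) • (AA z * hadj (h z) (AA z) - hadj (h z) (AA z) * AA z) := by
  set l : ℂ → ℝ := fun w => (1 / 2) * Real.log ‖qq w‖ + V w with hldef
  have hU := isOpen_U (γ := γ)
  have hlsm : ∀ w ∈ (EX γ).U, ContDiffAt ℝ ∞ l w := by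
    intro w hw
    have h1 := (lap_log_norm (qq_hol (γ := γ) hw) (qq_ne (γ := γ) hw)).1
    have h2 := hV.contDiffAt (hU.mem_nhds hw)
    exact (contDiffAt_const.mul h1).add h2
  have hexp : ∀ w ∈ (EX γ).U, Real.sqrt ‖qq w‖ * Real.exp (V w) = Real.exp (l w) := by
    intro w hw
    have hq : 0 < ‖qq w‖ := norm_pos_iff.2 (qq_ne (γ := γ) hw)
    rw [hldef]
    simp only
    rw [Real.exp_add]
    congr 1
    rw [Real.sqrt_eq_rpow, Real.rpow_def_of_pos hq]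
    congr 1
    ring
  have hexp' : ∀ w ∈ (EX γ).U, (Real.sqrt ‖qq w‖)⁻¹ * Real.exp (-V w) = (Real.exp (l w))⁻¹ := by
    intro w hw
    rw [← hexp w hw, mul_inv, Real.exp_neg]
  have hmat : ∀ w ∈ (EX γ).U, h w = !![((Real.exp (l w) : ℝ) : ℂ), 0;
      0, (((Real.exp (l w))⁻¹ : ℝ) : ℂ)] := by
    intro w hw
    rw [hh w, hexp w hw, hexp' w hw]
  have hmdz : ∀ w ∈ (EX γ).U, mdz h w =
      !![((Real.exp (l w) : ℝ) : ℂ) * dz (fun z => (l z : ℂ)) w, 0;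
        0, -(((Real.exp (l w))⁻¹ : ℝ) : ℂ) * dz (fun z => (l z : ℂ)) w] := by
    intro w hw
    have hd : DifferentiableAt ℝ l w := (hlsm w hw).differentiableAt (by simp)
    have hev : ∀ᶠ u in 𝓝 w, u ∈ (EX γ).U := hU.mem_nhds hw
    have e00 : dz (fun u => h u 0 0) w = ((Real.exp (l w) : ℝ) : ℂ) * dz (fun z => (l z : ℂ)) w := by
      have : (fun u => h u 0 0) =ᶠ[𝓝 w] (fun z => ((Real.exp (1 * l z) : ℝ) : ℂ)) := by
        filter_upwards [hev] with u hu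
        rw [hmat u hu]
        simp
      rw [hj_dz_congr this, hj_dz_exp hd]
      simp
    have e01 : dz (fun u => h u 0 1) w = 0 := by
      have : (fun u => h u 0 1) =ᶠ[𝓝 w] (fun _ => (0 : ℂ)) := by
        filter_upwards [hev] with u hu
        rw [hmat u hu]
        simp
      rw [hj_dz_congr this, hj_dz_zero]
    have e10 : dz (fun u => h u 1 0) w = 0 := by
      have : (fun u => h u 1 0) =ᶠ[𝓝 w] (fun _ => (0 : ℂ)) := by
        filter_upwards [hev] with u hu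
        rw [hmat u hu]
        simp
      rw [hj_dz_congr this, hj_dz_zero]
    have e11 : dz (fun u => h u 1 1) w =
        -(((Real.exp (l w))⁻¹ : ℝ) : ℂ) * dz (fun z => (l z : ℂ)) w := by
      have : (fun u => h u 1 1) =ᶠ[𝓝 w] (fun z => ((Real.exp ((-1) * l z) : ℝ) : ℂ)) := by
        filter_upwards [hev] with u hu
        rw [hmat u hu]
        simp [Real.exp_neg]
      rw [hj_dz_congr this, hj_dz_exp hd]
      simp [Real.exp_neg]
    ext i j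
    fin_cases i <;> fin_cases j
    · simpa [mdz] using e00
    · simpa [mdz] using e01
    · simpa [mdz] using e10
    · simpa [mdz] using e11
  have hconn : ∀ w ∈ (EX γ).U, (h w)⁻¹ * mdz h w =
      !![dz (fun z => (l z : ℂ)) w, 0; 0, -dz (fun z => (l z : ℂ)) w] := by
    intro w hw
    rw [hmdz w hw, hmat w hw, hj_inv (Real.exp_pos _)]
    have he : ((Real.exp (l w) : ℝ) : ℂ) ≠ 0 := by
      exact_mod_cast (Real.exp_pos (l w)).ne'
    ext i j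
    fin_cases i <;> fin_cases j
    · simp [Matrix.mul_apply, Fin.sum_univ_two]
    · simp [Matrix.mul_apply, Fin.sum_univ_two]
    · simp [Matrix.mul_apply, Fin.sum_univ_two]
    · simp [Matrix.mul_apply, Fin.sum_univ_two]
  have hlap : lap l z = 8 * t ^ 2 * ‖qq z‖ * Real.sinh (2 * V z) := by
    have h1 := lap_log_norm (qq_hol (γ := γ) hz) (qq_ne (γ := γ) hz)
    have h2 := hV.contDiffAt (hU.mem_nhds hz)
    have c1 : ContDiffAt ℝ 2 (fun z => Real.log ‖qq z‖) z := h1.1.of_le (by decide)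
    have c2 : ContDiffAt ℝ 2 V z := h2.of_le (by decide)
    rw [hldef, lap_add (contDiffAt_const.mul c1) c2, lap_const_mul _ c1, h1.2, hp]
    ring
  have hl2 : ContDiffAt ℝ 2 l z := (hlsm z hz).of_le (by decide)
  have hev : ∀ᶠ u in 𝓝 z, u ∈ (EX γ).U := hU.mem_nhds hz
  have hdd := (dzb_dz hl2).1
  have hL : mdzb (fun w => (h w)⁻¹ * mdz h w) z =
      !![((2 * t ^ 2 * ‖qq z‖ * Real.sinh (2 * V z) : ℝ) : ℂ), 0;
        0, -((2 * t ^ 2 * ‖qq z‖ * Real.sinh (2 * V z) : ℝ) : ℂ)] := by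
    have e : ((lap l z : ℝ) : ℂ) / 4 = ((2 * t ^ 2 * ‖qq z‖ * Real.sinh (2 * V z) : ℝ) : ℂ) := by
      rw [hlap]
      push_cast
      ring
    have e00 : dzb (fun w => ((h w)⁻¹ * mdz h w) 0 0) z =
        ((2 * t ^ 2 * ‖qq z‖ * Real.sinh (2 * V z) : ℝ) : ℂ) := by
      have : (fun w => ((h w)⁻¹ * mdz h w) 0 0) =ᶠ[𝓝 z] dz (fun z => (l z : ℂ)) := by
        filter_upwards [hev] with u hu
        rw [hconn u hu]
        simp
      rw [hj_dzb_congr this, hdd, e]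
    have e01 : dzb (fun w => ((h w)⁻¹ * mdz h w) 0 1) z = 0 := by
      have : (fun w => ((h w)⁻¹ * mdz h w) 0 1) =ᶠ[𝓝 z] (fun _ => 0) := by
        filter_upwards [hev] with u hu
        rw [hconn u hu]
        simp
      rw [hj_dzb_congr this, hj_dzb_zero]
    have e10 : dzb (fun w => ((h w)⁻¹ * mdz h w) 1 0) z = 0 := by
      have : (fun w => ((h w)⁻¹ * mdz h w) 1 0) =ᶠ[𝓝 z] (fun _ => 0) := by
        filter_upwards [hev] with u hu
        rw [hconn u hu]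
        simp
      rw [hj_dzb_congr this, hj_dzb_zero]
    have e11 : dzb (fun w => ((h w)⁻¹ * mdz h w) 1 1) z =
        -((2 * t ^ 2 * ‖qq z‖ * Real.sinh (2 * V z) : ℝ) : ℂ) := by
      have : (fun w => ((h w)⁻¹ * mdz h w) 1 1) =ᶠ[𝓝 z]
          (fun w => -dz (fun z => (l z : ℂ)) w) := by
        filter_upwards [hev] with u hu
        rw [hconn u hu]
        simp
      rw [hj_dzb_congr this, hj_dzb_neg, hdd, e]
    ext i j
    fin_cases i <;> fin_cases j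
    · simpa [mdzb] using e00
    · simpa [mdzb] using e01
    · simpa [mdzb] using e10
    · simpa [mdzb] using e11
  have hq : 0 < ‖qq z‖ := norm_pos_iff.2 (qq_ne (γ := γ) hz)
  rw [hL, hmat z hz, hadj_AA (Real.exp_pos _)]
  have ha2 : Real.exp (l z) ^ 2 = ‖qq z‖ * Real.exp (2 * V z) := by
    rw [← hexp z hz, mul_pow, Real.sq_sqrt hq.le, ← Real.exp_nat_mul]
    norm_num
  have hqc : qq z * starRingEnd ℂ (qq z) = ((‖qq z‖ ^ 2 : ℝ) : ℂ) := by
    rw [Complex.mul_conj, Complex.normSq_eq_norm_sq]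
  have hi : ((‖qq z‖ ^ 2 : ℝ) : ℂ) * (((Real.exp (l z) ^ 2)⁻¹ : ℝ) : ℂ) =
      ((‖qq z‖ * Real.exp (-(2 * V z)) : ℝ) : ℂ) := by
    rw [← Complex.ofReal_mul, ha2, Real.exp_neg]
    congr 1
    have := (Real.exp_pos (2 * V z)).ne'
    field_simp
  have hsinh : Real.sinh (2 * V z) = (Real.exp (2 * V z) - Real.exp (-(2 * V z))) / 2 :=
    Real.sinh_eq _
  have hA : (((Real.exp (l z) ^ 2 : ℝ)) : ℂ) = ((‖qq z‖ * Real.exp (2 * V z) : ℝ) : ℂ) := by
    rw [ha2]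
  have hB1 : qq z * (starRingEnd ℂ (qq z) * (((Real.exp (l z) ^ 2)⁻¹ : ℝ) : ℂ)) =
      ((‖qq z‖ * Real.exp (-(2 * V z)) : ℝ) : ℂ) := by
    rw [← mul_assoc, hqc, hi]
  have hB2 : starRingEnd ℂ (qq z) * (((Real.exp (l z) ^ 2)⁻¹ : ℝ) : ℂ) * qq z =
      ((‖qq z‖ * Real.exp (-(2 * V z)) : ℝ) : ℂ) := by
    rw [← hB1]
    ring
  have hR : AA z * !![0, starRingEnd ℂ (qq z) * (((Real.exp (l z) ^ 2)⁻¹ : ℝ) : ℂ);
        ((Real.exp (l z) ^ 2 : ℝ) : ℂ), 0] -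
      !![0, starRingEnd ℂ (qq z) * (((Real.exp (l z) ^ 2)⁻¹ : ℝ) : ℂ);
        ((Real.exp (l z) ^ 2 : ℝ) : ℂ), 0] * AA z =
      !![((Real.exp (l z) ^ 2 : ℝ) : ℂ) -
        starRingEnd ℂ (qq z) * (((Real.exp (l z) ^ 2)⁻¹ : ℝ) : ℂ) * qq z, 0;
        0, qq z * (starRingEnd ℂ (qq z) * (((Real.exp (l z) ^ 2)⁻¹ : ℝ) : ℂ)) -
          ((Real.exp (l z) ^ 2 : ℝ) : ℂ)] := by
    unfold AA
    ext i j
    fin_cases i <;> fin_cases j <;> simp
  rw [hR, hB1, hB2, hA]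
  ext i j
  fin_cases i <;> fin_cases j
  · simp only [Fin.zero_eta, Matrix.of_apply, Matrix.cons_val_zero, Matrix.smul_apply,
      smul_eq_mul, Matrix.cons_val', Matrix.cons_val_fin_one]
    rw [hsinh]
    push_cast
    ring
  · simp
  · simp
  · simp only [Fin.mk_one, Matrix.of_apply, Matrix.cons_val_one, Matrix.smul_apply,
      smul_eq_mul, Matrix.cons_val', Matrix.cons_val_fin_one]
    rw [hsinh]
    push_cast
    ring

end GM16
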