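import Pool.Agent.LibGM16.HH
import Pool.Agent.LibGM16.HI
import Pool.Agent.LibGM16.HA

open Complex MeasureTheory Filter Topology Matrix
open scoped ContDiff Real ComplexOrder

namespace GM16

variable {γ t : ℝ} {v v' f f' : ℂ → ℝ}

theorem hk_dz_neg (g : ℂ → ℂ) (z : ℂ) : dz (fun w => -g w) z = -dz g z := by
  simp only [dz, dx, dy, fderiv_fun_neg, _root_.neg_apply]
  ring

theorem hk_dzb_neg (g : ℂ → ℂ) (z : ℂ) : dzb (fun w => -g w) z = -dzb g z := by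
  simp only [dzb, dx, dy, fderiv_fun_neg, _root_.neg_apply]
  ring

theorem hk_dz_zero (z : ℂ) : dz (fun _ => (0 : ℂ)) z = 0 := by
  simp [dz, dx, dy]

theorem hk_dzb_zero (z : ℂ) : dzb (fun _ => (0 : ℂ)) z = 0 := by
  simp [dzb, dx, dy]

/-- `∂_z̄ diag(F, -F)` -/
theorem hk_mdzb {F : ℂ → ℝ} {ν : ℂ → Mat} (hν : ∀ z, ν z = !![((F z : ℝ) : ℂ), 0; 0, ((-F z : ℝ) : ℂ)])
    (z : ℂ) : mdzb ν z = !![dzb (fun z => (F z : ℂ)) z, 0; 0, -dzb (fun z => (F z : ℂ)) z] := by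
  unfold mdzb
  ext i j
  fin_cases i <;> fin_cases j
  · simp [hν]
  · simp [hν, hk_dzb_zero]
  · simp [hν, hk_dzb_zero]
  · have := hk_dzb_neg (fun z => (F z : ℂ)) z
    simp [hν, this]

theorem hk_mdz_mdzb {F : ℂ → ℝ} {ν : ℂ → Mat}
    (hν : ∀ z, ν z = !![((F z : ℝ) : ℂ), 0; 0, ((-F z : ℝ) : ℂ)]) {z : ℂ}
    (hF : ContDiffAt ℝ 2 F z) :
    mdz (fun w => mdzb ν w) z = !![(lap F z : ℂ) / 4, 0; 0, -((lap F z : ℂ) / 4)] := by
  have h1 := (dzb_dz hF).2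
  have h2 : (fun w => mdzb ν w) = fun w => !![dzb (fun z => (F z : ℂ)) w, 0; 0,
      -dzb (fun z => (F z : ℂ)) w] := funext (hk_mdzb hν)
  rw [h2]
  unfold mdz
  ext i j
  fin_cases i <;> fin_cases j
  · simp
    exact h1
  · simp [hk_dz_zero]
  · simp [hk_dz_zero]
  · have := hk_dz_neg (dzb (fun z => (F z : ℂ))) z
    simp [this]
    exact h1

theorem hk_comm (x y u w : ℂ) : (!![x, 0; 0, y] : Mat) * !![u, 0; 0, w] =
    !![u, 0; 0, w] * !![x, 0; 0, y] := by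
  ext i j
  fin_cases i <;> fin_cases j <;> simp [Matrix.mul_apply, Fin.sum_univ_two, mul_comm]

theorem hk_R (F F' q qc ia2 a2 : ℂ) (hF' : F' = -F) :
    ((!![0, 1; q, 0] : Mat) + (!![F, 0; 0, F'] * !![0, 1; q, 0] - !![0, 1; q, 0] * !![F, 0; 0, F'])) *
      !![0, qc * ia2; a2, 0] - !![0, qc * ia2; a2, 0] *
      (!![0, 1; q, 0] + (!![F, 0; 0, F'] * !![0, 1; q, 0] - !![0, 1; q, 0] * !![F, 0; 0, F'])) =
    !![(1 + 2 * F) * a2 - q * qc * ia2 * (1 - 2 * F), 0;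
      0, -((1 + 2 * F) * a2 - q * qc * ia2 * (1 - 2 * F))] := by
  subst hF'
  ext i j
  fin_cases i <;> fin_cases j
  · simp
    ring
  · simp
  · simp
  · simp
    ring

/-- The gauge equation for `diag(F, -F)`: `ΔF = |q| (8 t² sinh 2V + 16 t² cosh(2V) F)`. -/
theorem gauge_eq {V F : ℂ → ℝ} (hV : ContDiffOn ℝ ∞ V (EX γ).U) (hF : ContDiffOn ℝ ∞ F (EX γ).U)
    {z : ℂ} (hz : z ∈ (EX γ).U)
    (hp : lap F z = ‖qq z‖ * (8 * t ^ 2 * Real.sinh (2 * V z) +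
      16 * t ^ 2 * Real.cosh (2 * V z) * F z)) {h ν : ℂ → Mat}
    (hh : ∀ z, h z = !![((Real.sqrt ‖qq z‖ * Real.exp (V z) : ℝ) : ℂ), 0;
      0, (((Real.sqrt ‖qq z‖)⁻¹ * Real.exp (-V z) : ℝ) : ℂ)])
    (hν : ∀ z, ν z = !![((F z : ℝ) : ℂ), 0; 0, ((-F z : ℝ) : ℂ)]) :
    ParHiggs.Lop h (fun _ => 0) ν z = ((t ^ 2 : ℝ) : ℂ) • (EX γ).Rop h AA ν z := by
  have hq := qq_ne hz
  have hqn : 0 < ‖qq z‖ := norm_pos_iff.mpr hq
  set a := Real.sqrt ‖qq z‖ * Real.exp (V z) with ha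
  have ha0 : 0 < a := by positivity
  have hinv : (Real.sqrt ‖qq z‖)⁻¹ * Real.exp (-V z) = a⁻¹ := by
    rw [ha, mul_inv, Real.exp_neg]
  have hhz : h z = !![(a : ℂ), 0; 0, ((a⁻¹ : ℝ) : ℂ)] := by
    rw [hh z, hinv]
  have ha2 : a ^ 2 = ‖qq z‖ * Real.exp (2 * V z) := by
    rw [ha, mul_pow, Real.sq_sqrt hqn.le, ← Real.exp_nat_mul]
    norm_num
  have hFz : ContDiffAt ℝ 2 F z :=
    (hF.contDiffAt (isOpen_U.mem_nhds hz)).of_le (WithTop.coe_le_coe.mpr le_top)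
  -- left side
  have hL : ParHiggs.Lop h (fun _ => 0) ν z =
      !![(lap F z : ℂ) / 4, 0; 0, -((lap F z : ℂ) / 4)] := by
    unfold ParHiggs.Lop
    simp only [sub_zero]
    rw [hk_mdz_mdzb hν hFz]
    have hc : ((h z)⁻¹ * mdz h z) * mdzb ν z - mdzb ν z * ((h z)⁻¹ * mdz h z) = 0 := by
      have h1 : ∃ x y : ℂ, mdz h z = !![x, 0; 0, y] := by
        refine ⟨mdz h z 0 0, mdz h z 1 1, ?_⟩
        ext i j
        fin_cases i <;> fin_cases j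
        · simp
        · simp [mdz, hh, hk_dz_zero]
        · simp [mdz, hh, hk_dz_zero]
        · simp
      have h2 : ∃ x y : ℂ, (h z)⁻¹ = !![x, 0; 0, y] := by
        refine ⟨(h z)⁻¹ 0 0, (h z)⁻¹ 1 1, ?_⟩
        ext i j
        fin_cases i <;> fin_cases j
        · simp
        · simp [hhz, Matrix.inv_def, Matrix.adjugate_fin_two_of]
        · simp [hhz, Matrix.inv_def, Matrix.adjugate_fin_two_of]
        · simp
      obtain ⟨x, y, hxy⟩ := h1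
      obtain ⟨x', y', hxy'⟩ := h2
      rw [hxy, hxy', hk_mdzb hν z]
      have h3 : (!![x', 0; 0, y'] : Mat) * !![x, 0; 0, y] = !![x' * x, 0; 0, y' * y] := by
        ext i j
        fin_cases i <;> fin_cases j <;> simp [Matrix.mul_apply, Fin.sum_univ_two]
      rw [h3, hk_comm, sub_self]
    rw [hc, add_zero]
  rw [hL]
  -- right side
  unfold ParHiggs.Rop
  have hA : (EX γ).A z = AA z := rfl
  rw [hA, hhz, hadj_AA ha0, hν z]
  have hqc : qq z * starRingEnd ℂ (qq z) = ((‖qq z‖ ^ 2 : ℝ) : ℂ) := by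
    rw [Complex.mul_conj, Complex.normSq_eq_norm_sq]
  have he1 : (1 + 2 * F z) * a ^ 2 - ‖qq z‖ ^ 2 * (a ^ 2)⁻¹ * (1 - 2 * F z) =
      ‖qq z‖ * (2 * Real.sinh (2 * V z) + 4 * Real.cosh (2 * V z) * F z) := by
    have h1 : ‖qq z‖ ^ 2 * (a ^ 2)⁻¹ = ‖qq z‖ * Real.exp (-(2 * V z)) := by
      rw [ha2, mul_inv, Real.exp_neg]
      field_simp
    rw [h1, ha2, Real.sinh_eq, Real.cosh_eq]
    ring
  have he2 : lap F z / 4 = t ^ 2 * ((1 + 2 * F z) * a ^ 2 -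
      ‖qq z‖ ^ 2 * (a ^ 2)⁻¹ * (1 - 2 * F z)) := by
    rw [he1, hp]; ring
  have he3 : ((lap F z : ℝ) : ℂ) / 4 = ((t ^ 2 : ℝ) : ℂ) * ((1 + 2 * (F z : ℂ)) * ((a ^ 2 : ℝ) : ℂ) -
      (qq z * starRingEnd ℂ (qq z)) * (((a ^ 2)⁻¹ : ℝ) : ℂ) * (1 - 2 * (F z : ℂ))) := by
    rw [hqc]
    have := congrArg (fun x : ℝ => (x : ℂ)) he2
    push_cast at this ⊢
    exact this
  rw [he3]
  unfold AA
  rw [hk_R _ _ _ _ _ _ (by push_cast; ring)]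
  ext i j
  fin_cases i <;> fin_cases j
  · rfl
  · simp
  · simp
  · show -(((t ^ 2 : ℝ) : ℂ) * _) = ((t ^ 2 : ℝ) : ℂ) * -_
    rw [mul_neg]

end GM16
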