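import Pool.Agent.LibGM16.MPper
import Pool.Agent.LibGM16.CalcC

open Complex MeasureTheory Filter Topology Matrix
open scoped ContDiff Real ComplexOrder

namespace GM16

variable {γ t : ℝ} {v v' f f' : ℂ → ℝ}

private theorem SymA_log_tendsto : Tendsto (fun w : ℂ => Real.log ‖w‖) (𝓝[≠] 0) atBot := by
  have h1 : Tendsto (fun w : ℂ => ‖w‖) (𝓝[≠] 0) (𝓝[≠] 0) := by
    refine tendsto_nhdsWithin_iff.mpr ⟨?_, ?_⟩
    · have : Tendsto (fun w : ℂ => ‖w‖) (𝓝 0) (𝓝 ‖(0 : ℂ)‖) := continuous_norm.tendsto 0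
      rw [norm_zero] at this
      exact this.mono_left nhdsWithin_le_nhds
    · filter_upwards [self_mem_nhdsWithin] with w hw
      simpa using hw
  exact Real.tendsto_log_nhdsNE_zero.comp h1

private theorem SymA_sinh {a b : ℝ} (h : b ≤ a) : a - b ≤ Real.sinh a - Real.sinh b := by
  have := Real.sinh_sub_id_strictMono.monotone h
  linarith

private theorem SymA_le (ht : 1 ≤ t) (h : Sol γ t v) (h' : Sol γ t v') {w : ℂ} (hw : w ∉ ZI) :
    v w ≤ v' w := by
  have ht2 : 1 ≤ t ^ 2 := one_le_pow₀ ht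
  have hs : ContDiffOn ℝ 2 v ZIᶜ := h.smooth.of_le ENat.LEInfty.out
  have hs' : ContDiffOn ℝ 2 v' ZIᶜ := h'.smooth.of_le ENat.LEInfty.out
  have key := mp_per (u := fun w => v w - v' w) (hs.sub hs')
    (fun w => by simp only [h.perx, h'.perx]) (fun w => by simp only [h.pery, h'.pery]) ?_ ?_ w hw
  · linarith
  · intro z hz hpos
    have hn : ZIᶜ ∈ 𝓝 z := isClosed_ZI.isOpen_compl.mem_nhds hz
    rw [lap_sub (hs.contDiffAt hn) (hs'.contDiffAt hn), h.pde z hz, h'.pde z hz]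
    have h1 := SymA_sinh (a := 2 * v z) (b := 2 * v' z) (by linarith)
    nlinarith
  · intro ε hε
    obtain ⟨L, hL⟩ := h.sing
    obtain ⟨L', hL'⟩ := h'.sing
    have e1 : ∀ᶠ w in 𝓝[≠] (0 : ℂ), v w + γ * Real.log ‖w‖ < L + 1 :=
      hL.eventually (gt_mem_nhds (by linarith))
    have e2 : ∀ᶠ w in 𝓝[≠] (0 : ℂ), L' - 1 < v' w + γ * Real.log ‖w‖ :=
      hL'.eventually (lt_mem_nhds (by linarith))
    have e3 : ∀ᶠ w in 𝓝[≠] (0 : ℂ), Real.log ‖w‖ ≤ -(L - L' + 2) / ε :=
      SymA_log_tendsto.eventually (eventually_le_atBot _)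
    filter_upwards [e1, e2, e3] with w h1 h2 h3
    rw [le_div_iff₀ hε] at h3
    linarith

/-- (apply `mp_per` to `v - v'`; near `0` it is bounded) -/
theorem sol_unique (ht : 1 ≤ t) (h : Sol γ t v) (h' : Sol γ t v') : v = v' := by
  funext w
  by_cases hw : w ∈ ZI
  · rw [h.zero w hw, h'.zero w hw]
  · exact le_antisymm (SymA_le ht h h' hw) (SymA_le ht h' h hw)

private theorem SymA_comp (h : Sol γ t v) (φ : ℂ → ℂ) (hφ : ContDiff ℝ ∞ φ)
    (hZ : ∀ w, φ w ∈ ZI ↔ w ∈ ZI) (hn : ∀ w, ‖φ w‖ = ‖w‖)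
    (hl : ∀ w, ContDiffAt ℝ 2 v (φ w) → lap (fun z => v (φ z)) w = lap v (φ w))
    (h1 : ∀ w, v (φ (w + 1)) = v (φ w)) (h2 : ∀ w, v (φ (w + I)) = v (φ w)) :
    Sol γ t (fun w => v (φ w)) where
  smooth := h.smooth.comp hφ.contDiffOn fun w hw h0 => hw ((hZ w).mp h0)
  pde w hw := by
    have hw' : φ w ∉ ZI := fun h0 => hw ((hZ w).mp h0)
    have hn : ZIᶜ ∈ 𝓝 (φ w) := isClosed_ZI.isOpen_compl.mem_nhds hw'
    rw [hl w ((h.smooth.of_le ENat.LEInfty.out).contDiffAt hn), h.pde _ hw']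
  perx := h1
  pery := h2
  zero w hw := h.zero _ ((hZ w).mpr hw)
  sing := by
    obtain ⟨L, hL⟩ := h.sing
    refine ⟨L, ?_⟩
    have ht : Tendsto φ (𝓝[≠] 0) (𝓝[≠] 0) := by
      have h0 : φ 0 = 0 := by
        have := hn 0
        rwa [norm_zero, norm_eq_zero] at this
      refine tendsto_nhdsWithin_iff.mpr ⟨?_, ?_⟩
      · have := hφ.continuous.tendsto 0
        rw [h0] at this
        exact this.mono_left nhdsWithin_le_nhds
      · filter_upwards [self_mem_nhdsWithin] with w hw h3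
        apply hw
        have h4 : φ w = 0 := h3
        have h5 := hn w
        rw [h4, norm_zero] at h5
        exact norm_eq_zero.mp h5.symm
    refine (hL.comp ht).congr fun w => ?_
    simp only [Function.comp_apply, hn]

theorem sol_neg (ht : 1 ≤ t) (h : Sol γ t v) (w : ℂ) : v (-w) = v w := by
  have key := SymA_comp h (fun w => -w) contDiff_neg
    (fun w => ⟨fun h0 => by simpa using ZI_neg h0, ZI_neg⟩) (fun w => norm_neg w)
    (fun w hw => lap_comp_neg hw) (fun w => ?_) (fun w => ?_)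
  · exact congrFun (sol_unique ht key h) w
  · have := h.perx (-(w + 1))
    rw [← this]; ring_nf
  · have := h.pery (-(w + I))
    rw [← this]; ring_nf

theorem sol_conj (ht : 1 ≤ t) (h : Sol γ t v) (w : ℂ) : v (starRingEnd ℂ w) = v w := by
  have key := SymA_comp h (fun w => starRingEnd ℂ w) conjCLE.contDiff
    (fun w => ⟨fun h0 => by simpa using ZI_conj h0, ZI_conj⟩) (fun w => norm_conj w)
    (fun w hw => lap_comp_conj hw) (fun w => ?_) (fun w => ?_)
  · exact congrFun (sol_unique ht key h) w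
  · rw [map_add, map_one, h.perx]
  · have := h.pery (starRingEnd ℂ (w + I))
    rw [← this, map_add, conj_I]; ring_nf

theorem sol_mulI (ht : 1 ≤ t) (h : Sol γ t v) (w : ℂ) : v (I * w) = v w := by
  have key := SymA_comp h (fun w => I * w) (contDiff_const.mul contDiff_id)
    (fun w => ⟨fun h0 => ?_, ZI_mulI⟩) (fun w => by rw [norm_mul, norm_I, one_mul])
    (fun w hw => lap_comp_mulI hw) (fun w => ?_) (fun w => ?_)
  · exact congrFun (sol_unique ht key h) w
  · have h1 := ZI_neg (ZI_mulI h0)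
    have h2 : -(I * (I * w)) = w := by rw [← mul_assoc, I_mul_I]; ring
    rwa [h2] at h1
  · rw [mul_add, mul_one, h.pery]
  · have := h.perx (I * (w + I))
    rw [← this]
    have h2 : I * (w + I) + 1 = I * w := by rw [mul_add, I_mul_I]; ring
    rw [h2]

end GM16
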