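import Pool.Agent.LibGM16.HF
import Pool.Agent.LibGM16.WF
import Pool.Agent.LibGM16.SymA

open Complex MeasureTheory Filter Topology Matrix
open scoped ContDiff Real ComplexOrder

namespace GM16

variable {γ t : ℝ} {v v' f f' : ℂ → ℝ}

/-- The size of a diagonal metric. -/
theorem hnorm2_diag_hl (A : ℝ) (g0 g1 : ℂ) (x : Fin 2 → ℂ) :
    hnorm2 !![((A : ℝ) : ℂ), 0; 0, ((A⁻¹ : ℝ) : ℂ)] (!![g0, 0; 0, g1] *ᵥ x)
      = A * ‖g0‖ ^ 2 * ‖x 0‖ ^ 2 + A⁻¹ * ‖g1‖ ^ 2 * ‖x 1‖ ^ 2 := by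
  have hn : ∀ z : ℂ, ‖z‖ ^ 2 = z.re * z.re + z.im * z.im := fun z => by
    rw [← Complex.normSq_eq_norm_sq, Complex.normSq_apply]
  simp only [hnorm2, Matrix.mulVec, dotProduct, Fin.sum_univ_two, Matrix.of_apply,
    Matrix.cons_val_zero, Matrix.cons_val_one, Matrix.cons_val', Matrix.cons_val_fin_one,
    Pi.star_apply, zero_mul, add_zero, zero_add, star_mul', hn]
  simp
  ring

/-- The comparison of a diagonal metric with its model. -/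
theorem adapted_of_hl {p : Option ℂ} {h : ℂ → Mat} {A : ℂ → ℝ} {g0 g1 : ℂ → ℂ}
    (hh : ∀ z, h z = !![((A z : ℝ) : ℂ), 0; 0, (((A z)⁻¹ : ℝ) : ℂ)])
    (hG : ∀ z, (EX γ).G p z = !![g0 z, 0; 0, g1 z]) {c c' : ℝ} (hc : 0 < c) (hc' : 0 < c')
    (hcoord : ∀ᶠ z in nhdP p, 0 < ‖coord p z‖)
    (h0 : Tendsto (fun z => A z * ‖g0 z‖ ^ 2 / ‖coord p z‖ ^ (2 * (EX γ).α₂ p)) (nhdP p) (𝓝 c))
    (h1 : Tendsto (fun z => (A z)⁻¹ * ‖g1 z‖ ^ 2 / ‖coord p z‖ ^ (2 * (EX γ).α₁ p)) (nhdP p)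
      (𝓝 c')) : (EX γ).Adapted p h := by
  refine ⟨min (c / 2) (c' / 2), max (2 * c) (2 * c'), by positivity, by positivity, ?_⟩
  have e1 : ∀ᶠ z in nhdP p, c / 2 < A z * ‖g0 z‖ ^ 2 / ‖coord p z‖ ^ (2 * (EX γ).α₂ p) :=
    h0.eventually_const_lt (by linarith)
  have e2 : ∀ᶠ z in nhdP p, A z * ‖g0 z‖ ^ 2 / ‖coord p z‖ ^ (2 * (EX γ).α₂ p) < 2 * c :=
    h0.eventually_lt_const (by linarith)
  have e3 : ∀ᶠ z in nhdP p, c' / 2 < (A z)⁻¹ * ‖g1 z‖ ^ 2 / ‖coord p z‖ ^ (2 * (EX γ).α₁ p) :=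
    h1.eventually_const_lt (by linarith)
  have e4 : ∀ᶠ z in nhdP p, (A z)⁻¹ * ‖g1 z‖ ^ 2 / ‖coord p z‖ ^ (2 * (EX γ).α₁ p) < 2 * c' :=
    h1.eventually_lt_const (by linarith)
  filter_upwards [hcoord, e1, e2, e3, e4] with z hz a1 a2 a3 a4 x
  have p2 : 0 < ‖coord p z‖ ^ (2 * (EX γ).α₂ p) := Real.rpow_pos_of_pos hz _
  have p1 : 0 < ‖coord p z‖ ^ (2 * (EX γ).α₁ p) := Real.rpow_pos_of_pos hz _
  rw [lt_div_iff₀ p2] at a1
  rw [div_lt_iff₀ p2] at a2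
  rw [lt_div_iff₀ p1] at a3
  rw [div_lt_iff₀ p1] at a4
  rw [hh, hG, hnorm2_diag_hl]
  set X := ‖x 0‖ ^ 2 with hX
  set Y := ‖x 1‖ ^ 2 with hY
  have hX0 : 0 ≤ X := by positivity
  have hY0 : 0 ≤ Y := by positivity
  constructor
  · calc min (c / 2) (c' / 2) * (X * ‖coord p z‖ ^ (2 * (EX γ).α₂ p)
          + Y * ‖coord p z‖ ^ (2 * (EX γ).α₁ p))
        = min (c / 2) (c' / 2) * ‖coord p z‖ ^ (2 * (EX γ).α₂ p) * X
          + min (c / 2) (c' / 2) * ‖coord p z‖ ^ (2 * (EX γ).α₁ p) * Y := by ring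
      _ ≤ (c / 2) * ‖coord p z‖ ^ (2 * (EX γ).α₂ p) * X
          + (c' / 2) * ‖coord p z‖ ^ (2 * (EX γ).α₁ p) * Y := by
          gcongr
          · exact min_le_left _ _
          · exact min_le_right _ _
      _ ≤ A z * ‖g0 z‖ ^ 2 * X + (A z)⁻¹ * ‖g1 z‖ ^ 2 * Y := by gcongr
  · calc A z * ‖g0 z‖ ^ 2 * X + (A z)⁻¹ * ‖g1 z‖ ^ 2 * Y
        ≤ (2 * c) * ‖coord p z‖ ^ (2 * (EX γ).α₂ p) * X
          + (2 * c') * ‖coord p z‖ ^ (2 * (EX γ).α₁ p) * Y := by gcongr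
      _ ≤ max (2 * c) (2 * c') * ‖coord p z‖ ^ (2 * (EX γ).α₂ p) * X
          + max (2 * c) (2 * c') * ‖coord p z‖ ^ (2 * (EX γ).α₁ p) * Y := by
          gcongr
          · exact le_max_left _ _
          · exact le_max_right _ _
      _ = max (2 * c) (2 * c') * (X * ‖coord p z‖ ^ (2 * (EX γ).α₂ p)
          + Y * ‖coord p z‖ ^ (2 * (EX γ).α₁ p)) := by ring

/-- asymptotics of the pull back at the finite marked points -/
theorem pull_fin_hl (ht : 1 ≤ t) (hv : Sol γ t v) {w₀ : ℂ} (h : w₀ ∉ LL) (hz : w₀ ∈ ZI) :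
    ∃ L : ℝ, Tendsto (fun z => pull v z + γ / 2 * Real.log ‖z - wp w₀‖) (𝓝[≠] (wp w₀)) (𝓝 L) := by
  obtain ⟨L, hL⟩ := hv.sing
  obtain ⟨c, hc, hlim⟩ := wp_half h hz
  refine ⟨L + γ / 2 * Real.log ‖c‖, ?_⟩
  refine Tendsto.mono_left ?_ (nhds_le_map h)
  rw [tendsto_map'_iff]
  have hev1 : ∀ᶠ w in 𝓝[≠] w₀, w ∉ LL :=
    eventually_nhdsWithin_of_eventually_nhds (isClosed_LL.isOpen_compl.mem_nhds h)
  have hev2 : ∀ᶠ w in 𝓝[≠] w₀, (wp w - wp w₀) / (w - w₀) ^ 2 ≠ 0 := hlim.eventually_ne hc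
  have hlog : Tendsto (fun w => Real.log ‖(wp w - wp w₀) / (w - w₀) ^ 2‖) (𝓝[≠] w₀)
      (𝓝 (Real.log ‖c‖)) :=
    (Real.continuousAt_log (norm_ne_zero_iff.2 hc)).tendsto.comp hlim.norm
  have hsh : Tendsto (fun w : ℂ => w - w₀) (𝓝[≠] w₀) (𝓝[≠] 0) := by
    apply tendsto_nhdsWithin_iff.2
    constructor
    · have : Tendsto (fun w : ℂ => w - w₀) (𝓝 w₀) (𝓝 (w₀ - w₀)) := by
        exact (continuous_id.sub continuous_const).tendsto w₀
      rw [sub_self] at this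
      exact this.mono_left nhdsWithin_le_nhds
    · filter_upwards [self_mem_nhdsWithin] with w hw
      exact sub_ne_zero.2 hw
  have hL' : Tendsto (fun w => v (w - w₀) + γ * Real.log ‖w - w₀‖) (𝓝[≠] w₀) (𝓝 L) :=
    hL.comp hsh
  have hsum := hL'.add (hlog.const_mul (γ / 2))
  refine hsum.congr' ?_
  filter_upwards [hev1, hev2, self_mem_nhdsWithin] with w a1 a2 a3
  have hw0 : w - w₀ ≠ 0 := sub_ne_zero.2 a3
  have hnum : wp w - wp w₀ ≠ 0 := by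
    intro h0
    apply a2
    rw [h0, zero_div]
  simp only [Function.comp]
  rw [pull_wp (sol_neg ht hv) hv.perx hv.pery a1]
  have hper : v w = v (w - w₀) := by
    have := per_ZI hv.perx hv.pery hz (w - w₀)
    rw [sub_add_cancel] at this
    exact this
  rw [hper, norm_div, norm_pow, Real.log_div (norm_ne_zero_iff.2 hnum)
    (pow_ne_zero _ (norm_ne_zero_iff.2 hw0)), Real.log_pow]
  push_cast
  ring

/-- asymptotics of the pull back at infinity -/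
theorem pull_inf_hl (ht : 1 ≤ t) (hv : Sol γ t v) :
    ∃ L : ℝ, Tendsto (fun z => pull v z - γ / 2 * Real.log ‖z‖) (cocompact ℂ) (𝓝 L) := by
  obtain ⟨L, hL⟩ := hv.sing
  refine ⟨L, ?_⟩
  refine Tendsto.mono_left ?_ cocompact_le_map
  rw [tendsto_map'_iff]
  have hlim := wp_pole.1
  have hev1 : ∀ᶠ w in 𝓝[≠] (0 : ℂ), w ∉ LL := by
    have h1 : ∀ᶠ w in 𝓝[≠] (0 : ℂ), ‖w‖ < 1 := by
      apply eventually_nhdsWithin_of_eventually_nhds
      have := (continuous_norm (E := ℂ)).continuousAt (x := (0 : ℂ))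
      apply this.eventually_lt continuousAt_const
      simp
    filter_upwards [h1, self_mem_nhdsWithin] with w hw hw0 hLL
    have := one_le_norm_ZI (LL_sub_ZI hLL) hw0
    linarith
  have hev2 : ∀ᶠ w in 𝓝[≠] (0 : ℂ), w ^ 2 * wp w ≠ 0 := hlim.eventually_ne one_ne_zero
  have hlog : Tendsto (fun w => Real.log ‖w ^ 2 * wp w‖) (𝓝[≠] 0) (𝓝 (Real.log ‖(1 : ℂ)‖)) :=
    (Real.continuousAt_log (by simp)).tendsto.comp hlim.norm
  have hsum := hL.sub (hlog.const_mul (γ / 2))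
  simp only [norm_one, Real.log_one, mul_zero, sub_zero] at hsum
  refine hsum.congr' ?_
  filter_upwards [hev1, hev2, self_mem_nhdsWithin] with w a1 a2 a3
  have hw0 : w ≠ 0 := a3
  have hwp : wp w ≠ 0 := by
    intro h0
    apply a2
    rw [h0, mul_zero]
  simp only [Function.comp]
  rw [pull_wp (sol_neg ht hv) hv.perx hv.pery a1]
  rw [norm_mul, norm_pow, Real.log_mul (pow_ne_zero _ (norm_ne_zero_iff.2 hw0))
    (norm_ne_zero_iff.2 hwp), Real.log_pow]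
  push_cast
  ring

/-- finite marked points -/
theorem adapted_fin_hl (ht : 1 ≤ t) (hv : Sol γ t v) {w₀ : ℂ} (h : w₀ ∉ LL) (hz : w₀ ∈ ZI)
    (hq : ∃ c : ℂ, c ≠ 0 ∧ Tendsto (fun z => (z - wp w₀) * qq z) (𝓝[≠] (wp w₀)) (𝓝 c)) :
    (EX γ).Adapted (some (wp w₀)) (hmet v) := by
  obtain ⟨L, hL⟩ := pull_fin_hl ht hv h hz
  obtain ⟨c, hc, hq⟩ := hq
  set a := wp w₀ with ha
  have hcoord : ∀ᶠ z in nhdP (some a), 0 < ‖coord (some a) z‖ := by
    show ∀ᶠ z in 𝓝[≠] a, 0 < ‖z - a‖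
    filter_upwards [self_mem_nhdsWithin] with z hz
    exact norm_pos_iff.2 (sub_ne_zero.2 hz)
  have hqne : ∀ᶠ z in 𝓝[≠] a, (z - a) * qq z ≠ 0 := hq.eventually_ne hc
  have key : Tendsto (fun z => Real.sqrt ‖(z - a) * qq z‖ *
      Real.exp (pull v z + γ / 2 * Real.log ‖z - a‖)) (𝓝[≠] a)
      (𝓝 (Real.sqrt ‖c‖ * Real.exp L)) :=
    ((Real.continuous_sqrt.tendsto _).comp hq.norm).mul ((Real.continuous_exp.tendsto _).comp hL)
  have hpos : 0 < Real.sqrt ‖c‖ * Real.exp L :=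
    mul_pos (Real.sqrt_pos.2 (norm_pos_iff.2 hc)) (Real.exp_pos _)
  have hexp : ∀ z : ℂ, 0 < ‖z - a‖ → Real.sqrt ‖(z - a) * qq z‖ *
      Real.exp (pull v z + γ / 2 * Real.log ‖z - a‖) =
      (Real.sqrt ‖qq z‖ * Real.exp (pull v z)) * ‖z - a‖ ^ (1 / 2 + γ / 2) := by
    intro z hz
    rw [norm_mul, Real.sqrt_mul hz.le, Real.exp_add, mul_comm (γ / 2), ← Real.rpow_def_of_pos hz,
      Real.rpow_add hz, Real.sqrt_eq_rpow ‖z - a‖]
    ring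
  have hmet_eq : ∀ z, hmet v z = !![((Real.sqrt ‖qq z‖ * Real.exp (pull v z) : ℝ) : ℂ), 0;
      0, (((Real.sqrt ‖qq z‖ * Real.exp (pull v z))⁻¹ : ℝ) : ℂ)] := by
    intro z
    rw [hmet, mul_inv, ← Real.exp_neg]
  apply adapted_of_hl (A := fun z => Real.sqrt ‖qq z‖ * Real.exp (pull v z))
    (g0 := fun z => z - a) (g1 := fun _ => 1) hmet_eq (fun z => rfl) hpos (inv_pos.2 hpos) hcoord
  · refine key.congr' ?_
    filter_upwards [hcoord] with z hz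
    have hz' : 0 < ‖z - a‖ := hz
    rw [hexp z hz']
    show _ = Real.sqrt ‖qq z‖ * Real.exp (pull v z) * ‖z - a‖ ^ 2 /
      ‖z - a‖ ^ (2 * (3 / 4 - γ / 4))
    rw [mul_div_assoc]
    congr 1
    rw [← Real.rpow_natCast, ← Real.rpow_sub hz']
    congr 1
    push_cast
    ring
  · refine (key.inv₀ hpos.ne').congr' ?_
    filter_upwards [hcoord] with z hz
    have hz' : 0 < ‖z - a‖ := hz
    rw [hexp z hz']
    show _ = (Real.sqrt ‖qq z‖ * Real.exp (pull v z))⁻¹ * ‖(1 : ℂ)‖ ^ 2 /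
      ‖z - a‖ ^ (2 * (1 / 4 + γ / 4))
    rw [mul_inv, norm_one, one_pow, mul_one, div_eq_mul_inv]
    congr 3
    ring

/-- infinity -/
theorem adapted_inf_hl (ht : 1 ≤ t) (hv : Sol γ t v) : (EX γ).Adapted none (hmet v) := by
  obtain ⟨L, hL⟩ := pull_inf_hl ht hv
  obtain ⟨-, -, -, hq⟩ := qq_asymp
  have hev : ∀ᶠ z : ℂ in cocompact ℂ, 0 < ‖z‖ := by
    filter_upwards [(tendsto_norm_cocompact_atTop (E := ℂ)).eventually_gt_atTop 0] with z hz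
    exact hz
  have hcoord : ∀ᶠ z in nhdP none, 0 < ‖coord none z‖ := by
    show ∀ᶠ z in cocompact ℂ, 0 < ‖z⁻¹‖
    filter_upwards [hev] with z hz
    rw [norm_inv]
    exact inv_pos.2 hz
  have key : Tendsto (fun z => Real.sqrt ‖z ^ 3 * qq z‖ *
      Real.exp (pull v z - γ / 2 * Real.log ‖z‖)) (cocompact ℂ)
      (𝓝 (Real.sqrt ‖(1 / 4 : ℂ)‖ * Real.exp L)) :=
    ((Real.continuous_sqrt.tendsto _).comp hq.norm).mul ((Real.continuous_exp.tendsto _).comp hL)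
  have hpos : 0 < Real.sqrt ‖(1 / 4 : ℂ)‖ * Real.exp L :=
    mul_pos (Real.sqrt_pos.2 (norm_pos_iff.2 (by norm_num))) (Real.exp_pos _)
  have hexp : ∀ z : ℂ, 0 < ‖z‖ → Real.sqrt ‖z ^ 3 * qq z‖ *
      Real.exp (pull v z - γ / 2 * Real.log ‖z‖) =
      (Real.sqrt ‖qq z‖ * Real.exp (pull v z)) * ‖z‖ ^ (3 / 2 - γ / 2) := by
    intro z hz
    have e1 : Real.sqrt (‖z‖ ^ 3) = ‖z‖ ^ (3 / 2 : ℝ) := by
      rw [Real.sqrt_eq_rpow, ← Real.rpow_natCast, ← Real.rpow_mul hz.le]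
      norm_num
    have e2 : Real.exp (pull v z - γ / 2 * Real.log ‖z‖)
        = Real.exp (pull v z) * ‖z‖ ^ (-(γ / 2)) := by
      rw [Real.rpow_def_of_pos hz, ← Real.exp_add]
      congr 1
      ring
    rw [norm_mul, norm_pow, Real.sqrt_mul (by positivity), e1, e2, sub_eq_add_neg (3 / 2 : ℝ),
      Real.rpow_add hz]
    ring
  have hmet_eq : ∀ z, hmet v z = !![((Real.sqrt ‖qq z‖ * Real.exp (pull v z) : ℝ) : ℂ), 0;
      0, (((Real.sqrt ‖qq z‖ * Real.exp (pull v z))⁻¹ : ℝ) : ℂ)] := by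
    intro z
    rw [hmet, mul_inv, ← Real.exp_neg]
  apply adapted_of_hl (A := fun z => Real.sqrt ‖qq z‖ * Real.exp (pull v z))
    (g0 := fun _ => 1) (g1 := fun z => z⁻¹) hmet_eq (fun z => rfl) hpos (inv_pos.2 hpos) hcoord
  · refine key.congr' ?_
    filter_upwards [hev] with z hz
    rw [hexp z hz]
    show _ = Real.sqrt ‖qq z‖ * Real.exp (pull v z) * ‖(1 : ℂ)‖ ^ 2 /
      ‖z⁻¹‖ ^ (2 * (3 / 4 - γ / 4))
    rw [norm_one, one_pow, mul_one, norm_inv, Real.inv_rpow hz.le, div_inv_eq_mul]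
    congr 2
    ring
  · refine (key.inv₀ hpos.ne').congr' ?_
    filter_upwards [hev] with z hz
    rw [hexp z hz]
    show _ = (Real.sqrt ‖qq z‖ * Real.exp (pull v z))⁻¹ * ‖z⁻¹‖ ^ 2 /
      ‖z⁻¹‖ ^ (2 * (1 / 4 + γ / 4))
    have hzi : 0 < ‖z⁻¹‖ := by rw [norm_inv]; exact inv_pos.2 hz
    rw [mul_inv, mul_div_assoc]
    congr 1
    rw [← Real.rpow_natCast, ← Real.rpow_sub hzi, norm_inv, ← Real.rpow_neg hz.le,
      Real.inv_rpow hz.le, ← Real.rpow_neg hz.le]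
    congr 1
    push_cast
    ring

/-- `hmet v` is adapted to the weights, if `v + γ log|w| → L`. -/
theorem adapted (hγ : 0 < γ) (hγ' : γ < 1) (ht : 1 ≤ t) (hv : Sol γ t v) (p : Option ℂ)
    (hp : p ∈ (EX γ).pts) : (EX γ).Adapted p (hmet v) := by
  have hodd : ∀ m n : ℤ, (m % 2 = 1 ∨ n % 2 = 1) → ((m : ℂ) + n * I) ∉ LL := by
    rintro m n hmn ⟨a, b, h⟩
    have h1 := congrArg Complex.re h
    have h2 := congrArg Complex.im h
    simp at h1 h2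
    have h3' : ((m : ℤ) : ℝ) = ((2 * a : ℤ) : ℝ) := by push_cast; exact h1
    have h4' : ((n : ℤ) : ℝ) = ((2 * b : ℤ) : ℝ) := by push_cast; exact h2
    have h3 : m = 2 * a := by exact_mod_cast h3'
    have h4 : n = 2 * b := by exact_mod_cast h4'
    omega
  obtain ⟨q1, q2, q3, -⟩ := qq_asymp
  rcases hp with rfl | ⟨a, ha, rfl⟩
  · exact adapted_inf_hl ht hv
  · have ha' : a = e1 ∨ a = e2 ∨ a = e3 := by
      simpa [EX] using ha
    rcases ha' with rfl | rfl | rfl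
    · apply adapted_fin_hl ht hv (w₀ := 1) _ _ q1
      · simpa using hodd 1 0 (by simp)
      · exact ⟨1, 0, by simp⟩
    · apply adapted_fin_hl ht hv (w₀ := I) _ _ q2
      · simpa using hodd 0 1 (by simp)
      · exact ⟨0, 1, by simp⟩
    · apply adapted_fin_hl ht hv (w₀ := 1 + I) _ _ q3
      · simpa using hodd 1 1 (by simp)
      · exact ⟨1, 1, by simp⟩

end GM16
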