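import Pool.Agent.LibGM16.HJ
import Pool.Agent.LibGM16.HG
import Pool.Agent.LibGM16.HL
import Pool.Agent.LibGM16.SymA

open Complex MeasureTheory Filter Topology Matrix
open scoped ContDiff Real ComplexOrder

namespace GM16

variable {γ t : ℝ} {v v' f f' : ℂ → ℝ}

private theorem hm_LL_ZI {w : ℂ} (hw : w ∉ ZI) : w ∉ LL := by
  rintro ⟨m, n, rfl⟩
  exact hw ⟨2 * m, 2 * n, by push_cast; ring⟩

private theorem hm_sqrt {z : ℂ} (hz : z ∈ (EX γ).U) :
    ContDiffAt ℝ ∞ (fun z => Real.sqrt ‖qq z‖) z ∧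
    ContDiffAt ℝ ∞ (fun z => (Real.sqrt ‖qq z‖)⁻¹) z := by
  have h1 : ContDiffAt ℝ ∞ (fun z => Real.log ‖qq z‖) z := (lap_log_norm (qq_hol hz) (qq_ne hz)).1
  have h2 : ContDiffAt ℝ ∞ (fun z => Real.exp (Real.log ‖qq z‖ * (1 / 2))) z :=
    Real.contDiff_exp.contDiffAt.comp z (h1.mul contDiffAt_const)
  have h3 : (fun z => Real.sqrt ‖qq z‖) =ᶠ[𝓝 z] fun z => Real.exp (Real.log ‖qq z‖ * (1 / 2)) := by
    filter_upwards [isOpen_U.mem_nhds hz] with w hw
    have hq : 0 < ‖qq w‖ := norm_pos_iff.mpr (qq_ne hw)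
    rw [← Real.rpow_def_of_pos hq, Real.sqrt_eq_rpow]
  have h4 := h2.congr_of_eventuallyEq h3
  refine ⟨h4, h4.inv ?_⟩
  have hq : 0 < ‖qq z‖ := norm_pos_iff.mpr (qq_ne hz)
  positivity

theorem EX_harmonic (hγ : 0 < γ) (hγ' : γ ≤ 1 / 8) (ht : 1 ≤ t) (hv : Sol γ t v) :
    (EX γ).Harmonic t (hmet v) := by
  have hvs : ContDiffOn ℝ ∞ (pull v) (EX γ).U :=
    pull_smooth (sol_neg ht hv) hv.perx hv.pery hv.smooth
  refine ⟨?_, ?_, ?_, ?_, ?_⟩
  · intro i j z hz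
    apply ContDiffAt.contDiffWithinAt
    have hvz : ContDiffAt ℝ ∞ (pull v) z := hvs.contDiffAt (isOpen_U.mem_nhds hz)
    obtain ⟨h1, h2⟩ := hm_sqrt hz
    have h3 : ContDiffAt ℝ ∞ (fun z => ((Real.sqrt ‖qq z‖ * Real.exp (pull v z) : ℝ) : ℂ)) z :=
      Complex.ofRealCLM.contDiff.contDiffAt.comp z
        (h1.mul (Real.contDiff_exp.contDiffAt.comp z hvz))
    have h4 : ContDiffAt ℝ ∞
        (fun z => (((Real.sqrt ‖qq z‖)⁻¹ * Real.exp (-pull v z) : ℝ) : ℂ)) z :=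
      Complex.ofRealCLM.contDiff.contDiffAt.comp z
        (h2.mul (Real.contDiff_exp.contDiffAt.comp z hvz.neg))
    fin_cases i <;> fin_cases j
    · exact h3
    · exact contDiffAt_const
    · exact contDiffAt_const
    · exact h4
  · intro z hz
    have hq : 0 < ‖qq z‖ := norm_pos_iff.mpr (qq_ne hz)
    have h1 : hmet v z = Matrix.diagonal
        ![((Real.sqrt ‖qq z‖ * Real.exp (pull v z) : ℝ) : ℂ),
          (((Real.sqrt ‖qq z‖)⁻¹ * Real.exp (-pull v z) : ℝ) : ℂ)] := by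
      unfold hmet
      ext i j
      fin_cases i <;> fin_cases j <;> simp
    rw [h1]
    apply Matrix.PosDef.diagonal
    intro i
    have ha : 0 < Real.sqrt ‖qq z‖ * Real.exp (pull v z) := by positivity
    have hb : 0 < (Real.sqrt ‖qq z‖)⁻¹ * Real.exp (-pull v z) := by positivity
    fin_cases i
    · exact Complex.zero_lt_real.mpr ha
    · exact Complex.zero_lt_real.mpr hb
  · intro z hz
    have hq : 0 < ‖qq z‖ := norm_pos_iff.mpr (qq_ne hz)
    unfold hmet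
    rw [Matrix.det_fin_two_of, mul_zero, sub_zero, ← Complex.ofReal_mul]
    have h1 : Real.sqrt ‖qq z‖ * Real.exp (pull v z) *
        ((Real.sqrt ‖qq z‖)⁻¹ * Real.exp (-pull v z)) = 1 := by
      have hs : Real.sqrt ‖qq z‖ ≠ 0 := by positivity
      rw [Real.exp_neg]
      field_simp
    rw [h1, Complex.ofReal_one]
  · intro z hz
    refine harmonic_eq (V := pull v) hvs hz ?_ (fun _ => rfl)
    obtain ⟨w, hw, rfl⟩ := exists_w hz
    rw [lap_pull (sol_neg ht hv) hv.perx hv.pery hv.smooth hw,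
      pull_wp (sol_neg ht hv) hv.perx hv.pery (hm_LL_ZI hw), hv.pde w hw]
    ring
  · intro p hp
    exact adapted hγ (by linarith) ht hv p hp

end GM16
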