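import Pool.Agent.LibGM16.HK
import Pool.Agent.LibGM16.HG
import Pool.Agent.LibGM16.HL
import Pool.Agent.LibGM16.SymB

open Complex MeasureTheory Filter Topology Matrix
open scoped ContDiff Real ComplexOrder

namespace GM16

variable {γ t : ℝ} {v v' f f' : ℂ → ℝ}

private theorem hn_LL_ZI {w : ℂ} (hw : w ∉ ZI) : w ∉ LL := by
  rintro ⟨m, n, rfl⟩
  exact hw ⟨2 * m, 2 * n, by push_cast; ring⟩

private theorem hn_hadj {a b : ℝ} (ha : a ≠ 0) (hb : b ≠ 0) (x y : ℝ) :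
    hadj !![(a : ℂ), 0; 0, (b : ℂ)] !![(x : ℂ), 0; 0, (y : ℂ)] = !![(x : ℂ), 0; 0, (y : ℂ)] := by
  have ha' : (a : ℂ) ≠ 0 := by exact_mod_cast ha
  have hb' : (b : ℂ) ≠ 0 := by exact_mod_cast hb
  have hdet : IsUnit (!![(a : ℂ), 0; 0, (b : ℂ)] : Mat).det := by
    rw [Matrix.det_fin_two_of]
    simp [ha', hb']
  have hstar : (!![(x : ℂ), 0; 0, (y : ℂ)] : Mat)ᴴ = !![(x : ℂ), 0; 0, (y : ℂ)] := by
    ext i j
    fin_cases i <;> fin_cases j <;> simp [Matrix.conjTranspose_apply]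
  have hcomm : (!![(x : ℂ), 0; 0, (y : ℂ)] : Mat) * !![(a : ℂ), 0; 0, (b : ℂ)] =
      !![(a : ℂ), 0; 0, (b : ℂ)] * !![(x : ℂ), 0; 0, (y : ℂ)] := hk_comm _ _ _ _
  unfold hadj
  rw [hstar, Matrix.mul_assoc, hcomm, ← Matrix.mul_assoc, Matrix.nonsing_inv_mul _ hdet,
    Matrix.one_mul]

theorem EX_gauge (hγ : 0 < γ) (hγ' : γ ≤ 1 / 8) (ht : 1 ≤ t) (hv : Sol γ t v)
    (hf : LinSol t v f) : (EX γ).Gauge t (hmet v) (fun _ => 0) AA (nuM f) := by
  have hvs : ContDiffOn ℝ ∞ (pull v) (EX γ).U :=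
    pull_smooth (sol_neg ht hv) hv.perx hv.pery hv.smooth
  have hfs : ContDiffOn ℝ ∞ (pull f) (EX γ).U :=
    pull_smooth (lin_neg ht hv hf) hf.perx hf.pery hf.smooth
  refine ⟨⟨?_, ?_, ?_⟩, ?_⟩
  · intro i j
    have h1 : ContDiffOn ℝ ∞ (fun z => ((pull f z : ℝ) : ℂ)) (EX γ).U :=
      Complex.ofRealCLM.contDiff.comp_contDiffOn hfs
    have h2 : ContDiffOn ℝ ∞ (fun z => ((-pull f z : ℝ) : ℂ)) (EX γ).U :=
      Complex.ofRealCLM.contDiff.comp_contDiffOn hfs.neg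
    fin_cases i <;> fin_cases j
    · exact h1
    · exact contDiffOn_const
    · exact contDiffOn_const
    · exact h2
  · intro z _
    simp [nuM, Matrix.trace_fin_two]
  · refine ⟨1, fun z hz => ?_⟩
    have hq : 0 < ‖qq z‖ := norm_pos_iff.mpr (qq_ne hz)
    have h1 : hadj (hmet v z) (nuM f z) = nuM f z := by
      unfold hmet nuM
      exact hn_hadj (by positivity) (by positivity) _ _
    rw [h1]
    have h2 : (nuM f z * nuM f z).trace = ((2 * pull f z ^ 2 : ℝ) : ℂ) := by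
      simp [nuM, Matrix.trace_fin_two]
      ring
    rw [h2, Complex.ofReal_re]
    have h3 := abs_le.mp (hf.bdd (winv z))
    have h4 : pull f z = f (winv z) := rfl
    rw [h4]
    nlinarith [h3.1, h3.2]
  · intro z hz
    refine gauge_eq (V := pull v) (F := pull f) hvs hfs hz ?_ (fun _ => rfl) (fun _ => rfl)
    obtain ⟨w, hw, rfl⟩ := exists_w hz
    rw [lap_pull (lin_neg ht hv hf) hf.perx hf.pery hf.smooth hw,
      pull_wp (sol_neg ht hv) hv.perx hv.pery (hn_LL_ZI hw),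
      pull_wp (lin_neg ht hv hf) hf.perx hf.pery (hn_LL_ZI hw), hf.pde w hw]
    ring

end GM16
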