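import Pool.Agent.LibGM16.HJ
import Pool.Agent.LibGM16.HK

open Complex MeasureTheory Filter Topology Matrix
open scoped ContDiff Real ComplexOrder

namespace GM16

variable {γ t : ℝ} {v v' f f' : ℂ → ℝ}

private theorem ho_sqrt {z : ℂ} (hz : z ∈ (EX γ).U) :
    ContDiffAt ℝ ∞ (fun z => Real.sqrt ‖qq z‖) z ∧
    ContDiffAt ℝ ∞ (fun z => (Real.sqrt ‖qq z‖)⁻¹) z := by
  have h1 : ContDiffAt ℝ ∞ (fun z => Real.log ‖qq z‖) z := (lap_log_norm (qq_hol hz) (qq_ne hz)).1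
  have h2 : ContDiffAt ℝ ∞ (fun z => Real.exp (Real.log ‖qq z‖ * (1 / 2))) z :=
    Real.contDiff_exp.contDiffAt.comp z (h1.mul contDiffAt_const)
  have h3 : (fun z => Real.sqrt ‖qq z‖) =ᶠ[𝓝 z] fun z => Real.exp (Real.log ‖qq z‖ * (1 / 2)) := by
    filter_upwards [isOpen_U.mem_nhds hz] with w hw
    have hq : 0 < ‖qq w‖ := norm_pos_iff.mpr (qq_ne hw)
    rw [← Real.rpow_def_of_pos hq, Real.sqrt_eq_rpow]
  have h4 := h2.congr_of_eventuallyEq h3
  refine ⟨h4, h4.inv ?_⟩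
  have hq : 0 < ‖qq z‖ := norm_pos_iff.mpr (qq_ne hz)
  positivity

private theorem ho_lap_zero (z : ℂ) : lap (fun _ => (0 : ℝ)) z = 0 := by
  have h1 : dx (fun _ : ℂ => (0 : ℝ)) = fun _ => 0 := by
    funext z
    simp [dx]
  have h2 : dy (fun _ : ℂ => (0 : ℝ)) = fun _ => 0 := by
    funext z
    simp [dy]
  unfold lap
  rw [h1, h2]
  simp [dx, dy]

private theorem ho_eq (t : ℝ) {z : ℂ} (hz : z ∈ (EX γ).U) :
    mdzb (fun w => (hinf w)⁻¹ * mdz hinf w) z =
      ((t ^ 2 : ℝ) : ℂ) • (AA z * hadj (hinf z) (AA z) - hadj (hinf z) (AA z) * AA z) := by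
  refine harmonic_eq (γ := γ) (V := fun _ => 0) contDiffOn_const hz ?_ ?_
  · rw [ho_lap_zero]
    simp
  · intro z
    simp [hinf]

/-- the limiting metric -/
theorem EX_hinf : (∀ i j, ContDiffOn ℝ ∞ (fun z => hinf z i j) (EX γ).U) ∧
    (∀ z ∈ (EX γ).U, (hinf z).PosDef ∧ (hinf z).det = 1 ∧
      mdzb (fun w => (hinf w)⁻¹ * mdz hinf w) z = 0 ∧
      AA z * hadj (hinf z) (AA z) - hadj (hinf z) (AA z) * AA z = 0) := by
  constructor
  · intro i j z hz
    apply ContDiffAt.contDiffWithinAt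
    obtain ⟨h1, h2⟩ := ho_sqrt hz
    have h3 : ContDiffAt ℝ ∞ (fun z => ((Real.sqrt ‖qq z‖ : ℝ) : ℂ)) z :=
      Complex.ofRealCLM.contDiff.contDiffAt.comp z h1
    have h4 : ContDiffAt ℝ ∞ (fun z => (((Real.sqrt ‖qq z‖)⁻¹ : ℝ) : ℂ)) z :=
      Complex.ofRealCLM.contDiff.contDiffAt.comp z h2
    fin_cases i <;> fin_cases j
    · exact h3
    · exact contDiffAt_const
    · exact contDiffAt_const
    · exact h4
  · intro z hz
    have hq : 0 < ‖qq z‖ := norm_pos_iff.mpr (qq_ne hz)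
    have e0 := ho_eq 0 hz
    have e1 := ho_eq 1 hz
    have h0 : mdzb (fun w => (hinf w)⁻¹ * mdz hinf w) z = 0 := by
      rw [e0]; simp
    refine ⟨?_, ?_, h0, ?_⟩
    · have h1 : hinf z = Matrix.diagonal
          ![((Real.sqrt ‖qq z‖ : ℝ) : ℂ), (((Real.sqrt ‖qq z‖)⁻¹ : ℝ) : ℂ)] := by
        unfold hinf
        ext i j
        fin_cases i <;> fin_cases j <;> simp
      rw [h1]
      apply Matrix.PosDef.diagonal
      intro i
      have ha : 0 < Real.sqrt ‖qq z‖ := by positivity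
      have hb : 0 < (Real.sqrt ‖qq z‖)⁻¹ := by positivity
      fin_cases i
      · exact Complex.zero_lt_real.mpr ha
      · exact Complex.zero_lt_real.mpr hb
    · unfold hinf
      rw [Matrix.det_fin_two_of, mul_zero, sub_zero, ← Complex.ofReal_mul,
        mul_inv_cancel₀ (by positivity), Complex.ofReal_one]
    · rw [h0] at e1
      simpa using e1.symm

theorem EX_gaugeInf : (EX γ).GaugeInf hinf (fun _ => 0) AA (fun _ => 0) := by
  have hz0 : ∀ z, mdzb (fun _ => (0 : Mat)) z = 0 := by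
    intro z
    ext i j
    simp [mdzb, hk_dzb_zero]
  have hz1 : ∀ z, mdz (fun _ => (0 : Mat)) z = 0 := by
    intro z
    ext i j
    simp [mdz, hk_dz_zero]
  refine ⟨⟨?_, ?_, ?_⟩, ?_, ?_⟩
  · intro i j
    exact contDiffOn_const
  · intro z _
    simp
  · refine ⟨0, fun z _ => ?_⟩
    simp
  · intro z hz
    unfold ParHiggs.Lop
    simp only [hz0, sub_zero, hz1, mul_zero, zero_mul, add_zero]
  · intro z hz
    unfold ParHiggs.Rop
    have h1 : (EX γ).A z = AA z := rfl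
    rw [h1]
    simp only [zero_mul, mul_zero, sub_zero, add_zero]
    exact ((EX_hinf (γ := γ)).2 z hz).2.2.2

end GM16
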