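import Pool.Agent.LibGM16.Le3
import Pool.Agent.LibGM16.Sign

open Complex MeasureTheory Filter Topology Matrix
open scoped ContDiff Real ComplexOrder

namespace GM16

variable {γ t : ℝ} {v v' f f' : ℂ → ℝ}

private theorem PsiInt_null : volume (ZI : Set ℂ) = 0 := by
  have : ZI = Set.range (fun p : ℤ × ℤ => ((p.1 : ℂ) + p.2 * I)) := by
    ext w
    constructor
    · rintro ⟨m, n, rfl⟩; exact ⟨(m, n), rfl⟩
    · rintro ⟨⟨m, n⟩, rfl⟩; exact ⟨m, n, rfl⟩
  rw [this]
  exact (Set.countable_range _).measure_zero _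

private theorem PsiInt_meas {g : ℂ → ℝ} (hg : ContinuousOn g ZIᶜ) :
    AEStronglyMeasurable g volume := by
  have h1 : AEStronglyMeasurable g (volume.restrict ZIᶜ) :=
    hg.aestronglyMeasurable isClosed_ZI.isOpen_compl.measurableSet
  have h2 : (volume : Measure ℂ).restrict ZIᶜ = volume :=
    Measure.restrict_eq_self_of_ae_mem (by
      rw [ae_iff]
      simpa using PsiInt_null)
  rwa [h2] at h1

private theorem PsiInt_sub : QQ ⊆ Metric.ball (0 : ℂ) 2 := by
  intro w hw
  rw [mem_ball_zero_iff]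
  have := norm_le_abs_re_add_abs_im w
  have h1 := hw.1
  have h2 := hw.2
  linarith

private theorem PsiInt_QQ : MeasurableSet QQ := by
  have h1 : IsClosed {w : ℂ | |w.re| ≤ 1 / 2} :=
    isClosed_le (continuous_abs.comp continuous_re) continuous_const
  have h2 : IsClosed {w : ℂ | |w.im| ≤ 1 / 2} :=
    isClosed_le (continuous_abs.comp continuous_im) continuous_const
  exact (h1.inter h2).measurableSet

private theorem PsiInt_gen {g : ℂ → ℝ} {C : ℝ} (hg : ContinuousOn g ZIᶜ)
    (hb : ∀ w ∈ QQ, w ≠ 0 → |g w| ≤ C * ‖w‖ ^ (-(1 / 2) : ℝ)) : IntegrableOn g QQ := by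
  have h1 : IntegrableOn (fun w : ℂ => C * ‖w‖ ^ (-(1 / 2) : ℝ)) (Metric.ball 0 2) := by
    refine integrableOn_ball_of_norm_le_rpow (C := |C|) (α := 1 / 2) ?_ ?_ ?_ ?_
    · rw [Complex.finrank_real_complex]; norm_num
    · rw [Complex.finrank_real_complex]; norm_num
    · refine Eventually.of_forall fun w => ?_
      rw [norm_mul, Real.norm_eq_abs, Real.norm_eq_abs,
        abs_of_nonneg (by positivity : 0 ≤ ‖w‖ ^ (-(1 / 2) : ℝ))]
    · exact ((measurable_norm.pow_const _).const_mul _).aestronglyMeasurable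
  have h2 := h1.mono_set PsiInt_sub
  refine Integrable.mono' h2 (PsiInt_meas hg).restrict ?_
  rw [ae_restrict_iff' PsiInt_QQ]
  have h3 : ∀ᵐ w : ℂ, w ≠ 0 := by
    rw [ae_iff]
    simp
  filter_upwards [h3] with w hw0 hw
  exact hb w hw hw0

/-- integrability of `Ψ` and of its parts -/
theorem Psi_int (hγ : 0 < γ) (hγ' : γ ≤ 1 / 8) (ht : 1 ≤ t) (hv : Sol γ t v) (h : LinSol t v f) :
    IntegrableOn (Psi t v f) QQ ∧ IntegrableOn (fun w => Real.cosh (2 * v w) - 1) QQ ∧
    IntegrableOn (fun w => f w * Real.sinh (2 * v w)) QQ := by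
  obtain ⟨C, hC, hexp⟩ := exp_v_le hγ hγ' ht hv
  have hvc : ContinuousOn v ZIᶜ := hv.smooth.continuousOn
  have h1 : IntegrableOn (fun w => Real.cosh (2 * v w) - 1) QQ := by
    refine PsiInt_gen (C := C) ?_ ?_
    · exact (Real.continuous_cosh.comp_continuousOn (continuousOn_const.mul hvc)).sub
        continuousOn_const
    · intro w hw hw0
      have hv0 := v_nonneg hγ ht hv w
      have hsinh0 : 0 ≤ Real.sinh (2 * v w) := Real.sinh_nonneg_iff.mpr (by linarith)
      have hcosh1 : 1 ≤ Real.cosh (2 * v w) := Real.one_le_cosh _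
      have hsum : Real.cosh (2 * v w) + Real.sinh (2 * v w) = Real.exp (2 * v w) :=
        Real.cosh_add_sinh _
      have := hexp w hw hw0
      rw [abs_of_nonneg (by linarith : 0 ≤ Real.cosh (2 * v w) - 1)]
      linarith
  have h2 : IntegrableOn (fun w => f w * Real.sinh (2 * v w)) QQ := by
    refine PsiInt_gen (C := C) ?_ ?_
    · exact h.cont.continuousOn.mul
        (Real.continuous_sinh.comp_continuousOn (continuousOn_const.mul hvc))
    · intro w hw hw0
      have hv0 := v_nonneg hγ ht hv w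
      have hsinh0 : 0 ≤ Real.sinh (2 * v w) := Real.sinh_nonneg_iff.mpr (by linarith)
      have hcosh1 : 1 ≤ Real.cosh (2 * v w) := Real.one_le_cosh _
      have hsum : Real.cosh (2 * v w) + Real.sinh (2 * v w) = Real.exp (2 * v w) :=
        Real.cosh_add_sinh _
      have := hexp w hw hw0
      have hfb := h.bdd w
      rw [abs_mul, abs_of_nonneg hsinh0]
      calc |f w| * Real.sinh (2 * v w) ≤ 1 / 4 * Real.sinh (2 * v w) := by gcongr
        _ ≤ _ := by linarith
  refine ⟨?_, h1, h2⟩
  have h3 := (h2.const_mul (8 * t ^ 2)).add (h1.const_mul (4 * t ^ 2))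
  refine h3.congr (Eventually.of_forall fun w => ?_)
  simp only [Psi, Pi.add_apply]
  ring

end GM16
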