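import Pool.Agent.LibGM16.WE

open Complex MeasureTheory Filter Topology Matrix
open scoped ContDiff Real ComplexOrder

namespace GM16

variable {γ t : ℝ} {v v' f f' : ℂ → ℝ}

theorem abs_det_smul_one (c : ℂ) : |(c • (1 : ℂ →L[ℝ] ℂ)).det| = ‖c‖ ^ 2 := by
  have h1 : (c • (1 : ℂ →L[ℝ] ℂ)).det = Algebra.norm ℝ c := by
    rw [Algebra.norm_apply, ContinuousLinearMap.det]
    congr 1
  rw [h1, Algebra.norm_complex_apply, Complex.normSq_eq_norm_sq, abs_of_nonneg (by positivity)]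

/-- the fundamental domain -/
def SS : Set ℂ := {w : ℂ | 0 < w.re ∧ w.re < 1 ∧ -1 < w.im ∧ w.im < 1}

theorem measurableSet_SS : MeasurableSet SS := by
  have h1 : IsOpen SS := by
    have e : SS = {w : ℂ | 0 < w.re} ∩ ({w : ℂ | w.re < 1} ∩ ({w : ℂ | -1 < w.im} ∩ {w : ℂ | w.im < 1})) := by
      ext w; simp [SS]
    rw [e]
    exact (isOpen_lt continuous_const Complex.continuous_re).inter
      ((isOpen_lt Complex.continuous_re continuous_const).inter
      ((isOpen_lt continuous_const Complex.continuous_im).inter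
      (isOpen_lt Complex.continuous_im continuous_const)))
  exact h1.measurableSet

theorem SS_notMem_LL {w : ℂ} (h : w ∈ SS) : w ∉ LL := by
  rintro ⟨m, n, e⟩
  have h1 := congrArg Complex.re e
  simp at h1
  obtain ⟨a, b, _, _⟩ := h
  rw [h1] at a b
  have a1 : (0 : ℝ) < 2 * m := a
  have b1 : (2 * m : ℝ) < 1 := b
  have a' : (0 : ℤ) < 2 * m := by exact_mod_cast a1
  have b' : (2 * m : ℤ) < 1 := by exact_mod_cast b1
  omega

theorem injOn_wp_SS : Set.InjOn wp SS := by
  intro a ha b hb hab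
  rcases wp_inj (SS_notMem_LL ha) (SS_notMem_LL hb) hab with h | h
  · obtain ⟨m, n, e⟩ := h
    have h1 := congrArg Complex.re e
    have h2 := congrArg Complex.im e
    simp at h1 h2
    obtain ⟨a1, a2, a3, a4⟩ := ha
    obtain ⟨b1, b2, b3, b4⟩ := hb
    have m1 : (2 * m : ℝ) < 1 := by linarith
    have m2 : (-1 : ℝ) < 2 * m := by linarith
    have n1 : (2 * n : ℝ) < 2 := by linarith
    have n2 : (-2 : ℝ) < 2 * n := by linarith
    have m1' : (2 * m : ℤ) < 1 := by exact_mod_cast m1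
    have m2' : (-1 : ℤ) < 2 * m := by exact_mod_cast m2
    have n1' : (2 * n : ℤ) < 2 := by exact_mod_cast n1
    have n2' : (-2 : ℤ) < 2 * n := by exact_mod_cast n2
    have hm : m = 0 := by omega
    have hn : n = 0 := by omega
    rw [hm, hn] at e
    simp at e
    exact sub_eq_zero.1 e
  · exfalso
    obtain ⟨m, n, e⟩ := h
    have h1 := congrArg Complex.re e
    simp at h1
    obtain ⟨a1, a2, a3, a4⟩ := ha
    obtain ⟨b1, b2, b3, b4⟩ := hb
    have m1 : (2 * m : ℝ) < 2 := by linarith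
    have m2 : (0 : ℝ) < 2 * m := by linarith
    have m1' : (2 * m : ℤ) < 2 := by exact_mod_cast m1
    have m2' : (0 : ℤ) < 2 * m := by exact_mod_cast m2
    omega

/-- the exceptional lines -/
def BB : Set ℂ := {w : ℂ | w.re = 0 ∨ w.re = 1 ∨ w.im = 1 ∨ w.im = -1}

theorem volume_re_eq (a : ℝ) : volume {w : ℂ | w.re = a} = 0 := by
  have hm := Complex.volume_preserving_equiv_real_prod.symm
  have h1 := hm.measure_preimage_equiv {w : ℂ | w.re = a}
  rw [← h1]
  have h2 : (Complex.measurableEquivRealProd.symm ⁻¹' {w : ℂ | w.re = a}) = {a} ×ˢ Set.univ := by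
    ext ⟨x, y⟩
    simp [Complex.measurableEquivRealProd_symm_apply]
  rw [h2]
  rw [Measure.volume_eq_prod, Measure.prod_prod]
  simp

theorem volume_im_eq (a : ℝ) : volume {w : ℂ | w.im = a} = 0 := by
  have hm := Complex.volume_preserving_equiv_real_prod.symm
  have h1 := hm.measure_preimage_equiv {w : ℂ | w.im = a}
  rw [← h1]
  have h2 : (Complex.measurableEquivRealProd.symm ⁻¹' {w : ℂ | w.im = a}) = Set.univ ×ˢ {a} := by
    ext ⟨x, y⟩
    simp [Complex.measurableEquivRealProd_symm_apply]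
  rw [h2]
  rw [Measure.volume_eq_prod, Measure.prod_prod]
  simp

theorem volume_BB : volume BB = 0 := by
  have e : BB = {w : ℂ | w.re = 0} ∪ ({w : ℂ | w.re = 1} ∪ ({w : ℂ | w.im = 1} ∪ {w : ℂ | w.im = -1})) := by
    ext w; simp [BB]
  rw [e]
  refine measure_union_null (volume_re_eq 0) (measure_union_null (volume_re_eq 1)
    (measure_union_null (volume_im_eq 1) (volume_im_eq (-1))))

theorem exists_LL_add (w : ℂ) : ∃ l ∈ LL, |(w + l).re| ≤ 1 ∧ |(w + l).im| ≤ 1 := by
  refine ⟨2 * ((-round (w.re / 2) : ℤ) : ℂ) + 2 * ((-round (w.im / 2) : ℤ) : ℂ) * I, ⟨_, _, rfl⟩, ?_, ?_⟩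
  · have := abs_sub_round (w.re / 2)
    simp
    rw [abs_le] at this ⊢
    constructor <;> linarith [this.1, this.2]
  · have := abs_sub_round (w.im / 2)
    simp
    rw [abs_le] at this ⊢
    constructor <;> linarith [this.1, this.2]

theorem LL_add_iff {w l : ℂ} (hl : l ∈ LL) : w + l ∈ LL ↔ w ∈ LL := by
  rw [mem_LL_iff] at *
  rw [mem_LL_iff]
  exact L0.lattice.add_mem_iff_left hl

theorem LL_neg_iff {w : ℂ} : -w ∈ LL ↔ w ∈ LL := by
  rw [mem_LL_iff, mem_LL_iff]
  exact L0.lattice.neg_mem_iff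

theorem compl_image_subset : (wp '' SS)ᶜ ⊆ wp '' (BB \ LL) := by
  intro z hz
  obtain ⟨w, hw, rfl⟩ := wp_surj z
  obtain ⟨l, hl, h1, h2⟩ := exists_LL_add w
  have hp : wp (w + l) = wp w := (wp_per hl w).1
  have hn : w + l ∉ LL := fun h => hw ((LL_add_iff hl).1 h)
  -- choose the sign
  obtain ⟨u, hu, hu2, hu3, hu4, hu5⟩ : ∃ u : ℂ, wp u = wp w ∧ u ∉ LL ∧ 0 ≤ u.re ∧ u.re ≤ 1 ∧
      |u.im| ≤ 1 := by
    rw [abs_le] at h1
    rcases le_total 0 (w + l).re with h | h
    · exact ⟨w + l, hp, hn, h, h1.2, h2⟩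
    · refine ⟨-(w + l), ?_, ?_, ?_, ?_, ?_⟩
      · rw [(wp_neg _).1, hp]
      · rwa [LL_neg_iff]
      · rw [Complex.neg_re]; linarith
      · rw [Complex.neg_re]; linarith
      · rw [Complex.neg_im, abs_neg]; exact h2
  rw [abs_le] at hu5
  refine ⟨u, ⟨?_, hu2⟩, hu⟩
  by_contra hB
  apply hz
  refine ⟨u, ?_, hu⟩
  simp only [BB, Set.mem_ofPred_eq, not_or] at hB
  obtain ⟨b1, b2, b3, b4⟩ := hB
  exact ⟨lt_of_le_of_ne hu3 (Ne.symm b1), lt_of_le_of_ne hu4 b2,
    lt_of_le_of_ne hu5.1 (Ne.symm b4), lt_of_le_of_ne hu5.2 b3⟩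

theorem volume_compl_image : volume (wp '' SS)ᶜ = 0 := by
  refine measure_mono_null compl_image_subset ?_
  apply addHaar_image_eq_zero_of_differentiableOn_of_addHaar_eq_zero
  · intro w hw
    exact ((wp_hasDeriv hw.2).differentiableAt.restrictScalars ℝ).differentiableWithinAt
  · exact measure_mono_null Set.sdiff_subset volume_BB

theorem hasFDeriv_wp {w : ℂ} (h : w ∉ LL) : HasFDerivAt wp (wpd w • (1 : ℂ →L[ℝ] ℂ)) w :=
  (wp_hasDeriv h).complexToReal_fderiv

/-- The change of variables `z = ℘(w)`; the fundamental domain of `LL ⋊ {±1}` is `(0,1) × (-1,1)`. -/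
theorem change_var (F : ℂ → ℝ) :
    ∫ z, F z = ∫ w in {w : ℂ | 0 < w.re ∧ w.re < 1 ∧ -1 < w.im ∧ w.im < 1},
      ‖wpd w‖ ^ 2 * F (wp w) := by
  have h1 := integral_image_eq_integral_abs_det_fderiv_smul volume measurableSet_SS
    (fun x hx => (hasFDeriv_wp (SS_notMem_LL hx)).hasFDerivWithinAt) injOn_wp_SS F
  simp only [abs_det_smul_one, smul_eq_mul] at h1
  have h2 : ∫ z in wp '' SS, F z = ∫ z, F z := by
    have h3 : wp '' SS =ᵐ[volume] Set.univ := by
      rw [ae_eq_univ]; exact volume_compl_image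
    rw [setIntegral_congr_set h3, setIntegral_univ]
  rw [← h2, h1]
  rfl

/-- the same for integrability -/
theorem integrable_change (F : ℂ → ℝ)
    (h : IntegrableOn (fun w => ‖wpd w‖ ^ 2 * F (wp w))
      {w : ℂ | 0 < w.re ∧ w.re < 1 ∧ -1 < w.im ∧ w.im < 1}) : Integrable F := by
  have h1 := integrableOn_image_iff_integrableOn_abs_det_fderiv_smul volume measurableSet_SS
    (fun x hx => (hasFDeriv_wp (SS_notMem_LL hx)).hasFDerivWithinAt) injOn_wp_SS F
  simp only [abs_det_smul_one, smul_eq_mul] at h1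
  have h2 := h1.2 h
  have h3 : wp '' SS =ᵐ[volume] Set.univ := by
    rw [ae_eq_univ]; exact volume_compl_image
  have h4 := h2.congr_set_ae h3.symm
  rwa [integrableOn_univ] at h4

end GM16
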