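import Pool.Agent.LibGM16.Latt

open Complex MeasureTheory Filter Topology Matrix
open scoped ContDiff Real ComplexOrder

namespace GM16

variable {γ t : ℝ} {v v' f f' : ℂ → ℝ}

/-- Integrals over `(-1, 1)` of functions of period one. -/
theorem integral_two_per {h : ℝ → ℝ} (hp : ∀ y, h (y + 1) = h y) :
    ∫ y in Set.Ioo (-1 : ℝ) 1, h y = 2 * ∫ y in Set.Icc (-1 / 2 : ℝ) (1 / 2), h y := by
  have hP : Function.Periodic h 1 := hp
  rw [← integral_Ioc_eq_integral_Ioo, integral_Icc_eq_integral_Ioc,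
    ← intervalIntegral.integral_of_le (by norm_num), ← intervalIntegral.integral_of_le (by norm_num)]
  by_cases hi : IntervalIntegrable h volume (-1 / 2) (1 / 2)
  · have hi' : IntervalIntegrable h volume (-1 / 2) (-1 / 2 + 1) := by
      convert hi using 1; norm_num
    have hall := hP.intervalIntegrable one_ne_zero hi'
    rw [← intervalIntegral.integral_add_adjacent_intervals (hall (-1) 0) (hall 0 1)]
    have e1 := hP.intervalIntegral_add_eq (-1) (-1 / 2)
    have e2 := hP.intervalIntegral_add_eq 0 (-1 / 2)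
    norm_num at e1 e2 ⊢
    rw [e1, e2]; ring
  · rw [intervalIntegral.integral_undef hi, mul_zero]
    apply intervalIntegral.integral_undef
    intro hj
    apply hi
    apply hj.mono_set
    rw [Set.uIcc_of_le (by norm_num), Set.uIcc_of_le (by norm_num)]
    exact Set.Icc_subset_Icc (by norm_num) (by norm_num)

theorem integral_one_per {h : ℝ → ℝ} (hp : ∀ y, h (y + 1) = h y) :
    ∫ y in Set.Ioo (0 : ℝ) 1, h y = ∫ y in Set.Icc (-1 / 2 : ℝ) (1 / 2), h y := by
  have hP : Function.Periodic h 1 := hp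
  rw [← integral_Ioc_eq_integral_Ioo, integral_Icc_eq_integral_Ioc,
    ← intervalIntegral.integral_of_le (by norm_num), ← intervalIntegral.integral_of_le (by norm_num)]
  have e1 := hP.intervalIntegral_add_eq 0 (-1 / 2)
  norm_num at e1 ⊢
  rw [e1]

theorem integrableOn_QQ_add {g : ℂ → ℝ} (h1 : ∀ w, g (w + 1) = g w) (h2 : ∀ w, g (w + I) = g w)
    (hg : IntegrableOn g QQ) {n : ℂ} (hn : n ∈ ZI) :
    IntegrableOn g {w | w + n ∈ QQ} := by
  have hm : MeasurePreserving (fun w : ℂ => w + n) volume volume :=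
    measurePreserving_add_right volume n
  have he : MeasurableEmbedding (fun w : ℂ => w + n) := measurableEmbedding_addRight n
  have h3 := (hm.integrableOn_comp_preimage he (f := g) (s := QQ)).2 hg
  have h4 : g ∘ (fun w : ℂ => w + n) = g := by
    funext w
    exact per_ZI h1 h2 hn w
  rw [h4] at h3
  exact h3

theorem integrable_per {g : ℂ → ℝ} (h1 : ∀ w, g (w + 1) = g w) (h2 : ∀ w, g (w + I) = g w)
    (hg : IntegrableOn g QQ) :
    IntegrableOn g {w : ℂ | 0 < w.re ∧ w.re < 1 ∧ -1 < w.im ∧ w.im < 1} := by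
  have key : ∀ m n : ℤ, IntegrableOn g {w | w + (m + n * I) ∈ QQ} := fun m n =>
    integrableOn_QQ_add h1 h2 hg ⟨m, n, rfl⟩
  have h3 := ((((key 0 0).union (key 0 1)).union (key 0 (-1))).union (key (-1) 0)).union
    ((key (-1) 1).union (key (-1) (-1)))
  refine h3.mono_set ?_
  rintro w ⟨w1, w2, w3, w4⟩
  simp only [Set.mem_union, Set.mem_ofPred_eq, QQ, Complex.add_re, Complex.add_im, Complex.mul_re,
    Complex.mul_im, Complex.I_re, Complex.I_im,
    Int.cast_zero, Int.cast_one, Int.cast_neg, abs_le]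
  norm_num
  by_cases a1 : w.re ≤ 1 / 2 <;> by_cases a2 : w.im ≤ 1 / 2 <;> by_cases a3 : -1 / 2 ≤ w.im
  · left; left; left; left
    refine ⟨⟨?_, ?_⟩, ?_, ?_⟩ <;> linarith
  · left; left; left; right
    refine ⟨⟨?_, ?_⟩, ?_, ?_⟩ <;> linarith
  · left; left; right
    refine ⟨⟨?_, ?_⟩, ?_, ?_⟩ <;> linarith
  · exfalso; linarith
  · left; right
    refine ⟨⟨?_, ?_⟩, ?_, ?_⟩ <;> linarith
  · right; left
    refine ⟨⟨?_, ?_⟩, ?_, ?_⟩ <;> linarith
  · right; right
    refine ⟨⟨?_, ?_⟩, ?_, ?_⟩ <;> linarith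
  · exfalso; linarith

/-- Fubini on boxes. -/
theorem integral_box {g : ℂ → ℝ} {S : Set ℂ} {A B : Set ℝ}
    (hS : ∀ x y : ℝ, (⟨x, y⟩ : ℂ) ∈ S ↔ x ∈ A ∧ y ∈ B) (hg : IntegrableOn g S) :
    ∫ w in S, g w = ∫ x in A, ∫ y in B, g ⟨x, y⟩ := by
  have hm := Complex.volume_preserving_equiv_real_prod.symm
  have he := Complex.measurableEquivRealProd.symm.measurableEmbedding
  have hpre : Complex.measurableEquivRealProd.symm ⁻¹' S = A ×ˢ B := by
    ext ⟨x, y⟩
    exact hS x y
  have h1 := hm.setIntegral_preimage_emb he g S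
  have h2 := (hm.integrableOn_comp_preimage he (f := g) (s := S)).2 hg
  rw [hpre] at h1 h2
  rw [← h1]
  exact setIntegral_prod _ h2

/-- Integrals of `ℤ[i]`-periodic functions. -/
theorem integral_per {g : ℂ → ℝ} (h1 : ∀ w, g (w + 1) = g w) (h2 : ∀ w, g (w + I) = g w)
    (hg : IntegrableOn g QQ) :
    ∫ w in {w : ℂ | 0 < w.re ∧ w.re < 1 ∧ -1 < w.im ∧ w.im < 1}, g w = 2 * ∫ w in QQ, g w := by
  rw [integral_box (A := Set.Ioo 0 1) (B := Set.Ioo (-1) 1) ?_ (integrable_per h1 h2 hg),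
    integral_box (A := Set.Icc (-1 / 2) (1 / 2)) (B := Set.Icc (-1 / 2) (1 / 2)) ?_ hg]
  · have hy : ∀ x : ℝ, ∫ y in Set.Ioo (-1 : ℝ) 1, g ⟨x, y⟩ =
        2 * ∫ y in Set.Icc (-1 / 2 : ℝ) (1 / 2), g ⟨x, y⟩ := by
      intro x
      apply integral_two_per
      intro y
      have := h2 ⟨x, y⟩
      rw [← this]
      congr 1
      apply Complex.ext <;> simp
    simp_rw [hy]
    rw [integral_one_per]
    · rw [integral_const_mul]
    · intro x
      congr 1
      refine setIntegral_congr_fun measurableSet_Icc ?_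
      intro y _
      have := h1 ⟨x, y⟩
      simp only
      rw [← this]
      congr 1
      apply Complex.ext <;> simp
  · intro x y
    simp [QQ, abs_le]
    norm_num
  · intro x y
    simp only [Set.mem_ofPred_eq, Set.mem_Ioo]
    tauto

end GM16
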