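import Pool.Agent.LibGM16.HI
import Pool.Agent.LibGM16.HF
import Pool.Agent.LibGM16.WG
import Pool.Agent.LibGM16.WH
import Pool.Agent.LibGM16.PsiInt
import Pool.Agent.LibGM16.SymB

open Complex MeasureTheory Filter Topology Matrix
open scoped ContDiff Real ComplexOrder

namespace GM16

variable {γ t : ℝ} {v v' f f' : ℂ → ℝ}

theorem HP_LL_sub {w : ℂ} (h : w ∈ LL) : w ∈ ZI := by
  obtain ⟨m, n, rfl⟩ := h
  exact ⟨2 * m, 2 * n, by push_cast; ring⟩

theorem HP_ZI_null : volume ZI = 0 := by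
  have h : ZI = Set.range (fun p : ℤ × ℤ => ((p.1 : ℂ) + (p.2 : ℂ) * I)) := by
    ext w
    constructor
    · rintro ⟨m, n, rfl⟩
      exact ⟨(m, n), rfl⟩
    · rintro ⟨p, rfl⟩
      exact ⟨p.1, p.2, rfl⟩
  rw [h]
  exact (Set.countable_range _).measure_zero _

theorem HP_ae_ZI : ∀ᵐ w : ℂ, w ∉ ZI := by
  rw [ae_iff]
  simpa using HP_ZI_null

theorem HP_ae_U : ∀ᵐ z : ℂ, z ∈ (EX γ).U := by
  rw [ae_iff]
  have h : {z : ℂ | ¬ z ∈ (EX γ).U} = {e1, e2, e3} := by
    ext z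
    show ¬ (z ∉ ({e1, e2, e3} : Set ℂ)) ↔ _
    rw [not_not]
  rw [h]
  exact (Set.toFinite _).measure_zero _

theorem HP_QQ_fin : volume QQ < ⊤ := by
  have h : QQ ⊆ Metric.closedBall (0 : ℂ) 1 := by
    intro w hw
    rw [mem_closedBall_zero_iff]
    have := Complex.norm_le_abs_re_add_abs_im w
    linarith [hw.1, hw.2]
  exact lt_of_le_of_lt (measure_mono h) measure_closedBall_lt_top

theorem HP_NN_aux (he : ∀ w, v (-w) = v w) (h1 : ∀ w, v (w + 1) = v w)
    (h2 : ∀ w, v (w + I) = v w) (fe : ∀ w, f (-w) = f w) (f1 : ∀ w, f (w + 1) = f w)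
    (f2 : ∀ w, f (w + I) = f w)
    (hint : IntegrableOn (fun w => 2 * Real.cosh (2 * v w) + 4 * f w * Real.sinh (2 * v w)) QQ) :
    (EX γ).NN t (hmet v) (fun _ => 0) AA (nuM f) =
      8 * t ^ 2 * ∫ w in QQ, (2 * Real.cosh (2 * v w) + 4 * f w * Real.sinh (2 * v w)) := by
  have key : (EX γ).NN t (hmet v) (fun _ => 0) AA (nuM f) = 2 * ∫ z : ℂ,
      2 * (t ^ 2 * (‖qq z‖ * (2 * Real.cosh (2 * pull v z) +
        4 * pull f z * Real.sinh (2 * pull v z)))) := by
    unfold ParHiggs.NN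
    congr 1
    apply integral_congr_ae
    filter_upwards [HP_ae_U (γ := γ)] with z hz
    have hq : qq z ≠ 0 := qq_ne hz
    have hi := integrand (z := z) (V := pull v z) (F := pull f z)
      (a := Real.sqrt ‖qq z‖ * Real.exp (pull v z)) hq rfl
    have hm : hmet v z = !![((Real.sqrt ‖qq z‖ * Real.exp (pull v z) : ℝ) : ℂ), 0;
        0, (((Real.sqrt ‖qq z‖ * Real.exp (pull v z))⁻¹ : ℝ) : ℂ)] := by
      unfold hmet
      rw [mul_inv, ← Real.exp_neg]
    have h0 : hadj (hmet v z) (0 : Mat) = 0 := by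
      simp [hadj]
    show 2 * (((0 - mdzb (nuM f) z) * hadj (hmet v z) 0).trace +
      (t : ℂ) ^ 2 * ((AA z + (nuM f z * AA z - AA z * nuM f z)) *
        hadj (hmet v z) (AA z)).trace).re = _
    have hn : nuM f z = !![((pull f z : ℝ) : ℂ), 0; 0, ((-pull f z : ℝ) : ℂ)] := rfl
    rw [h0, mul_zero, Matrix.trace_zero, zero_add, hn, hm, hi, ← Complex.ofReal_pow,
      ← Complex.ofReal_mul, Complex.ofReal_re]
  rw [key, change_var]
  have e1 : ∫ w in {w : ℂ | 0 < w.re ∧ w.re < 1 ∧ -1 < w.im ∧ w.im < 1},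
      ‖wpd w‖ ^ 2 * (2 * (t ^ 2 * (‖qq (wp w)‖ * (2 * Real.cosh (2 * pull v (wp w)) +
        4 * pull f (wp w) * Real.sinh (2 * pull v (wp w)))))) =
      ∫ w in {w : ℂ | 0 < w.re ∧ w.re < 1 ∧ -1 < w.im ∧ w.im < 1},
        2 * t ^ 2 * (2 * Real.cosh (2 * v w) + 4 * f w * Real.sinh (2 * v w)) := by
    apply integral_congr_ae
    filter_upwards [ae_restrict_of_ae HP_ae_ZI] with w hw
    have hL : w ∉ LL := fun h => hw (HP_LL_sub h)
    have hd : wpd w ≠ 0 := fun h => hw ((wpd_eq_zero hL).mp h)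
    have hd' : ‖wpd w‖ ≠ 0 := norm_ne_zero_iff.mpr hd
    rw [pull_wp he h1 h2 hL, pull_wp fe f1 f2 hL, qq_wp hw, norm_div, norm_one, norm_pow]
    field_simp
  rw [e1, MeasureTheory.integral_const_mul, integral_per _ _ hint]
  · ring
  · intro w
    simp only [h1, f1]
  · intro w
    simp only [h2, f2]

/-- `N_t - N_∞ = 2 D`. -/
theorem NN_diff (hγ : 0 < γ) (hγ' : γ ≤ 1 / 8) (ht : 1 ≤ t) (hv : Sol γ t v) (hf : LinSol t v f) :
    (EX γ).NN t (hmet v) (fun _ => 0) AA (nuM f) - (EX γ).NN t hinf (fun _ => 0) AA (fun _ => 0) =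
      2 * DD t v f := by
  obtain ⟨-, hc, hs⟩ := Psi_int hγ hγ' ht hv hf
  have hone : IntegrableOn (fun _ : ℂ => (2 : ℝ)) QQ := by
    rw [integrableOn_const_iff]
    right
    exact HP_QQ_fin
  have hA : IntegrableOn (fun w => 2 * Real.cosh (2 * v w) + 4 * f w * Real.sinh (2 * v w)) QQ := by
    have h := ((hc.const_mul 2).add hone).add (hs.const_mul 4)
    refine h.congr ?_
    filter_upwards with w
    simp only [Pi.add_apply]
    ring
  have hinf_eq : hinf = hmet (fun _ => 0) := by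
    funext z
    simp [hinf, hmet, pull]
  have hnu : (fun _ : ℂ => (0 : Mat)) = nuM (fun _ => 0) := by
    funext z
    ext i j
    fin_cases i <;> fin_cases j <;> simp [nuM, pull]
  have h1 := HP_NN_aux (γ := γ) (t := t) (v := v) (f := f) (sol_neg ht hv) hv.perx hv.pery
    (lin_neg ht hv hf) hf.perx hf.pery hA
  have hone' : IntegrableOn (fun _ : ℂ => 2 * Real.cosh (2 * (0 : ℝ)) +
      4 * (0 : ℝ) * Real.sinh (2 * 0)) QQ := by
    have e : (2 * Real.cosh (2 * (0 : ℝ)) + 4 * (0 : ℝ) * Real.sinh (2 * 0)) = 2 := by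
      simp
    rw [e]
    exact hone
  have h2 := HP_NN_aux (γ := γ) (t := t) (v := fun _ => 0) (f := fun _ => 0) (fun _ => rfl)
    (fun _ => rfl) (fun _ => rfl) (fun _ => rfl) (fun _ => rfl) (fun _ => rfl) hone'
  have e2 : (EX γ).NN t hinf (fun _ => 0) AA (fun _ => 0) =
      (EX γ).NN t (hmet (fun _ => 0)) (fun _ => 0) AA (nuM (fun _ => 0)) := by
    rw [hinf_eq, ← hnu]
  rw [h1, e2, h2, ← mul_sub, ← integral_sub hA hone']
  unfold DD
  rw [← MeasureTheory.integral_const_mul, ← mul_assoc, ← MeasureTheory.integral_const_mul]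
  congr 1
  funext w
  unfold Psi
  simp only [mul_zero, Real.cosh_zero, Real.sinh_zero]
  ring

end GM16
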