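import Pool.Agent.LibGM16.HI
import Pool.Agent.LibGM16.HF
import Pool.Agent.LibGM16.WG
import Pool.Agent.LibGM16.WH

open Complex MeasureTheory Filter Topology Matrix
open scoped ContDiff Real ComplexOrder

namespace GM16

variable {γ t : ℝ} {v v' f f' : ℂ → ℝ}

private theorem HQ_volume :
    (volume : Measure ℂ) {w : ℂ | 0 < w.re ∧ w.re < 1 ∧ -1 < w.im ∧ w.im < 1} = 2 := by
  have h1 : {w : ℂ | 0 < w.re ∧ w.re < 1 ∧ -1 < w.im ∧ w.im < 1} =
      Complex.measurableEquivRealProd ⁻¹' (Set.Ioo (0 : ℝ) 1 ×ˢ Set.Ioo (-1 : ℝ) 1) := by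
    ext w
    simp only [Set.mem_ofPred_eq, Set.mem_preimage, Set.mem_prod, Set.mem_Ioo,
      Complex.measurableEquivRealProd_apply]
    tauto
  rw [h1, Complex.volume_preserving_equiv_real_prod.measure_preimage
    (measurableSet_Ioo.prod measurableSet_Ioo).nullMeasurableSet, Measure.volume_eq_prod,
    Measure.prod_prod, Real.volume_Ioo, Real.volume_Ioo, ← ENNReal.ofReal_mul (by norm_num)]
  norm_num

private theorem HQ_trace (z : ℂ) :
    ((AA z + ((0 : Mat) * AA z - AA z * (0 : Mat))) * hadj (hinf z) (AA z)).trace =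
      ((‖qq z‖ * 2 : ℝ) : ℂ) := by
  by_cases hz : qq z = 0
  · have h1 : hinf z = 0 := by
      unfold hinf
      rw [hz]
      ext i j
      fin_cases i <;> fin_cases j <;> simp
    unfold hadj
    rw [h1, hz]
    simp
  · have h1 := integrand (z := z) (a := Real.sqrt ‖qq z‖) (V := 0) (F := 0) hz (by simp)
    have h2 : (!![((0 : ℝ) : ℂ), 0; 0, ((-0 : ℝ) : ℂ)] : Mat) = 0 := by
      ext i j
      fin_cases i <;> fin_cases j <;> simp
    rw [h2] at h1
    have h3 : hinf z = !![((Real.sqrt ‖qq z‖ : ℝ) : ℂ), 0; 0, (((Real.sqrt ‖qq z‖)⁻¹ : ℝ) : ℂ)] := rfl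
    rw [h3, h1]
    simp

/-- `N_∞ = 8 t² · 2`. -/
theorem NN_inf (t : ℝ) : (EX γ).NN t hinf (fun _ => 0) AA (fun _ => 0) = 16 * t ^ 2 := by
  unfold ParHiggs.NN
  have h1 : ∀ z : ℂ, 2 * (((((fun _ => 0 : ℂ → Mat) z - mdzb (fun _ => 0) z) *
      hadj (hinf z) ((fun _ => 0 : ℂ → Mat) z)).trace +
    (t : ℂ) ^ 2 * ((AA z + ((fun _ => 0 : ℂ → Mat) z * (EX γ).A z -
      (EX γ).A z * (fun _ => 0 : ℂ → Mat) z)) * hadj (hinf z) (AA z)).trace)).re =
      4 * t ^ 2 * ‖qq z‖ := by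
    intro z
    have h2 : hadj (hinf z) ((fun _ => 0 : ℂ → Mat) z) = 0 := by
      unfold hadj
      simp
    have h3 : (EX γ).A z = AA z := rfl
    rw [h2, h3, mul_zero, Matrix.trace_zero, zero_add]
    have h4 := HQ_trace z
    change 2 * ((t : ℂ) ^ 2 * ((AA z + ((0 : Mat) * AA z - AA z * (0 : Mat))) *
      hadj (hinf z) (AA z)).trace).re = _
    rw [h4]
    have h5 : (t : ℂ) ^ 2 * ((‖qq z‖ * 2 : ℝ) : ℂ) = ((t ^ 2 * (‖qq z‖ * 2) : ℝ) : ℂ) := by
      push_cast
      ring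
    rw [h5, Complex.ofReal_re]
    ring
  have h2 : (∫ z : ℂ, 2 * (((((fun _ => 0 : ℂ → Mat) z - mdzb (fun _ => 0) z) *
      hadj (hinf z) ((fun _ => 0 : ℂ → Mat) z)).trace +
    (t : ℂ) ^ 2 * ((AA z + ((fun _ => 0 : ℂ → Mat) z * (EX γ).A z -
      (EX γ).A z * (fun _ => 0 : ℂ → Mat) z)) * hadj (hinf z) (AA z)).trace)).re) =
      4 * t ^ 2 * ∫ z, ‖qq z‖ := by
    rw [← integral_const_mul]
    exact integral_congr_ae (Filter.Eventually.of_forall h1)
  have h3 : ∫ z, ‖qq z‖ = 2 := by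
    rw [change_var]
    have h4 : ∫ w in {w : ℂ | 0 < w.re ∧ w.re < 1 ∧ -1 < w.im ∧ w.im < 1},
        ‖wpd w‖ ^ 2 * ‖qq (wp w)‖ =
        ∫ w in {w : ℂ | 0 < w.re ∧ w.re < 1 ∧ -1 < w.im ∧ w.im < 1}, (1 : ℝ) := by
      have hmeas : MeasurableSet {w : ℂ | 0 < w.re ∧ w.re < 1 ∧ -1 < w.im ∧ w.im < 1} := by
        have h5 : IsOpen {w : ℂ | 0 < w.re ∧ w.re < 1 ∧ -1 < w.im ∧ w.im < 1} := by
          refine (isOpen_lt continuous_const Complex.continuous_re).inter
            ((isOpen_lt Complex.continuous_re continuous_const).inter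
            ((isOpen_lt continuous_const Complex.continuous_im).inter
            (isOpen_lt Complex.continuous_im continuous_const)))
        exact h5.measurableSet
      refine setIntegral_congr_fun hmeas fun w hw => ?_
      have hre : ∀ m : ℤ, w.re ≠ m := by
        intro m hm
        have h6 := hw.1
        have h7 := hw.2.1
        rw [hm] at h6 h7
        have h8 : (0 : ℤ) < m := by exact_mod_cast h6
        have h9 : m < (1 : ℤ) := by exact_mod_cast h7
        omega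
      have hZI : w ∉ ZI := by
        rintro ⟨m, n, hmn⟩
        apply hre m
        rw [hmn]
        simp
      have hLL : w ∉ LL := by
        rintro ⟨m, n, hmn⟩
        apply hre (2 * m)
        rw [hmn]
        simp
      have hwpd : wpd w ≠ 0 := fun h => hZI ((wpd_eq_zero hLL).1 h)
      rw [qq_wp hZI, norm_div, norm_one, norm_pow]
      have h10 : ‖wpd w‖ ^ 2 ≠ 0 := pow_ne_zero 2 (norm_ne_zero_iff.2 hwpd)
      field_simp
    rw [h4, setIntegral_const, smul_eq_mul, mul_one, Measure.real, HQ_volume]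
    simp
  refine Eq.trans (congrArg (fun x : ℝ => 2 * x) h2) ?_
  rw [h3]
  ring

end GM16
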