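import Pool.Agent.LibGM16.HF
import Pool.Agent.LibGM16.SymB
import Pool.Agent.LibGM16.VUp
import Pool.Agent.LibGM16.FUp
import Pool.Agent.LibGM16.Sign

open Complex MeasureTheory Filter Topology Matrix
open scoped ContDiff Real ComplexOrder

namespace GM16

variable {γ t : ℝ} {v v' f f' : ℂ → ℝ}

theorem hr_EE : Tendsto EE atTop (𝓝 0) := by
  have h1 : Tendsto (fun R : ℝ => Real.exp (-(4 * R))) atTop (𝓝 0) := by
    refine Real.tendsto_exp_neg_atTop_nhds_zero.comp ?_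
    exact tendsto_id.const_mul_atTop (by norm_num)
  have h2 : ∀ᶠ R : ℝ in atTop, ‖EE R‖ ≤ Real.exp (-(4 * R)) := by
    filter_upwards [eventually_ge_atTop 1] with R hR
    have hs : 1 ≤ Real.sqrt R := by rw [Real.one_le_sqrt]; exact hR
    unfold EE
    rw [Real.norm_of_nonneg (by positivity)]
    exact div_le_self (Real.exp_pos _).le hs
  exact squeeze_zero_norm' h2 h1

theorem hr_beta : Tendsto betaF atTop (𝓝 0) := by
  have h1 : Tendsto (fun R : ℝ => R * Real.exp (-R)) atTop (𝓝 0) := by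
    simpa using Real.tendsto_pow_mul_exp_neg_atTop_nhds_zero 1
  have h2 : ∀ᶠ R : ℝ in atTop, ‖betaF R‖ ≤ R * Real.exp (-R) := by
    filter_upwards [eventually_ge_atTop 1] with R hR
    have hs : Real.sqrt R ≤ R := by
      rw [Real.sqrt_le_left (by linarith)]
      nlinarith
    unfold betaF
    rw [Real.norm_of_nonneg (by positivity), mul_comm]
    have : Real.exp (-(4 * R)) ≤ Real.exp (-R) := Real.exp_le_exp.mpr (by linarith)
    exact mul_le_mul hs this (Real.exp_pos _).le (by linarith)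
  exact squeeze_zero_norm' h2 h1

theorem hr_dist {w : ℂ} (hw : w ∉ ZI) : ∃ d : ℝ, 0 < d ∧ ∀ l ∈ ZI, d ≤ ‖w - l‖ := by
  have hne : (ZI).Nonempty := ⟨0, 0, 0, by simp⟩
  refine ⟨Metric.infDist w ZI, (isClosed_ZI.notMem_iff_infDist_pos hne).mp hw, fun l hl => ?_⟩
  rw [← dist_eq_norm]
  exact Metric.infDist_le_dist_of_mem hl

theorem hr_v (hγ : 0 < γ) (hγ' : γ ≤ 1 / 8) {v : ℝ → ℂ → ℝ}
    (hv : ∀ t, 1 ≤ t → Sol γ t (v t)) {w : ℂ} (hw : w ∉ ZI) :
    Tendsto (fun t => v t w) atTop (𝓝 0) := by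
  obtain ⟨d, hd, hdl⟩ := hr_dist hw
  have h1 : Tendsto (fun t : ℝ => 85 * EE (t * d)) atTop (𝓝 0) := by
    have := (hr_EE.comp (tendsto_id.atTop_mul_const hd)).const_mul 85
    simpa using this
  refine squeeze_zero_norm' ?_ h1
  filter_upwards [eventually_ge_atTop 4, eventually_ge_atTop (1 / 4 / d)] with t ht ht2
  have h0 := v_nonneg hγ (by linarith) (hv t (by linarith)) w
  rw [Real.norm_of_nonneg h0]
  refine v_upper' hγ hγ' ht (hv t (by linarith)) ?_ ?_
  · rwa [div_le_iff₀ hd] at ht2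
  · intro l hl
    exact mul_le_mul_of_nonneg_left (hdl l hl) (by linarith)

theorem hr_f (hγ : 0 < γ) (hγ' : γ ≤ 1 / 8) {v f : ℝ → ℂ → ℝ}
    (hv : ∀ t, 1 ≤ t → Sol γ t (v t)) (hf : ∀ t, 1 ≤ t → LinSol t (v t) (f t)) {w : ℂ}
    (hw : w ∉ ZI) : Tendsto (fun t => f t w) atTop (𝓝 0) := by
  obtain ⟨d, hd, hdl⟩ := hr_dist hw
  obtain ⟨C, hC, hfu⟩ := f_upper'
  have h1 : Tendsto (fun t : ℝ => C * betaF (t * d)) atTop (𝓝 0) := by
    have := (hr_beta.comp (tendsto_id.atTop_mul_const hd)).const_mul C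
    simpa using this
  refine squeeze_zero_norm' ?_ h1
  filter_upwards [eventually_ge_atTop 4, eventually_ge_atTop (1 / 4 / d)] with t ht ht2
  have h0 := f_nonpos hγ (by linarith) (hv t (by linarith)) (hf t (by linarith)) w
  rw [Real.norm_of_nonpos h0]
  refine hfu γ t (v t) (f t) hγ hγ' ht (hv t (by linarith)) (hf t (by linarith)) w (t * d) ?_ ?_
  · rwa [div_le_iff₀ hd] at ht2
  · intro l hl
    exact mul_le_mul_of_nonneg_left (hdl l hl) (by linarith)

/-- convergence of the metrics -/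
theorem hmet_tendsto (hγ : 0 < γ) (hγ' : γ ≤ 1 / 8) {v : ℝ → ℂ → ℝ}
    (hv : ∀ t, 1 ≤ t → Sol γ t (v t)) {z : ℂ} (hz : z ∈ (EX γ).U) :
    Tendsto (fun t => hmet (v t) z) atTop (𝓝 (hinf z)) := by
  obtain ⟨w, hw, rfl⟩ := exists_w hz
  have hwL : w ∉ LL := fun h => hw (LL_sub_ZI h)
  have hp : ∀ᶠ t : ℝ in atTop, v t w = pull (v t) (wp w) := by
    filter_upwards [eventually_ge_atTop 1] with t ht
    have hS := hv t ht
    exact (pull_wp (sol_neg ht hS) hS.perx hS.pery hwL).symm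
  have hV : Tendsto (fun t => pull (v t) (wp w)) atTop (𝓝 0) :=
    (hr_v hγ hγ' hv hw).congr' hp
  have e1 : Tendsto (fun t => ((Real.sqrt ‖qq (wp w)‖ * Real.exp (pull (v t) (wp w)) : ℝ) : ℂ))
      atTop (𝓝 ((Real.sqrt ‖qq (wp w)‖ : ℝ) : ℂ)) := by
    refine (Complex.continuous_ofReal.tendsto _).comp ?_
    have := ((Real.continuous_exp.tendsto 0).comp hV).const_mul (Real.sqrt ‖qq (wp w)‖)
    simpa using this
  have e2 : Tendsto (fun t => (((Real.sqrt ‖qq (wp w)‖)⁻¹ * Real.exp (-pull (v t) (wp w)) : ℝ) : ℂ))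
      atTop (𝓝 (((Real.sqrt ‖qq (wp w)‖)⁻¹ : ℝ) : ℂ)) := by
    refine (Complex.continuous_ofReal.tendsto _).comp ?_
    have hn : Tendsto (fun t => -pull (v t) (wp w)) atTop (𝓝 0) := by simpa using hV.neg
    have := ((Real.continuous_exp.tendsto 0).comp hn).const_mul ((Real.sqrt ‖qq (wp w)‖)⁻¹)
    simpa using this
  refine tendsto_pi_nhds.mpr fun i => tendsto_pi_nhds.mpr fun j => ?_
  fin_cases i <;> fin_cases j
  · exact e1
  · exact tendsto_const_nhds
  · exact tendsto_const_nhds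
  · exact e2

theorem nuM_tendsto (hγ : 0 < γ) (hγ' : γ ≤ 1 / 8) {v f : ℝ → ℂ → ℝ}
    (hv : ∀ t, 1 ≤ t → Sol γ t (v t)) (hf : ∀ t, 1 ≤ t → LinSol t (v t) (f t)) {z : ℂ}
    (hz : z ∈ (EX γ).U) : Tendsto (fun t => nuM (f t) z) atTop (𝓝 0) := by
  obtain ⟨w, hw, rfl⟩ := exists_w hz
  have hwL : w ∉ LL := fun h => hw (LL_sub_ZI h)
  have hp : ∀ᶠ t : ℝ in atTop, f t w = pull (f t) (wp w) := by
    filter_upwards [eventually_ge_atTop 1] with t ht
    have hS := hf t ht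
    exact (pull_wp (lin_neg ht (hv t ht) hS) hS.perx hS.pery hwL).symm
  have hV : Tendsto (fun t => pull (f t) (wp w)) atTop (𝓝 0) :=
    (hr_f hγ hγ' hv hf hw).congr' hp
  have e1 : Tendsto (fun t => ((pull (f t) (wp w) : ℝ) : ℂ)) atTop (𝓝 0) := by
    have := (Complex.continuous_ofReal.tendsto 0).comp hV
    rwa [Complex.ofReal_zero] at this
  have e2 : Tendsto (fun t => ((-pull (f t) (wp w) : ℝ) : ℂ)) atTop (𝓝 0) := by
    have := (Complex.continuous_ofReal.tendsto (-0)).comp hV.neg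
    rwa [neg_zero, Complex.ofReal_zero] at this
  refine tendsto_pi_nhds.mpr fun i => tendsto_pi_nhds.mpr fun j => ?_
  fin_cases i <;> fin_cases j
  · exact e1
  · exact tendsto_const_nhds
  · exact tendsto_const_nhds
  · exact e2

end GM16
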