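import Pool.Agent.LibGM16.Defs

open Complex MeasureTheory Filter Topology Matrix
open scoped ContDiff Real ComplexOrder

namespace GM16

variable {γ t : ℝ} {v v' f f' : ℂ → ℝ}

theorem kK_nonneg (r : ℝ) : 0 ≤ kK r := by
  unfold kK
  have hpi := Real.pi_pos
  have : 0 ≤ ∫ u in Set.Ioi (0 : ℝ), Real.exp (-(4 * r * Real.cosh u)) :=
    integral_nonneg fun u => (Real.exp_pos _).le
  positivity

theorem kbas_meas : Measurable kK := by
  have h : StronglyMeasurable (fun p : ℝ × ℝ => Real.exp (-(4 * p.1 * Real.cosh p.2))) := by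
    apply Continuous.stronglyMeasurable
    have := Real.continuous_cosh
    fun_prop
  have h2 : StronglyMeasurable (fun r : ℝ => ∫ u in Set.Ioi (0 : ℝ),
      Real.exp (-(4 * r * Real.cosh u))) := h.integral_prod_right'
  exact (h2.measurable).const_mul _

theorem KK_meas : Measurable KK := kbas_meas.comp measurable_norm

theorem kbas_cosh_ge (u : ℝ) : 1 + u ^ 2 / 2 ≤ Real.cosh u := by
  have h := Real.cosh_sq (u / 2)
  have h2 : Real.cosh u = 2 * Real.sinh (u / 2) ^ 2 + 1 := by
    have := Real.cosh_two_mul (u / 2)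
    rw [show 2 * (u / 2) = u by ring] at this
    rw [this, h]; ring
  have h3 : (u / 2) ^ 2 ≤ Real.sinh (u / 2) ^ 2 := by
    rw [sq_le_sq]
    rcases le_total 0 u with hu | hu
    · have := Real.self_le_sinh_iff.mpr (show 0 ≤ u / 2 by linarith)
      rw [abs_of_nonneg (by linarith), abs_of_nonneg (by linarith)]
      exact this
    · have := Real.sinh_le_self_iff.mpr (show u / 2 ≤ 0 by linarith)
      rw [abs_of_nonpos (by linarith), abs_of_nonpos (by linarith)]
      linarith
  rw [h2]
  nlinarith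

theorem kbas_bound {r : ℝ} (hr : 0 < r) (n : ℕ) (u : ℝ) :
    Real.cosh u ^ n * Real.exp (-(4 * r * Real.cosh u)) ≤
      (n.factorial / (2 * r) ^ n) * Real.exp (-r * u ^ 2) := by
  have hc := Real.cosh_pos u
  have h1 := Real.pow_div_factorial_le_exp (x := 2 * r * Real.cosh u) (by positivity) n
  have hf : (0 : ℝ) < n.factorial := by exact_mod_cast n.factorial_pos
  have h2 : Real.cosh u ^ n ≤ (n.factorial / (2 * r) ^ n) * Real.exp (2 * r * Real.cosh u) := by
    rw [mul_pow, div_le_iff₀ hf] at h1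
    rw [div_mul_eq_mul_div, le_div_iff₀ (by positivity)]
    linarith
  have h3 : Real.exp (2 * r * Real.cosh u) * Real.exp (-(4 * r * Real.cosh u)) ≤
      Real.exp (-r * u ^ 2) := by
    rw [← Real.exp_add]
    apply Real.exp_le_exp.mpr
    have := kbas_cosh_ge u
    nlinarith [sq_nonneg u]
  calc Real.cosh u ^ n * Real.exp (-(4 * r * Real.cosh u))
      ≤ ((n.factorial / (2 * r) ^ n) * Real.exp (2 * r * Real.cosh u)) *
        Real.exp (-(4 * r * Real.cosh u)) :=
        mul_le_mul_of_nonneg_right h2 (Real.exp_pos _).le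
    _ = (n.factorial / (2 * r) ^ n) * (Real.exp (2 * r * Real.cosh u) *
        Real.exp (-(4 * r * Real.cosh u))) := by ring
    _ ≤ _ := mul_le_mul_of_nonneg_left h3 (by positivity)

theorem kbas_integrable {r : ℝ} (hr : 0 < r) (n : ℕ) :
    IntegrableOn (fun u => Real.cosh u ^ n * Real.exp (-(4 * r * Real.cosh u)))
      (Set.Ioi 0) := by
  have hg : IntegrableOn (fun u : ℝ => (n.factorial / (2 * r) ^ n) * Real.exp (-r * u ^ 2))
      (Set.Ioi 0) := ((integrable_exp_neg_mul_sq hr).const_mul _).integrableOn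
  refine Integrable.mono' hg ?_ ?_
  · apply Continuous.aestronglyMeasurable
    have := Real.continuous_cosh
    fun_prop
  · refine Eventually.of_forall fun u => ?_
    have hc := Real.cosh_pos u
    rw [Real.norm_of_nonneg (by positivity)]
    exact kbas_bound hr n u

theorem kbas_hasDerivAt {r : ℝ} (hr : 0 < r) (n : ℕ) :
    HasDerivAt (fun s => ∫ u in Set.Ioi (0 : ℝ), Real.cosh u ^ n * Real.exp (-(4 * s * Real.cosh u)))
      (-(4 * ∫ u in Set.Ioi (0 : ℝ), Real.cosh u ^ (n + 1) * Real.exp (-(4 * r * Real.cosh u))))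
      r := by
  have hch := Real.continuous_cosh
  have key := hasDerivAt_integral_of_dominated_loc_of_deriv_le
    (μ := volume.restrict (Set.Ioi (0 : ℝ)))
    (F := fun s u => Real.cosh u ^ n * Real.exp (-(4 * s * Real.cosh u)))
    (F' := fun s u => -(4 * (Real.cosh u ^ (n + 1) * Real.exp (-(4 * s * Real.cosh u)))))
    (x₀ := r) (s := Metric.ball r (r / 2))
    (bound := fun u => 4 * (Real.cosh u ^ (n + 1) * Real.exp (-(4 * (r / 2) * Real.cosh u))))
    (Metric.ball_mem_nhds r (by linarith)) ?_ ?_ ?_ ?_ ?_ ?_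
  · have h := key.2
    rwa [integral_neg, integral_const_mul] at h
  · refine Eventually.of_forall fun s => ?_
    apply Continuous.aestronglyMeasurable
    fun_prop
  · exact kbas_integrable hr n
  · apply Continuous.aestronglyMeasurable
    fun_prop
  · refine Eventually.of_forall fun u s hs => ?_
    have hc := Real.cosh_pos u
    rw [Real.norm_eq_abs, abs_neg, abs_of_nonneg (by positivity)]
    have hs' : r / 2 < s := by
      rw [Metric.mem_ball, Real.dist_eq] at hs
      have := (abs_lt.mp hs).1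
      linarith
    have : Real.exp (-(4 * s * Real.cosh u)) ≤ Real.exp (-(4 * (r / 2) * Real.cosh u)) := by
      apply Real.exp_le_exp.mpr
      nlinarith
    have h1 : (0 : ℝ) < Real.cosh u ^ (n + 1) := by positivity
    nlinarith
  · exact (kbas_integrable (r := r / 2) (by linarith) (n + 1)).const_mul 4
  · refine Eventually.of_forall fun u s _ => ?_
    have h1 : HasDerivAt (fun s : ℝ => -(4 * s * Real.cosh u)) (-(4 * Real.cosh u)) s := by
      have h0 : HasDerivAt (fun s : ℝ => 4 * s * Real.cosh u) (4 * Real.cosh u) s := by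
        have := ((hasDerivAt_id s).const_mul 4).mul_const (Real.cosh u)
        simpa using this
      exact h0.fun_neg
    have h2 := (h1.exp).const_mul (Real.cosh u ^ n)
    refine h2.congr_deriv ?_
    ring

theorem kbas_eq (r : ℝ) : kK r = (1 / (2 * π)) *
    ∫ u in Set.Ioi (0 : ℝ), Real.cosh u ^ 0 * Real.exp (-(4 * r * Real.cosh u)) := by
  simp [kK]

theorem kK_hasDerivAt {r : ℝ} (hr : 0 < r) : HasDerivAt kK ((1 / (2 * π)) *
    (-(4 * ∫ u in Set.Ioi (0 : ℝ), Real.cosh u ^ 1 * Real.exp (-(4 * r * Real.cosh u))))) r := by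
  have h := (kbas_hasDerivAt hr 0).const_mul (1 / (2 * π))
  have he : kK = fun s => (1 / (2 * π)) *
      ∫ u in Set.Ioi (0 : ℝ), Real.cosh u ^ 0 * Real.exp (-(4 * s * Real.cosh u)) :=
    funext kbas_eq
  rw [he]
  exact h

theorem kK_cont : ContinuousOn kK (Set.Ioi 0) := fun _ hr =>
  (kK_hasDerivAt hr).continuousAt.continuousWithinAt

/-- `K ≤ C e^{-4r} r^{-1/2}` (`cosh u ≥ 1 + u²/2`) -/
theorem kK_le : ∃ C : ℝ, 0 < C ∧ ∀ r > 0, kK r ≤ C * (Real.exp (-(4 * r)) * r ^ (-(1 / 2) : ℝ)) := by
  have hpi := Real.pi_pos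
  refine ⟨(1 / (2 * π)) * (Real.sqrt (π / 2) / 2), by positivity, fun r hr => ?_⟩
  have h1 : ∫ u in Set.Ioi (0 : ℝ), Real.exp (-(4 * r * Real.cosh u)) ≤
      ∫ u in Set.Ioi (0 : ℝ), Real.exp (-(4 * r)) * Real.exp (-(2 * r) * u ^ 2) := by
    apply integral_mono_ae
    · have := kbas_integrable hr 0
      simp only [pow_zero, one_mul] at this
      exact this
    · exact ((integrable_exp_neg_mul_sq (by linarith)).const_mul _).integrableOn
    · refine Eventually.of_forall fun u => ?_
      show Real.exp (-(4 * r * Real.cosh u)) ≤ Real.exp (-(4 * r)) * Real.exp (-(2 * r) * u ^ 2)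
      rw [← Real.exp_add]
      apply Real.exp_le_exp.mpr
      have := kbas_cosh_ge u
      nlinarith
  rw [integral_const_mul, integral_gaussian_Ioi] at h1
  have h2 : Real.sqrt (π / (2 * r)) = Real.sqrt (π / 2) * r ^ (-(1 / 2) : ℝ) := by
    rw [show π / (2 * r) = (π / 2) * r⁻¹ by field_simp]
    rw [Real.sqrt_mul (by positivity)]
    congr 1
    rw [Real.sqrt_eq_rpow, Real.inv_rpow hr.le, Real.rpow_neg hr.le]
  rw [h2] at h1
  unfold kK
  calc (1 / (2 * π)) * ∫ u in Set.Ioi (0 : ℝ), Real.exp (-(4 * r * Real.cosh u))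
      ≤ (1 / (2 * π)) * (Real.exp (-(4 * r)) * (Real.sqrt (π / 2) * r ^ (-(1 / 2) : ℝ) / 2)) :=
        mul_le_mul_of_nonneg_left h1 (by positivity)
    _ = _ := by ring

end GM16
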