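import Pool.Agent.LibGM16.KBas

open Complex MeasureTheory Filter Topology Matrix
open scoped ContDiff Real ComplexOrder

namespace GM16

variable {γ t : ℝ} {v v' f f' : ℂ → ℝ}

/-- the integral `∫ cosh^n u exp(-4 r cosh u) du` -/
noncomputable def kder_J (n : ℕ) (r : ℝ) : ℝ :=
  ∫ u in Set.Ioi (0 : ℝ), Real.cosh u ^ n * Real.exp (-(4 * r * Real.cosh u))

theorem kder_hasDerivAt {r : ℝ} (hr : 0 < r) (n : ℕ) :
    HasDerivAt (kder_J n) (-(4 * kder_J (n + 1) r)) r := kbas_hasDerivAt hr n

/-- `∫ (16 r sinh² - 4 cosh) e^{-4 r cosh} = 0` -/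
theorem kder_bessel {r : ℝ} (hr : 0 < r) :
    16 * r * kder_J 2 r - 4 * kder_J 1 r - 16 * r * kder_J 0 r = 0 := by
  have hi := integral_Ioi_of_hasDerivAt_of_tendsto
    (f := fun u => -(4 * Real.sinh u * Real.exp (-(4 * r * Real.cosh u))))
    (f' := fun u => 16 * r * (Real.cosh u ^ 2 * Real.exp (-(4 * r * Real.cosh u))) -
      4 * (Real.cosh u ^ 1 * Real.exp (-(4 * r * Real.cosh u))) -
      16 * r * (Real.cosh u ^ 0 * Real.exp (-(4 * r * Real.cosh u))))
    (a := 0) (m := 0) ?_ ?_ ?_ ?_
  · rw [integral_sub, integral_sub, integral_const_mul, integral_const_mul, integral_const_mul] at hi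
    · unfold kder_J
      rw [hi]
      simp
    · exact (kbas_integrable hr 2).const_mul _
    · exact (kbas_integrable hr 1).const_mul _
    · exact ((kbas_integrable hr 2).const_mul _).sub ((kbas_integrable hr 1).const_mul _)
    · exact (kbas_integrable hr 0).const_mul _
  · apply Continuous.continuousWithinAt
    have := Real.continuous_cosh
    have := Real.continuous_sinh
    fun_prop
  · intro u _
    have h1 : HasDerivAt (fun u : ℝ => -(4 * r * Real.cosh u)) (-(4 * r * Real.sinh u)) u :=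
      ((Real.hasDerivAt_cosh u).const_mul (4 * r)).fun_neg
    have h2 := ((Real.hasDerivAt_sinh u).const_mul 4).mul h1.exp
    refine h2.fun_neg.congr_deriv ?_
    have := Real.cosh_sq u
    have h3 : Real.sinh u ^ 2 = Real.cosh u ^ 2 - 1 := by linarith
    have h4 : 4 * Real.sinh u * (Real.exp (-(4 * r * Real.cosh u)) * -(4 * r * Real.sinh u)) =
      -(16 * r * Real.sinh u ^ 2 * Real.exp (-(4 * r * Real.cosh u))) := by ring
    rw [h4, h3]
    ring
  · exact (((kbas_integrable hr 2).const_mul _).sub ((kbas_integrable hr 1).const_mul _)).sub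
      ((kbas_integrable hr 0).const_mul _)
  · -- the limit at infinity
    have hb : ∀ u ∈ Set.Ici (0 : ℝ), ‖-(4 * Real.sinh u * Real.exp (-(4 * r * Real.cosh u)))‖ ≤
        4 * ((1 : ℕ).factorial / (2 * r) ^ 1) * Real.exp (-r * u ^ 2) := by
      intro u hu
      have hs : 0 ≤ Real.sinh u := Real.sinh_nonneg_iff.mpr hu
      have hsc : Real.sinh u ≤ Real.cosh u := (Real.sinh_lt_cosh u).le
      have he := Real.exp_pos (-(4 * r * Real.cosh u))
      rw [Real.norm_eq_abs, abs_neg, abs_of_nonneg (by positivity)]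
      have := kbas_bound hr 1 u
      have h5 : Real.sinh u * Real.exp (-(4 * r * Real.cosh u)) ≤
        Real.cosh u ^ 1 * Real.exp (-(4 * r * Real.cosh u)) := by
        rw [pow_one]; exact mul_le_mul_of_nonneg_right hsc he.le
      calc 4 * Real.sinh u * Real.exp (-(4 * r * Real.cosh u))
          = 4 * (Real.sinh u * Real.exp (-(4 * r * Real.cosh u))) := by ring
        _ ≤ 4 * (((1 : ℕ).factorial / (2 * r) ^ 1) * Real.exp (-r * u ^ 2)) := by linarith
        _ = _ := by ring
    refine squeeze_zero_norm' (a := fun u => 4 * ((1 : ℕ).factorial / (2 * r) ^ 1) *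
      Real.exp (-r * u ^ 2)) ?_ ?_
    · filter_upwards [eventually_ge_atTop (0 : ℝ)] with u hu
      exact hb u hu
    · rw [← mul_zero (4 * ((1 : ℕ).factorial / (2 * r) ^ 1 : ℝ))]
      apply Tendsto.const_mul
      apply Real.tendsto_exp_atBot.comp
      have h6 : Tendsto (fun u : ℝ => u ^ 2) atTop atTop := tendsto_pow_atTop (by norm_num)
      exact h6.const_mul_atTop_of_neg (by linarith)

theorem kder_sinh {r : ℝ} (hr : 0 < r) :
    IntegrableOn (fun u => Real.cosh u * Real.exp (-(4 * r * Real.sinh u))) (Set.Ioi 0) ∧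
    ∫ u in Set.Ioi (0 : ℝ), Real.cosh u * Real.exp (-(4 * r * Real.sinh u)) = 1 / (4 * r) := by
  have hd : ∀ u ∈ Set.Ioi (0 : ℝ), HasDerivAt
      (fun u => -(1 / (4 * r) * Real.exp (-(4 * r * Real.sinh u))))
      (Real.cosh u * Real.exp (-(4 * r * Real.sinh u))) u := by
    intro u _
    have h1 : HasDerivAt (fun u : ℝ => -(4 * r * Real.sinh u)) (-(4 * r * Real.cosh u)) u :=
      ((Real.hasDerivAt_sinh u).const_mul (4 * r)).fun_neg
    have h2 := (h1.exp.const_mul (1 / (4 * r))).fun_neg
    refine h2.congr_deriv ?_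
    field_simp
  have hc : ContinuousWithinAt (fun u => -(1 / (4 * r) * Real.exp (-(4 * r * Real.sinh u))))
      (Set.Ici 0) 0 := by
    apply Continuous.continuousWithinAt
    have := Real.continuous_sinh
    fun_prop
  have hl : Tendsto (fun u => -(1 / (4 * r) * Real.exp (-(4 * r * Real.sinh u)))) atTop (𝓝 0) := by
    have : Tendsto (fun u : ℝ => -(4 * r * Real.sinh u)) atTop atBot := by
      have h6 : Tendsto Real.sinh atTop atTop := by
        refine tendsto_atTop_mono' atTop ?_ tendsto_id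
        filter_upwards [eventually_ge_atTop (0 : ℝ)] with u hu
        exact Real.self_le_sinh_iff.mpr hu
      have h7 := h6.const_mul_atTop_of_neg (r := -(4 * r)) (by linarith)
      refine h7.congr fun u => by ring
    have h := ((Real.tendsto_exp_atBot.comp this).const_mul (1 / (4 * r))).neg
    simpa using h
  have hpos : ∀ u ∈ Set.Ioi (0 : ℝ), 0 ≤ Real.cosh u * Real.exp (-(4 * r * Real.sinh u)) := by
    intro u _
    have := Real.cosh_pos u
    positivity
  refine ⟨integrableOn_Ioi_deriv_of_nonneg hc hd hpos hl, ?_⟩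
  rw [integral_Ioi_of_hasDerivAt_of_nonneg hc hd hpos hl]
  simp

/-- `e^{-4r} ≤ 4 r J₁(r) ≤ 1` -/
theorem kder_J1 {r : ℝ} (hr : 0 < r) :
    Real.exp (-(4 * r)) ≤ 4 * r * kder_J 1 r ∧ 4 * r * kder_J 1 r ≤ 1 := by
  obtain ⟨hI, hE⟩ := kder_sinh hr
  constructor
  · have h : Real.exp (-(4 * r)) * (1 / (4 * r)) ≤ kder_J 1 r := by
      rw [← hE, ← integral_const_mul]
      refine integral_mono_ae (hI.const_mul _) (kbas_integrable hr 1) ?_
      refine (ae_restrict_iff' measurableSet_Ioi).mpr (Eventually.of_forall fun u hu => ?_)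
      have hu' : (0 : ℝ) < u := hu
      have hc := Real.cosh_pos u
      have h1 : Real.cosh u ≤ 1 + Real.sinh u := by
        have h2 := Real.cosh_sub_sinh u
        have h3 : Real.exp (-u) ≤ 1 := Real.exp_le_one_iff.mpr (by linarith)
        linarith
      have h4 : Real.exp (-(4 * r)) * Real.exp (-(4 * r * Real.sinh u)) ≤
          Real.exp (-(4 * r * Real.cosh u)) := by
        rw [← Real.exp_add]
        apply Real.exp_le_exp.mpr
        nlinarith
      show Real.exp (-(4 * r)) * (Real.cosh u * Real.exp (-(4 * r * Real.sinh u))) ≤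
        Real.cosh u ^ 1 * Real.exp (-(4 * r * Real.cosh u))
      rw [pow_one]
      nlinarith
    have h5 : Real.exp (-(4 * r)) = 4 * r * (Real.exp (-(4 * r)) * (1 / (4 * r))) := by
      field_simp
    rw [h5]
    exact mul_le_mul_of_nonneg_left h (by linarith)
  · have h : kder_J 1 r ≤ 1 / (4 * r) := by
      rw [← hE]
      refine integral_mono_ae (kbas_integrable hr 1) hI ?_
      refine Eventually.of_forall fun u => ?_
      have hc := Real.cosh_pos u
      have h4 : Real.exp (-(4 * r * Real.cosh u)) ≤ Real.exp (-(4 * r * Real.sinh u)) := by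
        apply Real.exp_le_exp.mpr
        have := (Real.sinh_lt_cosh u).le
        nlinarith
      show Real.cosh u ^ 1 * Real.exp (-(4 * r * Real.cosh u)) ≤
        Real.cosh u * Real.exp (-(4 * r * Real.sinh u))
      rw [pow_one]
      exact mul_le_mul_of_nonneg_left h4 hc.le
    calc 4 * r * kder_J 1 r ≤ 4 * r * (1 / (4 * r)) := mul_le_mul_of_nonneg_left h (by linarith)
      _ = 1 := by field_simp

/-- The derivative of the profile, and Bessel's equation `k'' + k'/r = 16 k`;
`r k' → -1/2π` because `e^{-4r}/2π ≤ -r k' ≤ 1/2π`. -/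
theorem kK_deriv : ∃ k' : ℝ → ℝ, (∀ r > 0, HasDerivAt kK (k' r) r) ∧
    (∀ r > 0, HasDerivAt k' (16 * kK r - k' r / r) r) ∧
    Tendsto (fun r => r * k' r) (𝓝[>] 0) (𝓝 (-(1 / (2 * π)))) ∧
    Tendsto (fun r => r * kK r) (𝓝[>] 0) (𝓝 0) := by
  have hpi := Real.pi_pos
  refine ⟨fun r => (1 / (2 * π)) * (-(4 * kder_J 1 r)), fun r hr => kK_hasDerivAt hr, ?_, ?_, ?_⟩
  · intro r hr
    have h1 := (((kder_hasDerivAt hr 1).const_mul 4).fun_neg).const_mul (1 / (2 * π))
    refine h1.congr_deriv ?_
    have h2 := kder_bessel hr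
    rw [kbas_eq]
    change (1 / (2 * π)) * -(4 * -(4 * kder_J (1 + 1) r)) = 16 * ((1 / (2 * π)) * kder_J 0 r) -
      1 / (2 * π) * -(4 * kder_J 1 r) / r
    have h3 : kder_J 2 r = (4 * kder_J 1 r + 16 * r * kder_J 0 r) / (16 * r) := by
      rw [eq_div_iff (by positivity)]
      linarith
    rw [show 1 + 1 = 2 from rfl, h3]
    field_simp
    ring
  · have hlo : Tendsto (fun r : ℝ => -((1 / (2 * π)) * 1)) (𝓝[>] 0) (𝓝 (-(1 / (2 * π)))) := by
      rw [mul_one]; exact tendsto_const_nhds
    have hhi : Tendsto (fun r : ℝ => -((1 / (2 * π)) * Real.exp (-(4 * r)))) (𝓝[>] 0)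
        (𝓝 (-(1 / (2 * π)))) := by
      have h : Continuous (fun r : ℝ => -((1 / (2 * π)) * Real.exp (-(4 * r)))) := by fun_prop
      have h2 := (h.tendsto 0).mono_left (nhdsWithin_le_nhds (s := Set.Ioi 0))
      simpa using h2
    refine tendsto_of_tendsto_of_tendsto_of_le_of_le' hlo hhi ?_ ?_
    · filter_upwards [self_mem_nhdsWithin] with r hr
      have := (kder_J1 (show 0 < r from hr)).2
      have h3 : (1 / (2 * π)) * (4 * r * kder_J 1 r) ≤ (1 / (2 * π)) * 1 :=
        mul_le_mul_of_nonneg_left this (by positivity)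
      calc -((1 / (2 * π)) * 1) ≤ -((1 / (2 * π)) * (4 * r * kder_J 1 r)) := by linarith
        _ = _ := by ring
    · filter_upwards [self_mem_nhdsWithin] with r hr
      have := (kder_J1 (show 0 < r from hr)).1
      have h3 : (1 / (2 * π)) * Real.exp (-(4 * r)) ≤ (1 / (2 * π)) * (4 * r * kder_J 1 r) :=
        mul_le_mul_of_nonneg_left this (by positivity)
      calc r * ((1 / (2 * π)) * (-(4 * kder_J 1 r))) = -((1 / (2 * π)) * (4 * r * kder_J 1 r)) := by
            ring
        _ ≤ _ := by linarith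
  · obtain ⟨C, hC, hle⟩ := kK_le
    have h0 : Tendsto (fun r : ℝ => C * Real.sqrt r) (𝓝[>] 0) (𝓝 0) := by
      have h : Continuous (fun r : ℝ => C * Real.sqrt r) := by
        have := Real.continuous_sqrt
        fun_prop
      have h2 := (h.tendsto 0).mono_left (nhdsWithin_le_nhds (s := Set.Ioi 0))
      simpa using h2
    refine squeeze_zero' ?_ ?_ h0
    · filter_upwards [self_mem_nhdsWithin] with r hr
      exact mul_nonneg (le_of_lt hr) (kK_nonneg r)
    · filter_upwards [self_mem_nhdsWithin] with r hr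
      have hr' : 0 < r := hr
      have h1 := hle r hr
      have h2 : Real.exp (-(4 * r)) ≤ 1 := Real.exp_le_one_iff.mpr (by linarith)
      have h3 : r * r ^ (-(1 / 2) : ℝ) = Real.sqrt r := by
        rw [Real.sqrt_eq_rpow]
        nth_rewrite 1 [← Real.rpow_one r]
        rw [← Real.rpow_add hr']
        norm_num
      have h4 : 0 < r ^ (-(1 / 2) : ℝ) := Real.rpow_pos_of_pos hr' _
      calc r * kK r ≤ r * (C * (Real.exp (-(4 * r)) * r ^ (-(1 / 2) : ℝ))) :=
            mul_le_mul_of_nonneg_left h1 hr'.le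
        _ ≤ r * (C * (1 * r ^ (-(1 / 2) : ℝ))) := by
            apply mul_le_mul_of_nonneg_left _ hr'.le
            apply mul_le_mul_of_nonneg_left _ hC.le
            exact mul_le_mul_of_nonneg_right h2 h4.le
        _ = C * (r * r ^ (-(1 / 2) : ℝ)) := by ring
        _ = C * Real.sqrt r := by rw [h3]

end GM16
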