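import Pool.Agent.LibGM16.PotAux

open Complex MeasureTheory Filter Topology Matrix
open scoped ContDiff Real ComplexOrder

namespace GM16

variable {γ t : ℝ} {v v' f f' : ℂ → ℝ}

/-- The Laplacian of the regularized kernel. -/
theorem lap_NKe {e : ℝ} (he : 0 < e) {x y : ℂ} (hy : x - y ≠ 0) :
    lap (fun y => NKe e (x - y)) y = -(e / (π * (‖x - y‖ ^ 2 + e) ^ 2)) := by
  have hpi := Real.pi_pos
  set F : ℝ → ℝ := fun r => -(Real.log (r ^ 2 + e)) / (4 * π) with hFdef
  have hF : ∀ r, HasDerivAt F (-((2 * r) / (r ^ 2 + e)) / (4 * π)) r := by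
    intro r
    have h0 : 0 < r ^ 2 + e := by positivity
    have h1 : HasDerivAt (fun r : ℝ => r ^ 2 + e) (2 * r) r := by
      simpa using (hasDerivAt_pow 2 r).add_const e
    exact ((h1.log h0.ne').neg).div_const (4 * π)
  have hdF : deriv F = fun r => -((2 * r) / (r ^ 2 + e)) / (4 * π) := by
    funext r
    exact (hF r).deriv
  have hF2 : ∀ r, HasDerivAt (fun r => -((2 * r) / (r ^ 2 + e)) / (4 * π))
      (-((2 * (r ^ 2 + e) - (2 * r) * (2 * r)) / (r ^ 2 + e) ^ 2) / (4 * π)) r := by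
    intro r
    have h0 : 0 < r ^ 2 + e := by positivity
    have h1 : HasDerivAt (fun r : ℝ => r ^ 2 + e) (2 * r) r := by
      simpa using (hasDerivAt_pow 2 r).add_const e
    have h2 : HasDerivAt (fun r : ℝ => 2 * r) 2 r := by
      simpa using (hasDerivAt_id r).const_mul 2
    exact ((h2.div h1 h0.ne').neg).div_const (4 * π)
  have hfun : (fun y => NKe e (x - y)) = fun z => F ‖z - x‖ := by
    funext z
    rw [hFdef, NKe, norm_sub_rev]
  have hyx : y ≠ x := fun h => hy (by rw [h, sub_self])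
  have hcd : ContDiff ℝ ∞ F := by
    rw [hFdef]
    refine ContDiff.div_const (ContDiff.neg ?_) _
    refine ContDiff.log ((contDiff_id.pow 2).add contDiff_const) fun r => ?_
    have h0 : 0 < r ^ 2 + e := by positivity
    exact h0.ne'
  rw [hfun, lap_radial hyx ((hcd.of_le (by norm_cast)).contDiffAt), hdF, (hF2 _).deriv,
    norm_sub_rev y x]
  have hr : 0 < ‖x - y‖ := norm_pos_iff.2 hy
  have h0 : 0 < ‖x - y‖ ^ 2 + e := by positivity
  field_simp
  ring

theorem locallyIntegrable_NKe {e : ℝ} (he : 0 ≤ e) : LocallyIntegrable (NKe e) volume := by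
  rcases he.eq_or_lt with rfl | he
  · rw [NKe_zero]; exact locallyIntegrable_NK
  · exact (continuous_NKe he).locallyIntegrable

section mid

variable {Ω : Set ℂ} {u χ : ℂ → ℝ}

theorem mid_ae (u χ : ℂ → ℝ) {e : ℝ} (he : 0 ≤ e) (x : ℂ) :
    (fun y => u y * (2 * (dx χ y * dx (fun y => NKe e (x - y)) y +
      dy χ y * dy (fun y => NKe e (x - y)) y) + NKe e (x - y) * lap χ y)) =ᵐ[volume]
    fun y => (-2) * ((u y * dx χ y) • NKg e (x - y)) 1 +
      ((-2) * ((u y * dy χ y) • NKg e (x - y)) I + (u y * lap χ y) • NKe e (x - y)) := by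
  filter_upwards [ae_sub_ne_zero x] with y hy
  have h := (hasFDerivAt_NKe_sub he hy).fderiv
  have h1 : dx (fun y => NKe e (x - y)) y = -(NKg e (x - y) 1) := by
    rw [dx, h]; simp
  have h2 : dy (fun y => NKe e (x - y)) y = -(NKg e (x - y) I) := by
    rw [dy, h]; simp
  rw [h1, h2]
  simp only [_root_.smul_apply, smul_eq_mul]
  ring

theorem int_dx (hΩ : IsOpen Ω) (hu : ContinuousOn u Ω) (hχ : ContDiff ℝ ∞ χ)
    (hc : HasCompactSupport χ) (hs : tsupport χ ⊆ Ω) {e : ℝ} (he : 0 ≤ e) (x : ℂ) :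
    Integrable (fun y => (u y * dx χ y) • NKg e (x - y)) volume :=
  integrable_swap (locallyIntegrable_NKg he) (cont_mul hΩ hu (contDiff_dx hχ).continuous
    ((tsupport_dx χ).trans hs)) (hcs_mul (hcs_dx hc)) x

theorem int_dy (hΩ : IsOpen Ω) (hu : ContinuousOn u Ω) (hχ : ContDiff ℝ ∞ χ)
    (hc : HasCompactSupport χ) (hs : tsupport χ ⊆ Ω) {e : ℝ} (he : 0 ≤ e) (x : ℂ) :
    Integrable (fun y => (u y * dy χ y) • NKg e (x - y)) volume :=
  integrable_swap (locallyIntegrable_NKg he) (cont_mul hΩ hu (contDiff_dy hχ).continuous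
    ((tsupport_dy χ).trans hs)) (hcs_mul (hcs_dy hc)) x

theorem int_lap (hΩ : IsOpen Ω) (hu : ContinuousOn u Ω) (hχ : ContDiff ℝ ∞ χ)
    (hc : HasCompactSupport χ) (hs : tsupport χ ⊆ Ω) {e : ℝ} (he : 0 ≤ e) (x : ℂ) :
    Integrable (fun y => (u y * lap χ y) • NKe e (x - y)) volume :=
  integrable_swap (locallyIntegrable_NKe he) (cont_mul hΩ hu (contDiff_lap hχ).continuous
    ((tsupport_lap χ).trans hs)) (hcs_mul (hcs_lap hc)) x

theorem mid_integrable (hΩ : IsOpen Ω) (hu : ContinuousOn u Ω) (hχ : ContDiff ℝ ∞ χ)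
    (hc : HasCompactSupport χ) (hs : tsupport χ ⊆ Ω) {e : ℝ} (he : 0 ≤ e) (x : ℂ) :
    Integrable (fun y => u y * (2 * (dx χ y * dx (fun y => NKe e (x - y)) y +
      dy χ y * dy (fun y => NKe e (x - y)) y) + NKe e (x - y) * lap χ y)) volume := by
  refine Integrable.congr ?_ (mid_ae u χ he x).symm
  have h1 := (int_dx hΩ hu hχ hc hs he x).apply_continuousLinearMap 1
  have h2 := (int_dy hΩ hu hχ hc hs he x).apply_continuousLinearMap I
  exact (h1.const_mul (-2)).add ((h2.const_mul (-2)).add (int_lap hΩ hu hχ hc hs he x))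

theorem mid_eq (hΩ : IsOpen Ω) (hu : ContinuousOn u Ω) (hχ : ContDiff ℝ ∞ χ)
    (hc : HasCompactSupport χ) (hs : tsupport χ ⊆ Ω) {e : ℝ} (he : 0 ≤ e) (x : ℂ) :
    ∫ y, u y * (2 * (dx χ y * dx (fun y => NKe e (x - y)) y +
      dy χ y * dy (fun y => NKe e (x - y)) y) + NKe e (x - y) * lap χ y) =
    (-2) * (∫ y, (u y * dx χ y) • NKg e (x - y)) 1 +
      ((-2) * (∫ y, (u y * dy χ y) • NKg e (x - y)) I +
        ∫ y, (u y * lap χ y) • NKe e (x - y)) := by
  have i1 := int_dx hΩ hu hχ hc hs he x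
  have i2 := int_dy hΩ hu hχ hc hs he x
  have h1 := i1.apply_continuousLinearMap 1
  have h2 := i2.apply_continuousLinearMap I
  have h3 : Integrable (fun y => (-2) * ((u y * dy χ y) • NKg e (x - y)) I +
      (u y * lap χ y) • NKe e (x - y)) volume :=
    (h2.const_mul (-2)).add (int_lap hΩ hu hχ hc hs he x)
  rw [integral_congr_ae (mid_ae u χ he x), integral_add (h1.const_mul (-2)) h3,
    integral_add (h2.const_mul (-2)) (int_lap hΩ hu hχ hc hs he x), integral_const_mul,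
    integral_const_mul, ContinuousLinearMap.integral_apply i1, ContinuousLinearMap.integral_apply i2]

theorem mid_tendsto (hΩ : IsOpen Ω) (hu : ContinuousOn u Ω) (hχ : ContDiff ℝ ∞ χ)
    (hc : HasCompactSupport χ) (hs : tsupport χ ⊆ Ω) (x : ℂ) :
    Tendsto (fun n => ∫ y, u y * (2 * (dx χ y * dx (fun y => NKe (eps n) (x - y)) y +
      dy χ y * dy (fun y => NKe (eps n) (x - y)) y) + NKe (eps n) (x - y) * lap χ y)) atTop
    (𝓝 (∫ y, u y * (2 * (dx χ y * dx (fun y => NK (x - y)) y +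
      dy χ y * dy (fun y => NK (x - y)) y) + NK (x - y) * lap χ y))) := by
  have h0 := mid_eq hΩ hu hχ hc hs le_rfl x
  rw [NKe_zero] at h0
  rw [h0]
  simp only [fun n => mid_eq hΩ hu hχ hc hs (eps_pos n).le x]
  have hx : x ∈ Metric.ball x 1 := Metric.mem_ball_self one_pos
  have t1 := (tendstoUniformlyOn_conv_NKg (cont_mul hΩ hu (contDiff_dx hχ).continuous
    ((tsupport_dx χ).trans hs)) (hcs_mul (hcs_dx hc)) x).tendsto_at hx
  have t2 := (tendstoUniformlyOn_conv_NKg (cont_mul hΩ hu (contDiff_dy hχ).continuous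
    ((tsupport_dy χ).trans hs)) (hcs_mul (hcs_dy hc)) x).tendsto_at hx
  have t3 := tendsto_conv_NKe (cont_mul hΩ hu (contDiff_lap hχ).continuous
    ((tsupport_lap χ).trans hs)) (hcs_mul (hcs_lap hc)) x
  have t1' := ((ContinuousLinearMap.apply ℝ ℝ (1 : ℂ)).continuous.tendsto _).comp t1
  have t2' := ((ContinuousLinearMap.apply ℝ ℝ I).continuous.tendsto _).comp t2
  exact (t1'.const_mul (-2)).add ((t2'.const_mul (-2)).add t3)

end mid

/-- The profile of the approximate identity. -/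
noncomputable def pk (z : ℂ) : ℝ := 1 / (π * (‖z‖ ^ 2 + 1) ^ 2)

theorem pk_nonneg (z : ℂ) : 0 ≤ pk z := by
  unfold pk
  have := Real.pi_pos
  positivity

theorem pk_radial : ∫ r in Set.Ioi (0 : ℝ), r * (1 / (π * (r ^ 2 + 1) ^ 2)) = 1 / (2 * π) := by
  have hpi := Real.pi_pos
  have h := integral_Ioi_of_hasDerivAt_of_nonneg' (a := 0) (l := 0)
    (g := fun r : ℝ => -(1 / (2 * π)) * (r ^ 2 + 1)⁻¹)
    (g' := fun r => r * (1 / (π * (r ^ 2 + 1) ^ 2))) (fun r _ => ?_) (fun r hr => ?_) ?_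
  · rw [h]; norm_num
  · have h0 : r ^ 2 + 1 ≠ 0 := by positivity
    have h1 : HasDerivAt (fun r : ℝ => r ^ 2 + 1) (2 * r) r := by
      simpa using (hasDerivAt_pow 2 r).add_const 1
    have h2 := (h1.inv h0).const_mul (-(1 / (2 * π)))
    refine h2.congr_deriv ?_
    field_simp
  · have hr' : (0 : ℝ) < r := hr
    positivity
  · have h3 : Tendsto (fun r : ℝ => (r ^ 2 + 1)⁻¹) atTop (𝓝 0) := by
      refine tendsto_inv_atTop_zero.comp ?_
      exact tendsto_atTop_add_const_right _ _ (tendsto_pow_atTop (by norm_num))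
    simpa using h3.const_mul (-(1 / (2 * π)))

theorem pk_integral : ∫ z, pk z = 1 := by
  have hpi := Real.pi_pos
  have h := integral_fun_norm_addHaar (volume : Measure ℂ) (fun r => 1 / (π * (r ^ 2 + 1) ^ 2))
  have h2 : ∫ z, pk z = ∫ z : ℂ, (fun r => 1 / (π * (r ^ 2 + 1) ^ 2)) ‖z‖ := rfl
  rw [h2, h, Complex.finrank_real_complex]
  simp only [smul_eq_mul, Nat.add_one_sub_one, pow_one]
  rw [pk_radial]
  rw [Measure.real, Complex.volume_ball]
  simp

theorem pk_tendsto : Tendsto (fun z : ℂ => ‖z‖ ^ Module.finrank ℝ ℂ * pk z)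
    (Bornology.cobounded ℂ) (𝓝 0) := by
  have hpi := Real.pi_gt_three
  rw [Complex.finrank_real_complex]
  have h1 : Tendsto (fun z : ℂ => ‖z‖⁻¹) (Bornology.cobounded ℂ) (𝓝 0) :=
    tendsto_norm_cobounded_atTop.inv_tendsto_atTop
  refine squeeze_zero' (Eventually.of_forall fun z => mul_nonneg (by positivity) (pk_nonneg z)) ?_ h1
  have h2 : ∀ᶠ z : ℂ in Bornology.cobounded ℂ, 1 ≤ ‖z‖ :=
    tendsto_norm_cobounded_atTop.eventually_ge_atTop 1
  filter_upwards [h2] with z hz
  have hz0 : 0 < ‖z‖ := by linarith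
  unfold pk
  rw [mul_one_div, div_le_iff₀ (by positivity), inv_mul_eq_div, le_div_iff₀ hz0]
  have h3 : ‖z‖ ^ 2 * ‖z‖ ≤ (‖z‖ ^ 2 + 1) ^ 2 := by nlinarith [sq_nonneg (‖z‖ ^ 2 - ‖z‖)]
  have h4 : 0 ≤ (‖z‖ ^ 2 + 1) ^ 2 := by positivity
  nlinarith

/-- The approximate identity. -/
theorem approx_identity {w : ℂ → ℝ} (hw : Continuous w) (hc : HasCompactSupport w) (x : ℂ) :
    Tendsto (fun n => ∫ y, (eps n / (π * (‖x - y‖ ^ 2 + eps n) ^ 2)) * w y) atTop (𝓝 (w x)) := by
  have hpi := Real.pi_pos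
  have h := tendsto_integral_comp_smul_smul_of_integrable' (μ := (volume : Measure ℂ)) pk_nonneg
    pk_integral pk_tendsto (g := w) (x₀ := x) (hw.integrable_of_hasCompactSupport hc)
    hw.continuousAt
  have hs : Tendsto (fun n : ℕ => Real.sqrt ((n : ℝ) + 1)) atTop atTop :=
    Real.tendsto_sqrt_atTop.comp (tendsto_atTop_add_const_right _ _ tendsto_natCast_atTop_atTop)
  have h2 := h.comp hs
  refine h2.congr fun n => ?_
  refine integral_congr_ae (Eventually.of_forall fun y => ?_)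
  have hn : (0 : ℝ) < (n : ℝ) + 1 := by positivity
  have hsq : Real.sqrt ((n : ℝ) + 1) ^ 2 = (n : ℝ) + 1 := Real.sq_sqrt hn.le
  simp only [smul_eq_mul, Complex.finrank_real_complex]
  congr 1
  unfold pk eps
  rw [norm_smul, Real.norm_of_nonneg (Real.sqrt_nonneg _), mul_pow, hsq]
  field_simp

/-- Local representation. `χ` is a cutoff, `= 1` on `B(x₀, 2r)`, supported in `B(x₀, 3r)`. Test the
weak equation with `χ(y) N_ε(x - y)`, `N_ε(z) = -log(|z|²+ε²)/4π`, `-ΔN_ε = ε²/(π(|z|²+ε²)²)`, an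
approximate identity, and let `ε → 0`. -/
theorem local_rep {Ω : Set ℂ} (hΩ : IsOpen Ω) {u F : ℂ → ℝ} (hu : ContinuousOn u Ω)
    (hF : ContinuousOn F Ω)
    (hw : ∀ φ : ℂ → ℝ, ContDiff ℝ ∞ φ → HasCompactSupport φ → tsupport φ ⊆ Ω →
      ∫ z, u z * lap φ z = ∫ z, F z * φ z)
    {x₀ : ℂ} {r : ℝ} (hr : 0 < r) {χ : ℂ → ℝ} (hχ : ContDiff ℝ ∞ χ)
    (hχ1 : ∀ z ∈ Metric.ball x₀ (2 * r), χ z = 1) (hχs : tsupport χ ⊆ Metric.ball x₀ (3 * r))
    (hB : Metric.closedBall x₀ (3 * r) ⊆ Ω) {x : ℂ} (hx : x ∈ Metric.ball x₀ r) :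
    u x = -(∫ y, NK (x - y) * (χ y * F y)) +
      ∫ y, u y * (2 * (dx χ y * dx (fun y => NK (x - y)) y + dy χ y * dy (fun y => NK (x - y)) y) +
        NK (x - y) * lap χ y) := by
  have hs : tsupport χ ⊆ Ω := hχs.trans (Metric.ball_subset_closedBall.trans hB)
  have hc : HasCompactSupport χ := by
    refine HasCompactSupport.of_support_subset_isCompact (isCompact_closedBall x₀ (3 * r)) ?_
    exact (subset_tsupport χ).trans (hχs.trans Metric.ball_subset_closedBall)
  have huχ := cont_mul hΩ hu hχ.continuous hs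
  have huχc : HasCompactSupport (fun y => u y * χ y) := hcs_mul hc
  have hFχ := cont_mul hΩ hF hχ.continuous hs
  have hFχc : HasCompactSupport (fun y => F y * χ y) := hcs_mul hc
  have key : ∀ n, (∫ y, (F y * χ y) • NKe (eps n) (x - y)) =
      -(∫ y, (eps n / (π * (‖x - y‖ ^ 2 + eps n) ^ 2)) * (u y * χ y)) +
      ∫ y, u y * (2 * (dx χ y * dx (fun y => NKe (eps n) (x - y)) y +
        dy χ y * dy (fun y => NKe (eps n) (x - y)) y) + NKe (eps n) (x - y) * lap χ y) := by
    intro n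
    have he := eps_pos n
    have hN : ContDiff ℝ ∞ (fun y => NKe (eps n) (x - y)) :=
      (contDiff_NKe he).comp (contDiff_const.sub contDiff_id)
    have h1 := hw (fun y => χ y * NKe (eps n) (x - y)) (hχ.mul hN) hc.mul_right
      ((tsupport_mul_subset_left (f := χ)).trans hs)
    have h2 : ∫ y, (F y * χ y) • NKe (eps n) (x - y) =
        ∫ y, F y * (χ y * NKe (eps n) (x - y)) := by
      refine integral_congr_ae (Eventually.of_forall fun y => ?_)
      simp only [smul_eq_mul]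
      ring
    rw [h2, ← h1]
    have hint : Integrable (fun y => (u y * χ y) * lap (fun y => NKe (eps n) (x - y)) y) volume :=
      (huχ.mul (contDiff_lap hN).continuous).integrable_of_hasCompactSupport huχc.mul_right
    have h3 : ∫ y, u y * lap (fun y => χ y * NKe (eps n) (x - y)) y =
        (∫ y, (u y * χ y) * lap (fun y => NKe (eps n) (x - y)) y) +
        ∫ y, u y * (2 * (dx χ y * dx (fun y => NKe (eps n) (x - y)) y +
          dy χ y * dy (fun y => NKe (eps n) (x - y)) y) + NKe (eps n) (x - y) * lap χ y) := by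
      rw [← integral_add hint (mid_integrable hΩ hu hχ hc hs he.le x)]
      refine integral_congr_ae (Eventually.of_forall fun y => ?_)
      simp only
      rw [lap_mul ((hχ.of_le (by norm_cast)).contDiffAt)
        ((hN.of_le (by norm_cast)).contDiffAt)]
      ring
    rw [h3]
    congr 1
    rw [← integral_neg]
    refine integral_congr_ae ?_
    filter_upwards [ae_sub_ne_zero x] with y hy
    rw [lap_NKe he hy]
    ring
  have t1 := tendsto_conv_NKe hFχ hFχc x
  have t2 := (approx_identity huχ huχc x).neg.add (mid_tendsto hΩ hu hχ hc hs x)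
  have h4 := tendsto_nhds_unique (t1.congr key) t2
  have hχx : χ x = 1 := hχ1 x (Metric.ball_subset_ball (by linarith) hx)
  rw [hχx, mul_one] at h4
  have h5 : ∫ y, (F y * χ y) • NK (x - y) = ∫ y, NK (x - y) * (χ y * F y) := by
    refine integral_congr_ae (Eventually.of_forall fun y => ?_)
    simp only [smul_eq_mul]
    ring
  rw [h5] at h4
  linarith

end GM16
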