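import Pool.Agent.LibGM16.Sign

open Complex MeasureTheory Filter Topology Matrix
open scoped ContDiff Real ComplexOrder

namespace GM16

variable {γ t : ℝ} {v v' f f' : ℂ → ℝ}

private theorem two_le_inf_low : (2 : WithTop ℕ∞) ≤ ∞ :=
  WithTop.coe_le_coe.mpr le_top

private theorem low_hasDeriv (γ t : ℝ) (ht : 0 < t) {x : ℝ} (hx : 0 < x) :
    HasDerivAt (fun y : ℝ => -(γ / 2 * Real.log (2 * (t * y))) - (1 - 2 * (t * y)))
      (-(γ / 2) * x⁻¹ + 2 * t) x := by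
  have h1 : HasDerivAt (fun y : ℝ => 2 * (t * y)) (2 * t) x := by
    have := ((hasDerivAt_id x).const_mul t).const_mul 2
    simpa using this
  have h2 := h1.log (by positivity)
  have h3 := ((h2.const_mul (γ / 2)).neg).sub ((hasDerivAt_const x (1 : ℝ)).sub h1)
  refine h3.congr_deriv ?_
  field_simp
  ring

private theorem low_contDiffAt (γ t : ℝ) (ht : 0 < t) {x : ℝ} (hx : 0 < x) :
    ContDiffAt ℝ 2 (fun y : ℝ => -(γ / 2 * Real.log (2 * (t * y))) - (1 - 2 * (t * y))) x := by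
  have h1 : ContDiffAt ℝ 2 (fun y : ℝ => 2 * (t * y)) x :=
    contDiffAt_const.mul (contDiffAt_const.mul contDiffAt_id)
  have h2 : ContDiffAt ℝ 2 (fun y : ℝ => Real.log (2 * (t * y))) x := h1.log (by positivity)
  exact ((contDiffAt_const.mul h2).neg).sub (contDiffAt_const.sub h1)

private theorem low_deriv2 (γ t : ℝ) (ht : 0 < t) {x : ℝ} (hx : 0 < x) :
    deriv (deriv (fun y : ℝ => -(γ / 2 * Real.log (2 * (t * y))) - (1 - 2 * (t * y)))) x
      = γ / 2 * (x ^ 2)⁻¹ := by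
  have hev : deriv (fun y : ℝ => -(γ / 2 * Real.log (2 * (t * y))) - (1 - 2 * (t * y)))
      =ᶠ[𝓝 x] fun y => -(γ / 2) * y⁻¹ + 2 * t := by
    filter_upwards [lt_mem_nhds hx] with y hy
    exact (low_hasDeriv γ t ht hy).deriv
  rw [hev.deriv_eq]
  have h1 : HasDerivAt (fun y : ℝ => -(γ / 2) * y⁻¹ + 2 * t) (γ / 2 * (x ^ 2)⁻¹) x := by
    have := ((hasDerivAt_inv hx.ne').const_mul (-(γ / 2))).add_const (2 * t)
    refine this.congr_deriv ?_
    ring
  exact h1.deriv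

private theorem low_lap (γ t : ℝ) (ht : 0 < t) {w : ℂ} (hw : w ≠ 0) :
    lap (fun z : ℂ => -(γ / 2 * Real.log (2 * (t * ‖z‖))) - (1 - 2 * (t * ‖z‖))) w
      = 2 * t / ‖w‖ := by
  have hn : 0 < ‖w‖ := norm_pos_iff.mpr hw
  have hr := lap_radial (F := fun y : ℝ => -(γ / 2 * Real.log (2 * (t * y))) - (1 - 2 * (t * y)))
    (a := 0) hw (by simpa using low_contDiffAt γ t ht hn)
  simp only [sub_zero] at hr
  rw [hr, low_deriv2 γ t ht hn, (low_hasDeriv γ t ht hn).deriv]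
  field_simp
  ring

/-- Lower bound in the punctured disc (`ψ = -(γ/2) log 2R - (1-2R)`, `Δψ = 2t²/R`, and where
`0 ≤ v < ψ`: `Δv = 8t² sinh 2v`, `sinh 2ψ ≤ ½ e^{2ψ} ≤ ½ (2R)^{-γ} ≤ 1/(4R)`; so
`Δ(ψ - v) ≥ 8t²(sinh 2ψ - sinh 2v) ≥ 16 t² (ψ - v)`). -/
theorem v_lower_disc (hγ : 0 < γ) (hγ' : γ ≤ 1 / 8) (ht : 1 ≤ t) (h : Sol γ t v) {w : ℂ}
    (hw : w ≠ 0) (hw' : t * ‖w‖ < 1 / 2) :
    -(γ / 2 * Real.log (2 * (t * ‖w‖))) - (1 - 2 * (t * ‖w‖)) ≤ v w := by
  have ht0 : 0 < t := by linarith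
  set ψ : ℂ → ℝ := fun z => -(γ / 2 * Real.log (2 * (t * ‖z‖))) - (1 - 2 * (t * ‖z‖)) with hψ
  have hcont : Continuous fun z : ℂ => t * ‖z‖ := continuous_const.mul continuous_norm
  have hZ0 : ∀ z ∈ ZI, t * ‖z‖ < 1 / 2 → z = 0 := by
    intro z hz hz2
    by_contra hne
    have := one_le_norm_ZI hz hne
    nlinarith
  have h0Z : (0 : ℂ) ∈ ZI := ⟨0, 0, by simp⟩
  have hψc : ∀ z : ℂ, z ≠ 0 → ContDiffAt ℝ 2 ψ z := by
    intro z hz
    have hn : ContDiffAt ℝ 2 (fun z : ℂ => ‖z‖) z := contDiffAt_norm ℝ hz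
    have hn0 : 0 < ‖z‖ := norm_pos_iff.mpr hz
    exact ContDiffAt.comp (g := fun y : ℝ => -(γ / 2 * Real.log (2 * (t * y))) - (1 - 2 * (t * y)))
      (f := fun z : ℂ => ‖z‖) z (low_contDiffAt γ t ht0 hn0) hn
  have hgen := mp_gen (Ω := {z : ℂ | t * ‖z‖ < 1 / 2}) (u := fun z => ψ z - v z)
    (isOpen_lt hcont continuous_const)
    (by
      rintro z ⟨hz1, hz2⟩
      have hz0 : z ≠ 0 := fun h0 => hz2 (h0 ▸ h0Z)
      have hc : ContDiffAt ℝ 2 v z :=
        (h.smooth.contDiffAt (isClosed_ZI.isOpen_compl.mem_nhds hz2)).of_le two_le_inf_low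
      exact ((hψc z hz0).sub hc).contDiffWithinAt)
    (by
      rintro z ⟨hz1, hz2⟩ hpos
      have hz0 : z ≠ 0 := fun h0 => hz2 (h0 ▸ h0Z)
      have hc : ContDiffAt ℝ 2 v z :=
        (h.smooth.contDiffAt (isClosed_ZI.isOpen_compl.mem_nhds hz2)).of_le two_le_inf_low
      have hn0 : 0 < ‖z‖ := norm_pos_iff.mpr hz0
      rw [lap_sub (hψc z hz0) hc, h.pde z hz2, hψ, low_lap γ t ht0 hz0]
      have hpos' : 0 < ψ z - v z := hpos
      have hv0 : 0 ≤ v z := v_nonneg hγ ht h z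
      have hR : 0 < t * ‖z‖ := by positivity
      have hR2 : t * ‖z‖ < 1 / 2 := hz1
      have hlog : Real.log (2 * (t * ‖z‖)) ≤ 0 := Real.log_nonpos (by positivity) (by linarith)
      have hexp : Real.exp (2 * ψ z) ≤ (2 * (t * ‖z‖))⁻¹ := by
        rw [← Real.exp_log (show 0 < (2 * (t * ‖z‖))⁻¹ by positivity), Real.log_inv]
        apply Real.exp_le_exp.mpr
        show 2 * (-(γ / 2 * Real.log (2 * (t * ‖z‖))) - (1 - 2 * (t * ‖z‖))) ≤ _
        nlinarith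
      have hs1 : Real.sinh (2 * ψ z) ≤ (4 * (t * ‖z‖))⁻¹ := by
        have : Real.sinh (2 * ψ z) ≤ Real.exp (2 * ψ z) / 2 := by
          rw [Real.sinh_eq]
          have := Real.exp_pos (-(2 * ψ z))
          linarith
        have e : (4 * (t * ‖z‖))⁻¹ = (2 * (t * ‖z‖))⁻¹ / 2 := by
          rw [show 4 * (t * ‖z‖) = (2 * (t * ‖z‖)) * 2 by ring, mul_inv]
          ring
        rw [e]
        linarith
      have hs2 : 2 * ψ z - 2 * v z ≤ Real.sinh (2 * ψ z) - Real.sinh (2 * v z) := by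
        have h := (Real.sinh_sub_id_strictMono.monotone (show 2 * v z ≤ 2 * ψ z by linarith))
        have h' : Real.sinh (2 * v z) - 2 * v z ≤ Real.sinh (2 * ψ z) - 2 * ψ z := h
        linarith
      have ht2 : 1 ≤ t ^ 2 := by nlinarith
      have e2 : 2 * t / ‖z‖ = 8 * t ^ 2 * (4 * (t * ‖z‖))⁻¹ := by
        field_simp
        ring
      rw [e2]
      show 16 * (ψ z - v z) ≤ _
      have h3 : 8 * t ^ 2 * Real.sinh (2 * ψ z) ≤ 8 * t ^ 2 * (4 * (t * ‖z‖))⁻¹ :=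
        mul_le_mul_of_nonneg_left hs1 (by positivity)
      have h4 : 8 * t ^ 2 * (2 * ψ z - 2 * v z) ≤
          8 * t ^ 2 * (Real.sinh (2 * ψ z) - Real.sinh (2 * v z)) :=
        mul_le_mul_of_nonneg_left hs2 (by positivity)
      have h5 : 1 * (ψ z - v z) ≤ t ^ 2 * (ψ z - v z) :=
        mul_le_mul_of_nonneg_right ht2 hpos'.le
      linarith)
    (by
      intro ζ hζ ε hε
      have hfr := frontier_lt_subset_eq hcont continuous_const hζ
      have hfr' : t * ‖ζ‖ = 1 / 2 := hfr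
      have hζ0 : ζ ≠ 0 := by
        intro h0
        rw [h0] at hfr'
        norm_num at hfr'
      have hval : ψ ζ = 0 := by
        rw [hψ]
        simp only [hfr']
        norm_num
      have hev : ∀ᶠ z in 𝓝 ζ, ψ z < ε :=
        (hψc ζ hζ0).continuousAt.eventually (gt_mem_nhds (by rw [hval]; exact hε))
      refine (hev.filter_mono nhdsWithin_le_nhds).mono ?_
      intro z hz
      show ψ z - v z < ε
      have := v_nonneg hγ ht h z
      linarith)
    (by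
      rintro l ⟨hl1, hl2⟩ ε hε
      have hl0 := hZ0 l hl2 hl1
      subst hl0
      obtain ⟨L, hL⟩ := h.sing
      have h1 : ∀ᶠ z in 𝓝[≠] (0 : ℂ), L - 1 < v z + γ * Real.log ‖z‖ :=
        hL.eventually (lt_mem_nhds (by linarith))
      have hlog : Tendsto (fun z : ℂ => Real.log ‖z‖) (𝓝[≠] (0 : ℂ)) atBot :=
        Real.tendsto_log_nhdsGT_zero.comp
          (tendsto_norm_nhdsNE_zero)
      have h2 : ∀ᶠ z in 𝓝[≠] (0 : ℂ), Real.log ‖z‖ ≤
          min 0 ((L - 1 + γ / 2 * Real.log (2 * t)) / (γ / 2)) :=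
        hlog.eventually (eventually_le_atBot _)
      have h3 : ∀ᶠ z in 𝓝[≠] (0 : ℂ), t * ‖z‖ < 1 / 2 := by
        have : ∀ᶠ z in 𝓝 (0 : ℂ), t * ‖z‖ < 1 / 2 :=
          hcont.continuousAt.eventually (gt_mem_nhds (by norm_num))
        exact this.filter_mono nhdsWithin_le_nhds
      filter_upwards [h1, h2, h3, self_mem_nhdsWithin] with z hz1 hz2 hz3 hz4
      have hz0 : z ≠ 0 := hz4
      have hn0 : 0 < ‖z‖ := norm_pos_iff.mpr hz0
      have ha := hz2.trans (min_le_left _ _)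
      have hb := hz2.trans (min_le_right _ _)
      rw [le_div_iff₀ (by positivity)] at hb
      rw [sub_zero]
      have hsplit : Real.log (2 * (t * ‖z‖)) = Real.log (2 * t) + Real.log ‖z‖ := by
        rw [show 2 * (t * ‖z‖) = (2 * t) * ‖z‖ by ring,
          Real.log_mul (by positivity) hn0.ne']
      show ψ z - v z ≤ _
      have e : ψ z = -(γ / 2 * Real.log (2 * (t * ‖z‖))) - (1 - 2 * (t * ‖z‖)) := rfl
      rw [e, hsplit]
      have hε2 : 0 ≤ -(ε * Real.log ‖z‖) := by nlinarith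
      nlinarith)
    (by
      intro ε hε
      refine ⟨Metric.closedBall 0 (1 / 2 / t), isCompact_closedBall _ _, ?_⟩
      rintro z ⟨hz1, hz2⟩ _
      refine ⟨0, h0Z, ⟨?_, ?_⟩, ?_⟩
      · rw [add_zero, Metric.mem_closedBall, dist_zero_right, le_div_iff₀ ht0, mul_comm]
        exact le_of_lt hz1
      · rw [add_zero]; exact hz1
      · rw [add_zero])
  have hwZ : w ∉ ZI := fun hz => hw (hZ0 w hz hw')
  have := hgen w ⟨hw', hwZ⟩
  have h2 : ψ w - v w ≤ 0 := this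
  have e : ψ w = -(γ / 2 * Real.log (2 * (t * ‖w‖))) - (1 - 2 * (t * ‖w‖)) := rfl
  rw [← e]
  linarith

/-- `v ≥ 1` for `R ≤ ρ₀ = ½ e^{-4/γ}` -/
theorem one_le_v (hγ : 0 < γ) (hγ' : γ ≤ 1 / 8) (ht : 1 ≤ t) (h : Sol γ t v) {w : ℂ}
    (hw : w ≠ 0) (hw' : t * ‖w‖ ≤ Real.exp (-(4 / γ)) / 2) : 1 ≤ v w := by
  have ht0 : 0 < t := by linarith
  have hn0 : 0 < ‖w‖ := norm_pos_iff.mpr hw
  have hR : 0 < t * ‖w‖ := by positivity
  have h4 : 0 < 4 / γ := by positivity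
  have he1 : Real.exp (-(4 / γ)) < 1 := by
    rw [Real.exp_lt_one_iff]
    linarith
  have h1 := v_lower_disc hγ hγ' ht h hw (by linarith)
  have h2 : Real.log (2 * (t * ‖w‖)) ≤ -(4 / γ) := by
    rw [Real.log_le_iff_le_exp (by positivity)]
    linarith
  have h3 : γ / 2 * Real.log (2 * (t * ‖w‖)) ≤ -2 := by
    have := mul_le_mul_of_nonneg_left h2 (show 0 ≤ γ / 2 by positivity)
    have e : γ / 2 * -(4 / γ) = -2 := by field_simp; ring
    linarith
  linarith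

end GM16
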