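import Pool.Agent.LibGM16.Om0
import Pool.Agent.LibGM16.CalcD

open Complex MeasureTheory Filter Topology Matrix
open scoped ContDiff Real ComplexOrder

namespace GM16

variable {γ t : ℝ} {v v' f f' : ℂ → ℝ}

private theorem ZI_sub_aux {a b : ℂ} (ha : a + b ∈ ZI) (hb : b ∈ ZI) : a ∈ ZI := by
  have := ZI_add ha (ZI_neg hb)
  simpa using this

/-- The general maximum principle. Proof: otherwise `g = u - ε om0` has a positive value for small
`ε`; `g → -∞` at the lattice points of `Ω`; by `hbd`, `hinf` the supremum of `g` over `Ω \ ZI` is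
attained at a point `w` of `Ω \ ZI`, where `lap u ≥ 16 u > 16 ε om0 ≥ ε lap om0`, a contradiction to
`lap_nonpos_of_isLocalMax`. -/
theorem mp_gen {Ω : Set ℂ} (hΩ : IsOpen Ω) {u : ℂ → ℝ} (hu : ContDiffOn ℝ 2 u (Ω \ ZI))
    (hpos : ∀ w ∈ Ω \ ZI, 0 < u w → 16 * u w ≤ lap u w)
    (hbd : ∀ ζ ∈ frontier Ω, ∀ ε > 0, ∀ᶠ w in 𝓝[Ω \ ZI] ζ, u w < ε)
    (hlat : ∀ l ∈ Ω ∩ ZI, ∀ ε > 0, ∀ᶠ w in 𝓝[≠] l, u w ≤ -(ε * Real.log ‖w - l‖))
    (hinf : ∀ ε > 0, ∃ K : Set ℂ, IsCompact K ∧ ∀ w ∈ Ω \ ZI, ε ≤ u w →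
      ∃ n ∈ ZI, w + n ∈ K ∩ Ω ∧ u (w + n) = u w) :
    ∀ w ∈ Ω \ ZI, u w ≤ 0 := by
  by_contra hcon
  push Not at hcon
  obtain ⟨w0, hw0, hu0⟩ := hcon
  have hO : IsOpen (Ω \ ZI) := hΩ.sdiff isClosed_ZI
  have hom0 : 0 < om0 w0 := lt_of_lt_of_le (by norm_num) (om0_ge w0)
  set e : ℝ := u w0 / (2 * om0 w0) with he
  have hepos : 0 < e := by positivity
  set g : ℂ → ℝ := fun w => u w - e * om0 w with hg
  set m : ℝ := u w0 / 2 with hm
  have hmpos : 0 < m := by positivity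
  have hgw0 : g w0 = m := by
    simp only [hg, he, hm]
    field_simp
    ring
  set S : Set ℂ := {w | w ∈ Ω \ ZI ∧ m ≤ g w} with hS
  have hSu : ∀ w ∈ S, m ≤ u w := by
    intro w hw
    have h1 : m ≤ u w - e * om0 w := hw.2
    have h2 := om0_ge w
    nlinarith
  have hucd : ∀ w ∈ Ω \ ZI, ContDiffAt ℝ 2 u w := fun w hw =>
    hu.contDiffAt (hO.mem_nhds hw)
  have homcd : ∀ w ∈ Ω \ ZI, ContDiffAt ℝ 2 om0 w := fun w hw =>
    (om0_smooth.contDiffAt (isClosed_ZI.isOpen_compl.mem_nhds hw.2)).of_le (WithTop.coe_le_coe.mpr le_top)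
  have hgc : ∀ w ∈ Ω \ ZI, ContinuousAt g w := fun w hw =>
    ((hucd w hw).continuousAt).sub (continuousAt_const.mul (homcd w hw).continuousAt)
  have omp : ∀ n ∈ ZI, ∀ w, om0 (w + n) = om0 w := fun n hn w =>
    per_ZI (fun w => (om0_per w).1) (fun w => (om0_per w).2) hn w
  obtain ⟨K, hK, hKS⟩ := hinf m hmpos
  have hmove : ∀ w ∈ S, ∃ w' ∈ K ∩ S, g w' = g w := by
    intro w hw
    obtain ⟨n, hn, hwn, hun⟩ := hKS w hw.1 (hSu w hw)
    have hgn : g (w + n) = g w := by simp only [hg]; rw [hun, omp n hn]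
    refine ⟨w + n, ⟨hwn.1, ⟨hwn.2, ?_⟩, ?_⟩, hgn⟩
    · intro h
      exact hw.1.2 (ZI_sub_aux h hn)
    · rw [hgn]; exact hw.2
  -- `K ∩ S` is closed
  have hclosed : IsClosed (K ∩ S) := by
    rw [← closure_subset_iff_isClosed]
    intro ζ hζ
    have hζK : ζ ∈ K := hK.isClosed.closure_subset_iff.mpr Set.inter_subset_left hζ
    have hfr : ∃ᶠ w in 𝓝 ζ, w ∈ K ∩ S := mem_closure_iff_frequently.mp hζ
    have hfrS : ∃ᶠ w in 𝓝 ζ, w ∈ S := hfr.mono fun w hw => hw.2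
    refine ⟨hζK, ?_⟩
    by_cases hζΩ : ζ ∈ Ω
    · by_cases hζZ : ζ ∈ ZI
      · exfalso
        obtain ⟨C, hC⟩ := om0_near hζZ
        have h1 := hlat ζ ⟨hζΩ, hζZ⟩ (e / 2) (by positivity)
        have h2 : Tendsto (fun w : ℂ => ‖w - ζ‖) (𝓝[≠] ζ) (𝓝[>] 0) := by
          rw [tendsto_nhdsWithin_iff]
          constructor
          · have : Tendsto (fun w : ℂ => ‖w - ζ‖) (𝓝 ζ) (𝓝 ‖ζ - ζ‖) :=
              (continuous_id.sub continuous_const).norm.continuousAt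
            simp only [sub_self, norm_zero] at this
            exact this.mono_left nhdsWithin_le_nhds
          · filter_upwards [self_mem_nhdsWithin] with w hw
            exact norm_pos_iff.mpr (sub_ne_zero.mpr hw)
        have h3 : Tendsto (fun w : ℂ => Real.log ‖w - ζ‖) (𝓝[≠] ζ) atBot :=
          Real.tendsto_log_nhdsGT_zero.comp h2
        have h4 : ∀ᶠ w in 𝓝[≠] ζ, Real.log ‖w - ζ‖ < -(2 * C) :=
          h3.eventually (eventually_lt_atBot _)
        have h5 : ∀ᶠ w in 𝓝[≠] ζ, ¬ (w ∈ S) := by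
          filter_upwards [h1, hC, h4] with w a1 a2 a3 hwS
          have a4 : m ≤ u w - e * om0 w := hwS.2
          have a5 : e * (-Real.log ‖w - ζ‖ - C) ≤ e * om0 w := mul_le_mul_of_nonneg_left a2 hepos.le
          have a6 : e / 2 * Real.log ‖w - ζ‖ < e / 2 * (-(2 * C)) :=
            mul_lt_mul_of_pos_left a3 (by positivity)
          nlinarith
        rw [eventually_nhdsWithin_iff] at h5
        obtain ⟨w, hwS, hw⟩ := (hfrS.and_eventually h5).exists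
        exact hw (fun h => hwS.1.2 (by rw [h]; exact hζZ)) hwS
      · refine ⟨⟨hζΩ, hζZ⟩, ?_⟩
        by_contra hlt
        push Not at hlt
        have h1 : ∀ᶠ w in 𝓝 ζ, g w < m := (hgc ζ ⟨hζΩ, hζZ⟩).eventually (eventually_lt_nhds hlt)
        obtain ⟨w, hwS, hw⟩ := (hfrS.and_eventually h1).exists
        exact absurd hwS.2 (not_le.mpr hw)
    · exfalso
      have hcl : ζ ∈ closure Ω :=
        mem_closure_iff_frequently.mpr (hfrS.mono fun w hw => hw.1.1)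
      have hfro : ζ ∈ frontier Ω := by
        rw [hΩ.frontier_eq]; exact ⟨hcl, hζΩ⟩
      have h1 := hbd ζ hfro m hmpos
      rw [eventually_nhdsWithin_iff] at h1
      obtain ⟨w, hwS, hw⟩ := (hfrS.and_eventually h1).exists
      exact absurd (hw hwS.1) (not_lt.mpr (hSu w hwS))
  have hcomp : IsCompact (K ∩ S) := by
    have : K ∩ S = K ∩ (K ∩ S) := by rw [← Set.inter_assoc, Set.inter_self]
    rw [this]; exact hK.inter_right hclosed
  have hw0S : w0 ∈ S := ⟨hw0, hgw0.ge⟩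
  obtain ⟨w0', hw0', -⟩ := hmove w0 hw0S
  obtain ⟨w1, hw1, hmax⟩ := hcomp.exists_isMaxOn ⟨w0', hw0'⟩
    (fun w hw => (hgc w hw.2.1).continuousWithinAt)
  have hw1O : w1 ∈ Ω \ ZI := hw1.2.1
  have hmax' : ∀ w ∈ Ω \ ZI, g w ≤ g w1 := by
    intro w hw
    by_cases hwm : m ≤ g w
    · obtain ⟨w', hw', hgw'⟩ := hmove w ⟨hw, hwm⟩
      rw [← hgw']
      exact hmax hw'
    · exact (not_le.mp hwm).le.trans hw1.2.2
  have hloc : IsLocalMax g w1 := by
    filter_upwards [hO.mem_nhds hw1O] with w hw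
    exact hmax' w hw
  have hg2 : ContDiffAt ℝ 2 (fun z => e * om0 z) w1 := contDiffAt_const.mul (homcd w1 hw1O)
  have hlapg : lap g w1 = lap u w1 - e * lap om0 w1 := by
    rw [hg, lap_sub (hucd w1 hw1O) hg2, lap_const_mul e (homcd w1 hw1O)]
  have hle := lap_nonpos_of_isLocalMax ((hucd w1 hw1O).sub hg2 : ContDiffAt ℝ 2 g w1) hloc
  have hupos : m ≤ u w1 := hSu w1 hw1.2
  have h16 := hpos w1 hw1O (lt_of_lt_of_le hmpos hupos)
  have hlo := (lap_om0 hw1O.2).2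
  have hge : m ≤ u w1 - e * om0 w1 := hw1.2.2
  have hlo' : e * lap om0 w1 ≤ e * (16 * om0 w1) := mul_le_mul_of_nonneg_left hlo hepos.le
  rw [hlapg] at hle
  nlinarith

end GM16
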