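import Pool.Agent.LibGM16.MPgen

open Complex MeasureTheory Filter Topology Matrix
open scoped ContDiff Real ComplexOrder

namespace GM16

variable {γ t : ℝ} {v v' f f' : ℂ → ℝ}

private theorem isCompact_QQ_mpper : IsCompact QQ := by
  have hcl : IsClosed QQ := by
    have h1 : IsClosed {w : ℂ | |w.re| ≤ 1 / 2} :=
      isClosed_le (Complex.continuous_re.abs) continuous_const
    have h2 : IsClosed {w : ℂ | |w.im| ≤ 1 / 2} :=
      isClosed_le (Complex.continuous_im.abs) continuous_const
    exact h1.inter h2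
  refine Metric.isCompact_of_isClosed_isBounded hcl ?_
  refine (Metric.isBounded_closedBall (x := (0 : ℂ)) (r := 1)).subset ?_
  intro w hw
  rw [mem_closedBall_zero_iff]
  have := Complex.norm_le_abs_re_add_abs_im w
  have h1 := hw.1
  have h2 := hw.2
  linarith

/-- The case of periodic functions on the whole plane. -/
theorem mp_per {u : ℂ → ℝ} (hu : ContDiffOn ℝ 2 u ZIᶜ)
    (h1 : ∀ w, u (w + 1) = u w) (h2 : ∀ w, u (w + I) = u w)
    (hpos : ∀ w ∉ ZI, 0 < u w → 16 * u w ≤ lap u w)
    (hlat : ∀ ε > 0, ∀ᶠ w in 𝓝[≠] (0 : ℂ), u w ≤ -(ε * Real.log ‖w‖)) :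
    ∀ w ∉ ZI, u w ≤ 0 := by
  have key := mp_gen (Ω := Set.univ) isOpen_univ (u := u)
    (by rw [← Set.compl_eq_univ_sdiff]; exact hu)
    (fun w hw => hpos w hw.2)
    (by intro ζ hζ; simp at hζ)
    (by
      intro l hl ε hε
      have h0 := hlat ε hε
      have ht : Tendsto (fun w : ℂ => w - l) (𝓝[≠] l) (𝓝[≠] 0) := by
        rw [tendsto_nhdsWithin_iff]
        constructor
        · have : Tendsto (fun w : ℂ => w - l) (𝓝 l) (𝓝 (l - l)) :=
            (continuous_id.sub continuous_const).continuousAt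
          rw [sub_self] at this
          exact this.mono_left nhdsWithin_le_nhds
        · filter_upwards [self_mem_nhdsWithin] with w hw
          exact sub_ne_zero.mpr hw
      filter_upwards [ht.eventually h0] with w hw
      have : u (w - l + l) = u (w - l) := per_ZI h1 h2 hl.2 (w - l)
      rw [sub_add_cancel] at this
      rw [this]; exact hw)
    (by
      intro ε hε
      refine ⟨QQ, isCompact_QQ_mpper, ?_⟩
      intro w hw _
      obtain ⟨n, hn, hwn⟩ := exists_ZI_add_mem_QQ w
      exact ⟨n, hn, ⟨hwn, Set.mem_univ _⟩, per_ZI h1 h2 hn w⟩)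
  intro w hw
  exact key w ⟨Set.mem_univ _, hw⟩

end GM16
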