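import Pool.Agent.LibGM16.Defs

open Complex MeasureTheory Filter Topology Matrix
open scoped ContDiff Real ComplexOrder

namespace GM16

variable {γ t : ℝ} {v v' f f' : ℂ → ℝ}

section
open scoped MatrixOrder

theorem uc_fac {h : Mat} (hh : h.PosDef) : ∃ B : Mat, IsUnit B.det ∧ h = Bᴴ * B := by
  obtain ⟨B, hB⟩ := CStarAlgebra.nonneg_iff_eq_star_mul_self.mp hh.posSemidef.nonneg
  refine ⟨B, ?_, hB⟩
  have h1 := hh.det_pos.ne'
  rw [hB, Matrix.star_eq_conjTranspose, Matrix.det_mul] at h1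
  exact isUnit_iff_ne_zero.mpr (right_ne_zero_of_mul h1)

end

/-- `tr(Y k⁻¹ Y^† h) ≥ 0` with equality only for `Y = 0` -/
theorem uc_aux {h k Y : Mat} (hh : h.PosDef) (hk : k.PosDef) :
    0 ≤ ((Y * k⁻¹ * Yᴴ * h).trace).re ∧ (((Y * k⁻¹ * Yᴴ * h).trace).re = 0 → Y = 0) := by
  have hki : k⁻¹.PosDef := hk.inv
  -- h = Bᴴ B with B invertible
  obtain ⟨B, hB, hBh⟩ := uc_fac hh
  have e : (Y * k⁻¹ * Yᴴ * h).trace = ((B * Y) * k⁻¹ * (B * Y)ᴴ).trace := by
    rw [hBh, Matrix.conjTranspose_mul, ← mul_assoc (Y * k⁻¹ * Yᴴ), Matrix.trace_mul_comm]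
    simp only [mul_assoc]
  have hp : ((B * Y) * k⁻¹ * (B * Y)ᴴ).PosSemidef := hki.posSemidef.mul_mul_conjTranspose_same _
  rw [e]
  refine ⟨?_, fun h0 => ?_⟩
  · have := hp.trace_nonneg
    exact (Complex.le_def.mp this).1
  · have h1 := hp.trace_nonneg
    have h2 : ((B * Y) * k⁻¹ * (B * Y)ᴴ).trace = 0 := by
      apply Complex.ext
      · exact h0
      · exact ((Complex.le_def.mp h1).2).symm
    have h3 : (B * Y) * k⁻¹ * (B * Y)ᴴ = 0 := hp.trace_eq_zero_iff.mp h2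
    have h4 : B * Y = 0 := by
      by_contra hne
      have : ∃ x : Fin 2 → ℂ, (B * Y)ᴴ *ᵥ x ≠ 0 := by
        by_contra hall
        push Not at hall
        apply hne
        have hz : (B * Y)ᴴ = 0 := by
          generalize (B * Y)ᴴ = W at hall ⊢
          ext i j
          have := congrFun (hall (Pi.single j 1)) i
          simpa using this
        have h5 := congrArg Matrix.conjTranspose hz
        rwa [Matrix.conjTranspose_conjTranspose, Matrix.conjTranspose_zero] at h5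
      obtain ⟨x, hx⟩ := this
      have hpos := hki.dotProduct_mulVec_pos hx
      have : star ((B * Y)ᴴ *ᵥ x) ⬝ᵥ (k⁻¹ *ᵥ ((B * Y)ᴴ *ᵥ x)) = 0 := by
        rw [Matrix.star_mulVec, Matrix.conjTranspose_conjTranspose, Matrix.mulVec_mulVec,
          ← Matrix.dotProduct_mulVec, Matrix.mulVec_mulVec, ← mul_assoc, h3]
        simp
      rw [this] at hpos
      exact lt_irrefl _ hpos
    have := congrArg (fun M => B⁻¹ * M) h4
    simp only [mul_zero] at this
    rwa [← mul_assoc, Matrix.nonsing_inv_mul B hB, one_mul] at this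

/-- Positivity: `tr(Y s⁻¹ Y*) ≥ 0`, and it vanishes only for `Y = 0`; here `Y*` is the `h`-adjoint and
`s = h⁻¹ k`. -/
theorem trace_pos {h k Y : Mat} (hh : h.PosDef) (hk : k.PosDef) :
    0 ≤ ((Y * (h⁻¹ * k)⁻¹ * hadj h Y).trace).re ∧
    (((Y * (h⁻¹ * k)⁻¹ * hadj h Y).trace).re = 0 → Y = 0) := by
  have h0 : IsUnit h.det := isUnit_iff_ne_zero.mpr hh.det_pos.ne'
  have e : Y * (h⁻¹ * k)⁻¹ * hadj h Y = Y * k⁻¹ * Yᴴ * h := by
    unfold hadj
    rw [Matrix.mul_inv_rev, Matrix.nonsing_inv_nonsing_inv h h0]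
    simp only [mul_assoc]
    rw [← mul_assoc h h⁻¹, Matrix.mul_nonsing_inv h h0, one_mul]
  rw [e]
  exact uc_aux hh hk

theorem trace_pos' {h Y : Mat} (hh : h.PosDef) :
    0 ≤ ((Y * hadj h Y).trace).re ∧ (((Y * hadj h Y).trace).re = 0 → Y = 0) := by
  have e : Y * hadj h Y = Y * h⁻¹ * Yᴴ * h := by
    unfold hadj
    simp only [mul_assoc]
  rw [e]
  exact uc_aux hh hh

end GM16
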