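import Pool.Agent.LibGM16.UX

open Complex MeasureTheory Filter Topology Matrix
open scoped ContDiff Real ComplexOrder

namespace GM16

variable {γ t : ℝ} {v v' f f' : ℂ → ℝ}

theorem isOpen_U_of_valid {E : ParHiggs} (hE : E.Valid) : IsOpen E.U := by
  have : E.U = (E.D)ᶜ := rfl
  rw [this]
  exact hE.finite.isClosed.isOpen_compl

theorem smooth_at {E : ParHiggs} (hE : E.Valid) {f : ℂ → Mat}
    (hf : ∀ i j, ContDiffOn ℝ ∞ (fun z => f z i j) E.U) {z : ℂ} (hz : z ∈ E.U) : Sm ∞ f z :=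
  fun i j => (hf i j).contDiffAt ((isOpen_U_of_valid hE).mem_nhds hz)

/-- the algebra behind `lap_trace` -/
theorem alg1 (h k A : Mat) (hh : h.IsHermitian) (hk : k.IsHermitian) (h0 : IsUnit h.det)
    (k0 : IsUnit k.det) :
    ((h⁻¹ * k) * ((A * hadj k A - hadj k A * A) - (A * hadj h A - hadj h A * A))).trace =
      ((((h⁻¹ * k) * A - A * (h⁻¹ * k)) * (h⁻¹ * k)⁻¹ *
          hadj h ((h⁻¹ * k) * A - A * (h⁻¹ * k)))).trace := by
  set s := h⁻¹ * k with hs
  set B := hadj h A with hB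
  have i1 : h⁻¹ * h = 1 := Matrix.nonsing_inv_mul h h0
  have i2 : h * h⁻¹ = 1 := Matrix.mul_nonsing_inv h h0
  have i3 : k⁻¹ * k = 1 := Matrix.nonsing_inv_mul k k0
  have i4 : k * k⁻¹ = 1 := Matrix.mul_nonsing_inv k k0
  have hsinv : s⁻¹ = k⁻¹ * h := by
    rw [hs, Matrix.mul_inv_rev, Matrix.nonsing_inv_nonsing_inv h h0]
  have s1 : s⁻¹ * s = 1 := by
    rw [hsinv, hs, mul_assoc, ← mul_assoc h, i2, one_mul, i3]
  have s2 : s * s⁻¹ = 1 := by
    rw [hsinv, hs, mul_assoc, ← mul_assoc k, i4, one_mul, i1]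
  have hBk : hadj k A = s⁻¹ * B * s := by
    rw [hsinv, hB, hs]
    unfold hadj
    simp only [mul_assoc]
    rw [← mul_assoc h h⁻¹, i2, one_mul, ← mul_assoc h h⁻¹, i2, one_mul]
  have hY : hadj h (s * A - A * s) = B * s - s * B := by
    have hsH : sᴴ = k * h⁻¹ := by
      rw [hs, Matrix.conjTranspose_mul, hk.eq, Matrix.conjTranspose_nonsing_inv, hh.eq]
    have e0 : hadj h (s * A - A * s) = h⁻¹ * (Aᴴ * sᴴ - sᴴ * Aᴴ) * h := by
      unfold hadj
      rw [Matrix.conjTranspose_sub, Matrix.conjTranspose_mul s A, Matrix.conjTranspose_mul A s]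
    rw [e0, hsH, hB, hs]
    unfold hadj
    simp only [mul_sub, sub_mul, mul_assoc]
    rw [i1, mul_one, ← mul_assoc h h⁻¹, i2, one_mul]
  clear_value s B
  rw [hBk, hY]
  have e1 : ((s * A - A * s) * s⁻¹ * (B * s - s * B)).trace =
      (s * A * s⁻¹ * B * s).trace - (s * A * B).trace - (A * B * s).trace + (A * s * B).trace := by
    have : (s * A - A * s) * s⁻¹ * (B * s - s * B) =
        s * A * s⁻¹ * B * s - s * A * B - A * B * s + A * s * B := by
      simp only [mul_sub, sub_mul, mul_assoc]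
      rw [← mul_assoc s⁻¹ s B, s1, one_mul, ← mul_assoc s s⁻¹ (B * s), s2, one_mul]
      abel
    rw [this]
    simp only [Matrix.trace_sub, Matrix.trace_add]
  have e2 : (s * (A * (s⁻¹ * B * s) - s⁻¹ * B * s * A - (A * B - B * A))).trace =
      (s * A * s⁻¹ * B * s).trace - (B * s * A).trace - (s * A * B).trace + (s * B * A).trace := by
    have : s * (A * (s⁻¹ * B * s) - s⁻¹ * B * s * A - (A * B - B * A)) =
        s * A * s⁻¹ * B * s - B * s * A - s * A * B + s * B * A := by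
      simp only [mul_sub, mul_assoc]
      rw [← mul_assoc s s⁻¹ (B * (s * A)), s2, one_mul]
      abel
    rw [this]
    simp only [Matrix.trace_sub, Matrix.trace_add]
  rw [e1, e2]
  have c1 : (B * s * A).trace = (A * B * s).trace := by
    rw [Matrix.trace_mul_comm (B * s) A, mul_assoc]
  have c2 : (s * B * A).trace = (A * s * B).trace := by
    rw [Matrix.trace_mul_comm (s * B) A, mul_assoc]
  rw [c1, c2]
  ring

/-- `¼ Δ tr(s) = tr(s_z̄ s⁻¹ (s_z̄)*) + t² tr([s,A] s⁻¹ [s,A]*)` for two harmonic metrics, `s = h⁻¹k`. -/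
theorem lap_trace {E : ParHiggs} (hE : E.Valid) {h k : ℂ → Mat} (hh : E.Harmonic t h)
    (hk : E.Harmonic t k) {z : ℂ} (hz : z ∈ E.U) :
    lap (fun w => (((h w)⁻¹ * k w).trace).re) z =
      4 * (((mdzb (fun w => (h w)⁻¹ * k w) z * ((h z)⁻¹ * k z)⁻¹ *
          hadj (h z) (mdzb (fun w => (h w)⁻¹ * k w) z)).trace).re +
        t ^ 2 * (((((h z)⁻¹ * k z) * E.A z - E.A z * ((h z)⁻¹ * k z)) * ((h z)⁻¹ * k z)⁻¹ *
          hadj (h z) (((h z)⁻¹ * k z) * E.A z - E.A z * ((h z)⁻¹ * k z))).trace).re) := by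
  have hU := isOpen_U_of_valid hE
  have hUz := hU.mem_nhds hz
  have smh : ∀ w ∈ E.U, Sm ∞ h w := fun w hw => smooth_at hE hh.smooth hw
  have smk : ∀ w ∈ E.U, Sm ∞ k w := fun w hw => smooth_at hE hk.smooth hw
  have dh : ∀ w ∈ E.U, (h w).det ≠ 0 := fun w hw => by rw [hh.det w hw]; exact one_ne_zero
  have dk : ∀ w ∈ E.U, (k w).det ≠ 0 := fun w hw => by rw [hk.det w hw]; exact one_ne_zero
  have uh : ∀ w ∈ E.U, IsUnit (h w).det := fun w hw => isUnit_iff_ne_zero.mpr (dh w hw)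
  have uk : ∀ w ∈ E.U, IsUnit (k w).det := fun w hw => isUnit_iff_ne_zero.mpr (dk w hw)
  have Hh : ∀ w ∈ E.U, (h w).IsHermitian := fun w hw => (hh.posDef w hw).isHermitian
  have Hk : ∀ w ∈ E.U, (k w).IsHermitian := fun w hw => (hk.posDef w hw).isHermitian
  have smhi : ∀ w ∈ E.U, Sm ∞ (fun w => (h w)⁻¹) w := fun w hw => (smh w hw).inv (dh w hw)
  have smki : ∀ w ∈ E.U, Sm ∞ (fun w => (k w)⁻¹) w := fun w hw => (smk w hw).inv (dk w hw)
  set s : ℂ → Mat := fun w => (h w)⁻¹ * k w with hs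
  have sms : ∀ w ∈ E.U, Sm ∞ s w := fun w hw => (smhi w hw).mul (smk w hw)
  have sm1 : ∀ {f : ℂ → Mat} {w : ℂ}, Sm ∞ f w → Sm ∞ (mdz f) w := fun hf =>
    Sm.mdz (n := ∞) (by simpa using hf)
  have smθh : ∀ w ∈ E.U, Sm ∞ (fun w => (h w)⁻¹ * mdz h w) w := fun w hw =>
    (smhi w hw).mul (sm1 (smh w hw))
  have smθk : ∀ w ∈ E.U, Sm ∞ (fun w => (k w)⁻¹ * mdz k w) w := fun w hw =>
    (smki w hw).mul (sm1 (smk w hw))
  have ne0 : (∞ : WithTop ℕ∞) ≠ 0 := by simp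
  -- first derivative
  have ms : ∀ w ∈ E.U, mdz s w = s w * ((k w)⁻¹ * mdz k w) - ((h w)⁻¹ * mdz h w) * s w := by
    intro w hw
    have e := (mdz_mul (f := fun w => (h w)⁻¹) (g := k) ((smhi w hw).diff ne0)
      ((smk w hw).diff ne0)).1
    rw [(mdz_inv ((smh w hw).diff ne0) (dh w hw)).1] at e
    show mdz (fun w => (h w)⁻¹ * k w) w = _
    rw [e, hs]
    have : (h w)⁻¹ * k w * ((k w)⁻¹ * mdz k w) = (h w)⁻¹ * mdz k w := by
      rw [mul_assoc, ← mul_assoc (k w), Matrix.mul_nonsing_inv _ (uk w hw), one_mul]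
    rw [this]
    simp only [neg_mul, mul_assoc]
    abel
  have tr1 : ∀ w ∈ E.U, dz (fun w => (s w).trace) w =
      (s w * ((k w)⁻¹ * mdz k w - (h w)⁻¹ * mdz h w)).trace := by
    intro w hw
    rw [(dz_trace ((sms w hw).diff ne0)).1, ms w hw, mul_sub, Matrix.trace_sub, Matrix.trace_sub,
      Matrix.trace_mul_comm ((h w)⁻¹ * mdz h w) (s w)]
  have smF : ContDiffAt ℝ 2 (fun w => (s w).trace) z := by
    have := (sms z hz)
    simp only [Matrix.trace_fin_two]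
    exact ((this 0 0).add (this 1 1)).of_le (by norm_cast)
  rw [lap_re smF]
  have e2 : dz (fun w => (s w).trace) =ᶠ[𝓝 z] fun w =>
      (s w * ((k w)⁻¹ * mdz k w - (h w)⁻¹ * mdz h w)).trace := by
    filter_upwards [hUz] with w hw using tr1 w hw
  have smd : Sm ∞ (fun w => (k w)⁻¹ * mdz k w - (h w)⁻¹ * mdz h w) z :=
    (smθk z hz).sub (smθh z hz)
  have smp : Sm ∞ (fun w => s w * ((k w)⁻¹ * mdz k w - (h w)⁻¹ * mdz h w)) z :=
    (sms z hz).mul smd
  rw [(dz_congr e2).2, (dz_trace (smp.diff ne0)).2,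
    (mdz_mul ((sms z hz).diff ne0) (smd.diff ne0)).2,
    (mdz_sub ((smθk z hz).diff ne0) ((smθh z hz).diff ne0)).2, hk.eq z hz, hh.eq z hz]
  -- adjoint of `mdzb s`
  have hadjs : hadj (h z) (mdzb s z) = s z * ((k z)⁻¹ * mdz k z - (h z)⁻¹ * mdz h z) := by
    have hc := (mdz_conjTranspose ((sms z hz).diff ne0)).1
    unfold hadj
    rw [← hc]
    have ee : mdz (fun w => (s w)ᴴ) z = mdz (fun w => k w * (h w)⁻¹) z := by
      refine (mdz_congr ?_).1
      filter_upwards [hUz] with w hw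
      rw [hs, Matrix.conjTranspose_mul, (Hk w hw).eq, Matrix.conjTranspose_nonsing_inv,
        (Hh w hw).eq]
    rw [ee, (mdz_mul ((smk z hz).diff ne0) ((smhi z hz).diff ne0)).1,
      (mdz_inv ((smh z hz).diff ne0) (dh z hz)).1, hs]
    have i1 : (h z)⁻¹ * h z = 1 := Matrix.nonsing_inv_mul _ (uh z hz)
    have i4 : k z * (k z)⁻¹ = 1 := Matrix.mul_nonsing_inv _ (uk z hz)
    simp only [mul_add, add_mul, mul_sub, mul_neg, neg_mul, mul_assoc]
    rw [i1, mul_one, mul_one, ← mul_assoc (k z) (k z)⁻¹, i4, one_mul]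
    try abel
  have s1 : (s z)⁻¹ * s z = 1 := by
    have : (s z).det ≠ 0 := by
      rw [hs]
      simp only [Matrix.det_mul, Matrix.det_nonsing_inv, hh.det z hz, hk.det z hz]
      simp
    exact Matrix.nonsing_inv_mul _ (isUnit_iff_ne_zero.mpr this)
  have t1 : (mdzb s z * ((k z)⁻¹ * mdz k z - (h z)⁻¹ * mdz h z)).trace =
      (mdzb s z * (s z)⁻¹ * hadj (h z) (mdzb s z)).trace := by
    rw [hadjs, mul_assoc, ← mul_assoc (s z)⁻¹, s1, one_mul]
  have t2 := alg1 (h z) (k z) (E.A z) (Hh z hz) (Hk z hz) (uh z hz) (uk z hz)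
  have key : (mdzb s z * ((k z)⁻¹ * mdz k z - (h z)⁻¹ * mdz h z) +
      s z * (((t ^ 2 : ℝ) : ℂ) • (E.A z * hadj (k z) (E.A z) - hadj (k z) (E.A z) * E.A z) -
        ((t ^ 2 : ℝ) : ℂ) • (E.A z * hadj (h z) (E.A z) - hadj (h z) (E.A z) * E.A z))).trace =
      (mdzb s z * (s z)⁻¹ * hadj (h z) (mdzb s z)).trace + ((t ^ 2 : ℝ) : ℂ) *
        ((((s z) * E.A z - E.A z * (s z)) * (s z)⁻¹ *
          hadj (h z) ((s z) * E.A z - E.A z * (s z)))).trace := by
    rw [Matrix.trace_add, t1, ← smul_sub, mul_smul_comm, Matrix.trace_smul, smul_eq_mul]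
    congr 2
  rw [key]
  simp only [Complex.mul_re, Complex.add_re, Complex.ofReal_re, Complex.ofReal_im, zero_mul,
    sub_zero]
  have : ((4 : ℂ)).re = 4 ∧ ((4 : ℂ)).im = 0 := by constructor <;> norm_num
  rw [this.1, this.2]
  ring

end GM16
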