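import Pool.Agent.LibGM16.UB
import Pool.Agent.LibGM16.HH

/-! Auxiliary calculus for matrix valued functions. -/

open Complex MeasureTheory Filter Topology Matrix
open scoped ContDiff Real ComplexOrder

namespace GM16

/-- entries are `C^n` at `z` -/
def Sm (n : WithTop ℕ∞) (f : ℂ → Mat) (z : ℂ) : Prop := ∀ i j, ContDiffAt ℝ n (fun w => f w i j) z

theorem Sm.diff {n : WithTop ℕ∞} {f : ℂ → Mat} {z : ℂ} (h : Sm n f z) (hn : n ≠ 0) :
    ∀ i j, DifferentiableAt ℝ (fun w => f w i j) z := fun i j => (h i j).differentiableAt hn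

theorem Sm.mul {n : WithTop ℕ∞} {f g : ℂ → Mat} {z : ℂ} (hf : Sm n f z) (hg : Sm n g z) :
    Sm n (fun w => f w * g w) z := by
  intro i j
  simp only [Matrix.mul_apply, Fin.sum_univ_two]
  exact ((hf i 0).mul (hg 0 j)).add ((hf i 1).mul (hg 1 j))

theorem Sm.sub {n : WithTop ℕ∞} {f g : ℂ → Mat} {z : ℂ} (hf : Sm n f z) (hg : Sm n g z) :
    Sm n (fun w => f w - g w) z := by
  intro i j
  simpa using (hf i j).sub (hg i j)

theorem Sm.add {n : WithTop ℕ∞} {f g : ℂ → Mat} {z : ℂ} (hf : Sm n f z) (hg : Sm n g z) :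
    Sm n (fun w => f w + g w) z := by
  intro i j
  simpa using (hf i j).add (hg i j)

theorem Sm.conj {n : WithTop ℕ∞} {f : ℂ → Mat} {z : ℂ} (hf : Sm n f z) :
    Sm n (fun w => (f w)ᴴ) z := by
  intro i j
  have := Complex.conjCLE.contDiff.contDiffAt.comp (x := z) (hf j i)
  simpa [Matrix.conjTranspose_apply, Function.comp_def] using this

theorem Sm.of_le {n m : WithTop ℕ∞} {f : ℂ → Mat} {z : ℂ} (hf : Sm n f z) (h : m ≤ n) :
    Sm m f z := fun i j => (hf i j).of_le h

theorem Sm.inv {n : WithTop ℕ∞} {f : ℂ → Mat} {z : ℂ} (hf : Sm n f z) (h0 : (f z).det ≠ 0) :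
    Sm n (fun w => (f w)⁻¹) z := by
  have hdet : ContDiffAt ℝ n (fun w => (f w).det) z := by
    simp only [Matrix.det_fin_two]
    exact ((hf 0 0).mul (hf 1 1)).sub ((hf 0 1).mul (hf 1 0))
  have hinv : ContDiffAt ℝ n (fun w => ((f w).det)⁻¹) z := hdet.inv h0
  intro i j
  have e : (fun w => (f w)⁻¹ i j) = fun w => ((f w).det)⁻¹ * (Matrix.adjugate (f w)) i j := by
    funext w
    rw [Matrix.inv_def]
    simp [Ring.inverse_eq_inv']
  rw [e]
  refine hinv.mul ?_
  simp only [Matrix.adjugate_fin_two]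
  fin_cases i <;> fin_cases j <;> simp
  · exact hf 1 1
  · exact (hf 0 1).neg
  · exact (hf 1 0).neg
  · exact hf 0 0

theorem contDiffAt_dx {n : WithTop ℕ∞} {f : ℂ → ℂ} {z : ℂ} (hf : ContDiffAt ℝ (n + 1) f z) :
    ContDiffAt ℝ n (fun w => dx f w) z ∧ ContDiffAt ℝ n (fun w => dy f w) z := by
  have h := hf.fderiv_right (m := n) le_rfl
  exact ⟨h.clm_apply contDiffAt_const, h.clm_apply contDiffAt_const⟩

theorem contDiffAt_dz {n : WithTop ℕ∞} {f : ℂ → ℂ} {z : ℂ} (hf : ContDiffAt ℝ (n + 1) f z) :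
    ContDiffAt ℝ n (fun w => dz f w) z ∧ ContDiffAt ℝ n (fun w => dzb f w) z := by
  obtain ⟨h1, h2⟩ := contDiffAt_dx hf
  constructor
  · exact (h1.sub (contDiffAt_const.mul h2)).div_const _
  · exact (h1.add (contDiffAt_const.mul h2)).div_const _

theorem Sm.mdz {n : WithTop ℕ∞} {f : ℂ → Mat} {z : ℂ} (hf : Sm (n + 1) f z) :
    Sm n (mdz f) z := fun i j => (contDiffAt_dz (hf i j)).1

theorem Sm.mdzb {n : WithTop ℕ∞} {f : ℂ → Mat} {z : ℂ} (hf : Sm (n + 1) f z) :
    Sm n (mdzb f) z := fun i j => (contDiffAt_dz (hf i j)).2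

theorem dz_congr {f g : ℂ → ℂ} {z : ℂ} (h : f =ᶠ[𝓝 z] g) : dz f z = dz g z ∧ dzb f z = dzb g z := by
  have h1 : dx f z = dx g z := by unfold dx; rw [h.fderiv_eq]
  have h2 : dy f z = dy g z := by unfold dy; rw [h.fderiv_eq]
  simp [dz, dzb, h1, h2]

theorem mdz_congr {f g : ℂ → Mat} {z : ℂ} (h : ∀ᶠ w in 𝓝 z, f w = g w) :
    mdz f z = mdz g z ∧ mdzb f z = mdzb g z := by
  constructor
  · ext i j
    exact (dz_congr (h.mono fun w hw => by simp [hw])).1
  · ext i j
    exact (dz_congr (h.mono fun w hw => by simp [hw])).2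

theorem dz_add {f g : ℂ → ℂ} {z : ℂ} (hf : DifferentiableAt ℝ f z) (hg : DifferentiableAt ℝ g z) :
    dz (fun w => f w + g w) z = dz f z + dz g z ∧ dzb (fun w => f w + g w) z = dzb f z + dzb g z := by
  have h1 : dx (fun w => f w + g w) z = dx f z + dx g z := by
    unfold dx; rw [fderiv_fun_add hf hg]; rfl
  have h2 : dy (fun w => f w + g w) z = dy f z + dy g z := by
    unfold dy; rw [fderiv_fun_add hf hg]; rfl
  constructor
  · simp only [dz, h1, h2]; ring
  · simp only [dzb, h1, h2]; ring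

theorem dz_sub {f g : ℂ → ℂ} {z : ℂ} (hf : DifferentiableAt ℝ f z) (hg : DifferentiableAt ℝ g z) :
    dz (fun w => f w - g w) z = dz f z - dz g z ∧ dzb (fun w => f w - g w) z = dzb f z - dzb g z := by
  have h1 : dx (fun w => f w - g w) z = dx f z - dx g z := by
    unfold dx; rw [fderiv_fun_sub hf hg]; rfl
  have h2 : dy (fun w => f w - g w) z = dy f z - dy g z := by
    unfold dy; rw [fderiv_fun_sub hf hg]; rfl
  constructor
  · simp only [dz, h1, h2]; ring
  · simp only [dzb, h1, h2]; ring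

theorem mdz_sub {f g : ℂ → Mat} {z : ℂ}
    (hf : ∀ i j, DifferentiableAt ℝ (fun w => f w i j) z)
    (hg : ∀ i j, DifferentiableAt ℝ (fun w => g w i j) z) :
    mdz (fun w => f w - g w) z = mdz f z - mdz g z ∧
    mdzb (fun w => f w - g w) z = mdzb f z - mdzb g z := by
  constructor
  · ext i j
    exact (dz_sub (hf i j) (hg i j)).1
  · ext i j
    exact (dz_sub (hf i j) (hg i j)).2

theorem mdz_add {f g : ℂ → Mat} {z : ℂ}
    (hf : ∀ i j, DifferentiableAt ℝ (fun w => f w i j) z)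
    (hg : ∀ i j, DifferentiableAt ℝ (fun w => g w i j) z) :
    mdz (fun w => f w + g w) z = mdz f z + mdz g z ∧
    mdzb (fun w => f w + g w) z = mdzb f z + mdzb g z := by
  constructor
  · ext i j
    exact (dz_add (hf i j) (hg i j)).1
  · ext i j
    exact (dz_add (hf i j) (hg i j)).2

theorem dz_trace {f : ℂ → Mat} {z : ℂ} (hf : ∀ i j, DifferentiableAt ℝ (fun w => f w i j) z) :
    dz (fun w => (f w).trace) z = (mdz f z).trace ∧
    dzb (fun w => (f w).trace) z = (mdzb f z).trace := by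
  simp only [Matrix.trace_fin_two]
  exact ⟨(dz_add (hf 0 0) (hf 1 1)).1, (dz_add (hf 0 0) (hf 1 1)).2⟩

/-- `Δ Re F = Re (4 ∂_z̄ ∂_z F)` -/
theorem lap_re {F : ℂ → ℂ} {z : ℂ} (hF : ContDiffAt ℝ 2 F z) :
    lap (fun w => (F w).re) z = (4 * dzb (dz F) z).re := by
  have hre : ContDiffAt ℝ 2 (fun w => (F w).re) z :=
    Complex.reCLM.contDiff.contDiffAt.comp z hF
  have him : ContDiffAt ℝ 2 (fun w => (F w).im) z :=
    Complex.imCLM.contDiff.contDiffAt.comp z hF
  have hre' : ContDiffAt ℝ 2 (fun w => ((F w).re : ℂ)) z :=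
    Complex.ofRealCLM.contDiff.contDiffAt.comp z hre
  have him' : ContDiffAt ℝ 2 (fun w => ((F w).im : ℂ)) z :=
    Complex.ofRealCLM.contDiff.contDiffAt.comp z him
  have hI : ContDiffAt ℝ 2 (fun w => I * ((F w).im : ℂ)) z := contDiffAt_const.mul him'
  have e0 : F = fun w => ((F w).re : ℂ) + I * ((F w).im : ℂ) := by
    funext w
    apply Complex.ext <;> simp
  have hdI : ∀ {g : ℂ → ℂ} {w : ℂ}, DifferentiableAt ℝ g w →
      dz (fun w => I * g w) w = I * dz g w ∧ dzb (fun w => I * g w) w = I * dzb g w := by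
    intro g w hg
    have h1 : dx (fun w => I * g w) w = I * dx g w := by
      unfold dx; rw [fderiv_const_mul hg]; rfl
    have h2 : dy (fun w => I * g w) w = I * dy g w := by
      unfold dy; rw [fderiv_const_mul hg]; rfl
    constructor
    · simp only [dz, h1, h2]; ring
    · simp only [dzb, h1, h2]; ring
  have e1 : dz F =ᶠ[𝓝 z] fun w => dz (fun w => ((F w).re : ℂ)) w +
      I * dz (fun w => ((F w).im : ℂ)) w := by
    filter_upwards [hre'.eventually (by simp), him'.eventually (by simp)] with w h1 h2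
    have d1 := h1.differentiableAt (by simp)
    have d2 := h2.differentiableAt (by simp)
    conv_lhs => rw [e0]
    rw [(dz_add d1 (d2.const_mul I)).1, (hdI d2).1]
  rw [(dz_congr e1).2]
  have c1 := (contDiffAt_dz (n := 1) (f := fun w => ((F w).re : ℂ)) (by rw [one_add_one_eq_two]; exact hre')).1
  have c2 := (contDiffAt_dz (n := 1) (f := fun w => ((F w).im : ℂ)) (by rw [one_add_one_eq_two]; exact him')).1
  have d1 := c1.differentiableAt (by simp)
  have d2 := c2.differentiableAt (by simp)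
  rw [(dz_add d1 (d2.const_mul I)).2, (hdI d2).2]
  have a1 := (dzb_dz hre).1
  have a2 := (dzb_dz him).1
  have b1 : dzb (fun w => dz (fun w => ((F w).re : ℂ)) w) z = ((lap (fun w => (F w).re) z : ℝ) : ℂ) / 4 := a1
  have b2 : dzb (fun w => dz (fun w => ((F w).im : ℂ)) w) z = ((lap (fun w => (F w).im) z : ℝ) : ℂ) / 4 := a2
  rw [b1, b2]
  simp [mul_add]
  ring

end GM16
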