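import Pool.Agent.LibGM16.UC
import Pool.Agent.LibGM16.UX

open Complex MeasureTheory Filter Topology Matrix
open scoped ContDiff Real ComplexOrder

namespace GM16

variable {γ t : ℝ} {v v' f f' : ℂ → ℝ}

/-- If `k ≤ λ h` as forms, then `tr(h⁻¹ k) ≤ 2 λ`. -/
theorem trace_le {h k : Mat} (hh : h.PosDef) (hk : k.PosDef) {lam : ℝ}
    (hle : ∀ y : Fin 2 → ℂ, hnorm2 k y ≤ lam * hnorm2 h y) : ((h⁻¹ * k).trace).re ≤ 2 * lam := by
  have h0 : IsUnit h.det := isUnit_iff_ne_zero.mpr hh.det_pos.ne'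
  have hP : ((lam : ℂ) • h - k).PosSemidef := by
    refine Matrix.PosSemidef.of_dotProduct_mulVec_nonneg ?_ ?_
    · have e1 : ((lam : ℂ) • h).IsHermitian := by
        unfold Matrix.IsHermitian
        rw [Matrix.conjTranspose_smul, hh.isHermitian.eq]
        simp
      exact e1.sub hk.isHermitian
    · intro x
      have e : star x ⬝ᵥ (((lam : ℂ) • h - k) *ᵥ x) =
          (lam : ℂ) * (star x ⬝ᵥ (h *ᵥ x)) - star x ⬝ᵥ (k *ᵥ x) := by
        rw [Matrix.sub_mulVec, dotProduct_sub, Matrix.smul_mulVec, dotProduct_smul, smul_eq_mul]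
      rw [e]
      have i1 : (star x ⬝ᵥ (h *ᵥ x)).im = 0 := by
        have := hh.posSemidef.dotProduct_mulVec_nonneg x
        exact ((Complex.le_def.mp this).2).symm
      have i2 : (star x ⬝ᵥ (k *ᵥ x)).im = 0 := by
        have := hk.posSemidef.dotProduct_mulVec_nonneg x
        exact ((Complex.le_def.mp this).2).symm
      rw [Complex.le_def]
      constructor
      · have := hle x
        unfold hnorm2 at this
        simp only [Complex.zero_re, Complex.sub_re, Complex.re_ofReal_mul]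
        linarith
      · simp only [Complex.zero_im, Complex.sub_im, Complex.im_ofReal_mul, i1, i2]
        simp
  obtain ⟨B, hB, hBh⟩ := uc_fac hh.inv
  have p : 0 ≤ ((h⁻¹ * ((lam : ℂ) • h - k)).trace).re := by
    have e : (h⁻¹ * ((lam : ℂ) • h - k)).trace = (B * ((lam : ℂ) • h - k) * Bᴴ).trace := by
      rw [hBh, mul_assoc, Matrix.trace_mul_comm]
    rw [e]
    exact (Complex.le_def.mp (hP.mul_mul_conjTranspose_same B).trace_nonneg).1
  have e : (h⁻¹ * ((lam : ℂ) • h - k)).trace = 2 * (lam : ℂ) - (h⁻¹ * k).trace := by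
    rw [mul_sub, Matrix.mul_smul, Matrix.nonsing_inv_mul h h0, Matrix.trace_sub,
      Matrix.trace_smul, Matrix.trace_one]
    simp
    ring
  rw [e, Complex.sub_re] at p
  have : ((2 : ℂ) * (lam : ℂ)).re = 2 * lam := by simp
  linarith

/-- `tr(h⁻¹ k)` is bounded near each marked point. -/
theorem trace_near {E : ParHiggs} (hE : E.Valid) {h k : ℂ → Mat} (hh : E.Harmonic t h)
    (hk : E.Harmonic t k) {p : Option ℂ} (hp : p ∈ E.pts) :
    ∃ C : ℝ, ∀ᶠ z in nhdP p, z ∈ E.U → (((h z)⁻¹ * k z).trace).re ≤ C := by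
  obtain ⟨c, C, hc, hC, h1⟩ := hh.adapted p hp
  obtain ⟨c', C', hc', hC', h2⟩ := hk.adapted p hp
  refine ⟨2 * (C' / c), ?_⟩
  filter_upwards [h1, h2, hE.frame p hp] with z h1 h2 h3 hz
  refine trace_le (hh.posDef z hz) (hk.posDef z hz) fun y => ?_
  have hG : IsUnit (E.G p z).det := isUnit_iff_ne_zero.mpr h3.2
  have ey : y = E.G p z *ᵥ ((E.G p z)⁻¹ *ᵥ y) := by
    rw [Matrix.mulVec_mulVec, Matrix.mul_nonsing_inv _ hG, Matrix.one_mulVec]
  rw [ey]
  set x := (E.G p z)⁻¹ *ᵥ y with hx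
  have a1 := (h1 x).1
  have a2 := (h2 x).2
  set Q := ‖x 0‖ ^ 2 * ‖coord p z‖ ^ (2 * E.α₂ p) + ‖x 1‖ ^ 2 * ‖coord p z‖ ^ (2 * E.α₁ p) with hQ
  have hQ0 : Q ≤ hnorm2 (h z) (E.G p z *ᵥ x) / c := by
    rw [le_div_iff₀ hc]; linarith
  calc hnorm2 (k z) (E.G p z *ᵥ x) ≤ C' * Q := a2
    _ ≤ C' * (hnorm2 (h z) (E.G p z *ᵥ x) / c) := mul_le_mul_of_nonneg_left hQ0 hC'.le
    _ = C' / c * hnorm2 (h z) (E.G p z *ᵥ x) := by ring

/-- `tr(h⁻¹ k)` is bounded for two adapted metrics. -/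
theorem trace_bdd {E : ParHiggs} (hE : E.Valid) {h k : ℂ → Mat} (hh : E.Harmonic t h)
    (hk : E.Harmonic t k) : ∃ C, ∀ z ∈ E.U, (((h z)⁻¹ * k z).trace).re ≤ C := by
  have hU : IsOpen E.U := by
    have : E.U = (E.D)ᶜ := rfl
    rw [this]
    exact hE.finite.isClosed.isOpen_compl
  -- near infinity
  obtain ⟨C0, hC0⟩ := trace_near hE hh hk (p := none) (Or.inl rfl)
  obtain ⟨K, hK, hKC⟩ := Filter.mem_cocompact.mp hC0
  -- locally bounded
  have loc : ∀ x : ℂ, ∃ C : ℝ, ∀ᶠ z in 𝓝 x, z ∈ E.U → (((h z)⁻¹ * k z).trace).re ≤ C := by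
    intro x
    by_cases hx : x ∈ E.D
    · obtain ⟨C, hC⟩ := trace_near hE hh hk (p := some x) (Or.inr ⟨x, hx, rfl⟩)
      refine ⟨C, ?_⟩
      have hC' : ∀ᶠ z in 𝓝[≠] x, z ∈ E.U → (((h z)⁻¹ * k z).trace).re ≤ C := hC
      rw [eventually_nhdsWithin_iff] at hC'
      filter_upwards [hC'] with z hz hzU
      exact hz (fun h0 => hzU (by rw [Set.mem_singleton_iff.mp h0]; exact hx)) hzU
    · have hxU : x ∈ E.U := hx
      have sm1 : Sm ∞ h x := fun i j => (hh.smooth i j).contDiffAt (hU.mem_nhds hxU)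
      have sm2 : Sm ∞ k x := fun i j => (hk.smooth i j).contDiffAt (hU.mem_nhds hxU)
      have sm := (sm1.inv (by rw [hh.det x hxU]; exact one_ne_zero)).mul sm2
      have hc : ContinuousAt (fun z => (((h z)⁻¹ * k z).trace).re) x := by
        have : ContDiffAt ℝ ∞ (fun z => ((h z)⁻¹ * k z).trace) x := by
          simp only [Matrix.trace_fin_two]
          exact (sm 0 0).add (sm 1 1)
        exact Complex.continuous_re.continuousAt.comp this.continuousAt
      refine ⟨(((h x)⁻¹ * k x).trace).re + 1, ?_⟩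
      have := hc.eventually (gt_mem_nhds (lt_add_one _))
      filter_upwards [this] with z hz _ using hz.le
  have hbK : ∃ C : ℝ, ∀ z ∈ K, z ∈ E.U → (((h z)⁻¹ * k z).trace).re ≤ C := by
    refine hK.induction_on (p := fun S => ∃ C : ℝ, ∀ z ∈ S, z ∈ E.U →
      (((h z)⁻¹ * k z).trace).re ≤ C) ⟨0, fun z hz => absurd hz (Set.notMem_empty z)⟩ ?_ ?_ ?_
    · rintro S T hST ⟨C, hC⟩
      exact ⟨C, fun z hz => hC z (hST hz)⟩
    · rintro S T ⟨C, hC⟩ ⟨C', hC'⟩
      refine ⟨max C C', fun z hz hzU => ?_⟩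
      rcases hz with hz | hz
      · exact (hC z hz hzU).trans (le_max_left _ _)
      · exact (hC' z hz hzU).trans (le_max_right _ _)
    · intro x hx
      obtain ⟨C, hC⟩ := loc x
      exact ⟨_, mem_nhdsWithin_of_mem_nhds hC, C, fun z hz => hz⟩
  obtain ⟨C1, hC1⟩ := hbK
  refine ⟨max C0 C1, fun z hz => ?_⟩
  by_cases hzK : z ∈ K
  · exact (hC1 z hzK hz).trans (le_max_right _ _)
  · exact (hKC hzK hz).trans (le_max_left _ _)

end GM16
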