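import Pool.Agent.LibGM16.UX
import Pool.Agent.LibGM16.HD

open Complex MeasureTheory Filter Topology Matrix
open scoped ContDiff Real ComplexOrder

namespace GM16

variable {γ t : ℝ}

theorem isPreconnected_U : IsPreconnected (EX γ).U := by
  have hfin : ((EX γ).D).Finite := by
    show ({e1, e2, e3} : Set ℂ).Finite
    exact Set.toFinite _
  have : (EX γ).U = ((EX γ).D)ᶜ := rfl
  rw [this]
  exact (hfin.countable.isConnected_compl_of_one_lt_rank (by simp)).isPreconnected

theorem no_nonzero {β : ℂ → ℂ} (hβ : ContinuousOn β (EX γ).U) {c : ℂ}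
    (h : ∀ z ∈ (EX γ).U, qq z * β z ^ 2 = c) : c = 0 := by
  by_contra hc
  apply no_sqrt (γ := γ)
  have hne : ∀ z ∈ (EX γ).U, β z ≠ 0 := by
    intro z hz h0
    apply hc
    rw [← h z hz, h0]
    ring
  obtain ⟨r, hr⟩ : ∃ r : ℂ, r ^ 2 = c := by
    obtain ⟨r, hr⟩ := IsAlgClosed.exists_pow_nat_eq c (n := 2) (by norm_num)
    exact ⟨r, hr⟩
  refine ⟨fun z => r / β z, continuousOn_const.div hβ hne, fun z hz => ?_⟩
  rw [div_pow, hr, ← h z hz]
  field_simp [hne z hz]

theorem fderiv_eq_zero_of_dz {F : ℂ → ℂ} {z : ℂ} (h1 : dz F z = 0) (h2 : dzb F z = 0) :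
    fderiv ℝ F z = 0 := by
  have hx : dx F z = 0 := by
    have : dx F z = dz F z + dzb F z := by simp only [dz, dzb]; ring
    rw [this, h1, h2, add_zero]
  have hy : dy F z = 0 := by
    have : dy F z = I * (dz F z - dzb F z) := by
      simp only [dz, dzb]
      ring_nf
      rw [Complex.I_sq]
      ring
    rw [this, h1, h2]
    simp
  ext v
  have hv : v = (v.re : ℝ) • (1 : ℂ) + (v.im : ℝ) • I := by
    apply Complex.ext <;> simp
  rw [hv, map_add, map_smul, map_smul]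
  have e1 : fderiv ℝ F z 1 = 0 := hx
  have e2 : fderiv ℝ F z I = 0 := hy
  rw [e1, e2]
  simp

theorem const_of_dz {F : ℂ → ℂ} (hF : DifferentiableOn ℝ F (EX γ).U)
    (h : ∀ z ∈ (EX γ).U, dz F z = 0 ∧ dzb F z = 0) : ∃ c, ∀ z ∈ (EX γ).U, F z = c := by
  have hO : IsOpen (EX γ).U := isOpen_U
  refine hO.exists_is_const_of_fderiv_eq_zero isPreconnected_U hF ?_
  intro z hz
  exact fderiv_eq_zero_of_dz (h z hz).1 (h z hz).2

/-- matrices commuting with `AA` -/
theorem comm_form {q : ℂ} {m : Mat} (h : m * !![0, 1; q, 0] = !![0, 1; q, 0] * m) :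
    m 1 0 = q * m 0 1 ∧ m 0 0 = m 1 1 := by
  have h00 := congrFun (congrFun h 0) 0
  have h01 := congrFun (congrFun h 0) 1
  simp [Matrix.mul_apply, Fin.sum_univ_two] at h00 h01
  exact ⟨by rw [← h00]; ring, h01⟩

end GM16
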