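import Pool.Agent.LibGM16.UA
import Pool.Agent.LibGM16.UC
import Pool.Agent.LibGM16.UD
import Pool.Agent.LibGM16.UE
import Pool.Agent.LibGM16.UY
import Pool.Agent.LibGM16.HB

open Complex MeasureTheory Filter Topology Matrix
open scoped ContDiff Real ComplexOrder

namespace GM16

variable {γ t : ℝ} {v v' f f' : ℂ → ℝ}

/-- Uniqueness of the harmonic metric of the example: `s = h⁻¹k` is holomorphic and commutes with
`A`, so `s = α + β A`, `α = tr s/2` is real and holomorphic, hence constant, and
`β² q = α² - 1`, so `α = 1` by `no_sqrt`. -/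
theorem harmonic_unique (hγ : 0 < γ) (hγ' : γ < 1) (ht : 0 < t) {h k : ℂ → Mat}
    (hh : (EX γ).Harmonic t h) (hk : (EX γ).Harmonic t k) : ∀ z ∈ (EX γ).U, k z = h z := by
  have hE := EX_valid hγ hγ'
  have hO : IsOpen (EX γ).U := isOpen_U
  have hfin : ((EX γ).D).Finite := hE.finite
  have smh : ∀ w ∈ (EX γ).U, Sm ∞ h w := fun w hw => smooth_at hE hh.smooth hw
  have smk : ∀ w ∈ (EX γ).U, Sm ∞ k w := fun w hw => smooth_at hE hk.smooth hw
  have ne0 : (∞ : WithTop ℕ∞) ≠ 0 := by simp
  set s : ℂ → Mat := fun w => (h w)⁻¹ * k w with hs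
  have sms : ∀ w ∈ (EX γ).U, Sm ∞ s w := fun w hw =>
    ((smh w hw).inv (by rw [hh.det w hw]; exact one_ne_zero)).mul (smk w hw)
  have smF : ContDiffOn ℝ 2 (fun w => ((s w).trace).re) (EX γ).U := by
    intro w hw
    have h2 : ContDiffAt ℝ ∞ (fun w => (s w).trace) w := by
      simp only [Matrix.trace_fin_two]
      exact (sms w hw 0 0).add (sms w hw 1 1)
    exact ((Complex.reCLM.contDiff.contDiffAt.comp w h2).of_le (by norm_cast)).contDiffWithinAt
  have hl := fun (z : ℂ) (hz : z ∈ (EX γ).U) => lap_trace hE hh hk hz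
  have pos := fun (z : ℂ) (hz : z ∈ (EX γ).U) (Y : Mat) =>
    trace_pos (Y := Y) (hh.posDef z hz) (hk.posDef z hz)
  have ht2 : 0 < t ^ 2 := by positivity
  have hlz := liouville hfin smF (trace_bdd hE hh hk) (fun z hz => by
    rw [hl z hz]
    have p1 := (pos z hz (mdzb (fun w => (h w)⁻¹ * k w) z)).1
    have p2 := mul_nonneg ht2.le (pos z hz (((h z)⁻¹ * k z) * (EX γ).A z -
      (EX γ).A z * ((h z)⁻¹ * k z))).1
    linarith)
  have key : ∀ z ∈ (EX γ).U, mdzb s z = 0 ∧ s z * AA z - AA z * s z = 0 := by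
    intro z hz
    have h0 := hlz z hz
    rw [hl z hz] at h0
    have p1 := (pos z hz (mdzb (fun w => (h w)⁻¹ * k w) z))
    have p2 := (pos z hz (((h z)⁻¹ * k z) * (EX γ).A z - (EX γ).A z * ((h z)⁻¹ * k z)))
    have p2' := mul_nonneg ht2.le p2.1
    refine ⟨p1.2 (by linarith [p1.1]), p2.2 ?_⟩
    have : t ^ 2 * (((((h z)⁻¹ * k z) * (EX γ).A z - (EX γ).A z * ((h z)⁻¹ * k z)) *
        ((h z)⁻¹ * k z)⁻¹ * hadj (h z) (((h z)⁻¹ * k z) * (EX γ).A z -
          (EX γ).A z * ((h z)⁻¹ * k z))).trace).re = 0 := by linarith [p1.1]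
    rcases mul_eq_zero.mp this with h1 | h1
    · exact absurd h1 ht2.ne'
    · exact h1
  have form : ∀ z ∈ (EX γ).U, s z 1 0 = qq z * s z 0 1 ∧ s z 0 0 = s z 1 1 := fun z hz =>
    comm_form (sub_eq_zero.mp (key z hz).2)
  have dets : ∀ z ∈ (EX γ).U, (s z).det = 1 := by
    intro z hz
    rw [hs]
    simp only [Matrix.det_mul, Matrix.det_nonsing_inv, hh.det z hz, hk.det z hz]
    simp
  -- the trace is real
  have real : ∀ z ∈ (EX γ).U, (s z 0 0).im = 0 := by
    intro z hz
    have h1 : star ((s z).trace) = (s z).trace := by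
      rw [← Matrix.trace_conjTranspose, hs]
      simp only []
      rw [Matrix.conjTranspose_mul, (hk.posDef z hz).isHermitian.eq,
        Matrix.conjTranspose_nonsing_inv, (hh.posDef z hz).isHermitian.eq, Matrix.trace_mul_comm]
    have h2 : (s z).trace = 2 * s z 0 0 := by
      rw [Matrix.trace_fin_two, ← (form z hz).2]; ring
    have h3 : ((s z).trace).im = 0 := Complex.conj_eq_iff_im.mp h1
    rw [h2] at h3
    simpa using h3
  -- it is constant
  obtain ⟨a, ha⟩ : ∃ a, ∀ z ∈ (EX γ).U, s z 0 0 = a := by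
    refine const_of_dz (F := fun z => s z 0 0)
      (fun z hz => ((sms z hz).diff ne0 0 0).differentiableWithinAt) ?_
    intro z hz
    have hb : dzb (fun z => s z 0 0) z = 0 := by
      have := congrFun (congrFun (key z hz).1 0) 0
      exact this
    have hcj : dz (fun z => s z 0 0) z = starRingEnd ℂ (dzb (fun z => s z 0 0) z) := by
      have h1 := (ub_dz_conj ((sms z hz).diff ne0 0 0)).1
      rw [← h1]
      refine (dz_congr ?_).1
      filter_upwards [hO.mem_nhds hz] with w hw
      exact (Complex.conj_eq_iff_im.mpr (real w hw)).symm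
    exact ⟨by rw [hcj, hb, map_zero], hb⟩
  have hc0 : a ^ 2 - 1 = 0 := by
    refine no_nonzero (γ := γ) (β := fun z => s z 0 1)
      (fun z hz => (sms z hz 0 1).continuousAt.continuousWithinAt) ?_
    intro z hz
    have h1 := dets z hz
    rw [Matrix.det_fin_two, (form z hz).1, ← (form z hz).2, ha z hz] at h1
    rw [← h1]
    ring
  intro z hz
  have h1 := dets z hz
  rw [Matrix.det_fin_two, (form z hz).1, ← (form z hz).2, ha z hz] at h1
  have hb0 : s z 0 1 = 0 := by
    have hq := qq_ne (γ := γ) hz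
    have : qq z * (s z 0 1) ^ 2 = 0 := by
      have e : qq z * (s z 0 1) ^ 2 = a ^ 2 - (a * a - s z 0 1 * (qq z * s z 0 1)) := by ring
      rw [e, h1]
      linear_combination hc0
    rcases mul_eq_zero.mp this with h6 | h6
    · exact absurd h6 hq
    · exact pow_eq_zero_iff (by norm_num) |>.mp h6
  have hsa : s z = a • (1 : Mat) := by
    ext i j
    fin_cases i <;> fin_cases j
    · simpa using ha z hz
    · simpa using hb0
    · simp only [Matrix.smul_apply]
      show s z 1 0 = a • (1 : Mat) 1 0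
      rw [(form z hz).1, hb0]
      simp
    · have := (form z hz).2
      rw [ha z hz] at this
      simpa using this.symm
  have uh : IsUnit (h z).det := by rw [hh.det z hz]; exact isUnit_one
  have uk : IsUnit (k z).det := by rw [hk.det z hz]; exact isUnit_one
  have hkz : k z = a • h z := by
    have : h z * s z = k z := by
      rw [hs]
      simp only []
      rw [← mul_assoc, Matrix.mul_nonsing_inv _ uh, one_mul]
    rw [← this, hsa, Matrix.mul_smul, mul_one]
  -- `a = 1` or `-1`, and `a = -1` contradicts positivity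
  have ha1 : a = 1 ∨ a = -1 := by
    have : (a - 1) * (a + 1) = 0 := by linear_combination hc0
    rcases mul_eq_zero.mp this with h2 | h2
    · left; linear_combination h2
    · right; linear_combination h2
  rcases ha1 with h2 | h2
  · rw [hkz, h2, one_smul]
  · exfalso
    have p1 := (hh.posDef z hz).dotProduct_mulVec_pos (x := Pi.single 0 1)
      (by intro h0; have := congrFun h0 0; simp at this)
    have p2 := (hk.posDef z hz).dotProduct_mulVec_pos (x := Pi.single 0 1)
      (by intro h0; have := congrFun h0 0; simp at this)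
    rw [hkz, h2] at p2
    have : star (Pi.single (0 : Fin 2) (1 : ℂ)) ⬝ᵥ (((-1 : ℂ) • h z) *ᵥ Pi.single 0 1) =
        -(star (Pi.single (0 : Fin 2) (1 : ℂ)) ⬝ᵥ (h z *ᵥ Pi.single 0 1)) := by
      rw [Matrix.smul_mulVec, dotProduct_smul]
      simp
    rw [this] at p2
    exact lt_asymm p1 (neg_pos.mp p2)

end GM16
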