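import Pool.Agent.LibGM16.UZ
import Pool.Agent.LibGM16.HO

open Complex MeasureTheory Filter Topology Matrix
open scoped ContDiff Real ComplexOrder

namespace GM16

variable {γ t : ℝ} {v v' f f' : ℂ → ℝ}

/-- Uniqueness of `ν_∞`. -/
theorem gaugeInf_unique {ν : ℂ → Mat}
    (h1 : (EX γ).GaugeInf hinf (fun _ => 0) AA ν) : ∀ z ∈ (EX γ).U, ν z = 0 := by
  obtain ⟨hs, hi⟩ := EX_hinf (γ := γ)
  refine gauge_zero (γ := γ) (h := hinf) (μ := ν) hs (fun z hz => (hi z hz).1) h1.adm.smooth
    h1.adm.tracefree h1.adm.bounded (a := 1) (b := 1) (by norm_num) (by norm_num)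
    (fun z hz => ?_) (fun z hz => ?_)
  · rw [(hi z hz).2.2.1, (hi z hz).2.2.2, smul_zero]
  · rw [h1.eqL z hz]
    have h2 := h1.eqR z hz
    unfold ParHiggs.Rop at h2
    have e : (EX γ).A = AA := rfl
    rw [e] at h2
    have h3 := (hi z hz).2.2.2
    have : (ν z * AA z - AA z * ν z) * hadj (hinf z) (AA z) -
      hadj (hinf z) (AA z) * (ν z * AA z - AA z * ν z) = 0 := by
      have e2 : (AA z + (ν z * AA z - AA z * ν z)) * hadj (hinf z) (AA z) -
          hadj (hinf z) (AA z) * (AA z + (ν z * AA z - AA z * ν z)) =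
          (AA z * hadj (hinf z) (AA z) - hadj (hinf z) (AA z) * AA z) +
          ((ν z * AA z - AA z * ν z) * hadj (hinf z) (AA z) -
          hadj (hinf z) (AA z) * (ν z * AA z - AA z * ν z)) := by
        rw [add_mul, mul_add]; abel
      rw [e2, h3, zero_add] at h2
      exact h2
    rw [this, smul_zero]

end GM16
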