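import Pool.Agent.LibGM16.ExSol
import Pool.Agent.LibGM16.DDlow
import Pool.Agent.LibGM16.DDup
import Pool.Agent.LibGM16.HC
import Pool.Agent.LibGM16.HB
import Pool.Agent.LibGM16.HE
import Pool.Agent.LibGM16.HM
import Pool.Agent.LibGM16.HN
import Pool.Agent.LibGM16.HO
import Pool.Agent.LibGM16.HP
import Pool.Agent.LibGM16.HQ
import Pool.Agent.LibGM16.HR
import Pool.Agent.LibGM16.GJ
import Pool.Agent.LibGM16.UF
import Pool.Agent.LibGM16.UI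
import Pool.Agent.LibGM16.UJ

/-! The main theorem. -/

open Complex MeasureTheory Filter Topology Matrix
open scoped ContDiff Real ComplexOrder

namespace GM16

/-- The length set whose minimum is `M`. -/
def lengths (E : ParHiggs) : Set ℝ := {l : ℝ | ∃ (c : ℂ) (g : ℝ → E.Sig),
    E.ClosedGeodesic c g ∧ E.NonPeripheral g ∧ E.length g = l}

theorem main : ∃ γ₀ : ℝ, 0 < γ₀ ∧ ∀ γ : ℝ, 0 < γ → γ ≤ γ₀ →
    -- a stable strongly parabolic Higgs bundle in the regular locus, and a tangent vector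
    (EX γ).Valid ∧ (EX γ).Regular ∧ (¬ ∃ ℓ, (EX γ).InvariantLine ℓ) ∧
    (∀ z ∈ (EX γ).U, ((EX γ).A z).det ≠ 0) ∧
    (EX γ).Tangent (fun _ => 0) (EX γ).A ∧
    -- `M = 2`
    PathConnectedSpace (EX γ).Sig ∧ IsLeast (lengths (EX γ)) 2 ∧
    -- the limiting metric and gauge field
    (∀ z ∈ (EX γ).U, (hinf z).PosDef ∧ (hinf z).det = 1 ∧
      mdzb (fun w => (hinf w)⁻¹ * mdz hinf w) z = 0 ∧
      (EX γ).A z * hadj (hinf z) ((EX γ).A z) - hadj (hinf z) ((EX γ).A z) * (EX γ).A z = 0) ∧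
    (EX γ).GaugeInf hinf (fun _ => 0) (EX γ).A (fun _ => 0) ∧
    (∀ ν, (EX γ).GaugeInf hinf (fun _ => 0) (EX γ).A ν → ∀ z ∈ (EX γ).U, ν z = 0) ∧
    (∀ t : ℝ, (EX γ).NN t hinf (fun _ => 0) (EX γ).A (fun _ => 0) = 16 * t ^ 2) ∧
    -- the harmonic metrics and gauge fields, existence and uniqueness
    ∃ h ν : ℝ → ℂ → Mat,
      (∀ t, 1 ≤ t → (EX γ).Harmonic t (h t) ∧
        ∀ k, (EX γ).Harmonic t k → ∀ z ∈ (EX γ).U, k z = h t z) ∧
      (∀ t, 1 ≤ t → (EX γ).Gauge t (h t) (fun _ => 0) (EX γ).A (ν t) ∧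
        ∀ ν', (EX γ).Gauge t (h t) (fun _ => 0) (EX γ).A ν' → ∀ z ∈ (EX γ).U, ν' z = ν t z) ∧
      (∀ z ∈ (EX γ).U, Tendsto (fun t => h t z) atTop (𝓝 (hinf z)) ∧
        Tendsto (fun t => ν t z) atTop (𝓝 0)) ∧
      -- the two sided bound
      ∃ c₁ c₂ t₁ : ℝ, 0 < c₁ ∧ 0 < c₂ ∧ ∀ t, t₁ ≤ t →
        c₁ * (t ^ (3 / 2 : ℝ) * Real.exp (-(2 * 2 * t))) ≤
          -((EX γ).NN t (h t) (fun _ => 0) (EX γ).A (ν t) -
            (EX γ).NN t hinf (fun _ => 0) (EX γ).A (fun _ => 0)) ∧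
        -((EX γ).NN t (h t) (fun _ => 0) (EX γ).A (ν t) -
            (EX γ).NN t hinf (fun _ => 0) (EX γ).A (fun _ => 0)) ≤
          c₂ * (t ^ (3 / 2 : ℝ) * Real.exp (-(2 * 2 * t))) := by
  obtain ⟨γ₀, h0, h1, hex⟩ := exists_sol
  refine ⟨γ₀, h0, fun γ hγ hγ0 => ?_⟩
  have hγ8 : γ ≤ 1 / 8 := hγ0.trans h1
  have hγ1 : γ < 1 := by linarith
  refine ⟨EX_valid hγ hγ1, EX_regular.1, no_line, fun z hz => (EX_regular.2 z hz).2, EX_tangent,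
    sig_connected, least_length, EX_hinf.2, EX_gaugeInf, fun ν hν => gaugeInf_unique hν, NN_inf, ?_⟩
  have hex' : ∀ t : ℝ, ∃ p : (ℂ → ℝ) × (ℂ → ℝ), 1 ≤ t → Sol γ t p.1 ∧ LinSol t p.1 p.2 := by
    intro t
    by_cases ht : 1 ≤ t
    · obtain ⟨v, f, hv, hf⟩ := hex γ hγ hγ0 t ht
      exact ⟨(v, f), fun _ => ⟨hv, hf⟩⟩
    · exact ⟨(0, 0), fun h => absurd h ht⟩
  choose p hp using hex'
  refine ⟨fun t => hmet (p t).1, fun t => nuM (p t).2, fun t ht => ⟨?_, ?_⟩, fun t ht => ⟨?_, ?_⟩,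
    fun z hz => ⟨?_, ?_⟩, ?_⟩
  · exact EX_harmonic hγ hγ8 ht (hp t ht).1
  · intro k hk
    exact harmonic_unique hγ hγ1 (by linarith) (EX_harmonic hγ hγ8 ht (hp t ht).1) hk
  · exact EX_gauge hγ hγ8 ht (hp t ht).1 (hp t ht).2
  · intro ν' hν'
    exact gauge_unique hγ hγ1 (by linarith) (EX_harmonic hγ hγ8 ht (hp t ht).1)
      (EX_gauge hγ hγ8 ht (hp t ht).1 (hp t ht).2) hν'
  · exact hmet_tendsto hγ hγ8 (v := fun t => (p t).1) (fun t ht => (hp t ht).1) hz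
  · exact nuM_tendsto hγ hγ8 (v := fun t => (p t).1) (f := fun t => (p t).2)
      (fun t ht => (hp t ht).1) (fun t ht => (hp t ht).2) hz
  · obtain ⟨c, t₁, hc, ht₁, hl⟩ := DD_lower hγ hγ8
    obtain ⟨C, hC, hu⟩ := DD_upper hγ hγ8
    refine ⟨2 * c, 2 * C, t₁, by linarith, by linarith, fun t ht => ?_⟩
    have ht4 : 4 ≤ t := ht₁.trans ht
    have ht1 : 1 ≤ t := by linarith
    have hd := NN_diff hγ hγ8 ht1 (hp t ht1).1 (hp t ht1).2
    have e : (EX γ).A = AA := rfl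
    rw [e, hd]
    have h1 := hl t _ _ ht (hp t ht1).1 (hp t ht1).2
    have h2 := hu t _ _ ht4 (hp t ht1).1 (hp t ht1).2
    have e4 : -(2 * 2 * t) = -(4 * t) := by ring
    rw [e4]
    constructor <;> nlinarith
  
end GM16
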