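import Pool.Agent.LibGM16.CalcB

open Complex MeasureTheory Filter Topology Matrix
open scoped ContDiff Real ComplexOrder

namespace GM16

variable {γ t : ℝ} {v v' f f' : ℂ → ℝ}

/-- Measurable functions bounded by `C (‖z‖⁻¹ + ‖z‖)` are locally integrable. -/
theorem locInt_inv {E : Type*} [NormedAddCommGroup E] {f : ℂ → E} {C : ℝ}
    (h : ∀ z, z ≠ 0 → ‖f z‖ ≤ C * (‖z‖⁻¹ + ‖z‖)) (hm : AEStronglyMeasurable f volume) :
    LocallyIntegrable f volume := by
  have hC : 0 ≤ C := by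
    have := (norm_nonneg _).trans (h 1 one_ne_zero)
    simp only [norm_one] at this
    nlinarith
  have hd : Module.finrank ℝ ℂ = 2 := Complex.finrank_real_complex
  rw [locallyIntegrable_iff]
  intro K hK
  obtain ⟨R, hR_pos, hR⟩ := hK.isBounded.exists_pos_norm_lt
  refine IntegrableOn.mono_set (t := Metric.ball 0 R) ?_ (mem_ball_zero_iff.mpr <| hR · ·)
  refine integrableOn_ball_of_norm_le_rpow (C := C * (1 + R ^ 2)) (α := 1) (by rw [hd]; norm_num)
    (by rw [hd]; norm_num) ?_ hm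
  refine (ae_restrict_iff' Metric.isOpen_ball.measurableSet).2 ?_
  have h0 : ∀ᵐ z : ℂ, z ≠ 0 := by
    simp [ae_iff]
  filter_upwards [h0] with z hz hzR
  rw [Metric.mem_ball, dist_zero_right] at hzR
  have hz' : 0 < ‖z‖ := norm_pos_iff.2 hz
  refine (h z hz).trans ?_
  rw [Real.rpow_neg_one, mul_assoc]
  refine mul_le_mul_of_nonneg_left ?_ hC
  rw [add_mul, one_mul]
  have : ‖z‖ = ‖z‖ ^ 2 * ‖z‖⁻¹ := by field_simp
  have h2 : ‖z‖ ^ 2 * ‖z‖⁻¹ ≤ R ^ 2 * ‖z‖⁻¹ := by
    gcongr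
  linarith [this, h2]

theorem abs_log_le {r : ℝ} (hr : 0 < r) : |Real.log r| ≤ r⁻¹ + r := by
  rw [abs_le]
  have h1 := Real.log_le_sub_one_of_pos hr
  have h2 := Real.log_le_sub_one_of_pos (inv_pos.2 hr)
  rw [Real.log_inv] at h2
  have h3 := inv_pos.2 hr
  constructor <;> linarith

theorem measurable_NK : Measurable NK := by
  unfold NK
  fun_prop

theorem locallyIntegrable_NK : LocallyIntegrable NK volume := by
  refine locInt_inv (C := 1) (fun z hz => ?_) measurable_NK.aestronglyMeasurable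
  have hz' : 0 < ‖z‖ := norm_pos_iff.2 hz
  rw [NK, norm_div, norm_neg, Real.norm_eq_abs, Real.norm_eq_abs, one_mul]
  have hpi := Real.pi_gt_three
  rw [abs_of_pos (by positivity : 0 < 2 * π), div_le_iff₀ (by positivity)]
  have h1 := abs_log_le hz'
  have h2 : 0 < ‖z‖⁻¹ + ‖z‖ := by positivity
  nlinarith

/-- The integrand of a convolution with a continuous function of compact support. -/
theorem integrable_swap {E : Type*} [NormedAddCommGroup E] [NormedSpace ℝ E] {f : ℂ → E}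
    (hf : LocallyIntegrable f volume) {g : ℂ → ℝ} (hg : Continuous g) (hc : HasCompactSupport g)
    (x : ℂ) : Integrable (fun y => g y • f (x - y)) volume := by
  have h := (hc.convolutionExists_right (μ := volume)
    (ContinuousLinearMap.lsmul ℝ ℝ (E := E)).flip hf hg x).integrable_swap
  exact h

theorem continuous_swap {E : Type*} [NormedAddCommGroup E] [NormedSpace ℝ E] {f : ℂ → E}
    (hf : LocallyIntegrable f volume) {g : ℂ → ℝ} (hg : Continuous g) (hc : HasCompactSupport g) :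
    Continuous (fun x => ∫ y, g y • f (x - y)) := by
  have h := hc.continuous_convolution_right (μ := volume)
    (ContinuousLinearMap.lsmul ℝ ℝ (E := E)).flip hf hg
  refine h.congr fun x => ?_
  rw [convolution_eq_swap]
  rfl

/-- The regularized kernel. -/
noncomputable def NKe (e : ℝ) (z : ℂ) : ℝ := -(Real.log (‖z‖ ^ 2 + e)) / (4 * π)

/-- The gradient of the regularized kernel (`e > 0`) and of `NK` (`e = 0`). -/
noncomputable def NKg (e : ℝ) (z : ℂ) : ℂ →L[ℝ] ℝ :=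
  (-(1 / (2 * π)) * (‖z‖ ^ 2 + e)⁻¹) • innerSL ℝ z

theorem hasFDerivAt_NKe {e : ℝ} (he : 0 < e) (z : ℂ) : HasFDerivAt (NKe e) (NKg e z) z := by
  have h1 : HasFDerivAt (fun z : ℂ => ‖z‖ ^ 2 + e) (2 • (innerSL ℝ z)) z := by
    have := (hasFDerivAt_id (𝕜 := ℝ) z).norm_sq
    simpa using this.add_const e
  have hpos : 0 < ‖z‖ ^ 2 + e := by positivity
  have h2 := (h1.log hpos.ne').neg.mul_const (1 / (4 * π))
  have h3 : NKe e = fun y => -(Real.log (‖y‖ ^ 2 + e)) * (1 / (4 * π)) := by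
    funext y; rw [NKe, div_eq_mul_one_div]
  rw [h3]
  refine h2.congr_fderiv ?_
  ext w
  simp only [NKg, _root_.smul_apply, _root_.neg_apply, smul_eq_mul, nsmul_eq_mul]
  have hpi := Real.pi_pos
  field_simp
  ring

theorem continuous_NKe {e : ℝ} (he : 0 < e) : Continuous (NKe e) :=
  continuous_iff_continuousAt.2 fun z => (hasFDerivAt_NKe he z).continuousAt

theorem continuous_innerSL : Continuous (fun z : ℂ => innerSL ℝ z) :=
  (innerSL ℝ (E := ℂ)).continuous

theorem continuous_NKg {e : ℝ} (he : 0 < e) : Continuous (NKg e) := by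
  unfold NKg
  refine Continuous.smul (f := fun z : ℂ => -(1 / (2 * π)) * (‖z‖ ^ 2 + e)⁻¹)
    (g := fun z : ℂ => (innerSL ℝ z : ℂ →L[ℝ] ℝ)) ?_ continuous_innerSL
  refine continuous_const.mul ?_
  refine Continuous.inv₀ (by fun_prop) fun z => ?_
  positivity

theorem aesm_NKg (e : ℝ) : AEStronglyMeasurable (NKg e) volume := by
  unfold NKg
  refine AEStronglyMeasurable.smul (f := fun z : ℂ => -(1 / (2 * π)) * (‖z‖ ^ 2 + e)⁻¹)
    (g := fun z : ℂ => (innerSL ℝ z : ℂ →L[ℝ] ℝ)) ?_ continuous_innerSL.aestronglyMeasurable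
  refine Measurable.aestronglyMeasurable ?_
  fun_prop

theorem norm_NKg {e : ℝ} (he : 0 ≤ e) (z : ℂ) :
    ‖NKg e z‖ = 1 / (2 * π) * (‖z‖ ^ 2 + e)⁻¹ * ‖z‖ := by
  have hpi := Real.pi_pos
  have h0 : 0 ≤ (‖z‖ ^ 2 + e)⁻¹ := by positivity
  rw [NKg, norm_smul, innerSL_apply_norm, norm_mul, norm_neg, Real.norm_of_nonneg (by positivity),
    Real.norm_of_nonneg h0]

theorem norm_NKg_le {e : ℝ} (he : 0 ≤ e) (z : ℂ) : ‖NKg e z‖ ≤ ‖z‖⁻¹ := by
  rw [norm_NKg he]
  have hpi := Real.pi_gt_three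
  rcases eq_or_ne z 0 with rfl | hz
  · simp
  have hz' : 0 < ‖z‖ := norm_pos_iff.2 hz
  have h1 : (‖z‖ ^ 2 + e)⁻¹ ≤ (‖z‖ ^ 2)⁻¹ := by
    gcongr
    linarith
  have h2 : 1 / (2 * π) ≤ 1 := by
    rw [div_le_one (by positivity)]
    linarith
  calc 1 / (2 * π) * (‖z‖ ^ 2 + e)⁻¹ * ‖z‖ ≤ 1 * (‖z‖ ^ 2)⁻¹ * ‖z‖ := by gcongr
    _ = ‖z‖⁻¹ := by field_simp

theorem norm_NKg_le' {e : ℝ} (he : 0 < e) (he1 : e ≤ 1) (z : ℂ) : ‖NKg e z‖ ≤ e⁻¹ := by
  rw [norm_NKg he.le]
  have hpi := Real.pi_gt_three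
  have h2 : 1 / (2 * π) ≤ 1 := by
    rw [div_le_one (by positivity)]
    linarith
  have h3 : (‖z‖ ^ 2 + e)⁻¹ * ‖z‖ ≤ e⁻¹ := by
    rw [inv_mul_le_iff₀ (by positivity), ← div_eq_mul_inv, le_div_iff₀ he]
    have h4 : 0 ≤ ‖z‖ := norm_nonneg z
    nlinarith [sq_nonneg (‖z‖ - 1), mul_le_mul_of_nonneg_left he1 h4]
  calc 1 / (2 * π) * (‖z‖ ^ 2 + e)⁻¹ * ‖z‖ = 1 / (2 * π) * ((‖z‖ ^ 2 + e)⁻¹ * ‖z‖) := by ring
    _ ≤ 1 * e⁻¹ := by gcongr
    _ = e⁻¹ := one_mul _

theorem norm_NKg_sub_le {e : ℝ} (he : 0 ≤ e) (z : ℂ) : ‖NKg e z - NKg 0 z‖ ≤ ‖z‖⁻¹ := by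
  have hpi := Real.pi_gt_three
  rcases eq_or_ne z 0 with rfl | hz
  · simp [NKg]
  have hz' : 0 < ‖z‖ := norm_pos_iff.2 hz
  have h1 : (‖z‖ ^ 2 + e)⁻¹ ≤ (‖z‖ ^ 2)⁻¹ := by
    gcongr
    linarith
  have h2 : 1 / (2 * π) ≤ 1 := by
    rw [div_le_one (by positivity)]
    linarith
  have h3 : 0 ≤ (‖z‖ ^ 2 + e)⁻¹ := by positivity
  have key : NKg e z - NKg 0 z =
      (-(1 / (2 * π)) * ((‖z‖ ^ 2 + e)⁻¹ - (‖z‖ ^ 2)⁻¹)) • (innerSL ℝ z : ℂ →L[ℝ] ℝ) := by
    ext w
    simp only [NKg, _root_.sub_apply, _root_.smul_apply, smul_eq_mul, add_zero]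
    ring
  rw [key, norm_smul, innerSL_apply_norm, norm_mul, norm_neg,
    Real.norm_of_nonneg (by positivity : (0:ℝ) ≤ 1 / (2 * π)), Real.norm_eq_abs, abs_sub_comm,
    abs_of_nonneg (by linarith)]
  calc 1 / (2 * π) * ((‖z‖ ^ 2)⁻¹ - (‖z‖ ^ 2 + e)⁻¹) * ‖z‖ ≤ 1 * ((‖z‖ ^ 2)⁻¹ - 0) * ‖z‖ := by
        gcongr
    _ = ‖z‖⁻¹ := by rw [sub_zero]; field_simp

theorem abs_NKe_sub_le {e : ℝ} (he : 0 ≤ e) (he1 : e ≤ 1) {z : ℂ} (hz : z ≠ 0) :
    |NKe e z - NK z| ≤ ‖z‖⁻¹ := by
  have hpi := Real.pi_gt_three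
  have hz' : 0 < ‖z‖ := norm_pos_iff.2 hz
  have h1 : NKe e z - NK z = -(Real.log (1 + e / ‖z‖ ^ 2)) / (4 * π) := by
    have h2 : 1 + e / ‖z‖ ^ 2 = (‖z‖ ^ 2 + e) / ‖z‖ ^ 2 := by field_simp
    rw [h2, Real.log_div (by positivity) (by positivity), Real.log_pow, NKe, NK]
    push_cast
    field_simp
    ring
  have h3 : 0 ≤ Real.log (1 + e / ‖z‖ ^ 2) := Real.log_nonneg (by
    have : 0 ≤ e / ‖z‖ ^ 2 := by positivity
    linarith)
  have h4 : Real.log (1 + e / ‖z‖ ^ 2) ≤ 2 * ‖z‖⁻¹ := by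
    have h5 : 1 + e / ‖z‖ ^ 2 ≤ (1 + ‖z‖⁻¹) ^ 2 := by
      have h6 : e / ‖z‖ ^ 2 ≤ 1 / ‖z‖ ^ 2 := by gcongr
      have h7 : 0 < ‖z‖⁻¹ := inv_pos.2 hz'
      have h8 : 1 / ‖z‖ ^ 2 = ‖z‖⁻¹ ^ 2 := by rw [inv_pow, one_div]
      nlinarith
    calc Real.log (1 + e / ‖z‖ ^ 2) ≤ Real.log ((1 + ‖z‖⁻¹) ^ 2) :=
          Real.log_le_log (by positivity) h5
      _ = 2 * Real.log (1 + ‖z‖⁻¹) := by rw [Real.log_pow]; norm_num
      _ ≤ 2 * ‖z‖⁻¹ := by
          have := Real.log_le_sub_one_of_pos (by positivity : 0 < 1 + ‖z‖⁻¹)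
          linarith
  rw [h1, abs_div, abs_neg, abs_of_nonneg h3, abs_of_pos (by positivity : 0 < 4 * π),
    div_le_iff₀ (by positivity)]
  have h9 : 0 < ‖z‖⁻¹ := inv_pos.2 hz'
  nlinarith

theorem locallyIntegrable_inv : LocallyIntegrable (fun z : ℂ => ‖z‖⁻¹) volume := by
  refine locInt_inv (C := 1) (fun z _ => ?_) (by fun_prop)
  rw [norm_inv, norm_norm, one_mul]
  linarith [norm_nonneg z]

theorem locallyIntegrable_NKg {e : ℝ} (he : 0 ≤ e) : LocallyIntegrable (NKg e) volume := by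
  refine locInt_inv (C := 1) (fun z _ => ?_) (aesm_NKg e)
  have := norm_NKg_le he z
  linarith [norm_nonneg z]

theorem ae_ne_zero : ∀ᵐ z : ℂ, z ≠ 0 := by simp [ae_iff]

theorem ae_sub_ne_zero (x : ℂ) : ∀ᵐ y : ℂ, x - y ≠ 0 := by
  have : ∀ᵐ y : ℂ, y ≠ x := by simp [ae_iff]
  filter_upwards [this] with y hy
  exact sub_ne_zero.2 hy.symm

/-- `1/(n+1)` -/
noncomputable def eps (n : ℕ) : ℝ := 1 / ((n : ℝ) + 1)

theorem eps_pos (n : ℕ) : 0 < eps n := by unfold eps; positivity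

theorem eps_le (n : ℕ) : eps n ≤ 1 := by
  unfold eps
  rw [div_le_one (by positivity)]
  have : (0 : ℝ) ≤ n := n.cast_nonneg
  linarith

theorem tendsto_eps : Tendsto eps atTop (𝓝 0) := tendsto_one_div_add_atTop_nhds_zero_nat

theorem tendsto_NKe {z : ℂ} (hz : z ≠ 0) : Tendsto (fun n => NKe (eps n) z) atTop (𝓝 (NK z)) := by
  have hz' : 0 < ‖z‖ := norm_pos_iff.2 hz
  have h1 : NK z = -(Real.log (‖z‖ ^ 2 + 0)) / (4 * π) := by
    rw [add_zero, Real.log_pow, NK]
    have := Real.pi_pos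
    push_cast
    field_simp
    ring
  rw [h1]
  unfold NKe
  refine Tendsto.div_const (Tendsto.neg ?_) _
  refine Tendsto.log ?_ (by positivity)
  exact tendsto_const_nhds.add tendsto_eps

theorem tendsto_NKg {z : ℂ} (hz : z ≠ 0) :
    Tendsto (fun n => NKg (eps n) z) atTop (𝓝 (NKg 0 z)) := by
  have hz' : 0 < ‖z‖ := norm_pos_iff.2 hz
  unfold NKg
  refine Tendsto.smul_const (Tendsto.const_mul _ ?_) _
  refine Tendsto.inv₀ ?_ (by positivity)
  exact tendsto_const_nhds.add tendsto_eps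

theorem hasFDerivAt_conv_NKe {e : ℝ} (he : 0 < e) (he1 : e ≤ 1) {g : ℂ → ℝ} (hg : Continuous g)
    (hc : HasCompactSupport g) (x₀ : ℂ) :
    HasFDerivAt (fun x => ∫ y, g y • NKe e (x - y)) (∫ y, g y • NKg e (x₀ - y)) x₀ := by
  refine hasFDerivAt_integral_of_dominated_of_fderiv_le (𝕜 := ℝ) (s := Set.univ)
    (F := fun x y => g y • NKe e (x - y))
    (F' := fun x y => g y • NKg e (x - y))
    (bound := fun y => ‖g y‖ * e⁻¹) univ_mem ?_ ?_ ?_ ?_ ?_ ?_
  · refine Eventually.of_forall fun x => Continuous.aestronglyMeasurable ?_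
    exact hg.smul ((continuous_NKe he).comp (continuous_const.sub continuous_id))
  · exact integrable_swap (continuous_NKe he).locallyIntegrable hg hc x₀
  · exact (integrable_swap (locallyIntegrable_NKg he.le) hg hc x₀).aestronglyMeasurable
  · refine Eventually.of_forall fun y x _ => ?_
    rw [norm_smul]
    exact mul_le_mul_of_nonneg_left (norm_NKg_le' he he1 _) (norm_nonneg _)
  · exact (hg.norm.integrable_of_hasCompactSupport hc.norm).mul_const _
  · refine Eventually.of_forall fun y x _ => ?_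
    have h1 := (hasFDerivAt_NKe he (x - y)).comp x ((hasFDerivAt_id x).sub_const y)
    have h2 := h1.const_smul (g y)
    refine h2.congr_fderiv ?_
    ext w
    simp

theorem tendsto_conv_NKe {g : ℂ → ℝ} (hg : Continuous g) (hc : HasCompactSupport g) (x : ℂ) :
    Tendsto (fun n => ∫ y, g y • NKe (eps n) (x - y)) atTop (𝓝 (∫ y, g y • NK (x - y))) := by
  have h1 := integrable_swap locallyIntegrable_NK hg hc x
  have h2 := integrable_swap locallyIntegrable_inv hg hc x
  refine tendsto_integral_of_dominated_convergence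
    (fun y => ‖g y • NK (x - y)‖ + ‖g y • ‖x - y‖⁻¹‖) (fun n => ?_) (h1.norm.add h2.norm)
    (fun n => ?_) ?_
  · exact (integrable_swap (continuous_NKe (eps_pos n)).locallyIntegrable hg hc
      x).aestronglyMeasurable
  · filter_upwards [ae_sub_ne_zero x] with y hy
    have h3 := abs_NKe_sub_le (eps_pos n).le (eps_le n) hy
    rw [norm_smul, norm_smul, norm_smul, ← mul_add]
    refine mul_le_mul_of_nonneg_left ?_ (norm_nonneg _)
    rw [norm_inv, norm_norm]
    calc ‖NKe (eps n) (x - y)‖ = ‖NK (x - y) + (NKe (eps n) (x - y) - NK (x - y))‖ := by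
          rw [add_sub_cancel]
      _ ≤ ‖NK (x - y)‖ + ‖NKe (eps n) (x - y) - NK (x - y)‖ := norm_add_le _ _
      _ ≤ ‖NK (x - y)‖ + ‖x - y‖⁻¹ := by
          rw [Real.norm_eq_abs (NKe (eps n) (x - y) - NK (x - y))]
          linarith
  · filter_upwards [ae_sub_ne_zero x] with y hy
    exact (tendsto_NKe hy).const_smul (g y)

/-- The `L¹` distance of the gradients on a ball tends to zero. -/
theorem tendsto_L1_NKg (ρ : ℝ) : Tendsto
    (fun n => ∫ z, (Metric.ball (0 : ℂ) ρ).indicator (fun z => ‖NKg (eps n) z - NKg 0 z‖) z)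
    atTop (𝓝 0) := by
  have h := tendsto_integral_of_dominated_convergence (μ := (volume : Measure ℂ))
    (F := fun n z => (Metric.ball (0 : ℂ) ρ).indicator (fun z => ‖NKg (eps n) z - NKg 0 z‖) z)
    (f := fun _ => (0 : ℝ))
    ((Metric.ball (0 : ℂ) ρ).indicator (fun z => ‖z‖⁻¹)) (fun n => ?_) ?_ (fun n => ?_) ?_
  · simpa using h
  · exact ((aesm_NKg _).sub (aesm_NKg _)).norm.indicator Metric.isOpen_ball.measurableSet
  · rw [integrable_indicator_iff Metric.isOpen_ball.measurableSet]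
    exact (locallyIntegrable_inv.integrableOn_isCompact (isCompact_closedBall 0 ρ)).mono_set
      Metric.ball_subset_closedBall
  · refine Eventually.of_forall fun z => ?_
    by_cases hz : z ∈ Metric.ball (0 : ℂ) ρ
    · rw [Set.indicator_of_mem hz, Set.indicator_of_mem hz, norm_norm]
      exact norm_NKg_sub_le (eps_pos n).le z
    · rw [Set.indicator_of_notMem hz, Set.indicator_of_notMem hz, norm_zero]
  · filter_upwards [ae_ne_zero] with z hz
    by_cases hz' : z ∈ Metric.ball (0 : ℂ) ρ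
    · simp only [Set.indicator_of_mem hz']
      have := ((tendsto_NKg hz).sub_const (NKg 0 z)).norm
      simpa using this
    · simp only [Set.indicator_of_notMem hz']
      exact tendsto_const_nhds

theorem tendstoUniformlyOn_conv_NKg {g : ℂ → ℝ} (hg : Continuous g) (hc : HasCompactSupport g)
    (x₀ : ℂ) : TendstoUniformlyOn (fun n x => ∫ y, g y • NKg (eps n) (x - y))
      (fun x => ∫ y, g y • NKg 0 (x - y)) atTop (Metric.ball x₀ 1) := by
  obtain ⟨M, hM⟩ := hg.bounded_above_of_compact_support hc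
  obtain ⟨R, hR⟩ := hc.isCompact.isBounded.exists_norm_le
  have hM0 : 0 ≤ M := (norm_nonneg _).trans (hM 0)
  set ρ := ‖x₀‖ + 1 + R + 1 with hρ
  set D : ℕ → ℂ → ℝ := fun n => (Metric.ball (0 : ℂ) ρ).indicator
    (fun z => ‖NKg (eps n) z - NKg 0 z‖) with hD
  have hDint : ∀ n, Integrable (D n) volume := by
    intro n
    rw [hD]
    simp only
    rw [integrable_indicator_iff Metric.isOpen_ball.measurableSet]
    have h5 : LocallyIntegrable (fun z => NKg (eps n) z - NKg 0 z) volume :=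
      (locallyIntegrable_NKg (eps_pos n).le).sub (locallyIntegrable_NKg le_rfl)
    exact ((h5.integrableOn_isCompact (isCompact_closedBall 0 ρ)).mono_set
      Metric.ball_subset_closedBall).norm
  have hkey : ∀ n, ∀ x ∈ Metric.ball x₀ 1,
      dist (∫ y, g y • NKg 0 (x - y)) (∫ y, g y • NKg (eps n) (x - y)) ≤ M * ∫ z, D n z := by
    intro n x hx
    have hi0 := integrable_swap (locallyIntegrable_NKg le_rfl) hg hc x
    have hi1 := integrable_swap (locallyIntegrable_NKg (eps_pos n).le) hg hc x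
    rw [dist_comm, dist_eq_norm, ← integral_sub hi1 hi0]
    calc ‖∫ y, (g y • NKg (eps n) (x - y) - g y • NKg 0 (x - y))‖
        ≤ ∫ y, ‖g y • NKg (eps n) (x - y) - g y • NKg 0 (x - y)‖ := norm_integral_le_integral_norm _
      _ ≤ ∫ y, M * D n (x - y) := by
          refine integral_mono (hi1.sub hi0).norm
            (((hDint n).comp_sub_left x).const_mul M) fun y => ?_
          have h10 : g y • NKg (eps n) (x - y) - g y • NKg 0 (x - y) =
              g y • (NKg (eps n) (x - y) - NKg 0 (x - y)) := (smul_sub _ _ _).symm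
          simp only []
          rw [h10, norm_smul]
          by_cases hy : y ∈ tsupport g
          · have h6 : x - y ∈ Metric.ball (0 : ℂ) ρ := by
              rw [Metric.mem_ball, dist_zero_right, hρ]
              have h7 := norm_sub_le x y
              have h8 := hR y hy
              rw [Metric.mem_ball, dist_eq_norm] at hx
              have h9 : ‖x‖ ≤ ‖x - x₀‖ + ‖x₀‖ := by
                simpa using norm_add_le (x - x₀) x₀
              linarith
            rw [hD]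
            simp only
            rw [Set.indicator_of_mem h6]
            exact mul_le_mul_of_nonneg_right (hM y) (norm_nonneg _)
          · rw [image_eq_zero_of_notMem_tsupport hy, norm_zero, zero_mul]
            refine mul_nonneg hM0 ?_
            exact Set.indicator_nonneg (fun _ _ => norm_nonneg _) _
      _ = M * ∫ z, D n z := by
          rw [integral_const_mul, integral_sub_left_eq_self (D n) volume x]
  rw [Metric.tendstoUniformlyOn_iff]
  intro ε hε
  have hlim : Tendsto (fun n => M * ∫ z, D n z) atTop (𝓝 0) := by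
    simpa using (tendsto_L1_NKg ρ).const_mul M
  filter_upwards [(tendsto_order.1 hlim).2 ε hε] with n hn x hx
  exact (hkey n x hx).trans_lt hn

theorem hasFDerivAt_newton {g : ℂ → ℝ} (hg : Continuous g) (hc : HasCompactSupport g) (x₀ : ℂ) :
    HasFDerivAt (fun x => ∫ y, NK (x - y) * g y) (∫ y, g y • NKg 0 (x₀ - y)) x₀ := by
  have h1 := hasFDerivAt_of_tendstoUniformlyOn (𝕜 := ℝ) (l := atTop) (s := Metric.ball x₀ 1)
    (f := fun n x => ∫ y, g y • NKe (eps n) (x - y)) (g := fun x => ∫ y, g y • NK (x - y))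
    Metric.isOpen_ball (tendstoUniformlyOn_conv_NKg hg hc x₀)
    (fun n x _ => hasFDerivAt_conv_NKe (eps_pos n) (eps_le n) hg hc x)
    (fun x _ => tendsto_conv_NKe hg hc x) (Metric.mem_ball_self one_pos)
  have h2 : (fun x => ∫ y, NK (x - y) * g y) = fun x => ∫ y, g y • NK (x - y) := by
    funext x
    exact integral_congr_ae (Eventually.of_forall fun y => by simp [mul_comm])
  rw [h2]
  exact h1

/-- The Newton potential of a compactly supported continuous function is `C¹`. -/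
theorem newton_C1 (g : ℂ → ℝ) (hg : Continuous g) (hc : HasCompactSupport g) :
    ContDiff ℝ 1 (fun x => ∫ y, NK (x - y) * g y) := by
  rw [contDiff_one_iff_hasFDerivAt]
  exact ⟨fun x => ∫ y, g y • NKg 0 (x - y), continuous_swap (locallyIntegrable_NKg le_rfl) hg hc,
    fun x => hasFDerivAt_newton hg hc x⟩

end GM16
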