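import Pool.Agent.LibGM16.NewC1

open Complex MeasureTheory Filter Topology Matrix
open scoped ContDiff Real ComplexOrder

namespace GM16

variable {γ t : ℝ} {v v' f f' : ℂ → ℝ}

theorem newton_eq_conv (g : ℂ → ℝ) :
    (fun x => ∫ y, NK (x - y) * g y) =
      convolution NK g (ContinuousLinearMap.mul ℝ ℝ) volume := by
  funext x
  rw [convolution_mul_swap]

theorem newton_fderiv {g : ℂ → ℝ} (hg : ContDiff ℝ 1 g) (hc : HasCompactSupport g) (x w : ℂ) :
    fderiv ℝ (fun x => ∫ y, NK (x - y) * g y) x w = ∫ y, NK (x - y) * fderiv ℝ g y w := by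
  have h1 := hc.hasFDerivAt_convolution_right (ContinuousLinearMap.mul ℝ ℝ)
    locallyIntegrable_NK hg x
  rw [newton_eq_conv, h1.fderiv,
    convolution_precompR_apply _ locallyIntegrable_NK (hc.fderiv (𝕜 := ℝ))
      (hg.continuous_fderiv (by norm_num)) x w,
    convolution_mul_swap]

/-- The Newton potential gains one derivative. -/
theorem newton_contDiff (k : ℕ) (g : ℂ → ℝ) (hg : ContDiff ℝ k g) (hc : HasCompactSupport g) :
    ContDiff ℝ (k + 1) (fun x => ∫ y, NK (x - y) * g y) := by
  induction k generalizing g with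
  | zero =>
    have := newton_C1 g hg.continuous hc
    simpa using this
  | succ k ih =>
    have hg1 : ContDiff ℝ 1 g := hg.of_le (by
      push_cast
      exact le_add_self)
    rw [contDiff_succ_iff_fderiv_apply]
    refine ⟨(newton_C1 g hg.continuous hc).differentiable (by norm_num), fun h => ?_, fun w => ?_⟩
    · exact absurd h (by
        exact_mod_cast (WithTop.coe_ne_top : ((k + 1 : ℕ) : WithTop ℕ∞) ≠ ⊤))
    · have h2 : (fun x => fderiv ℝ (fun x => ∫ y, NK (x - y) * g y) x w) =
          fun x => ∫ y, NK (x - y) * (fun y => fderiv ℝ g y w) y := by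
        funext x
        exact newton_fderiv hg1 hc x w
      rw [h2]
      have h3 : ContDiff ℝ k (fun y => fderiv ℝ g y w) := by
        have h4 : ContDiff ℝ k (fderiv ℝ g) := hg.fderiv_right (by push_cast; rfl)
        exact h4.clm_apply contDiff_const
      have h5 : HasCompactSupport (fun y => fderiv ℝ g y w) := hc.fderiv_apply (𝕜 := ℝ) w
      have := ih (fun y => fderiv ℝ g y w) h3 h5
      exact_mod_cast this

end GM16
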