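import Pool.Agent.LibGM16.Rad
import Pool.Agent.LibGM16.Latt

open Complex MeasureTheory Filter Topology Matrix
open scoped ContDiff Real ComplexOrder

namespace GM16

variable {γ t : ℝ} {v v' f f' : ℂ → ℝ}

/-- The derivative of `β`. -/
theorem nb_hasDerivAt {R : ℝ} (hR : 0 < R) :
    HasDerivAt betaF (-((4 * R - 1 / 2) * EE R)) R := by
  have h1 : HasDerivAt (fun R : ℝ => Real.exp (-(4 * R))) (Real.exp (-(4 * R)) * (-(4 * 1))) R :=
    (((hasDerivAt_id R).const_mul 4).neg).exp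
  have h2 : HasDerivAt (fun R : ℝ => Real.sqrt R) (1 / (2 * Real.sqrt R)) R :=
    Real.hasDerivAt_sqrt hR.ne'
  have h3 := h1.mul h2
  have hs : 0 < Real.sqrt R := Real.sqrt_pos.2 hR
  have hss : Real.sqrt R * Real.sqrt R = R := Real.mul_self_sqrt hR.le
  have h4 : HasDerivAt betaF (Real.exp (-(4 * R)) * (-(4 * 1)) * Real.sqrt R +
      Real.exp (-(4 * R)) * (1 / (2 * Real.sqrt R))) R := h3
  have e : -((4 * R - 1 / 2) * EE R) = Real.exp (-(4 * R)) * (-(4 * 1)) * Real.sqrt R +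
      Real.exp (-(4 * R)) * (1 / (2 * Real.sqrt R)) := by
    unfold EE
    field_simp
    rw [← hss]
    have : Real.sqrt (Real.sqrt R * Real.sqrt R) = Real.sqrt R := by rw [hss]
    rw [this]
    ring
  rw [e]
  exact h4

/-- The factor `- t F'(t r) / r`, as a function of `s = r²`. -/
noncomputable def nbG (t s : ℝ) : ℝ := t ^ 2 * ((4 - 1 / (2 * (t * Real.sqrt s))) *
    EE (t * Real.sqrt s))

theorem nbG_pos {t s : ℝ} (ht : 4 ≤ t) (hs : 1 / 4 ≤ s) : 0 < nbG t s := by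
  have h1 : 1 / 2 ≤ Real.sqrt s := by
    rw [show (1 / 2 : ℝ) = Real.sqrt (1 / 4) by
      rw [show (1 / 4 : ℝ) = (1 / 2) ^ 2 by norm_num, Real.sqrt_sq (by norm_num)]]
    exact Real.sqrt_le_sqrt hs
  have h2 : 2 ≤ t * Real.sqrt s := by nlinarith
  have h3 : 1 / (2 * (t * Real.sqrt s)) ≤ 1 / 4 := by
    apply one_div_le_one_div_of_le (by norm_num)
    linarith
  have h4 : 0 < EE (t * Real.sqrt s) := by
    unfold EE
    positivity
  unfold nbG
  have h5 : 0 < 4 - 1 / (2 * (t * Real.sqrt s)) := by linarith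
  positivity

theorem nbG_le {t s s' : ℝ} (ht : 4 ≤ t) (hs : 1 / 4 ≤ s) (hs' : s ≤ 1 / 2) (h : 9 / 4 ≤ s') :
    nbG t s' ≤ nbG t s / 100 := by
  have h1 : 1 / 2 ≤ Real.sqrt s := by
    rw [show (1 / 2 : ℝ) = Real.sqrt (1 / 4) by
      rw [show (1 / 4 : ℝ) = (1 / 2) ^ 2 by norm_num, Real.sqrt_sq (by norm_num)]]
    exact Real.sqrt_le_sqrt hs
  have h2 : Real.sqrt s ≤ 3 / 4 := by
    rw [show (3 / 4 : ℝ) = Real.sqrt ((3 / 4) ^ 2) by rw [Real.sqrt_sq (by norm_num)]]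
    exact Real.sqrt_le_sqrt (by linarith)
  have h3 : 3 / 2 ≤ Real.sqrt s' := by
    rw [show (3 / 2 : ℝ) = Real.sqrt (9 / 4) by
      rw [show (9 / 4 : ℝ) = (3 / 2) ^ 2 by norm_num, Real.sqrt_sq (by norm_num)]]
    exact Real.sqrt_le_sqrt h
  set a := t * Real.sqrt s with ha
  set b := t * Real.sqrt s' with hb
  have ha2 : 2 ≤ a := by rw [ha]; nlinarith
  have hab : a + 3 ≤ b := by
    rw [ha, hb]
    nlinarith
  have hEa : 0 < EE a := by
    unfold EE
    have : 0 < a := by linarith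
    positivity
  have hEb : EE b ≤ EE a * Real.exp (-12) := by
    unfold EE
    have hsa : 0 < Real.sqrt a := Real.sqrt_pos.2 (by linarith)
    have hsb : 0 < Real.sqrt b := Real.sqrt_pos.2 (by linarith)
    have e1 : Real.exp (-(4 * b)) ≤ Real.exp (-(4 * a)) * Real.exp (-12) := by
      rw [← Real.exp_add]
      exact Real.exp_le_exp.2 (by linarith)
    have e2 : Real.sqrt a ≤ Real.sqrt b := Real.sqrt_le_sqrt (by linarith)
    calc Real.exp (-(4 * b)) / Real.sqrt b ≤ Real.exp (-(4 * b)) / Real.sqrt a :=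
          div_le_div_of_nonneg_left (Real.exp_pos _).le hsa e2
      _ ≤ (Real.exp (-(4 * a)) * Real.exp (-12)) / Real.sqrt a :=
          div_le_div_of_nonneg_right e1 hsa.le
      _ = Real.exp (-(4 * a)) / Real.sqrt a * Real.exp (-12) := by ring
  have hE12 : Real.exp (-12) ≤ 1 / 1000 := by
    rw [Real.exp_neg]
    have e3 : (2 : ℝ) ≤ Real.exp 1 := by
      have := Real.add_one_le_exp (1 : ℝ)
      linarith
    have e4 : (2 : ℝ) ^ 12 ≤ Real.exp 12 := by
      have : Real.exp 12 = Real.exp 1 ^ 12 := by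
        rw [← Real.exp_nat_mul]
        norm_num
      rw [this]
      exact pow_le_pow_left₀ (by norm_num) e3 12
    rw [inv_eq_one_div]
    apply one_div_le_one_div_of_le (by norm_num)
    refine le_trans ?_ e4
    norm_num
  have hEb' : EE b ≤ EE a / 1000 := by
    refine hEb.trans ?_
    have := mul_le_mul_of_nonneg_left hE12 hEa.le
    linarith
  have hEb0 : 0 < EE b := by
    unfold EE
    have : 0 < b := by linarith
    positivity
  have hia : 1 / (2 * a) ≤ 1 / 4 := by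
    apply one_div_le_one_div_of_le (by norm_num)
    linarith
  have hib : 0 ≤ 1 / (2 * b) := by
    have : 0 < b := by linarith
    positivity
  unfold nbG
  rw [← ha, ← hb]
  have k1 : (4 - 1 / (2 * b)) * EE b ≤ 4 * EE b :=
    mul_le_mul_of_nonneg_right (by linarith) hEb0.le
  have k2 : 3 * EE a ≤ (4 - 1 / (2 * a)) * EE a :=
    mul_le_mul_of_nonneg_right (by linarith) hEa.le
  have k3 : (4 - 1 / (2 * b)) * EE b ≤ (4 - 1 / (2 * a)) * EE a / 100 := by linarith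
  have k4 := mul_le_mul_of_nonneg_left k3 (sq_nonneg t)
  linarith

/-- The `x`-derivative of the nine point sum is `- nbS`. -/
noncomputable def nbS (t x y : ℝ) : ℝ :=
  nbG t (x ^ 2 + y ^ 2) * x + 2 * (nbG t ((x - 1) ^ 2 + y ^ 2) * (x - 1)
    + nbG t ((x + 1) ^ 2 + y ^ 2) * (x + 1)
    + nbG t (x ^ 2 + (y - 1) ^ 2) * x + nbG t (x ^ 2 + (y + 1) ^ 2) * x
    + nbG t ((x - 1) ^ 2 + (y - 1) ^ 2) * (x - 1) + nbG t ((x - 1) ^ 2 + (y + 1) ^ 2) * (x - 1)
    + nbG t ((x + 1) ^ 2 + (y + 1) ^ 2) * (x + 1) + nbG t ((x + 1) ^ 2 + (y - 1) ^ 2) * (x + 1))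

theorem nbS_neg {t x y : ℝ} (ht : 4 ≤ t) (hx : |x| = 1 / 2) (hy : |y| ≤ 1 / 2) :
    x * nbS t x y < 0 := by
  have hy2 : y ^ 2 ≤ 1 / 4 := by
    have := abs_le.1 hy
    nlinarith
  have hy0 : 0 ≤ y ^ 2 := sq_nonneg y
  have hx2 : x ^ 2 = 1 / 4 := by
    rw [← sq_abs, hx]
    norm_num
  have p0 : 0 < nbG t (x ^ 2 + y ^ 2) := nbG_pos ht (by linarith)
  rcases (abs_eq (by norm_num : (0 : ℝ) ≤ 1 / 2)).1 hx with h | h
  · subst h
    have e1 : ((1 / 2 : ℝ) - 1) ^ 2 = (1 / 2) ^ 2 := by norm_num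
    have b1 : nbG t ((1 / 2 + 1) ^ 2 + y ^ 2) ≤ nbG t ((1 / 2) ^ 2 + y ^ 2) / 100 :=
      nbG_le ht (by linarith) (by linarith) (by nlinarith)
    have b2 : nbG t ((1 / 2 + 1) ^ 2 + (y + 1) ^ 2) ≤ nbG t ((1 / 2) ^ 2 + y ^ 2) / 100 :=
      nbG_le ht (by linarith) (by linarith) (by nlinarith [sq_nonneg (y + 1)])
    have b3 : nbG t ((1 / 2 + 1) ^ 2 + (y - 1) ^ 2) ≤ nbG t ((1 / 2) ^ 2 + y ^ 2) / 100 :=
      nbG_le ht (by linarith) (by linarith) (by nlinarith [sq_nonneg (y - 1)])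
    unfold nbS
    rw [e1]
    nlinarith
  · subst h
    have e1 : ((-(1 / 2) : ℝ) + 1) ^ 2 = (-(1 / 2)) ^ 2 := by norm_num
    have b1 : nbG t ((-(1 / 2) - 1) ^ 2 + y ^ 2) ≤ nbG t ((-(1 / 2)) ^ 2 + y ^ 2) / 100 :=
      nbG_le ht (by linarith) (by linarith) (by nlinarith)
    have b2 : nbG t ((-(1 / 2) - 1) ^ 2 + (y + 1) ^ 2) ≤ nbG t ((-(1 / 2)) ^ 2 + y ^ 2) / 100 :=
      nbG_le ht (by linarith) (by linarith) (by nlinarith [sq_nonneg (y + 1)])
    have b3 : nbG t ((-(1 / 2) - 1) ^ 2 + (y - 1) ^ 2) ≤ nbG t ((-(1 / 2)) ^ 2 + y ^ 2) / 100 :=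
      nbG_le ht (by linarith) (by linarith) (by nlinarith [sq_nonneg (y - 1)])
    unfold nbS
    rw [e1]
    nlinarith

/-- One summand. -/
theorem nb_term {a w : ℂ} (ht : 0 < t) (h : w ≠ a) : ∃ L : ℂ →L[ℝ] ℝ,
    HasFDerivAt (fun z : ℂ => betaF (t * ‖z - a‖)) L w ∧
    L 1 = -(nbG t ((w.re - a.re) ^ 2 + (w.im - a.im) ^ 2) * (w.re - a.re)) ∧
    L I = -(nbG t ((w.re - a.re) ^ 2 + (w.im - a.im) ^ 2) * (w.im - a.im)) := by
  have hn : 0 < ‖w - a‖ := norm_pos_iff.2 (sub_ne_zero.2 h)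
  have hF : HasDerivAt (fun r : ℝ => betaF (t * r))
      (-((4 * (t * ‖w - a‖) - 1 / 2) * EE (t * ‖w - a‖)) * (t * 1)) ‖w - a‖ :=
    (nb_hasDerivAt (mul_pos ht hn)).comp ‖w - a‖ ((hasDerivAt_id ‖w - a‖).const_mul t)
  have hd := dx_radial h hF.differentiableAt
  rw [hF.deriv] at hd
  have hdiff : DifferentiableAt ℝ (fun z : ℂ => ‖z - a‖) w := by
    have h1 : DifferentiableAt ℝ (fun z : ℂ => z - a) w := by fun_prop
    exact h1.norm ℝ (sub_ne_zero.2 h)
  have hdd : DifferentiableAt ℝ (fun z : ℂ => betaF (t * ‖z - a‖)) w := by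
    have h2 : DifferentiableAt ℝ (fun r : ℝ => betaF (t * r)) ‖w - a‖ := hF.differentiableAt
    exact DifferentiableAt.comp (f := fun z : ℂ => ‖z - a‖)
      (g := fun r : ℝ => betaF (t * r)) w h2 hdiff
  have hs : Real.sqrt ((w.re - a.re) ^ 2 + (w.im - a.im) ^ 2) = ‖w - a‖ := by
    rw [Complex.norm_eq_sqrt_sq_add_sq, Complex.sub_re, Complex.sub_im]
  refine ⟨fderiv ℝ (fun z : ℂ => betaF (t * ‖z - a‖)) w, hdd.hasFDerivAt, ?_, ?_⟩
  · have := hd.1
    unfold dx at this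
    rw [this]
    unfold nbG
    rw [hs, Complex.sub_re]
    field_simp
  · have := hd.2
    unfold dy at this
    rw [this]
    unfold nbG
    rw [hs, Complex.sub_im]
    field_simp

theorem nb_deriv (ht : 0 < t) {w : ℂ} (h : w ∉ ZI) :
    dx (nine betaF t) w = -nbS t w.re w.im ∧ dy (nine betaF t) w = -nbS t w.im w.re := by
  have hne : ∀ m n : ℤ, w ≠ (m : ℂ) + n * I := fun m n he => h ⟨m, n, he⟩
  obtain ⟨L0, h0, x0, y0⟩ := nb_term (a := 0) ht (by simpa using hne 0 0)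
  obtain ⟨L1, h1, x1, y1⟩ := nb_term (a := 1) ht (by simpa using hne 1 0)
  obtain ⟨L2, h2, x2, y2⟩ := nb_term (a := -1) ht (by simpa using hne (-1) 0)
  obtain ⟨L3, h3, x3, y3⟩ := nb_term (a := I) ht (by simpa using hne 0 1)
  obtain ⟨L4, h4, x4, y4⟩ := nb_term (a := -I) ht (by simpa using hne 0 (-1))
  obtain ⟨L5, h5, x5, y5⟩ := nb_term (a := 1 + I) ht (by simpa using hne 1 1)
  have n6 : w ≠ 1 - I := by
    have := hne 1 (-1)
    intro he
    apply this
    rw [he]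
    push_cast
    ring
  obtain ⟨L6, h6, x6, y6⟩ := nb_term (a := 1 - I) ht n6
  have n7 : w ≠ -(1 + I) := by
    have := hne (-1) (-1)
    intro he
    apply this
    rw [he]
    push_cast
    ring
  obtain ⟨L7, h7, x7, y7⟩ := nb_term (a := -(1 + I)) ht n7
  have n8 : w ≠ -(1 - I) := by
    have := hne (-1) 1
    intro he
    apply this
    rw [he]
    push_cast
    ring
  obtain ⟨L8, h8, x8, y8⟩ := nb_term (a := -(1 - I)) ht n8
  have hnine : nine betaF t = fun z : ℂ => betaF (t * ‖z - 0‖) + 2 * (betaF (t * ‖z - 1‖)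
      + betaF (t * ‖z - (-1)‖) + betaF (t * ‖z - I‖) + betaF (t * ‖z - (-I)‖)
      + betaF (t * ‖z - (1 + I)‖) + betaF (t * ‖z - (1 - I)‖) + betaF (t * ‖z - (-(1 + I))‖)
      + betaF (t * ‖z - (-(1 - I))‖)) := by
    funext z
    unfold nine
    rw [sub_zero, sub_neg_eq_add, sub_neg_eq_add, sub_neg_eq_add, sub_neg_eq_add]
  have hH := h0.add (((((((((h1.add h2).add h3).add h4).add h5).add h6).add h7).add h8)).const_mul 2)
  have hH' : HasFDerivAt (nine betaF t)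
      (L0 + (2 : ℝ) • (L1 + L2 + L3 + L4 + L5 + L6 + L7 + L8)) w := by
    rw [hnine]
    exact hH
  have hfd := hH'.fderiv
  constructor
  · unfold dx
    rw [hfd]
    simp only [_root_.add_apply, _root_.smul_apply, smul_eq_mul]
    rw [x0, x1, x2, x3, x4, x5, x6, x7, x8]
    unfold nbS
    simp
    ring_nf
  · unfold dy
    rw [hfd]
    simp only [_root_.add_apply, _root_.smul_apply, smul_eq_mul]
    rw [y0, y1, y2, y3, y4, y5, y6, y7, y8]
    unfold nbS
    simp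
    ring_nf

theorem nine_betaF_normal (ht : 4 ≤ t) {w : ℂ} (hw : w ∈ QQ) :
    (|w.re| = 1 / 2 → 0 < w.re * dx (nine betaF t) w) ∧
    (|w.im| = 1 / 2 → 0 < w.im * dy (nine betaF t) w) := by
  have ht0 : 0 < t := by linarith
  have hQ : |w.re| ≤ 1 / 2 ∧ |w.im| ≤ 1 / 2 := hw
  constructor
  · intro hx
    have hZ : w ∉ ZI := by
      intro hz
      have := QQ_inter_ZI hw hz
      rw [this] at hx
      norm_num at hx
    rw [(nb_deriv ht0 hZ).1]
    have := nbS_neg ht hx hQ.2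
    linarith
  · intro hx
    have hZ : w ∉ ZI := by
      intro hz
      have := QQ_inter_ZI hw hz
      rw [this] at hx
      norm_num at hx
    rw [(nb_deriv ht0 hZ).2]
    have := nbS_neg ht hx hQ.1
    linarith

end GM16
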