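import Pool.Agent.LibGM16.CalcB
import Pool.Agent.LibGM16.Latt

open Complex MeasureTheory Filter Topology Matrix
open scoped ContDiff Real ComplexOrder

namespace GM16

variable {γ t : ℝ} {v v' f f' : ℂ → ℝ}

theorem om0_per (w : ℂ) : om0 (w + 1) = om0 w ∧ om0 (w + I) = om0 w := by
  constructor
  · simp only [om0, add_re, one_re, add_im, one_im, add_zero]
    rw [show π * (w.re + 1) = π * w.re + π by ring, Real.sin_add_pi]
    simp
  · simp only [om0, add_re, I_re, add_im, I_im, add_zero]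
    rw [show π * (w.im + 1) = π * w.im + π by ring, Real.sin_add_pi]
    simp

theorem om0_ge (w : ℂ) : 8 / 5 ≤ om0 w := by
  have h1 := Real.sin_sq_le_one (π * w.re)
  have h2 := Real.sin_sq_le_one (π * w.im)
  have h3 := sq_nonneg (Real.sin (π * w.re))
  have h4 := sq_nonneg (Real.sin (π * w.im))
  have hl := Real.log_two_lt_d9
  unfold om0
  rcases (add_nonneg h3 h4).eq_or_lt with h0 | h0
  · rw [← h0]; norm_num
  · have := Real.log_le_log h0 (show _ ≤ (2 : ℝ) by linarith)
    linarith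

/-- `sin² πx + sin² πy` -/
private noncomputable def uu (w : ℂ) : ℝ := Real.sin (π * w.re) ^ 2 + Real.sin (π * w.im) ^ 2

private theorem uu_pos {w : ℂ} (hw : w ∉ ZI) : 0 < uu w := by
  have h3 := sq_nonneg (Real.sin (π * w.re))
  have h4 := sq_nonneg (Real.sin (π * w.im))
  rcases (add_nonneg h3 h4).eq_or_lt with h0 | h0
  · exfalso
    have e1 : Real.sin (π * w.re) = 0 := by
      have : Real.sin (π * w.re) ^ 2 = 0 := by linarith
      exact pow_eq_zero_iff (two_ne_zero) |>.mp this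
    have e2 : Real.sin (π * w.im) = 0 := by
      have : Real.sin (π * w.im) ^ 2 = 0 := by linarith
      exact pow_eq_zero_iff (two_ne_zero) |>.mp this
    obtain ⟨m, hm⟩ := Real.sin_eq_zero_iff.mp e1
    obtain ⟨n, hn⟩ := Real.sin_eq_zero_iff.mp e2
    have hm' : w.re = m := by
      have : π * ((m : ℝ) - w.re) = 0 := by linarith
      rcases mul_eq_zero.mp this with h | h
      · exact absurd h Real.pi_ne_zero
      · linarith
    have hn' : w.im = n := by
      have : π * ((n : ℝ) - w.im) = 0 := by linarith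
      rcases mul_eq_zero.mp this with h | h
      · exact absurd h Real.pi_ne_zero
      · linarith
    refine hw ⟨m, n, ?_⟩
    apply Complex.ext
    · simpa using hm'
    · simpa using hn'
  · exact h0

private theorem contDiff_re' {n : WithTop ℕ∞} : ContDiff ℝ n (fun w : ℂ => w.re) :=
  Complex.reCLM.contDiff

private theorem contDiff_im' {n : WithTop ℕ∞} : ContDiff ℝ n (fun w : ℂ => w.im) :=
  Complex.imCLM.contDiff

private theorem contDiff_uu {n : WithTop ℕ∞} : ContDiff ℝ n uu := by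
  unfold uu
  have h1 := contDiff_re' (n := n)
  have h2 := contDiff_im' (n := n)
  exact ((Real.contDiff_sin.comp (contDiff_const.mul h1)).pow 2).add
    ((Real.contDiff_sin.comp (contDiff_const.mul h2)).pow 2)

theorem om0_smooth : ContDiffOn ℝ ∞ om0 ZIᶜ := by
  have h : om0 = fun w => 2 - Real.log (uu w) / 2 := rfl
  rw [h]
  apply ContDiffOn.sub contDiffOn_const
  apply ContDiffOn.div_const
  exact ContDiffOn.log contDiff_uu.contDiffOn (fun w hw => (uu_pos hw).ne')

private theorem fderiv_re {g : ℝ → ℝ} {g' : ℝ} {w : ℂ} (hg : HasDerivAt g g' w.re) :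
    HasFDerivAt (fun z : ℂ => g z.re) (g' • Complex.reCLM) w := by
  have h1 : HasFDerivAt (fun z : ℂ => z.re) Complex.reCLM w := Complex.reCLM.hasFDerivAt
  exact hg.comp_hasFDerivAt w h1

private theorem fderiv_im {g : ℝ → ℝ} {g' : ℝ} {w : ℂ} (hg : HasDerivAt g g' w.im) :
    HasFDerivAt (fun z : ℂ => g z.im) (g' • Complex.imCLM) w := by
  have h1 : HasFDerivAt (fun z : ℂ => z.im) Complex.imCLM w := Complex.imCLM.hasFDerivAt
  exact hg.comp_hasFDerivAt w h1

private theorem hasDeriv_ss (x : ℝ) :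
    HasDerivAt (fun x : ℝ => Real.sin (π * x) ^ 2) (π * Real.sin (2 * π * x)) x := by
  have h1 : HasDerivAt (fun x : ℝ => π * x) π x := by
    simpa using (hasDerivAt_id x).const_mul π
  have h2 : HasDerivAt (fun x : ℝ => Real.sin (π * x) ^ 2) _ x :=
    ((Real.hasDerivAt_sin (π * x)).comp x h1).pow 2
  refine h2.congr_deriv ?_
  rw [show 2 * π * x = 2 * (π * x) by ring, Real.sin_two_mul]
  simp only [Function.comp]
  push_cast
  ring

private theorem hasDeriv_s2 (x : ℝ) :
    HasDerivAt (fun x : ℝ => π * Real.sin (2 * π * x)) (2 * π ^ 2 * Real.cos (2 * π * x)) x := by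
  have h1 : HasDerivAt (fun x : ℝ => 2 * π * x) (2 * π) x := by
    simpa using (hasDerivAt_id x).const_mul (2 * π)
  have h2 : HasDerivAt (fun x : ℝ => π * Real.sin (2 * π * x)) _ x :=
    ((Real.hasDerivAt_sin (2 * π * x)).comp x h1).const_mul π
  refine h2.congr_deriv ?_
  ring

private theorem hasFDeriv_uu (w : ℂ) : HasFDerivAt uu
    ((π * Real.sin (2 * π * w.re)) • Complex.reCLM + (π * Real.sin (2 * π * w.im)) • Complex.imCLM)
    w := by
  have := (fderiv_re (hasDeriv_ss w.re)).add (fderiv_im (hasDeriv_ss w.im))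
  exact this

private theorem dx_uu (w : ℂ) : dx uu w = π * Real.sin (2 * π * w.re) := by
  unfold dx
  rw [(hasFDeriv_uu w).fderiv]
  simp

private theorem dy_uu (w : ℂ) : dy uu w = π * Real.sin (2 * π * w.im) := by
  unfold dy
  rw [(hasFDeriv_uu w).fderiv]
  simp

private theorem lap_uu (w : ℂ) : lap uu w =
    2 * π ^ 2 * Real.cos (2 * π * w.re) + 2 * π ^ 2 * Real.cos (2 * π * w.im) := by
  have h1 : dx uu = fun w => π * Real.sin (2 * π * w.re) := funext dx_uu
  have h2 : dy uu = fun w => π * Real.sin (2 * π * w.im) := funext dy_uu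
  unfold lap
  rw [h1, h2]
  unfold dx dy
  rw [(fderiv_re (hasDeriv_s2 w.re)).fderiv, (fderiv_im (hasDeriv_s2 w.im)).fderiv]
  simp

/-- `Δ om0 = 4π² sin²πx sin²πy / (sin²πx + sin²πy)² ∈ [0, π²]`. -/
theorem lap_om0 {w : ℂ} (hw : w ∉ ZI) : 0 ≤ lap om0 w ∧ lap om0 w ≤ 16 * om0 w := by
  have hu := uu_pos hw
  set F : ℝ → ℝ := fun s => 2 - Real.log s / 2 with hFdef
  have h : om0 = fun w => F (uu w) := rfl
  have hF : ContDiffAt ℝ 2 F (uu w) := by
    apply ContDiffAt.sub contDiffAt_const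
    apply ContDiffAt.div_const
    exact Real.contDiffAt_log.mpr hu.ne'
  have hd : ∀ s : ℝ, s ≠ 0 → deriv F s = -(1 / (2 * s)) := by
    intro s hs
    have h1 : HasDerivAt F (0 - s⁻¹ / 2) s :=
      (hasDerivAt_const s (2 : ℝ)).sub ((Real.hasDerivAt_log hs).div_const 2)
    rw [h1.deriv]
    field_simp
    ring
  have hd2 : deriv (deriv F) (uu w) = 1 / (2 * (uu w) ^ 2) := by
    have h1 : deriv F =ᶠ[𝓝 (uu w)] fun s => -(1 / 2) * s⁻¹ := by
      filter_upwards [isOpen_ne.mem_nhds hu.ne'] with s hs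
      rw [hd s hs]
      field_simp
    rw [h1.deriv_eq]
    have h2 : HasDerivAt (fun s : ℝ => -(1 / 2) * s⁻¹) (-(1 / 2) * (-((uu w) ^ 2)⁻¹)) (uu w) :=
      (hasDerivAt_inv hu.ne').const_mul _
    rw [h2.deriv]
    field_simp
  have key : lap om0 w = 4 * π ^ 2 * (Real.sin (π * w.re) ^ 2 * Real.sin (π * w.im) ^ 2) /
      (uu w) ^ 2 := by
    rw [h, lap_comp hF contDiff_uu.contDiffAt, hd _ hu.ne', hd2, lap_uu, dx_uu, dy_uu]
    have c1 : Real.cos (2 * π * w.re) = 1 - 2 * Real.sin (π * w.re) ^ 2 := by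
      rw [show 2 * π * w.re = 2 * (π * w.re) by ring, Real.cos_two_mul']
      have := Real.sin_sq_add_cos_sq (π * w.re)
      linarith
    have c2 : Real.cos (2 * π * w.im) = 1 - 2 * Real.sin (π * w.im) ^ 2 := by
      rw [show 2 * π * w.im = 2 * (π * w.im) by ring, Real.cos_two_mul']
      have := Real.sin_sq_add_cos_sq (π * w.im)
      linarith
    have s1 : Real.sin (2 * π * w.re) ^ 2 = 4 * Real.sin (π * w.re) ^ 2 *
        (1 - Real.sin (π * w.re) ^ 2) := by
      have e := Real.sin_sq_add_cos_sq (2 * π * w.re)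
      rw [c1] at e
      nlinarith [e]
    have s2 : Real.sin (2 * π * w.im) ^ 2 = 4 * Real.sin (π * w.im) ^ 2 *
        (1 - Real.sin (π * w.im) ^ 2) := by
      have e := Real.sin_sq_add_cos_sq (2 * π * w.im)
      rw [c2] at e
      nlinarith [e]
    rw [mul_pow, mul_pow, s1, s2, c1, c2]
    have hud : uu w = Real.sin (π * w.re) ^ 2 + Real.sin (π * w.im) ^ 2 := rfl
    have hu' := hu.ne'
    rw [hud] at hu' ⊢
    field_simp
    ring
  rw [key]
  have hud : uu w = Real.sin (π * w.re) ^ 2 + Real.sin (π * w.im) ^ 2 := rfl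
  have h3 := sq_nonneg (Real.sin (π * w.re))
  have h4 := sq_nonneg (Real.sin (π * w.im))
  constructor
  · positivity
  · have hg := om0_ge w
    have hb : 4 * π ^ 2 * (Real.sin (π * w.re) ^ 2 * Real.sin (π * w.im) ^ 2) / (uu w) ^ 2 ≤
        π ^ 2 := by
      rw [div_le_iff₀ (by positivity), hud]
      have hpi : 0 ≤ π ^ 2 := sq_nonneg _
      have : 4 * (Real.sin (π * w.re) ^ 2 * Real.sin (π * w.im) ^ 2) ≤
          (Real.sin (π * w.re) ^ 2 + Real.sin (π * w.im) ^ 2) ^ 2 := by
        nlinarith [sq_nonneg (Real.sin (π * w.re) ^ 2 - Real.sin (π * w.im) ^ 2)]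
      nlinarith
    have hpi2 : π ^ 2 ≤ 16 := by
      have := Real.pi_lt_four
      have := Real.pi_pos
      nlinarith
    linarith

private theorem neg_one_zpow_sq' (m : ℤ) : ((-1 : ℝ) ^ m) ^ 2 = 1 := by
  rcases Int.even_or_odd m with h | h
  · rw [h.neg_one_zpow]; norm_num
  · rw [h.neg_one_zpow]; norm_num

/-- `om0 ~ -log|w - l|` at lattice points. -/
theorem om0_near {l : ℂ} (hl : l ∈ ZI) :
    ∃ C : ℝ, ∀ᶠ w in 𝓝[≠] l, -Real.log ‖w - l‖ - C ≤ om0 w := by
  refine ⟨Real.log π, ?_⟩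
  have hb : Metric.ball l 1 ∈ 𝓝 l := Metric.ball_mem_nhds l one_pos
  filter_upwards [nhdsWithin_le_nhds hb, self_mem_nhdsWithin] with w hw hne
  have hne' : w - l ≠ 0 := sub_ne_zero.mpr hne
  have hwZ : w ∉ ZI := by
    intro hwz
    have h1 : w - l ∈ ZI := by
      rw [sub_eq_add_neg]
      exact ZI_add hwz (ZI_neg hl)
    have h2 := one_le_norm_ZI h1 hne'
    have h3 : ‖w - l‖ < 1 := by
      rw [← dist_eq_norm]
      exact hw
    linarith
  have hu := uu_pos hwZ
  have hn : 0 < ‖w - l‖ := norm_pos_iff.mpr hne'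
  -- periodicity of the squares
  have hle : uu w ≤ (π * ‖w - l‖) ^ 2 := by
    obtain ⟨m, n, rfl⟩ := hl
    have e1 : Real.sin (π * w.re) ^ 2 = Real.sin (π * (w.re - m)) ^ 2 := by
      rw [show π * (w.re - m) = π * w.re - m * π by ring, Real.sin_sub_int_mul_pi]
      rw [mul_pow, neg_one_zpow_sq', one_mul]
    have e2 : Real.sin (π * w.im) ^ 2 = Real.sin (π * (w.im - n)) ^ 2 := by
      rw [show π * (w.im - n) = π * w.im - n * π by ring, Real.sin_sub_int_mul_pi]
      rw [mul_pow, neg_one_zpow_sq', one_mul]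
    have b : ∀ x : ℝ, Real.sin x ^ 2 ≤ x ^ 2 := fun x => by
      have := Real.abs_sin_le_abs (x := x)
      exact sq_le_sq.mpr this
    have hnorm : ‖w - ((m : ℂ) + n * I)‖ ^ 2 = (w.re - m) ^ 2 + (w.im - n) ^ 2 := by
      rw [← Complex.normSq_eq_norm_sq, Complex.normSq_apply]
      simp
      ring
    rw [mul_pow, hnorm]
    unfold uu
    rw [e1, e2]
    have b1 := b (π * (w.re - m))
    have b2 := b (π * (w.im - n))
    nlinarith
  have hlog : Real.log (uu w) ≤ 2 * (Real.log π + Real.log ‖w - l‖) := by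
    calc Real.log (uu w) ≤ Real.log ((π * ‖w - l‖) ^ 2) := Real.log_le_log hu hle
      _ = 2 * Real.log (π * ‖w - l‖) := by rw [Real.log_pow]; norm_num
      _ = _ := by rw [Real.log_mul Real.pi_ne_zero hn.ne']
  have : om0 w = 2 - Real.log (uu w) / 2 := rfl
  rw [this]
  linarith

end GM16
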