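import Pool.Agent.LibGM16.PohoDefs
import Pool.Agent.LibGM16.GradV
import Pool.Agent.LibGM16.GradF
import Pool.Agent.LibGM16.Le3
import Pool.Agent.LibGM16.Sign

open Complex MeasureTheory Filter Topology Matrix
open scoped ContDiff Real ComplexOrder

namespace GM16

variable {γ t : ℝ} {v v' f f' : ℂ → ℝ}

private theorem PFnear_alg {x y vx vy fx fy p r : ℝ} (hx : |x| ≤ r) (hy : |y| ≤ r) :
    r * |(x * vx + y * vy) * fx + (x * fx + y * fy) * vx - (vx * fx + vy * fy + p) * x| ≤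
      3 * ((r * (|vx| + |vy|)) * (r * (|fx| + |fy|))) + r ^ 2 * |p| := by
  have hr : 0 ≤ r := (abs_nonneg x).trans hx
  have h1 : |x * vx + y * vy| ≤ r * (|vx| + |vy|) := by
    calc |x * vx + y * vy| ≤ |x * vx| + |y * vy| := abs_add_le _ _
      _ = |x| * |vx| + |y| * |vy| := by rw [abs_mul, abs_mul]
      _ ≤ r * |vx| + r * |vy| := by gcongr
      _ = r * (|vx| + |vy|) := by ring
  have h2 : |x * fx + y * fy| ≤ r * (|fx| + |fy|) := by
    calc |x * fx + y * fy| ≤ |x * fx| + |y * fy| := abs_add_le _ _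
      _ = |x| * |fx| + |y| * |fy| := by rw [abs_mul, abs_mul]
      _ ≤ r * |fx| + r * |fy| := by gcongr
      _ = r * (|fx| + |fy|) := by ring
  have h3 : |vx * fx + vy * fy + p| ≤ (|vx| + |vy|) * (|fx| + |fy|) + |p| := by
    calc |vx * fx + vy * fy + p| ≤ |vx * fx + vy * fy| + |p| := abs_add_le _ _
      _ ≤ |vx * fx| + |vy * fy| + |p| := by gcongr; exact abs_add_le _ _
      _ = |vx| * |fx| + |vy| * |fy| + |p| := by rw [abs_mul, abs_mul]
      _ ≤ (|vx| + |vy|) * (|fx| + |fy|) + |p| := by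
          nlinarith [mul_nonneg (abs_nonneg vx) (abs_nonneg fy),
            mul_nonneg (abs_nonneg vy) (abs_nonneg fx)]
  have hA : 0 ≤ |vx| + |vy| := by positivity
  have hB : 0 ≤ |fx| + |fy| := by positivity
  have h4 : |fx| ≤ |fx| + |fy| := by linarith [abs_nonneg fy]
  have h5 : |vx| ≤ |vx| + |vy| := by linarith [abs_nonneg vy]
  have h6 : |(x * vx + y * vy) * fx + (x * fx + y * fy) * vx - (vx * fx + vy * fy + p) * x| ≤
      r * (|vx| + |vy|) * (|fx| + |fy|) + r * (|fx| + |fy|) * (|vx| + |vy|) +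
        ((|vx| + |vy|) * (|fx| + |fy|) + |p|) * r := by
    calc |(x * vx + y * vy) * fx + (x * fx + y * fy) * vx - (vx * fx + vy * fy + p) * x|
        ≤ |(x * vx + y * vy) * fx + (x * fx + y * fy) * vx| + |(vx * fx + vy * fy + p) * x| :=
          abs_sub _ _
      _ ≤ |(x * vx + y * vy) * fx| + |(x * fx + y * fy) * vx| + |(vx * fx + vy * fy + p) * x| := by
          gcongr; exact abs_add_le _ _
      _ = |x * vx + y * vy| * |fx| + |x * fx + y * fy| * |vx| + |vx * fx + vy * fy + p| * |x| := by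
          rw [abs_mul, abs_mul, abs_mul]
      _ ≤ _ := by
          refine add_le_add (add_le_add ?_ ?_) ?_
          · exact mul_le_mul h1 h4 (abs_nonneg _) (by positivity)
          · exact mul_le_mul h2 h5 (abs_nonneg _) (by positivity)
          · exact mul_le_mul h3 hx (abs_nonneg _) (by positivity)
  calc r * |(x * vx + y * vy) * fx + (x * fx + y * fy) * vx - (vx * fx + vy * fy + p) * x|
      ≤ r * (r * (|vx| + |vy|) * (|fx| + |fy|) + r * (|fx| + |fy|) * (|vx| + |vy|) +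
        ((|vx| + |vy|) * (|fx| + |fy|) + |p|) * r) := mul_le_mul_of_nonneg_left h6 hr
    _ = _ := by ring

theorem PF_near (hγ : 0 < γ) (hγ' : γ ≤ 1 / 8) (ht : 1 ≤ t) (hv : Sol γ t v) (h : LinSol t v f) :
    Tendsto (fun w => ‖w‖ * (|PF t v f w| + |PG t v f w|)) (𝓝[≠] (0 : ℂ)) (𝓝 0) := by
  obtain ⟨C, hC, hexp⟩ := exp_v_le hγ hγ' ht hv
  obtain ⟨D, hD⟩ := grad_v_near hγ hγ' ht hv
  have hF := grad_f_near hγ hγ' ht hv h
  have hn : Tendsto (fun w : ℂ => ‖w‖) (𝓝[≠] 0) (𝓝 0) := by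
    have : Tendsto (fun w : ℂ => ‖w‖) (𝓝 0) (𝓝 0) := by simpa using continuous_norm.tendsto (0 : ℂ)
    exact this.mono_left nhdsWithin_le_nhds
  have hup : Tendsto (fun w : ℂ => 6 * (D * (‖w‖ * (|dx f w| + |dy f w|))) +
      8 * t ^ 2 * C * ‖w‖) (𝓝[≠] 0) (𝓝 0) := by
    have := ((hF.const_mul D).const_mul 6).add (hn.const_mul (8 * t ^ 2 * C))
    simpa using this
  have hnear : ∀ᶠ w in 𝓝[≠] (0 : ℂ), ‖w‖ < 1 / 2 := hn.eventually (gt_mem_nhds (by norm_num))
  refine squeeze_zero' (Eventually.of_forall fun w => by positivity) ?_ hup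
  filter_upwards [hD, hnear, self_mem_nhdsWithin] with w h1 h2 hw
  have hw0 : w ≠ 0 := hw
  have hwp : 0 < ‖w‖ := norm_pos_iff.mpr hw0
  have hQ : w ∈ QQ := ⟨by have := abs_re_le_norm w; linarith, by have := abs_im_le_norm w; linarith⟩
  have hE : Real.exp (2 * v w) ≤ C * ‖w‖⁻¹ := by
    refine (hexp w hQ hw0).trans (mul_le_mul_of_nonneg_left ?_ hC.le)
    rw [← Real.rpow_neg_one]
    exact Real.rpow_le_rpow_of_exponent_ge hwp (by linarith) (by norm_num)
  have hv0 := v_nonneg hγ ht hv w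
  have hsinh0 : 0 ≤ Real.sinh (2 * v w) := Real.sinh_nonneg_iff.mpr (by linarith)
  have hcosh1 : 1 ≤ Real.cosh (2 * v w) := Real.one_le_cosh _
  have hsum : Real.cosh (2 * v w) + Real.sinh (2 * v w) = Real.exp (2 * v w) :=
    Real.cosh_add_sinh _
  have hfb := h.bdd w
  have hΨ : ‖w‖ ^ 2 * |Psi t v f w| ≤ 4 * t ^ 2 * C * ‖w‖ := by
    have h3 : |Psi t v f w| ≤ 4 * t ^ 2 * Real.exp (2 * v w) := by
      calc |Psi t v f w| ≤ |8 * t ^ 2 * f w * Real.sinh (2 * v w)| +
            |4 * t ^ 2 * (Real.cosh (2 * v w) - 1)| := abs_add_le _ _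
        _ = 8 * t ^ 2 * |f w| * Real.sinh (2 * v w) + 4 * t ^ 2 * (Real.cosh (2 * v w) - 1) := by
            have h5 : 0 ≤ Real.cosh (2 * v w) - 1 := by linarith
            rw [abs_mul, abs_mul, abs_of_nonneg (by positivity : 0 ≤ 8 * t ^ 2),
              abs_of_nonneg hsinh0, abs_of_nonneg
              (by positivity : 0 ≤ 4 * t ^ 2 * (Real.cosh (2 * v w) - 1))]
        _ ≤ 8 * t ^ 2 * (1 / 4) * Real.sinh (2 * v w) + 4 * t ^ 2 * (Real.cosh (2 * v w) - 1) := by
            gcongr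
        _ ≤ 4 * t ^ 2 * Real.exp (2 * v w) := by
            rw [← hsum]
            have : 0 ≤ t ^ 2 * Real.sinh (2 * v w) := by positivity
            have : 0 ≤ t ^ 2 := by positivity
            nlinarith
    calc ‖w‖ ^ 2 * |Psi t v f w| ≤ ‖w‖ ^ 2 * (4 * t ^ 2 * (C * ‖w‖⁻¹)) := by
          refine mul_le_mul_of_nonneg_left (h3.trans ?_) (by positivity)
          exact mul_le_mul_of_nonneg_left hE (by positivity)
      _ = 4 * t ^ 2 * C * ‖w‖ := by field_simp
  have hAB : (‖w‖ * (|dx v w| + |dy v w|)) * (‖w‖ * (|dx f w| + |dy f w|)) ≤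
      D * (‖w‖ * (|dx f w| + |dy f w|)) := mul_le_mul_of_nonneg_right h1 (by positivity)
  have k1 := PFnear_alg (x := w.re) (y := w.im) (vx := dx v w) (vy := dy v w) (fx := dx f w)
    (fy := dy f w) (p := Psi t v f w) (r := ‖w‖) (abs_re_le_norm w) (abs_im_le_norm w)
  have k2 := PFnear_alg (x := w.im) (y := w.re) (vx := dy v w) (vy := dx v w) (fx := dy f w)
    (fy := dx f w) (p := Psi t v f w) (r := ‖w‖) (abs_im_le_norm w) (abs_re_le_norm w)
  have e1 : PF t v f w = (w.re * dx v w + w.im * dy v w) * dx f w +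
      (w.re * dx f w + w.im * dy f w) * dx v w -
      (dx v w * dx f w + dy v w * dy f w + Psi t v f w) * w.re := rfl
  have e2 : PG t v f w = (w.im * dy v w + w.re * dx v w) * dy f w +
      (w.im * dy f w + w.re * dx f w) * dy v w -
      (dy v w * dy f w + dx v w * dx f w + Psi t v f w) * w.im := by
    rw [PG]; ring
  rw [← e1] at k1
  rw [← e2] at k2
  have e3 : |dy v w| + |dx v w| = |dx v w| + |dy v w| := add_comm _ _
  have e4 : |dy f w| + |dx f w| = |dx f w| + |dy f w| := add_comm _ _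
  rw [e3, e4] at k2
  rw [mul_add]
  linarith

end GM16
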