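import Pool.Agent.LibGM16.Defs

open Complex MeasureTheory Filter Topology Matrix
open scoped ContDiff Real ComplexOrder

namespace GM16

variable {γ t : ℝ} {v v' f f' : ℂ → ℝ}

/-- The first component of the Pohozaev field. -/
noncomputable def PF (t : ℝ) (v f : ℂ → ℝ) (w : ℂ) : ℝ :=
  (w.re * dx v w + w.im * dy v w) * dx f w + (w.re * dx f w + w.im * dy f w) * dx v w
    - (dx v w * dx f w + dy v w * dy f w + Psi t v f w) * w.re

/-- The second component of the Pohozaev field. -/
noncomputable def PG (t : ℝ) (v f : ℂ → ℝ) (w : ℂ) : ℝ :=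
  (w.re * dx v w + w.im * dy v w) * dy f w + (w.re * dx f w + w.im * dy f w) * dy v w
    - (dx v w * dx f w + dy v w * dy f w + Psi t v f w) * w.im

end GM16
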