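import Pool.Agent.LibGM16.DivT
import Pool.Agent.LibGM16.DivPF
import Pool.Agent.LibGM16.PFnear
import Pool.Agent.LibGM16.PsiInt
import Pool.Agent.LibGM16.Bdry

open Complex MeasureTheory Filter Topology Matrix
open scoped ContDiff Real ComplexOrder

namespace GM16

variable {γ t : ℝ} {v v' f f' : ℂ → ℝ}

/-- The Pohozaev identity. -/
theorem pohozaev (hγ : 0 < γ) (hγ' : γ ≤ 1 / 8) (ht : 1 ≤ t) (hv : Sol γ t v) (h : LinSol t v f) :
    DD t v f = 2 * ∫ y in (-(1 / 2) : ℝ)..(1 / 2),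
      (dy v (edge y) * dy f (edge y) + Psi t v f (edge y)) := by
  have hQ : MeasurableSet QQ := by
    have h1 : IsClosed {w : ℂ | |w.re| ≤ 1 / 2} :=
      isClosed_le (continuous_abs.comp continuous_re) continuous_const
    have h2 : IsClosed {w : ℂ | |w.im| ≤ 1 / 2} :=
      isClosed_le (continuous_abs.comp continuous_im) continuous_const
    exact (h1.inter h2).measurableSet
  have hne : ∀ w ∈ QQ, w ≠ 0 → w ∉ ZI := fun w hw h0 hz => h0 (QQ_inter_ZI hw hz)
  have hae : ∀ᵐ w ∂(volume.restrict QQ),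
      dx (PF t v f) w + dy (PG t v f) w = -2 * Psi t v f w := by
    rw [ae_restrict_iff' hQ]
    have h3 : ∀ᵐ w : ℂ, w ≠ 0 := by
      rw [ae_iff]
      simp
    filter_upwards [h3] with w hw0 hw
    exact div_PF hv h (hne w hw hw0)
  have hΨ := (Psi_int hγ hγ' ht hv h).1
  have hi : IntegrableOn (fun w => dx (PF t v f) w + dy (PG t v f) w) QQ := by
    refine (hΨ.const_mul (-2)).congr ?_
    filter_upwards [hae] with w hw
    exact hw.symm
  have key := div_thm (fun w hw h0 => (PF_smooth hv h (hne w hw h0)).1)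
    (fun w hw h0 => (PF_smooth hv h (hne w hw h0)).2) (PF_near hγ hγ' ht hv h) hi
  rw [integral_congr_ae hae, integral_const_mul] at key
  have e1 : (∫ y in (-(1 / 2) : ℝ)..(1 / 2),
      (PF t v f (⟨1 / 2, y⟩ : ℂ) - PF t v f (⟨-(1 / 2), y⟩ : ℂ))) =
      -∫ y in (-(1 / 2) : ℝ)..(1 / 2),
        (dy v (edge y) * dy f (edge y) + Psi t v f (edge y)) := by
    rw [← intervalIntegral.integral_neg]
    refine intervalIntegral.integral_congr fun y hy => ?_
    rw [Set.uIcc_of_le (by norm_num)] at hy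
    exact (boundary ht hv h (abs_le.mpr hy)).1
  have e2 : (∫ y in (-(1 / 2) : ℝ)..(1 / 2),
      (PG t v f (⟨y, 1 / 2⟩ : ℂ) - PG t v f (⟨y, -(1 / 2)⟩ : ℂ))) =
      -∫ y in (-(1 / 2) : ℝ)..(1 / 2),
        (dy v (edge y) * dy f (edge y) + Psi t v f (edge y)) := by
    rw [← intervalIntegral.integral_neg]
    refine intervalIntegral.integral_congr fun y hy => ?_
    rw [Set.uIcc_of_le (by norm_num)] at hy
    exact (boundary ht hv h (abs_le.mpr hy)).2
  rw [e1, e2] at key
  rw [DD]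
  linarith

end GM16
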