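import Pool.Agent.LibGM16.NewC1

open Complex MeasureTheory Filter Topology Matrix
open scoped ContDiff Real ComplexOrder

namespace GM16

variable {γ t : ℝ} {v v' f f' : ℂ → ℝ}

theorem contDiff_dx (hf : ContDiff ℝ ∞ f) : ContDiff ℝ ∞ (dx f) :=
  (hf.fderiv_right (m := ∞) (by simp)).clm_apply contDiff_const

theorem contDiff_dy (hf : ContDiff ℝ ∞ f) : ContDiff ℝ ∞ (dy f) :=
  (hf.fderiv_right (m := ∞) (by simp)).clm_apply contDiff_const

theorem contDiff_lap (hf : ContDiff ℝ ∞ f) : ContDiff ℝ ∞ (lap f) :=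
  (contDiff_dx (contDiff_dx hf)).add (contDiff_dy (contDiff_dy hf))

theorem tsupport_dx (f : ℂ → ℝ) : tsupport (dx f) ⊆ tsupport f := tsupport_fderiv_apply_subset ℝ 1

theorem tsupport_dy (f : ℂ → ℝ) : tsupport (dy f) ⊆ tsupport f := tsupport_fderiv_apply_subset ℝ I

theorem tsupport_lap (f : ℂ → ℝ) : tsupport (lap f) ⊆ tsupport f := by
  have h1 := (tsupport_dx (dx f)).trans (tsupport_dx f)
  have h2 := (tsupport_dy (dy f)).trans (tsupport_dy f)
  have h3 : tsupport (lap f) ⊆ tsupport (dx (dx f)) ∪ tsupport (dy (dy f)) :=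
    tsupport_add (dx (dx f)) (dy (dy f))
  exact h3.trans (Set.union_subset h1 h2)

theorem hcs_dx (hf : HasCompactSupport f) : HasCompactSupport (dx f) :=
  hf.mono' ((subset_tsupport _).trans (tsupport_dx f))

theorem hcs_dy (hf : HasCompactSupport f) : HasCompactSupport (dy f) :=
  hf.mono' ((subset_tsupport _).trans (tsupport_dy f))

theorem hcs_lap (hf : HasCompactSupport f) : HasCompactSupport (lap f) :=
  hf.mono' ((subset_tsupport _).trans (tsupport_lap f))

/-- The product of a function continuous on `Ω` and a continuous function supported in `Ω`. -/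
theorem cont_mul {Ω : Set ℂ} (hΩ : IsOpen Ω) {u a : ℂ → ℝ} (hu : ContinuousOn u Ω)
    (ha : Continuous a) (hs : tsupport a ⊆ Ω) : Continuous (fun y => u y * a y) := by
  refine (hu.mul ha.continuousOn).continuous_of_tsupport_subset hΩ ?_
  exact (tsupport_mul_subset_right (f := u) (g := a)).trans hs

theorem contDiffAt_mul {Ω : Set ℂ} (hΩ : IsOpen Ω) {n : WithTop ℕ∞} {u a : ℂ → ℝ}
    (hu : ContDiffOn ℝ n u Ω) (ha : ContDiff ℝ n a) (hs : tsupport a ⊆ Ω) :
    ContDiff ℝ n (fun y => u y * a y) := by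
  rw [contDiff_iff_contDiffAt]
  intro x
  by_cases hx : x ∈ Ω
  · exact (hu.contDiffAt (hΩ.mem_nhds hx)).mul ha.contDiffAt
  · have h1 : a =ᶠ[𝓝 x] 0 := notMem_tsupport_iff_eventuallyEq.1 fun h => hx (hs h)
    have h2 : (fun y => u y * a y) =ᶠ[𝓝 x] fun _ => 0 := by
      filter_upwards [h1] with y hy
      simp [hy]
    exact contDiffAt_const.congr_of_eventuallyEq h2

theorem hcs_mul {u a : ℂ → ℝ} (ha : HasCompactSupport a) :
    HasCompactSupport (fun y => u y * a y) := ha.mul_left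

/-- `NK` is the case `e = 0`. -/
theorem NKe_zero : NKe 0 = NK := by
  funext z
  rw [NKe, NK, add_zero, Real.log_pow]
  have := Real.pi_pos
  push_cast
  field_simp
  ring

theorem hasFDerivAt_NKe' {e : ℝ} (he : 0 ≤ e) {z : ℂ} (hz : z ≠ 0) :
    HasFDerivAt (NKe e) (NKg e z) z := by
  have hz' : 0 < ‖z‖ := norm_pos_iff.2 hz
  have h1 : HasFDerivAt (fun z : ℂ => ‖z‖ ^ 2 + e) (2 • (innerSL ℝ z)) z := by
    have := (hasFDerivAt_id (𝕜 := ℝ) z).norm_sq
    simpa using this.add_const e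
  have hpos : 0 < ‖z‖ ^ 2 + e := by positivity
  have h2 := (h1.log hpos.ne').neg.mul_const (1 / (4 * π))
  have h3 : NKe e = fun y => -(Real.log (‖y‖ ^ 2 + e)) * (1 / (4 * π)) := by
    funext y; rw [NKe, div_eq_mul_one_div]
  rw [h3]
  refine h2.congr_fderiv ?_
  ext w
  simp only [NKg, _root_.smul_apply, _root_.neg_apply, smul_eq_mul, nsmul_eq_mul]
  have hpi := Real.pi_pos
  field_simp
  ring

/-- Derivative of `y ↦ N_e(x - y)`. -/
theorem hasFDerivAt_NKe_sub {e : ℝ} (he : 0 ≤ e) {x y : ℂ} (hy : x - y ≠ 0) :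
    HasFDerivAt (fun y => NKe e (x - y)) (-(NKg e (x - y))) y := by
  have h1 := (hasFDerivAt_NKe' he hy).comp y ((hasFDerivAt_id y).const_sub x)
  refine h1.congr_fderiv ?_
  ext w
  simp

theorem contDiff_NKe {e : ℝ} (he : 0 < e) : ContDiff ℝ ∞ (NKe e) := by
  unfold NKe
  refine ContDiff.div_const (ContDiff.neg ?_) _
  refine ContDiff.log ((contDiff_norm_sq ℝ).add contDiff_const) fun z => ?_
  positivity

end GM16
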