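import Pool.Agent.LibGM16.Sign
import Pool.Agent.LibGM16.CalcC

open Complex MeasureTheory Filter Topology Matrix
open scoped ContDiff Real ComplexOrder

namespace GM16

variable {γ t : ℝ} {v v' f f' : ℂ → ℝ}

namespace ReflAux

/-- the open strip `s - 1/2 < Im w < s` -/
def strip (s : ℝ) : Set ℂ := {w | s - 1 / 2 < w.im ∧ w.im < s}

theorem isOpen_strip (s : ℝ) : IsOpen (strip s) :=
  (isOpen_lt continuous_const Complex.continuous_im).inter
    (isOpen_lt Complex.continuous_im continuous_const)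

theorem frontier_strip {s : ℝ} {ζ : ℂ} (h : ζ ∈ frontier (strip s)) :
    ζ.im = s ∨ ζ.im = s - 1 / 2 := by
  rw [(isOpen_strip s).frontier_eq] at h
  have hc : IsClosed {w : ℂ | s - 1 / 2 ≤ w.im ∧ w.im ≤ s} :=
    (isClosed_le continuous_const Complex.continuous_im).inter
      (isClosed_le Complex.continuous_im continuous_const)
  have hsub : closure (strip s) ⊆ {w : ℂ | s - 1 / 2 ≤ w.im ∧ w.im ≤ s} :=
    closure_minimal (fun w hw => ⟨hw.1.le, hw.2.le⟩) hc
  have h1 := hsub h.1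
  have h2 := h.2
  by_contra hcon
  push Not at hcon
  exact h2 ⟨lt_of_le_of_ne h1.1 (Ne.symm hcon.2), lt_of_le_of_ne h1.2 hcon.1⟩

theorem im_of_mem_ZI {w : ℂ} (h : w ∈ ZI) : ∃ n : ℤ, w.im = n := by
  obtain ⟨m, n, h⟩ := h
  exact ⟨n, by rw [h]; simp⟩

theorem notMem_ZI_of_im {w : ℂ} (h0 : 0 < w.im) (h1 : w.im < 1) : w ∉ ZI := by
  intro h
  obtain ⟨n, hn⟩ := im_of_mem_ZI h
  rw [hn] at h0 h1
  have h2 : (0 : ℤ) < n := by exact_mod_cast h0
  have h3 : n < (1 : ℤ) := by exact_mod_cast h1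
  omega

theorem notMem_ZI_of_im' {w : ℂ} (h0 : -1 < w.im) (h1 : w.im < 0) : w ∉ ZI := by
  intro h
  obtain ⟨n, hn⟩ := im_of_mem_ZI h
  rw [hn] at h0 h1
  have h2 : (-1 : ℤ) < n := by exact_mod_cast h0
  have h3 : n < (0 : ℤ) := by exact_mod_cast h1
  omega

theorem int_mem_ZI (n : ℤ) : ((n : ℂ)) ∈ ZI := ⟨n, 0, by simp⟩

theorem strip_mp {s : ℝ} {u : ℂ → ℝ}
    (hu : ContDiffOn ℝ 2 u (strip s \ ZI))
    (hpos : ∀ w ∈ strip s \ ZI, 0 < u w → 16 * u w ≤ lap u w)
    (hb : ∀ ζ : ℂ, ζ.im = s ∨ ζ.im = s - 1 / 2 → ContinuousAt u ζ ∧ u ζ = 0)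
    (hl : ∀ l ∈ strip s ∩ ZI, ∃ C : ℝ, ∀ᶠ w in 𝓝[≠] l, u w ≤ C)
    (hper : ∀ w, u (w + 1) = u w) : ∀ w ∈ strip s \ ZI, u w ≤ 0 := by
  apply mp_gen (isOpen_strip s) hu hpos
  · intro ζ hζ ε hε
    obtain ⟨h1, h2⟩ := hb ζ (frontier_strip hζ)
    have h3 : ∀ᶠ w in 𝓝 ζ, u w < ε := h1.eventually_lt continuousAt_const (by rw [h2]; exact hε)
    exact h3.filter_mono nhdsWithin_le_nhds
  · intro l hl' ε hε
    obtain ⟨C, hC⟩ := hl l hl'
    have h1 : Tendsto (fun w : ℂ => ‖w - l‖) (𝓝[≠] l) (𝓝[>] 0) := by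
      rw [tendsto_nhdsWithin_iff]
      refine ⟨?_, ?_⟩
      · have : ContinuousAt (fun w : ℂ => ‖w - l‖) l := by fun_prop
        have h2 := this.tendsto
        simp only [sub_self, norm_zero] at h2
        exact h2.mono_left nhdsWithin_le_nhds
      · filter_upwards [self_mem_nhdsWithin] with w hw
        exact norm_pos_iff.2 (sub_ne_zero.2 hw)
    have h2 : Tendsto (fun w : ℂ => Real.log ‖w - l‖) (𝓝[≠] l) atBot :=
      Real.tendsto_log_nhdsGT_zero.comp h1
    filter_upwards [hC, h2.eventually_le_atBot (-C / ε)] with w hw1 hw2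
    rw [le_div_iff₀ hε] at hw2
    nlinarith
  · intro ε hε
    refine ⟨{w : ℂ | |w.re| ≤ 1 / 2 ∧ |w.im| ≤ |s| + 1}, ?_, ?_⟩
    · have hc : IsClosed {w : ℂ | |w.re| ≤ 1 / 2 ∧ |w.im| ≤ |s| + 1} :=
        (isClosed_le (Complex.continuous_re.abs) continuous_const).inter
          (isClosed_le (Complex.continuous_im.abs) continuous_const)
      refine Metric.isCompact_of_isClosed_isBounded hc ?_
      refine (Metric.isBounded_closedBall (x := (0 : ℂ)) (r := 1 / 2 + (|s| + 1))).subset ?_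
      intro w hw
      rw [mem_closedBall_zero_iff]
      exact (Complex.norm_le_abs_re_add_abs_im w).trans (add_le_add hw.1 hw.2)
    · intro w hw hw'
      refine ⟨((-round w.re : ℤ) : ℂ), int_mem_ZI _, ⟨⟨?_, ?_⟩, ?_⟩, ?_⟩
      · simp only [Complex.add_re, Complex.intCast_re]
        push_cast
        rw [← sub_eq_add_neg]
        exact abs_sub_round w.re
      · simp only [Complex.add_im, Complex.intCast_im, add_zero]
        have h1 := hw.1.1
        have h2 := hw.1.2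
        rw [abs_le]
        constructor
        · have := neg_abs_le s
          linarith
        · have := le_abs_self s
          linarith
      · refine ⟨?_, ?_⟩
        · simp only [Complex.add_im, Complex.intCast_im, add_zero]
          exact hw.1.1
        · simp only [Complex.add_im, Complex.intCast_im, add_zero]
          exact hw.1.2
      · have hp : Function.Periodic u 1 := hper
        have := hp.int_mul (-round w.re) w
        rw [mul_one] at this
        exact this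

theorem conj_add_eq (s : ℝ) (w : ℂ) :
    (⟨w.re, 2 * s - w.im⟩ : ℂ) = starRingEnd ℂ w + ((2 * s : ℝ) : ℂ) * I := by
  apply Complex.ext <;> simp
  ring

theorem contDiff_refl (s : ℝ) :
    ContDiff ℝ ∞ (fun w : ℂ => starRingEnd ℂ w + ((2 * s : ℝ) : ℂ) * I) := by
  have h1 : ContDiff ℝ ∞ (fun w : ℂ => starRingEnd ℂ w) := Complex.conjCLE.contDiff
  exact h1.add contDiff_const

theorem lap_refl {g : ℂ → ℝ} (s : ℝ) {w : ℂ}
    (hg : ContDiffAt ℝ 2 g (starRingEnd ℂ w + ((2 * s : ℝ) : ℂ) * I)) :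
    lap (fun z => g (starRingEnd ℂ z + ((2 * s : ℝ) : ℂ) * I)) w =
      lap g (starRingEnd ℂ w + ((2 * s : ℝ) : ℂ) * I) := by
  have h1 : ContDiffAt ℝ 2 (fun z => g (z + ((2 * s : ℝ) : ℂ) * I)) (starRingEnd ℂ w) := by
    have h2 : ContDiffAt ℝ 2 (fun z : ℂ => z + ((2 * s : ℝ) : ℂ) * I) (starRingEnd ℂ w) :=
      contDiffAt_id.add contDiffAt_const
    exact ContDiffAt.comp (starRingEnd ℂ w) hg h2
  have h3 := lap_comp_conj (f := fun z => g (z + ((2 * s : ℝ) : ℂ) * I)) (w := w) h1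
  rw [h3]
  exact lap_trans g _ _

theorem sinh_sub_ge {a b : ℝ} (h : b ≤ a) : a - b ≤ Real.sinh a - Real.sinh b := by
  have hm : Monotone fun x => Real.sinh x - x := by
    apply monotone_of_deriv_nonneg
    · exact Real.differentiable_sinh.sub differentiable_id
    · intro x
      have : deriv (fun x => Real.sinh x - x) x = Real.cosh x - 1 := by
        have h1 : HasDerivAt (fun x => Real.sinh x - x) (Real.cosh x - 1) x :=
          (Real.hasDerivAt_sinh x).sub (hasDerivAt_id x)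
        exact h1.deriv
      rw [this]
      linarith [Real.one_le_cosh x]
  have := hm h
  simp only at this
  linarith

theorem cosh_sub_le {a b : ℝ} (h : b ≤ a) :
    Real.cosh a - Real.cosh b ≤ Real.sinh a - Real.sinh b := by
  rw [Real.cosh_eq, Real.cosh_eq, Real.sinh_eq, Real.sinh_eq]
  have : Real.exp (-a) ≤ Real.exp (-b) := Real.exp_le_exp.2 (by linarith)
  linarith

end ReflAux

open ReflAux in
/-- reflection inequality: for `0 < s < 1/2` and `s - 1/2 < Im w < s`: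
`v(x, 2s - y) ≤ v(x, y)` and `-f(x, 2s-y) ≤ -f(x,y)`. (`mp_gen` on the strip; the boundary values
agree by periodicity; for `b = -f`, `b^s`, where `b^s > b`:
`Δ(b^s - b) ≥ 16t² cosh(2v^s) (b^s - b) + t² (cosh 2v - cosh 2v^s)(8 - 16 b)`, because
`cosh x - cosh y ≤ sinh x - sinh y` for `x ≥ y ≥ 0`.) -/
theorem reflect (hγ : 0 < γ) (hγ' : γ ≤ 1 / 8) (ht : 1 ≤ t) (hv : Sol γ t v) (h : LinSol t v f)
    {s : ℝ} (hs : 0 < s) (hs' : s < 1 / 2) {w : ℂ} (h1 : s - 1 / 2 < w.im) (h2 : w.im < s)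
    (hw : w ∉ ZI) :
    v (⟨w.re, 2 * s - w.im⟩ : ℂ) ≤ v w ∧ f w ≤ f (⟨w.re, 2 * s - w.im⟩ : ℂ) := by
  set A : ℂ := ((2 * s : ℝ) : ℂ) * I with hA
  have hZ := isClosed_ZI
  -- facts about the reflected points
  have him : ∀ z : ℂ, (starRingEnd ℂ z + A).im = 2 * s - z.im := by
    intro z
    simp [hA]
    ring
  have hRz : ∀ z : ℂ, s - 1 / 2 ≤ z.im → z.im ≤ s → starRingEnd ℂ z + A ∉ ZI := by
    intro z hz1 hz2
    apply notMem_ZI_of_im
    · rw [him]; linarith
    · rw [him]; linarith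
  have hcd : ∀ (g : ℂ → ℝ), ContDiffOn ℝ ∞ g ZIᶜ → ∀ z : ℂ, z ∉ ZI → ContDiffAt ℝ 2 g z := by
    intro g hg z hz
    exact (hg.contDiffAt (hZ.isOpen_compl.mem_nhds hz)).of_le ENat.LEInfty.out
  have hcdR : ∀ (g : ℂ → ℝ), ContDiffOn ℝ ∞ g ZIᶜ → ∀ z : ℂ, starRingEnd ℂ z + A ∉ ZI →
      ContDiffAt ℝ 2 (fun z => g (starRingEnd ℂ z + A)) z := by
    intro g hg z hz
    have h3 : ContDiffAt ℝ 2 (fun z : ℂ => starRingEnd ℂ z + A) z :=
      ((contDiff_refl s).contDiffAt).of_le ENat.LEInfty.out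
    exact ContDiffAt.comp z (hcd g hg _ hz) h3
  have hperR : ∀ (g : ℂ → ℝ), (∀ z, g (z + 1) = g z) → ∀ z, g (starRingEnd ℂ (z + 1) + A) =
      g (starRingEnd ℂ z + A) := by
    intro g hg z
    rw [← hg (starRingEnd ℂ z + A)]
    congr 1
    simp
    ring
  -- boundary values
  have hbv : ∀ (g : ℂ → ℝ), (∀ z, g (z + I) = g z) → ∀ ζ : ℂ, (ζ.im = s ∨ ζ.im = s - 1 / 2) →
      g (starRingEnd ℂ ζ + A) = g ζ := by
    intro g hg ζ hζ
    rcases hζ with hζ | hζ
    · congr 1
      apply Complex.ext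
      · simp [hA]
      · rw [him, hζ]; ring
    · rw [← hg ζ]
      congr 1
      apply Complex.ext
      · simp [hA]
      · rw [him, hζ]
        simp [hζ]
        ring
  have hζZ : ∀ ζ : ℂ, (ζ.im = s ∨ ζ.im = s - 1 / 2) → ζ ∉ ZI ∧ starRingEnd ℂ ζ + A ∉ ZI := by
    intro ζ hζ
    rcases hζ with hζ | hζ
    · exact ⟨notMem_ZI_of_im (by linarith) (by linarith),
        hRz ζ (by linarith) (by linarith)⟩
    · exact ⟨notMem_ZI_of_im' (by linarith) (by linarith),
        hRz ζ (by linarith) (by linarith)⟩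
  have hv0 : ∀ z, 0 ≤ v z := fun z => v_nonneg hγ ht hv z
  have hf0 : ∀ z, f z ≤ 0 := fun z => f_nonpos hγ ht hv h z
  -- first: the inequality for `v`
  have hV : ∀ z ∈ strip s \ ZI, v (starRingEnd ℂ z + A) - v z ≤ 0 := by
    apply strip_mp
    · intro z hz
      have hz1 := hRz z hz.1.1.le hz.1.2.le
      exact ((hcdR v hv.smooth z hz1).sub (hcd v hv.smooth z hz.2)).contDiffWithinAt
    · intro z hz hpos
      have hz1 := hRz z hz.1.1.le hz.1.2.le
      have e1 : lap (fun z => v (starRingEnd ℂ z + A) - v z) z =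
          lap (fun z => v (starRingEnd ℂ z + A)) z - lap v z :=
        lap_sub (hcdR v hv.smooth z hz1) (hcd v hv.smooth z hz.2)
      have e2 : lap (fun z => v (starRingEnd ℂ z + A)) z = lap v (starRingEnd ℂ z + A) :=
        lap_refl s (hcd v hv.smooth _ hz1)
      rw [e1, e2, hv.pde _ hz1, hv.pde _ hz.2]
      have e3 := sinh_sub_ge (a := 2 * v (starRingEnd ℂ z + A)) (b := 2 * v z) (by linarith)
      have e4 : (1 : ℝ) ≤ t ^ 2 := by nlinarith
      nlinarith [mul_nonneg (by linarith : (0 : ℝ) ≤ t ^ 2 - 1) hpos.le, mul_le_mul_of_nonneg_left e3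
        (by positivity : (0 : ℝ) ≤ 8 * t ^ 2)]
    · intro ζ hζ
      obtain ⟨g1, g2⟩ := hζZ ζ hζ
      refine ⟨((hcdR v hv.smooth ζ g2).sub (hcd v hv.smooth ζ g1)).continuousAt, ?_⟩
      rw [hbv v hv.pery ζ hζ, sub_self]
    · intro l hl
      have hz1 := hRz l hl.1.1.le hl.1.2.le
      refine ⟨v (starRingEnd ℂ l + A) + 1, ?_⟩
      have h3 : ContinuousAt (fun z => v (starRingEnd ℂ z + A)) l :=
        (hcdR v hv.smooth l hz1).continuousAt
      have h4 : ∀ᶠ z in 𝓝 l, v (starRingEnd ℂ z + A) < v (starRingEnd ℂ l + A) + 1 :=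
        h3.eventually_lt continuousAt_const (by linarith)
      filter_upwards [h4.filter_mono nhdsWithin_le_nhds] with z hz
      linarith [hv0 z]
    · intro z
      rw [hperR v hv.perx z, hv.perx z]
  have hF : ∀ z ∈ strip s \ ZI, f z - f (starRingEnd ℂ z + A) ≤ 0 := by
    apply strip_mp
    · intro z hz
      have hz1 := hRz z hz.1.1.le hz.1.2.le
      exact ((hcd f h.smooth z hz.2).sub (hcdR f h.smooth z hz1)).contDiffWithinAt
    · intro z hz hpos
      have hz1 := hRz z hz.1.1.le hz.1.2.le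
      have e1 : lap (fun z => f z - f (starRingEnd ℂ z + A)) z =
          lap f z - lap (fun z => f (starRingEnd ℂ z + A)) z :=
        lap_sub (hcd f h.smooth z hz.2) (hcdR f h.smooth z hz1)
      have e2 : lap (fun z => f (starRingEnd ℂ z + A)) z = lap f (starRingEnd ℂ z + A) :=
        lap_refl s (hcd f h.smooth _ hz1)
      rw [e1, e2, h.pde _ hz1, h.pde _ hz.2]
      have hVz := hV z hz
      set a := v z with ha
      set b := v (starRingEnd ℂ z + A) with hb
      set p := f z with hp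
      set q := f (starRingEnd ℂ z + A) with hq
      have e3 := cosh_sub_le (a := 2 * a) (b := 2 * b) (by linarith)
      have hb0 : 0 ≤ b := hv0 _
      have e4 : Real.cosh (2 * b) ≤ Real.cosh (2 * a) := by
        rw [Real.cosh_le_cosh, abs_of_nonneg (by linarith), abs_of_nonneg (by linarith)]
        linarith
      have e5 : 1 ≤ Real.cosh (2 * b) := Real.one_le_cosh _
      have e6 : (1 : ℝ) ≤ t ^ 2 := by nlinarith
      have hpb := (abs_le.1 (h.bdd z)).1
      have hp0 : p ≤ 0 := hf0 z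
      rw [← hp] at hpb
      have k1 : 0 ≤ t ^ 2 * (Real.cosh (2 * b) - 1) * (p - q) := by
        have : 0 ≤ Real.cosh (2 * b) - 1 := by linarith
        positivity
      have k2 : 0 ≤ t ^ 2 * (Real.cosh (2 * a) - Real.cosh (2 * b)) * (1 + 2 * p) := by
        have g1 : 0 ≤ Real.cosh (2 * a) - Real.cosh (2 * b) := by linarith
        have g2 : 0 ≤ 1 + 2 * p := by linarith
        positivity
      have k3 : 0 ≤ t ^ 2 * ((Real.sinh (2 * a) - Real.sinh (2 * b)) -
          (Real.cosh (2 * a) - Real.cosh (2 * b))) := by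
        have : 0 ≤ (Real.sinh (2 * a) - Real.sinh (2 * b)) -
          (Real.cosh (2 * a) - Real.cosh (2 * b)) := by linarith
        positivity
      have k4 : 0 ≤ (t ^ 2 - 1) * (p - q) := mul_nonneg (by linarith) hpos.le
      nlinarith [k1, k2, k3, k4]
    · intro ζ hζ
      obtain ⟨g1, g2⟩ := hζZ ζ hζ
      refine ⟨((hcd f h.smooth ζ g1).sub (hcdR f h.smooth ζ g2)).continuousAt, ?_⟩
      rw [hbv f h.pery ζ hζ, sub_self]
    · intro l hl
      refine ⟨1, Eventually.of_forall fun z => ?_⟩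
      have k1 := (abs_le.1 (h.bdd z)).2
      have k2 := (abs_le.1 (h.bdd (starRingEnd ℂ z + A))).1
      linarith
    · intro z
      rw [hperR f h.perx z, h.perx z]
  have hwm : w ∈ strip s \ ZI := ⟨⟨h1, h2⟩, hw⟩
  rw [conj_add_eq]
  exact ⟨by linarith [hV w hwm], by linarith [hF w hwm]⟩

end GM16
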