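import Pool.Agent.LibGM16.LocRep

open Complex MeasureTheory Filter Topology Matrix
open scoped ContDiff Real ComplexOrder

namespace GM16

variable {γ t : ℝ} {v v' f f' : ℂ → ℝ}

/-- A smooth kernel of compact support which is `NK` on the annulus `r/2 < |z| < 5r`. -/
theorem exists_smooth_kernel {r : ℝ} (hr : 0 < r) : ∃ k : ℂ → ℝ, ContDiff ℝ ∞ k ∧
    HasCompactSupport k ∧ ∀ z : ℂ, r / 2 < ‖z‖ → ‖z‖ < 5 * r → k z = NK z := by
  let b1 : ContDiffBump (0 : ℂ) := ⟨5 * r, 6 * r, by linarith, by linarith⟩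
  let b2 : ContDiffBump (0 : ℂ) := ⟨r / 4, r / 2, by linarith, by linarith⟩
  refine ⟨fun z => NK z * (b1 z - b2 z), ?_, ?_, fun z h1 h2 => ?_⟩
  · rw [contDiff_iff_contDiffAt]
    intro z
    rcases eq_or_ne z 0 with rfl | hz
    · have h3 : ∀ᶠ z in 𝓝 (0 : ℂ), NK z * (b1 z - b2 z) = 0 := by
        filter_upwards [Metric.ball_mem_nhds (0 : ℂ) (by linarith : 0 < r / 4)] with z hz
        rw [Metric.mem_ball, dist_zero_right] at hz
        have h4 : b1 z = 1 := b1.one_of_mem_closedBall (by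
          rw [Metric.mem_closedBall, dist_zero_right]
          change ‖z‖ ≤ 5 * r
          linarith)
        have h5 : b2 z = 1 := b2.one_of_mem_closedBall (by
          rw [Metric.mem_closedBall, dist_zero_right]
          change ‖z‖ ≤ r / 4
          linarith)
        rw [h4, h5, sub_self, mul_zero]
      exact contDiffAt_const.congr_of_eventuallyEq h3
    · refine ContDiffAt.mul ?_ (b1.contDiff.contDiffAt.sub b2.contDiff.contDiffAt)
      unfold NK
      refine ContDiffAt.div_const (ContDiffAt.neg ?_) _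
      exact (contDiffAt_norm ℝ hz).log (norm_ne_zero_iff.2 hz)
  · have h3 : HasCompactSupport (fun z => b1 z - b2 z) := by
      exact b1.hasCompactSupport.sub b2.hasCompactSupport
    exact h3.mul_left
  · have h4 : b1 z = 1 := b1.one_of_mem_closedBall (by
      rw [Metric.mem_closedBall, dist_zero_right]
      change ‖z‖ ≤ 5 * r
      linarith)
    have h5 : b2 z = 0 := b2.zero_of_le_dist (by
      rw [dist_zero_right]
      change r / 2 ≤ ‖z‖
      linarith)
    simp only []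
    rw [h4, h5, sub_zero, mul_one]

/-- The second term of `local_rep` is smooth near `x₀`. -/
theorem remainder_smooth {Ω : Set ℂ} (hΩ : IsOpen Ω) {u : ℂ → ℝ} (hu : ContinuousOn u Ω)
    {x₀ : ℂ} {r : ℝ} (hr : 0 < r) {χ : ℂ → ℝ} (hχ : ContDiff ℝ ∞ χ)
    (hχ1 : ∀ z ∈ Metric.ball x₀ (2 * r), χ z = 1) (hχs : tsupport χ ⊆ Metric.ball x₀ (3 * r))
    (hB : Metric.closedBall x₀ (3 * r) ⊆ Ω) :
    ContDiffOn ℝ ∞ (fun x => ∫ y, u y * (2 * (dx χ y * dx (fun y => NK (x - y)) y +
        dy χ y * dy (fun y => NK (x - y)) y) + NK (x - y) * lap χ y)) (Metric.ball x₀ r) := by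
  have hs : tsupport χ ⊆ Ω := hχs.trans (Metric.ball_subset_closedBall.trans hB)
  have hc : HasCompactSupport χ := by
    refine HasCompactSupport.of_support_subset_isCompact (isCompact_closedBall x₀ (3 * r)) ?_
    exact (subset_tsupport χ).trans (hχs.trans Metric.ball_subset_closedBall)
  obtain ⟨k, hk, hkc, hkN⟩ := exists_smooth_kernel hr
  have hk' : ContDiff ℝ ∞ (fderiv ℝ k) := hk.fderiv_right (by simp)
  have hkc' : HasCompactSupport (fderiv ℝ k) := hkc.fderiv (𝕜 := ℝ)
  have l1 : LocallyIntegrable (fun y => u y * dx χ y) volume :=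
    (cont_mul hΩ hu (contDiff_dx hχ).continuous ((tsupport_dx χ).trans hs)).locallyIntegrable
  have l2 : LocallyIntegrable (fun y => u y * dy χ y) volume :=
    (cont_mul hΩ hu (contDiff_dy hχ).continuous ((tsupport_dy χ).trans hs)).locallyIntegrable
  have l3 : LocallyIntegrable (fun y => u y * lap χ y) volume :=
    (cont_mul hΩ hu (contDiff_lap hχ).continuous ((tsupport_lap χ).trans hs)).locallyIntegrable
  have s1 : ContDiff ℝ ∞ (fun x => ∫ y, (u y * dx χ y) • fderiv ℝ k (x - y)) :=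
    hkc'.contDiff_convolution_right (ContinuousLinearMap.lsmul ℝ ℝ) l1 hk'
  have s2 : ContDiff ℝ ∞ (fun x => ∫ y, (u y * dy χ y) • fderiv ℝ k (x - y)) :=
    hkc'.contDiff_convolution_right (ContinuousLinearMap.lsmul ℝ ℝ) l2 hk'
  have s3 : ContDiff ℝ ∞ (fun x => ∫ y, (u y * lap χ y) • k (x - y)) :=
    hkc.contDiff_convolution_right (ContinuousLinearMap.lsmul ℝ ℝ) l3 hk
  have hS : ContDiff ℝ ∞ (fun x => (-2) * (∫ y, (u y * dx χ y) • fderiv ℝ k (x - y)) 1 +
      ((-2) * (∫ y, (u y * dy χ y) • fderiv ℝ k (x - y)) I +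
        ∫ y, (u y * lap χ y) • k (x - y))) :=
    (contDiff_const.mul (s1.clm_apply contDiff_const)).add
      ((contDiff_const.mul (s2.clm_apply contDiff_const)).add s3)
  refine hS.contDiffOn.congr fun x hx => ?_
  rw [Metric.mem_ball, dist_eq_norm] at hx
  have hann : ∀ y, y ∉ Metric.ball x₀ (2 * r) → y ∈ tsupport χ →
      r < ‖x - y‖ ∧ ‖x - y‖ < 4 * r := by
    intro y hy1 hy2
    have h1 := hχs hy2
    rw [Metric.mem_ball, dist_eq_norm] at h1 hy1
    push Not at hy1
    have h2 : ‖y - x₀‖ ≤ ‖x - x₀‖ + ‖x - y‖ := by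
      have : y - x₀ = (x - x₀) - (x - y) := by ring
      rw [this]
      exact norm_sub_le _ _
    have h3 : ‖x - y‖ ≤ ‖x - x₀‖ + ‖y - x₀‖ := by
      have : x - y = (x - x₀) - (y - x₀) := by ring
      rw [this]
      exact norm_sub_le _ _
    constructor <;> linarith
  have hloc : ∀ y ∈ Metric.ball x₀ (2 * r), χ =ᶠ[𝓝 y] fun _ => 1 := by
    intro y hy
    filter_upwards [Metric.isOpen_ball.mem_nhds hy] with z hz
    exact hχ1 z hz
  have hdx0 : ∀ y ∈ Metric.ball x₀ (2 * r), dx χ y = 0 := by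
    intro y hy
    rw [dx, (hloc y hy).fderiv_eq]
    simp
  have hdy0 : ∀ y ∈ Metric.ball x₀ (2 * r), dy χ y = 0 := by
    intro y hy
    rw [dy, (hloc y hy).fderiv_eq]
    simp
  have hlap0 : ∀ y ∈ Metric.ball x₀ (2 * r), lap χ y = 0 := by
    intro y hy
    rw [lap_congr (hloc y hy), lap_const]
  have hk1 : ∀ y, r < ‖x - y‖ → ‖x - y‖ < 4 * r → k (x - y) = NKe 0 (x - y) := by
    intro y h1 h2
    rw [NKe_zero]
    exact hkN _ (by linarith) (by linarith)
  have hk2 : ∀ y, r < ‖x - y‖ → ‖x - y‖ < 4 * r → fderiv ℝ k (x - y) = NKg 0 (x - y) := by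
    intro y h1 h2
    have h3 : k =ᶠ[𝓝 (x - y)] NKe 0 := by
      have o1 : ∀ᶠ z in 𝓝 (x - y), r < ‖z‖ :=
        (isOpen_lt continuous_const continuous_norm).mem_nhds h1
      have o2 : ∀ᶠ z in 𝓝 (x - y), ‖z‖ < 4 * r :=
        (isOpen_lt continuous_norm continuous_const).mem_nhds h2
      filter_upwards [o1, o2] with z hz1 hz2
      rw [NKe_zero]
      exact hkN z (by linarith) (by linarith)
    rw [h3.fderiv_eq]
    have h4 : x - y ≠ 0 := by
      intro h
      rw [h, norm_zero] at h1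
      linarith
    exact (hasFDerivAt_NKe' le_rfl h4).fderiv
  have hmid := mid_eq hΩ hu hχ hc hs le_rfl x
  rw [NKe_zero] at hmid
  rw [hmid]
  have e1 : ∫ y, (u y * dx χ y) • NKg 0 (x - y) = ∫ y, (u y * dx χ y) • fderiv ℝ k (x - y) := by
    refine integral_congr_ae (Eventually.of_forall fun y => ?_)
    simp only
    by_cases hy1 : y ∈ Metric.ball x₀ (2 * r)
    · rw [hdx0 y hy1, mul_zero, zero_smul, zero_smul]
    by_cases hy2 : y ∈ tsupport χ
    · obtain ⟨h1, h2⟩ := hann y hy1 hy2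
      rw [hk2 y h1 h2]
    · have : dx χ y = 0 := image_eq_zero_of_notMem_tsupport fun h => hy2 (tsupport_dx χ h)
      rw [this, mul_zero, zero_smul, zero_smul]
  have e2 : ∫ y, (u y * dy χ y) • NKg 0 (x - y) = ∫ y, (u y * dy χ y) • fderiv ℝ k (x - y) := by
    refine integral_congr_ae (Eventually.of_forall fun y => ?_)
    simp only
    by_cases hy1 : y ∈ Metric.ball x₀ (2 * r)
    · rw [hdy0 y hy1, mul_zero, zero_smul, zero_smul]
    by_cases hy2 : y ∈ tsupport χ
    · obtain ⟨h1, h2⟩ := hann y hy1 hy2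
      rw [hk2 y h1 h2]
    · have : dy χ y = 0 := image_eq_zero_of_notMem_tsupport fun h => hy2 (tsupport_dy χ h)
      rw [this, mul_zero, zero_smul, zero_smul]
  have e3 : ∫ y, (u y * lap χ y) • NK (x - y) = ∫ y, (u y * lap χ y) • k (x - y) := by
    refine integral_congr_ae (Eventually.of_forall fun y => ?_)
    simp only
    by_cases hy1 : y ∈ Metric.ball x₀ (2 * r)
    · rw [hlap0 y hy1, mul_zero, zero_smul, zero_smul]
    by_cases hy2 : y ∈ tsupport χ
    · obtain ⟨h1, h2⟩ := hann y hy1 hy2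
      rw [hk1 y h1 h2, NKe_zero]
    · have : lap χ y = 0 := image_eq_zero_of_notMem_tsupport fun h => hy2 (tsupport_lap χ h)
      rw [this, mul_zero, zero_smul, zero_smul]
  rw [e1, e2, e3]

end GM16
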