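import Pool.Agent.LibGM16.CalcB
import Pool.Agent.LibGM16.CalcD

open Complex MeasureTheory Filter Topology Matrix
open scoped ContDiff Real ComplexOrder

namespace GM16

variable {γ t : ℝ} {v v' f f' : ℂ → ℝ}

private lemma UA_log {a w : ℂ} (hw : w ≠ a) :
    ContDiffAt ℝ 2 (fun z : ℂ => Real.log ‖z - a‖) w ∧
    lap (fun z : ℂ => Real.log ‖z - a‖) w = 0 := by
  have hn : ‖w - a‖ ≠ 0 := norm_ne_zero_iff.mpr (sub_ne_zero.mpr hw)
  refine ⟨?_, ?_⟩
  · exact ((contDiffAt_id.sub contDiffAt_const).norm ℝ (sub_ne_zero.mpr hw)).log hn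
  · rw [lap_radial hw (Real.contDiffAt_log.mpr hn)]
    have h1 : deriv (deriv Real.log) ‖w - a‖ = -(‖w - a‖ ^ 2)⁻¹ := by
      rw [Real.deriv_log', deriv_inv]
    rw [h1, Real.deriv_log]
    field_simp
    ring

private lemma UA_inv {a w : ℂ} (hw : w ≠ a) :
    ContDiffAt ℝ 2 (fun z : ℂ => ‖z - a‖⁻¹) w ∧
    lap (fun z : ℂ => ‖z - a‖⁻¹) w = (‖w - a‖ ^ 3)⁻¹ := by
  have hn : ‖w - a‖ ≠ 0 := norm_ne_zero_iff.mpr (sub_ne_zero.mpr hw)
  refine ⟨?_, ?_⟩
  · exact ((contDiffAt_id.sub contDiffAt_const).norm ℝ (sub_ne_zero.mpr hw)).inv hn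
  · have h0 : ContDiffAt ℝ 2 (fun x : ℝ => x⁻¹) ‖w - a‖ := contDiffAt_id.inv hn
    rw [lap_radial (F := fun x : ℝ => x⁻¹) hw h0]
    have h1 : deriv (fun x : ℝ => x⁻¹) = fun x => -(x ^ 2)⁻¹ := by
      funext x; exact deriv_inv
    have h2 : deriv (fun x : ℝ => -(x ^ 2)⁻¹) ‖w - a‖ = 2 * (‖w - a‖ ^ 3)⁻¹ := by
      have h3 : HasDerivAt (fun x : ℝ => -(x ^ 2)⁻¹)
          (-(-(2 * ‖w - a‖) / (‖w - a‖ ^ 2) ^ 2)) ‖w - a‖ := by
        have h4 := (hasDerivAt_pow 2 ‖w - a‖)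
        have h5 := (h4.inv (pow_ne_zero 2 hn)).neg
        simp only [Nat.cast_ofNat, Nat.add_one_sub_one, pow_one] at h5
        exact h5
      rw [h3.deriv]
      field_simp
    rw [h1, h2]
    field_simp
    ring

private lemma UA_sum (S : Finset ℂ) {w : ℂ} (hw : w ∉ S) :
    ContDiffAt ℝ 2 (fun z : ℂ => ∑ a ∈ S, Real.log ‖z - a‖) w ∧
    lap (fun z : ℂ => ∑ a ∈ S, Real.log ‖z - a‖) w = 0 := by
  classical
  induction S using Finset.induction_on with
  | empty =>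
    simp only [Finset.sum_empty]
    exact ⟨contDiffAt_const, lap_const 0 w⟩
  | insert a S ha ih =>
    simp only [Finset.mem_insert, not_or] at hw
    obtain ⟨h1, h2⟩ := ih hw.2
    obtain ⟨h3, h4⟩ := UA_log hw.1
    simp only [Finset.sum_insert ha]
    exact ⟨h3.add h1, by rw [lap_add h3 h1, h2, h4, add_zero]⟩

/-- Liouville: a subharmonic function on the plane minus a finite set which is bounded above is
constant. (If `u z₁ < u z₂` compare `u` with `ε b`,
`b(z) = -∑_{a ∈ D} log|z-a| + (|D|+1) log|z-z₁|`, outside a small disc around `z₁`.) -/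
theorem liouville {D : Set ℂ} (hD : D.Finite) {u : ℂ → ℝ} (hu : ContDiffOn ℝ 2 u Dᶜ)
    (hb : ∃ C, ∀ z ∉ D, u z ≤ C) (hl : ∀ z ∉ D, 0 ≤ lap u z) :
    ∀ z ∉ D, lap u z = 0 := by
  classical
  obtain ⟨C, hC⟩ := hb
  have hopen : IsOpen Dᶜ := hD.isClosed.isOpen_compl
  have huat : ∀ z ∉ D, ContDiffAt ℝ 2 u z := fun z hz => hu.contDiffAt (hopen.mem_nhds hz)
  suffices key : ∀ z₁ ∉ D, ∀ z₂ ∉ D, u z₂ ≤ u z₁ by
    intro z hz
    have h1 : u =ᶠ[𝓝 z] fun _ => u z := by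
      filter_upwards [hopen.mem_nhds hz] with w hw
      exact le_antisymm (key z hz w hw) (key w hw z hz)
    rw [lap_congr h1, lap_const]
  intro z₁ hz₁ z₂ hz₂
  by_contra hcon
  push Not at hcon
  obtain ⟨δ, hδ⟩ : ∃ δ : ℝ, δ = (u z₂ - u z₁) / 2 := ⟨_, rfl⟩
  have hδ0 : 0 < δ := by rw [hδ]; linarith
  have hne : z₂ ≠ z₁ := by rintro rfl; exact lt_irrefl _ hcon
  obtain ⟨S, hS⟩ : ∃ S : Finset ℂ, ∀ a, a ∈ S ↔ a ∈ D := ⟨hD.toFinset, fun a => by simp⟩
  -- the comparison function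
  obtain ⟨b, hbdef⟩ : ∃ b : ℂ → ℝ, b = fun z => ((S.card + 1 : ℝ) * Real.log ‖z - z₁‖ -
    ‖z - z₁‖⁻¹) - ∑ a ∈ S, Real.log ‖z - a‖ := ⟨_, rfl⟩
  have hbat : ∀ z ∉ D, z ≠ z₁ → ContDiffAt ℝ 2 b z ∧ lap b z = -(‖z - z₁‖ ^ 3)⁻¹ := by
    intro z hz hz1
    obtain ⟨h1, h2⟩ := UA_log hz1
    obtain ⟨h3, h4⟩ := UA_inv hz1
    obtain ⟨h5, h6⟩ := UA_sum S (w := z) (by rwa [hS])
    have h7 : ContDiffAt ℝ 2 (fun z : ℂ => (S.card + 1 : ℝ) * Real.log ‖z - z₁‖) z :=
      contDiffAt_const.mul h1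
    rw [hbdef]
    refine ⟨(h7.sub h3).sub h5, ?_⟩
    rw [lap_sub (h7.sub h3) h5, lap_sub h7 h3, lap_const_mul _ h1, h2, h4, h6]
    ring
  -- behaviour at the points of `D`
  have hbD : ∀ a ∈ D, Tendsto b (𝓝[≠] a) atTop := by
    intro a ha
    have haS : a ∈ S := (hS a).mpr ha
    have ha1 : a ≠ z₁ := fun h => hz₁ (h ▸ ha)
    have h1 : ContinuousAt (fun z : ℂ => ((S.card + 1 : ℝ) * Real.log ‖z - z₁‖ -
        ‖z - z₁‖⁻¹) - ∑ c ∈ S.erase a, Real.log ‖z - c‖) a := by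
      refine ContinuousAt.sub (ContinuousAt.sub ?_ ?_) ?_
      · exact continuousAt_const.mul (UA_log ha1).1.continuousAt
      · exact (UA_inv ha1).1.continuousAt
      · exact (UA_sum (S.erase a) (by simp)).1.continuousAt
    have h2 : Tendsto (fun z : ℂ => -Real.log ‖z - a‖) (𝓝[≠] a) atTop := by
      refine tendsto_neg_atBot_atTop.comp ?_
      exact Real.tendsto_log_nhdsGT_zero.comp (tendsto_norm_sub_self_nhdsNE a)
    have h3 := (h1.tendsto.mono_left nhdsWithin_le_nhds).add_atTop h2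
    refine h3.congr fun z => ?_
    rw [hbdef]
    simp only
    rw [← Finset.add_sum_erase S _ haS]
    ring
  -- behaviour at infinity
  have hz1inf : Tendsto (fun z : ℂ => ‖z - z₁‖) (cocompact ℂ) atTop := by
    have h1 : Tendsto (fun z : ℂ => ‖z‖ + -‖z₁‖) (cocompact ℂ) atTop :=
      tendsto_atTop_add_const_right _ _ tendsto_norm_cocompact_atTop
    refine tendsto_atTop_mono (fun z => ?_) h1
    have := norm_sub_norm_le z z₁
    linarith
  have hbinf : Tendsto b (cocompact ℂ) atTop := by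
    have h1 : Tendsto (fun z : ℂ => Real.log ‖z - z₁‖ + (-1 - S.card * Real.log 2))
        (cocompact ℂ) atTop :=
      tendsto_atTop_add_const_right _ _ (Real.tendsto_log_atTop.comp hz1inf)
    refine tendsto_atTop_mono' _ ?_ h1
    have h2 : ∀ᶠ z in cocompact ℂ, ∀ a ∈ S, ‖a - z₁‖ ≤ ‖z - z₁‖ :=
      (Filter.eventually_all_finset S).mpr fun a _ => hz1inf.eventually_ge_atTop _
    filter_upwards [h2, hz1inf.eventually_ge_atTop 1] with z hz h1z
    have h3 : ∀ a ∈ S, Real.log ‖z - a‖ ≤ Real.log ‖z - z₁‖ + Real.log 2 := by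
      intro a ha
      rw [← Real.log_mul (by positivity) (by norm_num)]
      rcases eq_or_ne (z - a) 0 with h0 | h0
      · rw [h0, norm_zero, Real.log_zero]
        exact Real.log_nonneg (by linarith)
      · refine Real.log_le_log (norm_pos_iff.mpr h0) ?_
        calc ‖z - a‖ = ‖(z - z₁) - (a - z₁)‖ := by congr 1; ring
          _ ≤ ‖z - z₁‖ + ‖a - z₁‖ := norm_sub_le _ _
          _ ≤ ‖z - z₁‖ * 2 := by linarith [hz a ha]
    have h4 : ∑ a ∈ S, Real.log ‖z - a‖ ≤ S.card * (Real.log ‖z - z₁‖ + Real.log 2) := by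
      have := Finset.sum_le_sum h3
      rwa [Finset.sum_const, nsmul_eq_mul] at this
    have h5 : ‖z - z₁‖⁻¹ ≤ 1 := inv_le_one_of_one_le₀ h1z
    rw [hbdef]
    simp only
    linarith
  -- a small disc
  obtain ⟨r, hr0, hr⟩ : ∃ r > 0, ∀ z, ‖z - z₁‖ ≤ r → z ∉ D ∧ u z ≤ u z₁ + δ ∧ z ≠ z₂ := by
    have h1 : ∀ᶠ z in 𝓝 z₁, z ∉ D ∧ u z ≤ u z₁ + δ ∧ z ≠ z₂ := by
      have h2 : ∀ᶠ z in 𝓝 z₁, u z < u z₁ + δ :=
        (huat z₁ hz₁).continuousAt.eventually_lt_const (by linarith)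
      have h3 : ∀ᶠ z in 𝓝 z₁, z ≠ z₂ := isOpen_ne.mem_nhds hne.symm
      filter_upwards [hopen.mem_nhds hz₁, h2, h3] with z e1 e2 e3
      exact ⟨e1, e2.le, e3⟩
    obtain ⟨r, hr0, hr⟩ := Metric.nhds_basis_closedBall.mem_iff.mp h1
    exact ⟨r, hr0, fun z hz => hr (by rwa [Metric.mem_closedBall, dist_eq_norm])⟩
  have hr2 : r < ‖z₂ - z₁‖ := by
    by_contra h
    push Not at h
    exact (hr z₂ h).2.2 rfl
  obtain ⟨B, hB⟩ : ∃ B, ∀ z ∈ Metric.sphere z₁ r, ‖b z‖ ≤ B := by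
    refine (isCompact_sphere z₁ r).exists_bound_of_continuousOn fun z hz => ?_
    have hz' : ‖z - z₁‖ = r := by rwa [Metric.mem_sphere, dist_eq_norm] at hz
    have hz1 : z ≠ z₁ := by
      rintro rfl
      simp at hz'
      linarith
    exact (hbat z (hr z hz'.le).1 hz1).1.continuousAt.continuousWithinAt
  have claim : ∀ ε > 0, u z₂ - ε * b z₂ ≤ u z₁ + δ + ε * B := by
    intro ε hε
    obtain ⟨g, hg⟩ : ∃ g : ℂ → ℝ, g = fun z => u z - ε * b z := ⟨_, rfl⟩
    have hg1 : ∀ l : Filter ℂ, Tendsto b l atTop → (∀ᶠ z in l, z ∉ D) →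
        ∀ᶠ z in l, g z < g z₂ := by
      intro l h1 h2
      filter_upwards [h1.eventually_gt_atTop ((C - g z₂) / ε), h2] with z hz hzD
      rw [div_lt_iff₀ hε] at hz
      have := hC z hzD
      have h3 : g z = u z - ε * b z := by rw [hg]
      rw [h3]
      nlinarith
    have hgc : ∀ z ∉ D, z ≠ z₁ → ContDiffAt ℝ 2 g z := by
      intro z hz hz1
      rw [hg]
      exact (huat z hz).sub (contDiffAt_const.mul (hbat z hz hz1).1)
    have hne1 : ∀ z, r ≤ ‖z - z₁‖ → z ≠ z₁ := by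
      rintro z hz rfl
      simp at hz
      linarith
    obtain ⟨K, hK⟩ : ∃ K : Set ℂ, K = {z | r ≤ ‖z - z₁‖ ∧ z ∉ D ∧ g z₂ ≤ g z} := ⟨_, rfl⟩
    have hKmem : ∀ z, z ∈ K ↔ r ≤ ‖z - z₁‖ ∧ z ∉ D ∧ g z₂ ≤ g z := fun z => by rw [hK]; rfl
    have hKclosed : IsClosed K := by
      rw [← isOpen_compl_iff, isOpen_iff_mem_nhds]
      intro z hz
      by_cases h1 : r ≤ ‖z - z₁‖
      · by_cases h2 : z ∈ D
        · have h3 : ∀ᶠ w in 𝓝[≠] z, w ∉ D := by
            have h4 : (D \ {z})ᶜ ∈ 𝓝 z :=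
              (hD.subset Set.sdiff_subset).isClosed.isOpen_compl.mem_nhds (by simp)
            rw [eventually_nhdsWithin_iff]
            filter_upwards [h4] with w hw hwz hwD
            exact hw ⟨hwD, hwz⟩
          have h4 := hg1 _ (hbD z h2) h3
          rw [eventually_nhdsWithin_iff] at h4
          filter_upwards [h4] with w hw hwK
          rw [hKmem] at hwK
          have hwz : w ≠ z := by rintro rfl; exact hwK.2.1 h2
          exact absurd (hw hwz) (not_lt.mpr hwK.2.2)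
        · have h3 : g z < g z₂ := by
            by_contra h
            exact hz ((hKmem z).mpr ⟨h1, h2, not_lt.mp h⟩)
          filter_upwards [(hgc z h2 (hne1 z h1)).continuousAt.eventually_lt_const h3] with w hw hwK
          rw [hKmem] at hwK
          exact absurd hw (not_lt.mpr hwK.2.2)
      · push Not at h1
        have h3 : ∀ᶠ w in 𝓝 z, ‖w - z₁‖ < r := by
          have h4 : ContinuousAt (fun w : ℂ => ‖w - z₁‖) z := by fun_prop
          exact h4.eventually_lt_const h1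
        filter_upwards [h3] with w hw hwK
        rw [hKmem] at hwK
        linarith [hwK.1]
    have hKcompact : IsCompact K := by
      have h1 : ∀ᶠ z in cocompact ℂ, z ∉ D := hD.isCompact.compl_mem_cocompact
      have h2 := hg1 _ hbinf h1
      obtain ⟨T, hT, hTK⟩ := mem_cocompact.mp h2
      refine hT.of_isClosed_subset hKclosed fun z hz => ?_
      by_contra hzT
      have h3 : g z < g z₂ := hTK hzT
      exact absurd h3 (not_lt.mpr ((hKmem z).mp hz).2.2)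
    have hz2K : z₂ ∈ K := (hKmem z₂).mpr ⟨hr2.le, hz₂, le_rfl⟩
    obtain ⟨w, hwK, hwmax⟩ := hKcompact.exists_isMaxOn ⟨z₂, hz2K⟩ (f := g) (fun z hz =>
      (hgc z ((hKmem z).mp hz).2.1 (hne1 z ((hKmem z).mp hz).1)).continuousAt.continuousWithinAt)
    obtain ⟨hw1, hw2, hw3⟩ := (hKmem w).mp hwK
    have hall : ∀ z, r ≤ ‖z - z₁‖ → z ∉ D → g z ≤ g w := by
      intro z h1 h2
      by_cases h3 : g z₂ ≤ g z
      · exact hwmax ((hKmem z).mpr ⟨h1, h2, h3⟩)
      · exact (not_le.mp h3).le.trans hw3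
    have hwr : ‖w - z₁‖ = r := by
      refine le_antisymm ?_ hw1
      by_contra h
      push Not at h
      have hmax : IsLocalMax g w := by
        have h3 : ∀ᶠ z in 𝓝 w, r < ‖z - z₁‖ := by
          have h4 : ContinuousAt (fun z : ℂ => ‖z - z₁‖) w := by fun_prop
          exact h4.eventually_const_lt h
        filter_upwards [h3, hopen.mem_nhds hw2] with z hz1 hz2
        exact hall z hz1.le hz2
      have hw4 := hne1 w hw1
      have h5 := lap_nonpos_of_isLocalMax (hgc w hw2 hw4) hmax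
      obtain ⟨h6, h7⟩ := hbat w hw2 hw4
      have h8 : lap g w = lap u w - ε * lap b w := by
        rw [hg, lap_sub (huat w hw2) (contDiffAt_const.mul h6), lap_const_mul _ h6]
      rw [h8, h7] at h5
      have h9 := hl w hw2
      have h10 : 0 < ε * (‖w - z₁‖ ^ 3)⁻¹ := by
        have : 0 < ‖w - z₁‖ := by linarith
        positivity
      linarith
    have h11 := (hr w hwr.le).2.1
    have h12 := hB w (by rw [Metric.mem_sphere, dist_eq_norm]; exact hwr)
    have h13 : -b w ≤ B := (neg_le_abs (b w)).trans h12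
    have h14 : g w = u w - ε * b w := by rw [hg]
    have h15 : g z₂ = u z₂ - ε * b z₂ := by rw [hg]
    rw [← h15]
    refine hw3.trans ?_
    rw [h14]
    nlinarith
  have hQ : 0 < |b z₂| + |B| + 1 := by positivity
  have h1 := claim (δ / (2 * (|b z₂| + |B| + 1))) (by positivity)
  have h2 : δ / (2 * (|b z₂| + |B| + 1)) * (b z₂ + B) ≤ δ / 2 := by
    have h3 : b z₂ + B ≤ |b z₂| + |B| + 1 := by
      have := le_abs_self (b z₂)
      have := le_abs_self B
      linarith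
    calc δ / (2 * (|b z₂| + |B| + 1)) * (b z₂ + B)
        ≤ δ / (2 * (|b z₂| + |B| + 1)) * (|b z₂| + |B| + 1) := by gcongr
      _ = δ / 2 := by field_simp
  have h4 : u z₂ = u z₁ + 2 * δ := by rw [hδ]; ring
  nlinarith

end GM16
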