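import Pool.Agent.LibGM16.CalcB

open Complex MeasureTheory Filter Topology Matrix
open scoped ContDiff Real ComplexOrder

namespace GM16

variable {γ t : ℝ} {v v' f f' : ℂ → ℝ}

theorem ub_dx_add {f g : ℂ → ℂ} {z : ℂ} (hf : DifferentiableAt ℝ f z)
    (hg : DifferentiableAt ℝ g z) :
    dx (fun w => f w + g w) z = dx f z + dx g z ∧ dy (fun w => f w + g w) z = dy f z + dy g z := by
  constructor
  · unfold dx; rw [fderiv_fun_add hf hg]; rfl
  · unfold dy; rw [fderiv_fun_add hf hg]; rfl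

theorem ub_dx_mul {f g : ℂ → ℂ} {z : ℂ} (hf : DifferentiableAt ℝ f z)
    (hg : DifferentiableAt ℝ g z) :
    dx (fun w => f w * g w) z = f z * dx g z + dx f z * g z ∧
    dy (fun w => f w * g w) z = f z * dy g z + dy f z * g z := by
  constructor
  · unfold dx
    rw [fderiv_fun_mul hf hg]
    simp
    ring
  · unfold dy
    rw [fderiv_fun_mul hf hg]
    simp
    ring

theorem ub_dz_add {f g : ℂ → ℂ} {z : ℂ} (hf : DifferentiableAt ℝ f z)
    (hg : DifferentiableAt ℝ g z) :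
    dz (fun w => f w + g w) z = dz f z + dz g z ∧ dzb (fun w => f w + g w) z = dzb f z + dzb g z := by
  obtain ⟨h1, h2⟩ := ub_dx_add hf hg
  simp only [dz, dzb, h1, h2]
  constructor <;> ring

theorem ub_dz_mul {f g : ℂ → ℂ} {z : ℂ} (hf : DifferentiableAt ℝ f z)
    (hg : DifferentiableAt ℝ g z) :
    dz (fun w => f w * g w) z = dz f z * g z + f z * dz g z ∧
    dzb (fun w => f w * g w) z = dzb f z * g z + f z * dzb g z := by
  obtain ⟨h1, h2⟩ := ub_dx_mul hf hg
  simp only [dz, dzb, h1, h2]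
  constructor <;> ring

theorem ub_dz_const (c : ℂ) (z : ℂ) :
    dz (fun _ => c) z = 0 ∧ dzb (fun _ => c) z = 0 := by
  simp [dz, dzb, dx, dy]

theorem ub_dz_conj {f : ℂ → ℂ} {z : ℂ} (hf : DifferentiableAt ℝ f z) :
    dz (fun w => starRingEnd ℂ (f w)) z = starRingEnd ℂ (dzb f z) ∧
    dzb (fun w => starRingEnd ℂ (f w)) z = starRingEnd ℂ (dz f z) := by
  have hc : HasFDerivAt (fun w => starRingEnd ℂ (f w))
      ((Complex.conjCLE : ℂ →L[ℝ] ℂ).comp (fderiv ℝ f z)) z :=
    (Complex.conjCLE : ℂ →L[ℝ] ℂ).hasFDerivAt.comp z hf.hasFDerivAt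
  have h1 : dx (fun w => starRingEnd ℂ (f w)) z = starRingEnd ℂ (dx f z) := by
    unfold dx; rw [hc.fderiv]; rfl
  have h2 : dy (fun w => starRingEnd ℂ (f w)) z = starRingEnd ℂ (dy f z) := by
    unfold dy; rw [hc.fderiv]; rfl
  have h2' : (starRingEnd ℂ) 2 = 2 := map_ofNat (starRingEnd ℂ) 2
  simp only [dz, dzb, h1, h2]
  constructor
  · simp only [map_div₀, map_add, map_mul, Complex.conj_I, h2']
    ring
  · simp only [map_div₀, map_sub, map_mul, Complex.conj_I, h2']
    ring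

/-- Rules for `∂, ∂̄` of matrix valued functions. -/
theorem mdz_mul {f g : ℂ → Mat} {z : ℂ}
    (hf : ∀ i j, DifferentiableAt ℝ (fun w => f w i j) z)
    (hg : ∀ i j, DifferentiableAt ℝ (fun w => g w i j) z) :
    mdz (fun w => f w * g w) z = mdz f z * g z + f z * mdz g z ∧
    mdzb (fun w => f w * g w) z = mdzb f z * g z + f z * mdzb g z := by
  have key : ∀ i j : Fin 2, dz (fun w => (f w * g w) i j) z =
      (mdz f z * g z + f z * mdz g z) i j ∧ dzb (fun w => (f w * g w) i j) z =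
      (mdzb f z * g z + f z * mdzb g z) i j := by
    intro i j
    have e : (fun w => (f w * g w) i j) = fun w => f w i 0 * g w 0 j + f w i 1 * g w 1 j := by
      funext w
      rw [Matrix.mul_apply, Fin.sum_univ_two]
    rw [e]
    obtain ⟨a1, a2⟩ := ub_dz_add (f := fun w => f w i 0 * g w 0 j)
      (g := fun w => f w i 1 * g w 1 j) ((hf i 0).mul (hg 0 j)) ((hf i 1).mul (hg 1 j))
    obtain ⟨b1, b2⟩ := ub_dz_mul (hf i 0) (hg 0 j)
    obtain ⟨c1, c2⟩ := ub_dz_mul (hf i 1) (hg 1 j)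
    rw [a1, a2, b1, b2, c1, c2]
    simp only [Matrix.add_apply, Matrix.mul_apply, Fin.sum_univ_two, mdz, mdzb, Matrix.of_apply]
    constructor <;> ring
  constructor
  · ext i j
    exact (key i j).1
  · ext i j
    exact (key i j).2

theorem mdz_inv {f : ℂ → Mat} {z : ℂ} (hf : ∀ i j, DifferentiableAt ℝ (fun w => f w i j) z)
    (h0 : (f z).det ≠ 0) :
    mdz (fun w => (f w)⁻¹) z = -((f z)⁻¹ * mdz f z * (f z)⁻¹) ∧
    mdzb (fun w => (f w)⁻¹) z = -((f z)⁻¹ * mdzb f z * (f z)⁻¹) := by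
  have hdet : DifferentiableAt ℝ (fun w => (f w).det) z := by
    simp only [Matrix.det_fin_two]
    exact ((hf 0 0).mul (hf 1 1)).sub ((hf 0 1).mul (hf 1 0))
  have hi : ∀ i j, DifferentiableAt ℝ (fun w => (f w)⁻¹ i j) z := by
    intro i j
    have e : (fun w => (f w)⁻¹ i j) = fun w => ((f w).det)⁻¹ * (Matrix.adjugate (f w)) i j := by
      funext w
      rw [Matrix.inv_def]
      simp [Ring.inverse_eq_inv']
    rw [e]
    refine (hdet.inv h0).mul ?_
    simp only [Matrix.adjugate_fin_two]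
    fin_cases i <;> fin_cases j <;> simp
    · exact hf 1 1
    · exact hf 0 1
    · exact hf 1 0
    · exact hf 0 0
  have hu : IsUnit (f z).det := isUnit_iff_ne_zero.mpr h0
  have hev : ∀ᶠ w in 𝓝 z, f w * (f w)⁻¹ = 1 := by
    filter_upwards [hdet.continuousAt.eventually_ne h0] with w hw
    exact Matrix.mul_nonsing_inv _ (isUnit_iff_ne_zero.mpr hw)
  obtain ⟨m1, m2⟩ := mdz_mul (f := f) (g := fun w => (f w)⁻¹) hf hi
  have z1 : mdz (fun w => f w * (f w)⁻¹) z = 0 ∧ mdzb (fun w => f w * (f w)⁻¹) z = 0 := by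
    constructor
    · ext i j
      have e : (fun w => (f w * (f w)⁻¹) i j) =ᶠ[𝓝 z] fun _ => (1 : Mat) i j :=
        hev.mono fun w hw => by simp only [hw]
      show dz (fun w => (f w * (f w)⁻¹) i j) z = 0
      have h1 : dz (fun w => (f w * (f w)⁻¹) i j) z = dz (fun _ => (1 : Mat) i j) z := by
        unfold dz dx dy
        rw [e.fderiv_eq]
      rw [h1, (ub_dz_const _ z).1]
    · ext i j
      have e : (fun w => (f w * (f w)⁻¹) i j) =ᶠ[𝓝 z] fun _ => (1 : Mat) i j :=
        hev.mono fun w hw => by simp only [hw]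
      show dzb (fun w => (f w * (f w)⁻¹) i j) z = 0
      have h1 : dzb (fun w => (f w * (f w)⁻¹) i j) z = dzb (fun _ => (1 : Mat) i j) z := by
        unfold dzb dx dy
        rw [e.fderiv_eq]
      rw [h1, (ub_dz_const _ z).2]
  rw [z1.1] at m1
  rw [z1.2] at m2
  have i1 : (f z)⁻¹ * f z = 1 := Matrix.nonsing_inv_mul _ hu
  constructor
  · have e := congrArg (fun M => (f z)⁻¹ * M) m1
    simp only [mul_zero, mul_add] at e
    rw [← mul_assoc ((f z)⁻¹) (f z), i1, one_mul] at e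
    rw [mul_assoc, eq_neg_iff_add_eq_zero, add_comm]
    exact e.symm
  · have e := congrArg (fun M => (f z)⁻¹ * M) m2
    simp only [mul_zero, mul_add] at e
    rw [← mul_assoc ((f z)⁻¹) (f z), i1, one_mul] at e
    rw [mul_assoc, eq_neg_iff_add_eq_zero, add_comm]
    exact e.symm

theorem mdz_conjTranspose {f : ℂ → Mat} {z : ℂ}
    (hf : ∀ i j, DifferentiableAt ℝ (fun w => f w i j) z) :
    mdz (fun w => (f w)ᴴ) z = (mdzb f z)ᴴ ∧ mdzb (fun w => (f w)ᴴ) z = (mdz f z)ᴴ := by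
  constructor
  · ext i j
    exact (ub_dz_conj (hf j i)).1
  · ext i j
    exact (ub_dz_conj (hf j i)).2

end GM16
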