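import Pool.Agent.LibGM16.UX

open Complex MeasureTheory Filter Topology Matrix
open scoped ContDiff Real ComplexOrder

namespace GM16

variable {γ t : ℝ} {v v' f f' : ℂ → ℝ}

theorem dzI {g : ℂ → ℂ} {w : ℂ} (hg : DifferentiableAt ℝ g w) :
    dz (fun w => I * g w) w = I * dz g w ∧ dzb (fun w => I * g w) w = I * dzb g w := by
  have h1 : dx (fun w => I * g w) w = I * dx g w := by
    unfold dx; rw [fderiv_const_mul hg]; rfl
  have h2 : dy (fun w => I * g w) w = I * dy g w := by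
    unfold dy; rw [fderiv_const_mul hg]; rfl
  constructor
  · simp only [dz, h1, h2]; ring
  · simp only [dzb, h1, h2]; ring

theorem dz_comm {F : ℂ → ℂ} {z : ℂ} (hF : ContDiffAt ℝ 2 F z) : dzb (dz F) z = dz (dzb F) z := by
  have hre : ContDiffAt ℝ 2 (fun w => (F w).re) z :=
    Complex.reCLM.contDiff.contDiffAt.comp z hF
  have him : ContDiffAt ℝ 2 (fun w => (F w).im) z :=
    Complex.imCLM.contDiff.contDiffAt.comp z hF
  have hre' : ContDiffAt ℝ 2 (fun w => ((F w).re : ℂ)) z :=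
    Complex.ofRealCLM.contDiff.contDiffAt.comp z hre
  have him' : ContDiffAt ℝ 2 (fun w => ((F w).im : ℂ)) z :=
    Complex.ofRealCLM.contDiff.contDiffAt.comp z him
  have e0 : F = fun w => ((F w).re : ℂ) + I * ((F w).im : ℂ) := by
    funext w
    apply Complex.ext <;> simp
  have e1 : ∀ᶠ w in 𝓝 z, dz F w = dz (fun w => ((F w).re : ℂ)) w +
      I * dz (fun w => ((F w).im : ℂ)) w ∧ dzb F w = dzb (fun w => ((F w).re : ℂ)) w +
      I * dzb (fun w => ((F w).im : ℂ)) w := by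
    filter_upwards [hre'.eventually (by simp), him'.eventually (by simp)] with w h1 h2
    have d1 := h1.differentiableAt (by simp)
    have d2 := h2.differentiableAt (by simp)
    constructor
    · conv_lhs => rw [e0]
      rw [(dz_add d1 (d2.const_mul I)).1, (dzI d2).1]
    · conv_lhs => rw [e0]
      rw [(dz_add d1 (d2.const_mul I)).2, (dzI d2).2]
  rw [(dz_congr (e1.mono fun w hw => hw.1)).2, (dz_congr (e1.mono fun w hw => hw.2)).1]
  have c1 := contDiffAt_dz (n := 1) (f := fun w => ((F w).re : ℂ)) (by rw [one_add_one_eq_two]; exact hre')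
  have c2 := contDiffAt_dz (n := 1) (f := fun w => ((F w).im : ℂ)) (by rw [one_add_one_eq_two]; exact him')
  have d1 := c1.1.differentiableAt (by simp)
  have d2 := c2.1.differentiableAt (by simp)
  have d1' := c1.2.differentiableAt (by simp)
  have d2' := c2.2.differentiableAt (by simp)
  rw [(dz_add d1 (d2.const_mul I)).2, (dzI d2).2, (dz_add d1' (d2'.const_mul I)).1, (dzI d2').1]
  have a1 := dzb_dz hre
  have a2 := dzb_dz him
  have b1 : dzb (fun w => dz (fun w => ((F w).re : ℂ)) w) z = ((lap (fun w => (F w).re) z : ℝ) : ℂ) / 4 := a1.1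
  have b2 : dzb (fun w => dz (fun w => ((F w).im : ℂ)) w) z = ((lap (fun w => (F w).im) z : ℝ) : ℂ) / 4 := a2.1
  have b1' : dz (fun w => dzb (fun w => ((F w).re : ℂ)) w) z = ((lap (fun w => (F w).re) z : ℝ) : ℂ) / 4 := a1.2
  have b2' : dz (fun w => dzb (fun w => ((F w).im : ℂ)) w) z = ((lap (fun w => (F w).im) z : ℝ) : ℂ) / 4 := a2.2
  rw [b1, b2, b1', b2']

theorem mdz_comm {F : ℂ → Mat} {z : ℂ} (hF : Sm 2 F z) : mdzb (mdz F) z = mdz (mdzb F) z := by
  ext i j
  exact dz_comm (hF i j)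

/-- the rules for the adjoint -/
theorem mdz_hadj {h Y : ℂ → Mat} {z : ℂ} (hh : Sm 1 h z) (hY : Sm 1 Y z)
    (hH : ∀ᶠ w in 𝓝 z, (h w).IsHermitian) (h0 : (h z).det ≠ 0) :
    mdz (fun w => hadj (h w) (Y w)) z = hadj (h z) (mdzb Y z) -
      (((h z)⁻¹ * mdz h z) * hadj (h z) (Y z) - hadj (h z) (Y z) * ((h z)⁻¹ * mdz h z)) ∧
    mdzb (fun w => hadj (h w) (Y w)) z =
      hadj (h z) (mdz Y z + ((h z)⁻¹ * mdz h z * Y z - Y z * ((h z)⁻¹ * mdz h z))) := by
  have ne1 : (1 : WithTop ℕ∞) ≠ 0 := one_ne_zero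
  have hu : IsUnit (h z).det := isUnit_iff_ne_zero.mpr h0
  have i1 : (h z)⁻¹ * h z = 1 := Matrix.nonsing_inv_mul _ hu
  have i2 : h z * (h z)⁻¹ = 1 := Matrix.mul_nonsing_inv _ hu
  have smi := (hh.inv h0)
  have smc := hY.conj
  have hz := hH.self_of_nhds
  -- derivative of h is compatible with the adjoint
  have hhc : (mdz h z)ᴴ = mdzb h z := by
    rw [← (mdz_conjTranspose (hh.diff ne1)).2]
    exact (mdz_congr (hH.mono fun w hw => hw.eq)).2
  have hinvH : ((h z)⁻¹)ᴴ = (h z)⁻¹ := by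
    rw [Matrix.conjTranspose_nonsing_inv, hz.eq]
  have m1 := mdz_mul (f := fun w => (h w)⁻¹ * (Y w)ᴴ) (g := h) ((smi.mul smc).diff ne1)
    (hh.diff ne1)
  have m2 := mdz_mul (f := fun w => (h w)⁻¹) (g := fun w => (Y w)ᴴ) (smi.diff ne1)
    (smc.diff ne1)
  have m3 := mdz_inv (hh.diff ne1) h0
  have m4 := mdz_conjTranspose (hY.diff ne1)
  constructor
  · show mdz (fun w => (h w)⁻¹ * (Y w)ᴴ * h w) z = _
    rw [m1.1, m2.1, m3.1, m4.1]
    unfold hadj
    simp only [add_mul, neg_mul, mul_assoc]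
    rw [← mul_assoc (h z) (h z)⁻¹, i2, one_mul]
    abel
  · show mdzb (fun w => (h w)⁻¹ * (Y w)ᴴ * h w) z = _
    rw [m1.2, m2.2, m3.2, m4.2]
    unfold hadj
    simp only [Matrix.conjTranspose_add, Matrix.conjTranspose_sub, Matrix.conjTranspose_mul,
      hinvH, hhc]
    simp only [mul_add, mul_sub, add_mul, sub_mul, neg_mul, mul_assoc]
    rw [i1, mul_one]
    abel

/-- the algebra behind `lap_norm` -/
theorem alg2 (h A m : Mat) (hh : h.IsHermitian) (h0 : IsUnit h.det) (a b : ℝ) :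
    (((b : ℂ) • ((m * A - A * m) * hadj h A - hadj h A * (m * A - A * m)) +
        (((a : ℂ) • (A * hadj h A - hadj h A * A)) * m -
          m * ((a : ℂ) • (A * hadj h A - hadj h A * A)))) * hadj h m).trace +
      (m * hadj h ((b : ℂ) • ((m * A - A * m) * hadj h A - hadj h A * (m * A - A * m)))).trace =
      ((2 * b - a : ℝ) : ℂ) * ((m * A - A * m) * hadj h (m * A - A * m)).trace +
      (a : ℂ) * ((hadj h A * m - m * hadj h A) * hadj h (hadj h A * m - m * hadj h A)).trace := by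
  have i1 : h⁻¹ * h = 1 := Matrix.nonsing_inv_mul h h0
  have i2 : h * h⁻¹ = 1 := Matrix.mul_nonsing_inv h h0
  have hi : (h⁻¹)ᴴ = h⁻¹ := by rw [Matrix.conjTranspose_nonsing_inv, hh.eq]
  have adj_mul : ∀ X Y : Mat, hadj h (X * Y) = hadj h Y * hadj h X := by
    intro X Y
    unfold hadj
    rw [Matrix.conjTranspose_mul]
    simp only [mul_assoc]
    rw [← mul_assoc h h⁻¹, i2, one_mul]
  have adj_sub : ∀ X Y : Mat, hadj h (X - Y) = hadj h X - hadj h Y := by
    intro X Y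
    unfold hadj
    rw [Matrix.conjTranspose_sub, mul_sub, sub_mul]
  have adj_smul : ∀ (c : ℝ) (X : Mat), hadj h ((c : ℂ) • X) = (c : ℂ) • hadj h X := by
    intro c X
    unfold hadj
    rw [Matrix.conjTranspose_smul]
    simp
  have adj_adj : hadj h (hadj h A) = A := by
    unfold hadj
    rw [Matrix.conjTranspose_mul, Matrix.conjTranspose_mul, Matrix.conjTranspose_conjTranspose,
      hi, hh.eq]
    rw [← mul_assoc, ← mul_assoc, i1, one_mul, mul_assoc, i1, mul_one]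
  rw [adj_smul, adj_sub, adj_mul, adj_mul, adj_sub, adj_mul, adj_mul, adj_sub, adj_mul, adj_mul,
    adj_adj]
  generalize hadj h A = B
  generalize hadj h m = n
  simp only [mul_add, add_mul, mul_sub, sub_mul, smul_sub, Matrix.smul_mul, Matrix.mul_smul,
    Matrix.trace_add, Matrix.trace_sub, Matrix.trace_smul, smul_eq_mul, mul_assoc]
  -- normal form of cyclic words
  have c : ∀ X Y : Mat, (X * Y).trace = (Y * X).trace := Matrix.trace_mul_comm
  have w1 : (A * (m * (B * n))).trace = (m * (B * (n * A))).trace := by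
    rw [c A]; simp only [mul_assoc]
  have w2 : (A * (m * (n * B))).trace = (m * (n * (B * A))).trace := by
    rw [c A]; simp only [mul_assoc]
  have w3 : (B * (m * (A * n))).trace = (m * (A * (n * B))).trace := by
    rw [c B]; simp only [mul_assoc]
  have w4 : (B * (A * (m * n))).trace = (m * (n * (B * A))).trace := by
    rw [← mul_assoc, c, mul_assoc]
  have w5 : (A * (B * (m * n))).trace = (m * (n * (A * B))).trace := by
    rw [← mul_assoc, c, mul_assoc]
  have w6 : (B * (m * (n * A))).trace = (m * (n * (A * B))).trace := by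
    rw [c B]; simp only [mul_assoc]
  simp only [w1, w2, w3, w4, w5, w6]
  push_cast
  ring

/-- `¼ Δ |μ|² = |∂ʰμ|² + |∂̄μ|² + t² |[μ,A]|² + t² |[A*,μ]|²` if
`∂ʰ∂̄μ = t² [[μ,A],A*]` and `∂_z̄(h⁻¹h_z) = t² [A,A*]`. -/
theorem lap_norm {A : Mat} {h μ : ℂ → Mat} {O : Set ℂ} (hO : IsOpen O)
    (hh : ∀ i j, ContDiffOn ℝ ∞ (fun z => h z i j) O) (hp : ∀ z ∈ O, (h z).PosDef)
    (hμ : ∀ i j, ContDiffOn ℝ ∞ (fun z => μ z i j) O) {z : ℂ} (hz : z ∈ O)
    {a b : ℝ}
    (hcurv : mdzb (fun w => (h w)⁻¹ * mdz h w) z = (a : ℂ) • (A * hadj (h z) A - hadj (h z) A * A))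
    (heq : ParHiggs.Lop h (fun _ => 0) μ z = (b : ℂ) • ((μ z * A - A * μ z) * hadj (h z) A -
      hadj (h z) A * (μ z * A - A * μ z))) :
    lap (fun w => ((μ w * hadj (h w) (μ w)).trace).re) z =
      4 * (((mdzb μ z * hadj (h z) (mdzb μ z)).trace).re +
        (((mdz μ z + ((h z)⁻¹ * mdz h z * μ z - μ z * ((h z)⁻¹ * mdz h z))) *
          hadj (h z) (mdz μ z + ((h z)⁻¹ * mdz h z * μ z - μ z * ((h z)⁻¹ * mdz h z)))).trace).re +
        (2 * b - a) * (((μ z * A - A * μ z) * hadj (h z) (μ z * A - A * μ z)).trace).re +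
        a * (((hadj (h z) A * μ z - μ z * hadj (h z) A) *
          hadj (h z) (hadj (h z) A * μ z - μ z * hadj (h z) A)).trace).re) := by
  have hUz := hO.mem_nhds hz
  have smh : ∀ w ∈ O, Sm ∞ h w := fun w hw i j => (hh i j).contDiffAt (hO.mem_nhds hw)
  have smμ : ∀ w ∈ O, Sm ∞ μ w := fun w hw i j => (hμ i j).contDiffAt (hO.mem_nhds hw)
  have dh : ∀ w ∈ O, (h w).det ≠ 0 := fun w hw => (hp w hw).det_pos.ne'
  have Hh : ∀ w ∈ O, (h w).IsHermitian := fun w hw => (hp w hw).isHermitian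
  have smhi : ∀ w ∈ O, Sm ∞ (fun w => (h w)⁻¹) w := fun w hw => (smh w hw).inv (dh w hw)
  have sm1 : ∀ {f : ℂ → Mat} {w : ℂ}, Sm ∞ f w → Sm ∞ (mdz f) w := fun hf =>
    Sm.mdz (n := ∞) (by simpa using hf)
  have sm2 : ∀ {f : ℂ → Mat} {w : ℂ}, Sm ∞ f w → Sm ∞ (mdzb f) w := fun hf =>
    Sm.mdzb (n := ∞) (by simpa using hf)
  have ne0 : (∞ : WithTop ℕ∞) ≠ 0 := by simp
  have le1 : (1 : WithTop ℕ∞) ≤ ∞ := by norm_cast
  have le2 : (2 : WithTop ℕ∞) ≤ ∞ := by norm_cast
  set θ : ℂ → Mat := fun w => (h w)⁻¹ * mdz h w with hθ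
  set P : ℂ → Mat := fun w => mdz μ w + (θ w * μ w - μ w * θ w) with hP
  have smθ : ∀ w ∈ O, Sm ∞ θ w := fun w hw => (smhi w hw).mul (sm1 (smh w hw))
  have smP : ∀ w ∈ O, Sm ∞ P w := fun w hw =>
    (sm1 (smμ w hw)).add (((smθ w hw).mul (smμ w hw)).sub ((smμ w hw).mul (smθ w hw)))
  have smad : ∀ {Y : ℂ → Mat} {w : ℂ}, w ∈ O → Sm ∞ Y w → Sm ∞ (fun w => hadj (h w) (Y w)) w :=
    fun hw hY => ((smhi _ hw).mul hY.conj).mul (smh _ hw)
  have evH : ∀ w ∈ O, ∀ᶠ x in 𝓝 w, (h x).IsHermitian := fun w hw => by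
    filter_upwards [hO.mem_nhds hw] with x hx using Hh x hx
  have had : ∀ {Y : ℂ → Mat} {w : ℂ}, w ∈ O → Sm ∞ Y w →
      mdz (fun w => hadj (h w) (Y w)) w = hadj (h w) (mdzb Y w) -
        (θ w * hadj (h w) (Y w) - hadj (h w) (Y w) * θ w) ∧
      mdzb (fun w => hadj (h w) (Y w)) w =
        hadj (h w) (mdz Y w + (θ w * Y w - Y w * θ w)) := fun {Y w} hw hY =>
    mdz_hadj ((smh w hw).of_le le1) (hY.of_le le1) (evH w hw) (dh w hw)
  -- first derivative
  have tr1 : ∀ w ∈ O, dz (fun w => (μ w * hadj (h w) (μ w)).trace) w =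
      (P w * hadj (h w) (μ w) + μ w * hadj (h w) (mdzb μ w)).trace := by
    intro w hw
    have sa := smad hw (smμ w hw)
    have sp := (smμ w hw).mul sa
    rw [(dz_trace (sp.diff ne0)).1, (mdz_mul ((smμ w hw).diff ne0) (sa.diff ne0)).1,
      (had hw (smμ w hw)).1, hP]
    simp only [add_mul, sub_mul, mul_sub, Matrix.trace_add, Matrix.trace_sub, mul_assoc]
    have : (μ w * (hadj (h w) (μ w) * θ w)).trace = (θ w * (μ w * hadj (h w) (μ w))).trace := by
      rw [← mul_assoc, Matrix.trace_mul_comm]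
    rw [this]
    ring
  have smF : ContDiffAt ℝ 2 (fun w => (μ w * hadj (h w) (μ w)).trace) z := by
    have := (smμ z hz).mul (smad hz (smμ z hz))
    simp only [Matrix.trace_fin_two]
    exact ((this 0 0).add (this 1 1)).of_le le2
  rw [lap_re smF]
  have e2 : dz (fun w => (μ w * hadj (h w) (μ w)).trace) =ᶠ[𝓝 z] fun w =>
      (P w * hadj (h w) (μ w) + μ w * hadj (h w) (mdzb μ w)).trace := by
    filter_upwards [hUz] with w hw using tr1 w hw
  have sa := smad hz (smμ z hz)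
  have sq := sm2 (smμ z hz)
  have saq := smad hz sq
  have s1 := (smP z hz).mul sa
  have s2 := (smμ z hz).mul saq
  rw [(dz_congr e2).2, (dz_trace ((s1.add s2).diff ne0)).2, (mdz_add (s1.diff ne0) (s2.diff ne0)).2,
    (mdz_mul ((smP z hz).diff ne0) (sa.diff ne0)).2, (mdz_mul ((smμ z hz).diff ne0) (saq.diff ne0)).2,
    (had hz (smμ z hz)).2, (had hz sq).2]
  -- derivative of P
  have hPz : mdzb P z = ParHiggs.Lop h (fun _ => 0) μ z + (mdzb θ z * μ z - μ z * mdzb θ z) := by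
    rw [hP, (mdz_add ((sm1 (smμ z hz)).diff ne0)
      ((((smθ z hz).mul (smμ z hz)).sub ((smμ z hz).mul (smθ z hz))).diff ne0)).2,
      (mdz_sub (((smθ z hz).mul (smμ z hz)).diff ne0) (((smμ z hz).mul (smθ z hz)).diff ne0)).2,
      (mdz_mul ((smθ z hz).diff ne0) ((smμ z hz).diff ne0)).2,
      (mdz_mul ((smμ z hz).diff ne0) ((smθ z hz).diff ne0)).2]
    have hc : mdzb (fun w => mdz μ w) z = mdz (mdzb μ) z := mdz_comm ((smμ z hz).of_le le2)
    rw [hc]
    unfold ParHiggs.Lop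
    simp only [sub_zero]
    have e : mdz (fun w => mdzb μ w) z = mdz (mdzb μ) z := rfl
    rw [e, hθ]
    simp only []
    abel
  have hL : mdz (mdzb μ) z + (θ z * mdzb μ z - mdzb μ z * θ z) = ParHiggs.Lop h (fun _ => 0) μ z := by
    unfold ParHiggs.Lop
    simp only [sub_zero]
    rfl
  rw [hPz, hL, heq, hcurv]
  have A2 := alg2 (h z) A (μ z) (Hh z hz) (isUnit_iff_ne_zero.mpr (dh z hz)) a b
  have key : (((b : ℂ) • ((μ z * A - A * μ z) * hadj (h z) A - hadj (h z) A * (μ z * A - A * μ z)) +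
        (((a : ℂ) • (A * hadj (h z) A - hadj (h z) A * A)) * μ z -
          μ z * ((a : ℂ) • (A * hadj (h z) A - hadj (h z) A * A)))) * hadj (h z) (μ z) +
      P z * hadj (h z) (mdz μ z + (θ z * μ z - μ z * θ z)) +
      (mdzb μ z * hadj (h z) (mdzb μ z) +
        μ z * hadj (h z) ((b : ℂ) • ((μ z * A - A * μ z) * hadj (h z) A -
          hadj (h z) A * (μ z * A - A * μ z))))).trace =
      (mdzb μ z * hadj (h z) (mdzb μ z)).trace +
      (P z * hadj (h z) (P z)).trace +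
      (((2 * b - a : ℝ) : ℂ) * ((μ z * A - A * μ z) * hadj (h z) (μ z * A - A * μ z)).trace +
      (a : ℂ) * ((hadj (h z) A * μ z - μ z * hadj (h z) A) *
        hadj (h z) (hadj (h z) A * μ z - μ z * hadj (h z) A)).trace) := by
    rw [← A2, hP]
    simp only [Matrix.trace_add]
    ring
  rw [key]
  have r4 : ∀ x : ℂ, (4 * x).re = 4 * x.re := fun x => by simp
  rw [r4]
  simp only [Complex.add_re, Complex.re_ofReal_mul]
  simp only [hP, hθ]
  ring

end GM16
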