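import Pool.Agent.LibGM16.UB
import Pool.Agent.LibGM16.UY

open Complex MeasureTheory Filter Topology Matrix
open scoped ContDiff Real ComplexOrder

namespace GM16

variable {γ t : ℝ} {v v' f f' : ℂ → ℝ}

/-- A bounded trace free holomorphic `μ` commuting with `A` and with `∂ʰμ = 0` vanishes:
`μ = g A`, `g² q` is constant, so `0` by `no_sqrt`. -/
theorem commuting_zero {μ : ℂ → Mat} {h : ℂ → Mat}
    (hμ : ∀ i j, ContDiffOn ℝ ∞ (fun z => μ z i j) (EX γ).U)
    (htr : ∀ z ∈ (EX γ).U, (μ z).trace = 0) (hc : ∀ z ∈ (EX γ).U, μ z * AA z = AA z * μ z)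
    (hb : ∀ z ∈ (EX γ).U, mdzb μ z = 0)
    (hd : ∀ z ∈ (EX γ).U, mdz μ z + ((h z)⁻¹ * mdz h z * μ z - μ z * ((h z)⁻¹ * mdz h z)) = 0) :
    ∀ z ∈ (EX γ).U, μ z = 0 := by
  have hO : IsOpen (EX γ).U := isOpen_U
  have sm : ∀ z ∈ (EX γ).U, Sm ∞ μ z := fun z hz i j => (hμ i j).contDiffAt (hO.mem_nhds hz)
  have ne0 : (∞ : WithTop ℕ∞) ≠ 0 := by simp
  have smT : ∀ z ∈ (EX γ).U, Sm ∞ (fun w => μ w * μ w) z := fun z hz => (sm z hz).mul (sm z hz)
  obtain ⟨c, hcst⟩ : ∃ c, ∀ z ∈ (EX γ).U, (μ z * μ z).trace = c := by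
    refine const_of_dz (F := fun z => (μ z * μ z).trace) ?_ ?_
    · intro z hz
      have := (smT z hz).diff ne0
      simp only [Matrix.trace_fin_two]
      exact ((this 0 0).add (this 1 1)).differentiableWithinAt
    · intro z hz
      have e1 : mdz μ z = μ z * ((h z)⁻¹ * mdz h z) - (h z)⁻¹ * mdz h z * μ z := by
        have := hd z hz
        rw [add_eq_zero_iff_eq_neg] at this
        rw [this]; abel
      constructor
      · rw [(dz_trace ((smT z hz).diff ne0)).1, (mdz_mul ((sm z hz).diff ne0) ((sm z hz).diff ne0)).1,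
          e1]
        generalize (h z)⁻¹ * mdz h z = θ
        generalize μ z = m
        simp only [mul_sub, sub_mul, Matrix.trace_add, Matrix.trace_sub, mul_assoc]
        rw [Matrix.trace_mul_comm θ (m * m), mul_assoc]
        ring
      · rw [(dz_trace ((smT z hz).diff ne0)).2, (mdz_mul ((sm z hz).diff ne0) ((sm z hz).diff ne0)).2,
          hb z hz]
        simp
  have form : ∀ z ∈ (EX γ).U, μ z 1 0 = qq z * μ z 0 1 ∧ μ z 0 0 = 0 ∧ μ z 1 1 = 0 := by
    intro z hz
    obtain ⟨h1, h2⟩ := comm_form (hc z hz)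
    have h3 := htr z hz
    rw [Matrix.trace_fin_two, h2] at h3
    have h4 : μ z 1 1 = 0 := by
      have : (2 : ℂ) * μ z 1 1 = 0 := by rw [← h3]; ring
      simpa using this
    exact ⟨h1, by rw [h2, h4], h4⟩
  have hz0 : c / 2 = 0 := by
    refine no_nonzero (γ := γ) (β := fun z => μ z 0 1) (hμ 0 1).continuousOn ?_
    intro z hz
    obtain ⟨h1, h2, h3⟩ := form z hz
    have := hcst z hz
    rw [Matrix.trace_fin_two, Matrix.mul_apply, Matrix.mul_apply, Fin.sum_univ_two,
      Fin.sum_univ_two, h1, h2, h3] at this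
    rw [← this]
    ring
  intro z hz
  obtain ⟨h1, h2, h3⟩ := form z hz
  have h4 := hcst z hz
  have hc0 : c = 0 := by
    have : c = 2 * (c / 2) := by ring
    rw [this, hz0, mul_zero]
  rw [Matrix.trace_fin_two, Matrix.mul_apply, Matrix.mul_apply, Fin.sum_univ_two,
    Fin.sum_univ_two, h1, h2, h3, hc0] at h4
  have h5 : μ z 0 1 = 0 := by
    have hq := qq_ne (γ := γ) hz
    have : qq z * (μ z 0 1) ^ 2 = 0 := by
      have e : (2 : ℂ) * (qq z * (μ z 0 1) ^ 2) = 0 := by rw [← h4]; ring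
      simpa using e
    rcases mul_eq_zero.mp this with h6 | h6
    · exact absurd h6 hq
    · exact pow_eq_zero_iff (by norm_num) |>.mp h6
  ext i j
  fin_cases i <;> fin_cases j
  · exact h2
  · exact h5
  · simp only [Matrix.zero_apply]
    show μ z 1 0 = 0
    rw [h1, h5, mul_zero]
  · exact h3

end GM16
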