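import Pool.Agent.LibGM16.UZ

open Complex MeasureTheory Filter Topology Matrix
open scoped ContDiff Real ComplexOrder

namespace GM16

variable {γ t : ℝ} {v v' f f' : ℂ → ℝ}

/-- Uniqueness of `ν_t`. -/
theorem gauge_unique (hγ : 0 < γ) (hγ' : γ < 1) (ht : 0 < t) {h ψ ν ν' : ℂ → Mat}
    (hh : (EX γ).Harmonic t h) (h1 : (EX γ).Gauge t h (fun _ => 0) ψ ν)
    (h2 : (EX γ).Gauge t h (fun _ => 0) ψ ν') : ∀ z ∈ (EX γ).U, ν' z = ν z := by
  have hO : IsOpen (EX γ).U := isOpen_U
  have key := gauge_zero (γ := γ) (h := h) (μ := fun z => ν' z - ν z) hh.smooth hh.posDef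
    (fun i j => by simpa using (h2.adm.smooth i j).sub (h1.adm.smooth i j))
    (fun z hz => by
      rw [Matrix.trace_sub, h1.adm.tracefree z hz, h2.adm.tracefree z hz, sub_zero])
    (bdd_sub hh.posDef h2.adm.bounded h1.adm.bounded) (a := t ^ 2) (b := t ^ 2)
    (by nlinarith [sq_pos_of_pos ht]) (sq_nonneg t) hh.eq
    (fun z hz => by
      rw [Lop_sub hO h2.adm.smooth h1.adm.smooth hz, h1.eq z hz, h2.eq z hz, ← smul_sub]
      congr 1
      unfold ParHiggs.Rop
      have e : (EX γ).A = AA := rfl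
      rw [e]
      simp only [mul_sub, sub_mul, mul_add, add_mul]
      abel)
  intro z hz
  exact sub_eq_zero.mp (key z hz)

end GM16
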