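import Pool.Agent.LibGM16.UA
import Pool.Agent.LibGM16.UC
import Pool.Agent.LibGM16.UG
import Pool.Agent.LibGM16.UH

open Complex MeasureTheory Filter Topology Matrix
open scoped ContDiff Real ComplexOrder

namespace GM16

variable {γ t : ℝ}

/-- The common part of the uniqueness of the gauge fields: a bounded trace free `μ` on `U` with
`∂_z̄ θ = a [A, A*]`, `∂ʰ∂̄μ = b [[μ, A], A*]`, `2b - a > 0`, `a ≥ 0`. -/
theorem gauge_zero {h μ : ℂ → Mat}
    (hh : ∀ i j, ContDiffOn ℝ ∞ (fun z => h z i j) (EX γ).U) (hp : ∀ z ∈ (EX γ).U, (h z).PosDef)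
    (hμ : ∀ i j, ContDiffOn ℝ ∞ (fun z => μ z i j) (EX γ).U)
    (htr : ∀ z ∈ (EX γ).U, (μ z).trace = 0)
    (hbd : ∃ C : ℝ, ∀ z ∈ (EX γ).U, ((μ z * hadj (h z) (μ z)).trace).re ≤ C)
    {a b : ℝ} (hab : 0 < 2 * b - a) (ha : 0 ≤ a)
    (hcurv : ∀ z ∈ (EX γ).U, mdzb (fun w => (h w)⁻¹ * mdz h w) z =
      (a : ℂ) • (AA z * hadj (h z) (AA z) - hadj (h z) (AA z) * AA z))
    (heq : ∀ z ∈ (EX γ).U, ParHiggs.Lop h (fun _ => 0) μ z =
      (b : ℂ) • ((μ z * AA z - AA z * μ z) * hadj (h z) (AA z) -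
      hadj (h z) (AA z) * (μ z * AA z - AA z * μ z))) :
    ∀ z ∈ (EX γ).U, μ z = 0 := by
  have hO : IsOpen (EX γ).U := isOpen_U
  have hfin : ((EX γ).D).Finite := by
    show ({e1, e2, e3} : Set ℂ).Finite
    exact Set.toFinite _
  have smh : ∀ w ∈ (EX γ).U, Sm ∞ h w := fun w hw i j => (hh i j).contDiffAt (hO.mem_nhds hw)
  have smμ : ∀ w ∈ (EX γ).U, Sm ∞ μ w := fun w hw i j => (hμ i j).contDiffAt (hO.mem_nhds hw)
  have dh : ∀ w ∈ (EX γ).U, (h w).det ≠ 0 := fun w hw => (hp w hw).det_pos.ne'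
  have smF : ContDiffOn ℝ 2 (fun w => ((μ w * hadj (h w) (μ w)).trace).re) (EX γ).U := by
    intro w hw
    have := (smμ w hw).mul ((((smh w hw).inv (dh w hw)).mul (smμ w hw).conj).mul (smh w hw))
    have h2 : ContDiffAt ℝ ∞ (fun w => (μ w * hadj (h w) (μ w)).trace) w := by
      simp only [Matrix.trace_fin_two]
      exact (this 0 0).add (this 1 1)
    exact ((Complex.reCLM.contDiff.contDiffAt.comp w h2).of_le (by norm_cast)).contDiffWithinAt
  have hl : ∀ z ∈ (EX γ).U, lap (fun w => ((μ w * hadj (h w) (μ w)).trace).re) z =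
      4 * (((mdzb μ z * hadj (h z) (mdzb μ z)).trace).re +
        (((mdz μ z + ((h z)⁻¹ * mdz h z * μ z - μ z * ((h z)⁻¹ * mdz h z))) *
          hadj (h z) (mdz μ z + ((h z)⁻¹ * mdz h z * μ z - μ z * ((h z)⁻¹ * mdz h z)))).trace).re +
        (2 * b - a) * (((μ z * AA z - AA z * μ z) * hadj (h z) (μ z * AA z - AA z * μ z)).trace).re +
        a * (((hadj (h z) (AA z) * μ z - μ z * hadj (h z) (AA z)) *
          hadj (h z) (hadj (h z) (AA z) * μ z - μ z * hadj (h z) (AA z))).trace).re) :=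
    fun z hz => lap_norm hO hh hp hμ hz (hcurv z hz) (heq z hz)
  have pos := fun (z : ℂ) (hz : z ∈ (EX γ).U) (Y : Mat) => trace_pos' (Y := Y) (hp z hz)
  have hlz := liouville hfin smF hbd (fun z hz => by
    rw [hl z hz]
    have p1 := (pos z hz (mdzb μ z)).1
    have p2 := (pos z hz (mdz μ z + ((h z)⁻¹ * mdz h z * μ z - μ z * ((h z)⁻¹ * mdz h z)))).1
    have p3 := mul_nonneg hab.le (pos z hz (μ z * AA z - AA z * μ z)).1
    have p4 := mul_nonneg ha (pos z hz (hadj (h z) (AA z) * μ z - μ z * hadj (h z) (AA z))).1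
    positivity)
  have key : ∀ z ∈ (EX γ).U, mdzb μ z = 0 ∧
      mdz μ z + ((h z)⁻¹ * mdz h z * μ z - μ z * ((h z)⁻¹ * mdz h z)) = 0 ∧
      μ z * AA z - AA z * μ z = 0 := by
    intro z hz
    have h0 := hlz z hz
    rw [hl z hz] at h0
    have p1 := (pos z hz (mdzb μ z))
    have p2 := (pos z hz (mdz μ z + ((h z)⁻¹ * mdz h z * μ z - μ z * ((h z)⁻¹ * mdz h z))))
    have p3 := (pos z hz (μ z * AA z - AA z * μ z))
    have p4 := mul_nonneg ha (pos z hz (hadj (h z) (AA z) * μ z - μ z * hadj (h z) (AA z))).1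
    have p3' := mul_nonneg hab.le p3.1
    refine ⟨p1.2 (by linarith [p1.1, p2.1]), p2.2 (by linarith [p1.1, p2.1]), p3.2 ?_⟩
    have : (2 * b - a) * (((μ z * AA z - AA z * μ z) *
        hadj (h z) (μ z * AA z - AA z * μ z)).trace).re = 0 := by linarith [p1.1, p2.1]
    rcases mul_eq_zero.mp this with h1 | h1
    · exact absurd h1 hab.ne'
    · exact h1
  exact commuting_zero (γ := γ) hμ htr (fun z hz => sub_eq_zero.mp (key z hz).2.2)
    (fun z hz => (key z hz).1) (fun z hz => (key z hz).2.1)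

theorem hadj_sub' (h X Y : Mat) : hadj h (X - Y) = hadj h X - hadj h Y := by
  unfold hadj
  rw [Matrix.conjTranspose_sub, mul_sub, sub_mul]

theorem hadj_add' (h X Y : Mat) : hadj h (X + Y) = hadj h X + hadj h Y := by
  unfold hadj
  rw [Matrix.conjTranspose_add, mul_add, add_mul]

theorem bdd_sub {h μ ν : ℂ → Mat} (hp : ∀ z ∈ (EX γ).U, (h z).PosDef)
    (h1 : ∃ C : ℝ, ∀ z ∈ (EX γ).U, ((μ z * hadj (h z) (μ z)).trace).re ≤ C)
    (h2 : ∃ C : ℝ, ∀ z ∈ (EX γ).U, ((ν z * hadj (h z) (ν z)).trace).re ≤ C) :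
    ∃ C : ℝ, ∀ z ∈ (EX γ).U, (((μ z - ν z) * hadj (h z) (μ z - ν z)).trace).re ≤ C := by
  obtain ⟨C1, h1⟩ := h1
  obtain ⟨C2, h2⟩ := h2
  refine ⟨2 * C1 + 2 * C2, fun z hz => ?_⟩
  have e : (((μ z - ν z) * hadj (h z) (μ z - ν z)).trace).re +
      (((μ z + ν z) * hadj (h z) (μ z + ν z)).trace).re =
      2 * ((μ z * hadj (h z) (μ z)).trace).re + 2 * ((ν z * hadj (h z) (ν z)).trace).re := by
    rw [hadj_sub', hadj_add']
    simp only [mul_add, mul_sub, add_mul, sub_mul, Matrix.trace_add, Matrix.trace_sub,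
      Complex.add_re, Complex.sub_re]
    ring
  have p := (trace_pos' (Y := μ z + ν z) (hp z hz)).1
  have := h1 z hz
  have := h2 z hz
  linarith

theorem Lop_sub {h μ ν : ℂ → Mat} {O : Set ℂ} (hO : IsOpen O)
    (hμ : ∀ i j, ContDiffOn ℝ ∞ (fun z => μ z i j) O)
    (hν : ∀ i j, ContDiffOn ℝ ∞ (fun z => ν z i j) O) {z : ℂ} (hz : z ∈ O) :
    ParHiggs.Lop h (fun _ => 0) (fun w => μ w - ν w) z =
      ParHiggs.Lop h (fun _ => 0) μ z - ParHiggs.Lop h (fun _ => 0) ν z := by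
  have ne0 : (∞ : WithTop ℕ∞) ≠ 0 := by simp
  have smμ : ∀ w ∈ O, Sm ∞ μ w := fun w hw i j => (hμ i j).contDiffAt (hO.mem_nhds hw)
  have smν : ∀ w ∈ O, Sm ∞ ν w := fun w hw i j => (hν i j).contDiffAt (hO.mem_nhds hw)
  have sm2 : ∀ {f : ℂ → Mat} {w : ℂ}, Sm ∞ f w → Sm ∞ (mdzb f) w := fun hf =>
    Sm.mdzb (n := ∞) (by simpa using hf)
  have e1 : ∀ w ∈ O, mdzb (fun w => μ w - ν w) w = mdzb μ w - mdzb ν w := fun w hw =>
    (mdz_sub ((smμ w hw).diff ne0) ((smν w hw).diff ne0)).2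
  have e2 : mdz (fun w => mdzb (fun w => μ w - ν w) w) z = mdz (mdzb μ) z - mdz (mdzb ν) z := by
    rw [← (mdz_sub ((sm2 (smμ z hz)).diff ne0) ((sm2 (smν z hz)).diff ne0)).1]
    refine (mdz_congr ?_).1
    filter_upwards [hO.mem_nhds hz] with w hw using e1 w hw
  unfold ParHiggs.Lop
  simp only [sub_zero]
  rw [e2, e1 z hz]
  have e3 : mdz (fun w => mdzb μ w) z = mdz (mdzb μ) z := rfl
  have e4 : mdz (fun w => mdzb ν w) z = mdz (mdzb ν) z := rfl
  rw [e3, e4]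
  simp only [mul_sub, sub_mul]
  abel

end GM16
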