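import Pool.Agent.LibGM16.Sign

open Complex MeasureTheory Filter Topology Matrix
open scoped ContDiff Real ComplexOrder

namespace GM16

variable {γ t : ℝ} {v v' f f' : ℂ → ℝ}

/-- the radial profile of the barrier -/
private noncomputable def chiF (γ t : ℝ) (r : ℝ) : ℝ :=
  -(2 * γ * Real.log (t * r)) - Real.log (1 / 4 - (t * r) ^ 2)

private theorem chiF_contDiffAt {n : WithTop ℕ∞} (ht : 1 ≤ t) {r : ℝ} (hr : 0 < r)
    (hr' : t * r < 1 / 2) : ContDiffAt ℝ n (chiF γ t) r := by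
  have htr : 0 < t * r := by positivity
  have hD : 0 < 1 / 4 - (t * r) ^ 2 := by nlinarith
  unfold chiF
  apply ContDiffAt.sub
  · apply ContDiffAt.neg
    apply ContDiffAt.mul contDiffAt_const
    exact ContDiffAt.log (f := fun r : ℝ => t * r) (by fun_prop) htr.ne'
  · exact ContDiffAt.log (f := fun r : ℝ => 1 / 4 - (t * r) ^ 2) (by fun_prop) hD.ne'

private theorem chiF_deriv (ht : 1 ≤ t) {r : ℝ} (hr : 0 < r) (hr' : t * r < 1 / 2) :
    HasDerivAt (chiF γ t) (-(2 * γ / r) + 2 * t ^ 2 * r / (1 / 4 - (t * r) ^ 2)) r := by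
  have htr : 0 < t * r := by positivity
  have hD : 0 < 1 / 4 - (t * r) ^ 2 := by nlinarith
  have ht0 : t ≠ 0 := by positivity
  have h1 : HasDerivAt (fun r : ℝ => t * r) t r := by
    simpa using (hasDerivAt_id r).const_mul t
  have h2 := (h1.log htr.ne').const_mul (2 * γ)
  have h3 : HasDerivAt (fun r : ℝ => 1 / 4 - (t * r) ^ 2) (-(2 * (t * r) * t)) r := by
    have := (h1.pow 2).const_sub (1 / 4)
    refine this.congr_deriv ?_
    push_cast
    ring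
  have h4 := h3.log hD.ne'
  have h5 := h2.neg.sub h4
  unfold chiF
  refine h5.congr_deriv ?_
  have hr0 := hr.ne'
  have hD0 := hD.ne'
  field_simp
  ring

private theorem chiF_deriv2 (ht : 1 ≤ t) {r : ℝ} (hr : 0 < r) (hr' : t * r < 1 / 2) :
    deriv (deriv (chiF γ t)) r = 2 * γ / r ^ 2 + 2 * t ^ 2 / (1 / 4 - (t * r) ^ 2) +
      4 * t ^ 4 * r ^ 2 / (1 / 4 - (t * r) ^ 2) ^ 2 := by
  have htr : 0 < t * r := by positivity
  have ht0 : 0 < t := by linarith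
  have hD : 0 < 1 / 4 - (t * r) ^ 2 := by nlinarith
  have he : deriv (chiF γ t) =ᶠ[𝓝 r]
      fun r => -(2 * γ / r) + 2 * t ^ 2 * r / (1 / 4 - (t * r) ^ 2) := by
    have ho : IsOpen {r : ℝ | 0 < r ∧ t * r < 1 / 2} :=
      (isOpen_lt continuous_const continuous_id).inter
        (isOpen_lt (f := fun r : ℝ => t * r) (g := fun _ => (1 / 2 : ℝ)) (by fun_prop)
          continuous_const)
    filter_upwards [ho.mem_nhds ⟨hr, hr'⟩] with s hs
    exact (chiF_deriv ht hs.1 hs.2).deriv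
  rw [he.deriv_eq]
  have h1 : HasDerivAt (fun r : ℝ => t * r) t r := by
    simpa using (hasDerivAt_id r).const_mul t
  have h3 : HasDerivAt (fun r : ℝ => 1 / 4 - (t * r) ^ 2) (-(2 * (t * r) * t)) r := by
    have := (h1.pow 2).const_sub (1 / 4)
    refine this.congr_deriv ?_
    push_cast
    ring
  have h4 : HasDerivAt (fun r : ℝ => 2 * t ^ 2 * r) (2 * t ^ 2) r := by
    simpa using (hasDerivAt_id r).const_mul (2 * t ^ 2)
  have h5 := h4.div h3 hD.ne'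
  have h6 : HasDerivAt (fun r : ℝ => 2 * γ / r) (-(2 * γ) / r ^ 2) r := by
    have := (hasDerivAt_const r (2 * γ)).div (hasDerivAt_id r) hr.ne'
    refine this.congr_deriv ?_
    simp
  have h7 := h6.neg.add h5
  have h8 : HasDerivAt (fun r => -(2 * γ / r) + 2 * t ^ 2 * r / (1 / 4 - (t * r) ^ 2)) _ r := h7
  rw [h8.deriv]
  have hr0 := hr.ne'
  have hD0 := hD.ne'
  clear h8 h7 h6 h5 h4 h3 h1 he htr
  generalize 1 / 4 - (t * r) ^ 2 = D at *
  field_simp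
  ring

private theorem lap_chi (ht : 1 ≤ t) {w : ℂ} (hw : w ≠ 0) (hw' : t * ‖w‖ < 1 / 2) :
    lap (fun z => chiF γ t ‖z‖) w = t ^ 2 / (1 / 4 - (t * ‖w‖) ^ 2) ^ 2 := by
  have hn : 0 < ‖w‖ := norm_pos_iff.mpr hw
  have hD : 0 < 1 / 4 - (t * ‖w‖) ^ 2 := by
    have : 0 < t * ‖w‖ := by positivity
    nlinarith
  have h := lap_radial (F := chiF γ t) (a := 0) (w := w) hw
    (by simpa using chiF_contDiffAt ht hn hw')
  simp only [sub_zero] at h
  rw [h, chiF_deriv2 ht hn hw', (chiF_deriv ht hn hw').deriv]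
  have hn0 := hn.ne'
  have hD0 := hD.ne'
  clear h
  set D : ℝ := 1 / 4 - (t * ‖w‖) ^ 2 with hDeq
  have e : 2 * γ / ‖w‖ ^ 2 + 2 * t ^ 2 / D + 4 * t ^ 4 * ‖w‖ ^ 2 / D ^ 2 +
      (-(2 * γ / ‖w‖) + 2 * t ^ 2 * ‖w‖ / D) / ‖w‖ =
      (4 * t ^ 2 * D + 4 * t ^ 4 * ‖w‖ ^ 2) / D ^ 2 := by
    clear_value D
    field_simp
    ring
  rw [e]
  congr 1
  rw [hDeq]
  ring

private theorem not_ZI (ht : 1 ≤ t) {w : ℂ} (hw : w ≠ 0) (hw' : t * ‖w‖ ≤ 1 / 2) : w ∉ ZI := by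
  intro h
  have := one_le_norm_ZI h hw
  nlinarith

/-- Upper bound in the punctured disc `R = t|w| < 1/2` (`mp_gen` on the disc; with
`χ = -2γ log R - log(1/4 - R²)` one has `Δχ = t² (1/4-R²)⁻² ≤ 8 t² sinh 2χ` because
`e^{2χ} ≥ (1/4-R²)⁻² ≥ 16`; and where `v > χ`: `Δ(v - χ) ≥ 8t²(sinh 2v - sinh 2χ) ≥ 16 t² (v-χ)`). -/
theorem v_upper_disc (hγ : 0 < γ) (hγ' : γ ≤ 1 / 8) (ht : 1 ≤ t) (h : Sol γ t v) {w : ℂ}
    (hw : w ≠ 0) (hw' : t * ‖w‖ < 1 / 2) :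
    v w ≤ -(2 * γ * Real.log (t * ‖w‖)) - Real.log (1 / 4 - (t * ‖w‖) ^ 2) := by
  have ht0 : 0 < t := by linarith
  set Ω : Set ℂ := {w | t * ‖w‖ < 1 / 2} with hΩdef
  have hΩ : IsOpen Ω := isOpen_lt (by fun_prop) continuous_const
  have hmemne : ∀ z ∈ Ω \ ZI, z ≠ 0 := by
    rintro z ⟨_, hz⟩ rfl
    exact hz ⟨0, 0, by simp⟩
  have hcd : ∀ z ∈ Ω \ ZI, ContDiffAt ℝ 2 (fun z => chiF γ t ‖z‖) z := by
    intro z hz
    have hne := hmemne z hz
    have h1 : ContDiffAt ℝ 2 (fun z : ℂ => ‖z‖) z := contDiffAt_norm ℝ hne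
    exact (chiF_contDiffAt ht (norm_pos_iff.mpr hne) hz.1).comp z h1
  have hvcd : ∀ z ∉ ZI, ContDiffAt ℝ 2 v z := by
    intro z hz
    have h1 := h.smooth.contDiffAt (isClosed_ZI.isOpen_compl.mem_nhds hz)
    exact_mod_cast contDiffAt_infty.mp h1 2
  have key := mp_gen (Ω := Ω) hΩ (u := fun z => v z - chiF γ t ‖z‖) ?_ ?_ ?_ ?_ ?_ w
    ⟨hw', not_ZI ht hw hw'.le⟩
  · simp only [chiF] at key
    linarith
  · intro z hz
    exact ((hvcd z hz.2).sub (hcd z hz)).contDiffWithinAt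
  · intro z hz hpos
    have hne := hmemne z hz
    have hn : 0 < ‖z‖ := norm_pos_iff.mpr hne
    have htn : 0 < t * ‖z‖ := by positivity
    have hz1 : t * ‖z‖ < 1 / 2 := hz.1
    have hD : 0 < 1 / 4 - (t * ‖z‖) ^ 2 := by nlinarith
    rw [lap_sub (hvcd z hz.2) (hcd z hz), h.pde z hz.2, lap_chi ht hne hz.1]
    set D : ℝ := 1 / 4 - (t * ‖z‖) ^ 2 with hDdef
    have hD4 : D ≤ 1 / 4 := by
      have := sq_nonneg (t * ‖z‖)
      linarith
    set χ : ℝ := chiF γ t ‖z‖ with hχ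
    -- `e^{χ} ≥ 1 / D`
    have hχge : -Real.log D ≤ χ := by
      have hl : Real.log (t * ‖z‖) ≤ 0 := Real.log_nonpos htn.le (by linarith)
      rw [hχ]
      unfold chiF
      have : 0 ≤ -(2 * γ * Real.log (t * ‖z‖)) := by nlinarith
      linarith
    have hexp : 1 / D ≤ Real.exp χ := by
      calc 1 / D = Real.exp (-Real.log D) := by
            rw [Real.exp_neg, Real.exp_log hD, one_div]
        _ ≤ Real.exp χ := Real.exp_le_exp.mpr hχge
    have hinvD : 4 ≤ 1 / D := by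
      rw [le_div_iff₀ hD]; linarith
    have hexpneg : Real.exp (-χ) ≤ 1 / 4 := by
      rw [Real.exp_neg]
      have : (Real.exp χ)⁻¹ ≤ (4 : ℝ)⁻¹ := inv_anti₀ (by norm_num) (hinvD.trans hexp)
      linarith
    have hsinh : 1 / D ^ 2 ≤ 8 * Real.sinh (2 * χ) := by
      have e1 : Real.exp (2 * χ) = Real.exp χ ^ 2 := by
        rw [← Real.exp_nat_mul]; norm_num
      have e2 : Real.exp (-(2 * χ)) = Real.exp (-χ) ^ 2 := by
        rw [← Real.exp_nat_mul]; congr 1; push_cast; ring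
      have p1 : (1 / D) ^ 2 ≤ Real.exp χ ^ 2 := pow_le_pow_left₀ (by positivity) hexp 2
      have p2 : Real.exp (-χ) ^ 2 ≤ (1 / 4) ^ 2 :=
        pow_le_pow_left₀ (Real.exp_pos _).le hexpneg 2
      have p3 : 1 / D ^ 2 = (1 / D) ^ 2 := by rw [div_pow, one_pow]
      have p4 : (16 : ℝ) ≤ (1 / D) ^ 2 := by nlinarith
      rw [Real.sinh_eq, e1, e2, p3]
      linarith
    have hvχ : 0 < v z - χ := hpos
    have hdiff : 2 * (v z - χ) ≤ Real.sinh (2 * v z) - Real.sinh (2 * χ) := by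
      have hm : Real.sinh (2 * χ) - 2 * χ ≤ Real.sinh (2 * v z) - 2 * v z :=
        Real.sinh_sub_id_strictMono.monotone (show 2 * χ ≤ 2 * v z by linarith)
      linarith
    have ht2 : 1 ≤ t ^ 2 := by nlinarith
    have e3 : t ^ 2 / D ^ 2 = t ^ 2 * (1 / D ^ 2) := by ring
    rw [e3]
    have q1 : t ^ 2 * (1 / D ^ 2) ≤ t ^ 2 * (8 * Real.sinh (2 * χ)) :=
      mul_le_mul_of_nonneg_left hsinh (by positivity)
    have q2 : t ^ 2 * (2 * (v z - χ)) ≤ t ^ 2 * (Real.sinh (2 * v z) - Real.sinh (2 * χ)) :=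
      mul_le_mul_of_nonneg_left hdiff (by positivity)
    have q3 : 1 * (v z - χ) ≤ t ^ 2 * (v z - χ) := mul_le_mul_of_nonneg_right ht2 hvχ.le
    change 16 * (v z - χ) ≤ _
    nlinarith
  · intro ζ hζ ε hε
    -- on the frontier `t |ζ| = 1/2`
    have hζn : t * ‖ζ‖ = 1 / 2 := by
      have := frontier_lt_subset_eq (f := fun w : ℂ => t * ‖w‖) (g := fun _ => (1 / 2 : ℝ))
        (by fun_prop) continuous_const hζ
      exact this
    have hζ0 : ζ ≠ 0 := by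
      rintro rfl
      simp at hζn
    have hζZ : ζ ∉ ZI := not_ZI ht hζ0 hζn.le
    have hcont : ContinuousAt v ζ := (hvcd ζ hζZ).continuousAt
    have hv1 : ∀ᶠ z in 𝓝 ζ, v z < v ζ + 1 := hcont.eventually_lt continuousAt_const (by linarith)
    -- `1/4 - R²` is small near `ζ`
    have hsm : ∀ᶠ z in 𝓝 ζ, 1 / 4 - (t * ‖z‖) ^ 2 < Real.exp (-(v ζ + 1) ) := by
      have hc : ContinuousAt (fun z : ℂ => 1 / 4 - (t * ‖z‖) ^ 2) ζ := by fun_prop
      apply hc.eventually_lt continuousAt_const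
      show (1 : ℝ) / 4 - (t * ‖ζ‖) ^ 2 < _
      rw [hζn, show (1 : ℝ) / 4 - (1 / 2) ^ 2 = 0 by norm_num]
      exact Real.exp_pos _
    filter_upwards [nhdsWithin_le_nhds hv1, nhdsWithin_le_nhds hsm, self_mem_nhdsWithin]
      with z h1 h2 h3
    have hne := hmemne z h3
    have hn : 0 < ‖z‖ := norm_pos_iff.mpr hne
    have htn : 0 < t * ‖z‖ := by positivity
    have hz1 : t * ‖z‖ < 1 / 2 := h3.1
    have hD : 0 < 1 / 4 - (t * ‖z‖) ^ 2 := by nlinarith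
    have hlog : Real.log (1 / 4 - (t * ‖z‖) ^ 2) < -(v ζ + 1) := by
      rw [Real.log_lt_iff_lt_exp hD]
      exact h2
    have hl : Real.log (t * ‖z‖) ≤ 0 := Real.log_nonpos htn.le (by linarith)
    have h5 : 0 ≤ -(2 * γ * Real.log (t * ‖z‖)) := by nlinarith
    simp only [chiF]
    linarith
  · rintro l ⟨hl, hlZ⟩ ε hε
    have hl0 : l = 0 := by
      by_contra hne
      exact not_ZI ht hne (le_of_lt hl) hlZ
    subst hl0
    obtain ⟨L, hL⟩ := h.sing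
    have h1 : ∀ᶠ z in 𝓝[≠] (0 : ℂ), v z + γ * Real.log ‖z‖ < L + 1 :=
      hL.eventually_lt_const (by linarith)
    have hlog : Tendsto (fun z : ℂ => Real.log ‖z‖) (𝓝[≠] 0) atBot := by
      have e1 : Tendsto (fun z : ℂ => ‖z‖) (𝓝[≠] 0) (𝓝[>] 0) := tendsto_norm_nhdsNE_zero
      exact Real.tendsto_log_nhdsGT_zero.comp e1
    have hlt : Tendsto (fun z : ℂ => (γ + ε) * Real.log ‖z‖) (𝓝[≠] 0) atBot :=
      hlog.const_mul_atBot (by linarith)
    have h2 : ∀ᶠ z in 𝓝[≠] (0 : ℂ), (γ + ε) * Real.log ‖z‖ ≤ -(L + 1 + 2 * γ * Real.log t) :=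
      hlt.eventually_le_atBot _
    have hΩ0 : Ω ∈ 𝓝 (0 : ℂ) := hΩ.mem_nhds hl
    filter_upwards [h1, h2, nhdsWithin_le_nhds hΩ0, self_mem_nhdsWithin] with z h1 h2 h3 h4
    have hne : z ≠ 0 := h4
    have hn : 0 < ‖z‖ := norm_pos_iff.mpr hne
    have htn : 0 < t * ‖z‖ := by positivity
    have hz1 : t * ‖z‖ < 1 / 2 := h3
    have hD : 0 < 1 / 4 - (t * ‖z‖) ^ 2 := by nlinarith
    have hlogD : Real.log (1 / 4 - (t * ‖z‖) ^ 2) ≤ 0 :=
      Real.log_nonpos hD.le (by nlinarith [sq_nonneg (t * ‖z‖)])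
    simp only [chiF, sub_zero]
    rw [Real.log_mul ht0.ne' hn.ne']
    nlinarith
  · intro ε hε
    refine ⟨Metric.closedBall 0 (1 / (2 * t)), isCompact_closedBall _ _, ?_⟩
    intro z hz _
    refine ⟨0, ⟨0, 0, by simp⟩, ⟨?_, ?_⟩, by simp⟩
    · rw [add_zero, mem_closedBall_zero_iff]
      have hz1 : t * ‖z‖ < 1 / 2 := hz.1
      rw [le_div_iff₀ (by positivity)]
      linarith
    · rw [add_zero]; exact hz.1

end GM16
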