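import Pool.Agent.LibGM16.Latt

open Complex MeasureTheory Filter Topology Matrix
open scoped ContDiff Real ComplexOrder

namespace GM16

variable {γ t : ℝ} {v v' f f' : ℂ → ℝ}

theorem mem_LL_iff (w : ℂ) : w ∈ LL ↔ w ∈ L0.lattice := by
  rw [PeriodPair.mem_lattice]
  constructor
  · rintro ⟨m, n, h⟩
    refine ⟨m, n, ?_⟩
    rw [h]; simp only [L0]; ring
  · rintro ⟨m, n, h⟩
    refine ⟨m, n, ?_⟩
    rw [← h]; simp only [L0]; ring

theorem LL_sub_ZI {w : ℂ} (h : w ∈ LL) : w ∈ ZI := by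
  obtain ⟨m, n, h⟩ := h
  exact ⟨2 * m, 2 * n, by rw [h]; push_cast; ring⟩

theorem two_mul_mem_LL {w : ℂ} : 2 * w ∈ LL ↔ w ∈ ZI := by
  constructor
  · rintro ⟨m, n, h⟩
    exact ⟨m, n, by linear_combination h / 2⟩
  · rintro ⟨m, n, h⟩
    exact ⟨m, n, by rw [h]; ring⟩

theorem isClosed_LL : IsClosed LL := by
  have h : LL = (L0.lattice : Set ℂ) := by
    ext w; exact mem_LL_iff w
  rw [h]
  exact L0.isClosed_lattice

theorem wp_analytic {w : ℂ} (h : w ∉ LL) : AnalyticAt ℂ wp w ∧ AnalyticAt ℂ wpd w := by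
  rw [mem_LL_iff] at h
  exact ⟨L0.analyticOnNhd_weierstrassP w h, L0.analyticOnNhd_derivWeierstrassP w h⟩

theorem wp_hasDeriv {w : ℂ} (h : w ∉ LL) : HasDerivAt wp (wpd w) w := by
  have h1 := (wp_analytic h).1.differentiableAt.hasDerivAt
  have h2 : deriv wp w = wpd w := by
    have := congrFun L0.deriv_weierstrassP w
    exact this
  rwa [h2] at h1

theorem wp_neg (w : ℂ) : wp (-w) = wp w ∧ wpd (-w) = -wpd w :=
  ⟨L0.weierstrassP_neg w, L0.derivWeierstrassP_neg w⟩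

theorem wp_per {l : ℂ} (hl : l ∈ LL) (w : ℂ) : wp (w + l) = wp w ∧ wpd (w + l) = wpd w := by
  rw [mem_LL_iff] at hl
  exact ⟨L0.weierstrassP_add_coe w ⟨l, hl⟩, L0.derivWeierstrassP_add_coe w ⟨l, hl⟩⟩

/-- the differential equation -/
theorem wpd_sq {w : ℂ} (h : w ∉ LL) : wpd w ^ 2 = 4 * wp w ^ 3 - L0.g₂ * wp w - L0.g₃ := by
  rw [mem_LL_iff] at h
  exact L0.derivWeierstrassP_sq w h

theorem countable_LL : LL.Countable := by
  refine (Set.countable_range (fun p : ℤ × ℤ => (2 : ℂ) * p.1 + 2 * p.2 * I)).mono ?_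
  rintro w ⟨m, n, h⟩
  exact ⟨(m, n), h.symm⟩

theorem isPreconnected_compl_LL : IsPreconnected LLᶜ :=
  (countable_LL.isConnected_compl_of_one_lt_rank
    (rank_real_complex ▸ Nat.one_lt_ofNat)).isPreconnected

theorem zero_mem_LL : (0 : ℂ) ∈ LL := ⟨0, 0, by simp⟩

/-- points near a lattice point are not lattice points -/
theorem eventually_notMem_LL (l : ℂ) : ∀ᶠ w in 𝓝[≠] l, w ∉ LL := by
  have h := L0.compl_lattice_sdiff_singleton_mem_nhds l
  filter_upwards [mem_nhdsWithin_of_mem_nhds h, self_mem_nhdsWithin] with w hw hw2 hw3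
  rw [mem_LL_iff] at hw3
  exact hw ⟨hw3, hw2⟩

/-- `℘'` is not eventually zero near a point. -/
theorem wpd_not_eventually_zero {w : ℂ} (h : w ∉ LL) : ¬ ∀ᶠ z in 𝓝 w, wpd z = 0 := by
  intro h0
  have hA : AnalyticOnNhd ℂ wpd LLᶜ := fun z hz => (wp_analytic hz).2
  have h1 : Set.EqOn wpd 0 LLᶜ :=
    hA.eqOn_zero_of_preconnected_of_eventuallyEq_zero isPreconnected_compl_LL h h0
  obtain ⟨a, ha⟩ := isClosed_LL.isOpen_compl.exists_is_const_of_deriv_eq_zero
    isPreconnected_compl_LL (f := wp)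
    (fun z hz => (wp_hasDeriv hz).differentiableAt.differentiableWithinAt)
    (fun z hz => by rw [(wp_hasDeriv hz).deriv]; exact h1 hz)
  have h2 : (fun z => L0.weierstrassP z) =ᶠ[𝓝[≠] (0 : ℂ)] fun _ => a := by
    filter_upwards [eventually_notMem_LL 0] with z hz
    exact ha z hz
  have h3 := L0.order_weierstrassP 0 (by simp)
  have h4 := meromorphicOrderAt_congr h2
  classical
  rw [meromorphicOrderAt_const] at h4
  have h5 : meromorphicOrderAt (fun z => L0.weierstrassP z) 0 = -2 := h3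
  rw [h5] at h4
  split_ifs at h4
  · exact absurd h4 (by decide)
  · exact absurd h4 (by decide)

theorem wpd_hasDeriv {w : ℂ} (h : w ∉ LL) : HasDerivAt wpd (6 * wp w ^ 2 - L0.g₂ / 2) w := by
  have hd : ∀ z ∉ LL, wpd z * (2 * deriv wpd z - (12 * wp z ^ 2 - L0.g₂)) = 0 := by
    intro z hz
    have h1 : (fun z => wpd z ^ 2) =ᶠ[𝓝 z] fun z => 4 * wp z ^ 3 - L0.g₂ * wp z - L0.g₃ := by
      filter_upwards [isClosed_LL.isOpen_compl.mem_nhds hz] with y hy
      exact wpd_sq hy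
    have h2 := h1.deriv_eq
    have h3 : HasDerivAt (fun z => wpd z ^ 2) (2 * wpd z * deriv wpd z) z := by
      have := ((wp_analytic hz).2.differentiableAt.hasDerivAt).fun_pow 2
      simpa using this
    have h4 : HasDerivAt (fun z => 4 * wp z ^ 3 - L0.g₂ * wp z - L0.g₃)
        (4 * (3 * wp z ^ 2 * wpd z) - L0.g₂ * wpd z) z := by
      have h5 := ((((wp_hasDeriv hz).fun_pow 3).const_mul 4).fun_sub
        ((wp_hasDeriv hz).const_mul L0.g₂)).sub_const L0.g₃
      simpa using h5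
    rw [h3.deriv, h4.deriv] at h2
    linear_combination h2
  have hA := (wp_analytic h).2
  have hA' := (wp_analytic h).1
  have hev : ∀ᶠ z in 𝓝[≠] w, wpd z ≠ 0 :=
    (hA.eventually_eq_zero_or_eventually_ne_zero).resolve_left (wpd_not_eventually_zero h)
  have hev2 : ∀ᶠ z in 𝓝[≠] w, deriv wpd z = 6 * wp z ^ 2 - L0.g₂ / 2 := by
    filter_upwards [hev, mem_nhdsWithin_of_mem_nhds (isClosed_LL.isOpen_compl.mem_nhds h)]
      with z hz hz2
    have := (mul_eq_zero.1 (hd z hz2)).resolve_left hz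
    linear_combination this / 2
  have hc1 : ContinuousAt (deriv wpd) w := hA.deriv.continuousAt
  have hc2 : ContinuousAt (fun z => 6 * wp z ^ 2 - L0.g₂ / 2) w := by
    have := hA'.continuousAt
    fun_prop
  have h6 : deriv wpd w = 6 * wp w ^ 2 - L0.g₂ / 2 := by
    have t1 : Tendsto (deriv wpd) (𝓝[≠] w) (𝓝 (deriv wpd w)) := hc1.tendsto.mono_left nhdsWithin_le_nhds
    have t2 : Tendsto (fun z => 6 * wp z ^ 2 - L0.g₂ / 2) (𝓝[≠] w) (𝓝 (6 * wp w ^ 2 - L0.g₂ / 2)) :=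
      hc2.tendsto.mono_left nhdsWithin_le_nhds
    exact tendsto_nhds_unique (t1.congr' hev2) t2
  rw [← h6]
  exact hA.differentiableAt.hasDerivAt

end GM16
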