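import Pool.Agent.LibGM16.WA

open Complex MeasureTheory Filter Topology Matrix
open scoped ContDiff Real ComplexOrder

namespace GM16

variable {γ t : ℝ} {v v' f f' : ℂ → ℝ}

/-- the double pole -/
theorem wp_pole : Tendsto (fun w => w ^ 2 * wp w) (𝓝[≠] 0) (𝓝 1) ∧
    Tendsto (fun w => w ^ 3 * wpd w) (𝓝[≠] 0) (𝓝 (-2)) := by
  have hc1 : ContinuousAt (L0.weierstrassPExcept 0) 0 :=
    (L0.analyticAt_weierstrassPExcept 0).continuousAt
  have hc2 : ContinuousAt (L0.derivWeierstrassPExcept 0) 0 :=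
    (L0.analyticAt_derivWeierstrassPExcept 0).continuousAt
  have h1 : ∀ w : ℂ, w ≠ 0 → w ^ 2 * wp w = w ^ 2 * L0.weierstrassPExcept 0 w + 1 := by
    intro w hw
    have := L0.weierstrassPExcept_add ⟨0, by simp⟩ w
    unfold wp
    rw [← this]
    simp only [sub_zero]
    field_simp
    ring
  have h2 : ∀ w : ℂ, w ≠ 0 → w ^ 3 * wpd w = w ^ 3 * L0.derivWeierstrassPExcept 0 w - 2 := by
    intro w hw
    have := L0.derivWeierstrassPExcept_sub ⟨0, by simp⟩ w
    unfold wpd
    rw [← this]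
    simp only [sub_zero]
    field_simp
  constructor
  · have h3 : Tendsto (fun w : ℂ => w ^ 2 * L0.weierstrassPExcept 0 w + 1) (𝓝[≠] 0) (𝓝 1) := by
      have h4 : ContinuousAt (fun w : ℂ => w ^ 2 * L0.weierstrassPExcept 0 w + 1) 0 := by
        fun_prop
      have h5 := h4.tendsto.mono_left (nhdsWithin_le_nhds (s := {0}ᶜ))
      simpa using h5
    refine h3.congr' ?_
    filter_upwards [self_mem_nhdsWithin] with w hw
    exact (h1 w hw).symm
  · have h3 : Tendsto (fun w : ℂ => w ^ 3 * L0.derivWeierstrassPExcept 0 w - 2) (𝓝[≠] 0)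
        (𝓝 (-2)) := by
      have h4 : ContinuousAt (fun w : ℂ => w ^ 3 * L0.derivWeierstrassPExcept 0 w - 2) 0 := by
        fun_prop
      have h5 := h4.tendsto.mono_left (nhdsWithin_le_nhds (s := {0}ᶜ))
      simpa using h5
    refine h3.congr' ?_
    filter_upwards [self_mem_nhdsWithin] with w hw
    exact (h2 w hw).symm

theorem wp_tendsto {l : ℂ} (hl : l ∈ LL) : Tendsto wp (𝓝[≠] l) (cocompact ℂ) := by
  have h0 : Tendsto wp (𝓝[≠] 0) (cocompact ℂ) := by
    rw [← Metric.cobounded_eq_cocompact, ← comap_norm_atTop, tendsto_comap_iff]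
    have h1 := wp_pole.1.norm
    have h2 : Tendsto (fun w : ℂ => (‖w‖ ^ 2)⁻¹) (𝓝[≠] 0) atTop := by
      have h3 : Tendsto (fun w : ℂ => ‖w‖ ^ 2) (𝓝[≠] 0) (𝓝[>] 0) := by
        rw [tendsto_nhdsWithin_iff]
        constructor
        · have h4 : ContinuousAt (fun w : ℂ => ‖w‖ ^ 2) 0 := by fun_prop
          have h5 := h4.tendsto.mono_left (nhdsWithin_le_nhds (s := {0}ᶜ))
          simpa using h5
        · filter_upwards [self_mem_nhdsWithin] with w hw
          have : 0 < ‖w‖ := norm_pos_iff.2 hw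
          simp only [Set.mem_Ioi]
          positivity
      exact tendsto_inv_nhdsGT_zero.comp h3
    have h6 := h2.atTop_mul_pos (C := ‖(1 : ℂ)‖) (by simp) h1
    refine h6.congr' ?_
    filter_upwards [self_mem_nhdsWithin] with w hw
    have : 0 < ‖w‖ := norm_pos_iff.2 hw
    rw [norm_mul, norm_pow]
    field_simp
    rfl
  have h1 : Tendsto (fun w => w - l) (𝓝[≠] l) (𝓝[≠] 0) := by
    rw [tendsto_nhdsWithin_iff]
    constructor
    · have h4 : ContinuousAt (fun w : ℂ => w - l) l := by fun_prop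
      have h5 := h4.tendsto.mono_left (nhdsWithin_le_nhds (s := {l}ᶜ))
      simpa using h5
    · filter_upwards [self_mem_nhdsWithin] with w hw
      simp only [Set.mem_compl_iff, Set.mem_singleton_iff] at hw ⊢
      exact sub_ne_zero.2 hw
  have h2 := h0.comp h1
  refine h2.congr ?_
  intro w
  simp only [Function.comp]
  have := (wp_per hl (w - l)).1
  rw [sub_add_cancel] at this
  exact this.symm

end GM16
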