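import Pool.Agent.LibGM16.WB

open Complex MeasureTheory Filter Topology Matrix
open scoped ContDiff Real ComplexOrder

namespace GM16

variable {γ t : ℝ} {v v' f f' : ℂ → ℝ}

theorem ode_uniq_wc {F G : ℂ → ℂ} {x c : ℂ} (hF : AnalyticAt ℂ F x) (hG : AnalyticAt ℂ G x)
    (h0 : F x = G x) (h1 : deriv F x = deriv G x)
    (hF2 : ∀ᶠ w in 𝓝 x, deriv (deriv F) w = 6 * F w ^ 2 - c)
    (hG2 : ∀ᶠ w in 𝓝 x, deriv (deriv G) w = 6 * G w ^ 2 - c) : F =ᶠ[𝓝 x] G := by
  have hD : AnalyticAt ℂ (F - G) x := hF.sub hG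
  have hd1 : deriv (F - G) =ᶠ[𝓝 x] deriv F - deriv G := by
    filter_upwards [hF.eventually_analyticAt, hG.eventually_analyticAt] with w h1 h2
    rw [deriv_sub h1.differentiableAt h2.differentiableAt]
    rfl
  have hd2 : deriv (deriv (F - G)) =ᶠ[𝓝 x] (fun w => 6 * (F w + G w)) • (F - G) := by
    filter_upwards [hd1.deriv, hF.deriv.eventually_analyticAt, hG.deriv.eventually_analyticAt,
      hF2, hG2] with w a1 a2 a3 a4 a5
    rw [a1, deriv_sub a2.differentiableAt a3.differentiableAt, a4, a5]
    simp only [Pi.smul_apply', Pi.sub_apply, smul_eq_mul]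
    ring
  have hz : (F - G) x = 0 := by simp [h0]
  have hz1 : deriv (F - G) x = 0 := by
    rw [hd1.self_of_nhds]
    simp [h1]
  have e1 := hD.analyticOrderAt_deriv_add_one
  have e2 := hD.deriv.analyticOrderAt_deriv_add_one
  simp only [hz, hz1, sub_zero] at e1 e2
  rw [analyticOrderAt_congr hd2, analyticOrderAt_smul (by fun_prop) hD] at e2
  by_contra hcon
  have hne : analyticOrderAt (F - G) x ≠ ⊤ := by
    intro htop
    rw [analyticOrderAt_eq_top] at htop
    apply hcon
    filter_upwards [htop] with w hw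
    exact sub_eq_zero.1 hw
  obtain ⟨n, hn⟩ := ENat.ne_top_iff_exists.1 hne
  have e1' : analyticOrderAt (deriv (F - G)) x + 1 = analyticOrderAt (F - G) x := e1
  have e2' : analyticOrderAt (fun w => 6 * (F w + G w)) x + analyticOrderAt (F - G) x + 1
      = analyticOrderAt (deriv (F - G)) x := e2
  rw [← e2', ← hn] at e1'
  generalize analyticOrderAt (fun w => 6 * (F w + G w)) x = m at e1'
  cases m with
  | top => simp at e1'
  | coe m =>
    norm_cast at e1'
    omega

theorem LL_countable : LL.Countable := by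
  have : LL = Set.range (fun p : ℤ × ℤ => (2 * p.1 + 2 * p.2 * I : ℂ)) := by
    ext w
    constructor
    · rintro ⟨m, n, h⟩
      exact ⟨(m, n), h.symm⟩
    · rintro ⟨⟨m, n⟩, h⟩
      exact ⟨m, n, h.symm⟩
  rw [this]
  exact Set.countable_range _

theorem LL_neg {w : ℂ} (h : w ∈ LL) : -w ∈ LL := by
  obtain ⟨m, n, rfl⟩ := h
  exact ⟨-m, -n, by push_cast; ring⟩

theorem LL_punct : ∀ᶠ w in 𝓝[≠] (0 : ℂ), w ∉ LL := by
  have h1 : ∀ᶠ w in 𝓝[≠] (0 : ℂ), ‖w‖ < 1 := by
    apply eventually_nhdsWithin_of_eventually_nhds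
    have := (continuous_norm (E := ℂ)).continuousAt (x := (0 : ℂ))
    apply this.eventually_lt continuousAt_const
    simp
  filter_upwards [h1, self_mem_nhdsWithin] with w hw hw0 hLL
  have := one_le_norm_ZI (LL_sub_ZI hLL) hw0
  linarith

theorem wp_core_wc {a b : ℂ} (ha : a ∉ LL) (hb : b ∉ LL) (h : wp a = wp b)
    (h' : wpd a = wpd b) : b - a ∈ LL := by
  by_contra hd
  set d := b - a with hd_def
  have hcl := isClosed_LL
  -- local facts
  have hder : ∀ w, w ∉ LL → deriv wp =ᶠ[𝓝 w] wpd := by
    intro w hw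
    filter_upwards [hcl.isOpen_compl.mem_nhds hw] with z hz
    exact (wp_hasDeriv hz).deriv
  have hder2 : ∀ w, w ∉ LL → deriv (deriv wp) w = 6 * wp w ^ 2 - L0.g₂ / 2 := by
    intro w hw
    rw [(hder w hw).deriv_eq]
    exact (wpd_hasDeriv hw).deriv
  have hda : a + d = b := by rw [hd_def]; ring
  have hloc : wp =ᶠ[𝓝 a] (fun w => wp (w + d)) := by
    apply ode_uniq_wc (c := L0.g₂ / 2)
    · exact (wp_analytic ha).1
    · have : AnalyticAt ℂ wp (a + d) := by rw [hda]; exact (wp_analytic hb).1
      exact AnalyticAt.fun_comp this (by fun_prop)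
    · simp only [hda, h]
    · rw [deriv_comp_add_const, hda, (wp_hasDeriv ha).deriv, (wp_hasDeriv hb).deriv, h']
    · filter_upwards [hcl.isOpen_compl.mem_nhds ha] with w hw
      exact hder2 w hw
    · have hc : ContinuousAt (fun w : ℂ => w + d) a := by fun_prop
      have : ∀ᶠ w in 𝓝 a, w + d ∉ LL := hc.eventually_mem (by
        simp only [hda]
        exact hcl.isOpen_compl.mem_nhds hb)
      filter_upwards [this] with w hw
      have e : deriv (fun w => wp (w + d)) = fun w => deriv wp (w + d) := by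
        funext z
        rw [deriv_comp_add_const]
      rw [e, deriv_comp_add_const]
      exact hder2 _ hw
  -- the identity theorem
  set S : Set ℂ := LL ∪ {w | w + d ∈ LL} with hS
  have hScount : S.Countable := by
    apply LL_countable.union
    have : {w | w + d ∈ LL} = (fun w => w + d) ⁻¹' LL := rfl
    rw [this]
    exact LL_countable.preimage (add_left_injective d)
  have hpre : IsPreconnected Sᶜ :=
    (hScount.isConnected_compl_of_one_lt_rank (by simp [rank_real_complex])).isPreconnected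
  have hA1 : AnalyticOnNhd ℂ wp Sᶜ := fun w hw => (wp_analytic (fun hh => hw (Or.inl hh))).1
  have hA2 : AnalyticOnNhd ℂ (fun w => wp (w + d)) Sᶜ := by
    intro w hw
    have : AnalyticAt ℂ wp (w + d) := (wp_analytic (fun hh => hw (Or.inr hh))).1
    exact AnalyticAt.fun_comp this (by fun_prop)
  have haS : a ∈ Sᶜ := by
    rintro (hh | hh)
    · exact ha hh
    · apply hb
      have : a + d ∈ LL := hh
      rwa [hda] at this
  have hEq : Set.EqOn wp (fun w => wp (w + d)) Sᶜ :=
    hA1.eqOn_of_preconnected_of_eventuallyEq hA2 hpre haS hloc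
  -- the behaviour at zero
  have h0 : (0 : ℂ) ∈ LL := ⟨0, 0, by simp⟩
  have ht1 := wp_tendsto h0
  have ht2 : Tendsto (fun w => wp (w + d)) (𝓝[≠] 0) (𝓝 (wp d)) := by
    have hc : ContinuousAt (fun w => wp (w + d)) 0 := by
      have h1 : ContinuousAt wp (0 + d) := by
        rw [zero_add]; exact (wp_analytic hd).1.continuousAt
      exact ContinuousAt.comp' h1 (by fun_prop)
    have := hc.tendsto
    simp only [zero_add] at this
    exact this.mono_left nhdsWithin_le_nhds
  have hev : ∀ᶠ w in 𝓝[≠] (0 : ℂ), w + d ∉ LL := by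
    apply eventually_nhdsWithin_of_eventually_nhds
    have hc : ContinuousAt (fun w : ℂ => w + d) 0 := by fun_prop
    exact hc.eventually_mem (by
      simp only [zero_add]
      exact hcl.isOpen_compl.mem_nhds hd)
  have ht3 : Tendsto wp (𝓝[≠] 0) (𝓝 (wp d)) := by
    refine ht2.congr' ?_
    filter_upwards [hev, LL_punct] with w h1 h2
    exact (hEq (fun hh => hh.elim h2 h1)).symm
  exact ht3.not_tendsto (disjoint_nhds_cocompact _) ht1

/-- `℘` is injective modulo `±` and the lattice. (Replace `b` by `-b` so that also `℘'(a) = ℘'(b)`; the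
functions `℘(a + ·)`, `℘(b + ·)` solve `y'' = 6 y² - g₂/2` with the same initial values, so all their
Taylor coefficients at `0` agree, so they agree near `0`, hence on the complement of the
poles (connected), and they have the same poles.) -/
theorem wp_inj {a b : ℂ} (ha : a ∉ LL) (hb : b ∉ LL) (h : wp a = wp b) :
    a - b ∈ LL ∨ a + b ∈ LL := by
  have hsq : wpd a ^ 2 = wpd b ^ 2 := by
    rw [wpd_sq ha, wpd_sq hb, h]
  rcases sq_eq_sq_iff_eq_or_eq_neg.1 hsq with h1 | h1
  · left
    have := LL_neg (wp_core_wc ha hb h h1)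
    rwa [neg_sub] at this
  · right
    have hb' : -b ∉ LL := fun hh => hb (by simpa using LL_neg hh)
    have := LL_neg (wp_core_wc ha hb' (by rw [h, (wp_neg b).1]) (by rw [h1, (wp_neg b).2]))
    rw [neg_sub, sub_neg_eq_add] at this
    exact this

end GM16
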