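import Pool.Agent.LibGM16.WB

open Complex MeasureTheory Filter Topology Matrix
open scoped ContDiff Real ComplexOrder

namespace GM16

variable {γ t : ℝ} {v v' f f' : ℂ → ℝ}

theorem LL_countable_wd : LL.Countable := by
  have : LL = Set.range (fun p : ℤ × ℤ => (2 * p.1 + 2 * p.2 * I : ℂ)) := by
    ext w
    constructor
    · rintro ⟨m, n, h⟩
      exact ⟨(m, n), h.symm⟩
    · rintro ⟨⟨m, n⟩, h⟩
      exact ⟨m, n, h.symm⟩
  rw [this]
  exact Set.countable_range _

theorem LL_add_wd {a b : ℂ} (ha : a ∈ LL) (hb : b ∈ LL) : a + b ∈ LL := by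
  obtain ⟨m, n, rfl⟩ := ha
  obtain ⟨m', n', rfl⟩ := hb
  exact ⟨m + m', n + n', by push_cast; ring⟩

theorem LL_neg_wd {w : ℂ} (h : w ∈ LL) : -w ∈ LL := by
  obtain ⟨m, n, rfl⟩ := h
  exact ⟨-m, -n, by push_cast; ring⟩

theorem LL_punct_wd : ∀ᶠ w in 𝓝[≠] (0 : ℂ), w ∉ LL := by
  have h1 : ∀ᶠ w in 𝓝[≠] (0 : ℂ), ‖w‖ < 1 := by
    apply eventually_nhdsWithin_of_eventually_nhds
    have := (continuous_norm (E := ℂ)).continuousAt (x := (0 : ℂ))
    apply this.eventually_lt continuousAt_const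
    simp
  filter_upwards [h1, self_mem_nhdsWithin] with w hw hw0 hLL
  have := one_le_norm_ZI (LL_sub_ZI hLL) hw0
  linarith

/-- `℘` is not constant near a point -/
theorem wp_not_const_wd {w : ℂ} (hw : w ∉ LL) : ¬ ∀ᶠ z in 𝓝 w, wp z = wp w := by
  intro hc
  have hpre : IsPreconnected LLᶜ :=
    (LL_countable_wd.isConnected_compl_of_one_lt_rank (by simp [rank_real_complex])).isPreconnected
  have hA1 : AnalyticOnNhd ℂ wp LLᶜ := fun w hw => (wp_analytic hw).1
  have hA2 : AnalyticOnNhd ℂ (fun _ : ℂ => wp w) LLᶜ := fun w hw => analyticAt_const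
  have hEq := hA1.eqOn_of_preconnected_of_eventuallyEq hA2 hpre hw hc
  have h0 : (0 : ℂ) ∈ LL := ⟨0, 0, by simp⟩
  have ht1 := wp_tendsto h0
  have ht3 : Tendsto wp (𝓝[≠] 0) (𝓝 (wp w)) := by
    refine tendsto_const_nhds.congr' ?_
    filter_upwards [LL_punct_wd] with z hz
    exact (hEq hz).symm
  exact ht3.not_tendsto (disjoint_nhds_cocompact _) ht1

/-- reduction to a compact square -/
theorem red_wd (w : ℂ) : ∃ l ∈ LL, |(w + l).re| ≤ 1 ∧ |(w + l).im| ≤ 1 := by
  obtain ⟨n, ⟨a, b, hn⟩, h1, h2⟩ := exists_ZI_add_mem_QQ (w / 2)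
  refine ⟨2 * n, ⟨a, b, by rw [hn]; ring⟩, ?_, ?_⟩
  · rw [abs_le] at h1 ⊢
    simp at h1 ⊢
    constructor <;> linarith [h1.1, h1.2]
  · rw [abs_le] at h2 ⊢
    simp at h2 ⊢
    constructor <;> linarith [h2.1, h2.2]

theorem isCompact_sq_wd : IsCompact {w : ℂ | |w.re| ≤ 1 ∧ |w.im| ≤ 1} := by
  apply Metric.isCompact_of_isClosed_isBounded
  · exact (isClosed_le (continuous_abs.comp Complex.continuous_re) continuous_const).inter
      (isClosed_le (continuous_abs.comp Complex.continuous_im) continuous_const)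
  · rw [isBounded_iff_forall_norm_le]
    refine ⟨2, ?_⟩
    rintro w ⟨h1, h2⟩
    have := Complex.norm_le_abs_re_add_abs_im w
    linarith

/-- `℘` is onto `ℂ` (its image is open and closed). -/
theorem wp_surj (z : ℂ) : ∃ w, w ∉ LL ∧ wp w = z := by
  set R : Set ℂ := wp '' LLᶜ with hR
  have hopen : IsOpen R := by
    rw [isOpen_iff_mem_nhds]
    rintro _ ⟨w, hw, rfl⟩
    rcases (wp_analytic hw).1.eventually_constant_or_nhds_le_map_nhds with h | h
    · exact (wp_not_const_wd hw h).elim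
    · apply h
      rw [mem_map]
      filter_upwards [isClosed_LL.isOpen_compl.mem_nhds hw] with y hy
      exact ⟨y, hy, rfl⟩
  have hclosed : IsClosed R := by
    rw [← closure_subset_iff_isClosed]
    intro y hy
    obtain ⟨x, hx, hxy⟩ := mem_closure_iff_seq_limit.1 hy
    have h1 : ∀ n, ∃ w, w ∉ LL ∧ wp w = x n ∧ |w.re| ≤ 1 ∧ |w.im| ≤ 1 := by
      intro n
      obtain ⟨w, hw, hwx⟩ := hx n
      obtain ⟨l, hl, hre, him⟩ := red_wd w
      refine ⟨w + l, fun hh => hw ?_, ?_, hre, him⟩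
      · have := LL_add_wd hh (LL_neg_wd hl)
        simpa using this
      · rw [(wp_per hl w).1, hwx]
    choose w hw hwx hre him using h1
    obtain ⟨a, ha, φ, hφ, hlim⟩ := isCompact_sq_wd.tendsto_subseq (x := w)
      (fun n => ⟨hre n, him n⟩)
    have hxy' : Tendsto (fun n => wp (w (φ n))) atTop (𝓝 y) := by
      simp only [hwx]
      exact hxy.comp hφ.tendsto_atTop
    by_cases haL : a ∈ LL
    · exfalso
      have h2 : Tendsto (fun n => w (φ n)) atTop (𝓝[≠] a) := by
        apply tendsto_nhdsWithin_iff.2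
        refine ⟨hlim, Eventually.of_forall fun n hn => hw (φ n) ?_⟩
        rw [hn]
        exact haL
      have h3 := (wp_tendsto haL).comp h2
      exact hxy'.not_tendsto (disjoint_nhds_cocompact _) h3
    · refine ⟨a, haL, ?_⟩
      have h3 : Tendsto (fun n => wp (w (φ n))) atTop (𝓝 (wp a)) :=
        (wp_analytic haL).1.continuousAt.tendsto.comp hlim
      exact tendsto_nhds_unique h3 hxy'
  have hne : R.Nonempty := by
    refine ⟨wp 1, 1, ?_, rfl⟩
    rintro ⟨m, n, h⟩
    have := congrArg Complex.re h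
    simp at this
    have h2 : ((1 : ℤ) : ℝ) = ((2 * m : ℤ) : ℝ) := by push_cast; exact this
    have h3 : (1 : ℤ) = 2 * m := by exact_mod_cast h2
    omega
  have huniv : R = Set.univ := IsClopen.eq_univ ⟨hclosed, hopen⟩ hne
  have : z ∈ R := by rw [huniv]; trivial
  obtain ⟨w, hw, hz⟩ := this
  exact ⟨w, hw, hz⟩

end GM16
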