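import Pool.Agent.LibGM16.WC
import Pool.Agent.LibGM16.WD

open Complex MeasureTheory Filter Topology Matrix
open scoped ContDiff Real ComplexOrder

namespace GM16

variable {γ t : ℝ} {v v' f f' : ℂ → ℝ}

private lemma we_mem {m n : ℤ} : ((m : ℂ) + n * I) ∈ LL ↔ Even m ∧ Even n := by
  constructor
  · rintro ⟨a, b, h⟩
    have h1 := congrArg Complex.re h
    have h2 := congrArg Complex.im h
    simp at h1 h2
    have h3 : (m : ℝ) = ((2 * a : ℤ) : ℝ) := by push_cast; exact h1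
    have h4 : (n : ℝ) = ((2 * b : ℤ) : ℝ) := by push_cast; exact h2
    have h3 : m = 2 * a := Int.cast_injective h3
    have h4 : n = 2 * b := Int.cast_injective h4
    exact ⟨⟨a, by omega⟩, ⟨b, by omega⟩⟩
  · rintro ⟨⟨a, ha⟩, ⟨b, hb⟩⟩
    refine ⟨a, b, ?_⟩
    rw [ha, hb]
    push_cast
    ring

private lemma we_LL_neg {l : ℂ} (h : l ∈ LL) : -l ∈ LL := by
  obtain ⟨a, b, rfl⟩ := h
  exact ⟨-a, -b, by push_cast; ring⟩

private lemma we_one : (1 : ℂ) ∉ LL := by
  intro h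
  have : (((1 : ℤ) : ℂ) + ((0 : ℤ) : ℂ) * I) ∈ LL := by simpa using h
  rw [we_mem] at this
  exact absurd this.1 (by decide)

private lemma we_I : (I : ℂ) ∉ LL := by
  intro h
  have : (((0 : ℤ) : ℂ) + ((1 : ℤ) : ℂ) * I) ∈ LL := by simpa using h
  rw [we_mem] at this
  exact absurd this.2 (by decide)

private lemma we_oneI : (1 + I : ℂ) ∉ LL := by
  intro h
  have : (((1 : ℤ) : ℂ) + ((1 : ℤ) : ℂ) * I) ∈ LL := by simpa using h
  rw [we_mem] at this
  exact absurd this.1 (by decide)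

theorem e_ne : e1 ≠ e2 ∧ e1 ≠ e3 ∧ e2 ≠ e3 := by
  refine ⟨?_, ?_, ?_⟩
  · intro h
    rcases wp_inj we_one we_I h with h1 | h1
    · have : (((1 : ℤ) : ℂ) + ((-1 : ℤ) : ℂ) * I) ∈ LL := by
        convert h1 using 1; push_cast; ring
      rw [we_mem] at this
      exact absurd this.1 (by decide)
    · exact we_oneI h1
  · intro h
    rcases wp_inj we_one we_oneI h with h1 | h1
    · have : (((0 : ℤ) : ℂ) + ((-1 : ℤ) : ℂ) * I) ∈ LL := by
        convert h1 using 1; push_cast; ring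
      rw [we_mem] at this
      exact absurd this.2 (by decide)
    · have : (((2 : ℤ) : ℂ) + ((1 : ℤ) : ℂ) * I) ∈ LL := by
        convert h1 using 1; push_cast; ring
      rw [we_mem] at this
      exact absurd this.2 (by decide)
  · intro h
    rcases wp_inj we_I we_oneI h with h1 | h1
    · have : (((-1 : ℤ) : ℂ) + ((0 : ℤ) : ℂ) * I) ∈ LL := by
        convert h1 using 1; push_cast; ring
      rw [we_mem] at this
      exact absurd this.1 (by decide)
    · have : (((1 : ℤ) : ℂ) + ((2 : ℤ) : ℂ) * I) ∈ LL := by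
        convert h1 using 1; push_cast; ring
      rw [we_mem] at this
      exact absurd this.1 (by decide)

theorem wp_e {w : ℂ} (h : w ∉ LL) (hz : w ∈ ZI) :
    (w - 1 ∈ LL ∧ wp w = e1) ∨ (w - I ∈ LL ∧ wp w = e2) ∨ (w - (1 + I) ∈ LL ∧ wp w = e3) := by
  obtain ⟨m, n, rfl⟩ := hz
  rw [we_mem, not_and_or] at h
  rcases Int.even_or_odd m with hm | hm
  · have hn : Odd n := by
      rcases h with h | h
      · exact absurd hm h
      · exact Int.not_even_iff_odd.mp h
    right; left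
    have hl : ((m : ℂ) + n * I) - I ∈ LL := by
      have : (((m : ℤ) : ℂ) + ((n - 1 : ℤ) : ℂ) * I) ∈ LL :=
        we_mem.mpr ⟨hm, hn.sub_odd odd_one⟩
      convert this using 1; push_cast; ring
    refine ⟨hl, ?_⟩
    have := (wp_per hl I).1
    rw [add_sub_cancel] at this
    exact this
  · rcases Int.even_or_odd n with hn | hn
    · left
      have hl : ((m : ℂ) + n * I) - 1 ∈ LL := by
        have : (((m - 1 : ℤ) : ℂ) + ((n : ℤ) : ℂ) * I) ∈ LL :=
          we_mem.mpr ⟨hm.sub_odd odd_one, hn⟩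
        convert this using 1; push_cast; ring
      refine ⟨hl, ?_⟩
      have := (wp_per hl 1).1
      rw [add_sub_cancel] at this
      exact this
    · right; right
      have hl : ((m : ℂ) + n * I) - (1 + I) ∈ LL := by
        have : (((m - 1 : ℤ) : ℂ) + ((n - 1 : ℤ) : ℂ) * I) ∈ LL :=
          we_mem.mpr ⟨hm.sub_odd odd_one, hn.sub_odd odd_one⟩
        convert this using 1; push_cast; ring
      refine ⟨hl, ?_⟩
      have := (wp_per hl (1 + I)).1
      rw [add_sub_cancel] at this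
      exact this

private lemma we_ZI_one : (1 : ℂ) ∈ ZI := ⟨1, 0, by simp⟩
private lemma we_ZI_I : (I : ℂ) ∈ ZI := ⟨0, 1, by simp⟩
private lemma we_ZI_oneI : (1 + I : ℂ) ∈ ZI := ⟨1, 1, by simp⟩

private lemma we_aux {w a : ℂ} (h : w ∉ LL) (ha : a ∉ LL) (haz : a ∈ ZI) (he : wp w = wp a) :
    w ∈ ZI := by
  rcases wp_inj h ha he with h1 | h1
  · have := ZI_add (LL_sub_ZI h1) haz
    simpa using this
  · have := ZI_add (LL_sub_ZI h1) (ZI_neg haz)
    simpa using this

/-- `℘(w) ∈ {e₁, e₂, e₃}` iff `w` is a half period -/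
theorem wp_mem_iff {w : ℂ} (h : w ∉ LL) : (wp w = e1 ∨ wp w = e2 ∨ wp w = e3) ↔ w ∈ ZI := by
  constructor
  · rintro (h1 | h1 | h1)
    · exact we_aux h we_one we_ZI_one h1
    · exact we_aux h we_I we_ZI_I h1
    · exact we_aux h we_oneI we_ZI_oneI h1
  · intro hz
    rcases wp_e h hz with h1 | h1 | h1
    · exact Or.inl h1.2
    · exact Or.inr (Or.inl h1.2)
    · exact Or.inr (Or.inr h1.2)

private lemma we_zero {w : ℂ} (hz : w ∈ ZI) : wpd w = 0 := by
  have hl : 2 * w ∈ LL := two_mul_mem_LL.mpr hz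
  have h1 := (wp_per hl (-w)).2
  have h2 := (wp_neg w).2
  have e : -w + 2 * w = w := by ring
  rw [e, h2] at h1
  have h3 : (2 : ℂ) * wpd w = 0 := by
    linear_combination h1
  simpa using h3

private lemma we_root {a : ℂ} (ha : a ∉ LL) (haz : a ∈ ZI) :
    4 * wp a ^ 3 - L0.g₂ * wp a - L0.g₃ = 0 := by
  rw [← wpd_sq ha, we_zero haz]
  simp

private lemma we_factor {w : ℂ} (h : w ∉ LL) :
    wpd w ^ 2 = 4 * (wp w - e1) * (wp w - e2) * (wp w - e3) := by
  rw [wpd_sq h]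
  have r1 : 4 * e1 ^ 3 - L0.g₂ * e1 - L0.g₃ = 0 := we_root we_one we_ZI_one
  have r2 : 4 * e2 ^ 3 - L0.g₂ * e2 - L0.g₃ = 0 := we_root we_I we_ZI_I
  have r3 : 4 * e3 ^ 3 - L0.g₂ * e3 - L0.g₃ = 0 := we_root we_oneI we_ZI_oneI
  obtain ⟨n12, n13, n23⟩ := e_ne
  have g12 : 4 * (e1 ^ 2 + e1 * e2 + e2 ^ 2) = L0.g₂ := by
    apply mul_left_cancel₀ (sub_ne_zero.mpr n12)
    linear_combination r1 - r2
  have g13 : 4 * (e1 ^ 2 + e1 * e3 + e3 ^ 2) = L0.g₂ := by
    apply mul_left_cancel₀ (sub_ne_zero.mpr n13)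
    linear_combination r1 - r3
  have hsum : e1 + e2 + e3 = 0 := by
    apply mul_left_cancel₀ (sub_ne_zero.mpr n23)
    linear_combination (1 / 4 : ℂ) * g12 - (1 / 4 : ℂ) * g13
  have e3' : e3 = -e1 - e2 := by linear_combination hsum
  have g3 : L0.g₃ = 4 * e1 ^ 3 - L0.g₂ * e1 := by linear_combination -r1
  rw [g3, ← g12, e3']
  ring

/-- zeros of `℘'` -/
theorem wpd_eq_zero {w : ℂ} (h : w ∉ LL) : wpd w = 0 ↔ w ∈ ZI := by
  constructor
  · intro h0
    have h1 := we_factor h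
    rw [h0] at h1
    rw [← wp_mem_iff h]
    have h2 : (wp w - e1) * (wp w - e2) * (wp w - e3) = 0 := by
      linear_combination (-1 / 4 : ℂ) * h1
    rcases mul_eq_zero.mp h2 with h3 | h3
    · rcases mul_eq_zero.mp h3 with h4 | h4
      · exact Or.inl (sub_eq_zero.mp h4)
      · exact Or.inr (Or.inl (sub_eq_zero.mp h4))
    · exact Or.inr (Or.inr (sub_eq_zero.mp h3))
  · exact we_zero

theorem wpd_sq_factor {w : ℂ} (h : w ∉ LL) :
    wpd w ^ 2 = 4 * (wp w - e1) * (wp w - e2) * (wp w - e3) := we_factor h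

theorem qq_wp {w : ℂ} (h : w ∉ ZI) : qq (wp w) = 1 / wpd w ^ 2 := by
  have hL : w ∉ LL := fun h' => h (LL_sub_ZI h')
  rw [we_factor hL]
  rfl

end GM16
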