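import Pool.Agent.LibGM16.NewCk
import Pool.Agent.LibGM16.LocRep
import Pool.Agent.LibGM16.RemSm

open Complex MeasureTheory Filter Topology Matrix
open scoped ContDiff Real ComplexOrder

namespace GM16

variable {γ t : ℝ} {v v' f f' : ℂ → ℝ}

/-- Cutoff functions. -/
theorem exists_cutoff (x₀ : ℂ) {r : ℝ} (hr : 0 < r) : ∃ χ : ℂ → ℝ, ContDiff ℝ ∞ χ ∧
    (∀ z ∈ Metric.ball x₀ (2 * r), χ z = 1) ∧ tsupport χ ⊆ Metric.ball x₀ (3 * r) := by
  let b : ContDiffBump x₀ := ⟨2 * r, 5 / 2 * r, by linarith, by linarith⟩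
  refine ⟨b, b.contDiff, fun z hz => b.one_of_mem_closedBall (Metric.ball_subset_closedBall hz), ?_⟩
  rw [b.tsupport_eq]
  exact Metric.closedBall_subset_ball (by change 5 / 2 * r < 3 * r; linarith)

/-- Interior regularity: one derivative more than the right hand side. -/
theorem weak_reg {Ω : Set ℂ} (hΩ : IsOpen Ω) {u F : ℂ → ℝ} (hu : ContinuousOn u Ω)
    (hF : ContinuousOn F Ω)
    (hw : ∀ φ : ℂ → ℝ, ContDiff ℝ ∞ φ → HasCompactSupport φ → tsupport φ ⊆ Ω →
      ∫ z, u z * lap φ z = ∫ z, F z * φ z)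
    (k : ℕ) (hk : ContDiffOn ℝ k F Ω) : ContDiffOn ℝ (k + 1) u Ω := by
  intro x₀ hx₀
  obtain ⟨R, hR, hball⟩ := Metric.isOpen_iff.1 hΩ x₀ hx₀
  set r := R / 4 with hrdef
  have hr : 0 < r := by positivity
  have hB : Metric.closedBall x₀ (3 * r) ⊆ Ω :=
    (Metric.closedBall_subset_ball (by rw [hrdef]; linarith)).trans hball
  obtain ⟨χ, hχ, hχ1, hχs⟩ := exists_cutoff x₀ hr
  have hs : tsupport χ ⊆ Ω := hχs.trans (Metric.ball_subset_closedBall.trans hB)
  have hc : HasCompactSupport χ := by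
    refine HasCompactSupport.of_support_subset_isCompact (isCompact_closedBall x₀ (3 * r)) ?_
    exact (subset_tsupport χ).trans (hχs.trans Metric.ball_subset_closedBall)
  have hg : ContDiff ℝ k (fun y => F y * χ y) :=
    contDiffAt_mul hΩ hk (hχ.of_le (by norm_cast; exact le_top)) hs
  have hgc : HasCompactSupport (fun y => F y * χ y) := hcs_mul hc
  have hN := newton_contDiff k _ hg hgc
  have hR' := remainder_smooth hΩ hu hr hχ hχ1 hχs hB
  have hsum : ContDiffOn ℝ (k + 1) (fun x => -(∫ y, NK (x - y) * (F y * χ y)) +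
      ∫ y, u y * (2 * (dx χ y * dx (fun y => NK (x - y)) y + dy χ y * dy (fun y => NK (x - y)) y) +
        NK (x - y) * lap χ y)) (Metric.ball x₀ r) :=
    hN.neg.contDiffOn.add (hR'.of_le (by
      have : ((k : WithTop ℕ∞) + 1) = ((k + 1 : ℕ) : WithTop ℕ∞) := by push_cast; rfl
      rw [this]
      norm_cast
      exact le_top))
  have hcongr : ContDiffOn ℝ (k + 1) u (Metric.ball x₀ r) := by
    refine hsum.congr fun x hx => ?_
    rw [local_rep hΩ hu hF hw hr hχ hχ1 hχs hB hx]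
    congr 2
    refine integral_congr_ae (Eventually.of_forall fun y => ?_)
    simp only
    ring
  exact (hcongr.contDiffAt (Metric.ball_mem_nhds x₀ hr)).contDiffWithinAt

end GM16
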